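import Mathlib
import Pool.Agent.Y724.Vj.Place

/-!
# Statements for the project T4 (Vojta's inequality at sparse algebraic points of bounded degree)
-/

set_option autoImplicit false

namespace Pool.Agent.Y724.T4

open MvPolynomial NumberField Pool.Agent.Y724.Vj

/-- **LDD**: logarithmic derivatives over a discrete valuation. -/
def S_LDD : Prop :=
  ∀ (F L M : Type) [Field F] [Field L] [Field M] [Algebra F L] [Algebra L M] [Algebra F M]
    [IsScalarTower F L M] [FiniteDimensional F L] [CharZero F]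
    (w : Valuation M (WithZero (Multiplicative ℤ))) (D : L →+ M),
    (∀ n : ℕ, n ≠ 0 → w (n : M) = 1) →
    (∀ a b : L, D (a * b) = algebraMap L M a * D b + algebraMap L M b * D a) →
    (∀ a : F, w (D (algebraMap F L a)) ≤ w (algebraMap F M a)) →
    ∀ φ : L, w (D φ) ≤ w (algebraMap L M φ)

/-- **LD**: logarithmic derivatives of algebraic functions of elements with monomial bounds. -/
def S_LD : Prop :=
  ∀ (G k : Type) [Field G] [CharZero G] [Algebra ℚ G] [Field k] [Algebra k G] (m : ℕ)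
    (g : Fin m → G), AlgebraicIndependent k g →
    ∀ (E : Derivation ℚ G G) (R0 : Subring G),
    (∀ a ∈ R0, ∃ (c : Fin m → ℕ) (p q : MvPolynomial (Fin m) k),
      a * ∏ i, g i ^ c i = aeval g p ∧ E a * ∏ i, g i ^ c i = aeval g q ∧
        q.support ⊆ p.support) →
    ∀ (A : ValuationSubring G) (γ : Fin m → ℝ), (∀ a : k, algebraMap k G a ∈ A) →
    (∀ (p : MvPolynomial (Fin m) k), ∀ α ∈ p.support,
      A.valuation (∏ i, g i ^ α i) ≤ A.valuation (aeval g p)) →
    (∀ α β : Fin m →₀ ℕ, A.valuation (∏ i, g i ^ α i) ≤ A.valuation (∏ i, g i ^ β i) ↔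
      ∑ i, (α i : ℝ) * γ i ≤ ∑ i, (β i : ℝ) * γ i) →
    ∀ φ : G, IsAlgebraic R0 φ → A.valuation (E φ) ≤ A.valuation φ

/-- **DER**: a derivation with given values on a tuple. -/
def S_DER : Prop :=
  ∀ (G : Type) [Field G] [CharZero G] [Algebra ℚ G] (m : ℕ) (z T : Fin m → G),
    (∀ P : MvPolynomial (Fin m) ℚ, aeval z P = 0 →
      ∑ i, aeval z (pderiv i P) * T i = 0) →
    ∃ E : Derivation ℚ G G, ∀ i, E (z i) = T i

/-! ### number fields -/

/-- the finite places of `K` over the primes in `S` -/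
def Over (K : Type) [Field K] [NumberField K] (S : Finset ℕ) : Set (FinitePlace K) :=
  {v | ∃ p ∈ S, v (p : K) < 1}

/-- the local height of the subvariety `F j = 0` at the absolute value `a` -/
noncomputable def locH {K : Type} [Field K] {ν w : ℕ} (F : Fin w → MvPolynomial (Fin ν) ℤ)
    (d : Fin w → ℕ) (x : Fin ν → K) (a : AbsoluteValue K ℝ) : ℝ :=
  -Real.log (⨆ j, a (aeval x (F j)) / (⨆ i, a (x i)) ^ d j)

/-- the sum of `log |D|_v` over the infinite places and the places over `S` -/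
noncomputable def logS {K : Type} [Field K] [NumberField K] (S : Finset ℕ) (D : K) : ℝ :=
  ∑ v : InfinitePlace K, v.mult * Real.log (v D) + ∑ᶠ v ∈ Over K S, Real.log (v D)

/-- the inequality for the maximal minors at the absolute value `a` -/
def AtPl {K : Type} [Field K] {ν n q w : ℕ} (F : Fin q → Fin w → MvPolynomial (Fin ν) ℤ)
    (d : Fin q → Fin w → ℕ) (x : Fin ν → K) (T : Matrix (Fin ν) (Fin n) K)
    (a : AbsoluteValue K ℝ) (δ : ℝ) : Prop :=
  ∃ (y0 : Fin ν) (jj : Fin q → Fin w), (∀ y, a (x y) ≤ a (x y0)) ∧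
    (∀ i, aeval x (F i (jj i)) ≠ 0) ∧
    ∀ J : Fin n → Fin ν, a ((T.submatrix J id).det * ∏ i, x y0 ^ (d i (jj i))) ≤
      a (x y0 ^ n * ∏ i, aeval x (F i (jj i))) * Real.exp δ

/-- **ASM**: from the inequalities at the places to the inequality of heights. -/
def S_ASM : Prop :=
  ∀ (ν n sc g q w : ℕ), ν = n + sc →
  ∀ (Gp : Fin g → MvPolynomial (Fin ν) ℤ) (F : Fin q → Fin w → MvPolynomial (Fin ν) ℤ)
    (d : Fin q → Fin w → ℕ), NCf ℂ sc Gp F →
  ∀ (K : Type) [Field K] [NumberField K] (S : Finset ℕ), (∀ p ∈ S, p.Prime) →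
  ∀ (x : Fin ν → K), x ≠ 0 → (∀ a, aeval x (Gp a) = 0) →
  ∀ (T : Matrix (Fin ν) (Fin n) K), (∀ a c, ∑ y, aeval x (pderiv y (Gp a)) * T y c = 0) →
  ∀ (J0 : Fin n → Fin ν), (T.submatrix J0 id).det ≠ 0 →
  ∀ (D : K), D ≠ 0 →
    (∀ v : FinitePlace K, v ∉ Over K S → ∀ J : Fin n → Fin ν,
      v ((T.submatrix J id).det * D) ≤ 1) →
  ∀ (δ : ℝ), 0 ≤ δ → (∀ v : InfinitePlace K, AtPl F d x T v.1 δ) →
    (∀ v ∈ Over K S, AtPl F d x T v.1 δ) →
  ∀ (AA : Matrix (Fin ν) (Fin n) K), LinearIndependent K AA.col →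
    (∀ a c, ∑ y, aeval x (pderiv y (Gp a)) * AA y c = 0) →
    ∑ i, (∑ v : InfinitePlace K, v.mult * locH (F i) (d i) x v.1 +
      ∑ᶠ v ∈ Over K S, locH (F i) (d i) x v.1) +
      Height.logHeight (fun J : Fin n → Fin ν => (AA.submatrix J id).det) ≤
      n * (Height.logHeight x - ∑ᶠ v ∈ (Over K S)ᶜ, Real.log (⨆ i, v (x i))) + logS S D +
        Module.finrank ℚ K * (S.card + 1) * δ

/-- **PLC**: places over a prime -/
def S_PLC : Prop :=
  (∀ (K : Type) [Field K] [NumberField K] (p : ℕ), p.Prime →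
    ∃ f : Fin (Module.finrank ℚ K) → FinitePlace K, ∀ v : FinitePlace K,
      v (p : K) < 1 ↔ ∃ i, f i = v) ∧
  (∀ (K : Type) [Field K] [NumberField K] (p : ℕ), p.Prime → ∀ v : FinitePlace K,
    v (p : K) < 1 → ∃ e : ℕ, 1 ≤ e ∧ e ≤ Module.finrank ℚ K ∧
      ∀ q : ℚ, v (q : K) = (padicNorm p q : ℝ) ^ e)

/-- **NRM**: the norm and the places over `S` -/
def S_NRM : Prop :=
  ∀ (K : Type) [Field K] [NumberField K] (S : Finset ℕ), (∀ p ∈ S, p.Prime) →
  ∀ D : K, D ≠ 0 → logS S D = Real.log |((Algebra.norm ℚ D : ℚ) : ℝ)| +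
    ∑ p ∈ S, Real.log ((padicNorm p (Algebra.norm ℚ D) : ℚ) : ℝ)

end Pool.Agent.Y724.T4
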