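import Mathlib
import Pool.Agent.Y724.T4.Stm

/-!
# ASM: from the inequalities at the places to the inequality of heights, over a number field
-/

set_option autoImplicit false

namespace Pool.Agent.Y724.T4

open MvPolynomial NumberField Pool.Agent.Y724.Vj

section minors

/-- the vectors of maximal minors of two bases of the same space are proportional -/
lemma minors_smul {K : Type} [Field K] {ν n s : ℕ} (hν : ν = n + s) (R : Fin s → Fin ν → K)
    (hR : LinearIndependent K R) (T AA : Matrix (Fin ν) (Fin n) K)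
    (hT0 : ∀ a c, ∑ y, R a y * T y c = 0) (hA0 : ∀ a c, ∑ y, R a y * AA y c = 0)
    (J0 : Fin n → Fin ν) (hdet : (T.submatrix J0 id).det ≠ 0)
    (hAA : LinearIndependent K AA.col) :
    ∃ c : K, c ≠ 0 ∧ ∀ J : Fin n → Fin ν,
      (AA.submatrix J id).det = c * (T.submatrix J id).det := by
  classical
  let RM : Matrix (Fin s) (Fin ν) K := Matrix.of R
  have hWd : Module.finrank K (LinearMap.ker RM.mulVecLin) = n := by
    have h1 := LinearMap.finrank_range_add_finrank_ker RM.mulVecLin
    rw [Module.finrank_fin_fun] at h1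
    have h2 : Module.finrank K (LinearMap.range RM.mulVecLin) = s := by
      have h3 : RM.rank = Fintype.card (Fin s) := LinearIndependent.rank_matrix (M := RM) hR
      rw [Fintype.card_fin] at h3
      exact h3
    omega
  have hTcol : LinearIndependent K T.col := by
    rw [Fintype.linearIndependent_iff]
    intro g hg
    have h1 : g = 0 := by
      apply Matrix.eq_zero_of_mulVec_eq_zero hdet
      funext i
      have h2 := congrFun hg (J0 i)
      rw [Finset.sum_apply] at h2
      rw [Matrix.mulVec, dotProduct]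
      refine Eq.trans ?_ h2
      refine Finset.sum_congr rfl fun c _ => ?_
      rw [Pi.smul_apply, smul_eq_mul, mul_comm]
      rfl
    intro i
    rw [h1]
    rfl
  have hmem : ∀ M : Matrix (Fin ν) (Fin n) K, (∀ a c, ∑ y, R a y * M y c = 0) →
      ∀ c, M.col c ∈ LinearMap.ker RM.mulVecLin := by
    intro M hM c
    rw [LinearMap.mem_ker, Matrix.mulVecLin_apply]
    funext a
    exact hM a c
  have hspan : Submodule.span K (Set.range T.col) = LinearMap.ker RM.mulVecLin := by
    apply Submodule.eq_of_le_of_finrank_eq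
    · rw [Submodule.span_le]
      rintro _ ⟨c, rfl⟩
      exact hmem T hT0 c
    · rw [hWd, finrank_span_eq_card hTcol, Fintype.card_fin]
  have hM : ∀ c, ∃ m : Fin n → K, ∑ i, m i • T.col i = AA.col c := by
    intro c
    have h1 := hmem AA hA0 c
    rw [← hspan] at h1
    exact (Submodule.mem_span_range_iff_exists_fun K).1 h1
  choose m hm using hM
  have hAT : ∀ y c, AA y c = ∑ i, T y i * m c i := by
    intro y c
    have h1 := congrFun (hm c) y
    rw [Finset.sum_apply] at h1
    refine Eq.trans h1.symm ?_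
    refine Finset.sum_congr rfl fun i _ => ?_
    rw [Pi.smul_apply, smul_eq_mul, mul_comm]
    rfl
  let N : Matrix (Fin n) (Fin n) K := Matrix.of fun i c => m c i
  refine ⟨N.det, ?_, ?_⟩
  · intro h0
    obtain ⟨v, hv0, hv⟩ := Matrix.exists_mulVec_eq_zero_iff.2 h0
    apply hv0
    rw [Fintype.linearIndependent_iff] at hAA
    funext c
    refine hAA v ?_ c
    funext y
    rw [Finset.sum_apply]
    have h1 : ∀ c, (v c • AA.col c) y = ∑ i, T y i * (m c i * v c) := by
      intro c
      rw [Pi.smul_apply, smul_eq_mul]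
      change v c * AA y c = _
      rw [hAT, Finset.mul_sum]
      exact Finset.sum_congr rfl fun i _ => by ring
    rw [Finset.sum_congr rfl fun c _ => h1 c, Finset.sum_comm]
    refine Finset.sum_eq_zero fun i _ => ?_
    rw [← Finset.mul_sum]
    have h2 := congrFun hv i
    rw [Matrix.mulVec, dotProduct] at h2
    have h3 : ∑ c, m c i * v c = 0 := h2
    rw [h3, mul_zero]
  · intro J
    have h1 : AA.submatrix J id = (T.submatrix J id) * N := by
      ext i c
      rw [Matrix.mul_apply, Matrix.submatrix_apply]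
      exact hAT (J i) c
    rw [h1, Matrix.det_mul, mul_comm]

lemma li_down' {k K : Type} [Field k] [Field K] (φ : k →+* K) {κ : Type} {ν : ℕ}
    (M : κ → Fin ν → k) (h : LinearIndependent K (fun i y => φ (M i y))) :
    LinearIndependent k M := by
  rw [linearIndependent_iff'] at h ⊢
  intro S c hc i hi
  have h1 := h S (fun i => φ (c i)) (by
    funext y
    have h2 := congrArg φ (congrFun hc y)
    rw [Finset.sum_apply, map_sum, Pi.zero_apply, map_zero] at h2
    rw [Finset.sum_apply, Pi.zero_apply, ← h2]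
    refine Finset.sum_congr rfl fun i _ => ?_
    simp) i hi
  exact (map_eq_zero φ).1 h1

lemma aeval_eq_evi {K : Type} [CommRing K] {ν : ℕ} (x : Fin ν → K)
    (P : MvPolynomial (Fin ν) ℤ) : aeval x P = evi x P := by
  unfold evi
  rw [aeval_def]
  rfl

/-- independent gradients at a point with coordinates in a number field -/
lemma exists_rows {K : Type} [Field K] [NumberField K] {ν sc g q w : ℕ}
    (Gp : Fin g → MvPolynomial (Fin ν) ℤ) (F : Fin q → Fin w → MvPolynomial (Fin ν) ℤ)
    (hnc : NCf ℂ sc Gp F) (x : Fin ν → K) (hx : x ≠ 0) (hG : ∀ a, aeval x (Gp a) = 0) :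
    ∃ k : Fin sc → Fin g, LinearIndependent K
      (fun (a : Fin sc) (y : Fin ν) => aeval x (pderiv y (Gp (k a)))) := by
  obtain ⟨φ⟩ := (inferInstance : Nonempty (K →+* ℂ))
  have hev : ∀ P : MvPolynomial (Fin ν) ℤ, evi (fun y => φ (x y)) P = φ (evi x P) :=
    fun P => (map_evi φ x P).symm
  obtain ⟨k, J, hli⟩ := hnc (fun y => φ (x y)) (by
    intro h0
    apply hx
    funext y
    exact (map_eq_zero φ).1 (congrFun h0 y)) (by
    intro a
    rw [hev, ← aeval_eq_evi, hG, map_zero])
  refine ⟨k, li_down' φ _ ?_⟩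
  have h1 := hli.comp Sum.inl Sum.inl_injective
  have h2 : (fun (a : Fin sc) (y : Fin ν) => φ (aeval x (pderiv y (Gp (k a))))) =
      (Sum.elim (fun (a : Fin sc) (y : Fin ν) => evi (fun y => φ (x y)) (pderiv y (Gp (k a))))
        (fun (i : {i : Fin q // ∀ j, evi (fun y => φ (x y)) (F i j) = 0}) (y : Fin ν) =>
          evi (fun y => φ (x y)) (pderiv y (F i.1 (J i.1))))) ∘ Sum.inl := by
    funext a y
    simp only [Function.comp_apply, Sum.elim_inl]
    rw [hev, ← aeval_eq_evi]
  rw [h2]
  exact h1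

end minors

section places

variable {K : Type} [Field K] [NumberField K]

lemma fin_ne_one {c : K} (hc : c ≠ 0) : {v : FinitePlace K | v c ≠ 1}.Finite :=
  FinitePlace.hasFiniteMulSupport hc

/-- the size of a vector at a place -/
lemma sup_fin {ι : Type} [Finite ι] {u : ι → K} (hu : u ≠ 0) :
    {v : FinitePlace K | (⨆ i, v (u i)) ≠ 1}.Finite := by
  classical
  obtain ⟨i0, hi0⟩ := Function.ne_iff.1 hu
  have : Nonempty ι := ⟨i0⟩
  have h1 : (⋃ i : {i : ι // u i ≠ 0}, {v : FinitePlace K | v (u i) ≠ 1}).Finite :=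
    Set.finite_iUnion fun i => fin_ne_one i.2
  refine h1.subset ?_
  intro v hv
  by_contra hcon
  simp only [Set.mem_iUnion, not_exists] at hcon
  apply hv
  have h2 : ∀ i, u i ≠ 0 → v (u i) = 1 := by
    intro i hi
    by_contra h3
    exact hcon ⟨i, hi⟩ h3
  apply le_antisymm
  · refine ciSup_le fun i => ?_
    by_cases hi : u i = 0
    · rw [hi, map_zero]
      exact zero_le_one
    · exact (h2 i hi).le
  · rw [← h2 i0 hi0]
    exact le_ciSup (f := fun i => v (u i)) (Set.finite_range _).bddAbove i0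

omit [NumberField K] in
lemma sup_pos {ι : Type} [Finite ι] {u : ι → K} (hu : u ≠ 0) (a : AbsoluteValue K ℝ) :
    0 < ⨆ i, a (u i) := by
  obtain ⟨i0, hi0⟩ := Function.ne_iff.1 hu
  exact (a.pos hi0).trans_le (le_ciSup (f := fun i => a (u i)) (Set.finite_range _).bddAbove i0)

/-- the logarithmic height as a sum over the places -/
lemma logHeight_sum {ι : Type} [Finite ι] {u : ι → K} (hu : u ≠ 0) :
    Height.logHeight u = ∑ v : InfinitePlace K, v.mult * Real.log (⨆ i, v (u i)) +
      ∑ᶠ v : FinitePlace K, Real.log (⨆ i, v (u i)) := by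
  classical
  rw [Height.logHeight_eq_log_mulHeight, NumberField.mulHeight_eq hu]
  have hi : ∀ v : InfinitePlace K, 0 < ⨆ i, v (u i) := fun v => sup_pos hu v.1
  have hf : ∀ v : FinitePlace K, 0 < ⨆ i, v (u i) := fun v => sup_pos hu v.1
  have h1 : Function.mulSupport (fun v : FinitePlace K => ⨆ i, v (u i)) ⊆
      (sup_fin hu).toFinset := by
    intro v hv
    rw [Finset.mem_coe, Set.Finite.mem_toFinset]
    exact hv
  have h2 : Function.support (fun v : FinitePlace K => Real.log (⨆ i, v (u i))) ⊆
      (sup_fin hu).toFinset := by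
    intro v hv
    rw [Finset.mem_coe, Set.Finite.mem_toFinset]
    intro h3
    apply hv
    change Real.log (⨆ i, v (u i)) = 0
    rw [h3, Real.log_one]
  rw [finprod_eq_prod_of_mulSupport_subset _ h1, finsum_eq_sum_of_support_subset _ h2,
    Real.log_mul (Finset.prod_pos fun v _ => pow_pos (hi v) _).ne'
      (Finset.prod_pos fun v _ => hf v).ne',
    Real.log_prod fun v _ => (pow_pos (hi v) _).ne', Real.log_prod fun v _ => (hf v).ne']
  congr 1
  exact Finset.sum_congr rfl fun v _ => by rw [Real.log_pow]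

/-- the product formula -/
lemma prod_formula {c : K} (hc : c ≠ 0) :
    ∑ v : InfinitePlace K, v.mult * Real.log (v c) +
      ∑ᶠ v : FinitePlace K, Real.log (v c) = 0 := by
  classical
  have h0 := NumberField.prod_abs_eq_one hc
  have hi : ∀ v : InfinitePlace K, 0 < v c := fun v => v.1.pos hc
  have hf : ∀ v : FinitePlace K, 0 < v c := fun v => v.1.pos hc
  have h1 : Function.mulSupport (fun v : FinitePlace K => v c) ⊆
      (fin_ne_one hc).toFinset := by
    intro v hv
    rw [Finset.mem_coe, Set.Finite.mem_toFinset]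
    exact hv
  have h2 : Function.support (fun v : FinitePlace K => Real.log (v c)) ⊆
      (fin_ne_one hc).toFinset := by
    intro v hv
    rw [Finset.mem_coe, Set.Finite.mem_toFinset]
    intro h3
    apply hv
    change Real.log (v c) = 0
    rw [h3, Real.log_one]
  have h3 := congrArg Real.log h0
  rw [finprod_eq_prod_of_mulSupport_subset _ h1, Real.log_one,
    Real.log_mul (Finset.prod_pos fun v _ => pow_pos (hi v) _).ne'
      (Finset.prod_pos fun v _ => hf v).ne',
    Real.log_prod fun v _ => (pow_pos (hi v) _).ne', Real.log_prod fun v _ => (hf v).ne'] at h3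
  rw [finsum_eq_sum_of_support_subset _ h2, ← h3]
  congr 1
  exact Finset.sum_congr rfl fun v _ => by rw [Real.log_pow]

end places

/-- the inequality at one place -/
lemma at_pl {K : Type} [Field K] {ν n q w : ℕ} (F : Fin q → Fin w → MvPolynomial (Fin ν) ℤ)
    (d : Fin q → Fin w → ℕ) (x : Fin ν → K) (hx : x ≠ 0) (T : Matrix (Fin ν) (Fin n) K)
    (J0 : Fin n → Fin ν) (hdet : (T.submatrix J0 id).det ≠ 0)
    (a : AbsoluteValue K ℝ) (δ : ℝ) (h : AtPl F d x T a δ) :
    Real.log (⨆ J : Fin n → Fin ν, a (T.submatrix J id).det) ≤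
      n * Real.log (⨆ i, a (x i)) - ∑ i, locH (F i) (d i) x a + δ := by
  classical
  obtain ⟨y0, jj, hy0, hF, hJ⟩ := h
  have : Nonempty (Fin ν) := ⟨y0⟩
  have : Nonempty (Fin n → Fin ν) := ⟨J0⟩
  have hx0 : x y0 ≠ 0 := by
    intro h0
    apply hx
    funext y
    have h1 := hy0 y
    rw [h0, map_zero] at h1
    exact a.eq_zero.1 (le_antisymm h1 (a.nonneg _))
  have hX : ⨆ i, a (x i) = a (x y0) := by
    apply le_antisymm
    · exact ciSup_le hy0
    · exact le_ciSup (f := fun i => a (x i)) (Set.finite_range _).bddAbove y0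
  have hp : 0 < a (x y0) := a.pos hx0
  have hFp : ∀ i, 0 < a (aeval x (F i (jj i))) := fun i => a.pos (hF i)
  have hsup : 0 < ⨆ J : Fin n → Fin ν, a (T.submatrix J id).det :=
    (a.pos hdet).trans_le (le_ciSup (f := fun J : Fin n → Fin ν => a (T.submatrix J id).det)
      (Set.finite_range _).bddAbove J0)
  have hle : (⨆ J : Fin n → Fin ν, a (T.submatrix J id).det) ≤
      a (x y0) ^ n * (∏ i, (a (aeval x (F i (jj i))) / a (x y0) ^ d i (jj i))) *
        Real.exp δ := by
    refine ciSup_le fun J => ?_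
    have h1 := hJ J
    rw [map_mul, map_mul, map_prod, map_prod, map_pow] at h1
    simp only [map_pow] at h1
    have h2 : 0 < ∏ i, a (x y0) ^ (d i (jj i)) := Finset.prod_pos fun i _ => pow_pos hp _
    rw [Finset.prod_div_distrib]
    rw [← le_div_iff₀ h2] at h1
    refine h1.trans (le_of_eq ?_)
    ring
  have h3 := Real.log_le_log hsup hle
  have h4 : 0 < ∏ i, (a (aeval x (F i (jj i))) / a (x y0) ^ d i (jj i)) :=
    Finset.prod_pos fun i _ => div_pos (hFp i) (pow_pos hp _)
  rw [Real.log_mul (by positivity) (Real.exp_pos _).ne', Real.log_exp,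
    Real.log_mul (by positivity) h4.ne', Real.log_pow,
    Real.log_prod fun i _ => (div_pos (hFp i) (pow_pos hp _)).ne'] at h3
  have h5 : ∀ i, Real.log (a (aeval x (F i (jj i))) / a (x y0) ^ d i (jj i)) ≤
      -locH (F i) (d i) x a := by
    intro i
    unfold locH
    rw [neg_neg, hX]
    apply Real.log_le_log (div_pos (hFp i) (pow_pos hp _))
    exact le_ciSup (f := fun j => a (aeval x (F i j)) / a (x y0) ^ d i j)
      (Set.finite_range _).bddAbove (jj i)
  have h6 := Finset.sum_le_sum fun i (_ : i ∈ Finset.univ) => h5 i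
  rw [Finset.sum_neg_distrib] at h6
  rw [hX]
  linarith

/-- **ASM** -/
theorem asm (hcard : S_PLC) : S_ASM := by
  classical
  intro ν n sc g q w hν Gp F d hnc K _ _ S hS x hx hGx T hT J0 hdet D hD hDint δ hδ hinf hover
    AA hAA hAA0
  obtain ⟨k, hk⟩ := exists_rows Gp F hnc x hx hGx
  obtain ⟨c, hc, hdets⟩ := minors_smul hν _ hk T AA (fun a c => hT (k a) c)
    (fun a c => hAA0 (k a) c) J0 hdet hAA
  set u : (Fin n → Fin ν) → K := fun J => (T.submatrix J id).det with hu
  have hu0 : u ≠ 0 := by
    intro h0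
    exact hdet (congrFun h0 J0)
  have hH : Height.logHeight (fun J : Fin n → Fin ν => (AA.submatrix J id).det) =
      Height.logHeight u := by
    have h1 : (fun J : Fin n → Fin ν => (AA.submatrix J id).det) = c • u := by
      funext J
      rw [hdets]
      rfl
    rw [h1, Height.logHeight_smul_eq_logHeight _ hc]
  rw [hH]
  -- the places over `S`
  have hplc := fun p : {p // p ∈ S} => hcard.1 K p.1 (hS p.1 p.2)
  choose f hf using hplc
  set O : Finset (FinitePlace K) := S.attach.biUnion fun p => Finset.univ.image (f p) with hO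
  have hOS : Over K S = (O : Set (FinitePlace K)) := by
    ext v
    rw [Finset.mem_coe, hO, Finset.mem_biUnion]
    constructor
    · rintro ⟨p, hp, hv⟩
      obtain ⟨i, hi⟩ := (hf ⟨p, hp⟩ v).1 hv
      exact ⟨⟨p, hp⟩, Finset.mem_attach _ _, Finset.mem_image.2 ⟨i, Finset.mem_univ _, hi⟩⟩
    · rintro ⟨p, _, hv⟩
      obtain ⟨i, _, hi⟩ := Finset.mem_image.1 hv
      exact ⟨p.1, p.2, (hf p v).2 ⟨i, hi⟩⟩
  have hOc : O.card ≤ S.card * Module.finrank ℚ K := by
    refine Finset.card_biUnion_le.trans ?_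
    calc ∑ p ∈ S.attach, (Finset.univ.image (f p)).card
        ≤ ∑ p ∈ S.attach, Module.finrank ℚ K := Finset.sum_le_sum fun p _ => by
          refine Finset.card_image_le.trans ?_
          rw [Finset.card_univ, Fintype.card_fin]
      _ = S.card * Module.finrank ℚ K := by
          rw [Finset.sum_const, Finset.card_attach, smul_eq_mul]
  have hsumO : ∀ G : FinitePlace K → ℝ, ∑ᶠ v ∈ Over K S, G v = ∑ v ∈ O, G v := by
    intro G
    rw [hOS, finsum_mem_coe_finset]
  -- splitting of sums over all finite places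
  have hsplit : ∀ G : FinitePlace K → ℝ, (Function.support G).Finite →
      ∑ᶠ v, G v = ∑ v ∈ O, G v + ∑ᶠ v ∈ (Over K S)ᶜ, G v := by
    intro G hG
    have h1 := finsum_mem_inter_add_sdiff' (s := Set.univ) (f := G) (Over K S)
      (hG.subset Set.inter_subset_right)
    rw [Set.univ_inter, hsumO, finsum_mem_univ, ← Set.compl_eq_univ_sdiff] at h1
    exact h1.symm
  have hlogsupp : ∀ {ι : Type} [Finite ι] {u : ι → K}, u ≠ 0 →
      (Function.support fun v : FinitePlace K => Real.log (⨆ i, v (u i))).Finite := by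
    intro ι _ u hu
    refine (sup_fin hu).subset ?_
    intro v hv h3
    apply hv
    change Real.log (⨆ i, v (u i)) = 0
    rw [h3, Real.log_one]
  have hDsupp : (Function.support fun v : FinitePlace K => Real.log (v D)).Finite := by
    refine (fin_ne_one hD).subset ?_
    intro v hv h3
    apply hv
    change Real.log (v D) = 0
    rw [h3, Real.log_one]
  -- heights
  have hHx := logHeight_sum hx
  have hHu := logHeight_sum hu0
  have hPD := prod_formula hD
  rw [hsplit _ (hlogsupp hx)] at hHx
  rw [hsplit _ (hlogsupp hu0)] at hHu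
  rw [hsplit _ hDsupp] at hPD
  -- the places outside `S`
  have hout : ∑ᶠ v ∈ (Over K S)ᶜ, Real.log (⨆ J, (v : FinitePlace K) (u J)) ≤
      -∑ᶠ v ∈ (Over K S)ᶜ, Real.log ((v : FinitePlace K) D) := by
    set Φ : Finset (FinitePlace K) :=
      ((hlogsupp hu0).toFinset ∪ hDsupp.toFinset).filter (· ∉ O) with hΦ
    have e1 : ∑ᶠ v ∈ (Over K S)ᶜ, Real.log (⨆ J, (v : FinitePlace K) (u J)) =
        ∑ v ∈ Φ, Real.log (⨆ J, (v : FinitePlace K) (u J)) := by
      apply finsum_mem_eq_sum_of_inter_support_eq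
      ext v
      rw [Set.mem_inter_iff, Set.mem_inter_iff, Set.mem_compl_iff, hOS, Finset.mem_coe,
        Finset.mem_coe, hΦ, Finset.mem_filter, Finset.mem_union, Set.Finite.mem_toFinset]
      tauto
    have e2 : ∑ᶠ v ∈ (Over K S)ᶜ, Real.log ((v : FinitePlace K) D) =
        ∑ v ∈ Φ, Real.log ((v : FinitePlace K) D) := by
      apply finsum_mem_eq_sum_of_inter_support_eq
      ext v
      rw [Set.mem_inter_iff, Set.mem_inter_iff, Set.mem_compl_iff, hOS, Finset.mem_coe,
        Finset.mem_coe, hΦ, Finset.mem_filter, Finset.mem_union, Set.Finite.mem_toFinset,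
        Set.Finite.mem_toFinset]
      tauto
    rw [e1, e2, ← Finset.sum_neg_distrib]
    refine Finset.sum_le_sum fun v hv => ?_
    have hvO : v ∉ Over K S := by
      rw [hOS, Finset.mem_coe]
      exact (Finset.mem_filter.1 hv).2
    rw [← Real.log_inv]
    apply Real.log_le_log (sup_pos hu0 v.1)
    have : Nonempty (Fin n → Fin ν) := ⟨J0⟩
    refine ciSup_le fun J => ?_
    have h1 := hDint v hvO J
    rw [map_mul] at h1
    have h2 : 0 < v D := v.1.pos hD
    rw [← one_div, le_div_iff₀ h2]
    exact h1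
  -- the places in `S`
  have hplace : ∀ v : FinitePlace K, v ∈ O → Real.log (⨆ J, v (u J)) ≤
      n * Real.log (⨆ i, v (x i)) - ∑ i, locH (F i) (d i) x v.1 + δ := by
    intro v hv
    exact at_pl F d x hx T J0 hdet v.1 δ (hover v (by rw [hOS]; exact hv))
  have hplinf : ∀ v : InfinitePlace K, Real.log (⨆ J, v (u J)) ≤
      n * Real.log (⨆ i, v (x i)) - ∑ i, locH (F i) (d i) x v.1 + δ := by
    intro v
    exact at_pl F d x hx T J0 hdet v.1 δ (hinf v)
  have hsO := Finset.sum_le_sum hplace
  have hsI : ∑ v : InfinitePlace K, (v.mult : ℝ) * Real.log (⨆ J, v (u J)) ≤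
      ∑ v : InfinitePlace K, (v.mult : ℝ) * (n * Real.log (⨆ i, v (x i)) -
        ∑ i, locH (F i) (d i) x v.1 + δ) :=
    Finset.sum_le_sum fun v _ => mul_le_mul_of_nonneg_left (hplinf v) (Nat.cast_nonneg _)
  have eO : ∑ v ∈ O, (n * Real.log (⨆ i, (v : FinitePlace K) (x i)) -
      ∑ i, locH (F i) (d i) x v.1 + δ) =
      n * ∑ v ∈ O, Real.log (⨆ i, (v : FinitePlace K) (x i)) -
        ∑ i, ∑ v ∈ O, locH (F i) (d i) x v.1 + O.card * δ := by
    rw [Finset.sum_add_distrib, Finset.sum_sub_distrib, ← Finset.mul_sum, Finset.sum_comm,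
      Finset.sum_const, nsmul_eq_mul]
  have eI : ∑ v : InfinitePlace K, (v.mult : ℝ) * (n * Real.log (⨆ i, v (x i)) -
      ∑ i, locH (F i) (d i) x v.1 + δ) =
      n * ∑ v : InfinitePlace K, (v.mult : ℝ) * Real.log (⨆ i, v (x i)) -
        ∑ i, ∑ v : InfinitePlace K, (v.mult : ℝ) * locH (F i) (d i) x v.1 +
          Module.finrank ℚ K * δ := by
    have h1 : ∀ v : InfinitePlace K, (v.mult : ℝ) * (n * Real.log (⨆ i, v (x i)) -
        ∑ i, locH (F i) (d i) x v.1 + δ) = n * ((v.mult : ℝ) * Real.log (⨆ i, v (x i))) -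
        ∑ i, (v.mult : ℝ) * locH (F i) (d i) x v.1 + (v.mult : ℝ) * δ := by
      intro v
      rw [← Finset.mul_sum]
      ring
    rw [Finset.sum_congr rfl fun v _ => h1 v, Finset.sum_add_distrib, Finset.sum_sub_distrib,
      ← Finset.mul_sum, Finset.sum_comm, ← Finset.sum_mul, ← Nat.cast_sum,
      InfinitePlace.sum_mult_eq]
  rw [eO] at hsO
  rw [eI] at hsI
  have hcardr : (O.card : ℝ) * δ ≤ (S.card * Module.finrank ℚ K : ℝ) * δ :=
    mul_le_mul_of_nonneg_right (by exact_mod_cast hOc) hδ
  have hfinal : ∑ i, (∑ v : InfinitePlace K, v.mult * locH (F i) (d i) x v.1 +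
      ∑ᶠ v ∈ Over K S, locH (F i) (d i) x v.1) =
      ∑ i, ∑ v : InfinitePlace K, (v.mult : ℝ) * locH (F i) (d i) x v.1 +
        ∑ i, ∑ v ∈ O, locH (F i) (d i) x v.1 := by
    rw [← Finset.sum_add_distrib]
    refine Finset.sum_congr rfl fun i _ => ?_
    rw [hsumO fun v => locH (F i) (d i) x v.1]
  have hlogS : logS S D = -∑ᶠ v ∈ (Over K S)ᶜ, Real.log ((v : FinitePlace K) D) := by
    unfold logS
    rw [hsumO fun v => Real.log (v D)]
    linarith
  rw [hfinal, hlogS, hHu, hHx]
  have hring : (Module.finrank ℚ K : ℝ) * (S.card + 1) * δ =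
      Module.finrank ℚ K * δ + S.card * Module.finrank ℚ K * δ := by ring
  rw [hring]
  linarith

end Pool.Agent.Y724.T4
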