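import Mathlib
import Pool.Agent.Y724.T4.Stm

/-!
# Places of a number field over a prime (project T4, job PLC, helper664)
-/

set_option autoImplicit false

namespace Pool.Agent.Y724.T4

open NumberField

namespace PLCaux

variable {K : Type} [Field K] [NumberField K]

lemma le_one_int (v : FinitePlace K) (x : 𝓞 K) : v (x : K) ≤ 1 := by
  rw [← FinitePlace.norm_embedding_eq]
  exact FinitePlace.norm_le_one K v.maximalIdeal x

lemma int_le_one (v : FinitePlace K) (x : ℤ) : v (x : K) ≤ 1 := by
  have h := le_one_int v (x : 𝓞 K)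
  have e : (((x : 𝓞 K)) : K) = (x : K) := by
    rw [RingOfIntegers.coe_eq_algebraMap, map_intCast]
  rwa [e] at h

lemma nat_le_one (v : FinitePlace K) (x : ℕ) : v (x : K) ≤ 1 := by
  have h := int_le_one v (x : ℤ)
  rwa [Int.cast_natCast] at h

lemma pow_form {p : ℕ} (hp : p.Prime) (v : FinitePlace K) :
    ∃ e : ℕ, v (p : K) = ((p : ℝ) ^ e)⁻¹ := by
  have hp0 : (p : 𝓞 K) ≠ 0 := by exact_mod_cast hp.ne_zero
  have h := FinitePlace.apply_mul_absNorm_pow_eq_one v hp0
  have e : (((p : 𝓞 K)) : K) = (p : K) := by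
    rw [RingOfIntegers.coe_eq_algebraMap, map_natCast]
  rw [e] at h
  rcases (nat_le_one v p).eq_or_lt with h1 | h1
  · exact ⟨0, by rw [h1]; simp⟩
  · have hmem : (p : 𝓞 K) ∈ v.maximalIdeal.asIdeal := by
      rw [← FinitePlace.norm_lt_one_iff_mem K, FinitePlace.norm_embedding_eq]
      rw [← RingOfIntegers.coe_eq_algebraMap, e]
      exact h1
    have hdvd : Ideal.absNorm v.maximalIdeal.asIdeal ∣ p ^ Module.finrank ℤ (𝓞 K) := by
      have h2 : Ideal.absNorm v.maximalIdeal.asIdeal ∣
          Ideal.absNorm (Ideal.span {(p : 𝓞 K)}) := by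
        apply Ideal.absNorm_dvd_absNorm_of_le
        rw [Ideal.span_le, Set.singleton_subset_iff]
        exact hmem
      rwa [Ideal.absNorm_span_natCast] at h2
    obtain ⟨f, _, hf⟩ := (Nat.dvd_prime_pow hp).1 hdvd
    rw [hf] at h
    refine ⟨f * multiplicity v.maximalIdeal.asIdeal (Ideal.span {(p : 𝓞 K)}), ?_⟩
    rw [pow_mul]
    have h3 : ((p ^ f : ℕ) : ℝ) = (p : ℝ) ^ f := by push_cast; ring
    rw [h3] at h
    exact eq_inv_of_mul_eq_one_left h

/-- the exponents -/
theorem exps {p : ℕ} (hp : p.Prime) : ∃ (s : Finset (FinitePlace K)) (e : FinitePlace K → ℕ),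
    (∀ v, v ∈ s ↔ v (p : K) < 1) ∧ (∀ v, v (p : K) = ((p : ℝ) ^ e v)⁻¹) ∧
      (∀ v ∈ s, 1 ≤ e v) ∧ ∑ v ∈ s, e v = Module.finrank ℚ K := by
  classical
  have hpK : (p : K) ≠ 0 := by exact_mod_cast hp.ne_zero
  have hp1 : (1 : ℝ) < p := by exact_mod_cast hp.one_lt
  have hp0 : (0 : ℝ) < p := by linarith
  choose e he using fun v : FinitePlace K => pow_form hp v
  have hfin : (Function.mulSupport fun v : FinitePlace K => v (p : K)).Finite :=
    FinitePlace.hasFiniteMulSupport hpK
  have hmem : ∀ v, v ∈ hfin.toFinset ↔ v (p : K) < 1 := by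
    intro v
    rw [Set.Finite.mem_toFinset, Function.mem_mulSupport]
    constructor
    · intro h
      exact lt_of_le_of_ne (nat_le_one v p) h
    · intro h
      exact h.ne
  refine ⟨hfin.toFinset, e, hmem, he, ?_, ?_⟩
  · intro v hv
    rw [hmem] at hv
    by_contra h
    have h0 : e v = 0 := by omega
    rw [he v, h0] at hv
    simp at hv
  · have h1 := FinitePlace.prod_eq_inv_abs_norm hpK
    rw [finprod_eq_prod_of_mulSupport_subset _
      (s := hfin.toFinset) (by rw [Set.Finite.coe_toFinset])] at h1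
    rw [Finset.prod_congr rfl (fun v _ => he v), Finset.prod_inv_distrib,
      Finset.prod_pow_eq_pow_sum] at h1
    have h2 : Algebra.norm ℚ (p : K) = (p : ℚ) ^ Module.finrank ℚ K := by
      exact Algebra.norm_natCast ℚ p
    rw [h2] at h1
    have h3 : ((|(p : ℚ) ^ Module.finrank ℚ K|⁻¹ : ℚ) : ℝ) =
        ((p : ℝ) ^ Module.finrank ℚ K)⁻¹ := by
      rw [abs_of_nonneg (by positivity)]
      push_cast
      ring
    rw [h3, inv_inj] at h1
    exact Nat.pow_right_injective hp.two_le (by exact_mod_cast h1)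

lemma coprime_one {p : ℕ} (hp : p.Prime) {v : FinitePlace K} (hv : v (p : K) < 1) {m : ℕ}
    (hm : ¬ p ∣ m) : v (m : K) = 1 := by
  refine le_antisymm (nat_le_one v m) ?_
  by_contra h
  rw [not_le] at h
  have hc : IsCoprime (p : ℤ) (m : ℤ) :=
    Nat.isCoprime_iff_coprime.2 ((Nat.Prime.coprime_iff_not_dvd hp).2 hm)
  obtain ⟨a, b, hab⟩ := hc
  have h1 : (1 : K) = (a : K) * (p : K) + (b : K) * (m : K) := by
    have := congrArg (fun z : ℤ => (z : K)) hab
    push_cast at this
    exact this.symm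
  have h2 : v (1 : K) ≤ max (v ((a : K) * (p : K))) (v ((b : K) * (m : K))) := by
    rw [h1]
    exact FinitePlace.add_le v _ _
  rw [map_one, map_mul, map_mul] at h2
  have h3 : v (a : K) * v (p : K) < 1 := by
    have := int_le_one v a
    have h4 : 0 ≤ v (p : K) := apply_nonneg v _
    nlinarith
  have h5 : v (b : K) * v (m : K) < 1 := by
    have := int_le_one v b
    have h4 : 0 ≤ v (m : K) := apply_nonneg v _
    nlinarith
  exact absurd h2 (not_le.2 (max_lt h3 h5))

lemma nat_form {p : ℕ} (hp : p.Prime) {v : FinitePlace K} (hv : v (p : K) < 1) {e : ℕ}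
    (he1 : 1 ≤ e) (he : v (p : K) = ((p : ℝ) ^ e)⁻¹) (m : ℕ) :
    v (m : K) = ((padicNorm p (m : ℚ) : ℚ) : ℝ) ^ e := by
  have hpf : Fact p.Prime := ⟨hp⟩
  rcases Nat.eq_zero_or_pos m with rfl | hm
  · simp only [Nat.cast_zero, map_zero]
    rw [padicNorm.zero]
    simp only [Rat.cast_zero]
    rw [zero_pow (by omega)]
  · obtain ⟨k, n, hn, rfl⟩ := Nat.exists_eq_pow_mul_and_not_dvd hm.ne' p hp.ne_one
    have hk : ∀ k : ℕ, padicNorm p ((p : ℚ) ^ k) = ((p : ℚ)⁻¹) ^ k := by
      intro k
      induction k with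
      | zero => simp
      | succ k ih => rw [pow_succ, padicNorm.mul, ih, padicNorm.padicNorm_p_of_prime, pow_succ]
    have e1 : padicNorm p ((p ^ k * n : ℕ) : ℚ) = ((p : ℚ)⁻¹) ^ k := by
      push_cast
      rw [padicNorm.mul, (padicNorm.nat_eq_one_iff n).2 hn, mul_one, hk]
    rw [e1]
    push_cast
    rw [map_mul, map_pow, coprime_one hp hv hn, mul_one, he]
    rw [inv_pow, inv_pow, inv_pow, ← pow_mul, ← pow_mul, mul_comm]

end PLCaux

open PLCaux in
theorem plc : S_PLC := by
  classical
  constructor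
  · intro K _ _ p hp
    obtain ⟨s, e, h1, h2, h3, h4⟩ := exps (K := K) hp
    have hn : 0 < Module.finrank ℚ K := Module.finrank_pos
    have hne : s.Nonempty := by
      rw [Finset.nonempty_iff_ne_empty]
      rintro rfl
      simp at h4
      omega
    have hcard : s.card ≤ Module.finrank ℚ K := by
      rw [← h4, Finset.card_eq_sum_ones]
      exact Finset.sum_le_sum h3
    have : Nonempty s := hne.to_subtype
    obtain ⟨emb⟩ : Nonempty (s ↪ Fin (Module.finrank ℚ K)) :=
      Function.Embedding.nonempty_of_card_le (by simpa using hcard)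
    refine ⟨fun i => (Function.invFun emb i : s), fun v => ?_⟩
    rw [← h1]
    constructor
    · intro hv
      exact ⟨emb ⟨v, hv⟩, congrArg Subtype.val
        (Function.leftInverse_invFun emb.injective ⟨v, hv⟩)⟩
    · rintro ⟨i, rfl⟩
      exact (Function.invFun emb i).2
  · intro K _ _ p hp v hv
    obtain ⟨s, e, h1, h2, h3, h4⟩ := exps (K := K) hp
    have hvs : v ∈ s := (h1 v).2 hv
    refine ⟨e v, h3 v hvs, ?_, ?_⟩
    · rw [← h4]
      exact Finset.single_le_sum (f := e) (fun _ _ => Nat.zero_le _) hvs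
    · intro q
      have h5 := nat_form hp hv (h3 v hvs) (h2 v)
      have hpf : Fact p.Prime := ⟨hp⟩
      have e1 : (q : K) = (q.num : K) / (q.den : K) := Rat.cast_def q
      have e2 : v ((q.num : ℤ) : K) = v ((q.num.natAbs : ℕ) : K) := by
        rcases Int.natAbs_eq q.num with h | h
        · conv_lhs => rw [h]
          rw [Int.cast_natCast]
        · conv_lhs => rw [h]
          rw [Int.cast_neg, Int.cast_natCast, map_neg_eq_map]
      have e3 : padicNorm p q = padicNorm p (q.num.natAbs : ℚ) / padicNorm p (q.den : ℚ) := by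
        have h6 : q = (q.num : ℚ) / (q.den : ℚ) := (Rat.num_div_den q).symm
        conv_lhs => rw [h6]
        rw [padicNorm.div]
        congr 1
        rcases Int.natAbs_eq q.num with h | h
        · conv_lhs => rw [h]
          rw [Int.cast_natCast]
        · conv_lhs => rw [h]
          rw [Int.cast_neg, Int.cast_natCast, padicNorm.neg]
      rw [e1, map_div₀, e2, h5, h5, e3]
      push_cast
      rw [div_pow]

end Pool.Agent.Y724.T4
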