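import Mathlib
import Pool.Agent.Y724.T4.ASM
import Pool.Agent.Y724.T4.PLC

/-!
# Heights and sections of multiples of the canonical class

A section of `μ K - H` on a smooth projective variety bounds the height by a multiple of the height
for the canonical class.
-/

set_option autoImplicit false

namespace Pool.Agent.Y724.T4

open MvPolynomial NumberField

section val
variable {K : Type} [Field K] {M : ℕ} {ι : Type} [Fintype ι]

/-- the sum of the absolute values of the coefficients -/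
noncomputable def coefSum {σ : Type} (P : MvPolynomial σ ℤ) : ℝ :=
  ∑ m ∈ P.support, |((P.coeff m : ℤ) : ℝ)|

lemma coefSum_nonneg {σ : Type} (P : MvPolynomial σ ℤ) : 0 ≤ coefSum P :=
  Finset.sum_nonneg fun _ _ => abs_nonneg _

/-- `P` is bihomogeneous -/
def Bihom (k μ : ℕ) (P : MvPolynomial (Fin M ⊕ ι) ℤ) : Prop :=
  ∀ m ∈ P.support, ∑ i, m (Sum.inl i) = k ∧ ∑ J, m (Sum.inr J) = μ

lemma bihom_eval (P : MvPolynomial (Fin M ⊕ ι) ℤ) (x : Fin M → K) (u : ι → K) :
    aeval (Sum.elim x u) P = ∑ m ∈ P.support, ((P.coeff m : ℤ) : K) *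
      ((∏ i, x i ^ m (Sum.inl i)) * ∏ J, u J ^ m (Sum.inr J)) := by
  rw [aeval_def, eval₂_eq']
  refine Finset.sum_congr rfl fun m _ => ?_
  rw [Fintype.prod_sum_type]
  simp

lemma mono_le {k μ : ℕ} (v : AbsoluteValue K ℝ) (x : Fin M → K) (u : ι → K)
    (m : Fin M ⊕ ι →₀ ℕ) (hm : ∑ i, m (Sum.inl i) = k ∧ ∑ J, m (Sum.inr J) = μ) :
    v ((∏ i, x i ^ m (Sum.inl i)) * ∏ J, u J ^ m (Sum.inr J)) ≤
      (⨆ i, v (x i)) ^ k * (⨆ J, v (u J)) ^ μ := by
  rw [map_mul, map_prod, map_prod]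
  have h1 : ∀ i, v (x i) ≤ ⨆ i, v (x i) := fun i =>
    le_ciSup (f := fun i => v (x i)) (Set.finite_range _).bddAbove i
  have h2 : ∀ J, v (u J) ≤ ⨆ J, v (u J) := fun i =>
    le_ciSup (f := fun i => v (u i)) (Set.finite_range _).bddAbove i
  have h0 : 0 ≤ ⨆ i, v (x i) := Real.iSup_nonneg fun i => v.nonneg _
  have h0' : 0 ≤ ⨆ J, v (u J) := Real.iSup_nonneg fun i => v.nonneg _
  have h3 : ∏ i, v (x i ^ m (Sum.inl i)) ≤ (⨆ i, v (x i)) ^ k := by
    rw [← hm.1, ← Finset.prod_pow_eq_pow_sum]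
    refine Finset.prod_le_prod (fun i _ => v.nonneg _) fun i _ => ?_
    rw [map_pow]
    exact pow_le_pow_left₀ (v.nonneg _) (h1 i) _
  have h4 : ∏ J, v (u J ^ m (Sum.inr J)) ≤ (⨆ J, v (u J)) ^ μ := by
    rw [← hm.2, ← Finset.prod_pow_eq_pow_sum]
    refine Finset.prod_le_prod (fun i _ => v.nonneg _) fun i _ => ?_
    rw [map_pow]
    exact pow_le_pow_left₀ (v.nonneg _) (h2 i) _
  exact mul_le_mul h3 h4 (Finset.prod_nonneg fun _ _ => v.nonneg _) (pow_nonneg h0 _)

/-- the bound for all absolute values with `|n| ≤ |n|` -/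
lemma val_le_arch {k μ : ℕ} {P : MvPolynomial (Fin M ⊕ ι) ℤ} (hP : Bihom k μ P)
    (v : AbsoluteValue K ℝ) (hv : ∀ n : ℤ, v (n : K) ≤ |(n : ℝ)|) (x : Fin M → K) (u : ι → K) :
    v (aeval (Sum.elim x u) P) ≤ coefSum P * ((⨆ i, v (x i)) ^ k * (⨆ J, v (u J)) ^ μ) := by
  rw [bihom_eval]
  refine (v.sum_le _ _).trans ?_
  unfold coefSum
  rw [Finset.sum_mul]
  refine Finset.sum_le_sum fun m hm => ?_
  rw [map_mul]
  exact mul_le_mul (hv _) (mono_le v x u m (hP m hm)) (v.nonneg _) (abs_nonneg _)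

/-- the bound for the non-archimedean absolute values -/
lemma val_le_nonarch {k μ : ℕ} {P : MvPolynomial (Fin M ⊕ ι) ℤ} (hP : Bihom k μ P)
    (v : AbsoluteValue K ℝ) (hna : IsNonarchimedean v) (hv : ∀ n : ℤ, v (n : K) ≤ 1)
    (x : Fin M → K) (u : ι → K) :
    v (aeval (Sum.elim x u) P) ≤ (⨆ i, v (x i)) ^ k * (⨆ J, v (u J)) ^ μ := by
  rw [bihom_eval]
  have h0 : 0 ≤ (⨆ i, v (x i)) ^ k * (⨆ J, v (u J)) ^ μ :=
    mul_nonneg (pow_nonneg (Real.iSup_nonneg fun i => v.nonneg _) _)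
      (pow_nonneg (Real.iSup_nonneg fun i => v.nonneg _) _)
  refine Finset.sum_induction _ (fun z => v z ≤ _) (fun a b ha hb => ?_) ?_ fun m hm => ?_
  · exact (hna a b).trans (max_le ha hb)
  · rw [map_zero]
    exact h0
  · rw [map_mul]
    calc v ((P.coeff m : ℤ) : K) * v ((∏ i, x i ^ m (Sum.inl i)) * ∏ J, u J ^ m (Sum.inr J))
        ≤ 1 * ((⨆ i, v (x i)) ^ k * (⨆ J, v (u J)) ^ μ) :=
          mul_le_mul (hv _) (mono_le v x u m (hP m hm)) (v.nonneg _) zero_le_one
      _ = _ := one_mul _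

end val

section big
variable {K : Type} [Field K] [NumberField K] {M : ℕ} {ι : Type} [Fintype ι]

/-- **The height bound.** -/
theorem big_height (x : Fin M → K) (hx : x ≠ 0) (u : ι → K) (hu : u ≠ 0)
    (P : Fin M → MvPolynomial (Fin M ⊕ ι) ℤ) (k μ e : ℕ) (hP : ∀ y, Bihom k μ (P y))
    (hke : k < e)
    (hrel : ∀ y y', aeval (Sum.elim x u) (P y) * x y' ^ e = aeval (Sum.elim x u) (P y') * x y ^ e)
    (hne : ∃ y, aeval (Sum.elim x u) (P y) ≠ 0) :
    ((e : ℝ) - k) * Height.logHeight x ≤ μ * Height.logHeight u +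
      Module.finrank ℚ K * Real.log (1 + ∑ y, coefSum (P y)) := by
  classical
  obtain ⟨y0, hy0⟩ := hne
  have he : e ≠ 0 := by omega
  have hxy0 : x y0 ≠ 0 := by
    intro h0
    obtain ⟨y', hy'⟩ := Function.ne_iff.1 hx
    have h1 := hrel y0 y'
    rw [h0, zero_pow he, mul_zero] at h1
    exact mul_ne_zero hy0 (pow_ne_zero _ hy') h1
  set σ : K := aeval (Sum.elim x u) (P y0) / x y0 ^ e with hσ
  have hσ0 : σ ≠ 0 := div_ne_zero hy0 (pow_ne_zero _ hxy0)
  have hσy : ∀ y, aeval (Sum.elim x u) (P y) = σ * x y ^ e := by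
    intro y
    rw [hσ, div_mul_eq_mul_div, eq_div_iff (pow_ne_zero _ hxy0), hrel y y0]
  set c : ℝ := 1 + ∑ y, coefSum (P y) with hc
  have hc1 : 1 ≤ c := by
    rw [hc]
    linarith [Finset.sum_nonneg fun y (_ : y ∈ Finset.univ) => coefSum_nonneg (P y)]
  have hPc : ∀ y, coefSum (P y) ≤ c := by
    intro y
    have h1 := Finset.single_le_sum (f := fun y => coefSum (P y))
      (fun y _ => coefSum_nonneg (P y)) (Finset.mem_univ y)
    rw [hc]
    linarith
  -- one place
  have hone : ∀ (v : AbsoluteValue K ℝ) (cc : ℝ), 1 ≤ cc →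
      (∀ y, v (aeval (Sum.elim x u) (P y)) ≤ cc * ((⨆ i, v (x i)) ^ k * (⨆ J, v (u J)) ^ μ)) →
      Real.log (v σ) ≤ Real.log cc + μ * Real.log (⨆ J, v (u J)) -
        (e - k) * Real.log (⨆ i, v (x i)) := by
    intro v cc hcc h
    have hX : 0 < ⨆ i, v (x i) := sup_pos hx v
    have hU : 0 < ⨆ J, v (u J) := sup_pos hu v
    have : Nonempty (Fin M) := ⟨y0⟩
    obtain ⟨y, hy⟩ := exists_eq_ciSup_of_finite (f := fun i => v (x i))
    have h1 := h y
    rw [hσy, map_mul, map_pow, show v (x y) = ⨆ i, v (x i) from hy] at h1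
    have h2 := Real.log_le_log (mul_pos (v.pos hσ0) (pow_pos hX _)) h1
    rw [Real.log_mul (v.pos hσ0).ne' (pow_pos hX _).ne', Real.log_pow,
      Real.log_mul (by positivity) (by positivity), Real.log_mul (by positivity) (by positivity),
      Real.log_pow, Real.log_pow] at h2
    linarith
  have hinf : ∀ v : InfinitePlace K, Real.log (v σ) ≤ Real.log c +
      μ * Real.log (⨆ J, v (u J)) - (e - k) * Real.log (⨆ i, v (x i)) := by
    intro v
    refine hone v.1 c hc1 fun y => ?_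
    refine (val_le_arch (hP y) v.1 (fun n => ?_) x u).trans ?_
    · have h1 : v (n : K) = |(n : ℝ)| := by
        rw [← InfinitePlace.norm_embedding_eq v, map_intCast, Complex.norm_intCast]
      exact h1.le
    · exact mul_le_mul_of_nonneg_right (hPc y)
        (mul_nonneg (pow_nonneg (sup_pos hx v.1).le _) (pow_nonneg (sup_pos hu v.1).le _))
  have hfin : ∀ v : FinitePlace K, Real.log (v σ) ≤
      μ * Real.log (⨆ J, v (u J)) - (e - k) * Real.log (⨆ i, v (x i)) := by
    intro v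
    have h1 := hone v.1 1 le_rfl fun y => by
      rw [one_mul]
      exact val_le_nonarch (hP y) v.1 (fun a b => FinitePlace.add_le v a b)
        (fun n => PLCaux.int_le_one v n) x u
    rw [Real.log_one, zero_add] at h1
    exact h1
  -- the sum
  have hXs := logHeight_sum hx
  have hUs := logHeight_sum hu
  have hσs := prod_formula hσ0
  have hfs : ∀ (f : FinitePlace K → ℝ) (A : Finset (FinitePlace K)),
      Function.support f ⊆ A → ∑ᶠ v, f v = ∑ v ∈ A, f v := fun f A h =>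
    finsum_eq_sum_of_support_subset _ h
  set A : Finset (FinitePlace K) := (sup_fin hx).toFinset ∪ (sup_fin hu).toFinset ∪
    (fin_ne_one hσ0).toFinset with hA
  have hlog : ∀ (f : FinitePlace K → ℝ), {v | f v ≠ 1} ⊆ (A : Set (FinitePlace K)) →
      Function.support (fun v => Real.log (f v)) ⊆ A := by
    intro f hf v hv
    refine hf ?_
    intro h1
    apply hv
    change Real.log (f v) = 0
    rw [h1, Real.log_one]
  rw [hfs _ A (hlog _ fun v hv => by
    rw [hA, Finset.coe_union, Finset.coe_union]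
    exact Or.inl (Or.inl (by simpa using hv)))] at hXs
  rw [hfs _ A (hlog _ fun v hv => by
    rw [hA, Finset.coe_union, Finset.coe_union]
    exact Or.inl (Or.inr (by simpa using hv)))] at hUs
  rw [hfs _ A (hlog _ fun v hv => by
    rw [hA, Finset.coe_union, Finset.coe_union]
    exact Or.inr (by simpa using hv))] at hσs
  have h1 : ∑ v : InfinitePlace K, v.mult * Real.log (v σ) ≤
      ∑ v : InfinitePlace K, v.mult * (Real.log c + μ * Real.log (⨆ J, v (u J)) -
        (e - k) * Real.log (⨆ i, v (x i))) :=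
    Finset.sum_le_sum fun v _ => mul_le_mul_of_nonneg_left (hinf v) (Nat.cast_nonneg _)
  have h2 : ∑ v ∈ A, Real.log (v σ) ≤ ∑ v ∈ A, (μ * Real.log (⨆ J, v (u J)) -
      (e - k) * Real.log (⨆ i, v (x i))) := Finset.sum_le_sum fun v _ => hfin v
  have h3 : ∑ v : InfinitePlace K, v.mult * (Real.log c + μ * Real.log (⨆ J, v (u J)) -
        (e - k) * Real.log (⨆ i, v (x i))) = Module.finrank ℚ K * Real.log c +
      μ * ∑ v : InfinitePlace K, v.mult * Real.log (⨆ J, v (u J)) -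
      (e - k) * ∑ v : InfinitePlace K, v.mult * Real.log (⨆ i, v (x i)) := by
    rw [← InfinitePlace.sum_mult_eq, Nat.cast_sum, Finset.sum_mul, Finset.mul_sum,
      Finset.mul_sum, ← Finset.sum_add_distrib, ← Finset.sum_sub_distrib]
    exact Finset.sum_congr rfl fun v _ => by ring
  rw [h3] at h1
  rw [Finset.sum_sub_distrib, ← Finset.mul_sum, ← Finset.mul_sum] at h2
  rw [hXs, hUs]
  linarith

end big

end Pool.Agent.Y724.T4
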