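import Pool.Agent.Y724.T4.Stm

/-!
# NRM: the norm and the places over `S` (helper779 for project T4)
-/

set_option autoImplicit false

namespace Pool.Agent.Y724.T4

open NumberField IsDedekindDomain Ideal

namespace NRM

variable {K : Type} [Field K] [NumberField K]

/-- the residue characteristic of a maximal ideal -/
theorem resChar (v : HeightOneSpectrum (𝓞 K)) : ∃ q n : ℕ, q.Prime ∧
    absNorm v.asIdeal = q ^ n ∧ ∀ p : ℕ, p.Prime → ((p : 𝓞 K) ∈ v.asIdeal ↔ p = q) := by
  have := v.isMaximal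
  let _ : Field (𝓞 K ⧸ v.asIdeal) := Ideal.Quotient.field _
  have : Finite (𝓞 K ⧸ v.asIdeal) := Ideal.finiteQuotientOfFreeOfNeBot v.asIdeal v.ne_bot
  let _ : Fintype (𝓞 K ⧸ v.asIdeal) := Fintype.ofFinite _
  obtain ⟨q, hchar, n, hq, hcard⟩ := FiniteField.card' (𝓞 K ⧸ v.asIdeal)
  refine ⟨q, n, hq, ?_, fun p hp => ?_⟩
  · rw [absNorm_apply, Submodule.cardQuot_apply, Nat.card_eq_fintype_card]
    exact hcard
  · rw [← Ideal.Quotient.eq_zero_iff_mem, map_natCast, CharP.cast_eq_zero_iff _ q]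
    constructor
    · intro h
      exact ((Nat.prime_dvd_prime_iff_eq hq hp).1 h).symm
    · rintro rfl
      exact dvd_rfl

theorem lt_one_iff (v : FinitePlace K) (p : ℕ) :
    v (p : K) < 1 ↔ (p : 𝓞 K) ∈ v.maximalIdeal.asIdeal := by
  rw [← FinitePlace.norm_lt_one_iff_mem K v.maximalIdeal (p : 𝓞 K)]
  rw [FinitePlace.norm_embedding_eq, map_natCast (algebraMap (𝓞 K) K)]

/-- the part of the absolute value over `p` -/
noncomputable def gg (p : ℕ) (v : FinitePlace K) (x : K) : ℝ := by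
  classical
  exact if v (p : K) < 1 then v x else 1

theorem gg_pos (p : ℕ) (v : FinitePlace K) {x : K} (hx : x ≠ 0) : 0 < gg p v x := by
  unfold gg
  split_ifs
  · exact FinitePlace.pos_iff.2 hx
  · exact one_pos

theorem gg_fin (p : ℕ) {x : K} (hx : x ≠ 0) :
    (fun v : FinitePlace K => gg p v x).HasFiniteMulSupport := by
  refine (FinitePlace.hasFiniteMulSupport hx).subset fun v hv => ?_
  rw [Function.mem_mulSupport] at hv ⊢
  intro h
  apply hv
  unfold gg
  split_ifs
  · exact h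
  · rfl

/-- the `p`-adic norm as a homomorphism -/
noncomputable def pn (p : ℕ) [Fact p.Prime] : ℕ →* ℝ where
  toFun n := ((padicNorm p (n : ℚ) : ℚ) : ℝ)
  map_one' := by simp
  map_mul' a b := by
    push_cast
    rw [padicNorm.mul]
    push_cast
    rfl

theorem int (p : ℕ) [Fact p.Prime] {x : 𝓞 K} (hx : x ≠ 0) :
    ∏ᶠ v : FinitePlace K, gg p v (x : K) = ((padicNorm p (Algebra.norm ℚ (x : K)) : ℚ) : ℝ) := by
  have hp : p.Prime := Fact.out
  have hnz : span {x} ≠ (⊥ : Ideal (𝓞 K)) := mt Submodule.span_singleton_eq_bot.mp hx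
  have h1 : ((padicNorm p (Algebra.norm ℚ (x : K)) : ℚ) : ℝ) = pn p (absNorm (span {x})) := by
    rw [absNorm_span_singleton, ← Algebra.coe_norm_int]
    show _ = ((padicNorm p (((Algebra.norm ℤ x).natAbs : ℕ) : ℚ) : ℚ) : ℝ)
    rcases Int.natAbs_eq (Algebra.norm ℤ x) with h | h
    · conv_lhs => rw [h]
      rw [Int.cast_natCast]
    · conv_lhs => rw [h]
      rw [Int.cast_neg, padicNorm.neg, Int.cast_natCast]
  rw [h1]
  conv_rhs => rw [← FinitePlace.finprod_finitePlace_pow_multiplicity hnz]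
  have h2 := (pn p).comp (absNorm (S := 𝓞 K)).toMonoidHom |>.map_finprod
    (FinitePlace.hasFiniteMulSupport_fun_pow_multiplicity hnz (K := K) id)
  refine Eq.trans ?_ h2.symm
  refine finprod_congr fun v => ?_
  show gg p v (x : K) = pn p (absNorm (v.maximalIdeal.asIdeal ^
    multiplicity v.maximalIdeal.asIdeal (span {x})))
  obtain ⟨q, n, hq, hn, hpq⟩ := resChar v.maximalIdeal
  have h3 := FinitePlace.apply_mul_absNorm_pow_eq_one v hx
  rw [map_pow, hn]
  rw [hn] at h3
  set m := multiplicity v.maximalIdeal.asIdeal (span {x}) with hm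
  unfold gg
  split_ifs with h
  · rw [lt_one_iff, hpq p hp] at h
    subst h
    have h4 : pn p ((p ^ n) ^ m) = (((p : ℝ) ^ n) ^ m)⁻¹ := by
      rw [map_pow, map_pow]
      have : pn p p = (p : ℝ)⁻¹ := by
        show ((padicNorm p (p : ℚ) : ℚ) : ℝ) = _
        rw [padicNorm.padicNorm_p_of_prime]
        push_cast
        rfl
      rw [this, inv_pow, inv_pow]
    rw [h4]
    push_cast at h3
    exact eq_inv_of_mul_eq_one_left h3
  · rw [lt_one_iff, hpq p hp] at h
    have : Fact q.Prime := ⟨hq⟩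
    have : pn p q = 1 := by
      show ((padicNorm p (q : ℚ) : ℚ) : ℝ) = _
      rw [padicNorm.padicNorm_of_prime_of_ne h]
      push_cast
      rfl
    rw [map_pow, map_pow, this, one_pow, one_pow]

theorem fld (p : ℕ) [Fact p.Prime] {x : K} (hx : x ≠ 0) :
    ∏ᶠ v : FinitePlace K, gg p v x = ((padicNorm p (Algebra.norm ℚ x) : ℚ) : ℝ) := by
  obtain ⟨a, b, hb, rfl⟩ := IsFractionRing.div_surjective (𝓞 K) x
  have hb0 : b ≠ 0 := nonZeroDivisors.ne_zero hb
  have ha0 : a ≠ 0 := by
    rintro rfl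
    simp at hx
  have ha' : (algebraMap (𝓞 K) K a) ≠ 0 := (map_ne_zero_iff _ (FaithfulSMul.algebraMap_injective _ _)).2 ha0
  have hb' : (algebraMap (𝓞 K) K b) ≠ 0 := (map_ne_zero_iff _ (FaithfulSMul.algebraMap_injective _ _)).2 hb0
  have h1 : ∀ v : FinitePlace K, gg p v (algebraMap (𝓞 K) K a / algebraMap (𝓞 K) K b) =
      gg p v (algebraMap (𝓞 K) K a) / gg p v (algebraMap (𝓞 K) K b) := by
    intro v
    unfold gg
    split_ifs
    · exact map_div₀ v _ _
    · rw [div_one]
  simp only [h1]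
  rw [finprod_div_distrib (gg_fin p ha') (gg_fin p hb')]
  have e1 := int p ha0
  have e2 := int p hb0
  rw [RingOfIntegers.coe_eq_algebraMap] at e1 e2
  have hnb : Algebra.norm ℚ (algebraMap (𝓞 K) K b) ≠ 0 := Algebra.norm_ne_zero_iff.2 hb'
  have e3 : Algebra.norm ℚ (algebraMap (𝓞 K) K a / algebraMap (𝓞 K) K b) =
      Algebra.norm ℚ (algebraMap (𝓞 K) K a) / Algebra.norm ℚ (algebraMap (𝓞 K) K b) :=
    eq_div_of_mul_eq hnb (by rw [← map_mul, div_mul_cancel₀ _ hb'])
  rw [e1, e2, e3, padicNorm.div]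
  push_cast
  rfl

theorem uniq {p q : ℕ} (hp : p.Prime) (hq : q.Prime) {v : FinitePlace K}
    (h1 : v (p : K) < 1) (h2 : v (q : K) < 1) : p = q := by
  obtain ⟨r, n, hr, hn, hpr⟩ := resChar v.maximalIdeal
  rw [lt_one_iff] at h1 h2
  exact ((hpr p hp).1 h1).trans ((hpr q hq).1 h2).symm

end NRM

open NRM in
theorem nrm : S_NRM := by
  classical
  intro K _ _ S hS D hD
  unfold logS
  have h1 : ∑ v : InfinitePlace K, v.mult * Real.log (v D) =
      Real.log |((Algebra.norm ℚ D : ℚ) : ℝ)| := by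
    have h := InfinitePlace.prod_eq_abs_norm (K := K) D
    have h' : ((|Algebra.norm ℚ D| : ℚ) : ℝ) = |((Algebra.norm ℚ D : ℚ) : ℝ)| := Rat.cast_abs _
    rw [← h', ← h, Real.log_prod fun v _ => pow_ne_zero _ (InfinitePlace.pos_iff.2 hD).ne']
    exact Finset.sum_congr rfl fun v _ => (Real.log_pow _ _).symm
  have h2 : ∑ᶠ v ∈ Over K S, Real.log (v D) =
      ∑ p ∈ S, Real.log ((padicNorm p (Algebra.norm ℚ D) : ℚ) : ℝ) := by
    have h3 : ∀ p ∈ S, ((padicNorm p (Algebra.norm ℚ D) : ℚ) : ℝ) ≠ 0 := by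
      intro p hp
      have : Fact p.Prime := ⟨hS p hp⟩
      have : padicNorm p (Algebra.norm ℚ D) ≠ 0 :=
        padicNorm.nonzero (Algebra.norm_ne_zero_iff.2 hD)
      exact_mod_cast this
    rw [← Real.log_prod h3]
    have h4 : ∏ p ∈ S, ((padicNorm p (Algebra.norm ℚ D) : ℚ) : ℝ) =
        ∏ᶠ v : FinitePlace K, ∏ p ∈ S, gg p v D := by
      rw [finprod_prod_comm _ _ fun p _ => gg_fin p hD]
      refine Finset.prod_congr rfl fun p hp => ?_
      have : Fact p.Prime := ⟨hS p hp⟩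
      exact (fld p hD).symm
    rw [h4, Real.log_finprod fun v => Finset.prod_pos fun p _ => gg_pos p v hD,
      finsum_mem_def]
    refine finsum_congr fun v => ?_
    by_cases hv : v ∈ Over K S
    · rw [Set.indicator_of_mem hv]
      obtain ⟨p, hp, hvp⟩ := hv
      rw [Finset.prod_eq_single p]
      · unfold gg
        rw [if_pos hvp]
      · intro q hq hqp
        unfold gg
        rw [if_neg]
        intro hvq
        exact hqp (uniq (hS q hq) (hS p hp) hvq hvp)
      · intro h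
        exact absurd hp h
    · rw [Set.indicator_of_notMem hv, Finset.prod_eq_one, Real.log_one]
      intro p hp
      unfold gg
      rw [if_neg]
      intro h
      exact hv ⟨p, hp, h⟩
  rw [h1, h2]

end Pool.Agent.Y724.T4
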