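import Mathlib
import Pool.Agent.Y724.Vj.GV
import Pool.Agent.Y724.Vj.Span
import Pool.Agent.Y724.Vj.Seq
import Pool.Agent.Y724.T4.Stm

/-!
# Good directions act on Laurent polynomials without enlarging the support
-/

set_option autoImplicit false

namespace Pool.Agent.Y724.T4

open MvPolynomial Pool.Agent.Y724.Vj

section ax

variable {G : Type} [Field G] [CharZero G] [Algebra ℚ G] (K0 : Subfield G) {m l μ : ℕ}

omit [CharZero G] [Algebra ℚ G] in
lemma mono_inj (g : Fin m → G) (hg : AlgebraicIndependent K0 g) (α β : Fin m →₀ ℕ)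
    (x y : K0) (hx : x ≠ 0) (h : (x : G) * ∏ k, g k ^ α k = (y : G) * ∏ k, g k ^ β k) : α = β := by
  classical
  have hy : y ≠ 0 := by
    rintro rfl
    rw [ZeroMemClass.coe_zero, zero_mul] at h
    rcases mul_eq_zero.1 h with h1 | h1
    · exact hx (Subtype.ext h1)
    · obtain ⟨k, _, hk⟩ := Finset.prod_eq_zero_iff.1 h1
      exact pow_ne_zero _ (hg.ne_zero k) hk
  have h1 : aeval g (monomial α x) = aeval g (monomial β y) := by
    rw [aeval_monomial, aeval_monomial, Finsupp.prod_fintype _ _ (fun k => pow_zero _),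
      Finsupp.prod_fintype _ _ (fun k => pow_zero _)]
    exact h
  have h2 := hg h1
  rw [monomial_eq_monomial_iff] at h2
  rcases h2 with h2 | h2
  · exact h2.1
  · exact absurd h2.1 hx

variable (g : Fin m → G) (u : Fin l → G) (κ : Fin l → K0) (a : Fin l → Fin m → ℤ)

omit [CharZero G] [Algebra ℚ G] in
lemma mo_eq (hg0 : ∀ k, g k ≠ 0) (hu : ∀ j, u j = (κ j : G) * ∏ k, g k ^ a j k)
    (α : Fin l →₀ ℕ) : mo u α = ((∏ j, κ j ^ α j : K0) : G) * ∏ k, g k ^ (∑ j, α j * a j k) := by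
  unfold mo
  push_cast
  have h1 : ∏ k, g k ^ (∑ j, (α j : ℤ) * a j k) = ∏ j, (∏ k, g k ^ a j k) ^ α j := by
    rw [Finset.prod_congr rfl fun j _ => (Finset.prod_pow _ _ _).symm, Finset.prod_comm]
    refine Finset.prod_congr rfl fun k _ => ?_
    have h2 : ∀ S : Finset (Fin l), g k ^ (∑ j ∈ S, (α j : ℤ) * a j k) =
        ∏ j ∈ S, (g k ^ a j k) ^ α j := by
      intro S
      induction S using Finset.cons_induction with
      | empty => simp
      | cons b S hb ih =>
        rw [Finset.sum_cons, Finset.prod_cons, zpow_add₀ (hg0 k), ih, mul_comm (α b : ℤ), zpow_mul,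
          zpow_natCast]
    exact h2 _
  rw [h1, ← Finset.prod_mul_distrib]
  refine Finset.prod_congr rfl fun j _ => ?_
  rw [hu j, mul_pow]

variable {K0}

/-- **Representation by polynomials with nested supports**, for forms. -/
theorem rep_form (hg : AlgebraicIndependent K0 g)
    (hu : ∀ j, u j = (κ j : G) * ∏ k, g k ^ a j k) (hu0 : ∀ j, u j ≠ 0)
    (V τ : Fin l → Fin μ → K0) (hτ : Good K0 u V τ) (F : MvPolynomial (Fin μ) ℚ) (e : ℕ)
    (hF : F.IsHomogeneous e) :
    ∃ (c : Fin m → ℕ) (p q : MvPolynomial (Fin m) K0),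
      aeval (fun i => ∑ j, u j * (V j i : G)) F * ∏ i, g i ^ c i = aeval g p ∧
      (∑ i, aeval (fun i => ∑ j, u j * (V j i : G)) (pderiv i F) * ∑ j, u j * (τ j i : G)) *
        ∏ i, g i ^ c i = aeval g q ∧ q.support ⊆ p.support := by
  classical
  have hg0 : ∀ k, g k ≠ 0 := fun k => hg.ne_zero k
  have hκ0 : ∀ j, κ j ≠ 0 := by
    intro j h0
    apply hu0 j
    rw [hu j, h0, ZeroMemClass.coe_zero, zero_mul]
  set ee : (Fin l →₀ ℕ) → Fin m → ℤ := fun α k => ∑ j, (α j : ℤ) * a j k with hee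
  set c : Fin m → ℕ := fun k => ∑ α ∈ TT K0 V F, (ee α k).natAbs with hc
  set d : (Fin l →₀ ℕ) → (Fin m →₀ ℕ) := fun α =>
    Finsupp.equivFunOnFinite.symm (fun k => (ee α k + c k).toNat) with hd
  have hdk : ∀ α k, d α k = (ee α k + c k).toNat := fun α k => rfl
  have hdz : ∀ α ∈ TT K0 V F, ∀ k, (d α k : ℤ) = ee α k + c k := by
    intro α hα k
    rw [hdk]
    have h3 : (ee α k).natAbs ≤ c k :=
      Finset.single_le_sum (f := fun α => (ee α k).natAbs) (fun _ _ => Nat.zero_le _) hα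
    omega
  set κα : (Fin l →₀ ℕ) → K0 := fun α => ∏ j, κ j ^ α j with hκα
  have hκα0 : ∀ α, κα α ≠ 0 := fun α => Finset.prod_ne_zero_iff.2 fun j _ => pow_ne_zero _ (hκ0 j)
  have hmo : ∀ α ∈ TT K0 V F, mo u α * ∏ k, g k ^ c k = (κα α : G) * ∏ k, g k ^ d α k := by
    intro α hα
    rw [mo_eq K0 g u κ a hg0 hu, mul_assoc, ← Finset.prod_mul_distrib]
    congr 1
    refine Finset.prod_congr rfl fun k _ => ?_
    rw [← zpow_natCast, ← zpow_natCast, hdz α hα k, ← zpow_add₀ (hg0 k)]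
  set pp : MvPolynomial (Fin l) K0 → MvPolynomial (Fin m) K0 := fun Q =>
    ∑ α ∈ TT K0 V F, monomial (d α) (coeff α Q * κα α) with hpp
  have hev : ∀ Q : MvPolynomial (Fin l) K0, (∀ α, α ∉ TT K0 V F → coeff α Q = 0) →
      evu K0 u Q * ∏ k, g k ^ c k = aeval g (pp Q) := by
    intro Q hQ
    rw [evu_eq K0 u V Q F hQ, hpp]
    simp only
    rw [map_sum, Finset.sum_mul, Finset.sum_coe_sort (TT K0 V F)
      (fun α => ((coeff α Q : K0) : G) * mo u α * ∏ k, g k ^ c k)]
    refine Finset.sum_congr rfl fun α hα => ?_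
    rw [aeval_monomial, Finsupp.prod_fintype _ _ (fun k => pow_zero _), mul_assoc, hmo α hα]
    change _ = ((coeff α Q * κα α : K0) : G) * _
    rw [MulMemClass.coe_mul]
    ring
  have hcoef : ∀ (Q : MvPolynomial (Fin l) K0) (β : Fin m →₀ ℕ), coeff β (pp Q) =
      ∑ α ∈ TT K0 V F with d α = β, coeff α Q * κα α := by
    intro Q β
    rw [hpp]
    simp only
    rw [coeff_sum, Finset.sum_filter]
    refine Finset.sum_congr rfl fun α _ => ?_
    rw [coeff_monomial]
  refine ⟨c, pp (PG V F), pp (DG V τ F), ?_, ?_, ?_⟩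
  · rw [← evu_PG K0 u V, hev _ (fun α => PG_support K0 V F α)]
  · rw [← evu_DG K0 u V, hev _ (fun α => DG_support K0 V τ F α)]
  · intro β hβ
    rw [mem_support_iff] at hβ ⊢
    intro hp
    apply hβ
    rw [hcoef]
    by_cases hne : ∃ α0 ∈ TT K0 V F, d α0 = β
    swap
    · refine Finset.sum_eq_zero fun α hα => ?_
      rw [Finset.mem_filter] at hα
      exact absurd ⟨α, hα.1, hα.2⟩ hne
    obtain ⟨α0, hα0, rfl⟩ := hne
    have hmo0 : mo u α0 ≠ 0 := Finset.prod_ne_zero_iff.2 fun j _ => pow_ne_zero _ (hu0 j)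
    have hcls : ∀ α ∈ TT K0 V F, (mo u α / mo u α0 ∈ K0 ↔ d α = d α0) := by
      intro α hα
      constructor
      · intro h
        refine mono_inj K0 g hg (d α) (d α0) (κα α) (⟨_, h⟩ * κα α0) (hκα0 α) ?_
        rw [← hmo α hα, MulMemClass.coe_mul, mul_assoc, ← hmo α0 hα0]
        change _ = mo u α / mo u α0 * _
        rw [← mul_assoc, div_mul_cancel₀ _ hmo0]
      · intro h
        have h1 := hmo α hα
        have h2 := hmo α0 hα0
        rw [h] at h1
        have hgc : ∏ k, g k ^ c k ≠ 0 := Finset.prod_ne_zero_iff.2 fun k _ => pow_ne_zero _ (hg0 k)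
        have hgd : ∏ k, g k ^ d α0 k ≠ 0 :=
          Finset.prod_ne_zero_iff.2 fun k _ => pow_ne_zero _ (hg0 k)
        have h3 : mo u α / mo u α0 = ((κα α / κα α0 : K0) : G) := by
          have h4 : ((κα α0 : K0) : G) ≠ 0 := fun h => hκα0 α0 (Subtype.ext h)
          rw [← mul_div_mul_right _ _ hgc, h1, h2, mul_div_mul_right _ _ hgd]
          push_cast
          rfl
        rw [h3]
        exact SetLike.coe_mem _
    have hcs : ∀ Q : MvPolynomial (Fin l) K0, cs K0 u V F Q α0 * ∏ k, g k ^ c k =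
        ((coeff (d α0) (pp Q) : K0) : G) * ∏ k, g k ^ d α0 k := by
      intro Q
      rw [hcoef]
      unfold cs
      rw [AddSubmonoidClass.coe_finsetSum, Finset.sum_mul, Finset.sum_mul, Finset.sum_filter,
        Finset.sum_filter, Finset.sum_coe_sort (TT K0 V F)
        (fun α => if mo u α / mo u α0 ∈ K0 then ((coeff α Q : K0) : G) * mo u α *
          ∏ k, g k ^ c k else 0)]
      refine Finset.sum_congr rfl fun α hα => ?_
      by_cases h : d α = d α0
      · rw [if_pos ((hcls α hα).2 h), if_pos h, mul_assoc, hmo α hα, h, MulMemClass.coe_mul]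
        ring
      · rw [if_neg (fun h' => h ((hcls α hα).1 h')), if_neg h]
    have hgc : ∏ k, g k ^ c k ≠ 0 := Finset.prod_ne_zero_iff.2 fun k _ => pow_ne_zero _ (hg0 k)
    have hgd : ∏ k, g k ^ d α0 k ≠ 0 :=
      Finset.prod_ne_zero_iff.2 fun k _ => pow_ne_zero _ (hg0 k)
    have h1 : cs K0 u V F (PG V F) α0 = 0 := by
      have h2 := hcs (PG V F)
      rw [hp, ZeroMemClass.coe_zero, zero_mul] at h2
      exact (mul_eq_zero.1 h2).resolve_right hgc
    have h2 := hτ F e hF ⟨α0, hα0⟩ h1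
    have h3 := hcs (DG V τ F)
    simp only at h2
    rw [h2, zero_mul] at h3
    have h4 := (mul_eq_zero.1 h3.symm).resolve_right hgd
    rw [← hcoef]
    exact Subtype.ext h4

/-- homogenisation with respect to the variable `i0` -/
noncomputable def homog (i0 : Fin μ) (P : MvPolynomial (Fin μ) ℚ) : MvPolynomial (Fin μ) ℚ :=
  ∑ k ∈ Finset.range (P.totalDegree + 1), homogeneousComponent k P * X i0 ^ (P.totalDegree - k)

lemma homog_hom (i0 : Fin μ) (P : MvPolynomial (Fin μ) ℚ) :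
    (homog i0 P).IsHomogeneous P.totalDegree := by
  unfold homog
  refine IsHomogeneous.sum _ _ _ fun k hk => ?_
  have h1 := (homogeneousComponent_isHomogeneous k P).mul
    ((isHomogeneous_X ℚ i0).pow (P.totalDegree - k))
  have h2 : k + 1 * (P.totalDegree - k) = P.totalDegree := by
    have := Finset.mem_range.1 hk
    omega
  rwa [h2] at h1

omit [CharZero G] in
lemma aeval_homog {z : Fin μ → G} (i0 : Fin μ) (hz : z i0 = 1) (P : MvPolynomial (Fin μ) ℚ) :
    aeval z (homog i0 P) = aeval z P := by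
  unfold homog
  conv_rhs => rw [← sum_homogeneousComponent P]
  rw [map_sum, map_sum]
  refine Finset.sum_congr rfl fun k _ => ?_
  rw [map_mul, map_pow, aeval_X, hz, one_pow, mul_one]

omit [CharZero G] in
lemma dir_homog {z T : Fin μ → G} (i0 : Fin μ) (hz : z i0 = 1) (hT : T i0 = 0)
    (P : MvPolynomial (Fin μ) ℚ) :
    ∑ i, aeval z (pderiv i (homog i0 P)) * T i = ∑ i, aeval z (pderiv i P) * T i := by
  refine Finset.sum_congr rfl fun i _ => ?_
  by_cases hi : i = i0
  · rw [hi, hT, mul_zero, mul_zero]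
  congr 1
  unfold homog
  conv_rhs => rw [← sum_homogeneousComponent P]
  rw [map_sum, map_sum, map_sum, map_sum]
  refine Finset.sum_congr rfl fun k _ => ?_
  rw [pderiv_mul, pderiv_pow, pderiv_X_of_ne (Ne.symm hi), mul_zero, mul_zero, add_zero, map_mul,
    map_pow, aeval_X, hz, one_pow, mul_one]

/-- **Representation by polynomials with nested supports**, for all polynomials. -/
theorem rep_poly (hg : AlgebraicIndependent K0 g)
    (hu : ∀ j, u j = (κ j : G) * ∏ k, g k ^ a j k) (hu0 : ∀ j, u j ≠ 0)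
    (V τ : Fin l → Fin μ → K0) (hτ : Good K0 u V τ) (z T : Fin μ → G)
    (hz : ∀ i, z i = ∑ j, u j * (V j i : G)) (hT : ∀ i, T i = ∑ j, u j * (τ j i : G))
    (i0 : Fin μ) (hz0 : z i0 = 1) (hT0 : T i0 = 0) (P : MvPolynomial (Fin μ) ℚ) :
    ∃ (c : Fin m → ℕ) (p q : MvPolynomial (Fin m) K0),
      aeval z P * ∏ i, g i ^ c i = aeval g p ∧
      (∑ i, aeval z (pderiv i P) * T i) * ∏ i, g i ^ c i = aeval g q ∧
        q.support ⊆ p.support := by
  obtain ⟨c, p, q, h1, h2, h3⟩ := rep_form g u κ a hg hu hu0 V τ hτ (homog i0 P) _ (homog_hom i0 P)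
  refine ⟨c, p, q, ?_, ?_, h3⟩
  · rw [← h1, ← funext hz, aeval_homog i0 hz0]
  · rw [← h2, ← funext hz, ← dir_homog i0 hz0 hT0]
    congr 1
    refine Finset.sum_congr rfl fun i _ => ?_
    rw [hT]

/-- the coordinate `i0` of the direction is in the small field -/
theorem dir_zero (hg : AlgebraicIndependent K0 g)
    (hu : ∀ j, u j = (κ j : G) * ∏ k, g k ^ a j k) (hu0 : ∀ j, u j ≠ 0)
    (V τ : Fin l → Fin μ → K0) (hτ : Good K0 u V τ) (z : Fin μ → G)
    (hz : ∀ i, z i = ∑ j, u j * (V j i : G)) (i0 : Fin μ) (hz0 : z i0 = 1) :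
    ∃ t : K0, ∑ j, u j * (τ j i0 : G) = (t : G) := by
  classical
  obtain ⟨c, p, q, h1, h2, h3⟩ := rep_form g u κ a hg hu hu0 V τ hτ (X i0) 1
    (isHomogeneous_X ℚ i0)
  rw [← funext hz, aeval_X, hz0, one_mul] at h1
  set cf : Fin m →₀ ℕ := Finsupp.equivFunOnFinite.symm c with hcf
  have h4 : p = monomial cf 1 := by
    apply hg
    rw [← h1, aeval_monomial, Finsupp.prod_fintype _ _ (fun k => pow_zero _), map_one, one_mul]
    rfl
  have h5 : q = monomial cf (coeff cf q) := by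
    refine MvPolynomial.ext _ _ fun β => ?_
    rw [coeff_monomial]
    by_cases hβ : cf = β
    · rw [if_pos hβ, hβ]
    · rw [if_neg hβ]
      by_contra hne
      have h6 := h3 (mem_support_iff.2 hne)
      rw [h4, mem_support_iff, coeff_monomial, if_neg hβ] at h6
      exact h6 rfl
  refine ⟨coeff cf q, ?_⟩
  have h6 : ∑ i, aeval (fun i => ∑ j, u j * (V j i : G))
      (pderiv i (X i0 : MvPolynomial (Fin μ) ℚ)) * ∑ j, u j * (τ j i : G) = ∑ j, u j * (τ j i0 : G) := by
    rw [Finset.sum_eq_single i0]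
    · rw [pderiv_X_self, map_one, one_mul]
    · intro i _ hi
      rw [pderiv_X_of_ne (Ne.symm hi), map_zero, zero_mul]
    · intro h
      exact absurd (Finset.mem_univ _) h
  rw [h6, h5, aeval_monomial, Finsupp.prod_fintype _ _ (fun k => pow_zero _)] at h2
  have hgc : ∏ k, g k ^ c k ≠ 0 :=
    Finset.prod_ne_zero_iff.2 fun k _ => pow_ne_zero _ (hg.ne_zero k)
  exact mul_right_cancel₀ hgc h2

omit [CharZero G] in
/-- the chain rule -/
lemma der_aeval_ax (E : Derivation ℚ G G) (z : Fin μ → G) (P : MvPolynomial (Fin μ) ℚ) :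
    E (aeval z P) = ∑ i, aeval z (pderiv i P) * E (z i) := by
  classical
  induction P using MvPolynomial.induction_on with
  | C b =>
    rw [aeval_C, Derivation.map_algebraMap]
    symm
    refine Finset.sum_eq_zero fun i _ => ?_
    rw [pderiv_C, map_zero, zero_mul]
  | add p q hp hq =>
    rw [map_add, map_add, hp, hq, ← Finset.sum_add_distrib]
    refine Finset.sum_congr rfl fun i _ => ?_
    rw [map_add, map_add, add_mul]
  | mul_X p i hp =>
    rw [map_mul, aeval_X, Derivation.leibniz, hp, smul_eq_mul, smul_eq_mul, Finset.mul_sum]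
    have h1 : ∀ i', aeval z (pderiv i' (p * X i)) * E (z i') =
        z i * (aeval z (pderiv i' p) * E (z i')) +
          (if i' = i then aeval z p * E (z i) else 0) := by
      intro i'
      rw [pderiv_mul, pderiv_X, map_add, map_mul, map_mul, aeval_X]
      by_cases h : i' = i
      · rw [if_pos h, h, Pi.single_eq_same, map_one]
        ring
      · rw [if_neg h, Pi.single_eq_of_ne (Ne.symm h), map_zero]
        ring
    rw [Finset.sum_congr rfl fun i' _ => h1 i', Finset.sum_add_distrib,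
      Finset.sum_ite_eq' Finset.univ i, if_pos (Finset.mem_univ _), add_comm]

/-- **The derivation of a good direction.** -/
theorem exists_E (hDER : S_DER) (hg : AlgebraicIndependent K0 g)
    (hu : ∀ j, u j = (κ j : G) * ∏ k, g k ^ a j k) (hu0 : ∀ j, u j ≠ 0)
    (V τ : Fin l → Fin μ → K0) (hτ : Good K0 u V τ) (z T : Fin μ → G)
    (hz : ∀ i, z i = ∑ j, u j * (V j i : G)) (hT : ∀ i, T i = ∑ j, u j * (τ j i : G))
    (i0 : Fin μ) (hz0 : z i0 = 1) (hT0 : T i0 = 0) :
    ∃ E : Derivation ℚ G G, ∀ i, E (z i) = T i := by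
  refine hDER G μ z T fun P hP => ?_
  obtain ⟨c, p, q, h1, h2, h3⟩ := rep_poly g u κ a hg hu hu0 V τ hτ z T hz hT i0 hz0 hT0 P
  rw [hP, zero_mul] at h1
  have h4 : p = 0 := by
    apply hg
    rw [← h1, map_zero]
  rw [h4, support_zero, Finset.subset_empty, support_eq_empty] at h3
  rw [h3, map_zero] at h2
  have hgc : ∏ k, g k ^ c k ≠ 0 :=
    Finset.prod_ne_zero_iff.2 fun k _ => pow_ne_zero _ (hg.ne_zero k)
  exact (mul_eq_zero.1 h2).resolve_right hgc

/-- **The derivative in a good direction is not larger than the function.** -/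
theorem good_ld (hLD : S_LD) (hg : AlgebraicIndependent K0 g)
    (hu : ∀ j, u j = (κ j : G) * ∏ k, g k ^ a j k) (hu0 : ∀ j, u j ≠ 0)
    (V τ : Fin l → Fin μ → K0) (hτ : Good K0 u V τ) (z T : Fin μ → G)
    (hz : ∀ i, z i = ∑ j, u j * (V j i : G)) (hT : ∀ i, T i = ∑ j, u j * (τ j i : G))
    (i0 : Fin μ) (hz0 : z i0 = 1) (hT0 : T i0 = 0) (E : Derivation ℚ G G)
    (hE : ∀ i, E (z i) = T i) (A : ValuationSubring G) (γ : Fin m → ℝ)
    (hA0 : ∀ b : K0, (b : G) ∈ A)
    (hA1 : ∀ (p : MvPolynomial (Fin m) K0), ∀ α ∈ p.support,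
      A.valuation (∏ i, g i ^ α i) ≤ A.valuation (aeval g p))
    (hA2 : ∀ α β : Fin m →₀ ℕ, A.valuation (∏ i, g i ^ α i) ≤ A.valuation (∏ i, g i ^ β i) ↔
      ∑ i, (α i : ℝ) * γ i ≤ ∑ i, (β i : ℝ) * γ i)
    (φ : G) (hφ : IsIntegral (aeval z : MvPolynomial (Fin μ) ℚ →ₐ[ℚ] G).range φ) :
    A.valuation (E φ) ≤ A.valuation φ := by
  refine hLD G K0 m g hg E (aeval z : MvPolynomial (Fin μ) ℚ →ₐ[ℚ] G).range.toSubring ?_ A γ hA0
    hA1 hA2 φ ?_
  · rintro _ ⟨P, rfl⟩
    obtain ⟨c, p, q, h1, h2, h3⟩ := rep_poly g u κ a hg hu hu0 V τ hτ z T hz hT i0 hz0 hT0 P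
    refine ⟨c, p, q, h1, ?_, h3⟩
    change E (aeval z P) * _ = _
    rw [der_aeval_ax, ← h2]
    simp only [hE]
  · have : Nontrivial ((aeval z : MvPolynomial (Fin μ) ℚ →ₐ[ℚ] G).range) := inferInstance
    exact IsIntegral.isAlgebraic hφ

end ax

end Pool.Agent.Y724.T4
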