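import Mathlib
import Pool.Agent.Y724.T4.AX

/-!
# Enough directions at an algebraic point
-/

set_option autoImplicit false

namespace Pool.Agent.Y724.T4

open MvPolynomial Pool.Agent.Y724.Vj

section xd

variable {G : Type} [Field G] {r ν μ : ℕ}

/-- `f'(θ)` for `f = X ^ r - ∑ z (ia i) X ^ i` -/
def fpr (z : Fin μ → G) (ia : Fin r → Fin μ) (θ : G) : G :=
  r * θ ^ (r - 1) - ∑ i : Fin r, ((i : ℕ) : G) * z (ia i) * θ ^ ((i : ℕ) - 1)

/-- `∑ z (ic i y) θ ^ i` -/
def pt (z : Fin μ → G) (ic : Fin r → Fin ν → Fin μ) (θ : G) (y : Fin ν) : G :=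
  ∑ i : Fin r, z (ic i y) * θ ^ (i : ℕ)

/-- the derivative with respect to `θ` -/
def ptd (z : Fin μ → G) (ic : Fin r → Fin ν → Fin μ) (θ : G) (y : Fin ν) : G :=
  ∑ i : Fin r, ((i : ℕ) : G) * z (ic i y) * θ ^ ((i : ℕ) - 1)

/-- `∑ T (ia i) θ ^ i` -/
def rho (T : Fin μ → G) (ia : Fin r → Fin μ) (θ : G) : G :=
  ∑ i : Fin r, T (ia i) * θ ^ (i : ℕ)

/-- the derivative of the point in the direction `T` -/
def xd (z T : Fin μ → G) (ia : Fin r → Fin μ) (ic : Fin r → Fin ν → Fin μ) (θ : G)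
    (y : Fin ν) : G :=
  pt T ic θ y + ptd z ic θ y * (rho T ia θ / fpr z ia θ)

variable [Algebra ℚ G]

lemma E_theta (E : Derivation ℚ G G) (z T : Fin μ → G) (hE : ∀ i, E (z i) = T i)
    (ia : Fin r → Fin μ) (θ : G) (hθ : θ ^ r = ∑ i : Fin r, z (ia i) * θ ^ (i : ℕ)) :
    fpr z ia θ * E θ = rho T ia θ := by
  have h1 := congrArg E hθ
  rw [Derivation.leibniz_pow, map_sum] at h1
  have h2 : ∀ i : Fin r, E (z (ia i) * θ ^ (i : ℕ)) =
      ((i : ℕ) : G) * z (ia i) * θ ^ ((i : ℕ) - 1) * E θ + T (ia i) * θ ^ (i : ℕ) := by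
    intro i
    rw [Derivation.leibniz, Derivation.leibniz_pow, hE]
    simp only [smul_eq_mul, nsmul_eq_mul]
    ring
  rw [Finset.sum_congr rfl fun i _ => h2 i, Finset.sum_add_distrib, ← Finset.sum_mul] at h1
  simp only [smul_eq_mul, nsmul_eq_mul] at h1
  unfold fpr rho
  linear_combination h1

lemma E_pt (E : Derivation ℚ G G) (z T : Fin μ → G) (hE : ∀ i, E (z i) = T i)
    (ia : Fin r → Fin μ) (ic : Fin r → Fin ν → Fin μ) (θ : G)
    (hθ : θ ^ r = ∑ i : Fin r, z (ia i) * θ ^ (i : ℕ)) (hf : fpr z ia θ ≠ 0) (y : Fin ν) :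
    E (pt z ic θ y) = xd z T ia ic θ y := by
  have h0 : E θ = rho T ia θ / fpr z ia θ := by
    rw [eq_div_iff hf, mul_comm]
    exact E_theta E z T hE ia θ hθ
  unfold xd pt ptd
  rw [map_sum, ← h0, Finset.sum_mul, ← Finset.sum_add_distrib]
  refine Finset.sum_congr rfl fun i _ => ?_
  rw [Derivation.leibniz, Derivation.leibniz_pow, hE]
  simp only [smul_eq_mul, nsmul_eq_mul]
  ring

omit [Algebra ℚ G] in
lemma xd_sum {ι : Type} (S : Finset ι) (e : ι → G) (T : ι → Fin μ → G) (z : Fin μ → G)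
    (ia : Fin r → Fin μ) (ic : Fin r → Fin ν → Fin μ) (θ : G) (y : Fin ν) :
    xd z (fun i => ∑ k ∈ S, e k * T k i) ia ic θ y = ∑ k ∈ S, e k * xd z (T k) ia ic θ y := by
  have h1 : pt (fun i => ∑ k ∈ S, e k * T k i) ic θ y = ∑ k ∈ S, e k * pt (T k) ic θ y := by
    unfold pt
    simp_rw [Finset.sum_mul, Finset.mul_sum]
    rw [Finset.sum_comm]
    exact Finset.sum_congr rfl fun k _ => Finset.sum_congr rfl fun i _ => by ring
  have h2 : rho (fun i => ∑ k ∈ S, e k * T k i) ia θ = ∑ k ∈ S, e k * rho (T k) ia θ := by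
    unfold rho
    simp_rw [Finset.sum_mul, Finset.mul_sum]
    rw [Finset.sum_comm]
    exact Finset.sum_congr rfl fun k _ => Finset.sum_congr rfl fun i _ => by ring
  unfold xd
  rw [h1, h2, Finset.sum_div, Finset.mul_sum, ← Finset.sum_add_distrib]
  exact Finset.sum_congr rfl fun k _ => by ring

end xd

section lin

variable {G : Type} [Field G] [CharZero G] {K0 : Subfield G} {l μ : ℕ} {u : Fin l → G}
  {V : Fin l → Fin μ → K0}

lemma good_sub_smul {τ : Fin l → Fin μ → K0} (h : Good K0 u V τ) (h' : Good K0 u V V)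
    (t : K0) : Good K0 u V (fun j i => τ j i - t * V j i) := by
  classical
  intro F e hF α0 h0
  have h1 := h F e hF α0 h0
  have h2 := h' F e hF α0 h0
  rw [cs_DG] at h1 h2 ⊢
  have h3 : ∀ x : Fin l × Fin μ, ((τ x.1 x.2 - t * V x.1 x.2 : K0) : G) *
      cs K0 u V F (PG V (pderiv x.2 F) * X x.1) α0.1 =
      (τ x.1 x.2 : G) * cs K0 u V F (PG V (pderiv x.2 F) * X x.1) α0.1 -
      (t : G) * ((V x.1 x.2 : G) * cs K0 u V F (PG V (pderiv x.2 F) * X x.1) α0.1) := by
    intro x
    rw [AddSubgroupClass.coe_sub, MulMemClass.coe_mul]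
    ring
  rw [Finset.sum_congr rfl fun x _ => h3 x, Finset.sum_sub_distrib, ← Finset.mul_sum, h1, h2,
    mul_zero, sub_zero]

lemma good_zero : Good K0 u V (fun _ _ => 0) := by
  classical
  intro F e _ α0 _
  rw [cs_DG]
  refine Finset.sum_eq_zero fun x _ => ?_
  rw [ZeroMemClass.coe_zero, zero_mul]

end lin

section dirs

variable {G : Type} [Field G] [CharZero G] [Algebra ℚ G] {K0 : Subfield G} {m l μ r ν n : ℕ}
  (g : Fin m → G) (u : Fin l → G) (κ : Fin l → K0) (a : Fin l → Fin m → ℤ)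

/-- **Enough directions.** -/
theorem exists_dirs (hg : AlgebraicIndependent K0 g)
    (hu : ∀ j, u j = (κ j : G) * ∏ k, g k ^ a j k) (hu0 : ∀ j, u j ≠ 0)
    (V : Fin l → Fin μ → K0) (z : Fin μ → G) (hz : ∀ i, z i = ∑ j, u j * (V j i : G))
    (i0 : Fin μ) (hz0 : z i0 = 1) (ia : Fin r → Fin μ) (ic : Fin r → Fin ν → Fin μ) (θ : G)
    (hθ : θ ^ r = ∑ i : Fin r, z (ia i) * θ ^ (i : ℕ)) (hf : fpr z ia θ ≠ 0)
    (J0 : Fin n → Fin ν) (σ : G)
    (hσ : AlgebraicIndependent ℚ (fun i => σ * pt z ic θ (J0 i))) :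
    ∃ (τ : Fin n → Fin l → Fin μ → K0) (ε : Fin n → K0), (∀ c, Good K0 u V (τ c)) ∧
      (∀ c, ∑ j, u j * (τ c j i0 : G) = 0) ∧
      (Matrix.of fun (i c : Fin n) => xd z (fun i => ∑ j, u j * (τ c j i : G)) ia ic θ (J0 i) +
        (ε c : G) * pt z ic θ (J0 i)).det ≠ 0 := by
  classical
  set x : Fin ν → G := pt z ic θ with hx
  choose E hE using fun k => exists_dual _ hσ k
  set S : Set (Fin n → G) := {w | ∃ (τ : Fin l → Fin μ → K0) (ε : K0), Good K0 u V τ ∧
    ∑ j, u j * (τ j i0 : G) = 0 ∧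
    w = fun i => xd z (fun i => ∑ j, u j * (τ j i : G)) ia ic θ (J0 i) + (ε : G) * x (J0 i)}
    with hS
  have hxd0 : ∀ y, xd z (fun i => ∑ j, u j * (((fun _ _ => 0 : Fin l → Fin μ → K0) j i : K0) : G))
      ia ic θ y = 0 := by
    intro y
    have h1 : (fun i : Fin μ => ∑ j, u j *
        (((fun _ _ => 0 : Fin l → Fin μ → K0) j i : K0) : G)) = fun _ => 0 := by
      funext i
      refine Finset.sum_eq_zero fun j _ => ?_
      simp
    rw [h1]
    unfold xd pt rho
    simp
  have hx1 : (fun i => x (J0 i)) ∈ Submodule.span G S := by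
    refine Submodule.subset_span ⟨fun _ _ => 0, 1, good_zero, ?_, ?_⟩
    · refine Finset.sum_eq_zero fun j _ => ?_
      simp
    · funext i
      rw [hxd0, OneMemClass.coe_one, one_mul, zero_add]
  have hx2 : ∀ D : Derivation ℚ G G, (fun i => D (x (J0 i))) ∈ Submodule.span G S := by
    intro D
    obtain ⟨ι, T, e, τ, hτ, hdec⟩ := goodG_decomp K0 u V hu0 _ (goodG_der K0 u V hu0 D)
    choose t ht using fun k => dir_zero g u κ a hg hu hu0 V (τ k) (hτ k) z hz i0 hz0
    have hD : ∀ i, D (z i) = ∑ k ∈ T, e k * ∑ j, u j * (τ k j i : G) := by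
      intro i
      rw [hz, map_sum]
      have h2 : ∀ j, D (u j * (V j i : G)) = u j * ∑ k ∈ T, e k * (τ k j i : G) := by
        intro j
        rw [← hdec, mul_div_cancel₀ _ (hu0 j)]
      rw [Finset.sum_congr rfl fun j _ => h2 j]
      simp_rw [Finset.mul_sum]
      rw [Finset.sum_comm]
      exact Finset.sum_congr rfl fun k _ => Finset.sum_congr rfl fun j _ => by ring
    have het : ∑ k ∈ T, e k * (t k : G) = 0 := by
      have h1 := hD i0
      rw [hz0, Derivation.map_one_eq_zero] at h1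
      rw [h1]
      exact Finset.sum_congr rfl fun k _ => by rw [ht]
    have hD2 : ∀ i, D (z i) = ∑ k ∈ T, e k * ∑ j, u j *
        (((fun j i => τ k j i - t k * V j i) j i : K0) : G) := by
      intro i
      have h1 : ∀ k, ∑ j, u j * (((fun j i => τ k j i - t k * V j i) j i : K0) : G) =
          ∑ j, u j * (τ k j i : G) - (t k : G) * z i := by
        intro k
        rw [hz, Finset.mul_sum, ← Finset.sum_sub_distrib]
        refine Finset.sum_congr rfl fun j _ => ?_
        push_cast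
        ring
      simp_rw [h1, mul_sub]
      rw [Finset.sum_sub_distrib, hD]
      have h2 : ∑ k ∈ T, e k * ((t k : G) * z i) = 0 := by
        have h3 : ∑ k ∈ T, e k * ((t k : G) * z i) = (∑ k ∈ T, e k * (t k : G)) * z i := by
          rw [Finset.sum_mul]
          exact Finset.sum_congr rfl fun k _ => by ring
        rw [h3, het, zero_mul]
      rw [h2, sub_zero]
    have h1 : (fun i => D (x (J0 i))) =
        ∑ k ∈ T, e k • (fun i => xd z (fun i => ∑ j, u j *
          (((fun j i => τ k j i - t k * V j i) j i : K0) : G)) ia ic θ (J0 i) +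
          ((0 : K0) : G) * x (J0 i)) := by
      funext i
      rw [Finset.sum_apply]
      simp only [Pi.smul_apply, smul_eq_mul, ZeroMemClass.coe_zero, zero_mul, add_zero]
      rw [hx, E_pt D z _ hD2 ia ic θ hθ hf, xd_sum]
    rw [h1]
    refine Submodule.sum_mem _ fun k _ => Submodule.smul_mem _ _ ?_
    refine Submodule.subset_span ⟨_, 0, good_sub_smul (hτ k) (good_self K0 u V) (t k), ?_, rfl⟩
    have h2 : ∑ j, u j * ((τ k j i0 - t k * V j i0 : K0) : G) =
        ∑ j, u j * (τ k j i0 : G) - (t k : G) * z i0 := by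
      rw [hz, Finset.mul_sum, ← Finset.sum_sub_distrib]
      refine Finset.sum_congr rfl fun j _ => ?_
      push_cast
      ring
    rw [h2, ht, hz0, mul_one, sub_self]
  have htop : Submodule.span G S = ⊤ := by
    rw [eq_top_iff]
    intro w _
    have h1 : ∀ k : Fin n, (Pi.single k 1 : Fin n → G) ∈ Submodule.span G S := by
      intro k
      have h2 : (Pi.single k 1 : Fin n → G) =
          σ • (fun i => E k (x (J0 i))) + E k σ • (fun i => x (J0 i)) := by
        funext i
        have h3 := hE k i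
        rw [Derivation.leibniz, smul_eq_mul, smul_eq_mul] at h3
        rw [Pi.add_apply, Pi.smul_apply, Pi.smul_apply, smul_eq_mul, smul_eq_mul,
          mul_comm (E k σ), Pi.single_apply]
        exact h3.symm
      rw [h2]
      exact Submodule.add_mem _ (Submodule.smul_mem _ _ (hx2 _)) (Submodule.smul_mem _ _ hx1)
    have h2 : w = ∑ k, w k • (Pi.single k 1 : Fin n → G) := by
      funext i
      rw [Finset.sum_apply]
      simp [Pi.single_apply]
    rw [h2]
    exact Submodule.sum_mem _ fun k _ => Submodule.smul_mem _ _ (h1 k)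
  -- a basis
  obtain ⟨B, hBS, hBspan, hB⟩ := exists_linearIndependent G S
  rw [htop] at hBspan
  have hBfin : B.Finite := hB.setFinite
  have : Fintype B := hBfin.fintype
  have hcard : Fintype.card B = n := by
    have h1 := finrank_span_set_eq_card hB
    rw [hBspan, finrank_top, Module.finrank_fin_fun] at h1
    rw [← Set.toFinset_card, ← h1]
  let eq := (Fintype.equivFinOfCardEq hcard).symm
  choose τ ε hτ1 hτ2 hτ3 using fun c : Fin n => hBS (eq c).2
  refine ⟨τ, ε, hτ1, hτ2, ?_⟩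
  have hli : LinearIndependent G (fun c : Fin n => ((eq c : B) : Fin n → G)) :=
    hB.comp eq eq.injective
  have h1 : (Matrix.of fun (i c : Fin n) => xd z (fun i => ∑ j, u j * (τ c j i : G)) ia ic θ (J0 i) +
      (ε c : G) * x (J0 i)) =
      (Matrix.of fun c : Fin n => ((eq c : B) : Fin n → G)).transpose := by
    ext i c
    rw [Matrix.transpose_apply, Matrix.of_apply, Matrix.of_apply, hτ3]
  rw [h1, Matrix.det_transpose]
  have h2 : LinearIndependent G (Matrix.of fun c : Fin n => ((eq c : B) : Fin n → G)).row := hli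
  exact ((Matrix.linearIndependent_rows_iff_isUnit.1 h2).map Matrix.detMonoidHom).ne_zero

end dirs

end Pool.Agent.Y724.T4
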