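import Mathlib
import Pool.Agent.Y724.Vj.Cls

/-!
# Real weights of bounded germs
-/

set_option autoImplicit false

namespace Pool.Agent.Y724.T4

open Filter Topology Pool.Agent.TH932.Germs Pool.Agent.Y724.Vj

variable {L : ℕ → ℝ}

/-- a bounded nonzero germ has a real weight -/
lemma exists_weight (hL : Tendsto L atTop atTop) {v : AbsoluteValue ℚ ℝ} (hv : Pl v)
    {T : ℕ → ℚ} (hB : Bd L (gm T)) (h0 : gm T ≠ 0) :
    ∃ γ : ℝ, ∀ ε : ℝ, 0 < ε → ∀ᶠ t in (UU : Filter ℕ), |Real.log (v (T t)) - γ * L t| ≤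
      ε * L t := by
  obtain ⟨m, d, A, hm, hd, hd0, hT⟩ := hB
  rw [gm_eq] at hT
  have hLpos : ∀ᶠ t in (UU : Filter ℕ), 0 < L t := ev_of_atTop (hL.eventually_gt_atTop 0)
  have hkey : ∀ᶠ t in (UU : Filter ℕ), Real.log (v (T t)) / L t ∈
      Set.Icc (-(2 * max A 0)) (2 * max A 0) := by
    filter_upwards [hm, hd, hd0, hT, gm_ne_zero.1 h0, hLpos] with t h1 h2 h3 h4 h5 h6
    have hm0 : m t ≠ 0 := by
      intro h
      rw [h4, h] at h5
      simp at h5
    set E := Real.exp (max A 0 * L t) with hE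
    have hE1 : (1 : ℝ) ≤ E := Real.one_le_exp (by positivity)
    have hE0 : 0 < E := Real.exp_pos _
    have hAE : Real.exp (A * L t) ≤ E :=
      Real.exp_le_exp.2 (mul_le_mul_of_nonneg_right (le_max_left _ _) h6.le)
    have hup : ∀ z : ℤ, z ≠ 0 → |(z : ℝ)| ≤ Real.exp (A * L t) → v (z : ℚ) ≤ E ∧
        E⁻¹ ≤ v (z : ℚ) := by
      intro z hz hz1
      constructor
      · exact (hv.le z).trans (max_le hE1 (hz1.trans hAE))
      · have h7 := hv.ge z hz
        have h8 : 0 ≤ v (z : ℚ) := v.nonneg _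
        rw [inv_le_iff_one_le_mul₀ hE0]
        calc (1 : ℝ) ≤ |(z : ℝ)| * v (z : ℚ) := h7
          _ ≤ E * v (z : ℚ) := mul_le_mul_of_nonneg_right (hz1.trans hAE) h8
          _ = v (z : ℚ) * E := mul_comm _ _
    obtain ⟨h7, h8⟩ := hup _ hm0 h1
    obtain ⟨h9, h10⟩ := hup _ h3 h2
    have hvT : v (T t) = v (m t : ℚ) / v (d t : ℚ) := by rw [h4, map_div₀]
    have hmpos : 0 < v (m t : ℚ) := lt_of_lt_of_le (inv_pos.2 hE0) h8
    have hdpos : 0 < v (d t : ℚ) := lt_of_lt_of_le (inv_pos.2 hE0) h10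
    have hlm1 : Real.log (v (m t : ℚ)) ≤ max A 0 * L t := by
      rw [← Real.log_exp (max A 0 * L t)]
      exact Real.log_le_log hmpos h7
    have hlm2 : -(max A 0 * L t) ≤ Real.log (v (m t : ℚ)) := by
      rw [← Real.log_exp (max A 0 * L t), ← Real.log_inv]
      exact Real.log_le_log (inv_pos.2 hE0) h8
    have hld1 : Real.log (v (d t : ℚ)) ≤ max A 0 * L t := by
      rw [← Real.log_exp (max A 0 * L t)]
      exact Real.log_le_log hdpos h9
    have hld2 : -(max A 0 * L t) ≤ Real.log (v (d t : ℚ)) := by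
      rw [← Real.log_exp (max A 0 * L t), ← Real.log_inv]
      exact Real.log_le_log (inv_pos.2 hE0) h10
    rw [hvT, Real.log_div hmpos.ne' hdpos.ne']
    constructor
    · rw [le_div_iff₀ h6]
      linarith
    · rw [div_le_iff₀ h6]
      linarith
  obtain ⟨γ, _, hγ⟩ := (isCompact_Icc (a := -(2 * max A 0)) (b := 2 * max A 0)).ultrafilter_le_nhds
    (Ultrafilter.map (fun t => Real.log (v (T t)) / L t) UU) (by
      rw [le_principal_iff]
      exact hkey)
  refine ⟨γ, fun ε hε => ?_⟩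
  have h1 : ∀ᶠ y in 𝓝 γ, |y - γ| ≤ ε := by
    filter_upwards [Metric.closedBall_mem_nhds γ hε] with y hy
    rwa [Metric.mem_closedBall, Real.dist_eq] at hy
  have h2 : ∀ᶠ t in (UU : Filter ℕ), |Real.log (v (T t)) / L t - γ| ≤ ε := hγ h1
  filter_upwards [h2, hLpos] with t h3 h4
  have h5 : Real.log (v (T t)) - γ * L t = (Real.log (v (T t)) / L t - γ) * L t := by
    field_simp
  rw [h5, abs_mul, abs_of_pos h4]
  exact mul_le_mul_of_nonneg_right h3 h4.le

/-- comparison of monomials by real weights -/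
lemma mono_le_iff (hL : Tendsto L atTop atTop) (v : AbsoluteValue ℚ ℝ) {m : ℕ}
    (T : Fin m → ℕ → ℚ) (h0 : ∀ k, gm (T k) ≠ 0) (γ : Fin m → ℝ)
    (hγ : ∀ k, ∀ ε : ℝ, 0 < ε → ∀ᶠ t in (UU : Filter ℕ),
      |Real.log (v (T k t)) - γ k * L t| ≤ ε * L t) (α β : Fin m →₀ ℕ) :
    (OO L hL v).valuation (∏ k, gm (T k) ^ α k) ≤ (OO L hL v).valuation (∏ k, gm (T k) ^ β k) ↔
      ∑ k, (α k : ℝ) * γ k ≤ ∑ k, (β k : ℝ) * γ k := by
  have hgm : ∀ α : Fin m →₀ ℕ, ∏ k, gm (T k) ^ α k = gm (fun t => ∏ k, T k t ^ α k) := by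
    intro α
    have h1 : ∀ S : Finset (Fin m), ∏ k ∈ S, gm (T k) ^ α k =
        gm (fun t => ∏ k ∈ S, T k t ^ α k) := by
      intro S
      induction S using Finset.cons_induction with
      | empty => simp [gm_one]
      | cons a S ha ih =>
        rw [Finset.prod_cons, ih, gm_pow, gm_mul]
        congr 1
        funext t
        rw [Finset.prod_cons]
    exact h1 _
  have hLpos : ∀ᶠ t in (UU : Filter ℕ), 0 < L t := ev_of_atTop (hL.eventually_gt_atTop 0)
  have hne : ∀ᶠ t in (UU : Filter ℕ), ∀ k, T k t ≠ 0 :=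
    eventually_all.2 fun k => gm_ne_zero.1 (h0 k)
  have hlog : ∀ ε : ℝ, 0 < ε → ∀ α : Fin m →₀ ℕ, ∀ᶠ t in (UU : Filter ℕ),
      |Real.log (v (∏ k, T k t ^ α k)) - (∑ k, (α k : ℝ) * γ k) * L t| ≤ ε * L t := by
    intro ε hε α
    set M : ℝ := ∑ k, (α k : ℝ) + 1 with hM
    have hM0 : 0 < M := by positivity
    have h1 : ∀ᶠ t in (UU : Filter ℕ), ∀ k,
        |Real.log (v (T k t)) - γ k * L t| ≤ ε / M * L t :=
      eventually_all.2 fun k => hγ k _ (by positivity)
    filter_upwards [h1, hne, hLpos] with t h2 h3 h4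
    have h5 : Real.log (v (∏ k, T k t ^ α k)) = ∑ k, (α k : ℝ) * Real.log (v (T k t)) := by
      rw [map_prod, Real.log_prod]
      · refine Finset.sum_congr rfl fun k _ => ?_
        rw [map_pow, Real.log_pow]
      · intro k _
        rw [map_pow]
        exact pow_ne_zero _ (v.pos (h3 k)).ne'
    rw [h5, Finset.sum_mul, ← Finset.sum_sub_distrib]
    calc |∑ k, ((α k : ℝ) * Real.log (v (T k t)) - (α k : ℝ) * γ k * L t)|
        ≤ ∑ k, |(α k : ℝ) * Real.log (v (T k t)) - (α k : ℝ) * γ k * L t| :=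
          Finset.abs_sum_le_sum_abs _ _
      _ ≤ ∑ k, (α k : ℝ) * (ε / M * L t) := by
          refine Finset.sum_le_sum fun k _ => ?_
          rw [mul_assoc, ← mul_sub, abs_mul, Nat.abs_cast]
          exact mul_le_mul_of_nonneg_left (h2 k) (Nat.cast_nonneg _)
      _ = (∑ k, (α k : ℝ)) * (ε / M * L t) := by rw [Finset.sum_mul]
      _ ≤ M * (ε / M * L t) := by
          refine mul_le_mul_of_nonneg_right (by rw [hM]; linarith) (by positivity)
      _ = ε * L t := by field_simp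
  rw [hgm, hgm]
  constructor
  · intro h
    by_contra hcon
    push Not at hcon
    set η : ℝ := (∑ k, (α k : ℝ) * γ k - ∑ k, (β k : ℝ) * γ k) / 4 with hη
    have hη0 : 0 < η := by
      rw [hη]
      linarith
    have h1 := val_le hL v h η hη0
    obtain ⟨t, h2, h3, h4, h5, h6⟩ := (h1.and ((hlog η hη0 α).and ((hlog η hη0 β).and
      (hLpos.and hne)))).exists
    have hpos : ∀ α : Fin m →₀ ℕ, 0 < v (∏ k, T k t ^ α k) := fun α =>
      v.pos (Finset.prod_ne_zero_iff.2 fun k _ => pow_ne_zero _ (h6 k))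
    have h7 : Real.log (v (∏ k, T k t ^ α k)) ≤ Real.log (v (∏ k, T k t ^ β k)) + η * L t := by
      have h8 := Real.log_le_log (hpos α) h2
      rwa [Real.log_mul (hpos β).ne' (Real.exp_pos _).ne', Real.log_exp] at h8
    have h8 := (abs_le.1 h3).1
    have h9 := (abs_le.1 h4).2
    have h10 : (∑ k, (α k : ℝ) * γ k - ∑ k, (β k : ℝ) * γ k) * L t ≤ 3 * η * L t := by
      linarith
    have h11 : ∑ k, (α k : ℝ) * γ k - ∑ k, (β k : ℝ) * γ k ≤ 3 * η :=
      le_of_mul_le_mul_right h10 h5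
    linarith
  · intro h
    apply le_val
    intro ε hε
    filter_upwards [hlog (ε / 2) (by positivity) α, hlog (ε / 2) (by positivity) β, hLpos, hne]
      with t h3 h4 h5 h6
    have hpos : ∀ α : Fin m →₀ ℕ, 0 < v (∏ k, T k t ^ α k) := fun α =>
      v.pos (Finset.prod_ne_zero_iff.2 fun k _ => pow_ne_zero _ (h6 k))
    have h8 := (abs_le.1 h3).2
    have h9 := (abs_le.1 h4).1
    have h10 := mul_le_mul_of_nonneg_right h h5.le
    rw [← Real.exp_log (hpos α), ← Real.exp_log (hpos β), ← Real.exp_add]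
    apply Real.exp_le_exp.2
    linarith

end Pool.Agent.Y724.T4
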