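import Mathlib
import Pool.Agent.Y724.Vj.Val

/-!
# Ultraproducts of fields and their places relative to a scale
-/

set_option autoImplicit false

namespace Pool.Agent.Y724.T4

open Filter Topology Pool.Agent.TH932.Germs Pool.Agent.Y724.Vj

section up
variable (K : ℕ → Type) [∀ t, Field (K t)]

/-- sequences that are zero almost everywhere -/
def ev0 : Ideal (∀ t, K t) where
  carrier := {a | ∀ᶠ t in (UU : Filter ℕ), a t = 0}
  add_mem' := by
    intro a b ha hb
    filter_upwards [ha, hb] with t h1 h2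
    rw [Pi.add_apply, h1, h2, add_zero]
  zero_mem' := Eventually.of_forall fun t => rfl
  smul_mem' := by
    intro c a ha
    filter_upwards [ha] with t h1
    rw [Pi.smul_apply', h1, smul_zero]

lemma mem_ev0 {a : ∀ t, K t} : a ∈ ev0 K ↔ ∀ᶠ t in (UU : Filter ℕ), a t = 0 := Iff.rfl

instance : (ev0 K).IsMaximal := by
  rw [Ideal.isMaximal_iff]
  constructor
  · intro h
    rw [mem_ev0] at h
    obtain ⟨t, ht⟩ := h.exists
    exact one_ne_zero ht
  · intro J a hJ ha haJ
    rw [mem_ev0] at ha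
    have h1 : ∀ᶠ t in (UU : Filter ℕ), a t ≠ 0 := Ultrafilter.eventually_not.2 ha
    have h2 : (1 : ∀ t, K t) - (fun t => (a t)⁻¹) * a ∈ ev0 K := by
      rw [mem_ev0]
      filter_upwards [h1] with t ht
      rw [Pi.sub_apply, Pi.mul_apply, Pi.one_apply, inv_mul_cancel₀ ht, sub_self]
    have h3 := J.add_mem (hJ h2) (J.mul_mem_left (fun t => (a t)⁻¹) haJ)
    rwa [sub_add_cancel] at h3

/-- the ultraproduct -/
def UP : Type := (∀ t, K t) ⧸ ev0 K

noncomputable instance : Field (UP K) := Ideal.Quotient.field (ev0 K)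

/-- the class of a sequence -/
def uq : (∀ t, K t) →+* UP K := Ideal.Quotient.mk (ev0 K)

variable {K}

lemma uq_surj (g : UP K) : ∃ a, uq K a = g := Ideal.Quotient.mk_surjective g

lemma uq_eq {a b : ∀ t, K t} : uq K a = uq K b ↔ ∀ᶠ t in (UU : Filter ℕ), a t = b t := by
  have h1 : uq K a = uq K b ↔ a - b ∈ ev0 K := Ideal.Quotient.eq
  rw [h1, mem_ev0]
  constructor
  · intro h
    filter_upwards [h] with t ht
    exact sub_eq_zero.1 ht
  · intro h
    filter_upwards [h] with t ht
    exact sub_eq_zero.2 ht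

lemma uq_eq_zero {a : ∀ t, K t} : uq K a = 0 ↔ ∀ᶠ t in (UU : Filter ℕ), a t = 0 := by
  rw [← map_zero (uq K), uq_eq]
  rfl

lemma uq_ne_zero {a : ∀ t, K t} : uq K a ≠ 0 ↔ ∀ᶠ t in (UU : Filter ℕ), a t ≠ 0 := by
  rw [Ne, uq_eq_zero, ← Ultrafilter.eventually_not]

lemma uq_inv (a : ∀ t, K t) : (uq K a)⁻¹ = uq K (fun t => (a t)⁻¹) := by
  by_cases h : uq K a = 0
  · rw [h, inv_zero, eq_comm, uq_eq_zero]
    rw [uq_eq_zero] at h
    filter_upwards [h] with t ht
    rw [ht, inv_zero]
  · rw [inv_eq_iff_eq_inv, ← eq_inv_of_mul_eq_one_left]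
    rw [← map_mul, ← map_one (uq K), uq_eq]
    filter_upwards [uq_ne_zero.1 h] with t ht
    rw [Pi.mul_apply, mul_inv_cancel₀ ht, Pi.one_apply]

lemma uq_div (a b : ∀ t, K t) : uq K a / uq K b = uq K (fun t => a t / b t) := by
  rw [div_eq_mul_inv, uq_inv, ← map_mul]
  congr 1
  funext t
  rw [Pi.mul_apply, div_eq_mul_inv]

instance [∀ t, CharZero (K t)] : CharZero (UP K) := by
  constructor
  intro m n h
  have h1 : uq K (fun t => (m : K t)) = uq K (fun t => (n : K t)) := by
    have h2 : ∀ k : ℕ, uq K (fun t => (k : K t)) = (k : UP K) := fun k => map_natCast (uq K) k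
    rw [h2, h2, h]
  rw [uq_eq] at h1
  obtain ⟨t, ht⟩ := h1.exists
  exact_mod_cast ht

end up

section io
variable (K : ℕ → Type) [∀ t, Field (K t)] [∀ t, CharZero (K t)]

/-- the embedding of the field of germs of rational sequences -/
noncomputable def io : GG →+* UP K where
  toFun g := uq K (fun t => (((gm_surj g).choose t : ℚ) : K t))
  map_one' := by
    rw [← map_one (uq K), uq_eq]
    have h := (gm_surj 1).choose_spec
    rw [← gm_one, gm_eq] at h
    filter_upwards [h] with t ht
    rw [← gm_one, ht]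
    simp
  map_zero' := by
    rw [uq_eq_zero]
    have h := (gm_surj 0).choose_spec
    rw [← gm_zero, gm_eq] at h
    filter_upwards [h] with t ht
    rw [← gm_zero, ht]
    simp
  map_mul' := by
    intro g h
    rw [← map_mul, uq_eq]
    have h1 := (gm_surj g).choose_spec
    have h2 := (gm_surj h).choose_spec
    have h3 := (gm_surj (g * h)).choose_spec
    have h4 : gm (gm_surj (g * h)).choose = gm (fun t => (gm_surj g).choose t *
        (gm_surj h).choose t) := by
      rw [← gm_mul, h1, h2, h3]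
    rw [gm_eq] at h4
    filter_upwards [h4] with t ht
    rw [Pi.mul_apply, ht]
    push_cast
    rfl
  map_add' := by
    intro g h
    rw [← map_add, uq_eq]
    have h1 := (gm_surj g).choose_spec
    have h2 := (gm_surj h).choose_spec
    have h3 := (gm_surj (g + h)).choose_spec
    have h4 : gm (gm_surj (g + h)).choose = gm (fun t => (gm_surj g).choose t +
        (gm_surj h).choose t) := by
      rw [← gm_add, h1, h2, h3]
    rw [gm_eq] at h4
    filter_upwards [h4] with t ht
    rw [Pi.add_apply, ht]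
    push_cast
    rfl

variable {K}

lemma io_gm (a : ℕ → ℚ) : io K (gm a) = uq K (fun t => ((a t : ℚ) : K t)) := by
  change uq K (fun t => (((gm_surj (gm a)).choose t : ℚ) : K t)) = _
  rw [uq_eq]
  have h := (gm_surj (gm a)).choose_spec
  rw [gm_eq] at h
  filter_upwards [h] with t ht
  rw [ht]

end io

section oo
variable {K : ℕ → Type} [∀ t, Field (K t)] {L : ℕ → ℝ}

/-- the elements of size at most `exp (o(L))` for the absolute values `w t` -/
noncomputable def OU (L : ℕ → ℝ) (hL : Tendsto L atTop atTop) (w : ∀ t, AbsoluteValue (K t) ℝ) :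
    ValuationSubring (UP K) where
  carrier := {g | ∃ a : ∀ t, K t, g = uq K a ∧ ∀ ε : ℝ, 0 < ε → ∀ᶠ n in (UU : Filter ℕ),
    w n (a n) ≤ Real.exp (ε * L n)}
  mul_mem' := by
    rintro _ _ ⟨a, rfl, ha⟩ ⟨b, rfl, hb⟩
    refine ⟨a * b, (map_mul _ _ _).symm, fun ε hε => ?_⟩
    filter_upwards [ha (ε / 2) (by positivity), hb (ε / 2) (by positivity)] with n h1 h2
    rw [Pi.mul_apply, map_mul]
    calc w n (a n) * w n (b n) ≤ Real.exp (ε / 2 * L n) * Real.exp (ε / 2 * L n) :=
          mul_le_mul h1 h2 ((w n).nonneg _) (Real.exp_pos _).le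
      _ = Real.exp (ε * L n) := by rw [← Real.exp_add]; ring_nf
  one_mem' := by
    refine ⟨1, (map_one _).symm, fun ε hε => ?_⟩
    filter_upwards [L_nonneg hL] with n hn
    rw [Pi.one_apply, map_one]
    exact Real.one_le_exp (by positivity)
  add_mem' := by
    rintro _ _ ⟨a, rfl, ha⟩ ⟨b, rfl, hb⟩
    refine ⟨a + b, (map_add _ _ _).symm, fun ε hε => ?_⟩
    filter_upwards [ha (ε / 2) (by positivity), hb (ε / 2) (by positivity),
      two_le_exp hL (show 0 < ε / 2 by positivity)] with n h1 h2 h3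
    calc w n (a n + b n) ≤ w n (a n) + w n (b n) := (w n).add_le _ _
      _ ≤ Real.exp (ε / 2 * L n) + Real.exp (ε / 2 * L n) := add_le_add h1 h2
      _ = 2 * Real.exp (ε / 2 * L n) := by ring
      _ ≤ Real.exp (ε / 2 * L n) * Real.exp (ε / 2 * L n) := by gcongr
      _ = Real.exp (ε * L n) := by rw [← Real.exp_add]; ring_nf
  zero_mem' := by
    refine ⟨0, (map_zero _).symm, fun ε hε => Eventually.of_forall fun n => ?_⟩
    rw [Pi.zero_apply, map_zero]
    exact (Real.exp_pos _).le
  neg_mem' := by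
    rintro _ ⟨a, rfl, ha⟩
    refine ⟨-a, (map_neg _ _).symm, fun ε hε => ?_⟩
    filter_upwards [ha ε hε] with n hn
    rw [Pi.neg_apply, (w n).map_neg]
    exact hn
  mem_or_inv_mem' := by
    intro x
    obtain ⟨a, rfl⟩ := uq_surj x
    by_cases h : ∀ ε : ℝ, 0 < ε → ∀ᶠ n in (UU : Filter ℕ), w n (a n) ≤ Real.exp (ε * L n)
    · exact Or.inl ⟨a, rfl, h⟩
    · right
      push Not at h
      obtain ⟨ε, hε, h⟩ := h
      refine ⟨fun n => (a n)⁻¹, uq_inv a, fun ε' hε' => ?_⟩
      have h' : ∀ᶠ n in (UU : Filter ℕ), Real.exp (ε * L n) < w n (a n) := by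
        simpa using h
      filter_upwards [h', L_nonneg hL] with n h2 h3
      rw [map_inv₀]
      have h4 : (1 : ℝ) ≤ Real.exp (ε * L n) := Real.one_le_exp (by positivity)
      have h5 : (1 : ℝ) ≤ Real.exp (ε' * L n) := Real.one_le_exp (by positivity)
      exact (inv_le_one_of_one_le₀ (h4.trans h2.le)).trans h5

variable (hL : Tendsto L atTop atTop) (w : ∀ t, AbsoluteValue (K t) ℝ)

lemma mem_OU {a : ∀ t, K t} : uq K a ∈ OU L hL w ↔
    ∀ ε : ℝ, 0 < ε → ∀ᶠ n in (UU : Filter ℕ), w n (a n) ≤ Real.exp (ε * L n) := by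
  constructor
  · rintro ⟨b, hb, h⟩ ε hε
    filter_upwards [uq_eq.1 hb, h ε hε] with n h1 h2
    rw [h1]; exact h2
  · intro h; exact ⟨a, rfl, h⟩

/-- inequality of valuations, in terms of sequences -/
lemma uval_le {a b : ∀ t, K t}
    (h : (OU L hL w).valuation (uq K a) ≤ (OU L hL w).valuation (uq K b))
    (ε : ℝ) (hε : 0 < ε) :
    ∀ᶠ n in (UU : Filter ℕ), w n (a n) ≤ w n (b n) * Real.exp (ε * L n) := by
  by_cases hb : uq K b = 0
  · rw [hb, map_zero] at h
    have h1 : uq K a = 0 := by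
      have := le_antisymm h zero_le
      rwa [map_eq_zero] at this
    rw [uq_eq_zero] at h1
    filter_upwards [h1] with n hn
    rw [hn, map_zero]
    have := (w n).nonneg (b n)
    positivity
  · have h1 : (OU L hL w).valuation (uq K a / uq K b) ≤ 1 := by
      rw [map_div₀]
      exact div_le_one_of_le₀ h zero_le
    rw [ValuationSubring.valuation_le_one_iff, uq_div, mem_OU] at h1
    filter_upwards [h1 ε hε, uq_ne_zero.1 hb] with n h2 h3
    rw [map_div₀, div_le_iff₀ ((w n).pos h3)] at h2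
    linarith

lemma le_uval {a b : ∀ t, K t} (h : ∀ ε : ℝ, 0 < ε → ∀ᶠ n in (UU : Filter ℕ),
    w n (a n) ≤ w n (b n) * Real.exp (ε * L n)) :
    (OU L hL w).valuation (uq K a) ≤ (OU L hL w).valuation (uq K b) := by
  by_cases hb : uq K b = 0
  · have h1 : uq K a = 0 := by
      rw [uq_eq_zero] at hb ⊢
      filter_upwards [hb, h 1 one_pos] with n hn h2
      rw [hn, map_zero, zero_mul] at h2
      exact ((w n).eq_zero).1 (le_antisymm h2 ((w n).nonneg _))
    rw [h1, map_zero]
    exact zero_le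
  · have h1 : uq K a / uq K b ∈ OU L hL w := by
      rw [uq_div, mem_OU]
      intro ε hε
      filter_upwards [h ε hε, uq_ne_zero.1 hb] with n h2 h3
      rw [map_div₀, div_le_iff₀ ((w n).pos h3)]
      linarith
    rw [← ValuationSubring.valuation_le_one_iff, map_div₀] at h1
    have h2 : 0 < (OU L hL w).valuation (uq K b) := by
      rw [zero_lt_iff]
      exact (Valuation.ne_zero_iff _).2 hb
    rwa [div_le_one₀ h2] at h1

/-! ### comparison with the places of the field of germs -/

variable [∀ t, CharZero (K t)] (v : AbsoluteValue ℚ ℝ) (e : ℕ → ℕ) (R : ℕ)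

/-- `w t` restricts to the power `v ^ e t` on `ℚ`, `1 ≤ e t ≤ R` -/
structure Res : Prop where
  one_le : ∀ t, 1 ≤ e t
  le : ∀ t, e t ≤ R
  eq : ∀ t (q : ℚ), w t (q : K t) = v q ^ e t

variable {w v e R}

lemma mem_OU_io (h : Res w v e R) (g : GG) : io K g ∈ OU L hL w ↔ g ∈ OO L hL v := by
  obtain ⟨a, rfl⟩ := gm_surj g
  rw [io_gm, mem_OU, mem_OO]
  constructor
  · intro h1 ε hε
    filter_upwards [h1 ε hε, L_nonneg hL] with t ht h2
    rw [h.eq] at ht
    by_contra hcon
    push Not at hcon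
    have h3 : (1 : ℝ) ≤ Real.exp (ε * L t) := Real.one_le_exp (by positivity)
    have h4 : v (a t) ^ 1 ≤ v (a t) ^ e t := pow_le_pow_right₀ (h3.trans hcon.le) (h.one_le t)
    rw [pow_one] at h4
    linarith
  · intro h1 ε hε
    have hR : (0 : ℝ) < R + 1 := by positivity
    filter_upwards [h1 (ε / (R + 1)) (by positivity), L_nonneg hL] with t ht h2
    rw [h.eq]
    have h3 : (1 : ℝ) ≤ Real.exp (ε / (R + 1) * L t) := Real.one_le_exp (by positivity)
    calc v (a t) ^ e t ≤ Real.exp (ε / (R + 1) * L t) ^ e t :=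
          pow_le_pow_left₀ (v.nonneg _) ht _
      _ ≤ Real.exp (ε / (R + 1) * L t) ^ (R + 1) :=
          pow_le_pow_right₀ h3 ((h.le t).trans (Nat.le_succ R))
      _ = Real.exp (ε * L t) := by
          rw [← Real.exp_nat_mul]
          congr 1
          push_cast
          field_simp

lemma val_io_le (h : Res w v e R) (g g' : GG) :
    (OU L hL w).valuation (io K g) ≤ (OU L hL w).valuation (io K g') ↔
      (OO L hL v).valuation g ≤ (OO L hL v).valuation g' := by
  by_cases h0 : g' = 0
  · rw [h0, map_zero, map_zero, map_zero, le_zero_iff, le_zero_iff, Valuation.zero_iff,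
      Valuation.zero_iff, map_eq_zero]
  · have h1 : (OO L hL v).valuation g ≤ (OO L hL v).valuation g' ↔ g / g' ∈ OO L hL v := by
      rw [← ValuationSubring.valuation_le_one_iff, map_div₀, div_le_one₀]
      rw [zero_lt_iff]
      exact (Valuation.ne_zero_iff _).2 h0
    have h2 : (OU L hL w).valuation (io K g) ≤ (OU L hL w).valuation (io K g') ↔
        io K g / io K g' ∈ OU L hL w := by
      rw [← ValuationSubring.valuation_le_one_iff, map_div₀, div_le_one₀]
      rw [zero_lt_iff]
      refine (Valuation.ne_zero_iff _).2 ?_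
      rwa [Ne, map_eq_zero]
    rw [h1, h2, ← map_div₀, mem_OU_io hL h]

end oo

end Pool.Agent.Y724.T4
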