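import Mathlib
import Pool.Agent.Y724.T4.UP
import Pool.Agent.Y724.T4.UL
import Pool.Agent.Y724.T4.DI
import Pool.Agent.Y724.Vj.Grp

/-!
# The small field and the monomials in the ultraproduct
-/

set_option autoImplicit false

namespace Pool.Agent.Y724.T4

open MvPolynomial Filter Topology Pool.Agent.TH932.Germs Pool.Agent.TH551.SU Pool.Agent.Y724.Vj
open Pool.Agent.TH551.SU.SUI

variable {L : ℕ → ℝ} (hL : Tendsto L atTop atTop) (K : ℕ → Type) [∀ t, Field (K t)]
  [∀ t, CharZero (K t)]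

/-- the image of the negligible field -/
noncomputable def K0 : Subfield (UP K) := (KK L hL).map (io K)

/-- the embedding of the negligible field -/
noncomputable def psi : KK L hL →+* K0 hL K where
  toFun x := ⟨io K (x : GG), ⟨x, x.2, rfl⟩⟩
  map_one' := Subtype.ext (map_one _)
  map_mul' _ _ := Subtype.ext (map_mul _ _ _)
  map_zero' := Subtype.ext (map_zero _)
  map_add' _ _ := Subtype.ext (map_add _ _ _)

lemma psi_coe (x : KK L hL) : ((psi hL K x : K0 hL K) : UP K) = io K (x : GG) := rfl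

lemma psi_surj : Function.Surjective (psi hL K) := by
  rintro ⟨y, x, hx, rfl⟩
  exact ⟨⟨x, hx⟩, rfl⟩

variable {K}

lemma aeval_psi {m : ℕ} (T : Fin m → GG) (p : MvPolynomial (Fin m) (KK L hL)) :
    aeval (fun k => io K (T k)) (map (psi hL K) p) = io K (aeval T p) := by
  induction p using MvPolynomial.induction_on with
  | C a =>
    rw [map_C, aeval_C, aeval_C]
    rfl
  | add p q hp hq => rw [map_add, map_add, map_add, map_add, hp, hq]
  | mul_X p i hp =>
    rw [map_mul, map_mul, map_mul, map_mul, hp, map_X, aeval_X, aeval_X]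

lemma io_prod_pow {m : ℕ} (T : Fin m → GG) (α : Fin m →₀ ℕ) :
    ∏ k, (io K (T k)) ^ α k = io K (∏ k, T k ^ α k) := by
  rw [map_prod]
  exact Finset.prod_congr rfl fun k _ => (map_pow _ _ _).symm

lemma algInd_io {m : ℕ} (T : Fin m → GG)
    (hind : ∀ p : MvPolynomial (Fin m) (KK L hL), aeval T p = 0 → p = 0) :
    AlgebraicIndependent (K0 hL K) (fun k => io K (T k)) := by
  rw [algebraicIndependent_iff]
  intro P hP
  obtain ⟨p, rfl⟩ := map_surjective _ (psi_surj hL K) P
  rw [aeval_psi, map_eq_zero] at hP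
  rw [hind p hP, map_zero]

/-- polynomials in independent units are at least as large as their terms -/
lemma lb_mono {s : ℕ} (b : Fin s → ℕ) (hb : ∀ v, (b v).Prime) (hbi : Function.Injective b)
    {m : ℕ} (T : Fin m → GG) (hS : ∀ k, GSU b (T k)) (hB : ∀ k, Bd L (T k))
    (hind : ∀ p : MvPolynomial (Fin m) (KK L hL), aeval T p = 0 → p = 0)
    (v0 : Option (Fin s)) (p : MvPolynomial (Fin m) (KK L hL)) (α : Fin m →₀ ℕ)
    (hα : α ∈ p.support) :
    (OO L hL (wv b hb v0)).valuation (∏ k, T k ^ α k) ≤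
      (OO L hL (wv b hb v0)).valuation (aeval T p) := by
  classical
  have hT0 : ∀ k, T k ≠ 0 := fun k => gsu_ne_zero hb (hS k)
  have hm0 : ∀ α : Fin m →₀ ℕ, ∏ k, T k ^ α k ≠ 0 := fun α =>
    Finset.prod_ne_zero_iff.2 fun k _ => pow_ne_zero _ (hT0 k)
  have hinj : ∀ β : Fin m →₀ ℕ, (∏ k, T k ^ β k) / ∏ k, T k ^ α k ∈ KK L hL ↔ β = α := by
    intro β
    constructor
    · intro h
      have h1 : aeval T (monomial β 1 - monomial α (⟨_, h⟩ : KK L hL)) = 0 := by
        rw [map_sub, aeval_monomial, aeval_monomial,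
          Finsupp.prod_fintype _ _ (fun k => pow_zero _),
          Finsupp.prod_fintype _ _ (fun k => pow_zero _), map_one, one_mul]
        change _ - (∏ k, T k ^ β k) / (∏ k, T k ^ α k) * _ = 0
        rw [div_mul_cancel₀ _ (hm0 α), sub_self]
      have h2 := hind _ h1
      rw [sub_eq_zero, monomial_eq_monomial_iff] at h2
      rcases h2 with h2 | h2
      · exact h2.1
      · exact absurd h2.1 one_ne_zero
    · rintro rfl
      rw [div_self (hm0 _)]
      exact (KK L hL).one_mem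
  have h1 : aeval T p = ∑ β : p.support, ((coeff β.1 p : KK L hL) : GG) * ∏ k, T k ^ β.1 k := by
    rw [aeval_def, eval₂_eq', Finset.sum_coe_sort p.support
      (fun β => ((coeff β p : KK L hL) : GG) * ∏ k, T k ^ β k)]
    rfl
  rw [h1]
  refine lb_class b hb hbi hL (fun β : p.support => ∏ k, T k ^ β.1 k)
    (fun β => gsu_prod hb _ _ fun k _ => CRV.GSU.pow hb (hS k) _)
    (fun β => Bd.prod hL _ _ fun k _ => (hB k).pow hL _) (fun β => coeff β.1 p) v0 ⟨α, hα⟩
    (fun β => β = ⟨α, hα⟩) ?_ ?_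
  · intro β
    rw [hinj]
    exact Subtype.ext_iff
  · rw [Finset.sum_filter, Finset.sum_ite_eq' Finset.univ (⟨α, hα⟩ : p.support),
      if_pos (Finset.mem_univ _)]
    refine mul_ne_zero ?_ (hm0 α)
    intro h0
    exact (mem_support_iff.1 hα) (Subtype.ext h0)

/-- common denominators in the negligible field -/
lemma exists_common {ι : Type} [Fintype ι] (f : ι → KK L hL) :
    ∃ κ : KK L hL, (κ : GG) ≠ 0 ∧ ∀ i, ∃ M : ℕ → ℤ, (κ : GG) * (f i : GG) =
      gm (fun t => (M t : ℚ)) := by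
  classical
  have hNK : ∀ m' : ℕ → ℤ, Negl L m' → gm (fun t => (m' t : ℚ)) ∈ KK L hL := fun m' hm' =>
    ⟨_, _, hm', Negl.one hL, by simp, by
      congr 1
      funext t
      simp⟩
  choose M0 d0 hM0 hd0 hd0' hg0 using fun i => (f i).2
  have hd1 : ∀ᶠ t in (UU : Filter ℕ), ∀ z, d0 z t ≠ 0 := eventually_all.2 hd0'
  refine ⟨⟨gm (fun t => ((∏ z, d0 z t : ℤ) : ℚ)), hNK _ (Negl.prod hL _ fun z _ => hd0 z)⟩,
    ?_, fun i => ⟨fun t => M0 i t * ∏ z' ∈ Finset.univ.erase i, d0 z' t, ?_⟩⟩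
  · change gm _ ≠ 0
    rw [gm_ne_zero]
    filter_upwards [hd1] with t ht
    exact_mod_cast Finset.prod_ne_zero_iff.2 fun z _ => ht z
  · rw [hg0 i]
    simp only
    rw [gm_mul, gm_eq]
    filter_upwards [hd1] with t ht
    have h2 : (d0 i t : ℚ) ≠ 0 := by exact_mod_cast ht i
    rw [← Finset.mul_prod_erase _ _ (Finset.mem_univ i)]
    push_cast
    field_simp

end Pool.Agent.Y724.T4
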