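import Mathlib
import Pool.Agent.Y724.T4.Stm
import Pool.Agent.Y724.T4.GE

/-!
# Statements for the project T5 (removal of the content term)
-/

set_option autoImplicit false

namespace Pool.Agent.Y724.T4

open MvPolynomial NumberField Filter Topology Pool.Agent.TH932.Germs Pool.Agent.TH551.SU
open Pool.Agent.Y724.Vj

/-- a derivation which preserves the small field `k` and multiplies every `g i` by an element of
it -/
def Graded {G : Type} (k : Type) [Field G] [Algebra ℚ G] [Field k] [Algebra k G] {m : ℕ}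
    (g : Fin m → G) (E : Derivation ℚ G G) : Prop :=
  (∀ a : k, ∃ b : k, E (algebraMap k G a) = algebraMap k G b) ∧
    ∀ i, ∃ b : k, E (g i) = algebraMap k G b * g i

/-- **GD**: every derivation is a combination of graded derivations on finite sets. -/
def S_GD : Prop :=
  ∀ (G k : Type) [Field G] [CharZero G] [Algebra ℚ G] [Field k] [Algebra k G] (m : ℕ)
    (g : Fin m → G), AlgebraicIndependent k g → ∀ (D : Derivation ℚ G G) (Y : Finset k),
    ∃ (ι : Type) (T : Finset ι) (e : ι → G) (E : ι → Derivation ℚ G G),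
      (∀ j, Graded k g (E j)) ∧
      (∀ y ∈ Y, D (algebraMap k G y) = ∑ j ∈ T, e j * E j (algebraMap k G y)) ∧
      ∀ i, D (g i) = ∑ j ∈ T, e j * E j (g i)

/-- the matrix with the columns `x, E_1 x, ..., E_N x` -/
def jetM {G : Type} [CommRing G] {N : ℕ} (E : Fin N → G → G) (x : Fin (N + 1) → G) :
    Matrix (Fin (N + 1)) (Fin (N + 1)) G :=
  Matrix.of fun i c => (Fin.cons (x i) (fun j => E j (x i)) : Fin (N + 1) → G) c

/-- **CD**: the local bound for the determinant at a prime divisor. -/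
def S_CD : Prop :=
  ∀ (O F L : Type) [CommRing O] [IsDomain O] [IsDiscreteValuationRing O] [Field F] [Field L]
    [Algebra O F] [IsFractionRing O F] [Algebra F L] [Algebra O L] [IsScalarTower O F L]
    [FiniteDimensional F L] [CharZero F], (∀ n : ℕ, n ≠ 0 → IsUnit (n : O)) →
  ∀ (N : ℕ) (E : Fin N → Derivation ℤ L L),
    (∀ j (a : O), ∃ b : O, E j (algebraMap O L a) = algebraMap O L b) →
  ∀ (f : Polynomial O) (θ : L), f.Monic → Polynomial.aeval θ f = 0 →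
    Algebra.adjoin F {θ} = ⊤ →
  ∀ x : Fin (N + 1) → L,
    Polynomial.aeval θ (Polynomial.derivative f) * (jetM (fun j => E j) x).det ∈
      Submodule.span (integralClosure O L)
        (Set.range fun s : Fin (N + 1) → Fin (N + 1) => ∏ i, x (s i))

/-- the polynomials in the `g i` -/
noncomputable def PolR {G : Type} (k : Type) [Field G] [Field k] [Algebra k G] {m : ℕ}
    (g : Fin m → G) : Subalgebra k G :=
  (aeval g : MvPolynomial (Fin m) k →ₐ[k] G).range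

/-- **GB**: two coprime multipliers. -/
def S_GB : Prop :=
  ∀ (G k : Type) [Field G] [Field k] [Algebra k G] (m : ℕ) (g : Fin m → G),
    AlgebraicIndependent k g → ∀ (φ : G) (κ : Type) [Fintype κ] (ψ : κ → G),
    (∃ (s : MvPolynomial (Fin m) k) (β : κ → G), s ≠ 0 ∧
      (∀ j, IsIntegral (PolR k g) (β j)) ∧ aeval g s * φ = ∑ j, β j * ψ j) →
    (∀ p : MvPolynomial (Fin m) k, Prime p → (∀ i, ¬ p ∣ X i) →
      ∃ (s : MvPolynomial (Fin m) k) (β : κ → G), ¬ p ∣ s ∧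
        (∀ j, IsIntegral (PolR k g) (β j)) ∧ aeval g s * φ = ∑ j, β j * ψ j) →
    ∃ (b1 b2 : MvPolynomial (Fin m) k) (c : Fin m →₀ ℕ) (β1 β2 : κ → G),
      b1 ≠ 0 ∧ b2 ≠ 0 ∧ IsRelPrime b1 b2 ∧ (∀ j, IsIntegral (PolR k g) (β1 j)) ∧
      (∀ j, IsIntegral (PolR k g) (β2 j)) ∧
      aeval g (b1 * monomial c 1) * φ = ∑ j, β1 j * ψ j ∧
      aeval g (b2 * monomial c 1) * φ = ∑ j, β2 j * ψ j

/-- **CDG**: the global form of the bound for the determinant. -/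
def S_CDG : Prop :=
  ∀ (G k : Type) [Field G] [CharZero G] [Algebra ℚ G] [Field k] [Algebra k G] (m : ℕ)
    (g : Fin m → G), AlgebraicIndependent k g →
  ∀ (N : ℕ) (E : Fin N → Derivation ℚ G G), (∀ j, Graded k g (E j)) →
  ∀ (f : Polynomial G) (θ : G), f.Monic → f.eval θ = 0 →
    (∀ i, ∃ (c : Fin m → ℕ) (P : MvPolynomial (Fin m) k),
      f.coeff i * ∏ i, g i ^ c i = aeval g P) →
  ∀ (x : Fin (N + 1) → G),
    (∀ i, x i ∈ Subfield.closure (Set.range (algebraMap k G) ∪ Set.range g ∪ {θ})) →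
    x ≠ 0 →
    ∃ (b1 b2 : MvPolynomial (Fin m) k) (c : Fin m →₀ ℕ)
      (β1 β2 : (Fin (N + 1) → Fin (N + 1)) → G),
      b1 ≠ 0 ∧ b2 ≠ 0 ∧ IsRelPrime b1 b2 ∧ (∀ s, IsIntegral (PolR k g) (β1 s)) ∧
      (∀ s, IsIntegral (PolR k g) (β2 s)) ∧
      aeval g (b1 * monomial c 1) *
        ((Polynomial.derivative f).eval θ * (jetM (fun j => E j) x).det) =
          ∑ s : Fin (N + 1) → Fin (N + 1), β1 s * ∏ i, x (s i) ∧
      aeval g (b2 * monomial c 1) *
        ((Polynomial.derivative f).eval θ * (jetM (fun j => E j) x).det) =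
          ∑ s : Fin (N + 1) → Fin (N + 1), β2 s * ∏ i, x (s i)

/-- **ARI**: from coprime multipliers to places outside `S`. -/
def S_ARI : Prop :=
  ∀ (s : ℕ) (b : Fin s → ℕ), (∀ v, (b v).Prime) → Function.Injective b →
  ∀ (S : Finset ℕ), (∀ v, b v ∈ S) → (∀ p ∈ S, ∃ v, b v = p) →
  ∀ (L : ℕ → ℝ) (hL : Tendsto L atTop atTop) (K : ℕ → Type) [∀ t, Field (K t)]
    [∀ t, NumberField (K t)] (m : ℕ) (T : Fin m → ℕ → ℚ), (∀ k n, IsSU b (T k n)) →
    (∀ k, Bd L (gm (T k))) →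
    (∀ p : MvPolynomial (Fin m) (KK L hL), aeval (fun k => gm (T k)) p = 0 → p = 0) →
  ∀ (κ : Type) [Fintype κ] [Nonempty κ] (φ : ∀ t, K t) (ψ : κ → ∀ t, K t)
    (b1 b2 : MvPolynomial (Fin m) (K0 hL K)) (c : Fin m →₀ ℕ) (β1 β2 : κ → UP K),
    b1 ≠ 0 → b2 ≠ 0 → IsRelPrime b1 b2 →
    (∀ j, IsIntegral (PolR (K0 hL K) (fun k => io K (gm (T k)))) (β1 j)) →
    (∀ j, IsIntegral (PolR (K0 hL K) (fun k => io K (gm (T k)))) (β2 j)) →
    aeval (fun k => io K (gm (T k))) (b1 * monomial c 1) * uq K φ = ∑ j, β1 j * uq K (ψ j) →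
    aeval (fun k => io K (gm (T k))) (b2 * monomial c 1) * uq K φ = ∑ j, β2 j * uq K (ψ j) →
    ∃ e : ℕ → ℤ, Negl L e ∧ (∀ᶠ t in (UU : Filter ℕ), e t ≠ 0) ∧
      ∀ᶠ t in (UU : Filter ℕ), ∀ v : FinitePlace (K t), v ∉ Over (K t) S →
        v (φ t * (e t : K t)) ≤ ⨆ j, v (ψ j t)

/-- **ASM2**: from the inequalities at the places to the inequality of heights, without content. -/
def S_ASM2 : Prop :=
  ∀ (ν n sc g q w : ℕ), ν = n + sc →
  ∀ (Gp : Fin g → MvPolynomial (Fin ν) ℤ) (F : Fin q → Fin w → MvPolynomial (Fin ν) ℤ)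
    (d : Fin q → Fin w → ℕ), NCf ℂ sc Gp F →
  ∀ (K : Type) [Field K] [NumberField K] (S : Finset ℕ), (∀ p ∈ S, p.Prime) →
  ∀ (x : Fin ν → K), x ≠ 0 → (∀ a, aeval x (Gp a) = 0) →
  ∀ (T : Matrix (Fin ν) (Fin n) K), (∀ a c, ∑ y, aeval x (pderiv y (Gp a)) * T y c = 0) →
  ∀ (J0 : Fin n → Fin ν), (T.submatrix J0 id).det ≠ 0 →
  ∀ (D : K), D ≠ 0 →
    (∀ v : FinitePlace K, v ∉ Over K S → ∀ J : Fin n → Fin ν,
      v ((T.submatrix J id).det * D) ≤ (⨆ i, v (x i)) ^ n) →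
  ∀ (δ : ℝ), 0 ≤ δ → (∀ v : InfinitePlace K, AtPl F d x T v.1 δ) →
    (∀ v ∈ Over K S, AtPl F d x T v.1 δ) →
  ∀ (AA : Matrix (Fin ν) (Fin n) K), LinearIndependent K AA.col →
    (∀ a c, ∑ y, aeval x (pderiv y (Gp a)) * AA y c = 0) →
    ∑ i, (∑ v : InfinitePlace K, v.mult * locH (F i) (d i) x v.1 +
      ∑ᶠ v ∈ Over K S, locH (F i) (d i) x v.1) +
      Height.logHeight (fun J : Fin n → Fin ν => (AA.submatrix J id).det) ≤
      n * Height.logHeight x + logS S D + Module.finrank ℚ K * (S.card + 1) * δ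

/-- **MAX**: the discriminant of the power basis, and the case of a maximal order. -/
def S_MAX : Prop :=
  ∀ (K : Type) [Field K] [NumberField K] (S : Finset ℕ), (∀ p ∈ S, p.Prime) →
  ∀ (r : ℕ), Module.finrank ℚ K = r → ∀ (θ : K) (a : Fin r → ℚ),
    θ ^ r = ∑ i : Fin r, (a i : K) * θ ^ (i : ℕ) → Algebra.adjoin ℚ {θ} = ⊤ →
    (logS S ((r : K) * θ ^ (r - 1) - ∑ i : Fin r, ((i : ℕ) : K) * (a i : K) * θ ^ ((i : ℕ) - 1)) =
      Real.log |((Algebra.discr ℚ (fun i : Fin r => θ ^ (i : ℕ)) : ℚ) : ℝ)| +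
        ∑ p ∈ S, Real.log
          ((padicNorm p (Algebra.discr ℚ (fun i : Fin r => θ ^ (i : ℕ))) : ℚ) : ℝ)) ∧
    ((∀ i p, p.Prime → p ∉ S → padicNorm p (a i) ≤ 1) →
      (∀ y : 𝓞 K, ∃ c : Fin r → ℚ, (∀ i p, p.Prime → p ∉ S → padicNorm p (c i) ≤ 1) ∧
        (y : K) = ∑ i : Fin r, (c i : K) * θ ^ (i : ℕ)) →
      Real.log |((Algebra.discr ℚ (fun i : Fin r => θ ^ (i : ℕ)) : ℚ) : ℝ)| +
        ∑ p ∈ S, Real.log
          ((padicNorm p (Algebra.discr ℚ (fun i : Fin r => θ ^ (i : ℕ))) : ℚ) : ℝ) ≤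
        Real.log |((NumberField.discr K : ℤ) : ℝ)|)

end Pool.Agent.Y724.T4
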