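import Mathlib
import Pool.Agent.Y724.T4.Stm2

/-!
# Statements for the project T6 (orders with a sparse multiplication table)
-/

set_option autoImplicit false

namespace Pool.Agent.Y724.T4

open MvPolynomial NumberField Filter Topology Pool.Agent.TH932.Germs Pool.Agent.TH551.SU
open Pool.Agent.Y724.Vj

/-- **CD2**: the local bound for the determinant at a prime divisor, with the inverse different
instead of a generator of the extension. -/
def S_CD2 : Prop :=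
  ∀ (O F L : Type) [CommRing O] [IsDomain O] [IsDiscreteValuationRing O] [Field F] [Field L]
    [Algebra O F] [IsFractionRing O F] [Algebra F L] [Algebra O L] [IsScalarTower O F L]
    [FiniteDimensional F L] [CharZero F], (∀ n : ℕ, n ≠ 0 → IsUnit (n : O)) →
  ∀ (N : ℕ) (E : Fin N → Derivation ℤ L L),
    (∀ j (a : O), ∃ b : O, E j (algebraMap O L a) = algebraMap O L b) →
  ∀ (r : ℕ) (ω ω' : Fin r → L), Module.finrank F L = r → (∀ i, IsIntegral O (ω i)) →
    (∀ i j, Algebra.trace F L (ω i * ω' j) = if i = j then 1 else 0) →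
  ∀ x : Fin (N + 1) → L,
    (jetM (fun j => E j) x).det ∈
      Submodule.span (integralClosure O L)
        (Set.range fun p : Fin r × (Fin (N + 1) → Fin (N + 1)) => ω' p.1 * ∏ i, x (p.2 i))

/-- the trace form of the basis with the structure constants `s` -/
def trM {G : Type} [CommRing G] {r : ℕ} (s : Fin r → Fin r → Fin r → G) (i j : Fin r) : G :=
  ∑ h, s i j h * ∑ l, s h l l

/-- **CDG2**: the global form of the bound for the determinant. -/
def S_CDG2 : Prop :=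
  ∀ (G k : Type) [Field G] [CharZero G] [Algebra ℚ G] [Field k] [Algebra k G] (m : ℕ)
    (g : Fin m → G), AlgebraicIndependent k g →
  ∀ (N : ℕ) (E : Fin N → Derivation ℚ G G), (∀ j, Graded k g (E j)) →
  ∀ (r : ℕ) (ω ω' : Fin r → G) (s : Fin r → Fin r → Fin r → G),
    (∀ i j, ω i * ω j = ∑ l, s i j l * ω l) →
    (∀ i j l, ∃ (c : Fin m → ℕ) (P : MvPolynomial (Fin m) k),
      s i j l * ∏ i, g i ^ c i = aeval g P) →
    LinearIndependent (Subfield.closure (Set.range (algebraMap k G) ∪ Set.range g)) ω →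
    (∀ i, ω i = ∑ j, trM s i j * ω' j) →
  ∀ (x : Fin (N + 1) → G),
    (∀ i, ∃ c : Fin r → G,
      (∀ j, c j ∈ Subfield.closure (Set.range (algebraMap k G) ∪ Set.range g)) ∧
      x i = ∑ j, c j * ω j) →
    x ≠ 0 →
    ∃ (b1 b2 : MvPolynomial (Fin m) k) (c : Fin m →₀ ℕ)
      (β1 β2 : Fin r × (Fin (N + 1) → Fin (N + 1)) → G),
      b1 ≠ 0 ∧ b2 ≠ 0 ∧ IsRelPrime b1 b2 ∧ (∀ p, IsIntegral (PolR k g) (β1 p)) ∧
      (∀ p, IsIntegral (PolR k g) (β2 p)) ∧
      aeval g (b1 * monomial c 1) * (jetM (fun j => E j) x).det =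
          ∑ p : Fin r × (Fin (N + 1) → Fin (N + 1)), β1 p * (ω' p.1 * ∏ i, x (p.2 i)) ∧
      aeval g (b2 * monomial c 1) * (jetM (fun j => E j) x).det =
          ∑ p : Fin r × (Fin (N + 1) → Fin (N + 1)), β2 p * (ω' p.1 * ∏ i, x (p.2 i))

/-- **ASM3**: from the inequalities at the places to the inequality of heights, with general
factors outside `S`. -/
def S_ASM3 : Prop :=
  ∀ (ν n sc g q w : ℕ), ν = n + sc →
  ∀ (Gp : Fin g → MvPolynomial (Fin ν) ℤ) (F : Fin q → Fin w → MvPolynomial (Fin ν) ℤ)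
    (d : Fin q → Fin w → ℕ), NCf ℂ sc Gp F →
  ∀ (K : Type) [Field K] [NumberField K] (S : Finset ℕ), (∀ p ∈ S, p.Prime) →
  ∀ (x : Fin ν → K), x ≠ 0 → (∀ a, aeval x (Gp a) = 0) →
  ∀ (T : Matrix (Fin ν) (Fin n) K), (∀ a c, ∑ y, aeval x (pderiv y (Gp a)) * T y c = 0) →
  ∀ (J0 : Fin n → Fin ν), (T.submatrix J0 id).det ≠ 0 →
  ∀ (W : FinitePlace K → ℝ), (∀ v, 0 < W v) → {v : FinitePlace K | W v ≠ 1}.Finite →
    (∀ v : FinitePlace K, v ∉ Over K S → ∀ J : Fin n → Fin ν,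
      v (T.submatrix J id).det ≤ W v * (⨆ i, v (x i)) ^ n) →
  ∀ (δ : ℝ), 0 ≤ δ → (∀ v : InfinitePlace K, AtPl F d x T v.1 δ) →
    (∀ v ∈ Over K S, AtPl F d x T v.1 δ) →
  ∀ (AA : Matrix (Fin ν) (Fin n) K), LinearIndependent K AA.col →
    (∀ a c, ∑ y, aeval x (pderiv y (Gp a)) * AA y c = 0) →
    ∑ i, (∑ v : InfinitePlace K, v.mult * locH (F i) (d i) x v.1 +
      ∑ᶠ v ∈ Over K S, locH (F i) (d i) x v.1) +
      Height.logHeight (fun J : Fin n → Fin ν => (AA.submatrix J id).det) ≤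
      n * Height.logHeight x + ∑ᶠ v ∈ (Over K S)ᶜ, Real.log (W v) +
        Module.finrank ℚ K * (S.card + 1) * δ

/-- **DSC**: the dual basis and the discriminant. -/
def S_DSC : Prop :=
  ∀ (K : Type) [Field K] [NumberField K] (S : Finset ℕ), (∀ p ∈ S, p.Prime) →
  ∀ (r : ℕ), Module.finrank ℚ K = r → (∀ p, p.Prime → p ≤ r * r → p ∈ S) →
  ∀ (ω ω' : Fin r → K) (s : Fin r → Fin r → Fin r → ℚ),
    (∀ i j, ω i * ω j = ∑ l, (s i j l : K) * ω l) →
    (∀ i j l p, p.Prime → p ∉ S → padicNorm p (s i j l) ≤ 1) →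
    (∀ i j, Algebra.trace ℚ K (ω i * ω' j) = if i = j then 1 else 0) →
    {v : FinitePlace K | ⨆ i, v (ω' i) ≠ 1}.Finite ∧
    ∑ᶠ v ∈ (Over K S)ᶜ, Real.log (⨆ i, v (ω' i)) ≤
      Real.log |((Algebra.discr ℚ ω : ℚ) : ℝ)| +
        ∑ p ∈ S, Real.log ((padicNorm p (Algebra.discr ℚ ω) : ℚ) : ℝ)

/-- **MAX2**: the case of a maximal order. -/
def S_MAX2 : Prop :=
  ∀ (K : Type) [Field K] [NumberField K] (S : Finset ℕ), (∀ p ∈ S, p.Prime) →
  ∀ (r : ℕ) (ω : Module.Basis (Fin r) ℚ K),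
    (∀ y : 𝓞 K, ∀ i p, p.Prime → p ∉ S → padicNorm p (ω.repr (y : K) i) ≤ 1) →
    Real.log |((Algebra.discr ℚ ω : ℚ) : ℝ)| +
        ∑ p ∈ S, Real.log ((padicNorm p (Algebra.discr ℚ ω) : ℚ) : ℝ) ≤
      Real.log |((NumberField.discr K : ℤ) : ℝ)|

end Pool.Agent.Y724.T4
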