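import Mathlib
import Pool.Agent.Y724.T4.Stm3
import Pool.Agent.Y724.T4.NRM
import Pool.Agent.Y724.T4.PLC
import Pool.Agent.Y724.T4.ASM

/-!
# DSC: the dual basis and the discriminant (project T6)
-/

set_option autoImplicit false

namespace Pool.Agent.Y724.T4

open NumberField

namespace DSCaux

section places

variable {K : Type} [Field K] [NumberField K]

lemma sum_lt {ι : Type} (v : FinitePlace K) (s : Finset ι) (f : ι → K) {M : ℝ} (hM : 0 < M)
    (h : ∀ i ∈ s, v (f i) < M) : v (∑ i ∈ s, f i) < M := by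
  classical
  induction s using Finset.induction_on with
  | empty => simpa using hM
  | insert a s ha ih =>
    rw [Finset.sum_insert ha]
    exact (FinitePlace.add_le v _ _).trans_lt (max_lt (h a (Finset.mem_insert_self _ _))
      (ih fun i hi => h i (Finset.mem_insert_of_mem hi)))

lemma sum_le {ι : Type} (v : FinitePlace K) (s : Finset ι) (f : ι → K) {M : ℝ} (hM : 0 ≤ M)
    (h : ∀ i ∈ s, v (f i) ≤ M) : v (∑ i ∈ s, f i) ≤ M := by
  classical
  induction s using Finset.induction_on with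
  | empty => simpa using hM
  | insert a s ha ih =>
    rw [Finset.sum_insert ha]
    exact (FinitePlace.add_le v _ _).trans (max_le (h a (Finset.mem_insert_self _ _))
      (ih fun i hi => h i (Finset.mem_insert_of_mem hi)))

lemma int_one {p : ℕ} (hp : p.Prime) {v : FinitePlace K} (hv : v (p : K) < 1) {z : ℤ}
    (hz : z ≠ 0) (hzp : z.natAbs < p) : v (z : K) = 1 := by
  have h1 : v (z : K) = v ((z.natAbs : ℕ) : K) := by
    rcases Int.natAbs_eq z with h | h
    · conv_lhs => rw [h]
      rw [Int.cast_natCast]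
    · conv_lhs => rw [h]
      rw [Int.cast_neg, Int.cast_natCast, map_neg_eq_map]
  rw [h1]
  apply PLCaux.coprime_one hp hv
  exact Nat.not_dvd_of_pos_of_lt (Int.natAbs_pos.2 hz) hzp

/-- the values at `r` integers determine the size of the vector of coefficients -/
lemma vander {r p : ℕ} (hp : p.Prime) (v : FinitePlace K) (hv : v (p : K) < 1)
    (u : Fin r → K) (τ : Fin r → ℕ) (hinj : Function.Injective τ) (hτ : ∀ i, τ i < p)
    (hu : 0 < ⨆ i, v (u i)) :
    ¬ ∀ i, v (∑ j : Fin r, (τ i : K) ^ (j : ℕ) * u j) < ⨆ i, v (u i) := by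
  classical
  intro h
  have hne : Nonempty (Fin r) := by
    by_contra hcon
    rw [not_nonempty_iff] at hcon
    rw [Real.iSup_of_isEmpty] at hu
    exact lt_irrefl _ hu
  obtain ⟨i0, hi0⟩ := exists_eq_ciSup_of_finite (f := fun i => v (u i))
  let Vz : Matrix (Fin r) (Fin r) ℤ := Matrix.vandermonde fun i => (τ i : ℤ)
  have hdet : v ((Vz.det : ℤ) : K) = 1 := by
    have e1 : Vz.det = ∏ i : Fin r, ∏ j ∈ Finset.Ioi i, ((τ j : ℤ) - (τ i : ℤ)) :=
      Matrix.det_vandermonde _
    rw [e1, Int.cast_prod, map_prod]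
    refine Finset.prod_eq_one fun i _ => ?_
    rw [Int.cast_prod, map_prod]
    refine Finset.prod_eq_one fun j hj => ?_
    have hij : τ j ≠ τ i := fun he => (Finset.mem_Ioi.1 hj).ne (hinj he).symm
    have h2 := hτ i
    have h3 := hτ j
    apply int_one hp hv
    · omega
    · omega
  have hmul : ∀ i, ((Vz.det : ℤ) : K) * u i =
      ∑ j, ((Vz.adjugate i j : ℤ) : K) * ∑ k : Fin r, (τ j : K) ^ (k : ℕ) * u k := by
    intro i
    have h1 : ∀ k : Fin r,
        ∑ j, Vz.adjugate i j * (τ j : ℤ) ^ (k : ℕ) = if i = k then Vz.det else 0 := by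
      intro k
      have h2 := congrFun (congrFun (Matrix.adjugate_mul Vz) i) k
      rw [Matrix.mul_apply, Matrix.smul_apply, Matrix.one_apply] at h2
      refine Eq.trans h2 ?_
      split_ifs
      · rw [smul_eq_mul, mul_one]
      · rw [smul_zero]
    have h3 : ∀ j, ((Vz.adjugate i j : ℤ) : K) * ∑ k : Fin r, (τ j : K) ^ (k : ℕ) * u k =
        ∑ k : Fin r, ((Vz.adjugate i j * (τ j : ℤ) ^ (k : ℕ) : ℤ) : K) * u k := by
      intro j
      rw [Finset.mul_sum]
      refine Finset.sum_congr rfl fun k _ => ?_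
      push_cast
      ring
    rw [Finset.sum_congr rfl fun j _ => h3 j, Finset.sum_comm]
    have h4 : ∀ k : Fin r, ∑ j, ((Vz.adjugate i j * (τ j : ℤ) ^ (k : ℕ) : ℤ) : K) * u k =
        ((if i = k then Vz.det else 0 : ℤ) : K) * u k := by
      intro k
      rw [← Finset.sum_mul, ← Int.cast_sum, h1]
    rw [Finset.sum_congr rfl fun k _ => h4 k, Finset.sum_eq_single i]
    · rw [if_pos rfl]
    · intro k _ hk
      rw [if_neg (Ne.symm hk), Int.cast_zero, zero_mul]
    · intro hi
      exact absurd (Finset.mem_univ i) hi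
  have h5 : v (((Vz.det : ℤ) : K) * u i0) < ⨆ i, v (u i) := by
    rw [hmul]
    refine sum_lt v _ _ hu fun j _ => ?_
    rw [map_mul]
    calc v ((Vz.adjugate i0 j : ℤ) : K) * v (∑ k : Fin r, (τ j : K) ^ (k : ℕ) * u k)
        ≤ 1 * v (∑ k : Fin r, (τ j : K) ^ (k : ℕ) * u k) :=
          mul_le_mul_of_nonneg_right (PLCaux.int_le_one v _) (apply_nonneg v _)
      _ < ⨆ i, v (u i) := by rw [one_mul]; exact h j
  rw [map_mul, hdet, one_mul] at h5
  exact absurd hi0 h5.ne

/-- a good value of the parameter -/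
lemma choose_tau {r p : ℕ} (hr : Module.finrank ℚ K = r) (hp : p.Prime) (hpr : r * r < p)
    (u : Fin r → K) (hu : u ≠ 0) :
    ∃ τ : ℕ, ∀ v : FinitePlace K, v (p : K) < 1 →
      v (∑ j : Fin r, (τ : K) ^ (j : ℕ) * u j) = ⨆ i, v (u i) := by
  classical
  by_contra hcon
  push Not at hcon
  have hle : ∀ (τ : ℕ) (v : FinitePlace K),
      v (∑ j : Fin r, (τ : K) ^ (j : ℕ) * u j) ≤ ⨆ i, v (u i) := by
    intro τ v
    refine sum_le v _ _ (sup_pos hu v.1).le fun j _ => ?_
    rw [map_mul, map_pow]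
    calc v (τ : K) ^ (j : ℕ) * v (u j) ≤ 1 * v (u j) :=
          mul_le_mul_of_nonneg_right (pow_le_one₀ (apply_nonneg v _) (PLCaux.nat_le_one v τ))
            (apply_nonneg v _)
      _ = v (u j) := one_mul _
      _ ≤ ⨆ i, v (u i) := le_ciSup (f := fun i => v (u i)) (Set.finite_range _).bddAbove j
  obtain ⟨f, hf⟩ := plc.1 K p hp
  have h2 : ∀ τ : ℕ, ∃ i : Fin (Module.finrank ℚ K), f i (p : K) < 1 ∧
      f i (∑ j : Fin r, (τ : K) ^ (j : ℕ) * u j) < ⨆ k, f i (u k) := by
    intro τ
    obtain ⟨v, hv, hne⟩ := hcon τ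
    obtain ⟨i, rfl⟩ := (hf v).1 hv
    exact ⟨i, hv, lt_of_le_of_ne (hle τ _) hne⟩
  choose g hg1 hg2 using h2
  have hr0 : 0 < r := by
    rw [← hr]
    exact Module.finrank_pos
  obtain ⟨y, _, hy⟩ := Finset.exists_lt_card_fiber_of_mul_lt_card_of_maps_to
    (s := Finset.range (r * (r - 1) + 1))
    (t := (Finset.univ : Finset (Fin (Module.finrank ℚ K)))) (f := g)
    (n := r - 1) (fun τ _ => Finset.mem_univ _) (by
      rw [Finset.card_univ, Fintype.card_fin, Finset.card_range, hr]
      omega)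
  have hcard : r ≤ ((Finset.range (r * (r - 1) + 1)).filter (fun τ => g τ = y)).card := by
    omega
  have hmem : ∀ i, g (Finset.orderEmbOfCardLe _ hcard i) = y ∧
      Finset.orderEmbOfCardLe _ hcard i < p := by
    intro i
    have h3 := Finset.orderEmbOfCardLe_mem _ hcard i
    rw [Finset.mem_filter, Finset.mem_range] at h3
    refine ⟨h3.2, ?_⟩
    have h4 : r * (r - 1) ≤ r * r := Nat.mul_le_mul_left r (Nat.sub_le r 1)
    omega
  refine vander hp (f y) ?_ u (fun i => Finset.orderEmbOfCardLe _ hcard i)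
    (Finset.orderEmbOfCardLe _ hcard).injective (fun i => (hmem i).2) (sup_pos hu (f y).1) ?_
  · have h5 := hg1 (Finset.orderEmbOfCardLe _ hcard ⟨0, hr0⟩)
    rwa [(hmem ⟨0, hr0⟩).1] at h5
  · intro i
    have h5 := hg2 (Finset.orderEmbOfCardLe _ hcard i)
    rwa [(hmem i).1] at h5

end places

/-- the `p`-integral rational numbers -/
def pint (p : ℕ) [Fact p.Prime] : Subring ℚ where
  carrier := {q | padicNorm p q ≤ 1}
  mul_mem' := by
    intro a b ha hb
    show padicNorm p (a * b) ≤ 1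
    rw [padicNorm.mul]
    exact mul_le_one₀ ha (padicNorm.nonneg _) hb
  one_mem' := by
    show padicNorm p 1 ≤ 1
    simp
  add_mem' := by
    intro a b ha hb
    show padicNorm p (a + b) ≤ 1
    exact padicNorm.nonarchimedean.trans (max_le ha hb)
  zero_mem' := by
    show padicNorm p 0 ≤ 1
    simp
  neg_mem' := by
    intro a ha
    show padicNorm p (-a) ≤ 1
    rw [padicNorm.neg]
    exact ha

lemma mem_pint {p : ℕ} [Fact p.Prime] {q : ℚ} : q ∈ pint p ↔ padicNorm p q ≤ 1 := Iff.rfl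

lemma det_pint {p : ℕ} [Fact p.Prime] {r : ℕ} (M : Matrix (Fin r) (Fin r) ℚ)
    (h : ∀ i j, M i j ∈ pint p) : M.det ∈ pint p := by
  have h1 : M = (Matrix.of fun i j => (⟨M i j, h i j⟩ : pint p)).map (pint p).subtype := by
    ext i j
    rfl
  rw [h1]
  have h2 := RingHom.map_det (pint p).subtype (Matrix.of fun i j => (⟨M i j, h i j⟩ : pint p))
  have h3 : (Matrix.of fun i j => (⟨M i j, h i j⟩ : pint p)).map (pint p).subtype =
      (pint p).subtype.mapMatrix (Matrix.of fun i j => (⟨M i j, h i j⟩ : pint p)) := rfl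
  rw [h3, ← h2]
  exact (Matrix.det _ : pint p).2

/-- the product formula for a positive integer -/
lemma nat_prod (n : ℕ) (hn : n ≠ 0) (Q : Finset ℕ) (hQ : ∀ p ∈ Q, p.Prime)
    (hQn : n.primeFactors ⊆ Q) :
    Real.log n + ∑ p ∈ Q, Real.log ((padicNorm p (n : ℚ) : ℚ) : ℝ) = 0 := by
  have h1 : Real.log n = ∑ p ∈ Q, (n.factorization p : ℝ) * Real.log p := by
    have h2 : (n : ℝ) = ∏ p ∈ Q, (p : ℝ) ^ n.factorization p := by
      have h3 := Nat.prod_factorization_pow_eq_self hn
      rw [Finsupp.prod_of_support_subset _ (s := Q) (by rwa [Nat.support_factorization])] at h3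
      · exact_mod_cast h3.symm
      · intro p _
        exact pow_zero p
    rw [h2, Real.log_prod]
    · exact Finset.sum_congr rfl fun p _ => Real.log_pow _ _
    · intro p hp
      exact pow_ne_zero _ (by exact_mod_cast (hQ p hp).ne_zero)
  rw [h1, ← Finset.sum_add_distrib]
  refine Finset.sum_eq_zero fun p hp => ?_
  have hpf : Fact p.Prime := ⟨hQ p hp⟩
  have h4 : padicNorm p (n : ℚ) = (p : ℚ) ^ (-(n.factorization p : ℤ)) := by
    rw [padicNorm.eq_zpow_of_nonzero (by exact_mod_cast hn), padicValRat.of_nat,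
      Nat.factorization_def n (hQ p hp)]
  rw [h4]
  push_cast
  rw [Real.log_zpow]
  push_cast
  ring

/-- the product formula for a rational number -/
lemma rat_prod (q : ℚ) (hq : q ≠ 0) (Q : Finset ℕ) (hQ : ∀ p ∈ Q, p.Prime)
    (hQn : q.num.natAbs.primeFactors ⊆ Q) (hQd : q.den.primeFactors ⊆ Q) :
    Real.log |(q : ℝ)| + ∑ p ∈ Q, Real.log ((padicNorm p q : ℚ) : ℝ) = 0 := by
  have hn : q.num.natAbs ≠ 0 := Int.natAbs_ne_zero.2 (Rat.num_ne_zero.2 hq)
  have h1 := nat_prod _ hn Q hQ hQn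
  have h2 := nat_prod _ q.den_ne_zero Q hQ hQd
  have h3 : Real.log |(q : ℝ)| = Real.log (q.num.natAbs : ℝ) - Real.log (q.den : ℝ) := by
    rw [← Real.log_div (by exact_mod_cast hn) (by exact_mod_cast q.den_ne_zero)]
    congr 1
    have h4 : (q : ℝ) = (q.num : ℝ) / (q.den : ℝ) := Rat.cast_def q
    rw [h4, abs_div, Nat.abs_cast, Nat.cast_natAbs, Int.cast_abs]
  have h5 : ∀ p ∈ Q, Real.log ((padicNorm p q : ℚ) : ℝ) =
      Real.log ((padicNorm p (q.num.natAbs : ℚ) : ℚ) : ℝ) -
        Real.log ((padicNorm p (q.den : ℚ) : ℚ) : ℝ) := by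
    intro p hp
    have hpf : Fact p.Prime := ⟨hQ p hp⟩
    have e3 : padicNorm p q = padicNorm p (q.num.natAbs : ℚ) / padicNorm p (q.den : ℚ) := by
      have h6 : q = (q.num : ℚ) / (q.den : ℚ) := (Rat.num_div_den q).symm
      conv_lhs => rw [h6]
      rw [padicNorm.div]
      congr 1
      rcases Int.natAbs_eq q.num with h | h
      · conv_lhs => rw [h]
        rw [Int.cast_natCast]
      · conv_lhs => rw [h]
        rw [Int.cast_neg, Int.cast_natCast, padicNorm.neg]
    have e4 : padicNorm p (q.num.natAbs : ℚ) ≠ 0 := padicNorm.nonzero (by exact_mod_cast hn)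
    have e5 : padicNorm p (q.den : ℚ) ≠ 0 := padicNorm.nonzero (by exact_mod_cast q.den_ne_zero)
    rw [e3]
    push_cast
    rw [Real.log_div (by exact_mod_cast e4) (by exact_mod_cast e5)]
  rw [Finset.sum_congr rfl h5, Finset.sum_sub_distrib, h3]
  linarith

section main

variable {K : Type} [Field K] [NumberField K]

/-- the norm times the discriminant is a determinant of traces -/
lemma norm_disc {r : ℕ} (b : Module.Basis (Fin r) ℚ K) (β : K) :
    Algebra.norm ℚ β * Algebra.discr ℚ b =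
      (Matrix.of fun i j => Algebra.trace ℚ K (β * (b i * b j))).det := by
  classical
  have h1 : (Matrix.of fun i j => Algebra.trace ℚ K (β * (b i * b j))) =
      (Algebra.leftMulMatrix b β).transpose * Algebra.traceMatrix ℚ b := by
    ext i j
    rw [Matrix.mul_apply, Matrix.of_apply]
    have h2 : β * (b i * b j) = ∑ k, Algebra.leftMulMatrix b β k i • (b k * b j) := by
      have h3 := b.sum_repr (β * b i)
      rw [← mul_assoc, ← h3, Finset.sum_mul]
      refine Finset.sum_congr rfl fun k _ => ?_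
      rw [Algebra.leftMulMatrix_eq_repr_mul, smul_mul_assoc]
    rw [h2, map_sum]
    refine Finset.sum_congr rfl fun k _ => ?_
    rw [map_smul, smul_eq_mul]
    rfl
  rw [h1, Matrix.det_mul, Matrix.det_transpose, ← Algebra.norm_eq_matrix_det,
    Algebra.discr_def]

/-- the inequality at one prime -/
lemma at_prime {p : ℕ} (hp : p.Prime)
    (hpr : Module.finrank ℚ K * Module.finrank ℚ K < p)
    (b : Module.Basis (Fin (Module.finrank ℚ K)) ℚ K)
    (ω' : Fin (Module.finrank ℚ K) → K)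
    (s : Fin (Module.finrank ℚ K) → Fin (Module.finrank ℚ K) → Fin (Module.finrank ℚ K) → ℚ)
    (hs : ∀ i j, b i * b j = ∑ l, (s i j l : K) * b l)
    (hsp : ∀ i j l, padicNorm p (s i j l) ≤ 1)
    (htr : ∀ i j, Algebra.trace ℚ K (b i * ω' j) = if i = j then 1 else 0)
    (hω' : ω' ≠ 0) (V : Finset (FinitePlace K)) (hV : ∀ v, v ∈ V ↔ v (p : K) < 1)
    (hVne : V.Nonempty) :
    ∑ v ∈ V, Real.log (⨆ i, v (ω' i)) ≤
      -Real.log ((padicNorm p (Algebra.discr ℚ b) : ℚ) : ℝ) := by
  classical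
  have hpf : Fact p.Prime := ⟨hp⟩
  obtain ⟨τ, hτ⟩ := choose_tau rfl hp hpr ω' hω'
  set β : K := ∑ j : Fin (Module.finrank ℚ K), (τ : K) ^ (j : ℕ) * ω' j with hβ
  have hβ0 : β ≠ 0 := by
    obtain ⟨v, hv⟩ := hVne
    have h1 := hτ v ((hV v).1 hv)
    intro h0
    rw [h0, map_zero] at h1
    exact (sup_pos hω' v.1).ne h1
  have hdisc : Algebra.discr ℚ b ≠ 0 := Algebra.discr_not_zero_of_basis ℚ b
  -- the traces
  have htrβ : ∀ l, Algebra.trace ℚ K (β * b l) = (τ : ℚ) ^ (l : ℕ) := by
    intro l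
    have h1 : β * b l = ∑ j : Fin (Module.finrank ℚ K), ((τ : ℚ) ^ (j : ℕ)) • (b l * ω' j) := by
      rw [hβ, Finset.sum_mul]
      refine Finset.sum_congr rfl fun j _ => ?_
      rw [Algebra.smul_def]
      push_cast
      ring
    rw [h1, map_sum]
    have h2 : ∀ j : Fin (Module.finrank ℚ K),
        Algebra.trace ℚ K (((τ : ℚ) ^ (j : ℕ)) • (b l * ω' j)) =
          if l = j then (τ : ℚ) ^ (j : ℕ) else 0 := by
      intro j
      rw [map_smul, htr, smul_eq_mul, mul_ite, mul_one, mul_zero]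
    rw [Finset.sum_congr rfl fun j _ => h2 j, Finset.sum_ite_eq, if_pos (Finset.mem_univ _)]
  have hint : ∀ i j, Algebra.trace ℚ K (β * (b i * b j)) ∈ pint p := by
    intro i j
    have h1 : β * (b i * b j) = ∑ l, s i j l • (β * b l) := by
      rw [hs, Finset.mul_sum]
      refine Finset.sum_congr rfl fun l _ => ?_
      rw [Algebra.smul_def, eq_ratCast]
      ring
    rw [h1, map_sum]
    refine Subring.sum_mem _ fun l _ => ?_
    rw [map_smul, htrβ, smul_eq_mul]
    refine Subring.mul_mem _ (hsp i j l) (Subring.pow_mem _ ?_ _)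
    exact natCast_mem _ τ
  have hdet := det_pint _ (fun i j => show (Matrix.of fun i j =>
    Algebra.trace ℚ K (β * (b i * b j))) i j ∈ pint p from hint i j)
  rw [← norm_disc, mem_pint, padicNorm.mul] at hdet
  -- the product over the places
  have hprod : ∏ v ∈ V, (⨆ i, v (ω' i)) = ((padicNorm p (Algebra.norm ℚ β) : ℚ) : ℝ) := by
    rw [← NRM.fld p hβ0]
    rw [finprod_eq_prod_of_mulSupport_subset _ (s := V)]
    · refine Finset.prod_congr rfl fun v hv => ?_
      rw [← hτ v ((hV v).1 hv)]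
      unfold NRM.gg
      rw [if_pos ((hV v).1 hv)]
    · intro v hv
      rw [Finset.mem_coe, hV]
      by_contra h
      apply hv
      show NRM.gg p v β = 1
      unfold NRM.gg
      rw [if_neg h]
  rw [← Real.log_prod fun v _ => (sup_pos hω' v.1).ne', hprod, ← Real.log_inv]
  have h1 : (0 : ℝ) < ((padicNorm p (Algebra.norm ℚ β) : ℚ) : ℝ) := by
    have h2 : 0 < padicNorm p (Algebra.norm ℚ β) :=
      lt_of_le_of_ne (padicNorm.nonneg _)
        (padicNorm.nonzero (Algebra.norm_ne_zero_iff.2 hβ0)).symm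
    exact_mod_cast h2
  have h2 : (0 : ℝ) < ((padicNorm p (Algebra.discr ℚ b) : ℚ) : ℝ) := by
    have h2 : 0 < padicNorm p (Algebra.discr ℚ b) :=
      lt_of_le_of_ne (padicNorm.nonneg _) (padicNorm.nonzero hdisc).symm
    exact_mod_cast h2
  apply Real.log_le_log h1
  rw [← one_div, le_div_iff₀ h2]
  exact_mod_cast hdet

end main

end DSCaux

open DSCaux in
/-- **DSC** -/
theorem dsc : S_DSC := by
  classical
  intro K _ _ S hS r hr hrS ω ω' s hs hsp htr
  subst hr
  have hr0 : 0 < Module.finrank ℚ K := Module.finrank_pos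
  -- the basis
  have hli : LinearIndependent ℚ ω := by
    rw [Fintype.linearIndependent_iff]
    intro g hg i
    have h1 := congrArg (fun x => Algebra.trace ℚ K (x * ω' i)) hg
    simp only [zero_mul, map_zero, Finset.sum_mul, map_sum, smul_mul_assoc, map_smul, htr,
      smul_eq_mul, mul_ite, mul_one, mul_zero, Finset.sum_ite_eq', Finset.mem_univ, if_true] at h1
    exact h1
  have : Nonempty (Fin (Module.finrank ℚ K)) := ⟨⟨0, hr0⟩⟩
  let b : Module.Basis (Fin (Module.finrank ℚ K)) ℚ K :=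
    basisOfLinearIndependentOfCardEqFinrank hli (Fintype.card_fin _)
  have hb : (b : Fin (Module.finrank ℚ K) → K) = ω :=
    coe_basisOfLinearIndependentOfCardEqFinrank hli (Fintype.card_fin _)
  have hω' : ω' ≠ 0 := by
    intro h0
    have h1 := htr ⟨0, hr0⟩ ⟨0, hr0⟩
    rw [if_pos rfl, h0, Pi.zero_apply, mul_zero, map_zero] at h1
    exact zero_ne_one h1
  have hfin := sup_fin hω'
  refine ⟨hfin, ?_⟩
  have hdisc : Algebra.discr ℚ ω ≠ 0 := by
    rw [← hb]
    exact Algebra.discr_not_zero_of_basis ℚ b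
  -- the places over a prime
  have hpl := fun p : {p : ℕ // p.Prime} => PLCaux.exps (K := K) p.2
  choose V e hV1 hV2 hV3 hV4 using hpl
  -- the prime under a place
  have hch : ∀ v : FinitePlace K, ∃ p : ℕ, p.Prime ∧ v (p : K) < 1 := by
    intro v
    obtain ⟨q, n, hq, _, hpq⟩ := NRM.resChar v.maximalIdeal
    exact ⟨q, hq, (NRM.lt_one_iff v q).2 ((hpq q hq).2 rfl)⟩
  choose ch hch1 hch2 using hch
  set P : Finset ℕ := ((hfin.toFinset.image ch) ∪
    ((Algebra.discr ℚ ω).num.natAbs.primeFactors ∪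
      (Algebra.discr ℚ ω).den.primeFactors)).filter (· ∉ S) with hP
  have hPp : ∀ p ∈ P, p.Prime ∧ p ∉ S := by
    intro p hp
    rw [hP, Finset.mem_filter, Finset.mem_union, Finset.mem_union] at hp
    refine ⟨?_, hp.2⟩
    rcases hp.1 with h | h | h
    · obtain ⟨v, _, rfl⟩ := Finset.mem_image.1 h
      exact hch1 v
    · exact Nat.prime_of_mem_primeFactors h
    · exact Nat.prime_of_mem_primeFactors h
  -- the product formula
  have hpf := rat_prod (Algebra.discr ℚ ω) hdisc (S ∪ P) (by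
    intro p hp
    rcases Finset.mem_union.1 hp with h | h
    · exact hS p h
    · exact (hPp p h).1) (by
    intro p hp
    by_cases h : p ∈ S
    · exact Finset.mem_union_left _ h
    · apply Finset.mem_union_right
      rw [hP, Finset.mem_filter]
      exact ⟨Finset.mem_union_right _ (Finset.mem_union_left _ hp), h⟩) (by
    intro p hp
    by_cases h : p ∈ S
    · exact Finset.mem_union_left _ h
    · apply Finset.mem_union_right
      rw [hP, Finset.mem_filter]
      exact ⟨Finset.mem_union_right _ (Finset.mem_union_right _ hp), h⟩)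
  have hdisj : Disjoint S P := by
    rw [Finset.disjoint_right]
    intro p hp
    exact (hPp p hp).2
  rw [Finset.sum_union hdisj] at hpf
  -- the sum over the places
  have hsum : ∑ᶠ v ∈ (Over K S)ᶜ, Real.log (⨆ i, (v : FinitePlace K) (ω' i)) =
      ∑ p ∈ P.attach, ∑ v ∈ V ⟨p.1, (hPp p.1 p.2).1⟩, Real.log (⨆ i, v (ω' i)) := by
    rw [← Finset.sum_biUnion]
    · apply finsum_mem_eq_sum_of_inter_support_eq
      ext v
      rw [Set.mem_inter_iff, Set.mem_inter_iff]
      constructor
      · rintro ⟨h1, h2⟩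
        refine ⟨?_, h2⟩
        have h3 : v ∈ hfin.toFinset := by
          rw [Set.Finite.mem_toFinset]
          intro h4
          apply h2
          change Real.log (⨆ i, v (ω' i)) = 0
          rw [h4, Real.log_one]
        have h4 : ch v ∈ P := by
          rw [hP, Finset.mem_filter]
          refine ⟨Finset.mem_union_left _ (Finset.mem_image_of_mem _ h3), ?_⟩
          intro h5
          exact h1 ⟨ch v, h5, hch2 v⟩
        rw [Finset.mem_coe, Finset.mem_biUnion]
        exact ⟨⟨ch v, h4⟩, Finset.mem_attach _ _, (hV1 _ v).2 (hch2 v)⟩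
      · rintro ⟨h1, h2⟩
        refine ⟨?_, h2⟩
        rw [Finset.mem_coe, Finset.mem_biUnion] at h1
        obtain ⟨p, _, hv⟩ := h1
        rintro ⟨q, hq, hvq⟩
        have h3 := NRM.uniq (hPp p.1 p.2).1 (hS q hq) ((hV1 _ v).1 hv) hvq
        exact (hPp p.1 p.2).2 (h3 ▸ hq)
    · intro p _ q _ hpq
      rw [Function.onFun, Finset.disjoint_left]
      intro v hv1 hv2
      apply hpq
      exact Subtype.ext (NRM.uniq (hPp p.1 p.2).1 (hPp q.1 q.2).1 ((hV1 _ v).1 hv1)
        ((hV1 _ v).1 hv2))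
  rw [hsum]
  have hle : ∑ p ∈ P.attach, ∑ v ∈ V ⟨p.1, (hPp p.1 p.2).1⟩, Real.log (⨆ i, v (ω' i)) ≤
      ∑ p ∈ P.attach, -Real.log ((padicNorm p.1 (Algebra.discr ℚ ω) : ℚ) : ℝ) := by
    refine Finset.sum_le_sum fun p _ => ?_
    have hpp := (hPp p.1 p.2).1
    have hpS := (hPp p.1 p.2).2
    have h1 : Module.finrank ℚ K * Module.finrank ℚ K < p.1 := by
      by_contra h
      exact hpS (hrS p.1 hpp (not_lt.1 h))
    have h2 := at_prime hpp h1 b ω' s (by rw [hb]; exact hs)
      (fun i j l => hsp i j l p.1 hpp hpS) (by rw [hb]; exact htr) hω' (V ⟨p.1, hpp⟩)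
      (hV1 ⟨p.1, hpp⟩) (by
        rw [Finset.nonempty_iff_ne_empty]
        intro h0
        have h3 := hV4 ⟨p.1, hpp⟩
        rw [h0, Finset.sum_empty] at h3
        omega)
    rw [hb] at h2
    exact h2
  refine hle.trans (le_of_eq ?_)
  rw [Finset.sum_attach P (fun p => -Real.log ((padicNorm p (Algebra.discr ℚ ω) : ℚ) : ℝ)),
    Finset.sum_neg_distrib]
  linarith

end Pool.Agent.Y724.T4
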