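import Mathlib
import Pool.Agent.Y724.Vj.Place

/-!
# The inequality at one place, abstract form
-/

set_option autoImplicit false

namespace Pool.Agent.Y724.T4

open MvPolynomial Pool.Agent.Y724.Vj

variable {GG : Type} [Field GG] {ν n q w g : ℕ}

/-- **The inequality at one place.** -/
theorem place_abs {sc : ℕ} (A : ValuationSubring GG) (hν : ν = n + sc)
    (x : Fin ν → GG) (T : Matrix (Fin ν) (Fin n) GG)
    (Gp : Fin g → MvPolynomial (Fin ν) ℤ) (e : Fin g → ℕ) (hGh : ∀ a, (Gp a).IsHomogeneous (e a))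
    (F : Fin q → Fin w → MvPolynomial (Fin ν) ℤ) (d : Fin q → Fin w → ℕ)
    (hFh : ∀ i j, (F i j).IsHomogeneous (d i j))
    (hnc : NCf (IsLocalRing.ResidueField A) sc Gp F)
    (hGx : ∀ a, evi x (Gp a) = 0) (J0 : Fin n → Fin ν) (hdet : (T.submatrix J0 id).det ≠ 0)
    (y0 : Fin ν) (hy0 : x y0 ≠ 0) (hmax : ∀ y, A.valuation (x y) ≤ A.valuation (x y0))
    (hder : ∀ (P : MvPolynomial (Fin ν) ℤ) (e : ℕ) (_ : P.IsHomogeneous e) (c : Fin n),
      A.valuation (∑ y, evi x (pderiv y P) * T y c) ≤ A.valuation (evi x P)) :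
    ∃ jj : Fin q → Fin w, (∀ i, evi x (F i (jj i)) ≠ 0) ∧ ∀ J : Fin n → Fin ν,
      A.valuation ((T.submatrix J id).det * ∏ i, x y0 ^ (d i (jj i))) ≤
        A.valuation (x y0 ^ n * ∏ i, evi x (F i (jj i))) := by
  classical
  have hTy : ∀ y c, A.valuation (T y c) ≤ A.valuation (x y0) := by
    intro y c
    have h1 := hder (X y) 1 (isHomogeneous_X ℤ y) c
    have h2 : ∑ y', evi x (pderiv y' (X y : MvPolynomial (Fin ν) ℤ)) * T y' c = T y c := by
      rw [Finset.sum_eq_single y]
      · rw [pderiv_X_self]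
        unfold evi
        rw [eval₂_one, one_mul]
      · intro y' _ hy'
        rw [pderiv_X_of_ne (Ne.symm hy'), evi_zero, zero_mul]
      · intro h
        exact absurd (Finset.mem_univ _) h
    have h3 : evi x (X y : MvPolynomial (Fin ν) ℤ) = x y := by
      unfold evi
      rw [eval₂_X]
    rw [h2, h3] at h1
    exact h1.trans (hmax y)
  have hv0 : 0 < A.valuation (x y0) := by
    rw [zero_lt_iff]
    exact (Valuation.ne_zero_iff _).2 hy0
  have hdiv : ∀ a : GG, A.valuation a ≤ A.valuation (x y0) → (x y0)⁻¹ * a ∈ A := by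
    intro a ha
    rw [← ValuationSubring.valuation_le_one_iff, map_mul, map_inv₀]
    rw [mul_comm, ← div_eq_mul_inv]
    exact div_le_one_of_le₀ ha zero_le
  set ξ : Fin ν → A := fun y => ⟨(x y0)⁻¹ * x y, hdiv _ (hmax y)⟩ with hξ
  set T' : Matrix (Fin ν) (Fin n) A := Matrix.of fun y c => ⟨(x y0)⁻¹ * T y c, hdiv _ (hTy y c)⟩
    with hT'
  have hcoe : ∀ P : MvPolynomial (Fin ν) ℤ, ((evi ξ P : A) : GG) =
      evi (fun y => (x y0)⁻¹ * x y) P := fun P => map_evi A.subtype ξ P
  have hcoeh : ∀ (P : MvPolynomial (Fin ν) ℤ) (e : ℕ) (_ : P.IsHomogeneous e),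
      ((evi ξ P : A) : GG) = (x y0)⁻¹ ^ e * evi x P := by
    intro P e hP
    rw [hcoe, evi_smul P e hP]
  have hsum : ∀ (P : MvPolynomial (Fin ν) ℤ) (e : ℕ) (_ : P.IsHomogeneous e) (c : Fin n),
      ((∑ y, evi ξ (pderiv y P) * T' y c : A) : GG) =
        (x y0)⁻¹ ^ e * ∑ y, evi x (pderiv y P) * T y c := by
    intro P e hP c
    rw [← sum_pderiv_smul P e hP, AddSubmonoidClass.coe_finsetSum]
    refine Finset.sum_congr rfl fun y _ => ?_
    rw [MulMemClass.coe_mul, hcoe]
    rfl
  have hdetT : ∀ J : Fin n → Fin ν, (((T'.submatrix J id).det : A) : GG) =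
      (x y0)⁻¹ ^ n * (T.submatrix J id).det := by
    intro J
    have h1 : (((T'.submatrix J id).det : A) : GG) = ((T'.submatrix J id).map A.subtype).det :=
      RingHom.map_det A.subtype (T'.submatrix J id)
    rw [h1]
    have h2 : (T'.submatrix J id).map A.subtype = (x y0)⁻¹ • (T.submatrix J id) := by
      ext i c
      rfl
    rw [h2, Matrix.det_smul, Fintype.card_fin]
  obtain ⟨jj, hjj, hb'⟩ := nc_bound A hν Gp F hnc ξ ⟨y0, by
      rw [ValuationSubring.valuation_eq_one_iff]
      change A.valuation ((x y0)⁻¹ * x y0) = 1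
      rw [inv_mul_cancel₀ hy0, map_one]⟩ (by
      intro a
      apply Subtype.ext
      rw [hcoeh _ _ (hGh a), hGx, mul_zero]
      rfl) T' (by
      intro a c
      apply Subtype.ext
      rw [hsum _ _ (hGh a)]
      have h1 := hder (Gp a) (e a) (hGh a) c
      rw [hGx, map_zero] at h1
      have h2 := le_antisymm h1 zero_le
      rw [Valuation.zero_iff] at h2
      rw [h2, mul_zero]
      rfl) (by
      intro i j c
      rw [hsum _ _ (hFh i j), hcoeh _ _ (hFh i j), map_mul, map_mul]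
      exact mul_le_mul_right (hder _ _ (hFh i j) c) _) J0 (by
      intro h0
      have h1 := hdetT J0
      rw [h0, ZeroMemClass.coe_zero] at h1
      rcases mul_eq_zero.1 h1.symm with h2 | h2
      · exact pow_ne_zero _ (inv_ne_zero hy0) h2
      · exact hdet h2)
  refine ⟨jj, ?_, ?_⟩
  · intro i h0
    apply hjj i
    apply Subtype.ext
    rw [hcoeh _ _ (hFh i (jj i)), h0, mul_zero]
    rfl
  · intro J
    have h1 := hb' J
    rw [hdetT J, map_mul] at h1
    have h2 : ∀ i, A.valuation ((evi ξ (F i (jj i)) : A) : GG) =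
        A.valuation ((x y0)⁻¹ ^ (d i (jj i))) * A.valuation (evi x (F i (jj i))) := by
      intro i
      rw [hcoeh _ _ (hFh i (jj i)), map_mul]
    rw [Finset.prod_congr rfl fun i _ => h2 i, Finset.prod_mul_distrib, ← map_prod, ← map_prod]
      at h1
    have h3 : A.valuation (x y0 ^ n) * A.valuation ((x y0)⁻¹ ^ n) = 1 := by
      rw [← map_mul, ← mul_pow, mul_inv_cancel₀ hy0, one_pow, map_one]
    have h4 : A.valuation (∏ i, x y0 ^ (d i (jj i))) *
        A.valuation (∏ i, (x y0)⁻¹ ^ (d i (jj i))) = 1 := by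
      rw [← map_mul, ← Finset.prod_mul_distrib]
      have : ∀ i : Fin q, x y0 ^ (d i (jj i)) * (x y0)⁻¹ ^ (d i (jj i)) = 1 := by
        intro i
        rw [← mul_pow, mul_inv_cancel₀ hy0, one_pow]
      rw [Finset.prod_congr rfl fun i _ => this i, Finset.prod_const_one, map_one]
    calc A.valuation ((T.submatrix J id).det * ∏ i, x y0 ^ (d i (jj i)))
        = (A.valuation (x y0 ^ n) * A.valuation ((x y0)⁻¹ ^ n)) *
            (A.valuation (T.submatrix J id).det * A.valuation (∏ i, x y0 ^ (d i (jj i)))) := by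
          rw [h3, one_mul, map_mul]
      _ = A.valuation (x y0 ^ n) * A.valuation (∏ i, x y0 ^ (d i (jj i))) *
            (A.valuation ((x y0)⁻¹ ^ n) * A.valuation (T.submatrix J id).det) := by
          ac_rfl
      _ ≤ A.valuation (x y0 ^ n) * A.valuation (∏ i, x y0 ^ (d i (jj i))) *
            (A.valuation (∏ i, (x y0)⁻¹ ^ (d i (jj i))) *
              A.valuation (∏ i, evi x (F i (jj i)))) := mul_le_mul_right h1 _
      _ = (A.valuation (∏ i, x y0 ^ (d i (jj i))) *
            A.valuation (∏ i, (x y0)⁻¹ ^ (d i (jj i)))) *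
              (A.valuation (x y0 ^ n) * A.valuation (∏ i, evi x (F i (jj i)))) := by
          ac_rfl
      _ = _ := by rw [h4, one_mul, map_mul]

end Pool.Agent.Y724.T4
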