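import Mathlib
import Pool.Agent.Y724.T4.GE
import Pool.Agent.Y724.T4.PLA

/-!
# Directions with integral data at the germ of an algebraic point
-/

set_option autoImplicit false

namespace Pool.Agent.Y724.T4

open MvPolynomial Filter Topology Pool.Agent.TH932.Germs Pool.Agent.TH551.SU Pool.Agent.Y724.Vj
open Pool.Agent.TH551.SU.SUI

section euler
variable {G : Type} [Field G] [CharZero G] [Algebra ℚ G] {ν : ℕ}

omit [CharZero G] in
/-- the derivative of a form in the direction `E x + ε x` -/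
lemma form_dir (E : Derivation ℚ G G) (x : Fin ν → G) (ε : G) (P : MvPolynomial (Fin ν) ℤ)
    (e : ℕ) (hP : P.IsHomogeneous e) :
    ∑ y, evi x (pderiv y P) * (E (x y) + ε * x y) = E (evi x P) + ε * e * evi x P := by
  have h1 : E (evi x P) = ∑ y, evi x (pderiv y P) * E (x y) := by
    rw [← evi_eq_aeval, der_aeval_ax]
    refine Finset.sum_congr rfl fun y _ => ?_
    rw [pderiv_map, evi_eq_aeval]
  have h2 : ∑ y, evi x (pderiv y P) * x y = e * evi x P := by
    have h3 := congrArg (fun Q : MvPolynomial (Fin ν) ℤ => evi x Q) hP.sum_X_mul_pderiv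
    unfold evi at h3 ⊢
    rw [eval₂_sum] at h3
    simp only [eval₂_mul, eval₂_X, nsmul_eq_mul, eval₂_natCast] at h3
    rw [← h3]
    exact Finset.sum_congr rfl fun y _ => mul_comm _ _
  rw [h1]
  simp_rw [mul_add]
  rw [Finset.sum_add_distrib]
  congr 1
  have h4 : ∀ y, evi x (pderiv y P) * (ε * x y) = ε * (evi x (pderiv y P) * x y) := fun y => by
    ring
  rw [Finset.sum_congr rfl fun y _ => h4 y, ← Finset.mul_sum, h2]
  ring

variable {r μ : ℕ}

omit [CharZero G] in
/-- the values of forms at the point are integral over the parameters -/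
lemma integral_form (z : Fin μ → G) (ia : Fin r → Fin μ) (ic : Fin r → Fin ν → Fin μ) (θ : G)
    (hθ : θ ^ r = ∑ i : Fin r, z (ia i) * θ ^ (i : ℕ)) (P : MvPolynomial (Fin ν) ℤ) :
    IsIntegral (aeval z : MvPolynomial (Fin μ) ℚ →ₐ[ℚ] G).range (evi (pt z ic θ) P) := by
  classical
  set R := (aeval z : MvPolynomial (Fin μ) ℚ →ₐ[ℚ] G).range with hR
  have hzR : ∀ i, z i ∈ R := fun i => ⟨X i, aeval_X _ _⟩
  have hzI : ∀ i, IsIntegral R (z i) := fun i =>
    (isIntegral_algebraMap (R := R) (A := G) (x := ⟨z i, hzR i⟩))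
  have hr : 0 < r := by
    rcases Nat.eq_zero_or_pos r with rfl | h
    · simp at hθ
    · exact h
  have hθI : IsIntegral R θ := by
    obtain ⟨r', rfl⟩ : ∃ r', r = r' + 1 := ⟨r - 1, by omega⟩
    refine ⟨(Polynomial.X ^ (r' + 1) - ∑ i : Fin (r' + 1),
      Polynomial.C (⟨z (ia i), hzR _⟩ : R) * Polynomial.X ^ (i : ℕ) : Polynomial R), ?_, ?_⟩
    · refine Polynomial.monic_X_pow_sub (lt_of_le_of_lt (b := ((r' : ℕ) : WithBot ℕ)) ?_
        (by exact_mod_cast Nat.lt_succ_self r'))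
      refine (Polynomial.degree_sum_le Finset.univ (fun i : Fin (r' + 1) =>
        (Polynomial.C (⟨z (ia i), hzR _⟩ : R) * Polynomial.X ^ (i : ℕ) : Polynomial R))).trans ?_
      refine Finset.sup_le fun i _ => ?_
      refine (Polynomial.degree_C_mul_X_pow_le _ _).trans ?_
      have := i.2
      exact_mod_cast (by omega : (i : ℕ) ≤ r')
    · rw [Polynomial.eval₂_sub, Polynomial.eval₂_pow, Polynomial.eval₂_X,
        Polynomial.eval₂_finsetSum, hθ, sub_eq_zero]
      refine Finset.sum_congr rfl fun i _ => ?_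
      rw [Polynomial.eval₂_mul, Polynomial.eval₂_C, Polynomial.eval₂_pow, Polynomial.eval₂_X]
      rfl
  have hx : ∀ y, IsIntegral R (pt z ic θ y) := fun y =>
    IsIntegral.sum _ fun i _ => (hzI _).mul (hθI.pow _)
  have h1 : evi (pt z ic θ) P ∈ (integralClosure R G).toSubring := by
    unfold evi
    rw [eval₂_eq']
    refine Subring.sum_mem _ fun α _ => Subring.mul_mem _ ?_ (Subring.prod_mem _ fun y _ =>
      Subring.pow_mem _ (hx y) _)
    rw [eq_intCast]
    exact intCast_mem _ _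
  exact h1

end euler

variable {L : ℕ → ℝ} (hL : Tendsto L atTop atTop) {K : ℕ → Type} [∀ t, Field (K t)]
  [∀ t, CharZero (K t)] {l μ r ν n : ℕ}

/-- the matrix of the directions -/
noncomputable def TM (Z : Fin μ → GG) (U : Fin l → GG) (ia : Fin r → Fin μ)
    (ic : Fin r → Fin ν → Fin μ) (θ : UP K) (M : Fin n → Fin l → Fin μ → ℕ → ℤ)
    (Me : Fin n → ℕ → ℤ) : Matrix (Fin ν) (Fin n) (UP K) :=
  Matrix.of fun y c => xd (fun i => io K (Z i))
    (fun i => io K (∑ j, U j * gm (fun t => (M c j i t : ℚ)))) ia ic θ y +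
    io K (gm fun t => (Me c t : ℚ)) * pt (fun i => io K (Z i)) ic θ y

/-- **Directions with integral data.** -/
theorem germ_dirs (hLD : S_LD) (hDER : S_DER) {s : ℕ} (b : Fin s → ℕ) (hb : ∀ v, (b v).Prime)
    (hbi : Function.Injective b) (U : Fin l → GG) (hUS : ∀ j, GSU b (U j))
    (hbd : ∀ j, Bd L (U j)) (V : Fin l → Fin μ → KK L hL) (Z : Fin μ → GG)
    (hZ : ∀ i, Z i = ∑ j, U j * (V j i : GG)) (i0 : Fin μ) (hZ0 : Z i0 = 1)
    (ia : Fin r → Fin μ) (ic : Fin r → Fin ν → Fin μ) (θ : UP K)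
    (hθ : θ ^ r = ∑ i : Fin r, io K (Z (ia i)) * θ ^ (i : ℕ))
    (hf : fpr (fun i => io K (Z i)) ia θ ≠ 0) (J0 : Fin n → Fin ν) (σ : UP K)
    (hσ : AlgebraicIndependent ℚ (fun i => σ * pt (fun i => io K (Z i)) ic θ (J0 i))) :
    ∃ (M : Fin n → Fin l → Fin μ → ℕ → ℤ) (Me : Fin n → ℕ → ℤ),
      ((TM Z U ia ic θ M Me).submatrix J0 id).det ≠ 0 ∧
      ∀ (v0 : Option (Fin s)) (w : ∀ t, AbsoluteValue (K t) ℝ) (e : ℕ → ℕ) (R : ℕ),
        Res w (wv b hb v0) e R → ∀ (P : MvPolynomial (Fin ν) ℤ) (d : ℕ), P.IsHomogeneous d →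
        ∀ c, (OU L hL w).valuation (∑ y, evi (pt (fun i => io K (Z i)) ic θ) (pderiv y P) *
          TM Z U ia ic θ M Me y c) ≤
          (OU L hL w).valuation (evi (pt (fun i => io K (Z i)) ic θ) P) := by
  classical
  obtain ⟨m, T, hT, hTB, hind, hrel⟩ := exists_mult_basis b hb hbi hL U hUS hbd
  choose κ a hκa using hrel
  have hTS : ∀ k, GSU b (gm (T k)) := fun k => ⟨T k, rfl, hT k⟩
  have hT0 : ∀ k, gm (T k) ≠ 0 := fun k => gsu_ne_zero hb (hTS k)
  set z : Fin μ → UP K := fun i => io K (Z i) with hz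
  set x : Fin ν → UP K := pt z ic θ with hx
  set g : Fin m → UP K := fun k => io K (gm (T k)) with hg
  set u : Fin l → UP K := fun j => io K (U j) with hu
  set V' : Fin l → Fin μ → K0 hL K := fun j i => psi hL K (V j i) with hV'
  set κ' : Fin l → K0 hL K := fun j => psi hL K (κ j) with hκ'
  have hgI : AlgebraicIndependent (K0 hL K) g := algInd_io hL _ hind
  have hu' : ∀ j, u j = (κ' j : UP K) * ∏ k, g k ^ a j k := by
    intro j
    rw [hu, hκ', hg]
    simp only
    rw [hκa j, map_mul, map_prod, psi_coe]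
    congr 1
    exact Finset.prod_congr rfl fun k _ => map_zpow₀ _ _ _
  have hu0 : ∀ j, u j ≠ 0 := fun j => by
    rw [hu]
    exact (map_ne_zero _).2 (gsu_ne_zero hb (hUS j))
  have hzV : ∀ i, z i = ∑ j, u j * (V' j i : UP K) := by
    intro i
    rw [hz, hu, hV']
    simp only
    rw [hZ, map_sum]
    exact Finset.sum_congr rfl fun j _ => map_mul _ _ _
  have hz0 : z i0 = 1 := by
    rw [hz]
    simp only
    rw [hZ0, map_one]
  obtain ⟨τ, ε, hτ, hτ0, hdet⟩ := exists_dirs g u κ' a hgI hu' hu0 V' z hzV i0 hz0 ia ic θ hθ hf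
    J0 σ hσ
  choose τ1 hτ1 using fun x : Fin n × Fin l × Fin μ => psi_surj hL K (τ x.1 x.2.1 x.2.2)
  choose ε1 hε1 using fun c : Fin n => psi_surj hL K (ε c)
  obtain ⟨ρ, hρ0, hρ⟩ := exists_common hL (fun x : (Fin n × Fin l × Fin μ) ⊕ Fin n =>
    Sum.elim τ1 ε1 x)
  choose MM hMM using hρ
  set M : Fin n → Fin l → Fin μ → ℕ → ℤ := fun c j i => MM (Sum.inl (c, j, i)) with hM
  set Me : Fin n → ℕ → ℤ := fun c => MM (Sum.inr c) with hMe
  have hioM : ∀ c j i, io K (gm (fun t => (M c j i t : ℚ))) = io K (ρ : GG) * (τ c j i : UP K) := by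
    intro c j i
    rw [← hMM (Sum.inl (c, j, i)), map_mul, ← hτ1 (c, j, i)]
    rfl
  have hioMe : ∀ c, io K (gm (fun t => (Me c t : ℚ))) = io K (ρ : GG) * (ε c : UP K) := by
    intro c
    rw [← hMM (Sum.inr c), map_mul, ← hε1 c]
    rfl
  have hTM : ∀ y c, TM Z U ia ic θ M Me y c = io K (ρ : GG) *
      (xd z (fun i => ∑ j, u j * (τ c j i : UP K)) ia ic θ y + (ε c : UP K) * x y) := by
    intro y c
    unfold TM
    rw [Matrix.of_apply]
    have h1 : (fun i => io K (∑ j, U j * gm (fun t => (M c j i t : ℚ)))) =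
        fun i => ∑ k ∈ ({0} : Finset (Fin 1)), (fun _ => io K (ρ : GG)) k *
          (fun (_ : Fin 1) (i : Fin μ) => ∑ j, u j * (τ c j i : UP K)) k i := by
      funext i
      rw [Finset.sum_singleton, map_sum]
      change _ = io K (ρ : GG) * ∑ j, u j * (τ c j i : UP K)
      refine Eq.trans ?_ (Finset.mul_sum _ _ _).symm
      refine Finset.sum_congr rfl fun j _ => ?_
      rw [map_mul, hioM]
      ring
    rw [h1, xd_sum, Finset.sum_singleton, hioMe]
    ring
  refine ⟨M, Me, ?_, ?_⟩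
  · have h1 : (TM Z U ia ic θ M Me).submatrix J0 id = io K (ρ : GG) •
        (Matrix.of fun (i c : Fin n) => xd z (fun i => ∑ j, u j * (τ c j i : UP K)) ia ic θ (J0 i) +
          (ε c : UP K) * x (J0 i)) := by
      ext i c
      rw [Matrix.submatrix_apply, Matrix.smul_apply, Matrix.of_apply, hTM, smul_eq_mul]
      rfl
    rw [h1, Matrix.det_smul]
    exact mul_ne_zero (pow_ne_zero _ ((map_ne_zero _).2 hρ0)) hdet
  · intro v0 w e R hres P d hP c
    set A := OU L hL w with hA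
    -- weights
    have hpl := pl_wv b hb v0
    choose γ hγ using fun k => exists_weight hL hpl (hTB k) (hT0 k)
    have hA0 : ∀ b : K0 hL K, (b : UP K) ∈ A := by
      rintro ⟨_, y, hy, rfl⟩
      exact (mem_OU_io hL hres y).2 (KK_le hL hpl hy)
    have hA1 : ∀ (p : MvPolynomial (Fin m) (K0 hL K)), ∀ α ∈ p.support,
        A.valuation (∏ i, g i ^ α i) ≤ A.valuation (aeval g p) := by
      intro p α hα
      obtain ⟨p, rfl⟩ := map_surjective _ (psi_surj hL K) p
      rw [hg, aeval_psi, io_prod_pow, val_io_le hL hres]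
      exact lb_mono hL b hb hbi (fun k => gm (T k)) hTS hTB hind v0 p α
        (support_map_subset _ _ hα)
    have hA2 : ∀ α β : Fin m →₀ ℕ, A.valuation (∏ i, g i ^ α i) ≤ A.valuation (∏ i, g i ^ β i) ↔
        ∑ i, (α i : ℝ) * γ i ≤ ∑ i, (β i : ℝ) * γ i := by
      intro α β
      rw [hg, io_prod_pow, io_prod_pow, val_io_le hL hres]
      exact mono_le_iff hL _ T hT0 γ hγ α β
    obtain ⟨E, hE⟩ := exists_E g u κ' a hDER hgI hu' hu0 V' (τ c) (hτ c) z _ hzV (fun i => rfl) i0
      hz0 (hτ0 c)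
    have hEx : ∀ y, E (x y) = xd z (fun i => ∑ j, u j * (τ c j i : UP K)) ia ic θ y := fun y =>
      E_pt E z _ hE ia ic θ hθ hf y
    have h1 : ∑ y, evi x (pderiv y P) * TM Z U ia ic θ M Me y c =
        io K (ρ : GG) * (E (evi x P) + (ε c : UP K) * d * evi x P) := by
      have h0 := form_dir E x (ε c : UP K) P d hP
      rw [← h0]
      refine Eq.trans ?_ (Finset.mul_sum _ _ _).symm
      refine Finset.sum_congr rfl fun y _ => ?_
      rw [hTM, hEx]
      ring
    rw [h1, map_mul]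
    have h2 : A.valuation (io K (ρ : GG)) ≤ 1 :=
      (A.valuation_le_one_iff _).2 ((mem_OU_io hL hres _).2 (KK_le hL hpl ρ.2))
    have h3 : A.valuation (E (evi x P)) ≤ A.valuation (evi x P) :=
      good_ld g u κ' a hLD hgI hu' hu0 V' (τ c) (hτ c) z _ hzV (fun i => rfl) i0
        hz0 (hτ0 c) E hE A γ hA0 hA1 hA2 _ (integral_form z ia ic θ hθ P)
    have h4 : A.valuation ((ε c : UP K) * d * evi x P) ≤ A.valuation (evi x P) := by
      rw [map_mul, map_mul]
      have h5 : A.valuation (ε c : UP K) ≤ 1 := (A.valuation_le_one_iff _).2 (hA0 _)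
      have h6 : A.valuation (d : UP K) ≤ 1 :=
        (A.valuation_le_one_iff _).2 (natCast_mem A d)
      exact mul_le_of_le_one_left' (mul_le_one' h5 h6)
    exact (mul_le_of_le_one_left' h2).trans ((A.valuation.map_add _ _).trans (max_le h3 h4))

end Pool.Agent.Y724.T4
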