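import Mathlib
import Pool.Agent.Y724.T4.GP

/-!
# Preparations for the sequence theorem
-/

set_option autoImplicit false

namespace Pool.Agent.Y724.T4

open MvPolynomial Filter Topology Pool.Agent.TH932.Germs Pool.Agent.TH551.SU Pool.Agent.Y724.Vj
open Pool.Agent.TH551.SU.SUI NumberField

section uqs
variable {K : ℕ → Type} [∀ t, Field (K t)]

lemma uq_sum {ι : Type} (A : Finset ι) (f : ι → ∀ t, K t) :
    ∑ i ∈ A, uq K (f i) = uq K (fun t => ∑ i ∈ A, f i t) := by
  rw [← map_sum]
  congr 1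
  funext t
  rw [Finset.sum_apply]

lemma uq_add (f g : ∀ t, K t) : uq K f + uq K g = uq K (fun t => f t + g t) :=
  (map_add _ _ _).symm

lemma uq_mul (f g : ∀ t, K t) : uq K f * uq K g = uq K (fun t => f t * g t) :=
  (map_mul _ _ _).symm

lemma uq_pow (f : ∀ t, K t) (k : ℕ) : uq K f ^ k = uq K (fun t => f t ^ k) :=
  (map_pow _ _ _).symm

lemma uq_nat (k : ℕ) : (k : UP K) = uq K (fun t => (k : K t)) :=
  (map_natCast (uq K) k).symm

lemma uq_prod {ι : Type} (A : Finset ι) (f : ι → ∀ t, K t) :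
    ∏ i ∈ A, uq K (f i) = uq K (fun t => ∏ i ∈ A, f i t) := by
  rw [← map_prod]
  congr 1
  funext t
  rw [Finset.prod_apply]

lemma det_uq {n : ℕ} (M : ∀ t, Matrix (Fin n) (Fin n) (K t)) :
    (Matrix.of fun i c => uq K (fun t => M t i c)).det = uq K (fun t => (M t).det) := by
  let P : Matrix (Fin n) (Fin n) (∀ t, K t) := Matrix.of fun i c t => M t i c
  have h1 : (Matrix.of fun i c => uq K (fun t => M t i c)) = P.map (uq K) := by
    ext1 i c
    rfl
  have h2 : (P.map (uq K)).det = uq K P.det := (RingHom.map_det (uq K) P).symm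
  have h3 : P.det = fun t => (M t).det := by
    funext t
    have h4 : (Pi.evalRingHom K t) P.det = (P.map (Pi.evalRingHom K t)).det :=
      RingHom.map_det _ _
    exact h4
  rw [h1]
  refine h2.trans ?_
  rw [h3]

lemma evi_uq {ν : ℕ} (x : ∀ t, Fin ν → K t) (P : MvPolynomial (Fin ν) ℤ) :
    evi (fun y => uq K (fun t => x t y)) P = uq K (fun t => evi (x t) P) := by
  rw [← map_evi (uq K) (fun y t => x t y) P]
  congr 1
  funext t
  exact map_evi (Pi.evalRingHom K t) (fun y t => x t y) P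

variable {r ν μ : ℕ} (ia : Fin r → Fin μ) (ic : Fin r → Fin ν → Fin μ) (θ : ∀ t, K t)

lemma uq_pt (z : ∀ t, Fin μ → K t) (y : Fin ν) :
    pt (fun i => uq K (fun t => z t i)) ic (uq K θ) y = uq K (fun t => pt (z t) ic (θ t) y) := by
  unfold pt
  rw [← uq_sum]
  exact Finset.sum_congr rfl fun i _ => by rw [uq_pow, uq_mul]

lemma uq_ptd (z : ∀ t, Fin μ → K t) (y : Fin ν) :
    ptd (fun i => uq K (fun t => z t i)) ic (uq K θ) y = uq K (fun t => ptd (z t) ic (θ t) y) := by
  unfold ptd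
  rw [← uq_sum]
  exact Finset.sum_congr rfl fun i _ => by rw [uq_pow, uq_nat, uq_mul, uq_mul]

lemma uq_rho (z : ∀ t, Fin μ → K t) :
    rho (fun i => uq K (fun t => z t i)) ia (uq K θ) = uq K (fun t => rho (z t) ia (θ t)) := by
  unfold rho
  rw [← uq_sum]
  exact Finset.sum_congr rfl fun i _ => by rw [uq_pow, uq_mul]

lemma uq_fpr (z : ∀ t, Fin μ → K t) :
    fpr (fun i => uq K (fun t => z t i)) ia (uq K θ) = uq K (fun t => fpr (z t) ia (θ t)) := by
  have h1 : ∀ t, fpr (z t) ia (θ t) = (r : K t) * θ t ^ (r - 1) +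
      -(∑ i : Fin r, ((i : ℕ) : K t) * z t (ia i) * θ t ^ ((i : ℕ) - 1)) := fun t => by
    unfold fpr
    ring
  have h2 : (fun t => fpr (z t) ia (θ t)) = (fun t => (r : K t) * θ t ^ (r - 1)) +
      -(fun t => (∑ i : Fin r, ((i : ℕ) : K t) * z t (ia i) * θ t ^ ((i : ℕ) - 1))) := by
    funext t
    rw [h1, Pi.add_apply, Pi.neg_apply]
  rw [h2, map_add, map_neg]
  unfold fpr
  rw [← uq_sum, uq_pow, uq_nat, uq_mul, sub_eq_add_neg]
  congr 2

lemma uq_xd (z T : ∀ t, Fin μ → K t) (y : Fin ν) :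
    xd (fun i => uq K (fun t => z t i)) (fun i => uq K (fun t => T t i)) ia ic (uq K θ) y =
      uq K (fun t => xd (z t) (T t) ia ic (θ t) y) := by
  unfold xd
  rw [uq_pt, uq_ptd, uq_rho, uq_fpr, uq_div, uq_mul, uq_add]

end uqs

/-! ### scaling -/

section scale
variable {K : ℕ → Type} [∀ t, Field (K t)] [∀ t, CharZero (K t)]

/-- the restriction of a polynomial to the line through a point -/
noncomputable def qpK {F : Type} [Field F] [CharZero F] {n : ℕ} (Q : MvPolynomial (Fin n) ℚ)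
    (ξ : Fin n → F) : Polynomial F :=
  ∑ k ∈ Finset.range (Q.totalDegree + 1),
    Polynomial.C (aeval ξ (homogeneousComponent k Q)) * Polynomial.X ^ k

lemma qpK_eval {F : Type} [Field F] [CharZero F] {n : ℕ} (Q : MvPolynomial (Fin n) ℚ)
    (ξ : Fin n → F) (s : F) : (qpK Q ξ).eval s = aeval (fun i => s * ξ i) Q := by
  unfold qpK
  conv_rhs => rw [← sum_homogeneousComponent Q]
  rw [Polynomial.eval_finsetSum, map_sum]
  refine Finset.sum_congr rfl fun k _ => ?_
  rw [aeval_smul_hom _ k (homogeneousComponent_isHomogeneous k Q), Polynomial.eval_mul,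
    Polynomial.eval_C, Polynomial.eval_pow, Polynomial.eval_X, mul_comm]

lemma qpK_ne_zero {F : Type} [Field F] [CharZero F] {n : ℕ} (Q : MvPolynomial (Fin n) ℚ)
    (ξ : Fin n → F) (k : ℕ)
    (hk : k ≤ Q.totalDegree) (h : aeval ξ (homogeneousComponent k Q) ≠ 0) : qpK Q ξ ≠ 0 := by
  intro h0
  apply h
  have h1 : (qpK Q ξ).coeff k = aeval ξ (homogeneousComponent k Q) := by
    unfold qpK
    rw [Polynomial.finsetSum_coeff]
    simp_rw [Polynomial.coeff_C_mul_X_pow]
    rw [Finset.sum_ite_eq, if_pos (Finset.mem_range.2 (by omega))]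
  rw [← h1, h0, Polynomial.coeff_zero]

lemma aeval_uq {n : ℕ} (ξ : Fin n → ∀ t, K t) (Q : MvPolynomial (Fin n) ℚ) :
    aeval (fun i => uq K (ξ i)) Q = uq K (fun t => aeval (fun i => ξ i t) Q) := by
  induction Q using MvPolynomial.induction_on with
  | C a =>
    rw [aeval_C]
    have h1 : (algebraMap ℚ (UP K)) a = uq K (fun t => ((a : ℚ) : K t)) := by
      have h2 := io_gm (K := K) (fun _ => a)
      rw [← h2, ← algebraMap_eq']
      have h3 : (algebraMap ℚ (UP K)) = (io K).comp (algebraMap ℚ GG) := Subsingleton.elim _ _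
      rw [h3]
      rfl
    rw [h1]
    congr 1
    funext t
    rw [aeval_C]
    have h4 : (algebraMap ℚ (K t)) = Rat.castHom (K t) := Subsingleton.elim _ _
    rw [h4]
    rfl
  | add p q hp hq =>
    rw [map_add, hp, hq, uq_add]
    congr 1
    funext t
    rw [map_add]
  | mul_X p i hp =>
    rw [map_mul, hp, aeval_X, uq_mul]
    congr 1
    funext t
    rw [map_mul, aeval_X]

/-- after multiplication by a suitable element the coordinates are algebraically independent -/
theorem exists_scaleK {n : ℕ} (ξ : Fin n → ∀ t, K t)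
    (hgen : ∀ (Φ : MvPolynomial (Fin n) ℚ) (e : ℕ), Φ.IsHomogeneous e → Φ ≠ 0 →
      ∀ᶠ t in (UU : Filter ℕ), aeval (fun i => ξ i t) Φ ≠ 0) :
    ∃ σ : UP K, AlgebraicIndependent ℚ (fun i => σ * uq K (ξ i)) := by
  classical
  have hcount : Countable (MvPolynomial (Fin n) ℚ) := by
    rw [← Cardinal.mk_le_aleph0_iff]
    refine MvPolynomial.cardinalMk_le_max.trans ?_
    simp
  obtain ⟨f, hf⟩ := exists_surjective_nat (MvPolynomial (Fin n) ℚ)
  have hex : ∀ t : ℕ, ∃ s : K t, ∀ k ≤ t, qpK (f k) (fun i => ξ i t) ≠ 0 →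
      (qpK (f k) (fun i => ξ i t)).eval s ≠ 0 := by
    intro t
    set P : Polynomial (K t) := ∏ k ∈ (Finset.range (t + 1)).filter
      (fun k => qpK (f k) (fun i => ξ i t) ≠ 0), qpK (f k) (fun i => ξ i t) with hP
    have hP0 : P ≠ 0 := by
      rw [hP, Finset.prod_ne_zero_iff]
      intro k hk
      exact (Finset.mem_filter.1 hk).2
    obtain ⟨s, hs⟩ : ∃ s : K t, P.eval s ≠ 0 := by
      by_contra hcon
      push Not at hcon
      apply hP0
      apply Polynomial.funext
      intro s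
      rw [hcon s, Polynomial.eval_zero]
    refine ⟨s, fun k hk h0 h1 => hs ?_⟩
    rw [hP, Polynomial.eval_prod]
    exact Finset.prod_eq_zero (Finset.mem_filter.2 ⟨Finset.mem_range.2 (by omega), h0⟩) h1
  choose σ hσ using hex
  refine ⟨uq K σ, ?_⟩
  rw [algebraicIndependent_iff]
  intro Q hQ
  by_contra hQ0
  obtain ⟨k, hk⟩ : ∃ k, homogeneousComponent k Q ≠ 0 := by
    by_contra hcon
    push Not at hcon
    apply hQ0
    rw [← sum_homogeneousComponent Q]
    exact Finset.sum_eq_zero fun k _ => hcon k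
  have hkd : k ≤ Q.totalDegree := by
    by_contra hcon
    exact hk (homogeneousComponent_eq_zero _ _ (by omega))
  have h1 := hgen _ k (homogeneousComponent_isHomogeneous k Q) hk
  have h2 : (fun i => uq K σ * uq K (ξ i)) = fun i => uq K (fun t => σ t * ξ i t) := by
    funext i
    rw [uq_mul]
  rw [h2, aeval_uq, uq_eq_zero] at hQ
  obtain ⟨q, rfl⟩ := hf Q
  have h3 : ∀ᶠ t in (UU : Filter ℕ), q ≤ t := ev_of_atTop (eventually_ge_atTop q)
  obtain ⟨t, h4, h5, h6⟩ := (h1.and (hQ.and h3)).exists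
  have h7 := hσ t q h6 (qpK_ne_zero _ _ k hkd h4)
  rw [qpK_eval] at h7
  exact h7 h5

end scale

/-! ### integrality -/

/-- a determinant with entries in a subring -/
lemma det_mem {F : Type} [Field F] (R : Subring F) {ι : Type} [Fintype ι] [DecidableEq ι]
    (N : Matrix ι ι F) (h : ∀ i j, N i j ∈ R) : N.det ∈ R := by
  have h1 : N = (Matrix.of fun i j => (⟨N i j, h i j⟩ : R)).map R.subtype := by
    ext i j
    rfl
  rw [h1]
  have h2 := RingHom.map_det R.subtype (Matrix.of fun i j => (⟨N i j, h i j⟩ : R))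
  rw [RingHom.mapMatrix_apply] at h2
  rw [← h2]
  exact SetLike.coe_mem _

/-- integrality of the determinant of a perturbation of rank one -/
lemma int_det {F : Type} [Field F] (R : Subring F) {n : ℕ} (A : Matrix (Fin n) (Fin n) F)
    (B ρ : Fin n → F) (D : F) (hD : D ≠ 0) (hA : ∀ i c, A i c ∈ R) (hB : ∀ i, B i ∈ R)
    (hρ : ∀ c, ρ c ∈ R) (hDR : D ∈ R) :
    (Matrix.of fun i c => A i c + B i * (ρ c / D)).det * D ∈ R := by
  classical
  set B' : Matrix (Fin n) Unit F := Matrix.of fun i _ => B i with hB'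
  set ρ' : Matrix Unit (Fin n) F := Matrix.of fun _ c => -(ρ c / D) with hρ'
  have h1 : (Matrix.of fun i c => A i c + B i * (ρ c / D)) = A - B' * ρ' := by
    ext i c
    rw [Matrix.of_apply, Matrix.sub_apply, Matrix.mul_apply]
    simp [hB', hρ']
  have h2 := Matrix.det_fromBlocks_one₁₁ ρ' B' A
  have h3 : Matrix.fromBlocks (D • (1 : Matrix Unit Unit F)) (D • ρ') B' A =
      Matrix.fromBlocks (D • (1 : Matrix Unit Unit F)) 0 0 (1 : Matrix (Fin n) (Fin n) F) *
        Matrix.fromBlocks 1 ρ' B' A := by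
    rw [Matrix.fromBlocks_multiply]
    simp
  have h4 := congrArg Matrix.det h3
  rw [Matrix.det_mul, h2, Matrix.det_fromBlocks_zero₂₁, Matrix.det_one, mul_one,
    Matrix.det_smul, Matrix.det_one, mul_one, Fintype.card_unit, pow_one] at h4
  rw [h1, mul_comm, ← h4]
  apply det_mem
  intro i j
  rcases i with i | i
  · rcases j with j | j
    · rw [Matrix.fromBlocks_apply₁₁, Matrix.smul_apply]
      simpa using hDR
    · rw [Matrix.fromBlocks_apply₁₂, Matrix.smul_apply, hρ', Matrix.of_apply, smul_eq_mul,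
        mul_neg, mul_div_cancel₀ _ hD]
      exact R.neg_mem (hρ j)
  · rcases j with j | j
    · rw [Matrix.fromBlocks_apply₂₁]
      exact hB i
    · rw [Matrix.fromBlocks_apply₂₂]
      exact hA i j

section nf
variable {F : Type} [Field F] [NumberField F]

/-- the elements of absolute value at most one at a finite place -/
def Rv (v : FinitePlace F) : Subring F where
  carrier := {a | v a ≤ 1}
  mul_mem' := by
    intro a b ha hb
    change v (a * b) ≤ 1
    rw [map_mul]
    exact mul_le_one₀ ha (apply_nonneg v b) hb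
  one_mem' := by
    change v 1 ≤ 1
    rw [map_one]
  add_mem' := by
    intro a b ha hb
    exact (FinitePlace.add_le v a b).trans (max_le ha hb)
  zero_mem' := by
    change v 0 ≤ 1
    rw [map_zero]
    exact zero_le_one
  neg_mem' := by
    intro a ha
    change v (-a) ≤ 1
    rw [map_neg_eq_map]
    exact ha

lemma mem_Rv (v : FinitePlace F) (a : F) : a ∈ Rv v ↔ v a ≤ 1 := Iff.rfl

lemma int_mem_Rv (v : FinitePlace F) (a : F) (ha : IsIntegral ℤ a) : a ∈ Rv v := by
  rw [mem_Rv]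
  have h1 := FinitePlace.norm_le_one F v.maximalIdeal (⟨a, ha⟩ : 𝓞 F)
  have h2 := FinitePlace.norm_embedding_eq v a
  rw [← h2]
  exact h1

lemma su_mem_Rv {s : ℕ} (b : Fin s → ℕ) (S : Finset ℕ) (hbS : ∀ v, b v ∈ S)
    (v : FinitePlace F) (hv : v ∉ Over F S) (u : ℚ) (hu : IsSU b u) : ((u : ℚ) : F) ∈ Rv v := by
  obtain ⟨σ, e, hσ, rfl⟩ := hu
  have h1 : ∀ k, v ((b k : ℕ) : F) = 1 := by
    intro k
    apply le_antisymm
    · exact int_mem_Rv v _ (isIntegral_algebraMap (R := ℤ) (x := ((b k : ℕ) : ℤ)) |> fun h => by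
        simpa using h)
    · by_contra hcon
      push Not at hcon
      exact hv ⟨b k, hbS k, hcon⟩
  rw [mem_Rv]
  push_cast
  rw [map_mul, map_prod]
  have h2 : ∀ k, v (((b k : ℕ) : F) ^ e k) = 1 := by
    intro k
    rw [map_zpow₀, h1, one_zpow]
  rw [Finset.prod_congr rfl fun k _ => h2 k, Finset.prod_const_one, mul_one]
  rcases hσ with rfl | rfl
  · simp
  · simp [map_neg_eq_map]

end nf

end Pool.Agent.Y724.T4
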