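import Mathlib
import Pool.Agent.Y724.T4.SQa

/-!
# The inequality along a sequence of algebraic points
-/

set_option autoImplicit false

namespace Pool.Agent.Y724.T4

open MvPolynomial Filter Topology Pool.Agent.TH932.Germs Pool.Agent.TH551.SU Pool.Agent.Y724.Vj
open Pool.Agent.TH551.SU.SUI NumberField

lemma aeval_evi {F : Type} [CommRing F] {ν : ℕ} (x : Fin ν → F) (P : MvPolynomial (Fin ν) ℤ) :
    aeval x P = evi x P := by
  unfold evi
  rw [aeval_def]
  congr 1

section
variable {L : ℕ → ℝ} (hL : Tendsto L atTop atTop) {K : ℕ → Type} [∀ t, Field (K t)]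
  [∀ t, CharZero (K t)]

include hL in
lemma charZero_resU {w : ∀ t, AbsoluteValue (K t) ℝ} {v : AbsoluteValue ℚ ℝ} {e : ℕ → ℕ} {R : ℕ}
    (hres : Res w v e R) (hv : Pl v) : CharZero (IsLocalRing.ResidueField (OU L hL w)) := by
  let φ : KK L hL →+* OU L hL w :=
    { toFun := fun x => ⟨io K (x : GG), (mem_OU_io hL hres _).2 (KK_le hL hv x.2)⟩
      map_one' := Subtype.ext (map_one _)
      map_mul' := fun _ _ => Subtype.ext (map_mul _ _ _)
      map_zero' := Subtype.ext (map_zero _)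
      map_add' := fun _ _ => Subtype.ext (map_add _ _ _) }
  exact charZero_of_injective_ringHom
    (f := (IsLocalRing.residue (OU L hL w)).comp φ) (RingHom.injective _)

variable {sc g q w ν n : ℕ}

/-- from the abstract inequality at a place to sequences -/
lemma atpl_ev (hν : ν = n + sc) (hn : 0 < n) (Gp : Fin g → MvPolynomial (Fin ν) ℤ)
    (e : Fin g → ℕ) (hGh : ∀ a, (Gp a).IsHomogeneous (e a))
    (F : Fin q → Fin w → MvPolynomial (Fin ν) ℤ) (d : Fin q → Fin w → ℕ)
    (hFh : ∀ i j, (F i j).IsHomogeneous (d i j)) (hnc : NCf ℂ sc Gp F)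
    (x : ∀ t, Fin ν → K t) (T : ∀ t, Matrix (Fin ν) (Fin n) (K t))
    (hGx : ∀ t a, evi (x t) (Gp a) = 0) (J0 : Fin n → Fin ν)
    (hx0 : ∀ᶠ t in (UU : Filter ℕ), x t (J0 ⟨0, hn⟩) ≠ 0)
    (hdet : ∀ᶠ t in (UU : Filter ℕ), ((T t).submatrix J0 id).det ≠ 0)
    {a : ∀ t, AbsoluteValue (K t) ℝ} {v : AbsoluteValue ℚ ℝ} {ex : ℕ → ℕ} {R : ℕ}
    (hres : Res a v ex R) (hv : Pl v)
    (hder : ∀ (P : MvPolynomial (Fin ν) ℤ) (d : ℕ), P.IsHomogeneous d → ∀ c,
      (OU L hL a).valuation (∑ y, evi (fun y => uq K (fun t => x t y)) (pderiv y P) *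
        uq K (fun t => T t y c)) ≤
      (OU L hL a).valuation (evi (fun y => uq K (fun t => x t y)) P)) (δ : ℝ) (hδ : 0 < δ) :
    ∀ᶠ t in (UU : Filter ℕ), AtPl F d (x t) (T t) (a t) (δ * L t) := by
  classical
  set X : Fin ν → UP K := fun y => uq K (fun t => x t y) with hX
  obtain ⟨y0, hy0⟩ : ∃ y0 : Fin ν, ∀ᶠ t in (UU : Filter ℕ), ∀ y, a t (x t y) ≤ a t (x t y0) := by
    have hne : Nonempty (Fin ν) := ⟨J0 ⟨0, hn⟩⟩
    exact const_of_ev (Eventually.of_forall fun t => Finite.exists_max fun y => a t (x t y))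
  have hXy0 : X y0 ≠ 0 := by
    rw [hX]
    simp only
    rw [uq_ne_zero]
    filter_upwards [hy0, hx0] with t h1 h2 h3
    have h4 := h1 (J0 ⟨0, hn⟩)
    rw [h3, map_zero] at h4
    exact h2 (((a t).eq_zero).1 (le_antisymm h4 ((a t).nonneg _)))
  set TT : Matrix (Fin ν) (Fin n) (UP K) := Matrix.of fun y c => uq K (fun t => T t y c) with hTT
  have hdetJ : ∀ J : Fin n → Fin ν, (TT.submatrix J id).det =
      uq K (fun t => ((T t).submatrix J id).det) := by
    intro J
    rw [← det_uq]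
    congr 1
  have hcz := charZero_resU hL hres hv
  obtain ⟨jj, hjj, hval⟩ := place_abs (OU L hL a) hν X TT Gp e hGh F d hFh (NCf.transfer hnc)
    (by
      intro i
      rw [hX, evi_uq, uq_eq_zero]
      exact Eventually.of_forall fun t => hGx t i) J0 (by
      rw [hdetJ, uq_ne_zero]
      exact hdet) y0 hXy0 (by
      intro y
      rw [hX]
      apply le_uval
      intro ε' hε'
      filter_upwards [hy0, L_nonneg hL] with t ht ht2
      refine (ht y).trans ?_
      have h1 : (1 : ℝ) ≤ Real.exp (ε' * L t) := Real.one_le_exp (by positivity)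
      have h2 := (a t).nonneg (x t y0)
      nlinarith) (fun P d hP c => hder P d hP c)
  have hF1 : ∀ᶠ t in (UU : Filter ℕ), ∀ i, evi (x t) (F i (jj i)) ≠ 0 := by
    refine eventually_all.2 fun i => ?_
    have h1 := hjj i
    rw [hX, evi_uq, uq_ne_zero] at h1
    exact h1
  have hineq : ∀ᶠ t in (UU : Filter ℕ), ∀ (J : Fin n → Fin ν),
      a t (((T t).submatrix J id).det * ∏ i, x t y0 ^ (d i (jj i))) ≤
      a t (x t y0 ^ n * ∏ i, evi (x t) (F i (jj i))) * Real.exp (δ * L t) := by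
    refine eventually_all.2 fun J => ?_
    have h1 := hval J
    rw [hdetJ] at h1
    have h2 : ∀ i, X y0 ^ (d i (jj i)) = uq K (fun t => x t y0 ^ (d i (jj i))) := fun i => by
      rw [hX]
      simp only
      rw [uq_pow]
    have h4 : ∀ i, evi X (F i (jj i)) = uq K (fun t => evi (x t) (F i (jj i))) := fun i =>
      evi_uq _ _
    rw [Finset.prod_congr rfl fun i _ => h2 i, Finset.prod_congr rfl fun i _ => h4 i,
      uq_prod, uq_prod, uq_mul] at h1
    have h3 : X y0 ^ n = uq K (fun t => x t y0 ^ n) := by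
      rw [hX]
      simp only
      rw [uq_pow]
    rw [h3, uq_mul] at h1
    exact uval_le hL a h1 _ hδ
  filter_upwards [hy0, hF1, hineq] with t h1 h2 h3
  refine ⟨y0, jj, h1, fun i => ?_, fun J => ?_⟩
  · rw [aeval_evi]
    exact h2 i
  · have h4 := h3 J
    simp only [aeval_evi]
    exact h4

end

section nf
variable {F : Type} [Field F] [NumberField F]

lemma exists_inf (r : ℕ) (hr : Module.finrank ℚ F = r) :
    ∃ f : Fin r → InfinitePlace F, Function.Surjective f := by
  classical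
  have h1 : Fintype.card (InfinitePlace F) ≤ r := by
    rw [← hr, ← InfinitePlace.sum_mult_eq, Fintype.card, Finset.card_eq_sum_ones]
    exact Finset.sum_le_sum fun v _ => InfinitePlace.mult_pos
  have hne : Nonempty (InfinitePlace F) := inferInstance
  obtain ⟨e⟩ : Nonempty (InfinitePlace F ↪ Fin r) :=
    Function.Embedding.nonempty_of_card_le (by rw [Fintype.card_fin]; exact h1)
  exact ⟨Function.invFun e, Function.invFun_surjective e.injective⟩

lemma res_inf {K : ℕ → Type} [∀ t, Field (K t)] [∀ t, NumberField (K t)] {s : ℕ} (b : Fin s → ℕ)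
    (hb : ∀ v, (b v).Prime) (f : ∀ t, InfinitePlace (K t)) :
    Res (fun t => (f t).1) (wv b hb none) (fun _ => 1) 1 where
  one_le _ := le_rfl
  le _ := le_rfl
  eq t q := by
    rw [pow_one, wv_none]
    have h1 := InfinitePlace.map_ratCast (f t) q
    rw [← Rat.norm_cast_real, Real.norm_eq_abs] at h1
    exact h1

lemma isIntegral_theta {r μ : ℕ} (z : Fin μ → ℤ) (ia : Fin r → Fin μ) (θ : F)
    (hθ : θ ^ r = ∑ i : Fin r, (z (ia i) : F) * θ ^ (i : ℕ)) : IsIntegral ℤ θ := by
  have hr : 0 < r := by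
    rcases Nat.eq_zero_or_pos r with rfl | h
    · simp at hθ
    · exact h
  obtain ⟨r', rfl⟩ : ∃ r', r = r' + 1 := ⟨r - 1, by omega⟩
  refine ⟨(Polynomial.X ^ (r' + 1) - ∑ i : Fin (r' + 1),
    Polynomial.C (z (ia i)) * Polynomial.X ^ (i : ℕ) : Polynomial ℤ), ?_, ?_⟩
  · refine Polynomial.monic_X_pow_sub (lt_of_le_of_lt (b := ((r' : ℕ) : WithBot ℕ)) ?_
      (by exact_mod_cast Nat.lt_succ_self r'))
    refine (Polynomial.degree_sum_le Finset.univ (fun i : Fin (r' + 1) =>
      (Polynomial.C (z (ia i)) * Polynomial.X ^ (i : ℕ) : Polynomial ℤ))).trans ?_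
    refine Finset.sup_le fun i _ => ?_
    refine (Polynomial.degree_C_mul_X_pow_le _ _).trans ?_
    have := i.2
    exact_mod_cast (by omega : (i : ℕ) ≤ r')
  · rw [Polynomial.eval₂_sub, Polynomial.eval₂_pow, Polynomial.eval₂_X,
      Polynomial.eval₂_finsetSum, hθ, sub_eq_zero]
    refine Finset.sum_congr rfl fun i _ => ?_
    rw [Polynomial.eval₂_mul, Polynomial.eval₂_C, Polynomial.eval₂_pow, Polynomial.eval₂_X]
    rfl

end nf

variable {L : ℕ → ℝ} {s sc g q w ν n l μ r : ℕ}

/-- **The inequality along a sequence of algebraic points.** -/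
theorem seq_alg (hLD : S_LD) (hDER : S_DER) (hASM : S_ASM) (hPLC : S_PLC) (b : Fin s → ℕ)
    (hb : ∀ v, (b v).Prime) (hbi : Function.Injective b) (S : Finset ℕ) (hbS : ∀ v, b v ∈ S)
    (hSb : ∀ p ∈ S, ∃ v, b v = p)
    (hL : Tendsto L atTop atTop) (hν : ν = n + sc) (hn : 0 < n)
    (Gp : Fin g → MvPolynomial (Fin ν) ℤ)
    (e : Fin g → ℕ) (hGh : ∀ a, (Gp a).IsHomogeneous (e a))
    (F : Fin q → Fin w → MvPolynomial (Fin ν) ℤ) (d : Fin q → Fin w → ℕ)
    (hFh : ∀ i j, (F i j).IsHomogeneous (d i j)) (hnc : NCf ℂ sc Gp F)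
    (K : ℕ → Type) [∀ t, Field (K t)] [∀ t, NumberField (K t)]
    (hr : ∀ t, Module.finrank ℚ (K t) = r)
    (θ : ∀ t, K t) (zs : ℕ → Fin μ → ℤ) (i0 : Fin μ) (hz0 : ∀ t, zs t i0 = 1)
    (ia : Fin r → Fin μ) (ic : Fin r → Fin ν → Fin μ)
    (hθ : ∀ t, θ t ^ r = ∑ i : Fin r, (zs t (ia i) : K t) * θ t ^ (i : ℕ))
    (hf : ∀ t, fpr (fun i => (zs t i : K t)) ia (θ t) ≠ 0)
    (U : Fin l → GG) (hUS : ∀ j, GSU b (U j)) (hbd : ∀ j, Bd L (U j))
    (V : Fin l → Fin μ → KK L hL)
    (hZ : ∀ i, gm (fun t => (zs t i : ℚ)) = ∑ j, U j * (V j i : GG))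
    (x : ∀ t, Fin ν → K t) (hx : ∀ t y, x t y = pt (fun i => (zs t i : K t)) ic (θ t) y)
    (hGx : ∀ t a, aeval (x t) (Gp a) = 0) (J0 : Fin n → Fin ν)
    (hgen : ∀ (Φ : MvPolynomial (Fin n) ℚ) (e : ℕ), Φ.IsHomogeneous e → Φ ≠ 0 →
      ∀ᶠ t in (UU : Filter ℕ), aeval (fun i => x t (J0 i)) Φ ≠ 0)
    (ε : ℝ) (hε : 0 < ε) :
    ∀ᶠ t in (UU : Filter ℕ), ∀ AA : Matrix (Fin ν) (Fin n) (K t),
      LinearIndependent (K t) AA.col →
      (∀ a c, ∑ y, aeval (x t) (pderiv y (Gp a)) * AA y c = 0) →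
      ∑ i, (∑ v : InfinitePlace (K t), v.mult * locH (F i) (d i) (x t) v.1 +
        ∑ᶠ v ∈ Over (K t) S, locH (F i) (d i) (x t) v.1) +
        Height.logHeight (fun J : Fin n → Fin ν => (AA.submatrix J id).det) ≤
        n * (Height.logHeight (x t) - ∑ᶠ v ∈ (Over (K t) S)ᶜ, Real.log (⨆ i, v (x t i))) +
          logS S (fpr (fun i => (zs t i : K t)) ia (θ t)) + ε * L t := by
  classical
  have hSp : ∀ p ∈ S, p.Prime := by
    intro p hp
    obtain ⟨v, rfl⟩ := hSb p hp
    exact hb v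
  -- germs
  set Z : Fin μ → GG := fun i => gm (fun t => (zs t i : ℚ)) with hZdef
  set zK : ∀ t, Fin μ → K t := fun t i => (zs t i : K t) with hzK
  set Θ : UP K := uq K θ with hΘ
  have hioZ : (fun i => io K (Z i)) = fun i => uq K (fun t => zK t i) := by
    funext i
    rw [hZdef]
    simp only
    rw [io_gm]
    congr 1
    funext t
    push_cast
    rfl
  have hX : (fun y => pt (fun i => io K (Z i)) ic Θ y) = fun y => uq K (fun t => x t y) := by
    funext y
    rw [hioZ, hΘ, uq_pt]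
    congr 1
    funext t
    exact (hx t y).symm
  have hΘr : Θ ^ r = ∑ i : Fin r, io K (Z (ia i)) * Θ ^ (i : ℕ) := by
    have h1 : ∀ i, io K (Z i) = uq K (fun t => zK t i) := fun i => congrFun hioZ i
    rw [hΘ, uq_pow]
    have h2 : ∀ i : Fin r, io K (Z (ia i)) * uq K θ ^ (i : ℕ) =
        uq K (fun t => zK t (ia i) * θ t ^ (i : ℕ)) := fun i => by
      rw [h1, uq_pow, uq_mul]
    rw [Finset.sum_congr rfl fun i _ => h2 i, uq_sum]
    congr 1
    funext t
    exact hθ t
  have hfΘ : fpr (fun i => io K (Z i)) ia Θ ≠ 0 := by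
    rw [hioZ, hΘ, uq_fpr, uq_ne_zero]
    exact Eventually.of_forall hf
  have hZ0 : Z i0 = 1 := by
    rw [hZdef, ← gm_one]
    simp only
    congr 1
    funext t
    rw [hz0]
    simp
  obtain ⟨σ, hσ⟩ := exists_scaleK (K := K) (fun i t => x t (J0 i)) hgen
  obtain ⟨M, Me, hdet, hder⟩ := germ_dirs hL hLD hDER b hb hbi U hUS hbd V Z hZ i0 hZ0 ia ic Θ
    hΘr hfΘ J0 σ (by
      have h1 : (fun i => σ * pt (fun i => io K (Z i)) ic Θ (J0 i)) =
          fun i => σ * uq K (fun t => x t (J0 i)) := by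
        funext i
        rw [← congrFun hX (J0 i)]
      rw [h1]
      exact hσ)
  -- sequences
  have hUS' := hUS
  choose uqq hU huqq using hUS'
  set tq : ℕ → Fin n → Fin μ → ℚ := fun t c i => ∑ j, uqq j t * (M c j i t : ℚ) with htq
  set T : ∀ t, Matrix (Fin ν) (Fin n) (K t) := fun t => Matrix.of fun y c =>
    xd (zK t) (fun i => ((tq t c i : ℚ) : K t)) ia ic (θ t) y + (Me c t : K t) * x t y with hT
  have hTZ : ∀ c, (fun i => io K (∑ j, U j * gm (fun t => (M c j i t : ℚ)))) =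
      fun i => uq K (fun t => ((tq t c i : ℚ) : K t)) := by
    intro c
    funext i
    have h1 : ∑ j, U j * gm (fun t => (M c j i t : ℚ)) = gm (fun t => tq t c i) := by
      rw [htq]
      simp only
      rw [← gm_sum']
      refine Finset.sum_congr rfl fun j _ => ?_
      rw [hU, gm_mul]
    rw [h1, io_gm]
  have hTM : ∀ y c, TM Z U ia ic Θ M Me y c = uq K (fun t => T t y c) := by
    intro y c
    unfold TM
    rw [Matrix.of_apply, hTZ, hioZ, hΘ, uq_xd, uq_pt, io_gm, uq_mul, uq_add]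
    congr 1
    funext t
    rw [hT]
    simp only [Matrix.of_apply]
    rw [hx t y]
    push_cast
    rfl
  have hdet1 : ∀ᶠ t in (UU : Filter ℕ), ((T t).submatrix J0 id).det ≠ 0 := by
    have h1 : ((TM Z U ia ic Θ M Me).submatrix J0 id).det =
        uq K (fun t => ((T t).submatrix J0 id).det) := by
      rw [← det_uq]
      congr 1
      ext1 i c
      rw [Matrix.submatrix_apply, hTM]
      rfl
    rw [h1, uq_ne_zero] at hdet
    exact hdet
  have hder' : ∀ (v0 : Option (Fin s)) (a : ∀ t, AbsoluteValue (K t) ℝ) (ex : ℕ → ℕ) (R : ℕ),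
      Res a (wv b hb v0) ex R → ∀ (P : MvPolynomial (Fin ν) ℤ) (d : ℕ), P.IsHomogeneous d →
      ∀ c, (OU L hL a).valuation (∑ y, evi (fun y => uq K (fun t => x t y)) (pderiv y P) *
        uq K (fun t => T t y c)) ≤
      (OU L hL a).valuation (evi (fun y => uq K (fun t => x t y)) P) := by
    intro v0 a ex R hres P d hP c
    have h1 := hder v0 a ex R hres P d hP c
    have h2 : pt (fun i => io K (Z i)) ic Θ = fun y => uq K (fun t => x t y) := hX
    rw [h2] at h1
    refine le_trans (le_of_eq ?_) h1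
    congr 1
    refine Finset.sum_congr rfl fun y _ => ?_
    rw [hTM]
  -- nonzero coordinate
  have hx0 : ∀ᶠ t in (UU : Filter ℕ), x t (J0 ⟨0, hn⟩) ≠ 0 := by
    have h1 := hgen (X ⟨0, hn⟩) 1 (isHomogeneous_X _ _) (X_ne_zero _)
    simpa [aeval_X] using h1
  have hGx' : ∀ t a, evi (x t) (Gp a) = 0 := fun t a => by
    rw [← aeval_evi]
    exact hGx t a
  -- infinite places
  choose finf hfinf using fun t => exists_inf (F := K t) r (hr t)
  have hr0 : 0 < r := by
    rw [← hr 0]
    exact Module.finrank_pos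
  have hgrad : ∀ᶠ t in (UU : Filter ℕ), ∀ a c,
      ∑ y, evi (x t) (pderiv y (Gp a)) * T t y c = 0 := by
    refine eventually_all.2 fun a => eventually_all.2 fun c => ?_
    have h1 := hder' none _ _ 1 (res_inf b hb (fun t => finf t ⟨0, hr0⟩)) (Gp a) (e a) (hGh a) c
    rw [evi_uq, uq_eq_zero.2 (Eventually.of_forall fun t => hGx' t a), map_zero] at h1
    have h2 := le_antisymm h1 zero_le
    rw [Valuation.zero_iff] at h2
    have h4 : ∀ y, evi (fun y => uq K (fun t => x t y)) (pderiv y (Gp a)) *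
        uq K (fun t => T t y c) = uq K (fun t => evi (x t) (pderiv y (Gp a)) * T t y c) := by
      intro y
      rw [evi_uq, uq_mul]
    rw [Finset.sum_congr rfl fun y _ => h4 y, uq_sum, uq_eq_zero] at h2
    exact h2
  set δ : ℝ := ε / (r * (S.card + 1)) with hδ
  have hrR : (0 : ℝ) < r := by exact_mod_cast hr0
  have hδ0 : 0 < δ := by
    rw [hδ]
    positivity
  have hinf : ∀ᶠ t in (UU : Filter ℕ), ∀ k : Fin r, AtPl F d (x t) (T t) (finf t k).1 (δ * L t) := by
    refine eventually_all.2 fun k => ?_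
    have hres := res_inf (K := K) b hb (fun t => finf t k)
    exact atpl_ev hL hν hn Gp e hGh F d hFh hnc x T hGx' J0 hx0 hdet1 hres (pl_wv b hb none)
      (hder' none _ _ 1 hres) δ hδ0
  -- finite places
  have hfinx : ∀ (v : Fin s) (t : ℕ), ∃ f : Fin r → FinitePlace (K t), ∀ u : FinitePlace (K t),
      u ((b v : ℕ) : K t) < 1 ↔ ∃ i, f i = u := by
    intro v t
    have h1 := hPLC.1 (K t) (b v) (hb v)
    rw [hr t] at h1
    exact h1
  choose ffin hffin using hfinx
  have hex : ∀ (v : Fin s) (k : Fin r) (t : ℕ), ∃ e : ℕ, 1 ≤ e ∧ e ≤ r ∧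
      ∀ q : ℚ, ffin v t k (q : K t) = (padicNorm (b v) q : ℝ) ^ e := by
    intro v k t
    have h1 := hPLC.2 (K t) (b v) (hb v) (ffin v t k) ((hffin v t _).2 ⟨k, rfl⟩)
    rw [hr t] at h1
    exact h1
  choose ex hex1 hex2 hex3 using hex
  have hfin : ∀ᶠ t in (UU : Filter ℕ), ∀ (v : Fin s) (k : Fin r),
      AtPl F d (x t) (T t) (ffin v t k).1 (δ * L t) := by
    refine eventually_all.2 fun v => eventually_all.2 fun k => ?_
    have hres : Res (fun t => (ffin v t k).1) (wv b hb (some v)) (ex v k) r :=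
      { one_le := hex1 v k
        le := hex2 v k
        eq := fun t q => by
          rw [wv_some]
          exact hex3 v k t q }
    exact atpl_ev hL hν hn Gp e hGh F d hFh hnc x T hGx' J0 hx0 hdet1 hres (pl_wv b hb _)
      (hder' (some v) _ _ r hres) δ hδ0
  filter_upwards [hx0, hdet1, hgrad, hinf, hfin, L_nonneg hL] with t h1 h2 h3 h4 h5 h6
  intro AA hAA hGA
  -- integrality
  have hθI := isIntegral_theta (zs t) ia (θ t) (hθ t)
  have hzI : ∀ i, IsIntegral ℤ (zK t i) := fun i =>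
    isIntegral_algebraMap (R := ℤ) (A := K t) (x := zs t i)
  have hnI : ∀ k : ℕ, IsIntegral ℤ (k : K t) := fun k => by
    have := isIntegral_algebraMap (R := ℤ) (A := K t) (x := (k : ℤ))
    simpa using this
  have hout : ∀ v : FinitePlace (K t), v ∉ Over (K t) S → ∀ J : Fin n → Fin ν,
      v (((T t).submatrix J id).det * fpr (zK t) ia (θ t)) ≤ 1 := by
    intro v hv J
    have hmem : ∀ a : K t, IsIntegral ℤ a → a ∈ Rv v := fun a ha => int_mem_Rv v a ha
    have htqm : ∀ c i, ((tq t c i : ℚ) : K t) ∈ Rv v := by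
      intro c i
      rw [htq]
      simp only
      push_cast
      refine Subring.sum_mem _ fun j _ => Subring.mul_mem _ ?_ (intCast_mem _ _)
      exact su_mem_Rv b S hbS v hv _ (huqq j t)
    have h7 : ((T t).submatrix J id) = Matrix.of fun i c =>
        (pt (fun i => ((tq t c i : ℚ) : K t)) ic (θ t) (J i) + (Me c t : K t) * x t (J i)) +
          ptd (zK t) ic (θ t) (J i) *
            (rho (fun i => ((tq t c i : ℚ) : K t)) ia (θ t) / fpr (zK t) ia (θ t)) := by
      ext i c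
      rw [Matrix.submatrix_apply, Matrix.of_apply, hT]
      simp only [Matrix.of_apply, id]
      unfold xd
      ring
    rw [h7]
    have hθm := hmem _ hθI
    exact int_det (Rv v) (Matrix.of fun i c =>
      pt (fun i => ((tq t c i : ℚ) : K t)) ic (θ t) (J i) + (Me c t : K t) * x t (J i))
      (fun i => ptd (zK t) ic (θ t) (J i)) (fun c => rho (fun i => ((tq t c i : ℚ) : K t)) ia (θ t))
      (fpr (zK t) ia (θ t)) (hf t)
      (fun i c => by
        rw [Matrix.of_apply, hx]
        refine Subring.add_mem _ (Subring.sum_mem _ fun i _ => Subring.mul_mem _ (htqm _ _)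
          (Subring.pow_mem _ hθm _)) (Subring.mul_mem _ (intCast_mem _ _)
            (Subring.sum_mem _ fun i _ => Subring.mul_mem _ (intCast_mem _ _)
              (Subring.pow_mem _ hθm _))))
      (fun i => Subring.sum_mem _ fun i _ => Subring.mul_mem _
        (Subring.mul_mem _ (natCast_mem _ _) (intCast_mem _ _)) (Subring.pow_mem _ hθm _))
      (fun c => Subring.sum_mem _ fun i _ => Subring.mul_mem _ (htqm _ _)
          (Subring.pow_mem _ hθm _))
      (Subring.sub_mem _ (Subring.mul_mem _ (natCast_mem _ _) (Subring.pow_mem _ hθm _))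
        (Subring.sum_mem _ fun i _ => Subring.mul_mem _
          (Subring.mul_mem _ (natCast_mem _ _) (intCast_mem _ _)) (Subring.pow_mem _ hθm _)))
  have key := hASM ν n sc g q w hν Gp F d hnc (K t) S hSp (x t) (by
      intro h0
      apply h1
      rw [h0]
      rfl) (hGx t) (T t) (by
      intro a c
      have := h3 a c
      simpa only [aeval_evi] using this) J0 h2 (fpr (zK t) ia (θ t)) (hf t) hout (δ * L t)
    (by positivity) (by
      intro v
      obtain ⟨k, rfl⟩ := hfinf t v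
      exact h4 k) (by
      rintro v ⟨p, hp, hvp⟩
      obtain ⟨v', rfl⟩ := hSb p hp
      obtain ⟨k, rfl⟩ := (hffin v' t v).1 hvp
      exact h5 v' k) AA hAA hGA
  refine key.trans (le_of_eq ?_)
  rw [hr t]
  congr 1
  rw [hδ]
  field_simp

end Pool.Agent.Y724.T4
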