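import Mathlib
import Pool.Agent.Y724.T4.SQ
import Pool.Agent.Y724.Vj.Main

/-!
# Vojta's inequality at sparse algebraic points
-/

set_option autoImplicit false

namespace Pool.Agent.Y724.T4

open MvPolynomial Filter Topology Pool.Agent.TH932.Germs Pool.Agent.TH551.SU Pool.Agent.Y724.Vj
open Pool.Agent.TH551.SU.SUI NumberField

/-- an algebraic number with integral parameters -/
structure Pt (μ : ℕ) where
  K : Type
  [fld : Field K]
  [nf : NumberField K]
  θ : K
  z : Fin μ → ℤ

attribute [instance] Pt.fld Pt.nf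

/-- `z` is a sum of `l` integer vectors of size at most `B * H(z) ^ δ` multiplied by units, outside
the index `i0` -/
def ShortZ {s μ : ℕ} (b : Fin s → ℕ) (i0 : Fin μ) (l : ℕ) (B δ : ℝ) (z : Fin μ → ℤ) : Prop :=
  ∃ (u : Fin l → ℚ) (m : Fin l → Fin μ → ℤ), (∀ j, IsSU b (u j)) ∧
    (∀ j i, |(m j i : ℝ)| ≤ B * (hh z : ℝ) ^ δ) ∧ ∀ i, i ≠ i0 → (z i : ℚ) = ∑ j, u j * m j i

variable {s sc g q w ν n μ r : ℕ}

/-- the coordinates of the point -/
def Pt.x (P : Pt μ) (ic : Fin r → Fin ν → Fin μ) : Fin ν → P.K :=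
  pt (fun i => (P.z i : P.K)) ic P.θ

/-- the derivative of the equation -/
def Pt.D (P : Pt μ) (ia : Fin r → Fin μ) : P.K := fpr (fun i => (P.z i : P.K)) ia P.θ

/-- the point is on `X` and of degree `r` -/
structure Pt.Valid (P : Pt μ) (r : ℕ) (i0 : Fin μ) (ia : Fin r → Fin μ)
    (ic : Fin r → Fin ν → Fin μ) (Gp : Fin g → MvPolynomial (Fin ν) ℤ) : Prop where
  deg : Module.finrank ℚ P.K = r
  one : P.z i0 = 1
  eq : P.θ ^ r = ∑ i : Fin r, (P.z (ia i) : P.K) * P.θ ^ (i : ℕ)
  ne : P.D ia ≠ 0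
  onX : ∀ a, aeval (P.x ic) (Gp a) = 0

/-- the inequality at the point -/
def Pt.Ineq (P : Pt μ) (n : ℕ) (S : Finset ℕ) (Gp : Fin g → MvPolynomial (Fin ν) ℤ)
    (F : Fin q → Fin w → MvPolynomial (Fin ν) ℤ) (d : Fin q → Fin w → ℕ) (ia : Fin r → Fin μ)
    (ic : Fin r → Fin ν → Fin μ) (C : ℝ) : Prop :=
  ∀ AA : Matrix (Fin ν) (Fin n) P.K, LinearIndependent P.K AA.col →
    (∀ a c, ∑ y, aeval (P.x ic) (pderiv y (Gp a)) * AA y c = 0) →
    ∑ i, (∑ v : InfinitePlace P.K, v.mult * locH (F i) (d i) (P.x ic) v.1 +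
      ∑ᶠ v ∈ Over P.K S, locH (F i) (d i) (P.x ic) v.1) +
      Height.logHeight (fun J : Fin n → Fin ν => (AA.submatrix J id).det) ≤
      n * (Height.logHeight (P.x ic) -
        ∑ᶠ v ∈ (Over P.K S)ᶜ, Real.log (⨆ i, v (P.x ic i))) + logS S (P.D ia) + C

/-- the statement for sums of `l` terms -/
def PPA (b : Fin s → ℕ) (S : Finset ℕ) (Gp : Fin g → MvPolynomial (Fin ν) ℤ)
    (F : Fin q → Fin w → MvPolynomial (Fin ν) ℤ) (d : Fin q → Fin w → ℕ) (J0 : Fin n → Fin ν)
    (i0 : Fin μ) (ia : Fin r → Fin μ) (ic : Fin r → Fin ν → Fin μ) (B ε : ℝ) (l : ℕ) : Prop :=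
  ∃ (δ : ℝ) (Ψ : MvPolynomial (Fin n) ℚ) (k : ℕ) (C : ℝ), 0 < δ ∧ Ψ ≠ 0 ∧ Ψ.IsHomogeneous k ∧
    ∀ P : Pt μ, P.Valid r i0 ia ic Gp → ShortZ b i0 l B δ P.z →
      aeval (fun i => P.x ic (J0 i)) Ψ ≠ 0 →
      P.Ineq n S Gp F d ia ic (ε * Real.log (hh P.z : ℝ) + C)

lemma one_le_hh {z : Fin μ → ℤ} {i0 : Fin μ} (h : z i0 = 1) : 1 ≤ hh z := by
  have h2 := Finset.le_sup (f := fun i => (z i).natAbs) (Finset.mem_univ i0)
  simp only [h] at h2
  exact h2

/-- products of forms -/
lemma exists_products {n : ℕ} (f : ℕ → MvPolynomial (Fin n) ℚ) (t : ℕ) :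
    ∃ (Ψ : MvPolynomial (Fin n) ℚ) (k : ℕ), Ψ ≠ 0 ∧ Ψ.IsHomogeneous k ∧
      ∀ i ≤ t, f i ≠ 0 → (∃ k, (f i).IsHomogeneous k) → f i ∣ Ψ := by
  induction t with
  | zero =>
    by_cases h : f 0 ≠ 0 ∧ ∃ k, (f 0).IsHomogeneous k
    · obtain ⟨h1, k, h2⟩ := h
      refine ⟨f 0, k, h1, h2, fun i hi _ _ => ?_⟩
      rw [Nat.le_zero.1 hi]
    · refine ⟨1, 0, one_ne_zero, isHomogeneous_one _ _, fun i hi h1 h2 => ?_⟩
      rw [Nat.le_zero.1 hi] at h1 h2
      exact absurd ⟨h1, h2⟩ h
  | succ t iht =>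
    obtain ⟨Ψ, k, h1, h2, h3⟩ := iht
    by_cases h : f (t + 1) ≠ 0 ∧ ∃ k, (f (t + 1)).IsHomogeneous k
    · obtain ⟨h4, k', h5⟩ := h
      refine ⟨Ψ * f (t + 1), k + k', mul_ne_zero h1 h4, h2.mul h5, fun i hi h6 h7 => ?_⟩
      rcases Nat.lt_or_ge i (t + 1) with h8 | h8
      · exact (h3 i (by omega) h6 h7).mul_right _
      · have : i = t + 1 := by omega
        rw [this]
        exact dvd_mul_left _ _
    · refine ⟨Ψ, k, h1, h2, fun i hi h6 h7 => ?_⟩
      rcases Nat.lt_or_ge i (t + 1) with h8 | h8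
      · exact h3 i (by omega) h6 h7
      · have : i = t + 1 := by omega
        rw [this] at h6 h7
        exact absurd ⟨h6, h7⟩ h

theorem step_PPA (hLD : S_LD) (hDER : S_DER) (hASM : S_ASM) (hPLC : S_PLC) (b : Fin s → ℕ)
    (hb : ∀ v, (b v).Prime) (hbi : Function.Injective b) (S : Finset ℕ) (hbS : ∀ v, b v ∈ S)
    (hSb : ∀ p ∈ S, ∃ v, b v = p) (hν : ν = n + sc) (hn : 0 < n)
    (Gp : Fin g → MvPolynomial (Fin ν) ℤ)
    (e : Fin g → ℕ) (hGh : ∀ a, (Gp a).IsHomogeneous (e a))
    (F : Fin q → Fin w → MvPolynomial (Fin ν) ℤ) (d : Fin q → Fin w → ℕ)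
    (hFh : ∀ i j, (F i j).IsHomogeneous (d i j)) (hnc : NCf ℂ sc Gp F) (J0 : Fin n → Fin ν)
    (i0 : Fin μ) (ia : Fin r → Fin μ) (ic : Fin r → Fin ν → Fin μ)
    (B : ℝ) (hB : 1 ≤ B) (ε : ℝ) (hε : 0 < ε) (l : ℕ)
    (ih : ∀ l' < l, PPA b S Gp F d J0 i0 ia ic B ε l') : PPA b S Gp F d J0 i0 ia ic B ε l := by
  classical
  by_contra hcon
  unfold PPA at hcon
  push Not at hcon
  have hcount : Countable (MvPolynomial (Fin n) ℚ) := by
    rw [← Cardinal.mk_le_aleph0_iff]
    refine MvPolynomial.cardinalMk_le_max.trans ?_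
    simp
  obtain ⟨f, hf⟩ := exists_surjective_nat (MvPolynomial (Fin n) ℚ)
  choose Ψ kΨ hΨ0 hΨh hΨd using exists_products f
  choose P hval hsh hΨx hviol using fun t : ℕ =>
    hcon (1 / ((t : ℝ) + 1)) (Ψ t) (kΨ t) t (by positivity) (hΨ0 t) (hΨh t)
  set K : ℕ → Type := fun t => (P t).K with hK
  set x : ∀ t, Fin ν → K t := fun t => (P t).x ic with hx
  set zs : ℕ → Fin μ → ℤ := fun t => (P t).z with hzs
  have hgen : ∀ (Φ : MvPolynomial (Fin n) ℚ) (e : ℕ), Φ.IsHomogeneous e → Φ ≠ 0 →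
      ∀ᶠ t in (UU : Filter ℕ), aeval (fun i => x t (J0 i)) Φ ≠ 0 := by
    intro Φ e' h1 h2
    obtain ⟨i, rfl⟩ := hf Φ
    filter_upwards [ev_of_atTop (eventually_ge_atTop i)] with t ht h3
    obtain ⟨Q, hQ⟩ := hΨd t i ht h2 ⟨e', h1⟩
    apply hΨx t
    rw [hQ, map_mul]
    change aeval (fun i => x t (J0 i)) (f i) * _ = 0
    rw [h3, zero_mul]
  choose uq' m hu0 hm hz using hsh
  -- the scale
  set lh : ℕ → ℝ := fun t => Real.log (hh (zs t) : ℝ) + Real.log ((t : ℝ) + 1) with hlh
  set L : ℕ → ℝ := fun t => lh t + ∑ j, eta (uq' t j) with hLdef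
  have hHpos : ∀ t, (1 : ℝ) ≤ hh (zs t) := fun t => by exact_mod_cast one_le_hh (hval t).one
  have hlH0 : ∀ t, 0 ≤ Real.log (hh (zs t) : ℝ) := fun t => Real.log_nonneg (hHpos t)
  have hlt0 : ∀ t : ℕ, 0 ≤ Real.log ((t : ℝ) + 1) := fun t =>
    Real.log_nonneg (by have : (0 : ℝ) ≤ t := Nat.cast_nonneg t; linarith)
  have hes0 : ∀ t, 0 ≤ ∑ j, eta (uq' t j) := fun t => Finset.sum_nonneg fun j _ => eta_nonneg _
  have hL : Tendsto L atTop atTop := by
    have h1 : Tendsto (fun t : ℕ => Real.log ((t : ℝ) + 1)) atTop atTop :=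
      Real.tendsto_log_atTop.comp (tendsto_atTop_add_const_right _ _ tendsto_natCast_atTop_atTop)
    refine tendsto_atTop_mono (fun t => ?_) h1
    have h2 := hlH0 t
    have h3 := hes0 t
    change Real.log ((t : ℝ) + 1) ≤ (Real.log (hh (zs t) : ℝ) + Real.log ((t : ℝ) + 1)) +
      ∑ j, eta (uq' t j)
    linarith
  -- the germs
  set U : Fin l → GG := fun j => gm (fun t => uq' t j) with hU
  have hUS : ∀ j, GSU b (U j) := fun j => ⟨_, rfl, fun t => hu0 t j⟩
  have hU0 : ∀ j, U j ≠ 0 := fun j => gsu_ne_zero hb (hUS j)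
  have heL : ∀ t j, eta (uq' t j) ≤ L t := by
    intro t j
    have h1 := Finset.single_le_sum (f := fun j => eta (uq' t j)) (fun j _ => eta_nonneg _)
      (Finset.mem_univ j)
    have h2 := hlH0 t
    have h3 := hlt0 t
    change eta (uq' t j) ≤ (Real.log (hh (zs t) : ℝ) + Real.log ((t : ℝ) + 1)) +
      ∑ j, eta (uq' t j)
    linarith
  have hbd : ∀ j, Bd L (U j) := by
    intro j
    refine ⟨fun t => (uq' t j).num, fun t => ((uq' t j).den : ℤ), 1, ?_, ?_, ?_, gm_num_den _⟩
    · refine Eventually.of_forall fun t => (num_le_eta _).trans (Real.exp_le_exp.2 ?_)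
      rw [one_mul]
      exact heL t j
    · refine Eventually.of_forall fun t => ?_
      rw [Int.cast_natCast, abs_of_nonneg (Nat.cast_nonneg _), one_mul]
      exact (den_le_eta _).trans (Real.exp_le_exp.2 (heL t j))
    · refine Eventually.of_forall fun t => ?_
      change (((uq' t j).den : ℕ) : ℤ) ≠ 0
      exact_mod_cast (uq' t j).den_ne_zero
  have hmN : ∀ j i, Negl L (fun t => m t j i) := by
    intro j i ε' hε'
    have h1 : ∀ᶠ t : ℕ in atTop, Real.log B ≤ ε' / 2 * L t := by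
      filter_upwards [hL.eventually_ge_atTop (Real.log B / (ε' / 2))] with t ht
      rw [div_le_iff₀ (by positivity)] at ht
      linarith
    have h2 : ∀ᶠ t : ℕ in atTop, 1 / ((t : ℝ) + 1) ≤ ε' / 2 := by
      have h3 : Tendsto (fun t : ℕ => 1 / ((t : ℝ) + 1)) atTop (𝓝 0) :=
        tendsto_one_div_add_atTop_nhds_zero_nat
      exact (h3.eventually (gt_mem_nhds (show (0 : ℝ) < ε' / 2 by positivity))).mono
        fun t ht => ht.le
    filter_upwards [ev_of_atTop h1, ev_of_atTop h2] with t h3 h4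
    refine (hm t j i).trans ?_
    have h5 : (hh (zs t) : ℝ) ^ (1 / ((t : ℝ) + 1)) ≤ Real.exp (ε' / 2 * L t) := by
      rw [Real.rpow_def_of_pos (lt_of_lt_of_le one_pos (hHpos t))]
      apply Real.exp_le_exp.2
      have h6 : Real.log (hh (zs t) : ℝ) ≤ L t := by
        have h7 := hlt0 t
        have h8 := hes0 t
        rw [hLdef, hlh]
        simp only
        linarith
      rw [mul_comm]
      exact mul_le_mul h4 h6 (hlH0 t) (by positivity)
    have h6 : B ≤ Real.exp (ε' / 2 * L t) := by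
      rw [← Real.exp_log (lt_of_lt_of_le one_pos hB)]
      exact Real.exp_le_exp.2 h3
    calc B * (hh (zs t) : ℝ) ^ (1 / ((t : ℝ) + 1)) ≤
        Real.exp (ε' / 2 * L t) * Real.exp (ε' / 2 * L t) :=
          mul_le_mul h6 h5 (Real.rpow_nonneg (Nat.cast_nonneg _) _) (Real.exp_pos _).le
      _ = Real.exp (ε' * L t) := by rw [← Real.exp_add]; ring_nf
  have hNK : ∀ m' : ℕ → ℤ, Negl L m' → gm (fun t => (m' t : ℚ)) ∈ KK L hL := fun m' hm' =>
    ⟨_, _, hm', Negl.one hL, by simp, by
      congr 1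
      funext t
      simp⟩
  set V0 : Fin l → Fin μ → KK L hL := fun j i => ⟨_, hNK _ (hmN j i)⟩ with hV0
  set Z : Fin μ → GG := fun i => gm (fun t => (zs t i : ℚ)) with hZ
  have hZ0 : Z i0 = 1 := by
    rw [hZ, ← gm_one]
    simp only
    congr 1
    funext t
    have h1 : zs t i0 = 1 := (hval t).one
    rw [h1]
    simp
  have hZs : ∀ i, i ≠ i0 → Z i = ∑ j, U j * (V0 j i : GG) := by
    intro i hi
    have h1 : ∀ j, U j * (V0 j i : GG) = gm (fun t => uq' t j * m t j i) := fun j => by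
      rw [← gm_mul]
    rw [Finset.sum_congr rfl fun j _ => h1 j, gm_sum', hZ]
    simp only
    congr 1
    funext t
    exact hz t i hi
  by_cases hcase : ∃ A : ℕ, ∀ᶠ t in (UU : Filter ℕ), L t ≤ ((A : ℝ) + 1) * lh t
  · -- the main case
    obtain ⟨A, hA⟩ := hcase
    set U' : Fin (l + 1) → GG := Fin.cons 1 U with hU'
    set V' : Fin (l + 1) → Fin μ → KK L hL := Fin.cons (fun i => if i = i0 then 1 else 0)
      (fun j i => if i = i0 then 0 else V0 j i) with hV'
    have hmin : 0 < min ε 1 := lt_min hε one_pos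
    have hUS' : ∀ j, GSU b (U' j) := by
      intro j
      refine Fin.cases ?_ (fun j => ?_) j
      · rw [hU', Fin.cons_zero]
        exact ⟨fun _ => 1, gm_one.symm, fun _ => ⟨1, fun _ => 0, Or.inl rfl, by simp⟩⟩
      · rw [hU', Fin.cons_succ]
        exact hUS j
    have hbd' : ∀ j, Bd L (U' j) := by
      intro j
      refine Fin.cases ?_ (fun j => ?_) j
      · rw [hU', Fin.cons_zero]
        exact Bd.of_KK hL (KK L hL).one_mem
      · rw [hU', Fin.cons_succ]
        exact hbd j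
    have hZ' : ∀ i, gm (fun t => (zs t i : ℚ)) = ∑ j, U' j * (V' j i : GG) := by
      intro i
      rw [Fin.sum_univ_succ, hU', hV']
      simp only [Fin.cons_zero, Fin.cons_succ]
      by_cases hi : i = i0
      · rw [if_pos hi]
        have h1 : ∀ j, U j * (((if i = i0 then 0 else V0 j i : KK L hL)) : GG) = 0 := fun j => by
          rw [if_pos hi, ZeroMemClass.coe_zero, mul_zero]
        rw [Finset.sum_congr rfl fun j _ => h1 j, Finset.sum_const_zero, hi]
        change Z i0 = _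
        rw [hZ0]
        simp
      · rw [if_neg hi]
        have h1 : ∀ j, U j * (((if i = i0 then 0 else V0 j i : KK L hL)) : GG) =
            U j * (V0 j i : GG) := fun j => by rw [if_neg hi]
        rw [Finset.sum_congr rfl fun j _ => h1 j, ← hZs i hi]
        simp
        rfl
    have key := seq_alg (r := r) hLD hDER hASM hPLC b hb hbi S hbS hSb hL hν hn Gp e hGh F d hFh
      hnc K (fun t => (hval t).deg) (fun t => (P t).θ) zs i0 (fun t => (hval t).one) ia ic
      (fun t => (hval t).eq) (fun t => (hval t).ne) U' hUS' hbd' V' hZ' x (fun t y => rfl)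
      (fun t a => (hval t).onX a) J0 hgen (min ε 1 / ((A : ℝ) + 1)) (by positivity)
    obtain ⟨t, h4, h5⟩ := (key.and hA).exists
    apply hviol t
    intro AA hAA hGA
    have h6 := h4 AA hAA hGA
    have hA0 : (0 : ℝ) < (A : ℝ) + 1 := by positivity
    have h7 : min ε 1 / ((A : ℝ) + 1) * L t ≤ min ε 1 * lh t := by
      rw [div_mul_eq_mul_div, div_le_iff₀ hA0]
      have := mul_le_mul_of_nonneg_left h5 hmin.le
      linarith
    have h8 : min ε 1 * lh t ≤ ε * Real.log (hh (zs t) : ℝ) + t := by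
      rw [hlh]
      simp only
      rw [mul_add]
      have h9 : min ε 1 * Real.log (hh (zs t) : ℝ) ≤ ε * Real.log (hh (zs t) : ℝ) :=
        mul_le_mul_of_nonneg_right (min_le_left _ _) (hlH0 t)
      have h10 : min ε 1 * Real.log ((t : ℝ) + 1) ≤ 1 * Real.log ((t : ℝ) + 1) :=
        mul_le_mul_of_nonneg_right (min_le_right _ _) (hlt0 t)
      have h11 : Real.log ((t : ℝ) + 1) ≤ t := by
        have h12 : (0 : ℝ) < (t : ℝ) + 1 := by positivity
        have := Real.log_le_sub_one_of_pos h12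
        linarith
      linarith
    refine h6.trans ?_
    have h9 : min ε 1 / ((A : ℝ) + 1) * L t ≤ ε * Real.log (hh (zs t) : ℝ) + t := h7.trans h8
    exact add_le_add le_rfl h9
  · -- the size of the parameters is negligible
    push Not at hcase
    have hsmall : ∀ ε' : ℝ, 0 < ε' → ∀ᶠ t in (UU : Filter ℕ), lh t ≤ ε' * L t := by
      intro ε' hε'
      obtain ⟨A, hA⟩ := exists_nat_ge (1 / ε')
      filter_upwards [hcase A] with t ht
      have hlh0 : 0 ≤ lh t := add_nonneg (hlH0 t) (hlt0 t)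
      have h1 : 1 / ε' * lh t ≤ L t := by nlinarith
      rw [one_div, inv_mul_le_iff₀ hε'] at h1
      exact h1
    have hZK : ∀ i, Z i ∈ KK L hL := by
      intro i
      apply hNK
      intro ε' hε'
      filter_upwards [hsmall ε' hε'] with t ht
      refine (le_hh (zs t) i).trans ?_
      rw [← Real.exp_log (lt_of_lt_of_le one_pos (hHpos t))]
      apply Real.exp_le_exp.2
      have := hlt0 t
      rw [hlh] at ht
      simp only at ht
      linarith
    set J1 : Finset (Fin l) := Finset.univ.filter fun j => U j ∈ KK L hL with hJ1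
    set U' : Fin (l + 1) → GG := Fin.cons 1 U with hU'
    have hUS' : ∀ j, GSU b (U' j) := by
      intro j
      refine Fin.cases ?_ (fun j => ?_) j
      · rw [hU', Fin.cons_zero]
        exact ⟨fun _ => 1, gm_one.symm, fun _ => ⟨1, fun _ => 0, Or.inl rfl, by simp⟩⟩
      · rw [hU', Fin.cons_succ]
        exact hUS j
    have hU0' : ∀ j, U' j ≠ 0 := fun j => gsu_ne_zero hb (hUS' j)
    have hW : ∀ i, i ≠ i0 → Z i = ∑ j ∈ J1, U j * (V0 j i : GG) := by
      intro i hi
      have h1 := CS.cs SUI.sui s b hb hbi L hL (Fin (l + 1)) Finset.univ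
        (Fin.cons (-(⟨Z i, hZK i⟩ : KK L hL)) (fun j => V0 j i)) U'
        (fun j => if U' j ∈ KK L hL then 1 else 0) (fun j _ => hUS' j) (by
          intro i' _ j _ hij
          have h2 : U' i' ∈ KK L hL ↔ U' j ∈ KK L hL := by
            constructor
            · intro h3
              have h4 := (KK L hL).div_mem h3 hij
              have h5 : U' i' / (U' i' / U' j) = U' j := by
                have := hU0' i'
                have := hU0' j
                field_simp
              rwa [h5] at h4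
            · intro h3
              have h4 := (KK L hL).mul_mem h3 hij
              have h5 : U' j * (U' i' / U' j) = U' i' := by
                have := hU0' i'
                have := hU0' j
                field_simp
              rwa [h5] at h4
          simp only [h2]) (by
          rw [Fin.sum_univ_succ]
          simp only [hU', Fin.cons_zero, Fin.cons_succ]
          rw [mul_one, NegMemClass.coe_neg]
          have h2 : ∑ j, (V0 j i : GG) * U j = Z i := by
            rw [hZs i hi]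
            exact Finset.sum_congr rfl fun j _ => mul_comm _ _
          rw [h2]
          exact neg_add_cancel _)
      have h3 := congrArg (fun p => Polynomial.coeff p 1) h1
      simp only [Polynomial.finsetSum_coeff, Polynomial.coeff_zero,
        Polynomial.coeff_C_mul_X_pow] at h3
      rw [Fin.sum_univ_succ] at h3
      simp only [hU', Fin.cons_zero, Fin.cons_succ] at h3
      rw [if_pos (KK L hL).one_mem, if_pos rfl, mul_one, NegMemClass.coe_neg] at h3
      have h4 : ∀ j, (if 1 = (if U j ∈ KK L hL then 1 else 0) then (V0 j i : GG) * U j else 0) =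
          if U j ∈ KK L hL then U j * (V0 j i : GG) else 0 := by
        intro j
        by_cases h5 : U j ∈ KK L hL
        · rw [if_pos h5, if_pos rfl, if_pos h5, mul_comm]
        · rw [if_neg h5, if_neg h5, if_neg one_ne_zero]
      rw [Finset.sum_congr rfl fun j _ => h4 j, ← Finset.sum_filter] at h3
      have h5 : -(Z i) + ∑ j ∈ J1, U j * (V0 j i : GG) = 0 := h3
      linear_combination -h5
    -- the class is proper
    have hcard : J1.card < l := by
      by_contra hge
      have h1 : J1 = Finset.univ := by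
        apply Finset.eq_univ_of_card
        have := J1.card_le_univ
        rw [Fintype.card_fin] at this ⊢
        omega
      have h3 : ∀ j, U j ∈ KK L hL := by
        intro j
        have : j ∈ J1 := by rw [h1]; exact Finset.mem_univ _
        exact (Finset.mem_filter.1 this).2
      have h4 : ∀ ε' : ℝ, 0 < ε' → ∀ᶠ t in (UU : Filter ℕ), ∀ j, eta (uq' t j) ≤ ε' * L t := by
        intro ε' hε'
        refine eventually_all.2 fun j => ?_
        obtain ⟨h5, h6⟩ := (mem_KK_iff hL _).1 (h3 j)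
        filter_upwards [h5 ε' hε', h6 ε' hε', L_nonneg hL] with t h7 h8 h9
        unfold eta
        rw [Int.cast_natCast, abs_of_nonneg (Nat.cast_nonneg _)] at h8
        have h10 : (1 : ℝ) ≤ (uq' t j).den := by exact_mod_cast (uq' t j).pos
        have h11 : 0 < max |((uq' t j).num : ℝ)| ((uq' t j).den : ℝ) :=
          lt_of_lt_of_le one_pos (le_max_of_le_right h10)
        rw [Real.log_le_iff_le_exp h11]
        exact max_le h7 h8
      have hr0 : (0 : ℝ) < (l : ℝ) + 1 := by positivity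
      obtain ⟨t, h5, h6, h7⟩ := ((hsmall (1 / 4) (by norm_num)).and
        ((h4 (1 / (4 * ((l : ℝ) + 1))) (by positivity)).and
          (ev_of_atTop (hL.eventually_gt_atTop 0)))).exists
      have h8 : ∑ j, eta (uq' t j) ≤ (l : ℝ) * (1 / (4 * ((l : ℝ) + 1)) * L t) := by
        refine (Finset.sum_le_sum fun j _ => h6 j).trans (le_of_eq ?_)
        rw [Finset.sum_const, Finset.card_univ, Fintype.card_fin, nsmul_eq_mul]
      have h9 : (l : ℝ) * (1 / (4 * ((l : ℝ) + 1)) * L t) ≤
          ((l : ℝ) + 1) * (1 / (4 * ((l : ℝ) + 1)) * L t) :=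
        mul_le_mul_of_nonneg_right (by linarith) (by positivity)
      have h9' : ((l : ℝ) + 1) * (1 / (4 * ((l : ℝ) + 1)) * L t) = 1 / 4 * L t := by
        field_simp
      have h10 : L t = lh t + ∑ j, eta (uq' t j) := rfl
      rw [h9'] at h9
      linarith
    -- the shorter sum
    obtain ⟨δ', Ψ', k', C', hδ', hΨ'0, hΨ'h, hPP⟩ := ih J1.card hcard
    have hrep : ∀ᶠ t in (UU : Filter ℕ), ∀ i, i ≠ i0 →
        (zs t i : ℚ) = ∑ j ∈ J1, uq' t j * m t j i := by
      refine eventually_all.2 fun i => ?_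
      by_cases hi : i = i0
      · exact Eventually.of_forall fun t h => absurd hi h
      have h1 := hW i hi
      have h2 : ∀ j, U j * (V0 j i : GG) = gm (fun t => uq' t j * m t j i) := fun j => by
        rw [← gm_mul]
      rw [Finset.sum_congr rfl fun j _ => h2 j, gm_sum', hZ] at h1
      simp only at h1
      rw [gm_eq] at h1
      filter_upwards [h1] with t ht _
      exact ht
    have hδt : ∀ᶠ t : ℕ in (UU : Filter ℕ), 1 / ((t : ℝ) + 1) ≤ δ' := by
      apply ev_of_atTop
      have h3 : Tendsto (fun t : ℕ => 1 / ((t : ℝ) + 1)) atTop (𝓝 0) :=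
        tendsto_one_div_add_atTop_nhds_zero_nat
      exact (h3.eventually (gt_mem_nhds hδ')).mono fun t ht => ht.le
    have hCt : ∀ᶠ t : ℕ in (UU : Filter ℕ), C' ≤ t :=
      ev_of_atTop (tendsto_natCast_atTop_atTop.eventually_ge_atTop C')
    obtain ⟨t, h1, h3, h4, h5⟩ := (hrep.and (hδt.and (hCt.and
      (hgen Ψ' k' hΨ'h hΨ'0)))).exists
    apply hviol t
    have h6 : ShortZ b i0 J1.card B δ' (zs t) := by
      let eJ := (J1.equivFin).symm
      refine ⟨fun i => uq' t (eJ i), fun i => m t (eJ i), fun i => hu0 t _, ?_, ?_⟩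
      · intro i y
        refine (hm t (eJ i) y).trans ?_
        refine mul_le_mul_of_nonneg_left ?_ (by linarith)
        exact Real.rpow_le_rpow_of_exponent_le (hHpos t) h3
      · intro i hi
        rw [h1 i hi, ← Finset.sum_coe_sort J1 (fun j => uq' t j * (m t j i : ℚ)),
          ← Equiv.sum_comp eJ]
    have h7 := hPP (P t) (hval t) h6 h5
    intro AA hAA hGA
    have h8 := h7 AA hAA hGA
    refine h8.trans ?_
    exact add_le_add le_rfl (add_le_add le_rfl h4)

/-- the statement for all numbers of terms -/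
theorem all_PPA (hLD : S_LD) (hDER : S_DER) (hASM : S_ASM) (hPLC : S_PLC) (b : Fin s → ℕ)
    (hb : ∀ v, (b v).Prime) (hbi : Function.Injective b) (S : Finset ℕ) (hbS : ∀ v, b v ∈ S)
    (hSb : ∀ p ∈ S, ∃ v, b v = p) (hν : ν = n + sc) (hn : 0 < n)
    (Gp : Fin g → MvPolynomial (Fin ν) ℤ)
    (e : Fin g → ℕ) (hGh : ∀ a, (Gp a).IsHomogeneous (e a))
    (F : Fin q → Fin w → MvPolynomial (Fin ν) ℤ) (d : Fin q → Fin w → ℕ)
    (hFh : ∀ i j, (F i j).IsHomogeneous (d i j)) (hnc : NCf ℂ sc Gp F) (J0 : Fin n → Fin ν)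
    (i0 : Fin μ) (ia : Fin r → Fin μ) (ic : Fin r → Fin ν → Fin μ)
    (B : ℝ) (hB : 1 ≤ B) (ε : ℝ) (hε : 0 < ε) (l : ℕ) : PPA b S Gp F d J0 i0 ia ic B ε l := by
  induction l using Nat.strong_induction_on with
  | _ l ih =>
    exact step_PPA hLD hDER hASM hPLC b hb hbi S hbS hSb hν hn Gp e hGh F d hFh hnc J0 i0 ia ic
      B hB ε hε l ih

end Pool.Agent.Y724.T4
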