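import Mathlib
import Pool.Agent.Y724.T4.AM

/-!
# From sequences to uniform statements: an abstract form
-/

set_option autoImplicit false

namespace Pool.Agent.Y724.T4

open MvPolynomial Filter Topology Pool.Agent.TH932.Germs Pool.Agent.TH551.SU Pool.Agent.Y724.Vj
open Pool.Agent.TH551.SU.SUI

/-- the size of a rational vector -/
def hq {μ : ℕ} (z : Fin μ → ℚ) : ℕ :=
  max 1 (Finset.univ.sup (fun i => max (z i).num.natAbs (z i).den))

lemma one_le_hq {μ : ℕ} (z : Fin μ → ℚ) : 1 ≤ hq z := le_max_left _ _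

lemma num_le_hq {μ : ℕ} (z : Fin μ → ℚ) (i : Fin μ) : |((z i).num : ℝ)| ≤ hq z := by
  have h1 := Finset.le_sup (f := fun i => max (z i).num.natAbs (z i).den) (Finset.mem_univ i)
  have h2 : (z i).num.natAbs ≤ hq z := (le_max_left _ _).trans (h1.trans (le_max_right _ _))
  rw [← Int.cast_abs, Int.abs_eq_natAbs, Int.cast_natCast]
  exact_mod_cast h2

lemma den_le_hq {μ : ℕ} (z : Fin μ → ℚ) (i : Fin μ) : ((z i).den : ℝ) ≤ hq z := by
  have h1 := Finset.le_sup (f := fun i => max (z i).num.natAbs (z i).den) (Finset.mem_univ i)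
  have h2 : (z i).den ≤ hq z := (le_max_right _ _).trans (h1.trans (le_max_right _ _))
  exact_mod_cast h2

/-- `z` is a sum of `l` integer vectors of size at most `B * H(z) ^ δ` multiplied by units -/
def ShortQ {s μ : ℕ} (b : Fin s → ℕ) (l : ℕ) (B δ : ℝ) (z : Fin μ → ℚ) : Prop :=
  ∃ (u : Fin l → ℚ) (m : Fin l → Fin μ → ℤ), (∀ j, IsSU b (u j)) ∧
    (∀ j i, |(m j i : ℝ)| ≤ B * (hq z : ℝ) ^ δ) ∧ ∀ i, z i = ∑ j, u j * m j i

universe uu

variable {Q : Type uu} {s n μ : ℕ}

/-- the inequality along sequences -/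
def SeqIneq (b : Fin s → ℕ) (z : Q → Fin μ → ℚ) (NV : Q → MvPolynomial (Fin n) ℚ → Prop)
    (I : Q → ℝ → Prop) : Prop :=
  ∀ (l : ℕ) (L : ℕ → ℝ) (hL : Tendsto L atTop atTop) (P : ℕ → Q) (U : Fin l → GG),
    (∀ j, GSU b (U j)) → (∀ j, Bd L (U j)) →
    ∀ V : Fin l → Fin μ → KK L hL,
    (∀ i, gm (fun t => z (P t) i) = ∑ j, U j * (V j i : GG)) →
    (∀ (Φ : MvPolynomial (Fin n) ℚ) (e : ℕ), Φ.IsHomogeneous e → Φ ≠ 0 →
      ∀ᶠ t in (UU : Filter ℕ), NV (P t) Φ) →
    ∀ ε : ℝ, 0 < ε → ∀ᶠ t in (UU : Filter ℕ), I (P t) (ε * L t)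

/-- the uniform statement for sums of `l` terms -/
def PPB (b : Fin s → ℕ) (z : Q → Fin μ → ℚ) (NV : Q → MvPolynomial (Fin n) ℚ → Prop)
    (I : Q → ℝ → Prop) (B ε : ℝ) (l : ℕ) : Prop :=
  ∃ (δ : ℝ) (Ψ : MvPolynomial (Fin n) ℚ) (k : ℕ) (C : ℝ), 0 < δ ∧ Ψ ≠ 0 ∧ Ψ.IsHomogeneous k ∧
    ∀ P : Q, ShortQ b l B δ (z P) → NV P Ψ → I P (ε * Real.log (hq (z P) : ℝ) + C)

theorem step_PPB (b : Fin s → ℕ) (hb : ∀ v, (b v).Prime) (hbi : Function.Injective b)
    (z : Q → Fin μ → ℚ) (NV : Q → MvPolynomial (Fin n) ℚ → Prop) (I : Q → ℝ → Prop)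
    (hI : ∀ P a a', a ≤ a' → I P a → I P a')
    (hNV : ∀ P Φ Φ', NV P (Φ * Φ') → NV P Φ) (hseq : SeqIneq b z NV I)
    (B : ℝ) (hB : 1 ≤ B) (ε : ℝ) (hε : 0 < ε) (l : ℕ)
    (ih : ∀ l' < l, PPB b z NV I B ε l') : PPB b z NV I B ε l := by
  classical
  by_contra hcon
  unfold PPB at hcon
  push Not at hcon
  have hcount : Countable (MvPolynomial (Fin n) ℚ) := by
    rw [← Cardinal.mk_le_aleph0_iff]
    refine MvPolynomial.cardinalMk_le_max.trans ?_
    simp
  obtain ⟨f, hf⟩ := exists_surjective_nat (MvPolynomial (Fin n) ℚ)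
  choose Ψ kΨ hΨ0 hΨh hΨd using exists_products f
  choose P hsh hΨx hviol using fun t : ℕ =>
    hcon (1 / ((t : ℝ) + 1)) (Ψ t) (kΨ t) t (by positivity) (hΨ0 t) (hΨh t)
  set zs : ℕ → Fin μ → ℚ := fun t => z (P t) with hzs
  have hgen : ∀ (Φ : MvPolynomial (Fin n) ℚ) (e : ℕ), Φ.IsHomogeneous e → Φ ≠ 0 →
      ∀ᶠ t in (UU : Filter ℕ), NV (P t) Φ := by
    intro Φ e' h1 h2
    obtain ⟨i, rfl⟩ := hf Φ
    filter_upwards [ev_of_atTop (eventually_ge_atTop i)] with t ht
    obtain ⟨Q', hQ⟩ := hΨd t i ht h2 ⟨e', h1⟩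
    refine hNV (P t) (f i) Q' ?_
    rw [← hQ]
    exact hΨx t
  choose uq' m hu0 hm hz using hsh
  -- the scale
  set lh : ℕ → ℝ := fun t => Real.log (hq (zs t) : ℝ) + Real.log ((t : ℝ) + 1) with hlh
  set L : ℕ → ℝ := fun t => lh t + ∑ j, eta (uq' t j) with hLdef
  have hHpos : ∀ t, (1 : ℝ) ≤ hq (zs t) := fun t => by exact_mod_cast one_le_hq _
  have hlH0 : ∀ t, 0 ≤ Real.log (hq (zs t) : ℝ) := fun t => Real.log_nonneg (hHpos t)
  have hlt0 : ∀ t : ℕ, 0 ≤ Real.log ((t : ℝ) + 1) := fun t =>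
    Real.log_nonneg (by have : (0 : ℝ) ≤ t := Nat.cast_nonneg t; linarith)
  have hes0 : ∀ t, 0 ≤ ∑ j, eta (uq' t j) := fun t => Finset.sum_nonneg fun j _ => eta_nonneg _
  have hL : Tendsto L atTop atTop := by
    have h1 : Tendsto (fun t : ℕ => Real.log ((t : ℝ) + 1)) atTop atTop :=
      Real.tendsto_log_atTop.comp (tendsto_atTop_add_const_right _ _ tendsto_natCast_atTop_atTop)
    refine tendsto_atTop_mono (fun t => ?_) h1
    have h2 := hlH0 t
    have h3 := hes0 t
    change Real.log ((t : ℝ) + 1) ≤ (Real.log (hq (zs t) : ℝ) + Real.log ((t : ℝ) + 1)) +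
      ∑ j, eta (uq' t j)
    linarith
  -- the germs
  set U : Fin l → GG := fun j => gm (fun t => uq' t j) with hU
  have hUS : ∀ j, GSU b (U j) := fun j => ⟨_, rfl, fun t => hu0 t j⟩
  have hU0 : ∀ j, U j ≠ 0 := fun j => gsu_ne_zero hb (hUS j)
  have heL : ∀ t j, eta (uq' t j) ≤ L t := by
    intro t j
    have h1 := Finset.single_le_sum (f := fun j => eta (uq' t j)) (fun j _ => eta_nonneg _)
      (Finset.mem_univ j)
    have h2 := hlH0 t
    have h3 := hlt0 t
    change eta (uq' t j) ≤ (Real.log (hq (zs t) : ℝ) + Real.log ((t : ℝ) + 1)) +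
      ∑ j, eta (uq' t j)
    linarith
  have hbd : ∀ j, Bd L (U j) := by
    intro j
    refine ⟨fun t => (uq' t j).num, fun t => ((uq' t j).den : ℤ), 1, ?_, ?_, ?_, gm_num_den _⟩
    · refine Eventually.of_forall fun t => (num_le_eta _).trans (Real.exp_le_exp.2 ?_)
      rw [one_mul]
      exact heL t j
    · refine Eventually.of_forall fun t => ?_
      rw [Int.cast_natCast, abs_of_nonneg (Nat.cast_nonneg _), one_mul]
      exact (den_le_eta _).trans (Real.exp_le_exp.2 (heL t j))
    · refine Eventually.of_forall fun t => ?_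
      change (((uq' t j).den : ℕ) : ℤ) ≠ 0
      exact_mod_cast (uq' t j).den_ne_zero
  have hmN : ∀ j i, Negl L (fun t => m t j i) := by
    intro j i ε' hε'
    have h1 : ∀ᶠ t : ℕ in atTop, Real.log B ≤ ε' / 2 * L t := by
      filter_upwards [hL.eventually_ge_atTop (Real.log B / (ε' / 2))] with t ht
      rw [div_le_iff₀ (by positivity)] at ht
      linarith
    have h2 : ∀ᶠ t : ℕ in atTop, 1 / ((t : ℝ) + 1) ≤ ε' / 2 := by
      have h3 : Tendsto (fun t : ℕ => 1 / ((t : ℝ) + 1)) atTop (𝓝 0) :=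
        tendsto_one_div_add_atTop_nhds_zero_nat
      exact (h3.eventually (gt_mem_nhds (show (0 : ℝ) < ε' / 2 by positivity))).mono
        fun t ht => ht.le
    filter_upwards [ev_of_atTop h1, ev_of_atTop h2] with t h3 h4
    refine (hm t j i).trans ?_
    have h5 : (hq (zs t) : ℝ) ^ (1 / ((t : ℝ) + 1)) ≤ Real.exp (ε' / 2 * L t) := by
      rw [Real.rpow_def_of_pos (lt_of_lt_of_le one_pos (hHpos t))]
      apply Real.exp_le_exp.2
      have h6 : Real.log (hq (zs t) : ℝ) ≤ L t := by
        have h7 := hlt0 t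
        have h8 := hes0 t
        rw [hLdef, hlh]
        simp only
        linarith
      rw [mul_comm]
      exact mul_le_mul h4 h6 (hlH0 t) (by positivity)
    have h6 : B ≤ Real.exp (ε' / 2 * L t) := by
      rw [← Real.exp_log (lt_of_lt_of_le one_pos hB)]
      exact Real.exp_le_exp.2 h3
    calc B * (hq (zs t) : ℝ) ^ (1 / ((t : ℝ) + 1)) ≤
        Real.exp (ε' / 2 * L t) * Real.exp (ε' / 2 * L t) :=
          mul_le_mul h6 h5 (Real.rpow_nonneg (Nat.cast_nonneg _) _) (Real.exp_pos _).le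
      _ = Real.exp (ε' * L t) := by rw [← Real.exp_add]; ring_nf
  have hNK : ∀ m' : ℕ → ℤ, Negl L m' → gm (fun t => (m' t : ℚ)) ∈ KK L hL := fun m' hm' =>
    ⟨_, _, hm', Negl.one hL, by simp, by
      congr 1
      funext t
      simp⟩
  set V0 : Fin l → Fin μ → KK L hL := fun j i => ⟨_, hNK _ (hmN j i)⟩ with hV0
  set Z : Fin μ → GG := fun i => gm (fun t => zs t i) with hZ
  have hZs : ∀ i, Z i = ∑ j, U j * (V0 j i : GG) := by
    intro i
    have h1 : ∀ j, U j * (V0 j i : GG) = gm (fun t => uq' t j * m t j i) := fun j => by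
      rw [← gm_mul]
    rw [Finset.sum_congr rfl fun j _ => h1 j, gm_sum', hZ]
    simp only
    congr 1
    funext t
    exact hz t i
  by_cases hcase : ∃ A : ℕ, ∀ᶠ t in (UU : Filter ℕ), L t ≤ ((A : ℝ) + 1) * lh t
  · -- the main case
    obtain ⟨A, hA⟩ := hcase
    have hmin : 0 < min ε 1 := lt_min hε one_pos
    have key := hseq l L hL P U hUS hbd V0 hZs hgen (min ε 1 / ((A : ℝ) + 1)) (by positivity)
    obtain ⟨t, h4, h5⟩ := (key.and hA).exists
    apply hviol t
    refine hI _ _ _ ?_ h4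
    have hA0 : (0 : ℝ) < (A : ℝ) + 1 := by positivity
    have h7 : min ε 1 / ((A : ℝ) + 1) * L t ≤ min ε 1 * lh t := by
      rw [div_mul_eq_mul_div, div_le_iff₀ hA0]
      have := mul_le_mul_of_nonneg_left h5 hmin.le
      linarith
    have h8 : min ε 1 * lh t ≤ ε * Real.log (hq (zs t) : ℝ) + t := by
      rw [hlh]
      simp only
      rw [mul_add]
      have h9 : min ε 1 * Real.log (hq (zs t) : ℝ) ≤ ε * Real.log (hq (zs t) : ℝ) :=
        mul_le_mul_of_nonneg_right (min_le_left _ _) (hlH0 t)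
      have h10 : min ε 1 * Real.log ((t : ℝ) + 1) ≤ 1 * Real.log ((t : ℝ) + 1) :=
        mul_le_mul_of_nonneg_right (min_le_right _ _) (hlt0 t)
      have h11 : Real.log ((t : ℝ) + 1) ≤ t := by
        have h12 : (0 : ℝ) < (t : ℝ) + 1 := by positivity
        have := Real.log_le_sub_one_of_pos h12
        linarith
      linarith
    exact h7.trans h8
  · -- the size of the parameters is negligible
    push Not at hcase
    have hsmall : ∀ ε' : ℝ, 0 < ε' → ∀ᶠ t in (UU : Filter ℕ), lh t ≤ ε' * L t := by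
      intro ε' hε'
      obtain ⟨A, hA⟩ := exists_nat_ge (1 / ε')
      filter_upwards [hcase A] with t ht
      have hlh0 : 0 ≤ lh t := add_nonneg (hlH0 t) (hlt0 t)
      have h1 : 1 / ε' * lh t ≤ L t := by nlinarith
      rw [one_div, inv_mul_le_iff₀ hε'] at h1
      exact h1
    have hqs : ∀ ε' : ℝ, 0 < ε' → ∀ᶠ t in (UU : Filter ℕ), (hq (zs t) : ℝ) ≤
        Real.exp (ε' * L t) := by
      intro ε' hε'
      filter_upwards [hsmall ε' hε'] with t ht
      rw [← Real.exp_log (lt_of_lt_of_le one_pos (hHpos t))]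
      apply Real.exp_le_exp.2
      have := hlt0 t
      rw [hlh] at ht
      simp only at ht
      linarith
    have hZK : ∀ i, Z i ∈ KK L hL := by
      intro i
      refine ⟨fun t => (zs t i).num, fun t => ((zs t i).den : ℤ), fun ε' hε' => ?_,
        fun ε' hε' => ?_, Eventually.of_forall fun t => ?_, gm_num_den _⟩
      · filter_upwards [hqs ε' hε'] with t ht
        exact (num_le_hq (zs t) i).trans ht
      · filter_upwards [hqs ε' hε'] with t ht
        rw [Int.cast_natCast, abs_of_nonneg (Nat.cast_nonneg _)]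
        exact (den_le_hq (zs t) i).trans ht
      · change (((zs t i).den : ℕ) : ℤ) ≠ 0
        exact_mod_cast (zs t i).den_ne_zero
    set J1 : Finset (Fin l) := Finset.univ.filter fun j => U j ∈ KK L hL with hJ1
    set U' : Fin (l + 1) → GG := Fin.cons 1 U with hU'
    have hUS' : ∀ j, GSU b (U' j) := by
      intro j
      refine Fin.cases ?_ (fun j => ?_) j
      · rw [hU', Fin.cons_zero]
        exact ⟨fun _ => 1, gm_one.symm, fun _ => ⟨1, fun _ => 0, Or.inl rfl, by simp⟩⟩
      · rw [hU', Fin.cons_succ]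
        exact hUS j
    have hU0' : ∀ j, U' j ≠ 0 := fun j => gsu_ne_zero hb (hUS' j)
    have hW : ∀ i, Z i = ∑ j ∈ J1, U j * (V0 j i : GG) := by
      intro i
      have h1 := CS.cs SUI.sui s b hb hbi L hL (Fin (l + 1)) Finset.univ
        (Fin.cons (-(⟨Z i, hZK i⟩ : KK L hL)) (fun j => V0 j i)) U'
        (fun j => if U' j ∈ KK L hL then 1 else 0) (fun j _ => hUS' j) (by
          intro i' _ j _ hij
          have h2 : U' i' ∈ KK L hL ↔ U' j ∈ KK L hL := by
            constructor
            · intro h3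
              have h4 := (KK L hL).div_mem h3 hij
              have h5 : U' i' / (U' i' / U' j) = U' j := by
                have := hU0' i'
                have := hU0' j
                field_simp
              rwa [h5] at h4
            · intro h3
              have h4 := (KK L hL).mul_mem h3 hij
              have h5 : U' j * (U' i' / U' j) = U' i' := by
                have := hU0' i'
                have := hU0' j
                field_simp
              rwa [h5] at h4
          simp only [h2]) (by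
          rw [Fin.sum_univ_succ]
          simp only [hU', Fin.cons_zero, Fin.cons_succ]
          rw [mul_one, NegMemClass.coe_neg]
          have h2 : ∑ j, (V0 j i : GG) * U j = Z i := by
            rw [hZs i]
            exact Finset.sum_congr rfl fun j _ => mul_comm _ _
          rw [h2]
          exact neg_add_cancel _)
      have h3 := congrArg (fun p => Polynomial.coeff p 1) h1
      simp only [Polynomial.finsetSum_coeff, Polynomial.coeff_zero,
        Polynomial.coeff_C_mul_X_pow] at h3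
      rw [Fin.sum_univ_succ] at h3
      simp only [hU', Fin.cons_zero, Fin.cons_succ] at h3
      rw [if_pos (KK L hL).one_mem, if_pos rfl, mul_one, NegMemClass.coe_neg] at h3
      have h4 : ∀ j, (if 1 = (if U j ∈ KK L hL then 1 else 0) then (V0 j i : GG) * U j else 0) =
          if U j ∈ KK L hL then U j * (V0 j i : GG) else 0 := by
        intro j
        by_cases h5 : U j ∈ KK L hL
        · rw [if_pos h5, if_pos rfl, if_pos h5, mul_comm]
        · rw [if_neg h5, if_neg h5, if_neg one_ne_zero]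
      rw [Finset.sum_congr rfl fun j _ => h4 j, ← Finset.sum_filter] at h3
      have h5 : -(Z i) + ∑ j ∈ J1, U j * (V0 j i : GG) = 0 := h3
      linear_combination -h5
    -- the class is proper
    have hcard : J1.card < l := by
      by_contra hge
      have h1 : J1 = Finset.univ := by
        apply Finset.eq_univ_of_card
        have := J1.card_le_univ
        rw [Fintype.card_fin] at this ⊢
        omega
      have h3 : ∀ j, U j ∈ KK L hL := by
        intro j
        have : j ∈ J1 := by rw [h1]; exact Finset.mem_univ _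
        exact (Finset.mem_filter.1 this).2
      have h4 : ∀ ε' : ℝ, 0 < ε' → ∀ᶠ t in (UU : Filter ℕ), ∀ j, eta (uq' t j) ≤ ε' * L t := by
        intro ε' hε'
        refine eventually_all.2 fun j => ?_
        obtain ⟨h5, h6⟩ := (mem_KK_iff hL _).1 (h3 j)
        filter_upwards [h5 ε' hε', h6 ε' hε', L_nonneg hL] with t h7 h8 h9
        unfold eta
        rw [Int.cast_natCast, abs_of_nonneg (Nat.cast_nonneg _)] at h8
        have h10 : (1 : ℝ) ≤ (uq' t j).den := by exact_mod_cast (uq' t j).pos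
        have h11 : 0 < max |((uq' t j).num : ℝ)| ((uq' t j).den : ℝ) :=
          lt_of_lt_of_le one_pos (le_max_of_le_right h10)
        rw [Real.log_le_iff_le_exp h11]
        exact max_le h7 h8
      have hr0 : (0 : ℝ) < (l : ℝ) + 1 := by positivity
      obtain ⟨t, h5, h6, h7⟩ := ((hsmall (1 / 4) (by norm_num)).and
        ((h4 (1 / (4 * ((l : ℝ) + 1))) (by positivity)).and
          (ev_of_atTop (hL.eventually_gt_atTop 0)))).exists
      have h8 : ∑ j, eta (uq' t j) ≤ (l : ℝ) * (1 / (4 * ((l : ℝ) + 1)) * L t) := by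
        refine (Finset.sum_le_sum fun j _ => h6 j).trans (le_of_eq ?_)
        rw [Finset.sum_const, Finset.card_univ, Fintype.card_fin, nsmul_eq_mul]
      have h9 : (l : ℝ) * (1 / (4 * ((l : ℝ) + 1)) * L t) ≤
          ((l : ℝ) + 1) * (1 / (4 * ((l : ℝ) + 1)) * L t) :=
        mul_le_mul_of_nonneg_right (by linarith) (by positivity)
      have h9' : ((l : ℝ) + 1) * (1 / (4 * ((l : ℝ) + 1)) * L t) = 1 / 4 * L t := by
        field_simp
      have h10 : L t = lh t + ∑ j, eta (uq' t j) := rfl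
      rw [h9'] at h9
      linarith
    -- the shorter sum
    obtain ⟨δ', Ψ', k', C', hδ', hΨ'0, hΨ'h, hPP⟩ := ih J1.card hcard
    have hrep : ∀ᶠ t in (UU : Filter ℕ), ∀ i, zs t i = ∑ j ∈ J1, uq' t j * m t j i := by
      refine eventually_all.2 fun i => ?_
      have h1 := hW i
      have h2 : ∀ j, U j * (V0 j i : GG) = gm (fun t => uq' t j * m t j i) := fun j => by
        rw [← gm_mul]
      rw [Finset.sum_congr rfl fun j _ => h2 j, gm_sum', hZ] at h1
      simp only at h1
      rw [gm_eq] at h1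
      filter_upwards [h1] with t ht
      exact ht
    have hδt : ∀ᶠ t : ℕ in (UU : Filter ℕ), 1 / ((t : ℝ) + 1) ≤ δ' := by
      apply ev_of_atTop
      have h3 : Tendsto (fun t : ℕ => 1 / ((t : ℝ) + 1)) atTop (𝓝 0) :=
        tendsto_one_div_add_atTop_nhds_zero_nat
      exact (h3.eventually (gt_mem_nhds hδ')).mono fun t ht => ht.le
    have hCt : ∀ᶠ t : ℕ in (UU : Filter ℕ), C' ≤ t :=
      ev_of_atTop (tendsto_natCast_atTop_atTop.eventually_ge_atTop C')
    obtain ⟨t, h1, h3, h4, h5⟩ := (hrep.and (hδt.and (hCt.and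
      (hgen Ψ' k' hΨ'h hΨ'0)))).exists
    apply hviol t
    have h6 : ShortQ b J1.card B δ' (zs t) := by
      let eJ := (J1.equivFin).symm
      refine ⟨fun i => uq' t (eJ i), fun i => m t (eJ i), fun i => hu0 t _, ?_, ?_⟩
      · intro i y
        refine (hm t (eJ i) y).trans ?_
        refine mul_le_mul_of_nonneg_left ?_ (by linarith)
        exact Real.rpow_le_rpow_of_exponent_le (hHpos t) h3
      · intro i
        rw [h1 i, ← Finset.sum_coe_sort J1 (fun j => uq' t j * (m t j i : ℚ)),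
          ← Equiv.sum_comp eJ]
    refine hI _ _ _ ?_ (hPP (P t) h6 h5)
    exact add_le_add le_rfl h4

/-- the uniform statement for all numbers of terms -/
theorem all_PPB (b : Fin s → ℕ) (hb : ∀ v, (b v).Prime) (hbi : Function.Injective b)
    (z : Q → Fin μ → ℚ) (NV : Q → MvPolynomial (Fin n) ℚ → Prop) (I : Q → ℝ → Prop)
    (hI : ∀ P a a', a ≤ a' → I P a → I P a')
    (hNV : ∀ P Φ Φ', NV P (Φ * Φ') → NV P Φ) (hseq : SeqIneq b z NV I)
    (B : ℝ) (hB : 1 ≤ B) (ε : ℝ) (hε : 0 < ε) (l : ℕ) : PPB b z NV I B ε l := by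
  induction l using Nat.strong_induction_on with
  | _ l ih => exact step_PPB b hb hbi z NV I hI hNV hseq B hB ε hε l ih

end Pool.Agent.Y724.T4
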