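import Mathlib
import Pool.Agent.Y724.T4.Stm2
import Pool.Agent.Y724.T4.SQa
import Pool.Agent.Y724.Vj.GTa
import Pool.Agent.Y724.Vj.Grp
import Pool.Agent.Y724.Vj.Gcd2

/-!
# From coprime multipliers to places outside `S`
-/

set_option autoImplicit false

namespace Pool.Agent.Y724.T4

open MvPolynomial NumberField Filter Topology Pool.Agent.TH932.Germs Pool.Agent.TH551.SU
open Pool.Agent.Y724.Vj Pool.Agent.TH551.SU.SUI

namespace ARIx

/-! ### one place -/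

section place
variable {F : Type} [Field F] [NumberField F]

lemma int_le (v : FinitePlace F) (m : ℤ) : v (m : F) ≤ 1 := by
  have h0 : IsIntegral ℤ ((m : ℤ) : F) := by
    have h1 := isIntegral_algebraMap (R := ℤ) (A := F) (x := m)
    rwa [eq_intCast] at h1
  exact int_mem_Rv v (m : F) h0

lemma pr_one {s : ℕ} (b : Fin s → ℕ) (S : Finset ℕ) (hbS : ∀ v, b v ∈ S)
    (v : FinitePlace F) (hv : v ∉ Over F S) (k : Fin s) : v ((b k : ℕ) : F) = 1 := by
  apply le_antisymm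
  · have h := int_le v (b k : ℤ)
    simpa using h
  · by_contra hcon
    push Not at hcon
    exact hv ⟨b k, hbS k, hcon⟩

lemma su_one {s : ℕ} (b : Fin s → ℕ) (S : Finset ℕ) (hbS : ∀ v, b v ∈ S)
    (v : FinitePlace F) (hv : v ∉ Over F S) (u : ℚ) (hu : IsSU b u) : v ((u : ℚ) : F) = 1 := by
  obtain ⟨σ, e, hσ, rfl⟩ := hu
  have h1 := pr_one b S hbS v hv
  push_cast
  rw [map_mul, map_prod]
  have h2 : ∀ k, v (((b k : ℕ) : F) ^ e k) = 1 := by
    intro k
    rw [map_zpow₀, h1, one_zpow]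
  rw [Finset.prod_congr rfl fun k _ => h2 k, Finset.prod_const_one, mul_one]
  rcases hσ with rfl | rfl
  · simp
  · simp [map_neg_eq_map]

lemma sint_le {s : ℕ} (b : Fin s → ℕ) (S : Finset ℕ) (hbS : ∀ v, b v ∈ S)
    (v : FinitePlace F) (hv : v ∉ Over F S) (q : ℚ) (e : ℤ) (k : Fin s → ℕ) (m : ℤ)
    (h : (e : ℚ) * ((∏ i, b i ^ k i : ℕ) : ℚ) * q = m) : v ((e : F) * (q : F)) ≤ 1 := by
  have h1 : ((e : F) * (q : F)) * ((∏ i, b i ^ k i : ℕ) : F) = (m : F) := by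
    have h2 : (((e : ℚ) * ((∏ i, b i ^ k i : ℕ) : ℚ) * q : ℚ) : F) = ((m : ℚ) : F) := by rw [h]
    push_cast at h2 ⊢
    rw [← h2]
    ring
  have h3 : v ((∏ i, b i ^ k i : ℕ) : F) = 1 := by
    push_cast
    rw [map_prod]
    refine Finset.prod_eq_one fun i _ => ?_
    rw [map_pow, pr_one b S hbS v hv, one_pow]
  have h4 := congrArg v h1
  rw [map_mul, h3, mul_one] at h4
  rw [h4]
  exact int_le v m

lemma sum_le {ι : Type} (v : FinitePlace F) (A : Finset ι) (f : ι → F) (M : ℝ) (hM : 0 ≤ M)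
    (h : ∀ i ∈ A, v (f i) ≤ M) : v (∑ i ∈ A, f i) ≤ M := by
  refine Finset.sum_induction f (fun x => v x ≤ M)
    (fun x y hx hy => (FinitePlace.add_le v x y).trans (max_le hx hy)) ?_ h
  rw [map_zero]
  exact hM

lemma root_le (v : FinitePlace F) (N : ℕ) (c : ℕ → F) (e ξ : F) (he : v e ≤ 1)
    (hc : ∀ l < N, v (e * c l) ≤ 1) (h : ξ ^ N + ∑ l ∈ Finset.range N, c l * ξ ^ l = 0) :
    v (e * ξ) ≤ 1 := by
  by_contra hcon
  push Not at hcon
  have hN : N ≠ 0 := by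
    rintro rfl
    simp at h
  have h1 : (e * ξ) ^ N = -∑ l ∈ Finset.range N, e ^ (N - l - 1) * (e * c l) * (e * ξ) ^ l := by
    have h2 : ξ ^ N = -∑ l ∈ Finset.range N, c l * ξ ^ l := eq_neg_of_add_eq_zero_left h
    rw [mul_pow, h2, mul_neg, Finset.mul_sum]
    congr 1
    refine Finset.sum_congr rfl fun l hl => ?_
    have h3 : N = (N - l - 1) + 1 + l := by
      have := Finset.mem_range.1 hl
      omega
    conv_lhs => rw [h3]
    rw [pow_add, pow_add, pow_one, mul_pow]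
    ring
  have h4 : v (∑ l ∈ Finset.range N, e ^ (N - l - 1) * (e * c l) * (e * ξ) ^ l) ≤
      v (e * ξ) ^ (N - 1) := by
    refine sum_le v _ _ _ (by positivity) fun l hl => ?_
    have hl' := Finset.mem_range.1 hl
    rw [map_mul, map_mul, map_pow, map_pow]
    have h5 : v e ^ (N - l - 1) ≤ 1 := pow_le_one₀ (apply_nonneg v e) he
    have h6 : v e ^ (N - l - 1) * v (e * c l) ≤ 1 :=
      mul_le_one₀ h5 (apply_nonneg v _) (hc l hl')
    calc v e ^ (N - l - 1) * v (e * c l) * v (e * ξ) ^ l ≤ 1 * v (e * ξ) ^ (N - 1) := by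
          refine mul_le_mul h6 (pow_le_pow_right₀ hcon.le (by omega)) (by positivity) zero_le_one
      _ = _ := one_mul _
  have h7 : v (e * ξ) ^ N ≤ v (e * ξ) ^ (N - 1) := by
    rw [← map_pow, h1, map_neg_eq_map]
    exact h4
  have h8 : v (e * ξ) ^ (N - 1) < v (e * ξ) ^ N := pow_lt_pow_right₀ hcon (by omega)
  linarith

end place

/-! ### denominators -/

lemma sg_den {L : ℕ → ℝ} {s : ℕ} (b : Fin s → ℕ) (hb : ∀ v, (b v).Prime) (a : ℕ → ℚ)
    (h : Sg L (∏ v, b v) (gm a)) :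
    ∃ e : ℕ → ℤ, Negl L e ∧ (∀ t, e t ≠ 0) ∧
      ∀ t, ∃ (k : Fin s → ℕ) (m : ℤ), (e t : ℚ) * ((∏ i, b i ^ k i : ℕ) : ℚ) * a t = m := by
  choose k n' h1 h2 using fun t => nat_decomp b hb (a t).den (a t).den_ne_zero
  refine ⟨fun t => (n' t : ℤ), ?_, ?_, ?_⟩
  · obtain ⟨A, hA⟩ := h
    rw [mem_SS] at hA
    intro ε hε
    filter_upwards [hA ε hε] with t ht
    obtain ⟨d, m, l, hd0, hd, he, -⟩ := ht
    have h3 : ((a t).den : ℤ) ∣ d * ((∏ v, b v : ℕ) : ℤ) ^ l := by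
      have h4 : a t = Rat.divInt m (d * ((∏ v, b v : ℕ) : ℤ) ^ l) := by
        rw [Rat.divInt_eq_div]
        have hβ : ((∏ v, b v : ℕ) : ℚ) ≠ 0 := by
          exact_mod_cast Finset.prod_ne_zero_iff.2 fun v _ => (hb v).ne_zero
        have hdq : (d : ℚ) ≠ 0 := by exact_mod_cast hd0
        rw [eq_div_iff]
        · rw [← he]
          push_cast
          ring
        · push_cast at hβ ⊢
          exact mul_ne_zero hdq (pow_ne_zero _ hβ)
      rw [h4]
      exact Rat.den_dvd _ _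
    have h5 : (n' t : ℤ) ∣ d * ((∏ v, b v : ℕ) : ℤ) ^ l := by
      refine dvd_trans ?_ h3
      rw [h1 t]
      push_cast
      exact dvd_mul_left _ _
    have h6 : IsCoprime (n' t : ℤ) (((∏ v, b v : ℕ) : ℤ) ^ l) := by
      refine IsCoprime.pow_right ?_
      rw [Nat.isCoprime_iff_coprime]
      exact Nat.Coprime.prod_right fun v _ => h2 t v
    have h7 : (n' t : ℤ) ∣ d := h6.dvd_of_dvd_mul_right h5
    refine le_trans ?_ hd
    exact abs_le_of_dvd h7 hd0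
  · intro t h0
    have h3 : n' t = 0 := by exact_mod_cast (show ((n' t : ℕ) : ℤ) = 0 from h0)
    have h4 := h1 t
    rw [h3, mul_zero] at h4
    exact (a t).den_ne_zero h4
  · intro t
    refine ⟨k t, (a t).num, ?_⟩
    have h5 : ((a t).den : ℚ) = ((∏ i, b i ^ k t i : ℕ) : ℚ) * (n' t : ℚ) := by
      exact_mod_cast h1 t
    have h6 : (((n' t : ℕ) : ℤ) : ℚ) * ((∏ i, b i ^ k t i : ℕ) : ℚ) = ((a t).den : ℚ) := by
      rw [h5]
      push_cast
      ring
    rw [h6]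
    exact Rat.den_mul_eq_num (a t)

/-! ### integral elements -/

lemma int_seq {s : ℕ} (b : Fin s → ℕ) (hb : ∀ v, (b v).Prime) (hbi : Function.Injective b)
    (S : Finset ℕ) (hbS : ∀ v, b v ∈ S) {L : ℕ → ℝ} (hL : Tendsto L atTop atTop)
    (K : ℕ → Type) [∀ t, Field (K t)] [∀ t, NumberField (K t)] {m : ℕ} (T : Fin m → ℕ → ℚ)
    (hT : ∀ k n, IsSU b (T k n)) (hTB : ∀ k, Bd L (gm (T k))) (x : ∀ t, K t)
    (hx : IsIntegral (PolR (K0 hL K) (fun k => io K (gm (T k)))) (uq K x)) :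
    ∃ E : ℕ → ℤ, Negl L E ∧ (∀ t, E t ≠ 0) ∧ ∀ᶠ t in (UU : Filter ℕ),
      ∀ v : FinitePlace (K t), v ∉ Over (K t) S → v ((E t : K t) * x t) ≤ 1 := by
  classical
  obtain ⟨P, hP, hP0⟩ := hx
  have hc : ∀ l, ∃ a : ℕ → ℚ, Sg L (∏ v, b v) (gm a) ∧
      ((P.coeff l : PolR (K0 hL K) (fun k => io K (gm (T k)))) : UP K) = io K (gm a) := by
    intro l
    obtain ⟨Q, hQ⟩ := (P.coeff l).2
    obtain ⟨q, rfl⟩ := map_surjective _ (psi_surj hL K) Q
    obtain ⟨a, ha⟩ := gm_surj (aeval (fun k => gm (T k)) q)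
    refine ⟨a, ?_, ?_⟩
    · rw [ha, aeval_def, eval₂_eq']
      refine Sg.sum hL _ _ fun e _ => (Sg.KK hL (coeff e q).2).mul (Sg.prod hL _ _ fun k _ => ?_)
      exact (Sg.of_su b hb hbi hL (hT k) (hTB k)).pow hL _
    · rw [← hQ, ha, ← aeval_psi]
      rfl
  choose a ha1 ha2 using hc
  choose e he1 he2 he3 using fun l => sg_den b hb (a l) (ha1 l)
  set N := P.natDegree with hN
  refine ⟨fun t => ∏ l ∈ Finset.range N, e l t, Negl.prod hL _ fun l _ => he1 l, ?_, ?_⟩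
  · intro t
    exact Finset.prod_ne_zero_iff.2 fun l _ => he2 l t
  have h1 : uq K (fun t => x t ^ N + ∑ l ∈ Finset.range N, ((a l t : ℚ) : K t) * x t ^ l) = 0 := by
    rw [← uq_add, ← uq_sum, ← uq_pow]
    rw [Polynomial.eval₂_eq_sum_range, Finset.sum_range_succ, add_comm] at hP0
    rw [← hN, hN, hP.coeff_natDegree, map_one, one_mul, ← hN] at hP0
    rw [← hP0]
    congr 1
    refine Finset.sum_congr rfl fun l _ => ?_
    rw [← uq_mul, ← uq_pow, ← io_gm, ← ha2]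
    rfl
  rw [uq_eq_zero] at h1
  filter_upwards [h1] with t ht v hv
  refine root_le v N (fun l => ((a l t : ℚ) : K t)) _ (x t) (int_le v _) ?_ ht
  intro l hl
  obtain ⟨k, m', hk⟩ := he3 l t
  have h2 := sint_le b S hbS v hv (a l t) (e l t) k m' hk
  have h3 : (((∏ l ∈ Finset.range N, e l t : ℤ) : K t) * ((a l t : ℚ) : K t)) =
      ((∏ l' ∈ (Finset.range N).erase l, e l' t : ℤ) : K t) *
        ((e l t : K t) * ((a l t : ℚ) : K t)) := by
    rw [← Finset.mul_prod_erase _ _ (Finset.mem_range.2 hl)]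
    push_cast
    ring
  rw [h3, map_mul]
  exact mul_le_one₀ (int_le v _) (apply_nonneg v _) h2

/-! ### division by a common divisor -/

lemma sg_div {L : ℕ → ℝ} (β : ℕ) (a : ℕ → ℚ) (D : ℕ → ℕ) (hD0 : ∀ n, D n ≠ 0)
    (hD : ∀ n, (D n : ℤ) ∣ (a n).num) (h : Sg L β (gm a)) :
    Sg L β (gm (fun n => 1 / (D n : ℚ)) * gm a) := by
  obtain ⟨A, hA⟩ := h
  rw [mem_SS] at hA
  rw [gm_mul]
  refine ⟨A, ?_⟩
  rw [mem_SS]
  intro ε hε
  filter_upwards [hA ε hε] with t ht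
  obtain ⟨d, m, l, hd0, hd, he, hl⟩ := ht
  have h3 : ((a t).num : ℚ) = ((a t).den : ℚ) * a t := (Rat.den_mul_eq_num (a t)).symm
  have h5 : d * (β : ℤ) ^ l * (a t).num = m * (a t).den := by
    have h6 : (d : ℚ) * (β : ℚ) ^ l * (a t).num = m * (a t).den := by
      rw [← he, h3]
      ring
    exact_mod_cast h6
  have h6 : (D t : ℤ) ∣ m * (a t).den := by
    rw [← h5]
    exact (hD t).mul_left _
  have h7 : IsCoprime (D t : ℤ) ((a t).den : ℤ) := by
    rw [Nat.isCoprime_iff_coprime]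
    exact Nat.Coprime.coprime_dvd_left (Int.natCast_dvd.1 (hD t)) (a t).reduced
  obtain ⟨m', hm'⟩ := h7.dvd_of_dvd_mul_right h6
  refine ⟨d, m', l, hd0, hd, ?_, hl⟩
  have h8 : (D t : ℚ) ≠ 0 := by exact_mod_cast hD0 t
  have h9 : (d : ℚ) * (β : ℚ) ^ l * (1 / (D t : ℚ) * a t) =
      ((d : ℚ) * (β : ℚ) ^ l * a t) / (D t : ℚ) := by ring
  rw [h9, he, hm']
  push_cast
  field_simp

/-! ### one index -/

section one
variable {F : Type} [Field F] [NumberField F]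

lemma mul_le_of (v : FinitePlace F) {κ : Type} [Fintype κ] [Nonempty κ] (E U q φ : F)
    (ξ ψ : κ → F) (hU : v U = 1) (hξ : ∀ j, v (E * ξ j) ≤ 1)
    (h : q * U * φ = ∑ j, ξ j * ψ j) : v (E * (q * φ)) ≤ ⨆ j, v (ψ j) := by
  have hM : ∀ j, v (ψ j) ≤ ⨆ j, v (ψ j) := fun j =>
    le_ciSup (f := fun j => v (ψ j)) (Finite.bddAbove_range _) j
  have hM0 : 0 ≤ ⨆ j, v (ψ j) := (apply_nonneg v _).trans (hM (Classical.arbitrary κ))
  have h1 : E * (q * φ) * U = ∑ j, (E * ξ j) * ψ j := by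
    have h2 : E * (q * φ) * U = E * (q * U * φ) := by ring
    rw [h2, h, Finset.mul_sum]
    exact Finset.sum_congr rfl fun j _ => by ring
  have h3 : v (E * (q * φ) * U) ≤ ⨆ j, v (ψ j) := by
    rw [h1]
    refine sum_le v _ _ _ hM0 fun j _ => ?_
    rw [map_mul]
    calc v (E * ξ j) * v (ψ j) ≤ 1 * ⨆ j, v (ψ j) :=
          mul_le_mul (hξ j) (hM j) (apply_nonneg v _) zero_le_one
      _ = _ := one_mul _
  rwa [map_mul v (E * (q * φ)) U, hU, mul_one] at h3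

lemma num_le (v : FinitePlace F) (M : ℝ) (E φ : F) (q : ℚ)
    (h : v (E * ((q : F) * φ)) ≤ M) : v ((q.num : F) * (E * φ)) ≤ M := by
  have h1 : ((q.num : ℤ) : F) = ((q.den : ℤ) : F) * (q : F) := by
    have h2 : (q.num : ℚ) = (q.den : ℚ) * q := (Rat.den_mul_eq_num q).symm
    have h3 : ((q.num : ℚ) : F) = (((q.den : ℚ) * q : ℚ) : F) := by rw [← h2]
    push_cast at h3 ⊢
    exact h3
  have h4 : ((q.num : ℤ) : F) * (E * φ) = ((q.den : ℤ) : F) * (E * ((q : F) * φ)) := by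
    rw [h1]
    ring
  rw [h4, map_mul]
  calc v ((q.den : ℤ) : F) * v (E * ((q : F) * φ)) ≤ 1 * v (E * ((q : F) * φ)) :=
        mul_le_mul_of_nonneg_right (int_le v _) (apply_nonneg v _)
    _ ≤ M := by rw [one_mul]; exact h

lemma gcd_le {s : ℕ} (b : Fin s → ℕ) (S : Finset ℕ) (hbS : ∀ v, b v ∈ S)
    (v : FinitePlace F) (hv : v ∉ Over F S) (M : ℝ) (y : F) (n1 n2 : ℤ)
    (h1 : v ((n1 : F) * y) ≤ M) (h2 : v ((n2 : F) * y) ≤ M) (k : Fin s → ℕ) (D : ℕ)
    (hD : Int.gcd n1 n2 = (∏ i, b i ^ k i) * D) : v (y * ((D : ℤ) : F)) ≤ M := by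
  have h3 : ((∏ i, b i ^ k i : ℕ) : F) * (y * ((D : ℤ) : F)) =
      ((Int.gcdA n1 n2 : ℤ) : F) * ((n1 : F) * y) + ((Int.gcdB n1 n2 : ℤ) : F) * ((n2 : F) * y) := by
    have h4 := Int.gcd_eq_gcd_ab n1 n2
    rw [hD] at h4
    have h5 : (((((∏ i, b i ^ k i) * D : ℕ) : ℤ)) : F) =
      ((n1 * Int.gcdA n1 n2 + n2 * Int.gcdB n1 n2 : ℤ) : F) := by rw [h4]
    push_cast at h5 ⊢
    calc _ = ((∏ i, (b i : F) ^ k i) * (D : F)) * y := by ring
      _ = _ := by rw [h5]; ring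
  have h6 : v ((∏ i, b i ^ k i : ℕ) : F) = 1 := by
    push_cast
    rw [map_prod]
    refine Finset.prod_eq_one fun i _ => ?_
    rw [map_pow, pr_one b S hbS v hv, one_pow]
  have h7 : v (y * ((D : ℤ) : F)) = v (((∏ i, b i ^ k i : ℕ) : F) * (y * ((D : ℤ) : F))) := by
    rw [map_mul v _ (y * ((D : ℤ) : F)), h6, one_mul]
  rw [h7, h3]
  have h8 : ∀ (a : ℤ) (z : F), v z ≤ M → v ((a : F) * z) ≤ M := by
    intro a z hz
    rw [map_mul]
    calc v (a : F) * v z ≤ 1 * v z :=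
          mul_le_mul_of_nonneg_right (int_le v _) (apply_nonneg v _)
      _ ≤ M := by rw [one_mul]; exact hz
  exact (FinitePlace.add_le v _ _).trans (max_le (h8 _ _ h1) (h8 _ _ h2))

end one

end ARIx

open ARIx in
/-- **ARI** -/
theorem ari : S_ARI := by
  intro s b hb hbi S hbS _ L hL K _ _ m T hT hTB hind κ _ _ φ ψ b1 b2 c β1 β2 hb1 hb2 hrel hi1 hi2
    he1 he2
  classical
  obtain ⟨p1, rfl⟩ := map_surjective _ (psi_surj hL K) b1
  obtain ⟨p2, rfl⟩ := map_surjective _ (psi_surj hL K) b2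
  have hp1 : p1 ≠ 0 := by
    rintro rfl
    exact hb1 (map_zero _)
  have hp2 : p2 ≠ 0 := by
    rintro rfl
    exact hb2 (map_zero _)
  have hpr : IsRelPrime p1 p2 := by
    intro d h1 h2
    have h3 := hrel (map_dvd (MvPolynomial.map (psi hL K)) h1) (map_dvd (MvPolynomial.map (psi hL K)) h2)
    let ee := mapEquiv (Fin m)
      (RingEquiv.ofBijective (psi hL K) ⟨(psi hL K).injective, psi_surj hL K⟩)
    have h4 : ee d = MvPolynomial.map (psi hL K) d := rfl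
    rw [← h4] at h3
    exact (MulEquiv.isUnit_map ee).1 h3
  -- representatives
  have hF : ∀ p : MvPolynomial (Fin m) (KK L hL), p ≠ 0 → ∃ F : ℕ → ℚ, (∀ n, F n ≠ 0) ∧
      gm F = aeval (fun k => gm (T k)) p := by
    intro p hp
    obtain ⟨a, ha⟩ := gm_surj (aeval (fun k => gm (T k)) p)
    have ha0 : gm a ≠ 0 := by
      rw [ha]
      exact fun h => hp (hind p h)
    refine ⟨fun n => if a n = 0 then 1 else a n, fun n => ?_, ?_⟩
    · simp only
      split_ifs with h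
      · exact one_ne_zero
      · exact h
    · rw [← ha, gm_eq]
      filter_upwards [gm_ne_zero.1 ha0] with n hn
      rw [if_neg hn]
  have hSgev : ∀ p : MvPolynomial (Fin m) (KK L hL),
      Sg L (∏ v, b v) (aeval (fun k => gm (T k)) p) := by
    intro p
    rw [aeval_def, eval₂_eq']
    refine Sg.sum hL _ _ fun e _ => (Sg.KK hL (coeff e p).2).mul (Sg.prod hL _ _ fun k _ => ?_)
    exact (Sg.of_su b hb hbi hL (hT k) (hTB k)).pow hL _
  have hBev : ∀ p : MvPolynomial (Fin m) (KK L hL), Bd L (aeval (fun k => gm (T k)) p) := by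
    intro p
    rw [aeval_def, eval₂_eq']
    refine Bd.sum hL _ _ fun e _ => (Bd.of_KK hL (coeff e p).2).mul (Bd.prod hL _ _ fun k _ => ?_)
    exact (hTB k).pow hL _
  obtain ⟨F1, hF10, hF1⟩ := hF p1 hp1
  obtain ⟨F2, hF20, hF2⟩ := hF p2 hp2
  have hG0 : ∀ n, Int.gcd (F1 n).num (F2 n).num ≠ 0 := by
    intro n h
    exact (Rat.num_ne_zero.2 (hF10 n)) (Int.gcd_eq_zero_iff.1 h).1
  choose kk D hD1 hDb using fun n => nat_decomp b hb _ (hG0 n)
  have hD0 : ∀ n, D n ≠ 0 := by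
    intro n h0
    have h1 := hD1 n
    rw [h0, mul_zero] at h1
    exact hG0 n h1
  have hDdvd : ∀ n, (D n : ℤ) ∣ ((Int.gcd (F1 n).num (F2 n).num : ℕ) : ℤ) := by
    intro n
    rw [hD1 n]
    push_cast
    exact dvd_mul_left _ _
  have hDd1 : ∀ n, (D n : ℤ) ∣ (F1 n).num := fun n => (hDdvd n).trans (Int.gcd_dvd_left _ _)
  have hDd2 : ∀ n, (D n : ℤ) ∣ (F2 n).num := fun n => (hDdvd n).trans (Int.gcd_dvd_right _ _)
  obtain ⟨A, hA⟩ : ∃ A : ℝ, ∀ᶠ n in (UU : Filter ℕ), |((F1 n).num : ℝ)| ≤ Real.exp (A * L n) ∧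
      ((F1 n).den : ℝ) ≤ Real.exp (A * L n) ∨ F1 n = 0 := by
    refine Bd.lowest ?_
    rw [hF1]
    exact hBev p1
  have hDN : Negl L (fun n => (D n : ℤ)) := by
    refine gcd_germ b hb hbi hL T hT hTB hind p1 p2 hp1 hp2 hpr D hD0 hDb A ?_ ?_ ?_
    · filter_upwards [hA] with n hn
      refine le_trans ?_ (hn.resolve_right (hF10 n)).1
      have h1 := abs_le_of_dvd (hDd1 n) (Rat.num_ne_zero.2 (hF10 n))
      rwa [Int.cast_natCast, abs_of_nonneg (Nat.cast_nonneg _)] at h1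
    · rw [← hF1]
      refine sg_div _ F1 D hD0 hDd1 ?_
      rw [hF1]
      exact hSgev p1
    · rw [← hF2]
      refine sg_div _ F2 D hD0 hDd2 ?_
      rw [hF2]
      exact hSgev p2
  -- the monomial
  obtain ⟨U, hU1, hU2⟩ : GSU b (∏ k, gm (T k) ^ c k) :=
    gsu_prod hb _ _ fun k _ => CRV.GSU.pow hb ⟨T k, rfl, hT k⟩ _
  -- the coefficients
  choose ξ1 hξ1 using fun j => uq_surj (β1 j)
  choose ξ2 hξ2 using fun j => uq_surj (β2 j)
  choose E1 hE1 hE10 hE1v using fun j =>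
    int_seq b hb hbi S hbS hL K T hT hTB (ξ1 j) (by rw [hξ1]; exact hi1 j)
  choose E2 hE2 hE20 hE2v using fun j =>
    int_seq b hb hbi S hbS hL K T hT hTB (ξ2 j) (by rw [hξ2]; exact hi2 j)
  -- the equations
  have heq : ∀ (p : MvPolynomial (Fin m) (KK L hL)) (F : ℕ → ℚ) (β : κ → UP K)
      (ξ : κ → ∀ t, K t), gm F = aeval (fun k => gm (T k)) p → (∀ j, uq K (ξ j) = β j) →
      aeval (fun k => io K (gm (T k))) (MvPolynomial.map (psi hL K) p * monomial c 1) * uq K φ =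
        ∑ j, β j * uq K (ψ j) →
      ∀ᶠ t in (UU : Filter ℕ), ((F t : ℚ) : K t) * ((U t : ℚ) : K t) * φ t =
        ∑ j, ξ j t * ψ j t := by
    intro p F β ξ hpF hξ h
    rw [← uq_eq (a := fun t => ((F t : ℚ) : K t) * ((U t : ℚ) : K t) * φ t)
      (b := fun t => ∑ j, ξ j t * ψ j t), ← uq_sum]
    have h1 : ∑ j, uq K (fun t => ξ j t * ψ j t) = ∑ j, β j * uq K (ψ j) := by
      refine Finset.sum_congr rfl fun j _ => ?_
      rw [← hξ j, ← uq_mul]
    rw [h1, ← h, ← uq_mul]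
    congr 1
    have h2 : MvPolynomial.map (psi hL K) p * monomial c 1 =
        MvPolynomial.map (psi hL K) (p * monomial c 1) := by
      rw [map_mul (MvPolynomial.map (psi hL K)), map_monomial, map_one (psi hL K)]
    rw [h2, aeval_psi, map_mul (aeval fun k => gm (T k)), ← hpF, aeval_monomial,
      Finsupp.prod_fintype _ _ (fun k => pow_zero _), map_one (algebraMap (KK L hL) GG), one_mul,
      hU1, gm_mul, io_gm]
    congr 1
    funext t
    push_cast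
    rfl
  have h1 := heq p1 F1 β1 ξ1 hF1 hξ1 he1
  have h2 := heq p2 F2 β2 ξ2 hF2 hξ2 he2
  refine ⟨fun t => ((∏ j, E1 j t) * ∏ j, E2 j t) * (D t : ℤ), ?_, ?_, ?_⟩
  · exact ((Negl.prod hL _ fun j _ => hE1 j).mul (Negl.prod hL _ fun j _ => hE2 j)).mul hDN
  · refine Eventually.of_forall fun t => ?_
    refine mul_ne_zero (mul_ne_zero ?_ ?_) ?_
    · exact Finset.prod_ne_zero_iff.2 fun j _ => hE10 j t
    · exact Finset.prod_ne_zero_iff.2 fun j _ => hE20 j t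
    · exact_mod_cast hD0 t
  filter_upwards [h1, h2, eventually_all.2 hE1v, eventually_all.2 hE2v] with t h3 h4 h5 h6 v hv
  set E : K t := (((∏ j, E1 j t) * ∏ j, E2 j t : ℤ) : K t) with hE
  have hξ1' : ∀ j, v (E * ξ1 j t) ≤ 1 := by
    intro j
    have h7 : E * ξ1 j t = (((∏ j ∈ Finset.univ.erase j, E1 j t) * ∏ j, E2 j t : ℤ) : K t) *
        ((E1 j t : K t) * ξ1 j t) := by
      rw [hE, ← Finset.mul_prod_erase _ _ (Finset.mem_univ j)]
      push_cast
      ring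
    rw [h7, map_mul]
    exact mul_le_one₀ (int_le v _) (apply_nonneg v _) (h5 j v hv)
  have hξ2' : ∀ j, v (E * ξ2 j t) ≤ 1 := by
    intro j
    have h7 : E * ξ2 j t = (((∏ j, E1 j t) * ∏ j ∈ Finset.univ.erase j, E2 j t : ℤ) : K t) *
        ((E2 j t : K t) * ξ2 j t) := by
      rw [hE, ← Finset.mul_prod_erase Finset.univ (fun j => E2 j t) (Finset.mem_univ j)]
      push_cast
      ring
    rw [h7, map_mul]
    exact mul_le_one₀ (int_le v _) (apply_nonneg v _) (h6 j v hv)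
  have hUv := su_one b S hbS v hv (U t) (hU2 t)
  have h7 := num_le v _ E (φ t) (F1 t) (mul_le_of v E _ _ (φ t) (fun j => ξ1 j t)
    (fun j => ψ j t) hUv hξ1' h3)
  have h8 := num_le v _ E (φ t) (F2 t) (mul_le_of v E _ _ (φ t) (fun j => ξ2 j t)
    (fun j => ψ j t) hUv hξ2' h4)
  have h9 := gcd_le b S hbS v hv _ (E * φ t) _ _ h7 h8 (kk t) (D t) (hD1 t)
  have h10 : φ t * (((((∏ j, E1 j t) * ∏ j, E2 j t) * (D t : ℤ) : ℤ)) : K t) =
      E * φ t * ((D t : ℤ) : K t) := by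
    rw [Int.cast_mul, ← hE]
    ring
  rw [h10]
  exact h9

end Pool.Agent.Y724.T4
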