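import Mathlib
import Pool.Agent.Y724.T4.Stm3
import Pool.Agent.Y724.T4.ASM

/-!
# ASM3: from the inequalities at the places to the inequality of heights, with general factors
outside `S`
-/

set_option autoImplicit false

namespace Pool.Agent.Y724.T4

open MvPolynomial NumberField Pool.Agent.Y724.Vj

/-- **ASM3** -/
theorem asm3 (hcard : S_PLC) : S_ASM3 := by
  classical
  intro ν n sc g q w hν Gp F d hnc K _ _ S hS x hx hGx T hT J0 hdet W hW0 hWfin hWint δ hδ hinf
    hover AA hAA hAA0
  obtain ⟨k, hk⟩ := exists_rows Gp F hnc x hx hGx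
  obtain ⟨c, hc, hdets⟩ := minors_smul hν _ hk T AA (fun a c => hT (k a) c)
    (fun a c => hAA0 (k a) c) J0 hdet hAA
  set u : (Fin n → Fin ν) → K := fun J => (T.submatrix J id).det with hu
  have hu0 : u ≠ 0 := by
    intro h0
    exact hdet (congrFun h0 J0)
  have hH : Height.logHeight (fun J : Fin n → Fin ν => (AA.submatrix J id).det) =
      Height.logHeight u := by
    have h1 : (fun J : Fin n → Fin ν => (AA.submatrix J id).det) = c • u := by
      funext J
      rw [hdets]
      rfl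
    rw [h1, Height.logHeight_smul_eq_logHeight _ hc]
  rw [hH]
  -- the places over `S`
  have hplc := fun p : {p // p ∈ S} => hcard.1 K p.1 (hS p.1 p.2)
  choose f hf using hplc
  set O : Finset (FinitePlace K) := S.attach.biUnion fun p => Finset.univ.image (f p) with hO
  have hOS : Over K S = (O : Set (FinitePlace K)) := by
    ext v
    rw [Finset.mem_coe, hO, Finset.mem_biUnion]
    constructor
    · rintro ⟨p, hp, hv⟩
      obtain ⟨i, hi⟩ := (hf ⟨p, hp⟩ v).1 hv
      exact ⟨⟨p, hp⟩, Finset.mem_attach _ _, Finset.mem_image.2 ⟨i, Finset.mem_univ _, hi⟩⟩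
    · rintro ⟨p, _, hv⟩
      obtain ⟨i, _, hi⟩ := Finset.mem_image.1 hv
      exact ⟨p.1, p.2, (hf p v).2 ⟨i, hi⟩⟩
  have hOc : O.card ≤ S.card * Module.finrank ℚ K := by
    refine Finset.card_biUnion_le.trans ?_
    calc ∑ p ∈ S.attach, (Finset.univ.image (f p)).card
        ≤ ∑ p ∈ S.attach, Module.finrank ℚ K := Finset.sum_le_sum fun p _ => by
          refine Finset.card_image_le.trans ?_
          rw [Finset.card_univ, Fintype.card_fin]
      _ = S.card * Module.finrank ℚ K := by
          rw [Finset.sum_const, Finset.card_attach, smul_eq_mul]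
  have hsumO : ∀ G : FinitePlace K → ℝ, ∑ᶠ v ∈ Over K S, G v = ∑ v ∈ O, G v := by
    intro G
    rw [hOS, finsum_mem_coe_finset]
  -- splitting of sums over all finite places
  have hsplit : ∀ G : FinitePlace K → ℝ, (Function.support G).Finite →
      ∑ᶠ v, G v = ∑ v ∈ O, G v + ∑ᶠ v ∈ (Over K S)ᶜ, G v := by
    intro G hG
    have h1 := finsum_mem_inter_add_sdiff' (s := Set.univ) (f := G) (Over K S)
      (hG.subset Set.inter_subset_right)
    rw [Set.univ_inter, hsumO, finsum_mem_univ, ← Set.compl_eq_univ_sdiff] at h1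
    exact h1.symm
  have hlogsupp : ∀ {ι : Type} [Finite ι] {u : ι → K}, u ≠ 0 →
      (Function.support fun v : FinitePlace K => Real.log (⨆ i, v (u i))).Finite := by
    intro ι _ u hu
    refine (sup_fin hu).subset ?_
    intro v hv h3
    apply hv
    change Real.log (⨆ i, v (u i)) = 0
    rw [h3, Real.log_one]
  have hWsupp : (Function.support fun v : FinitePlace K => Real.log (W v)).Finite := by
    refine hWfin.subset ?_
    intro v hv h3
    apply hv
    change Real.log (W v) = 0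
    rw [h3, Real.log_one]
  -- heights
  have hHx := logHeight_sum hx
  have hHu := logHeight_sum hu0
  rw [hsplit _ (hlogsupp hx)] at hHx
  rw [hsplit _ (hlogsupp hu0)] at hHu
  -- the places outside `S`
  have hout : ∑ᶠ v ∈ (Over K S)ᶜ, Real.log (⨆ J, (v : FinitePlace K) (u J)) ≤
      n * ∑ᶠ v ∈ (Over K S)ᶜ, Real.log (⨆ i, (v : FinitePlace K) (x i)) +
      ∑ᶠ v ∈ (Over K S)ᶜ, Real.log (W v) := by
    set Φ : Finset (FinitePlace K) :=
      ((hlogsupp hu0).toFinset ∪ (hlogsupp hx).toFinset ∪ hWsupp.toFinset).filter (· ∉ O) with hΦ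
    have e1 : ∑ᶠ v ∈ (Over K S)ᶜ, Real.log (⨆ J, (v : FinitePlace K) (u J)) =
        ∑ v ∈ Φ, Real.log (⨆ J, (v : FinitePlace K) (u J)) := by
      apply finsum_mem_eq_sum_of_inter_support_eq
      ext v
      rw [Set.mem_inter_iff, Set.mem_inter_iff, Set.mem_compl_iff, hOS, Finset.mem_coe,
        Finset.mem_coe, hΦ, Finset.mem_filter, Finset.mem_union, Finset.mem_union,
        Set.Finite.mem_toFinset]
      tauto
    have e0 : ∑ᶠ v ∈ (Over K S)ᶜ, Real.log (⨆ i, (v : FinitePlace K) (x i)) =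
        ∑ v ∈ Φ, Real.log (⨆ i, (v : FinitePlace K) (x i)) := by
      apply finsum_mem_eq_sum_of_inter_support_eq
      ext v
      rw [Set.mem_inter_iff, Set.mem_inter_iff, Set.mem_compl_iff, hOS, Finset.mem_coe,
        Finset.mem_coe, hΦ, Finset.mem_filter, Finset.mem_union, Finset.mem_union,
        Set.Finite.mem_toFinset, Set.Finite.mem_toFinset]
      tauto
    have e2 : ∑ᶠ v ∈ (Over K S)ᶜ, Real.log (W v) = ∑ v ∈ Φ, Real.log (W v) := by
      apply finsum_mem_eq_sum_of_inter_support_eq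
      ext v
      rw [Set.mem_inter_iff, Set.mem_inter_iff, Set.mem_compl_iff, hOS, Finset.mem_coe,
        Finset.mem_coe, hΦ, Finset.mem_filter, Finset.mem_union, Finset.mem_union,
        Set.Finite.mem_toFinset, Set.Finite.mem_toFinset, Set.Finite.mem_toFinset]
      tauto
    rw [e1, e0, e2, Finset.mul_sum, ← Finset.sum_add_distrib]
    refine Finset.sum_le_sum fun v hv => ?_
    have hvO : v ∉ Over K S := by
      rw [hOS, Finset.mem_coe]
      exact (Finset.mem_filter.1 hv).2
    have h2 : 0 < W v := hW0 v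
    have h3 : 0 < ⨆ i, v (x i) := sup_pos hx v.1
    rw [← Real.log_pow, ← Real.log_mul (pow_pos h3 n).ne' h2.ne']
    apply Real.log_le_log (sup_pos hu0 v.1)
    have : Nonempty (Fin n → Fin ν) := ⟨J0⟩
    refine ciSup_le fun J => ?_
    rw [mul_comm]
    exact hWint v hvO J
  -- the places in `S`
  have hplace : ∀ v : FinitePlace K, v ∈ O → Real.log (⨆ J, v (u J)) ≤
      n * Real.log (⨆ i, v (x i)) - ∑ i, locH (F i) (d i) x v.1 + δ := by
    intro v hv
    exact at_pl F d x hx T J0 hdet v.1 δ (hover v (by rw [hOS]; exact hv))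
  have hplinf : ∀ v : InfinitePlace K, Real.log (⨆ J, v (u J)) ≤
      n * Real.log (⨆ i, v (x i)) - ∑ i, locH (F i) (d i) x v.1 + δ := by
    intro v
    exact at_pl F d x hx T J0 hdet v.1 δ (hinf v)
  have hsO := Finset.sum_le_sum hplace
  have hsI : ∑ v : InfinitePlace K, (v.mult : ℝ) * Real.log (⨆ J, v (u J)) ≤
      ∑ v : InfinitePlace K, (v.mult : ℝ) * (n * Real.log (⨆ i, v (x i)) -
        ∑ i, locH (F i) (d i) x v.1 + δ) :=
    Finset.sum_le_sum fun v _ => mul_le_mul_of_nonneg_left (hplinf v) (Nat.cast_nonneg _)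
  have eO : ∑ v ∈ O, (n * Real.log (⨆ i, (v : FinitePlace K) (x i)) -
      ∑ i, locH (F i) (d i) x v.1 + δ) =
      n * ∑ v ∈ O, Real.log (⨆ i, (v : FinitePlace K) (x i)) -
        ∑ i, ∑ v ∈ O, locH (F i) (d i) x v.1 + O.card * δ := by
    rw [Finset.sum_add_distrib, Finset.sum_sub_distrib, ← Finset.mul_sum, Finset.sum_comm,
      Finset.sum_const, nsmul_eq_mul]
  have eI : ∑ v : InfinitePlace K, (v.mult : ℝ) * (n * Real.log (⨆ i, v (x i)) -
      ∑ i, locH (F i) (d i) x v.1 + δ) =
      n * ∑ v : InfinitePlace K, (v.mult : ℝ) * Real.log (⨆ i, v (x i)) -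
        ∑ i, ∑ v : InfinitePlace K, (v.mult : ℝ) * locH (F i) (d i) x v.1 +
          Module.finrank ℚ K * δ := by
    have h1 : ∀ v : InfinitePlace K, (v.mult : ℝ) * (n * Real.log (⨆ i, v (x i)) -
        ∑ i, locH (F i) (d i) x v.1 + δ) = n * ((v.mult : ℝ) * Real.log (⨆ i, v (x i))) -
        ∑ i, (v.mult : ℝ) * locH (F i) (d i) x v.1 + (v.mult : ℝ) * δ := by
      intro v
      rw [← Finset.mul_sum]
      ring
    rw [Finset.sum_congr rfl fun v _ => h1 v, Finset.sum_add_distrib, Finset.sum_sub_distrib,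
      ← Finset.mul_sum, Finset.sum_comm, ← Finset.sum_mul, ← Nat.cast_sum,
      InfinitePlace.sum_mult_eq]
  rw [eO] at hsO
  rw [eI] at hsI
  have hcardr : (O.card : ℝ) * δ ≤ (S.card * Module.finrank ℚ K : ℝ) * δ :=
    mul_le_mul_of_nonneg_right (by exact_mod_cast hOc) hδ
  have hfinal : ∑ i, (∑ v : InfinitePlace K, v.mult * locH (F i) (d i) x v.1 +
      ∑ᶠ v ∈ Over K S, locH (F i) (d i) x v.1) =
      ∑ i, ∑ v : InfinitePlace K, (v.mult : ℝ) * locH (F i) (d i) x v.1 +
        ∑ i, ∑ v ∈ O, locH (F i) (d i) x v.1 := by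
    rw [← Finset.sum_add_distrib]
    refine Finset.sum_congr rfl fun i _ => ?_
    rw [hsumO fun v => locH (F i) (d i) x v.1]
  rw [hfinal, hHu, hHx]
  have hring : (Module.finrank ℚ K : ℝ) * (S.card + 1) * δ =
      Module.finrank ℚ K * δ + S.card * Module.finrank ℚ K * δ := by ring
  rw [hring]
  linarith

end Pool.Agent.Y724.T4
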