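import Pool.Agent.Y724.T4.Stm

set_option autoImplicit false

/-!
# Logarithmic derivatives over a discrete valuation
-/

namespace Pool.Agent.Y724.T4

open Polynomial

theorem pid {F : Type} [Field F] (v : Valuation F (WithZero (Multiplicative ℤ))) :
    IsPrincipalIdealRing v.valuationSubring := by
  classical
  refine ⟨fun I => ?_⟩
  by_cases hI : I = ⊥
  · rw [hI]
    exact bot_isPrincipal
  obtain ⟨x₀, hx₀, hx₀0⟩ := Submodule.exists_mem_ne_zero_of_ne_bot hI
  have hle : ∀ y : v.valuationSubring, v (y : F) ≤ 1 := fun y => y.2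
  have hP : ∃ n : ℕ, ∃ x ∈ I, x ≠ 0 ∧ (n : ℤ) = -WithZero.log (v (x : F)) := by
    refine ⟨(-WithZero.log (v (x₀ : F))).toNat, x₀, hx₀, hx₀0, ?_⟩
    rw [Int.toNat_of_nonneg]
    have h1 : v (x₀ : F) ≠ 0 := by
      rw [Valuation.ne_zero_iff]
      simpa using hx₀0
    have h2 := hle x₀
    rw [← WithZero.exp_log h1, ← WithZero.exp_zero, WithZero.exp_le_exp] at h2
    linarith
  obtain ⟨x, hx, hx0, hn⟩ := Nat.find_spec hP
  refine ⟨⟨x, ?_⟩⟩
  apply le_antisymm
  · intro y hy
    rw [Ideal.submodule_span_eq, Ideal.mem_span_singleton']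
    by_cases hy0 : y = 0
    · exact ⟨0, by rw [hy0, zero_mul]⟩
    have h1 : v (x : F) ≠ 0 := by
      rw [Valuation.ne_zero_iff]
      simpa using hx0
    have h2 : v (y : F) ≠ 0 := by
      rw [Valuation.ne_zero_iff]
      simpa using hy0
    have h3 : v (y : F) ≤ v (x : F) := by
      rw [← WithZero.exp_log h1, ← WithZero.exp_log h2, WithZero.exp_le_exp]
      have h4 : (Nat.find hP : ℤ) ≤ -WithZero.log (v (y : F)) := by
        have h5 := hle y
        rw [← WithZero.exp_log h2, ← WithZero.exp_zero, WithZero.exp_le_exp] at h5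
        have h6 := Nat.find_min' hP ⟨y, hy, hy0, Int.toNat_of_nonneg (by linarith)⟩
        have : ((-WithZero.log (v (y : F))).toNat : ℤ) = -WithZero.log (v (y : F)) :=
          Int.toNat_of_nonneg (by linarith)
        rw [← this]
        exact_mod_cast h6
      rw [hn] at h4
      linarith
    refine ⟨⟨(y : F) / x, ?_⟩, ?_⟩
    · rw [Valuation.mem_valuationSubring_iff, map_div₀]
      exact div_le_one_of_le₀ h3 zero_le
    · apply Subtype.ext
      have : (x : F) ≠ 0 := by simpa using hx0
      show (y : F) / x * x = y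
      field_simp
  · rw [Ideal.submodule_span_eq, Ideal.span_singleton_le_iff_mem]
    exact hx

section main
variable {F L M : Type} [Field F] [Field L] [Field M] [Algebra F L] [Algebra L M] [Algebra F M]
    [IsScalarTower F L M] (w : Valuation M (WithZero (Multiplicative ℤ))) (D : L →+ M)

/-- evaluation of a polynomial with the coefficients replaced by their derivatives -/
noncomputable def dc (ε : L) (p : F[X]) : M :=
  p.sum fun i a => D (algebraMap F L a) * algebraMap L M ε ^ i

theorem dc_add (ε : L) (p q : F[X]) : dc D ε (p + q) = dc D ε p + dc D ε q := by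
  unfold dc
  apply Polynomial.sum_add_index
  · intro i
    rw [map_zero, map_zero, zero_mul]
  · intro i a b
    rw [map_add, map_add, add_mul]

theorem dc_monomial (ε : L) (n : ℕ) (a : F) :
    dc D ε (monomial n a) = D (algebraMap F L a) * algebraMap L M ε ^ n := by
  unfold dc
  apply Polynomial.sum_monomial_index
  rw [map_zero, map_zero, zero_mul]

theorem dc_le (hF : ∀ a : F, w (D (algebraMap F L a)) ≤ w (algebraMap F M a)) {ε : L}
    (hε : w (algebraMap L M ε) = 1) {p : F[X]} (hp : ∀ i, w (algebraMap F M (p.coeff i)) ≤ 1) :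
    w (dc D ε p) ≤ 1 := by
  unfold dc
  rw [Polynomial.sum_def]
  apply Valuation.map_sum_le
  intro i _
  rw [map_mul, map_pow, hε, one_pow, mul_one]
  exact (hF _).trans (hp i)

theorem aeval_le {ε : L} (hε : w (algebraMap L M ε) = 1) {p : F[X]}
    (hp : ∀ i, w (algebraMap F M (p.coeff i)) ≤ 1) : w (algebraMap L M (aeval ε p)) ≤ 1 := by
  rw [aeval_eq_sum_range, map_sum]
  apply Valuation.map_sum_le
  intro i _
  rw [Algebra.smul_def, map_mul, ← IsScalarTower.algebraMap_apply, map_mul, map_pow, map_pow, hε,
    one_pow, mul_one]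
  exact hp i

variable (hL : ∀ a b : L, D (a * b) = algebraMap L M a * D b + algebraMap L M b * D a)

include hL in
theorem D_one : D 1 = 0 := by
  have h := hL 1 1
  rw [mul_one, map_one (algebraMap L M), one_mul] at h
  exact left_eq_add.1 h

include hL in
theorem D_pow (x : L) (n : ℕ) : D (x ^ n) = n * algebraMap L M x ^ (n - 1) * D x := by
  induction n with
  | zero => rw [pow_zero, D_one D hL, Nat.cast_zero, zero_mul, zero_mul]
  | succ n ih =>
    rw [pow_succ, hL, ih]
    rcases n with _ | n
    · simp
    · simp only [Nat.add_sub_cancel, map_pow]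
      push_cast
      ring

include hL in
/-- chain rule -/
theorem D_aeval (ε : L) (p : F[X]) :
    D (aeval ε p) = dc D ε p + algebraMap L M (aeval ε (derivative p)) * D ε := by
  induction p using Polynomial.induction_on' with
  | add p q hp hq =>
    rw [map_add, map_add, hp, hq, dc_add, derivative_add, map_add, map_add]
    ring
  | monomial n a =>
    rw [aeval_monomial, hL, D_pow D hL, dc_monomial, derivative_monomial, aeval_monomial, map_mul,
      map_mul, map_mul, map_natCast, map_natCast, map_pow, map_pow]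
    ring

/-- the polynomial which is small at `ε` -/
theorem exists_poly (hn : ∀ n : ℕ, n ≠ 0 → w (n : M) = 1) {ε : L}
    (hε : w (algebraMap L M ε) = 1) (hint : IsIntegral F ε) :
    ∃ p : F[X], (∀ i, w (algebraMap F M (p.coeff i)) ≤ 1) ∧ w (algebraMap L M (aeval ε p)) < 1 ∧
      w (algebraMap L M (aeval ε (derivative p))) = 1 := by
  classical
  have hP : ∃ n : ℕ, ∃ p : F[X], p.natDegree = n ∧ (∀ i, w (algebraMap F M (p.coeff i)) ≤ 1) ∧
      (∃ i, w (algebraMap F M (p.coeff i)) = 1) ∧ w (algebraMap L M (aeval ε p)) < 1 := by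
    set P := minpoly F ε with hPd
    have hP0 : P ≠ 0 := minpoly.ne_zero hint
    obtain ⟨j, hj, hmax⟩ := P.support.exists_max_image (fun i => w (algebraMap F M (P.coeff i)))
      (Polynomial.support_nonempty.2 hP0)
    have hj0 : P.coeff j ≠ 0 := Polynomial.mem_support_iff.1 hj
    have hw0 : w (algebraMap F M (P.coeff j)) ≠ 0 := by
      rw [Valuation.ne_zero_iff, _root_.map_ne_zero]
      exact hj0
    refine ⟨_, C (P.coeff j)⁻¹ * P, rfl, ?_, ⟨j, ?_⟩, ?_⟩
    · intro i
      rw [coeff_C_mul, map_mul, map_mul, map_inv₀, map_inv₀]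
      by_cases hi : i ∈ P.support
      · have h1 := hmax i hi
        rw [mul_comm, ← div_eq_mul_inv]
        exact div_le_one_of_le₀ h1 zero_le
      · rw [Polynomial.notMem_support_iff.1 hi, map_zero, map_zero, mul_zero]
        exact zero_le
    · rw [coeff_C_mul, inv_mul_cancel₀ hj0, map_one, map_one]
    · rw [map_mul, minpoly.aeval, mul_zero, map_zero, map_zero]
      exact zero_lt_one
  obtain ⟨p, hdeg, h1, h2, h3⟩ := Nat.find_spec hP
  have hmin : ∀ q : F[X], q.natDegree < p.natDegree → (∀ i, w (algebraMap F M (q.coeff i)) ≤ 1) →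
      (∃ i, w (algebraMap F M (q.coeff i)) = 1) → 1 ≤ w (algebraMap L M (aeval ε q)) := by
    intro q hq1 hq2 hq3
    by_contra hq4
    rw [hdeg] at hq1
    exact Nat.find_min hP hq1 ⟨q, rfl, hq2, hq3, not_le.1 hq4⟩
  have hd0 : p.natDegree ≠ 0 := by
    intro h0
    rw [Polynomial.eq_C_of_natDegree_eq_zero h0, aeval_C, ← IsScalarTower.algebraMap_apply] at h3
    obtain ⟨i, hi⟩ := h2
    rw [Polynomial.eq_C_of_natDegree_eq_zero h0, coeff_C] at hi
    split_ifs at hi with h
    · rw [hi] at h3
      exact lt_irrefl _ h3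
    · rw [map_zero, map_zero] at hi
      exact zero_ne_one hi
  have hlc : w (algebraMap F M p.leadingCoeff) = 1 := by
    by_contra h
    have hlt : w (algebraMap F M p.leadingCoeff) < 1 := lt_of_le_of_ne (h1 _) h
    have h4 := hmin p.eraseLead (by
      have := p.eraseLead_natDegree_le
      omega) (fun i => by
        rw [eraseLead_coeff]
        split_ifs
        · rw [map_zero, map_zero]; exact zero_le
        · exact h1 i) (by
        obtain ⟨i, hi⟩ := h2
        refine ⟨i, ?_⟩
        rw [eraseLead_coeff, if_neg]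
        · exact hi
        · rintro rfl
          exact h hi)
    have h5 : aeval ε p.eraseLead = aeval ε p - algebraMap F L p.leadingCoeff * ε ^ p.natDegree := by
      conv_rhs => rw [← Polynomial.eraseLead_add_C_mul_X_pow p]
      rw [map_add, map_mul, aeval_C, map_pow, aeval_X]
      simp
    rw [h5, map_sub] at h4
    have h6 : w (algebraMap L M (algebraMap F L p.leadingCoeff * ε ^ p.natDegree)) < 1 := by
      rw [map_mul, ← IsScalarTower.algebraMap_apply, map_mul, map_pow, map_pow, hε, one_pow, mul_one]
      exact hlt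
    exact absurd (lt_of_le_of_lt (w.map_sub _ _) (max_lt h3 h6)) (not_lt.2 h4)
  refine ⟨p, h1, h3, ?_⟩
  have hcoef : ∀ i, w (algebraMap F M ((derivative p).coeff i)) =
      w (algebraMap F M (p.coeff (i + 1))) := by
    intro i
    have h4 := hn (i + 1) (Nat.succ_ne_zero i)
    rw [coeff_derivative, map_mul, map_mul]
    have h5 : algebraMap F M ((i : F) + 1) = ((i + 1 : ℕ) : M) := by
      simp
    rw [h5, h4, mul_one]
  apply le_antisymm
  · exact aeval_le w hε fun i => by rw [hcoef]; exact h1 _
  · apply hmin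
    · exact natDegree_derivative_lt hd0
    · intro i
      rw [hcoef]
      exact h1 _
    · refine ⟨p.natDegree - 1, ?_⟩
      rw [hcoef, Nat.sub_add_cancel (Nat.one_le_iff_ne_zero.2 hd0)]
      exact hlc

include hL in
/-- from a unit to an element of smaller value -/
theorem step (hn : ∀ n : ℕ, n ≠ 0 → w (n : M) = 1)
    (hF : ∀ a : F, w (D (algebraMap F L a)) ≤ w (algebraMap F M a)) {ε : L}
    (hε : w (algebraMap L M ε) = 1) (hint : IsIntegral F ε) (h : 1 < w (D ε)) :
    ∃ y : L, y ≠ 0 ∧ w (algebraMap L M y) < 1 ∧ w (D y) = w (D ε) := by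
  obtain ⟨p, h1, h2, h3⟩ := exists_poly w hn hε hint
  have h4 := D_aeval D hL ε p
  have h5 := dc_le w D hF hε h1
  have h6 : w (algebraMap L M (aeval ε (derivative p)) * D ε) = w (D ε) := by
    rw [map_mul, h3, one_mul]
  have h7 : w (D (aeval ε p)) = w (D ε) := by
    rw [h4, ← h6]
    apply Valuation.map_add_eq_of_lt_right
    rw [h6]
    exact lt_of_le_of_lt h5 h
  refine ⟨aeval ε p, ?_, h2, h7⟩
  intro h0
  rw [h0, map_zero, map_zero] at h7
  rw [← h7] at h
  exact absurd h (not_lt.2 zero_le)


/-- denominators in a Dedekind domain -/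
theorem denom {B L : Type} [CommRing B] [IsDedekindDomain B] [Field L] [Algebra B L]
    [IsFractionRing B L] (φ : L) : ∃ j j' : B, (∃ b : B, algebraMap B L b = φ * algebraMap B L j) ∧
      (∃ b : B, algebraMap B L b = φ * algebraMap B L j') ∧
      algebraMap B L j + φ * algebraMap B L j' = 1 := by
  set I : FractionalIdeal (nonZeroDivisors B) L :=
    FractionalIdeal.spanSingleton _ (1 : L) + FractionalIdeal.spanSingleton _ φ with hI
  have h1 : (1 : L) ∈ I := by
    rw [hI, FractionalIdeal.mem_add]
    exact ⟨1, FractionalIdeal.mem_spanSingleton_self _ _, 0, FractionalIdeal.zero_mem _, add_zero _⟩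
  have h2 : φ ∈ I := by
    rw [hI, FractionalIdeal.mem_add]
    exact ⟨0, FractionalIdeal.zero_mem _, φ, FractionalIdeal.mem_spanSingleton_self _ _, zero_add _⟩
  have hI0 : I ≠ 0 := by
    intro h
    rw [h, FractionalIdeal.mem_zero_iff] at h1
    exact one_ne_zero h1
  have h3 : (1 : L) ∈ I * I⁻¹ := by
    rw [mul_inv_cancel₀ hI0]
    exact FractionalIdeal.one_mem_one _
  have h4 : ∀ j ∈ I⁻¹, (∃ b : B, algebraMap B L b = j) ∧ ∃ b : B, algebraMap B L b = φ * j := by
    intro j hj
    constructor
    · have h5 := FractionalIdeal.mul_mem_mul h1 hj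
      rw [mul_inv_cancel₀ hI0, FractionalIdeal.mem_one_iff, one_mul] at h5
      exact h5
    · have h5 := FractionalIdeal.mul_mem_mul h2 hj
      rw [mul_inv_cancel₀ hI0, FractionalIdeal.mem_one_iff] at h5
      exact h5
  conv at h3 => rw [hI]
  rw [add_mul, FractionalIdeal.mem_add] at h3
  obtain ⟨x, hx, y, hy, hxy⟩ := h3
  rw [FractionalIdeal.mem_singleton_mul] at hx hy
  obtain ⟨j, hj, rfl⟩ := hx
  obtain ⟨j', hj', rfl⟩ := hy
  obtain ⟨⟨a, ha⟩, h5⟩ := h4 j hj
  obtain ⟨⟨a', ha'⟩, h6⟩ := h4 j' hj'
  refine ⟨a, a', ?_, ?_, ?_⟩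
  · rw [ha]; exact h5
  · rw [ha']; exact h6
  · rw [ha, ha', ← hxy, one_mul]

include hL in
theorem bounded [FiniteDimensional F L] [CharZero F]
    (hF : ∀ a : F, w (D (algebraMap F L a)) ≤ w (algebraMap F M a)) :
    ∃ C : WithZero (Multiplicative ℤ), ∀ φ : L, w (algebraMap L M φ) = 1 → w (D φ) ≤ C := by
  classical
  let v : Valuation F (WithZero (Multiplicative ℤ)) := w.comap (algebraMap F M)
  let A := v.valuationSubring
  let _ : Algebra A L := ((algebraMap F L).comp (algebraMap A F)).toAlgebra
  have : IsScalarTower A F L := IsScalarTower.of_algebraMap_eq' rfl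
  have : IsPrincipalIdealRing A := pid v
  have : IsDedekindDomain A := inferInstance
  have : IsDedekindDomain (integralClosure A L) := integralClosure.isDedekindDomain A F L
  have : IsFractionRing (integralClosure A L) L :=
    integralClosure.isFractionRing_of_finite_extension F L
  have : Module.Finite A (integralClosure A L) := IsIntegralClosure.finite A F L _
  have hA : ∀ a : A, w (algebraMap F M (a : F)) ≤ 1 := fun a => a.2
  have hAL : ∀ a : A, algebraMap A L a = algebraMap F L (a : F) := fun a => rfl
  have hB : ∀ b : integralClosure A L, w (algebraMap L M (b : L)) ≤ 1 := by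
    intro b
    have h1 : IsIntegral A (b : L) := b.2
    let f : A →+* w.integer := RingHom.codRestrict ((algebraMap F M).comp (algebraMap A F)) w.integer
      (fun a => hA a)
    have h2 : IsIntegral w.integer (algebraMap L M (b : L)) := by
      refine IsIntegral.map_of_comp_eq f (algebraMap L M) ?_ h1
      ext a
      show algebraMap F M (a : F) = algebraMap L M (algebraMap F L (a : F))
      rw [← IsScalarTower.algebraMap_apply]
    exact (Valuation.integer.integers w).mem_of_integral h2
  obtain ⟨s, hs⟩ := Module.Finite.fg_top (R := A) (M := integralClosure A L)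
  set C : WithZero (Multiplicative ℤ) := s.sup (fun b => w (D (b : L))) ⊔ 1 with hC
  have hC1 : 1 ≤ C := le_sup_right
  have key : ∀ b : integralClosure A L, w (D (b : L)) ≤ C := by
    intro b
    have hb : b ∈ Submodule.span A (s : Set (integralClosure A L)) := by
      rw [hs]
      trivial
    induction hb using Submodule.span_induction with
    | mem x hx =>
      exact (Finset.le_sup (f := fun b : integralClosure A L => w (D (b : L))) hx).trans le_sup_left
    | zero =>
      show w (D 0) ≤ C
      rw [map_zero, map_zero]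
      exact zero_le
    | add x y _ _ hx hy =>
      show w (D ((x : L) + y)) ≤ C
      rw [map_add]
      exact (w.map_add _ _).trans (max_le hx hy)
    | smul a x _ hx =>
      have h1 : ((a • x : integralClosure A L) : L) = algebraMap F L (a : F) * x := by
        show a • (x : L) = _
        rw [Algebra.smul_def]
        rfl
      rw [h1, hL]
      refine (w.map_add _ _).trans (max_le ?_ ?_)
      · rw [map_mul, ← IsScalarTower.algebraMap_apply]
        exact (mul_le_of_le_one_left' (hA a)).trans hx
      · rw [map_mul]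
        refine le_trans ?_ hC1
        exact mul_le_one' (hB x) ((hF _).trans (hA a))
  refine ⟨C, fun φ hφ => ?_⟩
  -- it is enough to have a denominator
  have main : ∀ j : integralClosure A L, (∃ b : integralClosure A L,
      algebraMap (integralClosure A L) L b = φ * algebraMap (integralClosure A L) L j) →
      w (algebraMap L M (j : L)) = 1 → w (D φ) ≤ C := by
    rintro j ⟨b, hb⟩ hj
    have h1 : (b : L) = φ * (j : L) := hb
    have h2 := key b
    rw [h1, hL] at h2
    have h3 : w (D φ) = w (algebraMap L M (j : L) * D φ) := by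
      rw [map_mul, hj, one_mul]
    have h4 : algebraMap L M (j : L) * D φ = (algebraMap L M φ * D (j : L) +
        algebraMap L M (j : L) * D φ) - algebraMap L M φ * D (j : L) := by ring
    rw [h3, h4]
    refine (w.map_sub _ _).trans (max_le h2 ?_)
    rw [map_mul, hφ, one_mul]
    exact key j
  obtain ⟨j, j', h1, h2, h3⟩ := denom (B := integralClosure A L) φ
  by_cases hj : w (algebraMap L M (j : L)) = 1
  · exact main j h1 hj
  · refine main j' h2 ?_
    have h4 : w (algebraMap L M (j : L)) < 1 := lt_of_le_of_ne (hB j) hj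
    have h5 : algebraMap L M φ * algebraMap L M (j' : L) = 1 - algebraMap L M (j : L) := by
      have h6 : (j : L) + φ * (j' : L) = 1 := h3
      have h7 := congrArg (algebraMap L M) h6
      rw [map_add, map_mul, map_one] at h7
      exact eq_sub_of_add_eq' h7
    have h6 := congrArg w h5
    rw [map_mul, hφ, one_mul] at h6
    rw [h6]
    have h7 := w.map_sub_eq_of_lt_right (x := algebraMap L M (j : L)) (y := 1)
      (by rw [map_one]; exact h4)
    rw [w.map_sub_swap, h7, map_one]

/-- passing to a unit -/
theorem to_unit (hn : ∀ n : ℕ, n ≠ 0 → w (n : M) = 1)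
    (hL : ∀ a b : L, D (a * b) = algebraMap L M a * D b + algebraMap L M b * D a)
    (hDp : ∀ (x : L) (n : ℕ), D (x ^ n) = n * algebraMap L M x ^ (n - 1) * D x)
    (hF : ∀ a : F, w (D (algebraMap F L a)) ≤ w (algebraMap F M a))
    {t : F} (ht : 0 < WithZero.log (w (algebraMap F M t))) {φ : L} (hφ : φ ≠ 0)
    (h : w (algebraMap L M φ) < w (D φ)) :
    ∃ ε : L, w (algebraMap L M ε) = 1 ∧ w (algebraMap L M φ) * w (D ε) = w (D φ) := by
  set a := WithZero.log (w (algebraMap F M t)) with ha
  set b := WithZero.log (w (algebraMap L M φ)) with hb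
  have hφ0 : w (algebraMap L M φ) ≠ 0 := by
    rw [Valuation.ne_zero_iff, _root_.map_ne_zero]
    exact hφ
  have ht0 : w (algebraMap F M t) ≠ 0 := by
    intro h0
    rw [ha, h0, WithZero.log_zero] at ht
    exact lt_irrefl _ ht
  have htF : t ≠ 0 := by
    rintro rfl
    rw [map_zero, map_zero] at ht0
    exact ht0 rfl
  obtain ⟨n, hna⟩ : ∃ n : ℕ, (n : ℤ) = a := ⟨a.toNat, Int.toNat_of_nonneg ht.le⟩
  have hn0 : n ≠ 0 := by
    rintro rfl
    rw [Nat.cast_zero] at hna
    omega
  set T : F := t ^ b with hT
  have hT0 : algebraMap F L T ≠ 0 := by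
    rw [_root_.map_ne_zero, hT]
    exact zpow_ne_zero _ htF
  have hwT : w (algebraMap F M T) = w (algebraMap L M φ) ^ n := by
    rw [hT, map_zpow₀, map_zpow₀, ← WithZero.exp_log ht0, ← WithZero.exp_log hφ0,
      ← WithZero.exp_zsmul, ← WithZero.exp_nsmul, ← ha, ← hb, ← hna]
    congr 1
    simp only [smul_eq_mul, nsmul_eq_mul]
    ring
  refine ⟨φ ^ n / algebraMap F L T, ?_, ?_⟩
  · rw [map_div₀, map_div₀, map_pow, map_pow, ← IsScalarTower.algebraMap_apply, hwT]
    exact div_self (pow_ne_zero _ hφ0)
  · set ε := φ ^ n / algebraMap F L T with hε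
    have h1 : ε * algebraMap F L T = φ ^ n := by
      rw [hε]
      field_simp
    have hwε : w (algebraMap L M ε) = 1 := by
      rw [hε, map_div₀, map_div₀, map_pow, map_pow, ← IsScalarTower.algebraMap_apply, hwT]
      exact div_self (pow_ne_zero _ hφ0)
    have h2 : algebraMap F M T * D ε = n * algebraMap L M φ ^ (n - 1) * D φ -
        algebraMap L M ε * D (algebraMap F L T) := by
      have h3 := congrArg D h1
      rw [hL, hDp, ← IsScalarTower.algebraMap_apply] at h3
      rw [← h3]
      ring
    have hpow : w (algebraMap L M φ) ^ n = w (algebraMap L M φ) ^ (n - 1) * w (algebraMap L M φ) := by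
      rw [← pow_succ, Nat.sub_add_cancel (Nat.one_le_iff_ne_zero.2 hn0)]
    have h3 : w (n * algebraMap L M φ ^ (n - 1) * D φ) = w (algebraMap L M φ) ^ (n - 1) * w (D φ) := by
      rw [map_mul, map_mul, hn n hn0, one_mul, map_pow]
    have h4 : w (algebraMap L M ε * D (algebraMap F L T)) ≤ w (algebraMap L M φ) ^ n := by
      rw [map_mul, hwε, one_mul, ← hwT]
      exact hF T
    have hp0 : 0 < w (algebraMap L M φ) ^ (n - 1) := by
      rw [zero_lt_iff]
      exact pow_ne_zero _ hφ0
    have h5 : w (algebraMap L M ε * D (algebraMap F L T)) < w (n * algebraMap L M φ ^ (n - 1) * D φ) := by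
      rw [h3]
      refine lt_of_le_of_lt h4 ?_
      rw [hpow]
      exact mul_lt_mul_of_pos_left h hp0
    have h6 := w.map_sub_eq_of_lt_left h5
    rw [← h2, map_mul, hwT, h3, hpow, mul_assoc] at h6
    exact mul_left_cancel₀ hp0.ne' h6


/-- the valuation is at most one on elements which are integral over a subfield of units -/
theorem le_one_of_int (h : ∀ a : F, w (algebraMap F M a) ≤ 1) {x : L} (hx : IsIntegral F x) :
    w (algebraMap L M x) ≤ 1 := by
  let f : F →+* w.integer := RingHom.codRestrict (algebraMap F M) w.integer (fun a => h a)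
  have h2 : IsIntegral w.integer (algebraMap L M x) := by
    refine IsIntegral.map_of_comp_eq f (algebraMap L M) ?_ hx
    ext a
    show algebraMap F M a = algebraMap L M (algebraMap F L a)
    rw [← IsScalarTower.algebraMap_apply]
  exact (Valuation.integer.integers w).mem_of_integral h2

end main

theorem ldd : S_LDD := by
  intro F L M _ _ _ _ _ _ _ _ _ w D hn hL hF φ
  by_contra hcon
  rw [not_le] at hcon
  have hint : ∀ x : L, IsIntegral F x := fun x => Algebra.IsIntegral.isIntegral x
  have hφ0 : φ ≠ 0 := by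
    rintro rfl
    rw [map_zero D, map_zero w] at hcon
    exact absurd hcon (not_lt.2 zero_le)
  by_cases htriv : ∃ t : F, t ≠ 0 ∧ w (algebraMap F M t) ≠ 1
  · obtain ⟨t, ht⟩ : ∃ t : F, 0 < WithZero.log (w (algebraMap F M t)) := by
      obtain ⟨t, ht0, ht1⟩ := htriv
      have h0 : w (algebraMap F M t) ≠ 0 := by
        rw [Valuation.ne_zero_iff, _root_.map_ne_zero]
        exact ht0
      have h1 : WithZero.log (w (algebraMap F M t)) ≠ 0 := by
        intro h2
        apply ht1
        rw [← WithZero.exp_log h0, h2, WithZero.exp_zero]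
      rcases lt_or_gt_of_ne h1 with h2 | h2
      · refine ⟨t⁻¹, ?_⟩
        rw [map_inv₀, map_inv₀, WithZero.log_inv]
        omega
      · exact ⟨t, h2⟩
    obtain ⟨C, hC⟩ := bounded w D hL hF
    have hu := fun (x : L) (hx : x ≠ 0) (hx' : w (algebraMap L M x) < w (D x)) =>
      to_unit w D hn hL (D_pow D hL) hF ht hx hx'
    obtain ⟨ε₀, h1, h2⟩ := hu φ hφ0 hcon
    have hpos : 0 < w (algebraMap L M φ) := by
      rw [zero_lt_iff, Valuation.ne_zero_iff, _root_.map_ne_zero]
      exact hφ0
    have h3 : 1 < w (D ε₀) := by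
      rw [← h2] at hcon
      by_contra h4
      rw [not_lt] at h4
      exact absurd hcon (not_lt.2 (mul_le_of_le_one_right' h4))
    have hlog : ∀ x : WithZero (Multiplicative ℤ), 1 < x → x ≠ 0 ∧ 0 < WithZero.log x := by
      intro x hx
      have hx0 : x ≠ 0 := (lt_trans zero_lt_one hx).ne'
      refine ⟨hx0, ?_⟩
      rw [← WithZero.exp_log hx0, ← WithZero.exp_zero, WithZero.exp_lt_exp] at hx
      exact hx
    obtain ⟨n, ⟨ε, h5, h6⟩, hmax⟩ := Int.exists_greatest_of_bdd
      (P := fun n : ℤ => ∃ ε : L, w (algebraMap L M ε) = 1 ∧ w (D ε) = WithZero.exp n)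
      ⟨WithZero.log C, by
        rintro n ⟨ε, h5, h6⟩
        have h7 := hC ε h5
        rw [h6] at h7
        have hC0 : C ≠ 0 := by
          rintro rfl
          exact absurd (hC ε₀ h1) (not_le.2 (lt_trans zero_lt_one h3))
        rw [← WithZero.exp_log hC0, WithZero.exp_le_exp] at h7
        exact h7⟩
      ⟨WithZero.log (w (D ε₀)), ε₀, h1, (WithZero.exp_log (hlog _ h3).1).symm⟩
    have hn0 : 0 < n := lt_of_lt_of_le (hlog _ h3).2
      (hmax _ ⟨ε₀, h1, (WithZero.exp_log (hlog _ h3).1).symm⟩)
    have h7 : 1 < w (D ε) := by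
      rw [h6, ← WithZero.exp_zero, WithZero.exp_lt_exp]
      exact hn0
    obtain ⟨y, hy0, hy1, hy2⟩ := step w D hL hn hF h5 (hint ε) h7
    obtain ⟨ε', h8, h9⟩ := hu y hy0 (by
      rw [hy2]
      exact hy1.trans h7)
    have hwy : w (algebraMap L M y) ≠ 0 := by
      rw [Valuation.ne_zero_iff, _root_.map_ne_zero]
      exact hy0
    have hwe : w (D ε') ≠ 0 := by
      intro h10
      rw [h10, mul_zero, hy2, h6] at h9
      exact WithZero.exp_ne_zero h9.symm
    have h10 := congrArg WithZero.log h9
    rw [WithZero.log_mul hwy hwe, hy2, h6, WithZero.log_exp] at h10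
    have h11 := hmax _ ⟨ε', h8, (WithZero.exp_log hwe).symm⟩
    have h12 : WithZero.log (w (algebraMap L M y)) < 0 := by
      rw [← WithZero.exp_log hwy, ← WithZero.exp_zero, WithZero.exp_lt_exp] at hy1
      exact hy1
    omega
  · push Not at htriv
    have hle : ∀ a : F, w (algebraMap F M a) ≤ 1 := by
      intro a
      by_cases ha : a = 0
      · rw [ha, map_zero, map_zero]
        exact zero_le
      · exact (htriv a ha).le
    have hone : ∀ x : L, x ≠ 0 → w (algebraMap L M x) = 1 := by
      intro x hx
      apply le_antisymm (le_one_of_int w hle (hint x))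
      have h1 := le_one_of_int w hle (hint x⁻¹)
      rw [map_inv₀, map_inv₀] at h1
      have hx0 : 0 < w (algebraMap L M x) := by
        rw [zero_lt_iff, Valuation.ne_zero_iff, _root_.map_ne_zero]
        exact hx
      rwa [inv_le_one₀ hx0] at h1
    have h1 := hone φ hφ0
    obtain ⟨y, hy0, hy1, -⟩ := step w D hL hn hF h1 (hint φ) (by rw [← h1]; exact hcon)
    rw [hone y hy0] at hy1
    exact lt_irrefl _ hy1


end Pool.Agent.Y724.T4
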