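import Pool.Agent.Y724.T4.Stm3
import Pool.Agent.Y724.T4.LDD

/-!
# The local bound for the determinant of a jet at a prime divisor, with the inverse different
-/

set_option autoImplicit false

namespace Pool.Agent.Y724.T4

open IsDedekindDomain nonZeroDivisors

private theorem cdt_val_det_le {L : Type} [Field L] (w : Valuation L (WithZero (Multiplicative ℤ)))
    {n : ℕ} (M : Matrix (Fin n) (Fin n) L) (g : Fin n → WithZero (Multiplicative ℤ))
    (h : ∀ i c, w (M i c) ≤ g c) : w M.det ≤ ∏ c, g c := by
  rw [Matrix.det_apply]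
  apply Valuation.map_sum_le
  intro σ _
  rw [Units.smul_def, zsmul_eq_mul, map_mul, map_prod]
  have h1 : w (((Equiv.Perm.sign σ : ℤˣ) : ℤ) : L) = 1 := by
    rcases Int.units_eq_one_or (Equiv.Perm.sign σ) with h | h <;> simp [h]
  rw [h1, one_mul]
  exact Finset.prod_le_prod' fun i _ => h _ _

private theorem cdt_col {R : Type} [CommRing R] {n : ℕ} {A B : Matrix (Fin n) (Fin n) R}
    (c : Fin n → R) (k : Fin n) (hk : c k = 0) (h : ∀ i j, A i j = B i j + c j * B i k) :
    A.det = B.det := by
  rw [← Matrix.det_transpose A, ← Matrix.det_transpose B]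
  exact Matrix.det_eq_of_forall_row_eq_smul_add_const c k hk fun i j => h j i

private theorem cdt_exists_gen {B L : Type} [CommRing B] [IsDomain B] [IsPrincipalIdealRing B]
    [Field L] [Algebra B L] [IsFractionRing B L] {ι : Type} [Fintype ι] (x : ι → L)
    (hx : x ≠ 0) : ∃ (c : L) (x' s : ι → B), c ≠ 0 ∧ (∀ i, x i = c * algebraMap B L (x' i)) ∧
      ∑ i, s i * x' i = 1 := by
  classical
  obtain ⟨b, hb⟩ := IsLocalization.exist_integer_multiples_of_finite (nonZeroDivisors B) x
  choose y hy using hb
  have hinj : Function.Injective (algebraMap B L) := IsFractionRing.injective B L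
  have hb0 : algebraMap B L (b : B) ≠ 0 := by
    rw [Ne, map_eq_zero_iff _ hinj]
    exact nonZeroDivisors.ne_zero b.2
  have hy' : ∀ i, algebraMap B L (y i) = algebraMap B L (b : B) * x i := by
    intro i
    rw [hy i, Algebra.smul_def]
  obtain ⟨g, hg⟩ := (IsPrincipalIdealRing.principal (Ideal.span (Set.range y))).principal
  rw [← Ideal.span] at hg
  have hdvd : ∀ l, ∃ c, y l = g * c := by
    intro l
    have : y l ∈ Ideal.span {g} := by
      rw [← hg]
      exact Ideal.subset_span ⟨l, rfl⟩
    exact Ideal.mem_span_singleton.mp this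
  choose x' hx' using hdvd
  have hgne : g ≠ 0 := by
    intro h0
    apply hx
    funext l
    have h1 := hy' l
    rw [hx' l, h0, zero_mul, map_zero] at h1
    exact (mul_eq_zero.mp h1.symm).resolve_left hb0
  have hgL : algebraMap B L g ≠ 0 := by
    rw [Ne, map_eq_zero_iff _ hinj]; exact hgne
  have hmem : g ∈ Ideal.span (Set.range y) := by
    rw [hg]; exact Ideal.mem_span_singleton_self g
  rw [Ideal.mem_span_range_iff_exists_fun] at hmem
  obtain ⟨s, hs⟩ := hmem
  refine ⟨algebraMap B L g / algebraMap B L (b : B), x', s, div_ne_zero hgL hb0, ?_, ?_⟩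
  · intro l
    have h1 := hy' l
    rw [hx' l, map_mul] at h1
    rw [div_mul_eq_mul_div, eq_div_iff hb0, h1]
    ring
  · apply mul_left_cancel₀ hgne
    rw [mul_one, Finset.mul_sum]
    conv_rhs => rw [← hs]
    refine Finset.sum_congr rfl fun l _ => ?_
    rw [hx' l]; ring

private theorem cdt_pid (O F L : Type) [CommRing O] [IsDomain O] [IsDiscreteValuationRing O]
    [Field F] [Field L] [Algebra O F] [IsFractionRing O F] [Algebra F L] [Algebra O L]
    [IsScalarTower O F L] [FiniteDimensional F L] [CharZero F] :
    IsPrincipalIdealRing (integralClosure O L) := by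
  have hFS : FaithfulSMul O L := by
    rw [faithfulSMul_iff_algebraMap_injective, IsScalarTower.algebraMap_eq O F L]
    exact (algebraMap F L).injective.comp (IsFractionRing.injective O F)
  have hDed : IsDedekindDomain (integralClosure O L) := integralClosure.isDedekindDomain O F L
  obtain ⟨t, ht⟩ := IsDiscreteValuationRing.exists_irreducible O
  have ht0 : t ≠ 0 := ht.ne_zero
  have htL : algebraMap O L t ≠ 0 := by
    rwa [Ne, FaithfulSMul.algebraMap_eq_zero_iff]
  have htS : ∀ M : Ideal (integralClosure O L), M.IsMaximal →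
      algebraMap O (integralClosure O L) t ∈ M := by
    intro M hM
    have h1 : (M.comap (algebraMap O (integralClosure O L))).IsMaximal :=
      Ideal.isMaximal_comap_of_isIntegral_of_isMaximal M
    have h2 := IsLocalRing.eq_maximalIdeal h1
    rw [← Ideal.mem_comap, h2, ht.maximalIdeal_eq, Ideal.mem_span_singleton]
  have htS0 : algebraMap O (integralClosure O L) t ≠ 0 := by
    intro h
    apply htL
    rw [IsScalarTower.algebraMap_apply O (integralClosure O L) L, h, map_zero]
  apply IsPrincipalIdealRing.of_finite_maximals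
  have hfin := Ideal.finite_factors (I := Ideal.span {algebraMap O (integralClosure O L) t})
    (by rw [Ne, Ideal.zero_eq_bot, Ideal.span_singleton_eq_bot]; exact htS0)
  refine (hfin.image (fun v => v.asIdeal)).subset ?_
  intro M hM
  have hM' : M.IsMaximal := hM
  have hMne : M ≠ ⊥ := fun h => htS0 (by simpa [h] using htS M hM')
  refine ⟨⟨M, hM'.isPrime, hMne⟩, ?_, rfl⟩
  simp only [Set.mem_ofPred_eq]
  rw [Ideal.dvd_span_singleton]
  exact htS M hM'

private theorem cdt_le_of_F {F L : Type} [Field F] [Field L] [Algebra F L] [FiniteDimensional F L]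
    [CharZero F] (w : Valuation L (WithZero (Multiplicative ℤ)))
    (hn : ∀ n : ℕ, n ≠ 0 → w (n : L) = 1) (D : Derivation ℤ L L)
    (hF : ∀ a : F, w (D (algebraMap F L a)) ≤ w (algebraMap F L a)) (φ : L) : w (D φ) ≤ w φ :=
  ldd F L L w (D : L →ₗ[ℤ] L).toAddMonoidHom hn (fun a b => D.leibniz a b) hF φ

section base
variable {O F L : Type} [CommRing O] [IsDomain O] [IsDiscreteValuationRing O] [Field F] [Field L]
    [Algebra O F] [IsFractionRing O F] [Algebra F L] [Algebra O L] [IsScalarTower O F L]
    {π : O} (D : Derivation ℤ L L)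

private theorem cdt_F_eq (hπ : Irreducible π) (hD : ∀ a : O, ∃ b : O, D (algebraMap O L a) = algebraMap O L b)
    (hDπ : ∃ b : O, D (algebraMap O L π) = algebraMap O L (π * b)) (a : F) :
    ∃ c : O, D (algebraMap F L a) = algebraMap F L a * algebraMap O L c := by
  have hpow : ∀ k : ℕ, ∃ b : O, D (algebraMap O L (π ^ k)) = algebraMap O L (π ^ k * b) := by
    intro k
    induction k with
    | zero => exact ⟨0, by simp⟩
    | succ k ih =>
      obtain ⟨b, hb⟩ := ih
      obtain ⟨b', hb'⟩ := hDπ
      refine ⟨b' + b, ?_⟩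
      rw [pow_succ, map_mul, D.leibniz, hb, hb', smul_eq_mul, smul_eq_mul, ← map_mul, ← map_mul,
        ← map_add]
      congr 1
      ring
  have hO : ∀ p : O, ∃ c : O, D (algebraMap O L p) = algebraMap O L (p * c) := by
    intro p
    by_cases hp : p = 0
    · exact ⟨0, by simp [hp]⟩
    obtain ⟨k, u, hu⟩ := IsDiscreteValuationRing.eq_unit_mul_pow_irreducible hp hπ
    obtain ⟨b, hb⟩ := hpow k
    obtain ⟨b', hb'⟩ := hD (u : O)
    refine ⟨b + (↑u⁻¹ : O) * b', ?_⟩
    rw [hu, map_mul, D.leibniz, hb, hb', smul_eq_mul, smul_eq_mul, ← map_mul, ← map_mul,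
      ← map_add]
    congr 1
    have h1 : (↑u⁻¹ : O) * ↑u = 1 := Units.inv_mul u
    linear_combination (-(π ^ k * b')) * h1
  obtain ⟨p, q, hq, rfl⟩ := IsFractionRing.div_surjective (A := O) a
  have hq0 : algebraMap O F q ≠ 0 := by
    rw [Ne, IsFractionRing.to_map_eq_zero_iff]
    exact nonZeroDivisors.ne_zero hq
  set a := algebraMap O F p / algebraMap O F q with ha
  have hqL : algebraMap O L q ≠ 0 := by
    rw [IsScalarTower.algebraMap_apply O F L, Ne, map_eq_zero]
    exact hq0
  have h1 : algebraMap F L a * algebraMap O L q = algebraMap O L p := by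
    rw [IsScalarTower.algebraMap_apply O F L q, ← map_mul, ha, div_mul_cancel₀ _ hq0,
      ← IsScalarTower.algebraMap_apply]
  obtain ⟨cp, hcp⟩ := hO p
  obtain ⟨cq, hcq⟩ := hO q
  refine ⟨cp - cq, ?_⟩
  have h2 := congrArg D h1
  rw [D.leibniz, hcp, hcq, smul_eq_mul, smul_eq_mul, map_mul, map_mul, ← h1] at h2
  apply mul_left_cancel₀ hqL
  rw [map_sub]
  linear_combination h2

private theorem cdt_mem_of_le (w : Valuation L (WithZero (Multiplicative ℤ)))
    (hwO : ∀ a : O, w (algebraMap O L a) ≤ 1) (hπ : Irreducible π)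
    (hwπ : w (algebraMap O L π) < 1) (a : F)
    (ha : w (algebraMap F L a) ≤ 1) : ∃ o : O, algebraMap O F o = a := by
  rcases ValuationRing.isInteger_or_isInteger O a with h | h
  · exact h
  · obtain ⟨o, ho⟩ := h
    by_cases ha0 : a = 0
    · exact ⟨0, by rw [ha0, map_zero]⟩
    by_cases hu : IsUnit o
    · obtain ⟨u, hu⟩ := hu
      refine ⟨(↑u⁻¹ : O), ?_⟩
      have h1 : algebraMap O F (↑u⁻¹ : O) * algebraMap O F o = 1 := by
        rw [← map_mul, ← hu, Units.inv_mul, map_one]
      rw [ho] at h1
      exact (mul_inv_eq_one₀ ha0).mp h1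
    · exfalso
      have h2 : π ∣ o := by
        have : o ∈ IsLocalRing.maximalIdeal O := (IsLocalRing.mem_maximalIdeal _).mpr hu
        rw [hπ.maximalIdeal_eq, Ideal.mem_span_singleton] at this
        exact this
      obtain ⟨o', ho'⟩ := h2
      have h3 : w (algebraMap O L o) < 1 := by
        rw [ho', map_mul, map_mul]
        exact (mul_le_of_le_one_right' (hwO o')).trans_lt hwπ
      have h4 : w (algebraMap F L a) * w (algebraMap O L o) = 1 := by
        rw [← map_mul, IsScalarTower.algebraMap_apply O F L o, ho, ← map_mul,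
          mul_inv_cancel₀ ha0, map_one, map_one]
      have h5 : w (algebraMap F L a) * w (algebraMap O L o) < 1 :=
        (mul_le_of_le_one_left' ha).trans_lt h3
      rw [h4] at h5
      exact lt_irrefl _ h5

end base

private theorem cdt_dual {F L : Type} [Field F] [Field L] [Algebra F L] [FiniteDimensional F L]
    {r : ℕ} (ω ω' : Fin r → L) (hr : Module.finrank F L = r)
    (h : ∀ i j, Algebra.trace F L (ω i * ω' j) = if i = j then 1 else 0) (δ : L) :
    δ = ∑ i, algebraMap F L (Algebra.trace F L (δ * ω i)) * ω' i := by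
  classical
  have key : ∀ (c : Fin r → F) (i : Fin r),
      Algebra.trace F L ((∑ j, c j • ω' j) * ω i) = c i := by
    intro c i
    rw [Finset.sum_mul, map_sum, Finset.sum_eq_single i]
    · rw [smul_mul_assoc, map_smul, mul_comm, h, if_pos rfl, smul_eq_mul, mul_one]
    · intro j _ hj
      rw [smul_mul_assoc, map_smul, mul_comm, h, if_neg (Ne.symm hj), smul_zero]
    · intro hi
      exact absurd (Finset.mem_univ i) hi
  have hli : LinearIndependent F ω' := by
    rw [Fintype.linearIndependent_iff]
    intro c hc i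
    have h1 := key c i
    rw [hc, zero_mul, map_zero] at h1
    exact h1.symm
  rcases Nat.eq_zero_or_pos r with h0 | h0
  · exfalso
    rw [h0] at hr
    have := Module.finrank_pos (R := F) (M := L)
    omega
  have : Nonempty (Fin r) := ⟨⟨0, h0⟩⟩
  let b := basisOfLinearIndependentOfCardEqFinrank hli (by rw [Fintype.card_fin, hr])
  have hb : ∀ i, b i = ω' i := fun i => by
    simp [b]
  have h1 : δ = ∑ j, b.repr δ j • ω' j := by
    conv_lhs => rw [← b.sum_repr δ]
    exact Finset.sum_congr rfl fun j _ => by rw [hb]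
  have h2 : ∀ i, Algebra.trace F L (δ * ω i) = b.repr δ i := by
    intro i
    conv_lhs => rw [h1]
    exact key _ i
  conv_lhs => rw [h1]
  refine Finset.sum_congr rfl fun i _ => ?_
  rw [h2, Algebra.smul_def]

theorem cd2' : S_CD2 := by
  intro O F L _ _ _ _ _ _ _ _ _ _ _ _ hnat N E hE r ω ω' hr hω hωω' x
  classical
  by_cases hx : x = 0
  · have h0 : (jetM (fun j => E j) x).det = 0 := by
      apply Matrix.det_eq_zero_of_column_eq_zero 0
      intro i
      simp [jetM, hx]
    rw [h0]
    exact Submodule.zero_mem _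
  have hFS : FaithfulSMul O L := by
    rw [faithfulSMul_iff_algebraMap_injective, IsScalarTower.algebraMap_eq O F L]
    exact (algebraMap F L).injective.comp (IsFractionRing.injective O F)
  have hDed : IsDedekindDomain (integralClosure O L) := integralClosure.isDedekindDomain O F L
  have hFr : IsFractionRing (integralClosure O L) L :=
    integralClosure.isFractionRing_of_finite_extension F L
  have hFin : Module.Finite O (integralClosure O L) :=
    IsIntegralClosure.finite O F L (integralClosure O L)
  have hPID : IsPrincipalIdealRing (integralClosure O L) := cdt_pid O F L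
  obtain ⟨π, hπ⟩ := IsDiscreteValuationRing.exists_irreducible O
  obtain ⟨c, x', s, hc, hxc, hs⟩ := cdt_exists_gen (B := integralClosure O L) x hx
  set A := algebraMap (integralClosure O L) L with hA
  have hAO : ∀ a : O, A (algebraMap O (integralClosure O L) a) = algebraMap O L a :=
    fun a => (IsScalarTower.algebraMap_apply O (integralClosure O L) L a).symm
  -- the determinant of `x'`
  have hdet : (jetM (fun j => E j) x).det =
      c ^ (N + 1) * (jetM (fun j => E j) (fun i => A (x' i))).det := by
    have h1 : (jetM (fun j => E j) x).det =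
        (c • jetM (fun j => E j) (fun i => A (x' i))).det := by
      apply cdt_col
        (Fin.cons 0 (fun j => E j c / c) : Fin (N + 1) → L) 0 (by simp)
      intro i j
      refine Fin.cases ?_ (fun j => ?_) j
      · simp [jetM, hxc i]
      · simp only [jetM, Matrix.of_apply, Matrix.smul_apply, Fin.cons_succ, Fin.cons_zero,
          smul_eq_mul]
        rw [hxc i, Derivation.leibniz, smul_eq_mul, smul_eq_mul]
        field_simp
    rw [h1, Matrix.det_smul, Fintype.card_fin]
  -- the span
  have hspan : ∀ (b : integralClosure O L) (y : L), y * (c ^ (N + 1) * A b) =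
      ∑ σ : Fin (N + 1) → Fin (N + 1), (b * ∏ i, s (σ i)) • (y * ∏ i, x (σ i)) := by
    intro b y
    have h2 : (1 : integralClosure O L) = ∑ σ : Fin (N + 1) → Fin (N + 1),
        ∏ i, (s (σ i) * x' (σ i)) := by
      rw [← Fintype.sum_pow (fun i => s i * x' i) (N + 1), hs, one_pow]
    have h3 : A b = ∑ σ : Fin (N + 1) → Fin (N + 1), A (b * ∏ i, (s (σ i) * x' (σ i))) := by
      rw [← map_sum, ← Finset.mul_sum, ← h2, mul_one]
    rw [h3, Finset.mul_sum, Finset.mul_sum]
    refine Finset.sum_congr rfl fun σ _ => ?_
    rw [Algebra.smul_def]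
    have h4 : ∏ i, x (σ i) = c ^ (N + 1) * A (∏ i, x' (σ i)) := by
      rw [map_prod, ← Fin.prod_const (N + 1) c, ← Finset.prod_mul_distrib]
      exact Finset.prod_congr rfl fun i _ => hxc _
    rw [h4, Finset.prod_mul_distrib, map_mul, map_mul, map_mul]
    ring
  suffices hint : ∀ d ∈ differentIdeal O (integralClosure O L),
      (jetM (fun j => E j) (fun i => A (x' i))).det * A d ∈ A.range by
    have hdual : (jetM (fun j => E j) (fun i => A (x' i))).det ∈
        FractionalIdeal.dual O F (1 : FractionalIdeal (integralClosure O L)⁰ L) := by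
      have h1 := coeIdeal_differentIdeal O F L (integralClosure O L)
      have h2 : FractionalIdeal.dual O F (1 : FractionalIdeal (integralClosure O L)⁰ L) =
          ((differentIdeal O (integralClosure O L) : Ideal (integralClosure O L)) :
            FractionalIdeal (integralClosure O L)⁰ L)⁻¹ := by
        rw [h1, inv_inv]
      have h3 : ((differentIdeal O (integralClosure O L) : Ideal (integralClosure O L)) :
            FractionalIdeal (integralClosure O L)⁰ L) ≠ 0 := by
        rw [h1]
        exact inv_ne_zero (FractionalIdeal.dual_ne_zero O F one_ne_zero)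
      rw [h2, FractionalIdeal.mem_inv_iff h3]
      intro y hy
      obtain ⟨d, hd, rfl⟩ := (FractionalIdeal.mem_coeIdeal _).1 hy
      obtain ⟨b, hb⟩ := hint d hd
      exact (FractionalIdeal.mem_one_iff _).2 ⟨b, hb⟩
    have h10 : (1 : FractionalIdeal (integralClosure O L)⁰ L) ≠ 0 := one_ne_zero
    rw [FractionalIdeal.mem_dual h10] at hdual
    have htr : ∀ i, ∃ o : O, algebraMap O F o = Algebra.trace F L
        ((jetM (fun j => E j) (fun i => A (x' i))).det * ω i) := by
      intro i
      obtain ⟨o, ho⟩ := hdual (ω i) ((FractionalIdeal.mem_one_iff _).2 ⟨⟨ω i, hω i⟩, rfl⟩)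
      exact ⟨o, ho⟩
    choose o ho using htr
    rw [hdet, cdt_dual (F := F) ω ω' hr hωω' (jetM (fun j => E j) (fun i => A (x' i))).det,
      Finset.mul_sum]
    refine Submodule.sum_mem _ fun i _ => ?_
    rw [← ho i, ← IsScalarTower.algebraMap_apply, ← hAO]
    have h5 : c ^ (N + 1) * (A (algebraMap O (integralClosure O L) (o i)) * ω' i) =
        ω' i * (c ^ (N + 1) * A (algebraMap O (integralClosure O L) (o i))) := by ring
    rw [h5, hspan]
    exact Submodule.sum_mem _ fun σ _ =>
      Submodule.smul_mem _ _ (Submodule.subset_span ⟨(i, σ), rfl⟩)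
  intro d hd
  apply HeightOneSpectrum.mem_integers_of_valuation_le_one
  intro P
  set w := P.valuation L with hw
  have hwB : ∀ b : integralClosure O L, w (A b) ≤ 1 := fun b => P.valuation_le_one b
  have hwO : ∀ a : O, w (algebraMap O L a) ≤ 1 := fun a => by
    rw [← hAO]; exact hwB _
  have hwn : ∀ n : ℕ, n ≠ 0 → w (n : L) = 1 := by
    intro n hn
    obtain ⟨u, hu⟩ := hnat n hn
    have h1 : (n : L) = algebraMap O L (u : O) := by rw [hu, map_natCast]
    have h2 : w (algebraMap O L (u : O)) * w (algebraMap O L (↑u⁻¹ : O)) = 1 := by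
      rw [← map_mul, ← map_mul, Units.mul_inv, map_one, map_one]
    rw [h1]
    apply le_antisymm (hwO _)
    rw [← h2]
    exact mul_le_of_le_one_right' (hwO _)
  -- the uniformizer
  have hPmax : P.asIdeal.IsMaximal := P.isMaximal
  have hπP : algebraMap O (integralClosure O L) π ∈ P.asIdeal := by
    have h1 : (P.asIdeal.comap (algebraMap O (integralClosure O L))).IsMaximal :=
      Ideal.isMaximal_comap_of_isIntegral_of_isMaximal P.asIdeal
    have h2 := IsLocalRing.eq_maximalIdeal h1
    rw [← Ideal.mem_comap, h2, hπ.maximalIdeal_eq, Ideal.mem_span_singleton]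
  have hwπ : w (algebraMap O L π) < 1 := by
    rw [← hAO]
    exact (P.valuation_lt_one_iff_mem _).mpr hπP
  have hπL : algebraMap O L π ≠ 0 := by
    rw [Ne, FaithfulSMul.algebraMap_eq_zero_iff]
    exact hπ.ne_zero
  have hwπ0 : w (algebraMap O L π) ≠ 0 := by
    rw [Valuation.ne_zero_iff]; exact hπL
  obtain ⟨e, he⟩ : ∃ e : ℕ, w (algebraMap O L π) = WithZero.exp (-(e : ℤ) - 1) := by
    have h1 : WithZero.log (w (algebraMap O L π)) < 0 := by
      rw [← WithZero.exp_log hwπ0, ← WithZero.exp_zero, WithZero.exp_lt_exp] at hwπ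
      exact hwπ
    refine ⟨(-WithZero.log (w (algebraMap O L π)) - 1).toNat, ?_⟩
    rw [Int.toNat_of_nonneg (by omega)]
    conv_lhs => rw [← WithZero.exp_log hwπ0]
    congr 1
    ring
  -- (a)
  have ha : w (A d) ≤ WithZero.exp (-(e : ℤ)) := by
    have hle : P.intValuation (algebraMap O (integralClosure O L) π) ≤
        WithZero.exp (-((e + 1 : ℕ) : ℤ)) := by
      rw [← P.valuation_of_algebraMap (K := L)]
      change w (A _) ≤ _
      rw [hAO, he]
      push_cast
      apply le_of_eq
      congr 1
      ring
    have h5 : P.asIdeal ^ (e + 1) ∣ (IsLocalRing.maximalIdeal O).map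
        (algebraMap O (integralClosure O L)) := by
      rw [hπ.maximalIdeal_eq, Ideal.map_span, Set.image_singleton]
      exact (P.intValuation_le_pow_iff_dvd _ _).mp hle
    have hp : IsLocalRing.maximalIdeal O ≠ ⊥ := IsDiscreteValuationRing.not_a_field O
    have h6 := pow_sub_one_dvd_differentIdeal_aux O F L P.asIdeal (Nat.succ_ne_zero e) hp h5
    rw [Nat.succ_eq_add_one, Nat.add_sub_cancel] at h6
    have h7 : d ∈ P.asIdeal ^ e := Ideal.dvd_iff_le.mp h6 hd
    change P.valuation L (algebraMap _ L _) ≤ _
    rw [P.valuation_of_algebraMap]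
    exact (P.intValuation_le_pow_iff_mem _ _).mpr h7
  have ha1 : w (A d) ≤ 1 := hwB d
  have hgood : ∀ D : Derivation ℤ L L, (∀ a : O, ∃ b : O, D (algebraMap O L a) = algebraMap O L b) →
      (∃ b : O, D (algebraMap O L π) = algebraMap O L (π * b)) → ∀ b : L, w (D b) ≤ w b := by
    intro D hD hDπ b
    refine cdt_le_of_F (F := F) w hwn D (fun a => ?_) b
    obtain ⟨c, hc⟩ := cdt_F_eq (F := F) D hπ hD hDπ a
    rw [hc, map_mul]
    exact mul_le_of_le_one_right' (hwO c)
  by_cases hall : ∀ j, ∃ b : O, E j (algebraMap O L π) = algebraMap O L (π * b)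
  · -- (b)
    have h1 : w (jetM (fun j => E j) (fun i => A (x' i))).det ≤ ∏ _c : Fin (N + 1), 1 := by
      apply cdt_val_det_le
      intro i c
      refine Fin.cases ?_ (fun j => ?_) c
      · simp only [jetM, Matrix.of_apply, Fin.cons_zero]
        exact hwB _
      · simp only [jetM, Matrix.of_apply, Fin.cons_succ]
        exact (hgood (E j) (hE j) (hall j) _).trans (hwB _)
    rw [Finset.prod_const_one] at h1
    rw [map_mul]
    exact mul_le_one' h1 ha1
  · -- (c)
    push Not at hall
    obtain ⟨j0, hj0⟩ := hall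
    obtain ⟨b0, hb0⟩ := hE j0 π
    have hb0u : IsUnit b0 := by
      by_contra hnu
      have h2 : π ∣ b0 := by
        have : b0 ∈ IsLocalRing.maximalIdeal O := (IsLocalRing.mem_maximalIdeal _).mpr hnu
        rw [hπ.maximalIdeal_eq, Ideal.mem_span_singleton] at this
        exact this
      obtain ⟨o', ho'⟩ := h2
      exact hj0 o' (by rw [hb0, ho'])
    obtain ⟨u, hu⟩ := hb0u
    choose bb hbb using fun j => hE j π
    set cc : Fin N → O := fun j => if j = j0 then 0 else bb j * (↑u⁻¹ : O) with hcc
    set E' : Fin N → Derivation ℤ L L := fun j => E j - (algebraMap O L (cc j)) • E j0 with hE'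
    have hE'a : ∀ j b, E' j b = E j b - algebraMap O L (cc j) * E j0 b := by
      intro j b
      rfl
    have hdet' : (jetM (fun j => E j) (fun i => A (x' i))).det =
        (jetM (fun j => E' j) (fun i => A (x' i))).det := by
      apply cdt_col
        (Fin.cons 0 (fun j => algebraMap O L (cc j)) : Fin (N + 1) → L) j0.succ
        (by simp [hcc])
      intro i j
      refine Fin.cases ?_ (fun j => ?_) j
      · simp [jetM]
      · simp only [jetM, Matrix.of_apply, Fin.cons_succ]
        rw [hE'a, hE'a]
        have : cc j0 = 0 := by simp [hcc]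
        rw [this, map_zero]
        ring
    -- the exceptional derivation
    set D : Derivation ℤ L L := (algebraMap O L π) • E j0 with hD
    have hDa : ∀ b, D b = algebraMap O L π * E j0 b := fun b => rfl
    have hDgood := hgood D (fun a => by
        obtain ⟨b, hb⟩ := hE j0 a
        exact ⟨π * b, by rw [hDa, hb, map_mul]⟩) ⟨b0, by rw [hDa, hb0, map_mul]⟩
    have hDlt : ∀ b : L, w b ≤ 1 → w (D b) < 1 := by
      intro b hb
      rcases lt_or_eq_of_le hb with hb | hb
      · exact (hDgood b).trans_lt hb
      · obtain ⟨p, h1, h2, h3⟩ := exists_poly (F := F) (L := L) (M := L) w hwn (ε := b) hb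
          (Algebra.IsIntegral.isIntegral b)
        have h4 := D_aeval (F := F) (L := L) (M := L) (D : L →ₗ[ℤ] L).toAddMonoidHom
          (fun a b => D.leibniz a b) b p
        have h5 : w (dc (F := F) (L := L) (M := L) (D : L →ₗ[ℤ] L).toAddMonoidHom b p) < 1 := by
          unfold dc
          rw [Polynomial.sum_def]
          apply Valuation.map_sum_lt w one_ne_zero
          intro i _
          obtain ⟨o, ho⟩ := cdt_mem_of_le (O := O) w hwO hπ hwπ (p.coeff i) (h1 i)
          obtain ⟨b', hb'⟩ := hE j0 o
          rw [map_mul, map_pow]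
          have h6 : (D : L →ₗ[ℤ] L).toAddMonoidHom (algebraMap F L (p.coeff i)) =
              algebraMap O L π * algebraMap O L b' := by
            rw [← ho, ← IsScalarTower.algebraMap_apply]
            change D _ = _
            rw [hDa, hb']
          rw [h6, map_mul]
          have h7 : w (algebraMap L L b) = 1 := hb
          rw [h7, one_pow, mul_one]
          exact (mul_le_of_le_one_right' (hwO b')).trans_lt hwπ
        have h6 : w (D (Polynomial.aeval b p)) < 1 := (hDgood _).trans_lt h2
        have h7 : algebraMap L L (Polynomial.aeval b (Polynomial.derivative p)) * D b =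
            D (Polynomial.aeval b p) -
              dc (F := F) (L := L) (M := L) (D : L →ₗ[ℤ] L).toAddMonoidHom b p := by
          have h8 : D (Polynomial.aeval b p) =
            dc (F := F) (L := L) (M := L) (D : L →ₗ[ℤ] L).toAddMonoidHom b p +
            algebraMap L L (Polynomial.aeval b (Polynomial.derivative p)) * D b := h4
          rw [h8]; ring
        have h8 : w (algebraMap L L (Polynomial.aeval b (Polynomial.derivative p)) * D b) < 1 := by
          rw [h7]
          exact (w.map_sub _ _).trans_lt (max_lt h6 h5)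
        rwa [map_mul, h3, one_mul] at h8
    have hE0 : ∀ b : L, w b ≤ 1 → w (E j0 b) ≤ WithZero.exp (e : ℤ) := by
      intro b hb
      have h1 := hDlt b hb
      rw [hDa, map_mul, he] at h1
      by_cases h0 : w (E j0 b) = 0
      · rw [h0]; exact zero_le
      rw [← WithZero.exp_log h0, ← WithZero.exp_add, ← WithZero.exp_zero,
        WithZero.exp_lt_exp] at h1
      rw [← WithZero.exp_log h0, WithZero.exp_le_exp]
      omega
    have h1 : w (jetM (fun j => E' j) (fun i => A (x' i))).det ≤
        ∏ c : Fin (N + 1), (if c = j0.succ then WithZero.exp (e : ℤ) else 1) := by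
      apply cdt_val_det_le
      intro i c
      refine Fin.cases ?_ (fun j => ?_) c
      · simp only [jetM, Matrix.of_apply, Fin.cons_zero]
        rw [if_neg (Fin.succ_ne_zero j0).symm]
        exact hwB _
      · simp only [jetM, Matrix.of_apply, Fin.cons_succ]
        by_cases hj : j = j0
        · rw [hj, if_pos rfl, hE'a]
          have : cc j0 = 0 := by simp [hcc]
          rw [this, map_zero, zero_mul, sub_zero]
          exact hE0 _ (hwB _)
        · rw [if_neg (fun h => hj (Fin.succ_injective _ h))]
          refine (hgood (E' j) ?_ ?_ _).trans (hwB _)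
          · intro a
            obtain ⟨b1, hb1⟩ := hE j a
            obtain ⟨b2, hb2⟩ := hE j0 a
            exact ⟨b1 - cc j * b2, by rw [hE'a, hb1, hb2, map_sub, map_mul]⟩
          · refine ⟨0, ?_⟩
            rw [hE'a, hbb j, hb0, ← hu, ← map_mul, ← map_sub]
            congr 1
            simp only [hcc, if_neg hj]
            rw [mul_assoc, Units.inv_mul, mul_one, sub_self, mul_zero]
    rw [Finset.prod_ite_eq' Finset.univ j0.succ (fun _ => WithZero.exp (e : ℤ)),
      if_pos (Finset.mem_univ _)] at h1
    rw [map_mul, hdet']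
    refine (mul_le_mul' h1 ha).trans ?_
    rw [← WithZero.exp_add, ← WithZero.exp_zero, WithZero.exp_le_exp]
    omega

theorem cd2 (_h : S_LDD) : S_CD2 := cd2'

end Pool.Agent.Y724.T4
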