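import Mathlib
import Pool.Agent.Y724.T4.Stm2

/-!
# The global form of the bound for the determinant

The local bound `S_CD` is used at the localisations of the ring of the polynomials in the `g i`
at the prime elements which do not divide the variables, and the local multipliers are put
together by `S_GB`.
-/

set_option autoImplicit false

namespace Pool.Agent.Y724.T4

open Polynomial

namespace CDGp

section der

variable {A F G : Type} [CommRing A] [IsDomain A] [Field F] [Algebra A F] [IsFractionRing A F]
  [Field G] [Algebra ℚ G] [Algebra A G] [Algebra F G] [IsScalarTower A F G]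

omit [IsDomain A] in
/-- a derivation which preserves `A` preserves its fractions -/
theorem der_frac (E : Derivation ℚ G G)
    (hE : ∀ a : A, ∃ b : A, E (algebraMap A G a) = algebraMap A G b) (z : F) :
    ∃ w : F, E (algebraMap F G z) = algebraMap F G w := by
  obtain ⟨a, b, hb, rfl⟩ := IsFractionRing.div_surjective A z
  obtain ⟨a', ha'⟩ := hE a
  obtain ⟨b', hb'⟩ := hE b
  refine ⟨(algebraMap A F b)⁻¹ ^ 2 * (algebraMap A F b * algebraMap A F a' -
    algebraMap A F a * algebraMap A F b'), ?_⟩
  rw [map_div₀, ← IsScalarTower.algebraMap_apply, ← IsScalarTower.algebraMap_apply,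
    Derivation.leibniz_div, ha', hb']
  simp only [smul_eq_mul, map_mul, map_sub, map_pow, map_inv₀, ← IsScalarTower.algebraMap_apply]

/-- and it preserves the localisations of `A` -/
theorem der_loc {O : Type} [CommRing O] [Algebra A O] (M : Submonoid A) [IsLocalization M O]
    [Algebra O G] [IsScalarTower A O G] (hinj : Function.Injective (algebraMap A G))
    (hM : M ≤ nonZeroDivisors A) (E : Derivation ℚ G G)
    (hE : ∀ a : A, ∃ b : A, E (algebraMap A G a) = algebraMap A G b) (z : O) :
    ∃ w : O, E (algebraMap O G z) = algebraMap O G w := by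
  obtain ⟨a, s, rfl⟩ := IsLocalization.exists_mk'_eq M z
  obtain ⟨a', ha'⟩ := hE a
  obtain ⟨b', hb'⟩ := hE s
  have hs : algebraMap A G s ≠ 0 := by
    intro h
    have h1 : (s : A) = 0 := hinj (by rw [h, map_zero])
    exact nonZeroDivisors.ne_zero (hM s.2) h1
  have key : ∀ c : A, ∀ t : M, algebraMap O G (IsLocalization.mk' O c t) =
      algebraMap A G c / algebraMap A G t := by
    intro c t
    have ht : algebraMap A G t ≠ 0 := by
      intro h
      have h1 : (t : A) = 0 := hinj (by rw [h, map_zero])
      exact nonZeroDivisors.ne_zero (hM t.2) h1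
    rw [eq_div_iff ht, IsScalarTower.algebraMap_apply A O G t, ← map_mul,
      IsLocalization.mk'_spec, ← IsScalarTower.algebraMap_apply]
  refine ⟨IsLocalization.mk' O ((s : A) * a' - a * b') (s ^ 2), ?_⟩
  rw [key, key, Derivation.leibniz_div, ha', hb']
  simp only [smul_eq_mul, map_mul, map_sub, SubmonoidClass.coe_pow, map_pow]
  field_simp

/-- the derivative of a root of a polynomial -/
theorem der_root (E : Derivation ℚ G G) (f : Polynomial G) (θ : G) (hr : f.eval θ = 0)
    (hd : (derivative f).eval θ ≠ 0) :
    E θ = -(((derivative f).eval θ)⁻¹ *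
      ∑ i ∈ Finset.range (f.natDegree + 1), θ ^ i * E (f.coeff i)) := by
  have h1 : E (f.eval θ) = (derivative f).eval θ * E θ +
      ∑ i ∈ Finset.range (f.natDegree + 1), θ ^ i * E (f.coeff i) := by
    rw [Polynomial.eval_eq_sum_range, map_sum, Polynomial.derivative_eval,
      Polynomial.sum_over_range _ (by intro n; simp), Finset.sum_mul, ← Finset.sum_add_distrib]
    refine Finset.sum_congr rfl fun i _ => ?_
    rw [Derivation.leibniz, Derivation.leibniz_pow]
    simp only [smul_eq_mul, nsmul_eq_mul]
    ring
  rw [hr, map_zero] at h1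
  have h2 : (derivative f).eval θ * E θ =
      -∑ i ∈ Finset.range (f.natDegree + 1), θ ^ i * E (f.coeff i) := by
    linear_combination -h1
  rw [← mul_neg, ← h2, inv_mul_cancel_left₀ hd]

omit [IsDomain A] in
/-- it preserves `F(θ)` -/
theorem der_adj (E : Derivation ℚ G G)
    (hE : ∀ a : A, ∃ b : A, E (algebraMap A G a) = algebraMap A G b) (f : Polynomial G) (θ : G)
    (hr : f.eval θ = 0) (hd : (derivative f).eval θ ≠ 0)
    (hf : ∀ i, ∃ z : F, f.coeff i = algebraMap F G z) :
    ∀ y ∈ IntermediateField.adjoin F {θ}, E y ∈ IntermediateField.adjoin F {θ} := by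
  have hθ : θ ∈ IntermediateField.adjoin F {θ} :=
    IntermediateField.subset_adjoin F {θ} (Set.mem_singleton θ)
  have hcf : ∀ i, f.coeff i ∈ IntermediateField.adjoin F {θ} := by
    intro i
    obtain ⟨z, hz⟩ := hf i
    rw [hz]
    exact IntermediateField.algebraMap_mem _ z
  have hEθ : E θ ∈ IntermediateField.adjoin F {θ} := by
    rw [der_root E f θ hr hd]
    refine neg_mem (mul_mem (inv_mem ?_) (sum_mem fun i _ => mul_mem (pow_mem hθ i) ?_))
    · rw [Polynomial.eval_eq_sum_range]
      refine sum_mem fun i _ => mul_mem ?_ (pow_mem hθ i)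
      rw [Polynomial.coeff_derivative]
      refine mul_mem (hcf _) ?_
      have : ((i : G) + 1) = ((i + 1 : ℕ) : G) := by push_cast; ring
      rw [this]
      exact natCast_mem _ _
    · obtain ⟨z, hz⟩ := hf i
      obtain ⟨w, hw⟩ := der_frac (A := A) (F := F) E hE z
      rw [hz, hw]
      exact IntermediateField.algebraMap_mem _ w
  intro y hy
  induction hy using IntermediateField.adjoin_induction with
  | mem x hx =>
    rw [Set.mem_singleton_iff] at hx
    rw [hx]
    exact hEθ
  | algebraMap z =>
    obtain ⟨w, hw⟩ := der_frac (A := A) (F := F) E hE z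
    rw [hw]
    exact IntermediateField.algebraMap_mem _ w
  | add x y _ _ h1 h2 => rw [map_add]; exact add_mem h1 h2
  | inv x hx h1 =>
    rw [Derivation.leibniz_inv, smul_eq_mul]
    exact mul_mem (neg_mem (pow_mem (inv_mem hx) 2)) h1
  | mul x y hx hy h1 h2 =>
    rw [Derivation.leibniz, smul_eq_mul, smul_eq_mul]
    exact add_mem (mul_mem hx h2) (mul_mem hy h1)

/-- the restriction to `F(θ)` -/
def resD (L : IntermediateField F G) (E : Derivation ℚ G G) (h : ∀ y ∈ L, E y ∈ L) :
    Derivation ℤ L L :=
  Derivation.mk' (AddMonoidHom.toIntLinearMap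
    { toFun := fun y => ⟨E y, h y y.2⟩
      map_zero' := by
        ext
        simp
      map_add' := fun a b => by
        ext
        simp }) fun a b => by
    ext
    simp

theorem resD_coe (L : IntermediateField F G) (E : Derivation ℚ G G) (h : ∀ y ∈ L, E y ∈ L)
    (y : L) : ((resD L E h y : L) : G) = E (y : G) := rfl

end der


section loc

variable {A F G O : Type} [CommRing A] [IsDomain A] [Field F] [Algebra A F] [IsFractionRing A F]
  [Field G] [CharZero G] [Algebra ℚ G] [Algebra A G] [Algebra F G] [IsScalarTower A F G]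
  [CommRing O] [IsDomain O] [IsDiscreteValuationRing O] [Algebra A O] [Algebra O F]
  [IsFractionRing O F] [Algebra O G] [IsScalarTower O F G] [IsScalarTower A O G]

omit [IsDomain A] [CharZero G] [Algebra ℚ G] [IsDomain O] [IsDiscreteValuationRing O] in
/-- a common multiplier -/
theorem common (M : Submonoid A) [IsLocalization M O] {κ : Type} [Fintype κ] (β : κ → G)
    (h : ∀ j, IsIntegral O (β j)) :
    ∃ s ∈ M, ∀ j, IsIntegral A (algebraMap A G s * β j) := by
  classical
  choose m hm using fun j => IsIntegral.exists_multiple_integral_of_isLocalization M (β j) (h j)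
  refine ⟨∏ j, (m j : A), prod_mem fun j _ => (m j).2, fun j => ?_⟩
  have h1 : IsIntegral A (algebraMap A G (m j) * β j) := by
    have := hm j
    rwa [Submonoid.smul_def, Algebra.smul_def] at this
  rw [← Finset.prod_erase_mul _ _ (Finset.mem_univ j), map_mul, mul_assoc]
  exact isIntegral_algebraMap.mul h1

theorem local_one (h1 : S_CD) (M : Submonoid A) [IsLocalization M O]
    (hinj : Function.Injective (algebraMap A G)) (hM : M ≤ nonZeroDivisors A)
    (hnat : ∀ n : ℕ, n ≠ 0 → IsUnit (n : O)) {N : ℕ} (E : Fin N → Derivation ℚ G G)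
    (hE : ∀ j (a : A), ∃ b : A, E j (algebraMap A G a) = algebraMap A G b)
    (f : Polynomial G) (θ : G) (hm : f.Monic) (hr : f.eval θ = 0)
    (hd : (derivative f).eval θ ≠ 0) (hf : ∀ i, ∃ z : O, f.coeff i = algebraMap O G z)
    (x : Fin (N + 1) → G) (hx : ∀ i, x i ∈ IntermediateField.adjoin F {θ}) :
    ∃ s ∈ M, ∃ β : (Fin (N + 1) → Fin (N + 1)) → G, (∀ t, IsIntegral A (β t)) ∧
      algebraMap A G s * ((derivative f).eval θ * (jetM (fun j => E j) x).det) =
        ∑ t : Fin (N + 1) → Fin (N + 1), β t * ∏ i, x (t i) := by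
  classical
  -- the coefficients lie in `F`
  have hfF : ∀ i, ∃ z : F, f.coeff i = algebraMap F G z := by
    intro i
    obtain ⟨z, hz⟩ := hf i
    exact ⟨algebraMap O F z, by rw [hz, ← IsScalarTower.algebraMap_apply]⟩
  set L := IntermediateField.adjoin F {θ} with hL
  have hθ : θ ∈ L := IntermediateField.subset_adjoin F {θ} (Set.mem_singleton θ)
  have hres : ∀ j, ∀ y ∈ L, E j y ∈ L := fun j => der_adj (A := A) (E j) (hE j) f θ hr hd hfF
  have : IsScalarTower O L G := IsScalarTower.of_algebraMap_eq fun _ => rfl
  -- the polynomial over `O`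
  obtain ⟨q, hq1, -, hq3⟩ := Polynomial.lifts_and_degree_eq_and_monic
    (f := algebraMap O G) (p := f) (by
      rw [Polynomial.lifts_iff_coeff_lifts]
      intro i
      obtain ⟨z, hz⟩ := hf i
      exact ⟨z, hz.symm⟩) hm
  have hcoe : ∀ r : Polynomial O, ((Polynomial.aeval (⟨θ, hθ⟩ : L) r : L) : G) =
      (r.map (algebraMap O G)).eval θ := by
    intro r
    rw [Polynomial.eval_map_algebraMap]
    have := Polynomial.aeval_algebraMap_apply G (⟨θ, hθ⟩ : L) r
    exact this.symm
  have hint : IsIntegral F θ := by
    obtain ⟨qF, e1, -, e3⟩ := Polynomial.lifts_and_degree_eq_and_monic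
      (f := algebraMap F G) (p := f) (by
        rw [Polynomial.lifts_iff_coeff_lifts]
        intro i
        obtain ⟨z, hz⟩ := hfF i
        exact ⟨z, hz.symm⟩) hm
    refine ⟨qF, e3, ?_⟩
    rw [← Polynomial.eval_map, e1, hr]
  have : FiniteDimensional F L := IntermediateField.adjoin.finiteDimensional hint
  have : CharZero F := (algebraMap F G).charZero
  have htop : Algebra.adjoin F {(⟨θ, hθ⟩ : L)} = ⊤ :=
    (IntermediateField.adjoin.powerBasis hint).adjoin_gen_eq_top
  have key := h1 O F L hnat N (fun j => resD L (E j) (hres j)) (by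
    intro j a
    obtain ⟨b, hb⟩ := der_loc M hinj hM (E j) (hE j) a
    refine ⟨b, Subtype.ext ?_⟩
    rw [resD_coe]
    exact hb) q ⟨θ, hθ⟩ hq3 (by
      apply Subtype.ext
      rw [hcoe, hq1, hr]
      rfl) htop (fun i => ⟨x i, hx i⟩)
  obtain ⟨cf, hcf⟩ := (Submodule.mem_span_range_iff_exists_fun _).1 key
  -- the identity in `G`
  have hdet : (((jetM (fun j => resD L (E j) (hres j)) (fun i => (⟨x i, hx i⟩ : L))).det : L) : G) =
      (jetM (fun j => E j) x).det := by
    have e1 := RingHom.map_det (algebraMap L G)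
      (jetM (fun j => resD L (E j) (hres j)) (fun i => (⟨x i, hx i⟩ : L)))
    refine e1.trans ?_
    congr 1
    ext i c
    refine Fin.cases ?_ (fun j => ?_) c
    · rfl
    · rfl
  have hmain : (derivative f).eval θ * (jetM (fun j => E j) x).det =
      ∑ t : Fin (N + 1) → Fin (N + 1), ((cf t : L) : G) * ∏ i, x (t i) := by
    have e1 := congrArg (algebraMap L G) hcf
    rw [map_sum, map_mul] at e1
    have e2 : algebraMap L G (Polynomial.aeval (⟨θ, hθ⟩ : L) (derivative q)) =
        (derivative f).eval θ := by
      have := hcoe (derivative q)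
      rw [← Polynomial.derivative_map, hq1] at this
      exact this
    rw [e2] at e1
    have e3 : algebraMap L G (jetM (fun j => resD L (E j) (hres j))
        (fun i => (⟨x i, hx i⟩ : L))).det = (jetM (fun j => E j) x).det := hdet
    rw [e3] at e1
    rw [← e1]
    refine Finset.sum_congr rfl fun t _ => ?_
    rw [Algebra.smul_def, map_mul, map_prod]
    rfl
  obtain ⟨s, hs, hint2⟩ := common M (fun t => ((cf t : L) : G)) (fun t => by
    have e1 : IsIntegral O (cf t : L) := (cf t).2
    exact e1.map (IsScalarTower.toAlgHom O L G))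
  refine ⟨s, hs, fun t => algebraMap A G s * ((cf t : L) : G), hint2, ?_⟩
  rw [hmain, Finset.mul_sum]
  exact Finset.sum_congr rfl fun t _ => by ring

end loc

section dvr

/-- the localisation of a noetherian domain at a principal prime is a discrete valuation ring -/
theorem dvrP {A : Type} [CommRing A] [IsDomain A] [IsNoetherianRing A] {p : A} (hp : Prime p)
    (P : Ideal A) (hP : P = Ideal.span {p}) [P.IsPrime] :
    IsDiscreteValuationRing (Localization.AtPrime P) := by
  have hinj : Function.Injective (algebraMap A (Localization.AtPrime P)) :=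
    IsLocalization.injective (Localization.AtPrime P) P.primeCompl_le_nonZeroDivisors
  have hpP : p ∈ P := by rw [hP]; exact Ideal.mem_span_singleton_self p
  have hf : ¬ IsField (Localization.AtPrime P) := by
    rw [IsLocalRing.isField_iff_maximalIdeal_eq]
    intro h
    have h2 : algebraMap A (Localization.AtPrime P) p ∈
        IsLocalRing.maximalIdeal (Localization.AtPrime P) := by
      rw [← Localization.AtPrime.map_eq_maximalIdeal]
      exact Ideal.mem_map_of_mem _ hpP
    rw [h, Ideal.mem_bot] at h2
    exact hp.ne_zero (hinj (by rw [h2, map_zero]))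
  have : IsNoetherianRing (Localization.AtPrime P) :=
    IsLocalization.isNoetherianRing P.primeCompl (Localization.AtPrime P) inferInstance
  have hpr : (IsLocalRing.maximalIdeal (Localization.AtPrime P)).IsPrincipal := by
    refine ⟨algebraMap A (Localization.AtPrime P) p, ?_⟩
    rw [← Localization.AtPrime.map_eq_maximalIdeal]
    have e : Ideal.map (algebraMap A (Localization.AtPrime P)) P =
        Ideal.map (algebraMap A (Localization.AtPrime P)) (Ideal.span {p}) :=
      congrArg (Ideal.map (algebraMap A (Localization.AtPrime P))) hP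
    rw [e, Ideal.map_span, Set.image_singleton]
  exact ((IsDiscreteValuationRing.TFAE (Localization.AtPrime P) hf).out 4 0).1 hpr

end dvr

section glob

variable {A G : Type} [CommRing A] [IsDomain A] [Field G] [CharZero G] [Algebra ℚ G] [Algebra A G]

theorem glob [IsNoetherianRing A] (h1 : S_CD) (hinj : Function.Injective (algebraMap A G))
    (hnat : ∀ n : ℕ, n ≠ 0 → IsUnit (n : A)) {N : ℕ} (E : Fin N → Derivation ℚ G G)
    (hE : ∀ j (a : A), ∃ b : A, E j (algebraMap A G a) = algebraMap A G b) (S : Set A)
    (h0 : ∀ c ∈ S, c ≠ 0)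
    (f : Polynomial G) (θ : G) (hm : f.Monic) (hr : f.eval θ = 0)
    (hd : (derivative f).eval θ ≠ 0)
    (hf : ∀ i, ∃ c ∈ S, ∃ P : A, f.coeff i * algebraMap A G c = algebraMap A G P)
    (x : Fin (N + 1) → G)
    (hx : ∀ i, x i ∈ Subfield.closure (Set.range (algebraMap A G) ∪ {θ})) (hx0 : x ≠ 0) :
    (∃ (s : A) (β : (Fin (N + 1) → Fin (N + 1)) → G), s ≠ 0 ∧ (∀ t, IsIntegral A (β t)) ∧
      algebraMap A G s * ((derivative f).eval θ * (jetM (fun j => E j) x).det) =
        ∑ t : Fin (N + 1) → Fin (N + 1), β t * ∏ i, x (t i)) ∧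
    (∀ p : A, Prime p → (∀ c ∈ S, ¬ p ∣ c) →
      ∃ (s : A) (β : (Fin (N + 1) → Fin (N + 1)) → G), ¬ p ∣ s ∧ (∀ t, IsIntegral A (β t)) ∧
      algebraMap A G s * ((derivative f).eval θ * (jetM (fun j => E j) x).det) =
        ∑ t : Fin (N + 1) → Fin (N + 1), β t * ∏ i, x (t i)) := by
  classical
  have hfs : FaithfulSMul A G := (faithfulSMul_iff_algebraMap_injective A G).2 hinj
  let _ : Algebra (FractionRing A) G := FractionRing.liftAlgebra A G
  have hst : IsScalarTower A (FractionRing A) G := FractionRing.isScalarTower_liftAlgebra A G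
  have hxL : ∀ i, x i ∈ IntermediateField.adjoin (FractionRing A) {θ} := by
    intro i
    have hle : Subfield.closure (Set.range (algebraMap A G) ∪ {θ}) ≤
        (IntermediateField.adjoin (FractionRing A) {θ}).toSubfield := by
      rw [Subfield.closure_le]
      rintro y (⟨a, rfl⟩ | hy)
      · rw [IsScalarTower.algebraMap_apply A (FractionRing A) G]
        exact IntermediateField.algebraMap_mem _ _
      · rw [Set.mem_singleton_iff] at hy
        rw [hy]
        exact IntermediateField.subset_adjoin _ _ (Set.mem_singleton θ)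
    exact hle (hx i)
  have hfF : ∀ i, ∃ z : FractionRing A, f.coeff i = algebraMap (FractionRing A) G z := by
    intro i
    obtain ⟨c, hc, P, hP⟩ := hf i
    have hc0 : algebraMap A G c ≠ 0 := by
      intro h
      exact h0 c hc (hinj (by rw [h, map_zero]))
    refine ⟨algebraMap A (FractionRing A) P / algebraMap A (FractionRing A) c, ?_⟩
    rw [map_div₀, ← IsScalarTower.algebraMap_apply, ← IsScalarTower.algebraMap_apply, eq_div_iff hc0,
      hP]
  refine ⟨?_, ?_⟩
  · -- one multiplier
    set L := IntermediateField.adjoin (FractionRing A) {θ} with hL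
    have hθ : θ ∈ L := IntermediateField.subset_adjoin _ {θ} (Set.mem_singleton θ)
    have hres : ∀ j, ∀ y ∈ L, E j y ∈ L := fun j => der_adj (A := A) (E j) (hE j) f θ hr hd hfF
    have hint : IsIntegral (FractionRing A) θ := by
      obtain ⟨qF, e1, -, e3⟩ := Polynomial.lifts_and_degree_eq_and_monic
        (f := algebraMap (FractionRing A) G) (p := f) (by
          rw [Polynomial.lifts_iff_coeff_lifts]
          intro i
          obtain ⟨z, hz⟩ := hfF i
          exact ⟨z, hz.symm⟩) hm
      refine ⟨qF, e3, ?_⟩
      rw [← Polynomial.eval_map, e1, hr]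
    have hfd : FiniteDimensional (FractionRing A) L :=
      IntermediateField.adjoin.finiteDimensional hint
    have hdet : (jetM (fun j => E j) x).det ∈ L := by
      rw [Matrix.det_apply]
      refine sum_mem fun σ _ => ?_
      rw [Units.smul_def, zsmul_eq_mul]
      refine mul_mem (intCast_mem _ _) (prod_mem fun i _ => ?_)
      show (Fin.cons (x (σ i)) (fun j => E j (x (σ i))) : Fin (N + 1) → G) i ∈ L
      refine Fin.cases ?_ (fun j => ?_) i
      · exact hxL _
      · exact hres j _ (hxL _)
    have hder : (derivative f).eval θ ∈ L := by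
      rw [Polynomial.eval_eq_sum_range]
      refine sum_mem fun i _ => mul_mem ?_ (pow_mem hθ i)
      rw [Polynomial.coeff_derivative]
      obtain ⟨z, hz⟩ := hfF (i + 1)
      rw [hz]
      refine mul_mem (IntermediateField.algebraMap_mem _ z) ?_
      have : ((i : G) + 1) = ((i + 1 : ℕ) : G) := by push_cast; ring
      rw [this]
      exact natCast_mem _ _
    obtain ⟨i₀, hi₀⟩ : ∃ i, x i ≠ 0 := by
      by_contra hcon
      push Not at hcon
      exact hx0 (funext hcon)
    set z : G := (derivative f).eval θ * (jetM (fun j => E j) x).det / ∏ _i : Fin (N + 1), x i₀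
      with hz
    have hz0 : (∏ _i : Fin (N + 1), x i₀) ≠ 0 := Finset.prod_ne_zero_iff.2 fun _ _ => hi₀
    have hzL : z ∈ L := div_mem (mul_mem hder hdet) (prod_mem fun _ _ => hxL i₀)
    have halg : IsAlgebraic A z := by
      have e1 : IsAlgebraic (FractionRing A) (⟨z, hzL⟩ : L) :=
        Algebra.IsAlgebraic.isAlgebraic _
      have e2 : IsAlgebraic (FractionRing A) z := e1.algebraMap (A := G)
      exact (IsFractionRing.isAlgebraic_iff A (FractionRing A) G).2 e2
    obtain ⟨y, hy, hy2⟩ := halg.exists_integral_multiple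
    refine ⟨y, fun t => if t = fun _ => i₀ then y • z else 0, hy, ?_, ?_⟩
    · intro t
      simp only
      split_ifs
      · exact hy2
      · exact isIntegral_zero
    · rw [Finset.sum_eq_single (fun _ => i₀)]
      · beta_reduce
        rw [if_pos rfl, Algebra.smul_def, mul_assoc, hz, div_mul_cancel₀ _ hz0]
      · intro t _ ht
        beta_reduce
        rw [if_neg ht, zero_mul]
      · intro h
        exact absurd (Finset.mem_univ _) h
  · -- the local multipliers
    intro p hp hpS
    have hpr : (Ideal.span {p}).IsPrime := (Ideal.span_singleton_prime hp.ne_zero).2 hp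
    have hdvr : IsDiscreteValuationRing (Localization.AtPrime (Ideal.span {p})) :=
      dvrP hp _ rfl
    let _ : Algebra (Localization.AtPrime (Ideal.span {p})) G :=
      ((algebraMap (FractionRing A) G).comp
        (algebraMap (Localization.AtPrime (Ideal.span {p})) (FractionRing A))).toAlgebra
    have t1 : IsScalarTower (Localization.AtPrime (Ideal.span {p})) (FractionRing A) G :=
      IsScalarTower.of_algebraMap_eq fun _ => rfl
    have t2 : IsScalarTower A (Localization.AtPrime (Ideal.span {p})) G :=
      IsScalarTower.of_algebraMap_eq fun a => by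
        show algebraMap A G a = algebraMap (FractionRing A) G
          (algebraMap (Localization.AtPrime (Ideal.span {p})) (FractionRing A)
            (algebraMap A (Localization.AtPrime (Ideal.span {p})) a))
        rw [← IsScalarTower.algebraMap_apply A (Localization.AtPrime (Ideal.span {p}))
          (FractionRing A) a]
        exact IsScalarTower.algebraMap_apply A (FractionRing A) G a
    have t3 : IsFractionRing (Localization.AtPrime (Ideal.span {p})) (FractionRing A) :=
      IsFractionRing.isFractionRing_of_isDomain_of_isLocalization (Ideal.span {p}).primeCompl _ _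
    obtain ⟨s, hs, β, hβ, hsum⟩ := local_one (F := FractionRing A)
      (O := Localization.AtPrime (Ideal.span {p})) h1 (Ideal.span {p}).primeCompl hinj
      (Ideal.primeCompl_le_nonZeroDivisors _)
      (fun n hn => by
        have := (hnat n hn).map (algebraMap A (Localization.AtPrime (Ideal.span {p})))
        rwa [map_natCast] at this) E hE f θ hm hr hd
      (fun i => by
        obtain ⟨c, hc, P, hP⟩ := hf i
        have hc1 : c ∈ (Ideal.span {p}).primeCompl := by
          intro h
          exact hpS c hc (Ideal.mem_span_singleton.1 h)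
        have hc0 : algebraMap A G c ≠ 0 := by
          intro h
          exact h0 c hc (hinj (by rw [h, map_zero]))
        refine ⟨IsLocalization.mk' _ P ⟨c, hc1⟩, ?_⟩
        apply mul_right_cancel₀ hc0
        rw [hP, IsScalarTower.algebraMap_apply A (Localization.AtPrime (Ideal.span {p})) G c,
          ← map_mul]
        have := IsLocalization.mk'_spec (Localization.AtPrime (Ideal.span {p})) P
          (⟨c, hc1⟩ : (Ideal.span {p}).primeCompl)
        rw [this, ← IsScalarTower.algebraMap_apply]) x hxL
    refine ⟨s, β, fun h => hs (Ideal.mem_span_singleton.2 h), hβ, hsum⟩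

end glob

end CDGp


open CDGp in
/-- **CDG**: the global form of the bound for the determinant. -/
theorem cdg (h1 : S_CD) (h2 : S_GB) : S_CDG := by
  classical
  intro G k _ _ _ _ _ m g hg N E hE f θ hm hr hf x hx hx0
  by_cases hd : (derivative f).eval θ = 0
  · refine ⟨1, 1, 0, fun _ => 0, fun _ => 0, one_ne_zero, one_ne_zero, isRelPrime_one_left,
      fun _ => isIntegral_zero, fun _ => isIntegral_zero, ?_, ?_⟩
    · rw [hd]
      simp
    · rw [hd]
      simp
  -- the ring of polynomials
  let _ : Algebra (MvPolynomial (Fin m) k) G :=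
    (MvPolynomial.aeval g : MvPolynomial (Fin m) k →ₐ[k] G).toRingHom.toAlgebra
  have hmap : ∀ a : MvPolynomial (Fin m) k,
      algebraMap (MvPolynomial (Fin m) k) G a = MvPolynomial.aeval g a := fun _ => rfl
  have hinj : Function.Injective (algebraMap (MvPolynomial (Fin m) k) G) := hg
  have : CharZero k := (algebraMap k G).charZero
  have hnat : ∀ n : ℕ, n ≠ 0 → IsUnit (n : MvPolynomial (Fin m) k) := by
    intro n hn
    have e : (n : MvPolynomial (Fin m) k) = MvPolynomial.C (n : k) := (map_natCast _ n).symm
    rw [e]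
    exact (isUnit_iff_ne_zero.2 (Nat.cast_ne_zero.2 hn)).map MvPolynomial.C
  have hEA : ∀ j (a : MvPolynomial (Fin m) k), ∃ b : MvPolynomial (Fin m) k,
      E j (algebraMap (MvPolynomial (Fin m) k) G a) =
        algebraMap (MvPolynomial (Fin m) k) G b := by
    intro j a
    obtain ⟨e1, e2⟩ := hE j
    induction a using MvPolynomial.induction_on with
    | C c =>
      obtain ⟨b, hb⟩ := e1 c
      refine ⟨MvPolynomial.C b, ?_⟩
      rw [hmap, hmap, MvPolynomial.aeval_C, MvPolynomial.aeval_C, hb]
    | add p q hp hq =>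
      obtain ⟨b, hb⟩ := hp
      obtain ⟨c, hc⟩ := hq
      exact ⟨b + c, by rw [map_add, map_add, map_add, hb, hc]⟩
    | mul_X p i hp =>
      obtain ⟨b, hb⟩ := hp
      obtain ⟨c, hc⟩ := e2 i
      refine ⟨b * MvPolynomial.X i + p * (MvPolynomial.C c * MvPolynomial.X i), ?_⟩
      have hX : algebraMap (MvPolynomial (Fin m) k) G (MvPolynomial.X i) = g i := by
        rw [hmap, MvPolynomial.aeval_X]
      have hC : algebraMap (MvPolynomial (Fin m) k) G (MvPolynomial.C c) = algebraMap k G c := by
        rw [hmap, MvPolynomial.aeval_C]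
      rw [map_mul, Derivation.leibniz, hb, hX, hc, map_add, map_mul, map_mul, map_mul, hX, hC,
        smul_eq_mul, smul_eq_mul]
      ring
  have hS0 : ∀ c ∈ Set.range (fun c : Fin m → ℕ =>
      (∏ i, MvPolynomial.X i ^ c i : MvPolynomial (Fin m) k)), c ≠ 0 := by
    rintro _ ⟨c, rfl⟩
    exact Finset.prod_ne_zero_iff.2 fun i _ => pow_ne_zero _ (MvPolynomial.X_ne_zero i)
  have hfS : ∀ i, ∃ c ∈ Set.range (fun c : Fin m → ℕ =>
      (∏ i, MvPolynomial.X i ^ c i : MvPolynomial (Fin m) k)), ∃ P : MvPolynomial (Fin m) k,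
      f.coeff i * algebraMap (MvPolynomial (Fin m) k) G c =
        algebraMap (MvPolynomial (Fin m) k) G P := by
    intro i
    obtain ⟨c, P, hP⟩ := hf i
    refine ⟨_, ⟨c, rfl⟩, P, ?_⟩
    rw [hmap, hmap, ← hP]
    simp only [map_prod, map_pow, MvPolynomial.aeval_X]
  have hxA : ∀ i, x i ∈ Subfield.closure
      (Set.range (algebraMap (MvPolynomial (Fin m) k) G) ∪ {θ}) := by
    intro i
    refine Subfield.closure_mono (Set.union_subset_union_left _ ?_) (hx i)
    rintro y (⟨a, rfl⟩ | ⟨j, rfl⟩)
    · exact ⟨MvPolynomial.C a, by rw [hmap, MvPolynomial.aeval_C]⟩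
    · exact ⟨MvPolynomial.X j, by rw [hmap, MvPolynomial.aeval_X]⟩
  have hconv : ∀ β : G, IsIntegral (MvPolynomial (Fin m) k) β → IsIntegral (PolR k g) β := by
    intro β hβ
    have ρ : {ρ : MvPolynomial (Fin m) k →+* PolR k g //
        (algebraMap (PolR k g) G).comp ρ =
          (RingHom.id G).comp (algebraMap (MvPolynomial (Fin m) k) G)} :=
      ⟨(MvPolynomial.aeval g : MvPolynomial (Fin m) k →ₐ[k] G).rangeRestrict.toRingHom,
        RingHom.ext fun _ => rfl⟩
    exact IsIntegral.map_of_comp_eq ρ.1 (RingHom.id G) ρ.2 hβ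
  obtain ⟨g1, g2⟩ := glob h1 hinj hnat E hEA _ hS0 f θ hm hr hd hfS x hxA hx0
  refine h2 G k m g hg ((derivative f).eval θ * (jetM (fun j => E j) x).det)
    (Fin (N + 1) → Fin (N + 1)) (fun s => ∏ i, x (s i)) ?_ ?_
  · obtain ⟨s, β, a1, a2, a3⟩ := g1
    exact ⟨s, β, a1, fun t => hconv _ (a2 t), a3⟩
  · intro p hp hpX
    obtain ⟨s, β, a1, a2, a3⟩ := g2 p hp (by
      rintro _ ⟨c, rfl⟩ h
      obtain ⟨i, -, hi⟩ := (Prime.dvd_finsetProd_iff hp _).1 h
      exact hpX i (hp.dvd_of_dvd_pow hi))
    exact ⟨s, β, a1, fun t => hconv _ (a2 t), a3⟩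

end Pool.Agent.Y724.T4
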