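import Mathlib
import Pool.Agent.Y724.T4.Stm3
import Pool.Agent.Y724.T4.CDG

/-!
# The global form of the bound for the determinant, general bases

The local bound `S_CD2` is used at the localisations of the ring of the polynomials in the `g i`
at the prime elements which do not divide the variables, and the local multipliers are put
together by `S_GB`.
-/

set_option autoImplicit false

namespace Pool.Agent.Y724.T4

open Polynomial

namespace CDGp

/-! ### The algebra of the structure constants -/

section alg

variable {F G : Type} [Field F] [Field G] [Algebra F G]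

/-- a nonzero finite dimensional subspace closed under multiplication is a field -/
theorem sub_field (V : Submodule F G) [FiniteDimensional F V] (hmul : ∀ a ∈ V, ∀ b ∈ V, a * b ∈ V)
    (hne : ∃ y ∈ V, y ≠ 0) : (1 : G) ∈ V ∧ ∀ y ∈ V, y⁻¹ ∈ V := by
  have key : ∀ y ∈ V, y ≠ 0 → ∀ w ∈ V, ∃ z ∈ V, y * z = w := by
    intro y hy hy0 w hw
    let f : V →ₗ[F] V :=
      { toFun := fun z => ⟨y * z, hmul y hy z z.2⟩
        map_add' := fun a b => by
          ext
          simp [mul_add]
        map_smul' := fun c a => by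
          ext
          simp }
    have hf : Function.Injective f := by
      intro a b hab
      have h1 : y * (a : G) = y * b := congrArg Subtype.val hab
      exact Subtype.ext (mul_left_cancel₀ hy0 h1)
    obtain ⟨z, hz⟩ := (LinearMap.injective_iff_surjective.1 hf) ⟨w, hw⟩
    exact ⟨z, z.2, congrArg Subtype.val hz⟩
  obtain ⟨y₀, hy₀, hy₀0⟩ := hne
  have h1 : (1 : G) ∈ V := by
    obtain ⟨z, hz, hz1⟩ := key y₀ hy₀ hy₀0 y₀ hy₀
    have : z = 1 := by
      apply mul_left_cancel₀ hy₀0
      rw [hz1, mul_one]
    rwa [← this]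
  refine ⟨h1, fun y hy => ?_⟩
  by_cases hy0 : y = 0
  · rw [hy0, inv_zero]
    exact V.zero_mem
  · obtain ⟨z, hz, hz1⟩ := key y hy hy0 1 h1
    have : z = y⁻¹ := (eq_inv_of_mul_eq_one_right hz1)
    rwa [← this]

/-- the field spanned by a basis with a multiplication table -/
theorem exists_field {r : ℕ} (ω : Fin r → G) (s : Fin r → Fin r → Fin r → F)
    (hs : ∀ i j, ω i * ω j = ∑ l, s i j l • ω l) (hne : ∃ y ∈ Submodule.span F (Set.range ω), y ≠ 0) :
    ∃ L : IntermediateField F G, L.toSubalgebra.toSubmodule = Submodule.span F (Set.range ω) := by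
  have hfd : FiniteDimensional F (Submodule.span F (Set.range ω)) :=
    FiniteDimensional.span_of_finite F (Set.finite_range ω)
  have hmul : ∀ a ∈ Submodule.span F (Set.range ω), ∀ b ∈ Submodule.span F (Set.range ω),
      a * b ∈ Submodule.span F (Set.range ω) := by
    intro a ha b hb
    induction ha using Submodule.span_induction with
    | mem a ha =>
      obtain ⟨i, rfl⟩ := ha
      induction hb using Submodule.span_induction with
      | mem b hb =>
        obtain ⟨j, rfl⟩ := hb
        rw [hs]
        exact Submodule.sum_mem _ fun l _ => Submodule.smul_mem _ _ (Submodule.subset_span ⟨l, rfl⟩)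
      | zero => rw [mul_zero]; exact Submodule.zero_mem _
      | add b c _ _ h1 h2 => rw [mul_add]; exact Submodule.add_mem _ h1 h2
      | smul t b _ h1 => rw [mul_smul_comm]; exact Submodule.smul_mem _ _ h1
    | zero => rw [zero_mul]; exact Submodule.zero_mem _
    | add a c _ _ h1 h2 => rw [add_mul]; exact Submodule.add_mem _ h1 h2
    | smul t a _ h1 => rw [smul_mul_assoc]; exact Submodule.smul_mem _ _ h1
  obtain ⟨h1, h2⟩ := sub_field (Submodule.span F (Set.range ω)) hmul hne
  let S : Subalgebra F G := Submodule.toSubalgebra (Submodule.span F (Set.range ω)) h1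
    (fun a b ha hb => hmul a ha b hb)
  refine ⟨S.toIntermediateField fun y hy => h2 y hy, ?_⟩
  ext y
  rfl

/-- the dual basis -/
theorem dual_basis [CharZero F] {r : ℕ} (L : IntermediateField F G) (ω : Fin r → L)
    (hli : LinearIndependent F ω) (hsp : ⊤ ≤ Submodule.span F (Set.range ω))
    (s : Fin r → Fin r → Fin r → F) (hs : ∀ i j, ω i * ω j = ∑ l, s i j l • ω l) (ω' : Fin r → G)
    (hω' : ∀ i, (ω i : G) = ∑ j, trM s i j • ω' j) :
    FiniteDimensional F L ∧ Module.finrank F L = r ∧ ∃ d : Fin r → L, (∀ j, (d j : G) = ω' j) ∧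
      (∀ j, d j ≠ 0) ∧ ∀ i j, Algebra.trace F L (ω i * d j) = if i = j then 1 else 0 := by
  classical
  let b : Module.Basis (Fin r) F L := Module.Basis.mk hli hsp
  have hb : ∀ i, b i = ω i := fun i => Module.Basis.mk_apply hli hsp i
  have hfd : FiniteDimensional F L := Module.Finite.of_basis b
  have hrank : Module.finrank F L = r := by
    rw [Module.finrank_eq_card_basis b, Fintype.card_fin]
  have hrepr : ∀ i j l, b.repr (ω i * ω j) l = s i j l := by
    intro i j l
    rw [hs]
    have : ∑ l, s i j l • ω l = ∑ l, s i j l • b l := by simp only [hb]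
    rw [this, Module.Basis.repr_sum_self]
  have htr1 : ∀ h, Algebra.trace F L (ω h) = ∑ l, s h l l := by
    intro h
    rw [Algebra.trace_eq_matrix_trace b, Matrix.trace]
    refine Finset.sum_congr rfl fun l _ => ?_
    rw [Matrix.diag_apply, Algebra.leftMulMatrix_eq_repr_mul, hb, hrepr]
  have htr : ∀ i j, Algebra.trace F L (ω i * ω j) = trM s i j := by
    intro i j
    rw [hs, map_sum]
    refine Finset.sum_congr rfl fun h _ => ?_
    rw [map_smul, htr1, smul_eq_mul]
  have hnd : (Algebra.traceForm F L).Nondegenerate := traceForm_nondegenerate F L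
  let d : Module.Basis (Fin r) F L := (Algebra.traceForm F L).dualBasis hnd b
  have hd : ∀ i j, Algebra.trace F L (ω i * d j) = if i = j then 1 else 0 := by
    intro i j
    have h1 := LinearMap.BilinForm.apply_dualBasis_left (B := Algebra.traceForm F L) hnd b j i
    rw [Algebra.traceForm_apply, hb, mul_comm] at h1
    exact h1
  have hexp : ∀ i, ω i = ∑ j, trM s i j • d j := by
    intro i
    apply d.ext_elem
    intro j
    rw [Module.Basis.repr_sum_self]
    have h1 := LinearMap.BilinForm.dualBasis_repr_apply (B := Algebra.traceForm F L) hnd b (ω i) j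
    rw [Algebra.traceForm_apply, hb, htr] at h1
    exact h1
  -- the two families are equal
  have hdet : ((Matrix.of fun i j => trM s i j).map (algebraMap F G)).det ≠ 0 := by
    have h1 : (Matrix.of fun i j => trM s i j) = Algebra.traceMatrix F b := by
      ext i j
      rw [Matrix.of_apply, Algebra.traceMatrix_apply, Algebra.traceForm_apply, hb, hb, htr]
    have h2 : (Matrix.of fun i j => trM s i j).det ≠ 0 := by
      rw [h1]
      exact Algebra.discr_not_zero_of_basis F b
    have h3 := RingHom.map_det (algebraMap F G) (Matrix.of fun i j => trM s i j)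
    rw [RingHom.mapMatrix_apply] at h3
    rw [← h3]
    exact fun h => h2 ((map_eq_zero _).1 h)
  have heq : (fun j => ω' j - (d j : G)) = 0 := by
    apply Matrix.eq_zero_of_mulVec_eq_zero hdet
    funext i
    rw [Matrix.mulVec, dotProduct, Pi.zero_apply]
    have h1 : (ω i : G) = ∑ j, trM s i j • (d j : G) := by
      have := congrArg (algebraMap L G) (hexp i)
      rw [map_sum] at this
      refine this.trans (Finset.sum_congr rfl fun j _ => ?_)
      rfl
    have h2 := hω' i
    rw [h1] at h2
    simp only [Matrix.map_apply, Matrix.of_apply, mul_sub, Finset.sum_sub_distrib]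
    simp only [Algebra.smul_def] at h2
    rw [← h2, sub_self]
  refine ⟨hfd, hrank, d, fun j => ?_, fun j => d.ne_zero j, hd⟩
  exact (sub_eq_zero.1 (congrFun heq j)).symm

end alg

section der2

variable {A F G : Type} [CommRing A] [IsDomain A] [Field F] [Algebra A F] [IsFractionRing A F]
  [Field G] [Algebra ℚ G] [Algebra A G] [Algebra F G] [IsScalarTower A F G]

omit [IsDomain A] in
/-- a derivation preserves the finite extensions -/
theorem der_alg [CharZero F] (E : Derivation ℚ G G)
    (hE : ∀ a : A, ∃ b : A, E (algebraMap A G a) = algebraMap A G b) (L : IntermediateField F G)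
    [FiniteDimensional F L] : ∀ y ∈ L, E y ∈ L := by
  intro y hy
  have hint : IsIntegral F y := by
    have h1 : IsIntegral F (⟨y, hy⟩ : L) := Algebra.IsIntegral.isIntegral _
    exact h1.map L.val
  have hsep : (minpoly F y).Separable := (minpoly.irreducible hint).separable
  set f : Polynomial G := (minpoly F y).map (algebraMap F G) with hf
  have hr : f.eval y = 0 := by
    rw [hf, Polynomial.eval_map_algebraMap]
    exact minpoly.aeval F y
  have hd : (derivative f).eval y ≠ 0 := by
    rw [hf, Polynomial.derivative_map, Polynomial.eval_map_algebraMap]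
    exact hsep.aeval_derivative_ne_zero (minpoly.aeval F y)
  have hEy := der_adj (A := A) E hE f y hr hd
    (fun i => ⟨(minpoly F y).coeff i, by rw [hf, Polynomial.coeff_map]⟩) y
    (IntermediateField.subset_adjoin F {y} (Set.mem_singleton y))
  exact (IntermediateField.adjoin_le_iff.2 (Set.singleton_subset_iff.2 hy)) hEy

end der2

section loc2

variable {A F G O : Type} [CommRing A] [IsDomain A] [Field F] [Algebra A F] [IsFractionRing A F]
  [Field G] [CharZero G] [Algebra ℚ G] [Algebra A G] [Algebra F G] [IsScalarTower A F G]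
  [CommRing O] [IsDomain O] [IsDiscreteValuationRing O] [Algebra A O] [Algebra O F]
  [IsFractionRing O F] [Algebra O G] [IsScalarTower O F G] [IsScalarTower A O G]

theorem local_two (h1 : S_CD2) (M : Submonoid A) [IsLocalization M O]
    (hinj : Function.Injective (algebraMap A G)) (hM : M ≤ nonZeroDivisors A)
    (hnat : ∀ n : ℕ, n ≠ 0 → IsUnit (n : O)) {N : ℕ} (E : Fin N → Derivation ℚ G G)
    (hE : ∀ j (a : A), ∃ b : A, E j (algebraMap A G a) = algebraMap A G b)
    (L : IntermediateField F G) [FiniteDimensional F L] {r : ℕ} (hr : Module.finrank F L = r)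
    (ω d : Fin r → L) (hω : ∀ i, IsIntegral O (ω i : G))
    (htr : ∀ i j, Algebra.trace F L (ω i * d j) = if i = j then 1 else 0)
    (x : Fin (N + 1) → G) (hx : ∀ i, x i ∈ L) :
    ∃ s ∈ M, ∃ β : Fin r × (Fin (N + 1) → Fin (N + 1)) → G, (∀ t, IsIntegral A (β t)) ∧
      algebraMap A G s * (jetM (fun j => E j) x).det =
        ∑ t : Fin r × (Fin (N + 1) → Fin (N + 1)), β t * ((d t.1 : G) * ∏ i, x (t.2 i)) := by
  classical
  have hch : CharZero F := (algebraMap F G).charZero
  have hres : ∀ j, ∀ y ∈ L, E j y ∈ L := fun j => der_alg (A := A) (E j) (hE j) L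
  have htow : IsScalarTower O L G := IsScalarTower.of_algebraMap_eq fun _ => rfl
  have key := h1 O F L hnat N (fun j => resD L (E j) (hres j)) (by
    intro j a
    obtain ⟨b, hb⟩ := der_loc M hinj hM (E j) (hE j) a
    refine ⟨b, Subtype.ext ?_⟩
    rw [resD_coe]
    exact hb) r ω d hr (fun i => (isIntegral_algebraMap_iff (algebraMap L G).injective).1 (hω i))
    htr (fun i => ⟨x i, hx i⟩)
  obtain ⟨cf, hcf⟩ := (Submodule.mem_span_range_iff_exists_fun _).1 key
  -- the identity in `G`
  have hdet : algebraMap L G (jetM (fun j => resD L (E j) (hres j))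
      (fun i => (⟨x i, hx i⟩ : L))).det = (jetM (fun j => E j) x).det := by
    have e1 := RingHom.map_det (algebraMap L G)
      (jetM (fun j => resD L (E j) (hres j)) (fun i => (⟨x i, hx i⟩ : L)))
    refine e1.trans ?_
    congr 1
    ext i c
    refine Fin.cases ?_ (fun j => ?_) c
    · rfl
    · rfl
  have hmain : (jetM (fun j => E j) x).det =
      ∑ t : Fin r × (Fin (N + 1) → Fin (N + 1)),
        ((cf t : L) : G) * ((d t.1 : G) * ∏ i, x (t.2 i)) := by
    have e1 := congrArg (algebraMap L G) hcf
    rw [map_sum, hdet] at e1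
    rw [← e1]
    refine Finset.sum_congr rfl fun t _ => ?_
    rw [Algebra.smul_def, map_mul, map_mul, map_prod]
    rfl
  obtain ⟨s, hs, hint2⟩ := common M (fun t => ((cf t : L) : G)) (fun t => by
    have e1 : IsIntegral O (cf t : L) := (cf t).2
    exact e1.map (IsScalarTower.toAlgHom O L G))
  refine ⟨s, hs, fun t => algebraMap A G s * ((cf t : L) : G), hint2, ?_⟩
  rw [hmain, Finset.mul_sum]
  exact Finset.sum_congr rfl fun t _ => by ring

end loc2

section glob2

variable {A G : Type} [CommRing A] [IsDomain A] [Field G] [CharZero G] [Algebra ℚ G] [Algebra A G]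

theorem glob_two [IsNoetherianRing A] (h1 : S_CD2)
    (hinj : Function.Injective (algebraMap A G))
    (hnat : ∀ n : ℕ, n ≠ 0 → IsUnit (n : A)) {N : ℕ} (E : Fin N → Derivation ℚ G G)
    (hE : ∀ j (a : A), ∃ b : A, E j (algebraMap A G a) = algebraMap A G b) (S : Set A)
    (h0 : ∀ c ∈ S, c ≠ 0) {r : ℕ} (ω ω' : Fin r → G) (s : Fin r → Fin r → Fin r → G)
    (hs : ∀ i j, ω i * ω j = ∑ l, s i j l * ω l)
    (hsS : ∀ i j l, ∃ c ∈ S, ∃ P : A, s i j l * algebraMap A G c = algebraMap A G P)
    (hli : LinearIndependent (Subfield.closure (Set.range (algebraMap A G))) ω)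
    (hω' : ∀ i, ω i = ∑ j, trM s i j * ω' j)
    (x : Fin (N + 1) → G)
    (hx : ∀ i, ∃ c : Fin r → G, (∀ j, c j ∈ Subfield.closure (Set.range (algebraMap A G))) ∧
      x i = ∑ j, c j * ω j) (hx0 : x ≠ 0) :
    (∃ (s : A) (β : Fin r × (Fin (N + 1) → Fin (N + 1)) → G), s ≠ 0 ∧ (∀ t, IsIntegral A (β t)) ∧
      algebraMap A G s * (jetM (fun j => E j) x).det =
        ∑ t : Fin r × (Fin (N + 1) → Fin (N + 1)), β t * (ω' t.1 * ∏ i, x (t.2 i))) ∧
    (∀ p : A, Prime p → (∀ c ∈ S, ¬ p ∣ c) →
      ∃ (s : A) (β : Fin r × (Fin (N + 1) → Fin (N + 1)) → G), ¬ p ∣ s ∧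
      (∀ t, IsIntegral A (β t)) ∧
      algebraMap A G s * (jetM (fun j => E j) x).det =
        ∑ t : Fin r × (Fin (N + 1) → Fin (N + 1)), β t * (ω' t.1 * ∏ i, x (t.2 i))) := by
  classical
  have hfs : FaithfulSMul A G := (faithfulSMul_iff_algebraMap_injective A G).2 hinj
  let _ : Algebra (FractionRing A) G := FractionRing.liftAlgebra A G
  have hst : IsScalarTower A (FractionRing A) G := FractionRing.isScalarTower_liftAlgebra A G
  have hch : CharZero (FractionRing A) := (algebraMap (FractionRing A) G).charZero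
  -- the two descriptions of the field of fractions
  have hF1 : ∀ y ∈ Subfield.closure (Set.range (algebraMap A G)),
      ∃ z : FractionRing A, y = algebraMap (FractionRing A) G z := by
    intro y hy
    have hle : Subfield.closure (Set.range (algebraMap A G)) ≤
        (algebraMap (FractionRing A) G).fieldRange := by
      rw [Subfield.closure_le]
      rintro _ ⟨a, rfl⟩
      exact ⟨algebraMap A (FractionRing A) a,
        (IsScalarTower.algebraMap_apply A (FractionRing A) G a).symm⟩
    obtain ⟨z, hz⟩ := hle hy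
    exact ⟨z, hz.symm⟩
  have hF2 : ∀ z : FractionRing A,
      algebraMap (FractionRing A) G z ∈ Subfield.closure (Set.range (algebraMap A G)) := by
    intro z
    obtain ⟨a, b, hb, rfl⟩ := IsFractionRing.div_surjective A z
    rw [map_div₀, ← IsScalarTower.algebraMap_apply, ← IsScalarTower.algebraMap_apply]
    exact div_mem (Subfield.subset_closure ⟨a, rfl⟩) (Subfield.subset_closure ⟨b, rfl⟩)
  have hsF : ∀ i j l, ∃ z : FractionRing A, s i j l = algebraMap (FractionRing A) G z := by
    intro i j l
    obtain ⟨c, hc, P, hP⟩ := hsS i j l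
    have hc0 : algebraMap A G c ≠ 0 := by
      intro h
      exact h0 c hc (hinj (by rw [h, map_zero]))
    refine ⟨algebraMap A (FractionRing A) P / algebraMap A (FractionRing A) c, ?_⟩
    rw [map_div₀, ← IsScalarTower.algebraMap_apply, ← IsScalarTower.algebraMap_apply,
      eq_div_iff hc0, hP]
  choose sF hsF using hsF
  have hxS : ∀ i, x i ∈ Submodule.span (FractionRing A) (Set.range ω) := by
    intro i
    obtain ⟨c, hc, hxc⟩ := hx i
    rw [hxc]
    refine Submodule.sum_mem _ fun j _ => ?_
    obtain ⟨z, hz⟩ := hF1 _ (hc j)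
    rw [hz, ← Algebra.smul_def]
    exact Submodule.smul_mem _ _ (Submodule.subset_span ⟨j, rfl⟩)
  obtain ⟨i₀, hi₀⟩ : ∃ i, x i ≠ 0 := by
    by_contra hcon
    push Not at hcon
    exact hx0 (funext hcon)
  obtain ⟨L, hL⟩ := exists_field (F := FractionRing A) ω sF (fun i j => by
    rw [hs]
    exact Finset.sum_congr rfl fun l _ => by rw [Algebra.smul_def, hsF])
    ⟨x i₀, hxS i₀, hi₀⟩
  have hmemL : ∀ y : G, y ∈ L ↔ y ∈ Submodule.span (FractionRing A) (Set.range ω) := by
    intro y
    rw [← hL]
    rfl
  have hωL : ∀ i, ω i ∈ L := fun i => (hmemL _).2 (Submodule.subset_span ⟨i, rfl⟩)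
  have hliF : LinearIndependent (FractionRing A) (fun i => (⟨ω i, hωL i⟩ : L)) := by
    apply LinearIndependent.of_comp L.val.toLinearMap
    rw [Fintype.linearIndependent_iff]
    intro c hc
    have h2 := Fintype.linearIndependent_iff.1 hli
      (fun i => ⟨algebraMap (FractionRing A) G (c i), hF2 (c i)⟩) (by
        refine Eq.trans (Finset.sum_congr rfl fun i _ => ?_) hc
        show algebraMap (FractionRing A) G (c i) * ω i = c i • ω i
        rw [Algebra.smul_def])
    intro i
    have h3 : algebraMap (FractionRing A) G (c i) = 0 := congrArg Subtype.val (h2 i)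
    exact (map_eq_zero _).1 h3
  have hsp : (⊤ : Submodule (FractionRing A) L) ≤
      Submodule.span (FractionRing A) (Set.range (fun i => (⟨ω i, hωL i⟩ : L))) := by
    rintro y -
    have h2 : (y : G) ∈ Submodule.map L.val.toLinearMap
        (Submodule.span (FractionRing A) (Set.range (fun i => (⟨ω i, hωL i⟩ : L)))) := by
      rw [Submodule.map_span, ← Set.range_comp]
      exact (hmemL _).1 y.2
    obtain ⟨z, hz, hzy⟩ := h2
    have : z = y := Subtype.ext hzy
    rwa [← this]
  have hsL : ∀ i j, (⟨ω i, hωL i⟩ : L) * ⟨ω j, hωL j⟩ =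
      ∑ l, sF i j l • (⟨ω l, hωL l⟩ : L) := by
    intro i j
    apply Subtype.ext
    have e1 : ((∑ l, sF i j l • (⟨ω l, hωL l⟩ : L) : L) : G) = ∑ l, sF i j l • ω l := by
      have := map_sum (algebraMap L G) (fun l => sF i j l • (⟨ω l, hωL l⟩ : L)) Finset.univ
      exact this
    rw [e1]
    show ω i * ω j = _
    rw [hs]
    exact Finset.sum_congr rfl fun l _ => by rw [Algebra.smul_def, hsF]
  have htrm : ∀ i j, trM s i j = algebraMap (FractionRing A) G (trM sF i j) := by
    intro i j
    unfold trM
    rw [map_sum]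
    refine Finset.sum_congr rfl fun h _ => ?_
    rw [map_mul, map_sum, hsF]
    congr 1
    exact Finset.sum_congr rfl fun l _ => hsF _ _ _
  obtain ⟨hfd, hrank, d, hd1, hd0, hdtr⟩ := dual_basis L (fun i => (⟨ω i, hωL i⟩ : L)) hliF hsp sF
    hsL ω' (fun i => by
      show ω i = _
      rw [hω']
      exact Finset.sum_congr rfl fun j _ => by rw [Algebra.smul_def, htrm])
  have hxL : ∀ i, x i ∈ L := fun i => (hmemL _).2 (hxS i)
  refine ⟨?_, ?_⟩
  · -- one multiplier
    have hres : ∀ j, ∀ y ∈ L, E j y ∈ L := fun j => der_alg (A := A) (E j) (hE j) L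
    have hdet : (jetM (fun j => E j) x).det ∈ L := by
      rw [Matrix.det_apply]
      refine sum_mem fun σ _ => ?_
      rw [Units.smul_def, zsmul_eq_mul]
      refine mul_mem (intCast_mem _ _) (prod_mem fun i _ => ?_)
      show (Fin.cons (x (σ i)) (fun j => E j (x (σ i))) : Fin (N + 1) → G) i ∈ L
      refine Fin.cases ?_ (fun j => ?_) i
      · exact hxL _
      · exact hres j _ (hxL _)
    obtain ⟨i₁⟩ : Nonempty (Fin r) := by
      by_contra hcon
      rw [not_nonempty_iff] at hcon
      obtain ⟨c, -, hxc⟩ := hx i₀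
      apply hi₀
      rw [hxc, Finset.univ_eq_empty, Finset.sum_empty]
    set z : G := (jetM (fun j => E j) x).det / (ω' i₁ * ∏ _i : Fin (N + 1), x i₀) with hz
    have hw0 : ω' i₁ ≠ 0 := by
      rw [← hd1]
      intro h
      exact hd0 i₁ (Subtype.ext h)
    have hwL : ω' i₁ ∈ L := by
      rw [← hd1]
      exact (d i₁).2
    have hz0 : (ω' i₁ * ∏ _i : Fin (N + 1), x i₀) ≠ 0 :=
      mul_ne_zero hw0 (Finset.prod_ne_zero_iff.2 fun _ _ => hi₀)
    have hzL : z ∈ L := div_mem hdet (mul_mem hwL (prod_mem fun _ _ => hxL i₀))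
    have halg : IsAlgebraic A z := by
      have e1 : IsAlgebraic (FractionRing A) (⟨z, hzL⟩ : L) :=
        Algebra.IsAlgebraic.isAlgebraic _
      have e2 : IsAlgebraic (FractionRing A) z := e1.algebraMap (A := G)
      exact (IsFractionRing.isAlgebraic_iff A (FractionRing A) G).2 e2
    obtain ⟨y, hy, hy2⟩ := halg.exists_integral_multiple
    refine ⟨y, fun t => if t = (i₁, fun _ => i₀) then y • z else 0, hy, ?_, ?_⟩
    · intro t
      simp only
      split_ifs
      · exact hy2
      · exact isIntegral_zero
    · rw [Finset.sum_eq_single (i₁, fun _ => i₀)]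
      · beta_reduce
        rw [if_pos rfl, Algebra.smul_def, mul_assoc, hz, div_mul_cancel₀ _ hz0]
      · intro t _ ht
        beta_reduce
        rw [if_neg ht, zero_mul]
      · intro h
        exact absurd (Finset.mem_univ _) h
  · -- the local multipliers
    intro p hp hpS
    have hpr : (Ideal.span {p}).IsPrime := (Ideal.span_singleton_prime hp.ne_zero).2 hp
    have hdvr : IsDiscreteValuationRing (Localization.AtPrime (Ideal.span {p})) :=
      dvrP hp _ rfl
    let _ : Algebra (Localization.AtPrime (Ideal.span {p})) G :=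
      ((algebraMap (FractionRing A) G).comp
        (algebraMap (Localization.AtPrime (Ideal.span {p})) (FractionRing A))).toAlgebra
    have t1 : IsScalarTower (Localization.AtPrime (Ideal.span {p})) (FractionRing A) G :=
      IsScalarTower.of_algebraMap_eq fun _ => rfl
    have t2 : IsScalarTower A (Localization.AtPrime (Ideal.span {p})) G :=
      IsScalarTower.of_algebraMap_eq fun a => by
        show algebraMap A G a = algebraMap (FractionRing A) G
          (algebraMap (Localization.AtPrime (Ideal.span {p})) (FractionRing A)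
            (algebraMap A (Localization.AtPrime (Ideal.span {p})) a))
        rw [← IsScalarTower.algebraMap_apply A (Localization.AtPrime (Ideal.span {p}))
          (FractionRing A) a]
        exact IsScalarTower.algebraMap_apply A (FractionRing A) G a
    have t3 : IsFractionRing (Localization.AtPrime (Ideal.span {p})) (FractionRing A) :=
      IsFractionRing.isFractionRing_of_isDomain_of_isLocalization (Ideal.span {p}).primeCompl _ _
    have hsO : ∀ i j l, ∃ z : Localization.AtPrime (Ideal.span {p}),
        s i j l = algebraMap (Localization.AtPrime (Ideal.span {p})) G z := by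
      intro i j l
      obtain ⟨c, hc, P, hP⟩ := hsS i j l
      have hc1 : c ∈ (Ideal.span {p}).primeCompl := by
        intro h
        exact hpS c hc (Ideal.mem_span_singleton.1 h)
      have hc0 : algebraMap A G c ≠ 0 := by
        intro h
        exact h0 c hc (hinj (by rw [h, map_zero]))
      refine ⟨IsLocalization.mk' _ P ⟨c, hc1⟩, ?_⟩
      apply mul_right_cancel₀ hc0
      rw [hP, IsScalarTower.algebraMap_apply A (Localization.AtPrime (Ideal.span {p})) G c,
        ← map_mul]
      have := IsLocalization.mk'_spec (Localization.AtPrime (Ideal.span {p})) P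
        (⟨c, hc1⟩ : (Ideal.span {p}).primeCompl)
      rw [this, ← IsScalarTower.algebraMap_apply]
    have hωO : ∀ i, IsIntegral (Localization.AtPrime (Ideal.span {p})) (ω i) := by
      intro i
      refine isIntegral_of_smul_mem_submodule (M := G)
        (Submodule.span (Localization.AtPrime (Ideal.span {p})) (Set.range ω)) ?_
        (Submodule.fg_span (Set.finite_range ω)) (ω i) ?_
      · intro hbot
        rw [Submodule.span_eq_bot] at hbot
        obtain ⟨c, -, hxc⟩ := hx i₀
        apply hi₀
        rw [hxc]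
        refine Finset.sum_eq_zero fun j _ => ?_
        rw [hbot (ω j) ⟨j, rfl⟩, mul_zero]
      · intro n hn
        induction hn using Submodule.span_induction with
        | mem n hn =>
          obtain ⟨j, rfl⟩ := hn
          rw [smul_eq_mul, hs]
          refine Submodule.sum_mem _ fun l _ => ?_
          obtain ⟨z, hz⟩ := hsO i j l
          rw [hz, ← Algebra.smul_def]
          exact Submodule.smul_mem _ _ (Submodule.subset_span ⟨l, rfl⟩)
        | zero => rw [smul_zero]; exact Submodule.zero_mem _
        | add a b _ _ h1 h2 => rw [smul_add]; exact Submodule.add_mem _ h1 h2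
        | smul t a _ h1 => rw [smul_comm]; exact Submodule.smul_mem _ _ h1
    obtain ⟨s', hs', β, hβ, hsum⟩ := local_two (F := FractionRing A)
      (O := Localization.AtPrime (Ideal.span {p})) h1 (Ideal.span {p}).primeCompl hinj
      (Ideal.primeCompl_le_nonZeroDivisors _)
      (fun n hn => by
        have := (hnat n hn).map (algebraMap A (Localization.AtPrime (Ideal.span {p})))
        rwa [map_natCast] at this) E hE L hrank (fun i => (⟨ω i, hωL i⟩ : L)) d hωO hdtr x hxL
    refine ⟨s', β, fun h => hs' (Ideal.mem_span_singleton.2 h), hβ, ?_⟩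
    rw [hsum]
    exact Finset.sum_congr rfl fun t _ => by rw [hd1]

end glob2

end CDGp

open CDGp in
/-- **CDG2**: the global form of the bound for the determinant. -/
theorem cdg2 (h1 : S_CD2) (h2 : S_GB) : S_CDG2 := by
  classical
  intro G k _ _ _ _ _ m g hg N E hE r ω ω' s hs hsP hli hω' x hx hx0
  -- the ring of polynomials
  let _ : Algebra (MvPolynomial (Fin m) k) G :=
    (MvPolynomial.aeval g : MvPolynomial (Fin m) k →ₐ[k] G).toRingHom.toAlgebra
  have hmap : ∀ a : MvPolynomial (Fin m) k,
      algebraMap (MvPolynomial (Fin m) k) G a = MvPolynomial.aeval g a := fun _ => rfl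
  have hinj : Function.Injective (algebraMap (MvPolynomial (Fin m) k) G) := hg
  have : CharZero k := (algebraMap k G).charZero
  have hnat : ∀ n : ℕ, n ≠ 0 → IsUnit (n : MvPolynomial (Fin m) k) := by
    intro n hn
    have e : (n : MvPolynomial (Fin m) k) = MvPolynomial.C (n : k) := (map_natCast _ n).symm
    rw [e]
    exact (isUnit_iff_ne_zero.2 (Nat.cast_ne_zero.2 hn)).map MvPolynomial.C
  have hEA : ∀ j (a : MvPolynomial (Fin m) k), ∃ b : MvPolynomial (Fin m) k,
      E j (algebraMap (MvPolynomial (Fin m) k) G a) =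
        algebraMap (MvPolynomial (Fin m) k) G b := by
    intro j a
    obtain ⟨e1, e2⟩ := hE j
    induction a using MvPolynomial.induction_on with
    | C c =>
      obtain ⟨b, hb⟩ := e1 c
      refine ⟨MvPolynomial.C b, ?_⟩
      rw [hmap, hmap, MvPolynomial.aeval_C, MvPolynomial.aeval_C, hb]
    | add p q hp hq =>
      obtain ⟨b, hb⟩ := hp
      obtain ⟨c, hc⟩ := hq
      exact ⟨b + c, by rw [map_add, map_add, map_add, hb, hc]⟩
    | mul_X p i hp =>
      obtain ⟨b, hb⟩ := hp
      obtain ⟨c, hc⟩ := e2 i
      refine ⟨b * MvPolynomial.X i + p * (MvPolynomial.C c * MvPolynomial.X i), ?_⟩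
      have hX : algebraMap (MvPolynomial (Fin m) k) G (MvPolynomial.X i) = g i := by
        rw [hmap, MvPolynomial.aeval_X]
      have hC : algebraMap (MvPolynomial (Fin m) k) G (MvPolynomial.C c) = algebraMap k G c := by
        rw [hmap, MvPolynomial.aeval_C]
      rw [map_mul, Derivation.leibniz, hb, hX, hc, map_add, map_mul, map_mul, map_mul, hX, hC,
        smul_eq_mul, smul_eq_mul]
      ring
  have hS0 : ∀ c ∈ Set.range (fun c : Fin m → ℕ =>
      (∏ i, MvPolynomial.X i ^ c i : MvPolynomial (Fin m) k)), c ≠ 0 := by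
    rintro _ ⟨c, rfl⟩
    exact Finset.prod_ne_zero_iff.2 fun i _ => pow_ne_zero _ (MvPolynomial.X_ne_zero i)
  have hsS : ∀ i j l, ∃ c ∈ Set.range (fun c : Fin m → ℕ =>
      (∏ i, MvPolynomial.X i ^ c i : MvPolynomial (Fin m) k)), ∃ P : MvPolynomial (Fin m) k,
      s i j l * algebraMap (MvPolynomial (Fin m) k) G c =
        algebraMap (MvPolynomial (Fin m) k) G P := by
    intro i j l
    obtain ⟨c, P, hP⟩ := hsP i j l
    refine ⟨_, ⟨c, rfl⟩, P, ?_⟩
    rw [hmap, hmap, ← hP]
    simp only [map_prod, map_pow, MvPolynomial.aeval_X]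
  have hcl : Subfield.closure (Set.range (algebraMap k G) ∪ Set.range g) =
      Subfield.closure (Set.range (algebraMap (MvPolynomial (Fin m) k) G)) := by
    apply le_antisymm
    · apply Subfield.closure_mono
      rintro y (⟨a, rfl⟩ | ⟨j, rfl⟩)
      · exact ⟨MvPolynomial.C a, by rw [hmap, MvPolynomial.aeval_C]⟩
      · exact ⟨MvPolynomial.X j, by rw [hmap, MvPolynomial.aeval_X]⟩
    · rw [Subfield.closure_le]
      rintro _ ⟨a, rfl⟩
      rw [hmap]
      induction a using MvPolynomial.induction_on with
      | C c =>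
        rw [MvPolynomial.aeval_C]
        exact Subfield.subset_closure (Or.inl ⟨c, rfl⟩)
      | add p q hp hq => rw [map_add]; exact add_mem hp hq
      | mul_X p i hp =>
        rw [map_mul, MvPolynomial.aeval_X]
        exact mul_mem hp (Subfield.subset_closure (Or.inr ⟨i, rfl⟩))
  have hli' : LinearIndependent
      (Subfield.closure (Set.range (algebraMap (MvPolynomial (Fin m) k) G))) ω := by
    rw [← hcl]
    exact hli
  have hxA : ∀ i, ∃ c : Fin r → G,
      (∀ j, c j ∈ Subfield.closure (Set.range (algebraMap (MvPolynomial (Fin m) k) G))) ∧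
      x i = ∑ j, c j * ω j := by
    rw [← hcl]
    exact hx
  have hconv : ∀ β : G, IsIntegral (MvPolynomial (Fin m) k) β → IsIntegral (PolR k g) β := by
    intro β hβ
    have ρ : {ρ : MvPolynomial (Fin m) k →+* PolR k g //
        (algebraMap (PolR k g) G).comp ρ =
          (RingHom.id G).comp (algebraMap (MvPolynomial (Fin m) k) G)} :=
      ⟨(MvPolynomial.aeval g : MvPolynomial (Fin m) k →ₐ[k] G).rangeRestrict.toRingHom,
        RingHom.ext fun _ => rfl⟩
    exact IsIntegral.map_of_comp_eq ρ.1 (RingHom.id G) ρ.2 hβ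
  obtain ⟨g1, g2⟩ := glob_two h1 hinj hnat E hEA _ hS0 ω ω' s hs hsS hli' hω' x hxA hx0
  refine h2 G k m g hg (jetM (fun j => E j) x).det
    (Fin r × (Fin (N + 1) → Fin (N + 1))) (fun p => ω' p.1 * ∏ i, x (p.2 i)) ?_ ?_
  · obtain ⟨s, β, a1, a2, a3⟩ := g1
    exact ⟨s, β, a1, fun t => hconv _ (a2 t), a3⟩
  · intro p hp hpX
    obtain ⟨s, β, a1, a2, a3⟩ := g2 p hp (by
      rintro _ ⟨c, rfl⟩ h
      obtain ⟨i, -, hi⟩ := (Prime.dvd_finsetProd_iff hp _).1 h
      exact hpX i (hp.dvd_of_dvd_pow hi))
    exact ⟨s, β, a1, fun t => hconv _ (a2 t), a3⟩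

end Pool.Agent.Y724.T4
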