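import Mathlib
import Pool.Agent.Y724.T4.Stm2

/-!
# Two coprime multipliers
-/

set_option autoImplicit false

namespace Pool.Agent.Y724.T4

open MvPolynomial

section GB

variable {G k : Type} [Field G] [Field k] [Algebra k G] {m : ℕ} (g : Fin m → G)

lemma gb_int (p : MvPolynomial (Fin m) k) : IsIntegral (PolR k g) (aeval g p) := by
  have h : aeval g p ∈ PolR k g := ⟨p, rfl⟩
  exact isIntegral_algebraMap (R := PolR k g) (A := G) (x := ⟨aeval g p, h⟩)

/-- the multipliers up to monomials -/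
def gbI (φ : G) {κ : Type} [Fintype κ] (ψ : κ → G) : Ideal (MvPolynomial (Fin m) k) where
  carrier := {b | ∃ (c : Fin m →₀ ℕ) (β : κ → G), (∀ j, IsIntegral (PolR k g) (β j)) ∧
    aeval g (b * monomial c 1) * φ = ∑ j, β j * ψ j}
  zero_mem' := ⟨0, 0, fun j => isIntegral_zero, by simp⟩
  add_mem' := by
    rintro b b' ⟨c, β, h1, h2⟩ ⟨c', β', h1', h2'⟩
    refine ⟨c + c', fun j => aeval g (monomial c' (1 : k)) * β j +
      aeval g (monomial c (1 : k)) * β' j, fun j => ?_, ?_⟩
    · exact ((gb_int g _).mul (h1 j)).add ((gb_int g _).mul (h1' j))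
    · have e : (b + b') * monomial (c + c') (1 : k) =
          monomial c' 1 * (b * monomial c 1) + monomial c 1 * (b' * monomial c' 1) := by
        have e1 : monomial (c + c') (1 : k) = monomial c 1 * monomial c' 1 := by
          rw [monomial_mul, mul_one]
        rw [e1]
        ring
      rw [e, map_add, map_mul, map_mul (aeval g) (monomial c (1 : k)), add_mul, mul_assoc, mul_assoc,
        h2, h2', Finset.mul_sum, Finset.mul_sum, ← Finset.sum_add_distrib]
      refine Finset.sum_congr rfl fun j _ => ?_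
      ring
  smul_mem' := by
    rintro a b ⟨c, β, h1, h2⟩
    refine ⟨c, fun j => aeval g a * β j, fun j => (gb_int g _).mul (h1 j), ?_⟩
    rw [smul_eq_mul, mul_assoc, map_mul, mul_assoc, h2, Finset.mul_sum]
    refine Finset.sum_congr rfl fun j _ => ?_
    ring

lemma mem_gbI {φ : G} {κ : Type} [Fintype κ] {ψ : κ → G} {b : MvPolynomial (Fin m) k} :
    b ∈ gbI g φ ψ ↔ ∃ (c : Fin m →₀ ℕ) (β : κ → G), (∀ j, IsIntegral (PolR k g) (β j)) ∧
      aeval g (b * monomial c 1) * φ = ∑ j, β j * ψ j := Iff.rfl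

lemma gbI_sat {φ : G} {κ : Type} [Fintype κ] {ψ : κ → G} {b : MvPolynomial (Fin m) k} {i : Fin m}
    (h : b * X i ∈ gbI g φ ψ) : b ∈ gbI g φ ψ := by
  obtain ⟨c, β, h1, h2⟩ := h
  refine ⟨Finsupp.single i 1 + c, β, h1, ?_⟩
  rw [← h2]
  congr 2
  have e1 : monomial (Finsupp.single i 1 + c) (1 : k) = X i * monomial c 1 := by
    rw [X, monomial_mul, mul_one]
  rw [e1, mul_assoc]

end GB

theorem gb : S_GB := by
  classical
  intro G k _ _ _ m g _ φ κ _ ψ hs hp
  obtain ⟨s, β, hs0, hβ, hs1⟩ := hs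
  have hsI : s ∈ gbI g φ ψ := ⟨0, β, hβ, by
    rw [← hs1]
    congr 2
    rw [monomial_zero', C_1, mul_one]⟩
  -- an element of minimal degree
  have hex : ∃ d : ℕ, ∃ b : MvPolynomial (Fin m) k, b ≠ 0 ∧ b ∈ gbI g φ ψ ∧ b.totalDegree = d :=
    ⟨_, s, hs0, hsI, rfl⟩
  obtain ⟨b1, hb0, hbI, hbd⟩ := Nat.find_spec hex
  have hmin : ∀ b : MvPolynomial (Fin m) k, b ≠ 0 → b ∈ gbI g φ ψ →
      b1.totalDegree ≤ b.totalDegree := by
    intro b h0 hI
    rw [hbd]
    exact Nat.find_min' hex ⟨b, h0, hI, rfl⟩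
  have hX : ∀ i, ¬ X i ∣ b1 := by
    rintro i ⟨b', hb'⟩
    have h0 : b' ≠ 0 := by
      rintro rfl
      rw [mul_zero] at hb'
      exact hb0 hb'
    have h1 : b' ∈ gbI g φ ψ := by
      apply gbI_sat g (i := i)
      rw [mul_comm, ← hb']
      exact hbI
    have h2 := hmin b' h0 h1
    rw [hb', totalDegree_mul_of_isDomain (X_ne_zero i) h0, totalDegree_X] at h2
    omega
  have hprime : ∀ p : MvPolynomial (Fin m) k, Prime p → p ∣ b1 → ∀ i, ¬ p ∣ X i := by
    intro p hpp hpb i hpi
    have h1 : Associated p (X i : MvPolynomial (Fin m) k) :=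
      hpp.irreducible.associated_of_dvd (X_prime (i := i)).irreducible hpi
    exact hX i (h1.symm.dvd.trans hpb)
  -- the second element
  have h2 : ∃ b2 ∈ gbI g φ ψ, b2 ≠ 0 ∧ IsRelPrime b1 b2 := by
    by_cases hu : IsUnit b1
    · exact ⟨b1, hbI, hb0, hu.isRelPrime_left⟩
    · have hav : ¬ ((gbI g φ ψ : Ideal (MvPolynomial (Fin m) k)) : Set (MvPolynomial (Fin m) k)) ⊆
          ⋃ p ∈ ((UniqueFactorizationMonoid.factors b1).toFinset : Set (MvPolynomial (Fin m) k)),
            (Ideal.span {p} : Ideal (MvPolynomial (Fin m) k)) := by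
        rw [Ideal.subset_union_prime (f := fun p : MvPolynomial (Fin m) k => Ideal.span {p}) 0 0
          (fun p hp' _ _ => by
            have hpp := UniqueFactorizationMonoid.prime_of_factor p (Multiset.mem_toFinset.1 hp')
            exact (Ideal.span_singleton_prime hpp.ne_zero).2 hpp)]
        rintro ⟨p, hpf, hle⟩
        have hpf' := Multiset.mem_toFinset.1 hpf
        have hpp := UniqueFactorizationMonoid.prime_of_factor p hpf'
        have hpd := UniqueFactorizationMonoid.dvd_of_mem_factors hpf'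
        obtain ⟨s', β', h1, h2, h3⟩ := hp p hpp (hprime p hpp hpd)
        apply h1
        rw [← Ideal.mem_span_singleton]
        apply hle
        exact ⟨0, β', h2, by
          rw [← h3]
          congr 2
          rw [monomial_zero', C_1, mul_one]⟩
      rw [Set.not_subset] at hav
      obtain ⟨b2, hb2, hb2'⟩ := hav
      have hno : ∀ p ∈ UniqueFactorizationMonoid.factors b1, ¬ p ∣ b2 := by
        intro p hpf hpd
        apply hb2'
        rw [Set.mem_iUnion₂]
        refine ⟨p, ?_, ?_⟩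
        · exact Multiset.mem_toFinset.2 hpf
        · exact Ideal.mem_span_singleton.2 hpd
      refine ⟨b2, hb2, ?_, ?_⟩
      · rintro rfl
        obtain ⟨q, hq⟩ := UniqueFactorizationMonoid.exists_mem_factors hb0 hu
        exact hno q hq (dvd_zero _)
      · rw [UniqueFactorizationMonoid.isRelPrime_iff_no_prime_factors hb0]
        intro d hd1 hd2 hdp
        obtain ⟨π, hπ, hπd⟩ := UniqueFactorizationMonoid.exists_mem_factors_of_dvd hb0
          hdp.irreducible hd1
        exact hno π hπ (hπd.symm.dvd.trans hd2)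
  obtain ⟨b2, hb2I, hb20, hrel⟩ := h2
  obtain ⟨c1, β1, h1, e1⟩ := hbI
  obtain ⟨c2, β2, h2, e2⟩ := hb2I
  have hmon : monomial (c1 + c2) (1 : k) = monomial c1 1 * monomial c2 1 := by
    rw [monomial_mul, mul_one]
  refine ⟨b1, b2, c1 + c2, fun j => aeval g (monomial c2 (1 : k)) * β1 j,
    fun j => aeval g (monomial c1 (1 : k)) * β2 j, hb0, hb20, hrel,
    fun j => (gb_int g _).mul (h1 j), fun j => (gb_int g _).mul (h2 j), ?_, ?_⟩
  · have e : b1 * monomial (c1 + c2) (1 : k) = monomial c2 1 * (b1 * monomial c1 1) := by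
      rw [hmon]
      ring
    rw [e, map_mul, mul_assoc, e1, Finset.mul_sum]
    refine Finset.sum_congr rfl fun j _ => ?_
    ring
  · have e : b2 * monomial (c1 + c2) (1 : k) = monomial c1 1 * (b2 * monomial c2 1) := by
      rw [hmon]
      ring
    rw [e, map_mul, mul_assoc, e2, Finset.mul_sum]
    refine Finset.sum_congr rfl fun j _ => ?_
    ring

end Pool.Agent.Y724.T4
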