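import Pool.Agent.Y724.T4.Stm2
import Pool.Agent.Y681.VJ.GDcore

/-!
# `GD`: every derivation is a combination of graded derivations on finite sets
-/

set_option autoImplicit false

namespace Pool.Agent.Y724.T4

theorem gd : S_GD := by
  intro G k _ _ _ _ _ m g hg D Y
  exact Pool.Agent.Y681.VJ.gd_core G k m g hg D Y

end Pool.Agent.Y724.T4
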