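import Pool.Agent.Y724.T4.Stm

/-!
LD: logarithmic derivatives of algebraic functions of elements with monomial bounds.
-/

set_option autoImplicit false

namespace Pool.Agent.Y724.T4

open MvPolynomial WithZero

section mono

variable {k : Type} [Field k] {m : ℕ}

/-- the weight of an exponent -/
def wt (lam : Fin m → ℤ) (α : Fin m →₀ ℕ) : ℤ := ∑ i, lam i * α i

/-- the monomial valuations of the field of rational functions -/
theorem exists_mono (lam : Fin m → ℤ) :
    ∃ ν : Valuation (FractionRing (MvPolynomial (Fin m) k)) (WithZero (Multiplicative ℤ)),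
      ∀ p : MvPolynomial (Fin m) k, p ≠ 0 →
        (∀ α ∈ p.support, exp (wt lam α) ≤ ν (algebraMap _ _ p)) ∧
        ∃ α ∈ p.support, ν (algebraMap _ _ p) = exp (wt lam α) := by
  classical
  let Q := FractionRing (MvPolynomial (Fin m) k)
  let W := RatFunc.inftyValuation Q
  let π : MvPolynomial (Fin m) k →+* RatFunc Q :=
    (RatFunc.C : Q →+* RatFunc Q).comp (algebraMap (MvPolynomial (Fin m) k) Q)
  have hπ : ∀ p : MvPolynomial (Fin m) k, p ≠ 0 → W (π p) = 1 := by
    intro p hp
    apply RatFunc.inftyValuation.C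
    rwa [Ne, map_eq_zero_iff _ (IsFractionRing.injective (MvPolynomial (Fin m) k) Q)]
  let ψ : MvPolynomial (Fin m) k →+* RatFunc Q :=
    eval₂Hom (π.comp C) (fun i => π (X i) * RatFunc.X ^ lam i)
  have hψm : ∀ (α : Fin m →₀ ℕ) (c : k),
      ψ (monomial α c) = π (monomial α c) * RatFunc.X ^ wt lam α := by
    intro α c
    have h1 : ψ (monomial α c) = π (C c) * ∏ i, (π (X i) * RatFunc.X ^ lam i) ^ α i := by
      change eval₂ _ _ _ = _
      rw [eval₂_monomial, Finsupp.prod_fintype _ _ (fun i => pow_zero _)]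
      rfl
    have h2 : π (monomial α c) = π (C c) * ∏ i, (π (X i)) ^ α i := by
      rw [monomial_eq, map_mul, Finsupp.prod_fintype _ _ (fun i => pow_zero _), map_prod]
      simp only [map_pow]
    rw [h1, h2]
    simp only [mul_pow, Finset.prod_mul_distrib]
    have h3 : ∏ i, ((RatFunc.X : RatFunc Q) ^ lam i) ^ α i = RatFunc.X ^ wt lam α := by
      unfold wt
      have h4 : ∀ s : Finset (Fin m), ∏ i ∈ s, ((RatFunc.X : RatFunc Q) ^ lam i) ^ α i =
          RatFunc.X ^ (∑ i ∈ s, lam i * (α i : ℤ)) := by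
        intro s
        induction s using Finset.induction_on with
        | empty => simp
        | insert a s ha ih =>
          rw [Finset.prod_insert ha, Finset.sum_insert ha, zpow_add₀ RatFunc.X_ne_zero, ih,
            zpow_mul, zpow_natCast]
      exact h4 Finset.univ
    rw [h3]
    ring
  have hX : ∀ n : ℤ, W (RatFunc.X ^ n) = exp n := fun n => RatFunc.inftyValuation.X_zpow Q n
  have key : ∀ p : MvPolynomial (Fin m) k, p ≠ 0 →
        (∀ α ∈ p.support, exp (wt lam α) ≤ W (ψ p)) ∧
        ∃ α ∈ p.support, W (ψ p) = exp (wt lam α) := by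
    intro p hp
    have hne : p.support.Nonempty := by
      rwa [Finset.nonempty_iff_ne_empty, Ne, MvPolynomial.support_eq_empty]
    obtain ⟨α0, h0, hmax⟩ := Finset.exists_max_image p.support (wt lam) hne
    let P1 : MvPolynomial (Fin m) k := ∑ α ∈ p.support with wt lam α = wt lam α0,
      monomial α (p.coeff α)
    let P2 : MvPolynomial (Fin m) k := ∑ α ∈ p.support with ¬ wt lam α = wt lam α0,
      monomial α (p.coeff α)
    have hsum : p = P1 + P2 := by
      conv_lhs => rw [p.as_sum]
      exact (Finset.sum_filter_add_sum_filter_not _ _ _).symm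
    have hP1 : P1 ≠ 0 := by
      intro h
      have h1 : P1.coeff α0 = p.coeff α0 := by
        simp only [P1]
        rw [coeff_sum, Finset.sum_eq_single α0]
        · rw [coeff_monomial, if_pos rfl]
        · intro b _ hb
          rw [coeff_monomial, if_neg hb]
        · intro h2
          exact (h2 (Finset.mem_filter.2 ⟨h0, rfl⟩)).elim
      rw [h, coeff_zero] at h1
      exact (mem_support_iff.1 h0) h1.symm
    have hψ1 : ψ P1 = π P1 * RatFunc.X ^ wt lam α0 := by
      simp only [P1]
      rw [map_sum, map_sum, Finset.sum_mul]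
      refine Finset.sum_congr rfl fun α hα => ?_
      rw [hψm, (Finset.mem_filter.1 hα).2]
    have hW1 : W (ψ P1) = exp (wt lam α0) := by
      rw [hψ1, map_mul, hπ P1 hP1, one_mul, hX]
    have hW2 : W (ψ P2) < exp (wt lam α0) := by
      simp only [P2]
      rw [map_sum]
      refine Valuation.map_sum_lt _ (exp_ne_zero) fun α hα => ?_
      obtain ⟨hα1, hα2⟩ := Finset.mem_filter.1 hα
      rw [hψm, map_mul, hX, hπ, one_mul, exp_lt_exp]
      · exact lt_of_le_of_ne (hmax α hα1) hα2
      · rw [Ne, monomial_eq_zero]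
        exact mem_support_iff.1 hα1
    have hW : W (ψ p) = exp (wt lam α0) := by
      rw [hsum, map_add, Valuation.map_add_eq_of_lt_left _ (by rw [hW1]; exact hW2), hW1]
    refine ⟨fun α hα => ?_, α0, h0, hW⟩
    rw [hW, exp_le_exp]
    exact hmax α hα
  have hinj : Function.Injective ψ := by
    rw [injective_iff_map_eq_zero]
    intro p hp
    by_contra h
    obtain ⟨-, α, -, h1⟩ := key p h
    rw [hp, map_zero] at h1
    exact exp_ne_zero h1.symm
  refine ⟨W.comap (IsFractionRing.lift hinj), fun p hp => ?_⟩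
  have h1 : W.comap (IsFractionRing.lift hinj)
      (algebraMap (MvPolynomial (Fin m) k) (FractionRing (MvPolynomial (Fin m) k)) p) =
      W (ψ p) := by
    rw [Valuation.comap_apply, IsFractionRing.lift_algebraMap]
  rw [h1]
  exact key p hp

end mono

/-- integrality by discrete valuations -/
theorem integral_of_val (O F M : Type) [CommRing O] [IsDedekindDomain O] [Field F]
    [Algebra O F] [IsFractionRing O F] [Field M] [Algebra F M] [Algebra O M] [IsScalarTower O F M]
    [FiniteDimensional F M] [CharZero F] (x : M)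
    (h : ∀ w : Valuation M (WithZero (Multiplicative ℤ)),
      (∀ a : O, w (algebraMap O M a) ≤ 1) → w x ≤ 1) : IsIntegral O x := by
  let B := integralClosure O M
  have h1 : IsDedekindDomain B := integralClosure.isDedekindDomain O F M
  have h2 : IsFractionRing B M := integralClosure.isFractionRing_of_finite_extension F M
  have h3 := IsDedekindDomain.HeightOneSpectrum.mem_integers_of_valuation_le_one (R := B) (K := M) x
    (fun P => h _ (fun a => by
      have h4 : algebraMap O M a = algebraMap B M (algebraMap O B a) := rfl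
      rw [h4]
      exact P.valuation_le_one _))
  obtain ⟨b, rfl⟩ := h3
  exact b.2

/-- the valuation ring of a discrete valuation is a principal ideal domain -/
theorem pid_of_val {F : Type} [Field F] (ν : Valuation F (WithZero (Multiplicative ℤ))) :
    IsPrincipalIdealRing ν.valuationSubring := by
  classical
  refine ⟨fun I => ?_⟩
  by_cases hI : I = ⊥
  · rw [hI]
    exact ⟨0, by simp⟩
  obtain ⟨a, ha, ha0⟩ := Submodule.exists_mem_ne_zero_of_ne_bot hI
  -- an element of maximal valuation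
  have hval : ∀ b : ν.valuationSubring, b ≠ 0 → ∃ n : ℕ, ν (b : F) = exp (-(n : ℤ)) := by
    intro b hb
    have h1 : ν (b : F) ≠ 0 := (Valuation.ne_zero_iff _).2 (fun h => hb (Subtype.ext h))
    have h2 : ν (b : F) ≤ 1 := b.2
    refine ⟨(-(log (ν (b : F)))).toNat, ?_⟩
    have h3 : log (ν (b : F)) ≤ 0 := by
      rw [← exp_le_exp, exp_log h1, exp_zero]
      exact h2
    rw [Int.toNat_of_nonneg (by omega), neg_neg, exp_log h1]
  have hex : ∃ n : ℕ, ∃ b ∈ I, b ≠ 0 ∧ ν (b : F) = exp (-(n : ℤ)) := by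
    obtain ⟨n, hn⟩ := hval a ha0
    exact ⟨n, a, ha, ha0, hn⟩
  obtain ⟨b, hb, hb0, hbn⟩ := Nat.find_spec hex
  have hb0' : (b : F) ≠ 0 := fun h => hb0 (Subtype.ext h)
  refine ⟨b, le_antisymm (fun c hc => ?_) ?_⟩
  · by_cases hc0 : c = 0
    · rw [hc0]
      exact zero_mem _
    obtain ⟨n, hn⟩ := hval c hc0
    have h1 : Nat.find hex ≤ n := Nat.find_min' hex ⟨c, hc, hc0, hn⟩
    have h2 : ν ((c : F) / b) ≤ 1 := by
      rw [map_div₀, hn, hbn, ← exp_sub, ← exp_zero, exp_le_exp]
      omega
    refine Submodule.mem_span_singleton.2 ⟨⟨(c : F) / b, h2⟩, ?_⟩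
    apply Subtype.ext
    change (c : F) / b * b = c
    field_simp
  · rw [Submodule.span_singleton_le_iff_mem]
    exact hb

/-- approximation of real weights by integral weights -/
theorem exists_int {m : ℕ} (γ : Fin m → ℝ) (α : Fin m →₀ ℕ) (s : Finset (Fin m →₀ ℕ))
    (h : ∀ β ∈ s, ∑ i, (β i : ℝ) * γ i < ∑ i, (α i : ℝ) * γ i) :
    ∃ lam : Fin m → ℤ, ∀ β ∈ s, wt lam β < wt lam α := by
  have h1 : ∀ᶠ N : ℕ in Filter.atTop, ∀ β ∈ s, ∑ i, |(α i : ℝ) - β i| <
      N * (∑ i, (α i : ℝ) * γ i - ∑ i, (β i : ℝ) * γ i) := by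
    rw [Filter.eventually_all_finset]
    intro β hβ
    have h2 : Filter.Tendsto (fun N : ℕ => (N : ℝ) * (∑ i, (α i : ℝ) * γ i -
        ∑ i, (β i : ℝ) * γ i)) Filter.atTop Filter.atTop :=
      Filter.Tendsto.atTop_mul_const (sub_pos.2 (h β hβ)) tendsto_natCast_atTop_atTop
    exact h2.eventually_gt_atTop _
  obtain ⟨N, hN⟩ := h1.exists
  refine ⟨fun i => ⌊(N : ℝ) * γ i⌋, fun β hβ => ?_⟩
  have h2 := hN β hβ
  have h3 : (N : ℝ) * (∑ i, (α i : ℝ) * γ i - ∑ i, (β i : ℝ) * γ i) =
      ∑ i, ((α i : ℝ) - β i) * (N * γ i) := by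
    rw [← Finset.sum_sub_distrib, Finset.mul_sum]
    exact Finset.sum_congr rfl fun i _ => by ring
  have h4 : ∀ i, ((α i : ℝ) - β i) * (N * γ i) - |(α i : ℝ) - β i| ≤
      ((α i : ℝ) - β i) * (⌊(N : ℝ) * γ i⌋ : ℝ) := by
    intro i
    have h5 := Int.floor_le ((N : ℝ) * γ i)
    have h6 := Int.lt_floor_add_one ((N : ℝ) * γ i)
    have h7 : |(N : ℝ) * γ i - ⌊(N : ℝ) * γ i⌋| ≤ 1 := by
      rw [abs_le]
      constructor <;> linarith
    have h8 : ((α i : ℝ) - β i) * (N * γ i - ⌊(N : ℝ) * γ i⌋) ≤ |(α i : ℝ) - β i| := by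
      refine (le_abs_self _).trans ?_
      rw [abs_mul]
      exact mul_le_of_le_one_right (abs_nonneg _) h7
    linarith
  have h5 : (0 : ℝ) < ∑ i, ((α i : ℝ) - β i) * (⌊(N : ℝ) * γ i⌋ : ℝ) := by
    have h6 := Finset.sum_le_sum fun i (_ : i ∈ Finset.univ) => h4 i
    rw [Finset.sum_sub_distrib, ← h3] at h6
    linarith
  have h6 : ((wt (fun i => ⌊(N : ℝ) * γ i⌋) α - wt (fun i => ⌊(N : ℝ) * γ i⌋) β : ℤ) : ℝ) =
      ∑ i, ((α i : ℝ) - β i) * (⌊(N : ℝ) * γ i⌋ : ℝ) := by
    unfold wt
    push_cast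
    rw [← Finset.sum_sub_distrib]
    exact Finset.sum_congr rfl fun i _ => by ring
  rw [← h6] at h5
  have h7 : 0 < wt (fun i => ⌊(N : ℝ) * γ i⌋) α - wt (fun i => ⌊(N : ℝ) * γ i⌋) β := by
    exact_mod_cast h5
  linarith

section ell

open Polynomial

variable {G : Type} [Field G] [CharZero G] [Algebra ℚ G]

omit [CharZero G] in
/-- derivatives of the values of polynomials -/
theorem der_aeval {F0 : Type} [Field F0] [Algebra F0 G] (E : Derivation ℚ G G)
    (M : Subring G) (hM : ∀ a : F0, E (algebraMap F0 G a) ∈ M) {φ : G} (hφ : φ ∈ M)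
    (q : F0[X]) : ∃ s ∈ M, E (aeval φ q) = s + aeval φ (derivative q) * E φ := by
  induction q using Polynomial.induction_on' with
  | add p q hp hq =>
    obtain ⟨s, hs, h1⟩ := hp
    obtain ⟨t, ht, h2⟩ := hq
    refine ⟨s + t, add_mem hs ht, ?_⟩
    rw [map_add, map_add, h1, h2, derivative_add, map_add]
    ring
  | monomial n a =>
    refine ⟨E (algebraMap F0 G a) * φ ^ n, mul_mem (hM a) (pow_mem hφ n), ?_⟩
    rw [Polynomial.aeval_monomial, derivative_monomial, Polynomial.aeval_monomial, E.leibniz, E.leibniz_pow, map_mul,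
      map_natCast]
    simp only [smul_eq_mul, nsmul_eq_mul]
    ring

theorem ell_coeff (h : S_LDD) (F0 F1 : Subfield G) (h01 : F0 ≤ F1) (E : Derivation ℚ G G)
    (hE : ∀ a ∈ F0, E a ∈ F1) (ν : Valuation F1 (WithZero (Multiplicative ℤ)))
    (hn : ∀ n : ℕ, n ≠ 0 → ν (n : F1) = 1)
    (hν : ∀ (a : G) (ha : a ∈ F0), ν ⟨E a, hE a ha⟩ ≤ ν ⟨a, h01 ha⟩) (φ : G)
    (hφ : IsAlgebraic F0 φ) :
    IsIntegral F1 (E φ / φ) ∧ ∀ j, ν ((minpoly F1 (E φ / φ)).coeff j) ≤ 1 := by
  classical
  let L := IntermediateField.adjoin F0 ({φ} : Set G)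
  let M := IntermediateField.adjoin F1 ({φ} : Set G)
  have hφM : φ ∈ M := IntermediateField.mem_adjoin_simple_self F1 φ
  have hF1M : ∀ a ∈ F1, a ∈ M := fun a ha => M.algebraMap_mem ⟨a, ha⟩
  have hφ1 : IsAlgebraic F1 φ := by
    obtain ⟨p, hp0, hp⟩ := hφ
    refine ⟨p.map (Subfield.inclusion h01), ?_, ?_⟩
    · rwa [Ne, Polynomial.map_eq_zero]
    · rw [Polynomial.aeval_def, Polynomial.eval₂_map]
      exact hp
  have hfinM : FiniteDimensional F1 M := IntermediateField.adjoin.finiteDimensional hφ1.isIntegral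
  have hfinL : FiniteDimensional F0 L := IntermediateField.adjoin.finiteDimensional hφ.isIntegral
  -- the derivative of `φ`
  have hEφ : E φ ∈ M := by
    obtain ⟨s, hs, h1⟩ := der_aeval E M.toSubfield.toSubring
      (fun a : F0 => hF1M _ (hE _ a.2)) (φ := φ) hφM (minpoly F0 φ)
    rw [minpoly.aeval, map_zero] at h1
    have h2 : aeval φ (derivative (minpoly F0 φ)) ≠ 0 :=
      (minpoly.irreducible hφ.isIntegral).separable.aeval_derivative_ne_zero (minpoly.aeval F0 φ)
    have h3 : aeval φ (derivative (minpoly F0 φ)) ∈ M := by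
      have h4 : aeval φ (derivative (minpoly F0 φ)) =
          aeval φ ((derivative (minpoly F0 φ)).map (Subfield.inclusion h01)) := by
        rw [Polynomial.aeval_def, Polynomial.aeval_def, Polynomial.eval₂_map]
        rfl
      rw [h4]
      have h5 := (aeval (⟨φ, hφM⟩ : M)
        ((derivative (minpoly F0 φ)).map (Subfield.inclusion h01)) : M).2
      have h6 := Polynomial.aeval_algebraMap_apply (A := M) G (⟨φ, hφM⟩ : M)
        ((derivative (minpoly F0 φ)).map (Subfield.inclusion h01))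
      have h7 : algebraMap M G ⟨φ, hφM⟩ = φ := rfl
      rw [h7] at h6
      rw [h6]
      exact h5
    have h4 : E φ = -s / aeval φ (derivative (minpoly F0 φ)) := by
      rw [eq_div_iff h2]
      linear_combination -h1
    rw [h4]
    exact div_mem (neg_mem (show s ∈ M from hs)) h3
  -- `L` and its image under `E` are in `M`
  have hLM : ∀ x ∈ L, x ∈ M ∧ E x ∈ M := by
    intro x hx
    induction hx using IntermediateField.adjoin_induction with
    | mem x hx =>
      rw [Set.mem_singleton_iff] at hx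
      rw [hx]
      exact ⟨hφM, hEφ⟩
    | algebraMap x => exact ⟨hF1M _ (h01 x.2), hF1M _ (hE _ x.2)⟩
    | add x y _ _ hx hy =>
      refine ⟨add_mem hx.1 hy.1, ?_⟩
      rw [map_add]
      exact add_mem hx.2 hy.2
    | inv x _ hx =>
      refine ⟨inv_mem hx.1, ?_⟩
      rw [E.leibniz_inv]
      simp only [smul_eq_mul]
      exact mul_mem (neg_mem (pow_mem (inv_mem hx.1) 2)) hx.2
    | mul x y _ _ hx hy =>
      refine ⟨mul_mem hx.1 hy.1, ?_⟩
      rw [E.leibniz]
      simp only [smul_eq_mul]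
      exact add_mem (mul_mem hx.1 hy.2) (mul_mem hy.1 hx.2)
  let ι : L →+* M :=
    { toFun := fun x => ⟨x.1, (hLM x.1 x.2).1⟩
      map_one' := rfl
      map_zero' := rfl
      map_mul' := fun _ _ => rfl
      map_add' := fun _ _ => rfl }
  let i1 : Algebra L M := ι.toAlgebra
  let i2 : Algebra F0 M := (ι.comp (algebraMap F0 L)).toAlgebra
  have i3 : IsScalarTower F0 L M := IsScalarTower.of_algebraMap_eq fun _ => rfl
  let D : L →+ M :=
    { toFun := fun x => ⟨E x.1, (hLM x.1 x.2).2⟩
      map_zero' := Subtype.ext (map_zero E)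
      map_add' := fun x y => Subtype.ext (map_add E x.1 y.1) }
  let O := ν.valuationSubring
  let i4 : Algebra O M := ((algebraMap F1 M).comp (algebraMap O F1)).toAlgebra
  have i5 : IsScalarTower O F1 M := IsScalarTower.of_algebraMap_eq fun _ => rfl
  have hpid : IsPrincipalIdealRing O := pid_of_val ν
  have hded : IsDedekindDomain O := inferInstance
  have hchar0 : CharZero F0 := inferInstance
  have hchar1 : CharZero F1 := inferInstance
  have hell : IsIntegral O ((⟨E φ, hEφ⟩ / ⟨φ, hφM⟩ : M)) := by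
    refine integral_of_val O F1 M _ fun w hw => ?_
    have hwO : ∀ a : F1, ν a ≤ 1 → w (algebraMap F1 M a) ≤ 1 := fun a ha => hw ⟨a, ha⟩
    have hwn : ∀ n : ℕ, n ≠ 0 → w (n : M) = 1 := by
      intro n hn0
      have h1 : w (algebraMap F1 M (n : F1)) ≤ 1 := hwO _ (hn n hn0).le
      have h2 : w (algebraMap F1 M ((n : F1)⁻¹)) ≤ 1 := hwO _ (by
        rw [map_inv₀, hn n hn0, inv_one])
      rw [map_natCast] at h1
      rw [map_inv₀, map_natCast, map_inv₀] at h2
      have h3 : w (n : M) ≠ 0 := by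
        rw [Valuation.ne_zero_iff]
        exact_mod_cast hn0
      refine le_antisymm h1 ?_
      have h4 := mul_le_mul_left h2 (w (n : M))
      rw [inv_mul_cancel₀ h3, one_mul] at h4
      exact h4
    have h1 := h F0 L M w D hwn (fun a b => Subtype.ext (by
        change E (a.1 * b.1) = a.1 * E b.1 + b.1 * E a.1
        rw [E.leibniz]
        rfl)) (fun a => by
        by_cases ha : (a : G) = 0
        · have h1 : a = 0 := Subtype.ext ha
          rw [h1, map_zero, map_zero, map_zero]
          exact zero_le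
        have h1 : ν (⟨E a.1, hE _ a.2⟩ / ⟨a.1, h01 a.2⟩ : F1) ≤ 1 := by
          rw [map_div₀]
          exact div_le_one_of_le₀ (hν a.1 a.2) zero_le
        have h2 := hwO _ h1
        rw [map_div₀, map_div₀] at h2
        have h3 : w (algebraMap F1 M ⟨a.1, h01 a.2⟩) ≠ 0 := by
          rw [Valuation.ne_zero_iff]
          intro h4
          exact ha (congrArg Subtype.val h4)
        exact (div_le_one₀ (zero_lt_iff.2 h3)).1 h2)
      ⟨φ, IntermediateField.mem_adjoin_simple_self F0 φ⟩
    rw [map_div₀]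
    exact div_le_one_of_le₀ h1 zero_le
  have hell2 : IsIntegral O (E φ / φ) := by
    obtain ⟨p, hp, hp2⟩ := hell
    refine ⟨p, hp, ?_⟩
    have h1 := congrArg (algebraMap M G) hp2
    rw [map_zero, Polynomial.hom_eval₂] at h1
    exact h1
  refine ⟨hell2.tower_top, fun j => ?_⟩
  have h1 := minpoly.isIntegrallyClosed_eq_field_fractions' (R := O) F1 hell2
  rw [h1, Polynomial.coeff_map]
  exact ((minpoly O (E φ / φ)).coeff j).2

end ell

theorem ld (h : S_LDD) : S_LD := by
  intro G k _ _ _ _ _ m g hg E R0 hR0 A γ hkA hA1 hA2 φ hφ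
  classical
  by_cases hφ0 : φ = 0
  · rw [hφ0, map_zero]
  let Fk := IntermediateField.adjoin k (Set.range g)
  let F1 : Subfield G := Fk.toSubfield
  let F0 : Subfield G := Subfield.closure (R0 : Set G)
  have hg0 : ∀ i, g i ≠ 0 := fun i => hg.ne_zero i
  have hgF : ∀ i, g i ∈ F1 := fun i =>
    IntermediateField.subset_adjoin k (Set.range g) ⟨i, rfl⟩
  have hmem : ∀ p : MvPolynomial (Fin m) k, aeval g p ∈ F1 := by
    intro p
    rw [← hg.aevalEquivField_algebraMap_apply_coe p]
    exact (hg.aevalEquivField (algebraMap _ _ p)).2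
  have hgC : ∀ c : Fin m → ℕ, ∏ i, g i ^ c i ∈ F1 := fun c =>
    prod_mem fun i _ => pow_mem (hgF i) _
  have hgC0 : ∀ c : Fin m → ℕ, ∏ i, g i ^ c i ≠ 0 := fun c =>
    Finset.prod_ne_zero_iff.2 fun i _ => pow_ne_zero _ (hg0 i)
  have hR : ∀ a ∈ R0, a ∈ F1 ∧ E a ∈ F1 := by
    intro a ha
    obtain ⟨c, p, q, h1, h2, -⟩ := hR0 a ha
    refine ⟨?_, ?_⟩
    · rw [← mul_div_cancel_right₀ a (hgC0 c), h1]
      exact div_mem (hmem p) (hgC c)
    · rw [← mul_div_cancel_right₀ (E a) (hgC0 c), h2]
      exact div_mem (hmem q) (hgC c)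
  have h01 : F0 ≤ F1 := Subfield.closure_le.2 fun a ha => (hR a ha).1
  have hF0 : ∀ a ∈ F0, ∃ y ∈ R0, ∃ z ∈ R0, y / z = a := by
    intro a ha
    have h1 := Subfield.mem_closure_iff.1 ha
    rwa [Subring.closure_eq] at h1
  have hE : ∀ a ∈ F0, E a ∈ F1 := by
    intro a ha
    obtain ⟨y, hy, z, hz, rfl⟩ := hF0 a ha
    rw [E.leibniz_div]
    simp only [smul_eq_mul]
    exact mul_mem (pow_mem (inv_mem (hR z hz).1) 2) (sub_mem (mul_mem (hR z hz).1 (hR y hy).2)
      (mul_mem (hR y hy).1 (hR z hz).2))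
  -- the monomial valuations
  have hmono : ∀ lam : Fin m → ℤ, ∃ ν : Valuation F1 (WithZero (Multiplicative ℤ)),
      ∀ p : MvPolynomial (Fin m) k, p ≠ 0 →
        (∀ α ∈ p.support, exp (wt lam α) ≤ ν ⟨aeval g p, hmem p⟩) ∧
        ∃ α ∈ p.support, ν ⟨aeval g p, hmem p⟩ = exp (wt lam α) := by
    intro lam
    obtain ⟨ν, hν⟩ := exists_mono (k := k) lam
    let e : F1 →+* Fk :=
      { toFun := fun x => ⟨x.1, x.2⟩
        map_one' := rfl
        map_zero' := rfl
        map_mul' := fun _ _ => rfl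
        map_add' := fun _ _ => rfl }
    refine ⟨ν.comap ((hg.aevalEquivField.symm : Fk →+* _).comp e), fun p hp => ?_⟩
    have h1 : ν.comap ((hg.aevalEquivField.symm : Fk →+* _).comp e) ⟨aeval g p, hmem p⟩ =
        ν (algebraMap _ _ p) := by
      rw [Valuation.comap_apply]
      congr 1
      change hg.aevalEquivField.symm (e ⟨aeval g p, hmem p⟩) = _
      rw [AlgEquiv.symm_apply_eq]
      apply Subtype.ext
      exact (hg.aevalEquivField_algebraMap_apply_coe p).symm
    rw [h1]
    exact hν p hp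
  have hchark : CharZero k := by
    have : CharZero G := inferInstance
    refine ⟨fun a b hab => ?_⟩
    have h1 := congrArg (algebraMap k G) hab
    rw [map_natCast, map_natCast] at h1
    exact_mod_cast h1
  have hφF : IsAlgebraic F0 φ := by
    obtain ⟨p, hp0, hp⟩ := hφ
    let ι : R0 →+* F0 :=
      { toFun := fun x => ⟨x.1, Subfield.subset_closure x.2⟩
        map_one' := rfl
        map_zero' := rfl
        map_mul' := fun _ _ => rfl
        map_add' := fun _ _ => rfl }
    have hι : Function.Injective ι := fun x y hxy => Subtype.ext (congrArg (fun z : F0 => (z : G)) hxy)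
    refine ⟨p.map ι, ?_, ?_⟩
    · rwa [Ne, Polynomial.map_eq_zero_iff hι]
    · rw [Polynomial.aeval_def, Polynomial.eval₂_map]
      exact hp
  have hco : ∀ (lam : Fin m → ℤ) (ν : Valuation F1 (WithZero (Multiplicative ℤ))),
      (∀ p : MvPolynomial (Fin m) k, p ≠ 0 →
        (∀ α ∈ p.support, exp (wt lam α) ≤ ν ⟨aeval g p, hmem p⟩) ∧
        ∃ α ∈ p.support, ν ⟨aeval g p, hmem p⟩ = exp (wt lam α)) →
      IsIntegral F1 (E φ / φ) ∧ ∀ j, ν ((minpoly F1 (E φ / φ)).coeff j) ≤ 1 := by
    intro lam ν hν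
    have hνR : ∀ (a : G) (ha : a ∈ R0), ν ⟨E a, (hR a ha).2⟩ ≤ ν ⟨a, (hR a ha).1⟩ := by
      intro a ha
      obtain ⟨c, p, q, h1, h2, h3⟩ := hR0 a ha
      have h4 : ν ⟨∏ i, g i ^ c i, hgC c⟩ ≠ 0 := by
        rw [Valuation.ne_zero_iff]
        intro h5
        exact hgC0 c (congrArg Subtype.val h5)
      have h5 : ν ⟨a, (hR a ha).1⟩ * ν ⟨∏ i, g i ^ c i, hgC c⟩ = ν ⟨aeval g p, hmem p⟩ := by
        rw [← map_mul]
        congr 1
        exact Subtype.ext h1
      have h6 : ν ⟨E a, (hR a ha).2⟩ * ν ⟨∏ i, g i ^ c i, hgC c⟩ = ν ⟨aeval g q, hmem q⟩ := by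
        rw [← map_mul]
        congr 1
        exact Subtype.ext h2
      have h7 : ν ⟨aeval g q, hmem q⟩ ≤ ν ⟨aeval g p, hmem p⟩ := by
        by_cases hq : q = 0
        · have h8 : (⟨aeval g q, hmem q⟩ : F1) = 0 := Subtype.ext (by
            change aeval g q = 0
            rw [hq, map_zero])
          rw [h8, map_zero]
          exact zero_le
        · obtain ⟨α, hα, h8⟩ := (hν q hq).2
          rw [h8]
          have hp : p ≠ 0 := by
            intro hp
            rw [hp] at h3
            simpa using h3 hα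
          exact (hν p hp).1 α (h3 hα)
      rw [← h5, ← h6] at h7
      exact le_of_mul_le_mul_right h7 (zero_lt_iff.2 h4)
    refine ell_coeff h F0 F1 h01 E hE ν ?_ ?_ φ hφF
    · intro n hn
      have h1 : (C (n : k) : MvPolynomial (Fin m) k) ≠ 0 := by
        rw [Ne, MvPolynomial.C_eq_zero]
        exact_mod_cast hn
      obtain ⟨α, hα, h2⟩ := (hν _ h1).2
      have h3 : (⟨aeval g (C (n : k)), hmem _⟩ : F1) = (n : F1) := Subtype.ext (by
        change aeval g (C (n : k)) = ((n : F1) : G)
        rw [aeval_C, map_natCast]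
        rfl)
      have h4 : α = 0 := by
        by_contra h5
        rw [mem_support_iff, coeff_C, if_neg (Ne.symm h5)] at hα
        exact hα rfl
      rw [h3, h4] at h2
      rw [h2]
      simp [wt]
    · intro a ha
      obtain ⟨y, hy, z, hz, hyz⟩ := hF0 a ha
      by_cases hz0 : z = 0
      · have h1 : a = 0 := by rw [← hyz, hz0, div_zero]
        have h2 : (⟨E a, hE a ha⟩ : F1) = 0 := Subtype.ext (by
          change E a = 0
          rw [h1, map_zero])
        rw [h2, map_zero]
        exact zero_le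
      · have h1 : y = a * z := by rw [← hyz, div_mul_cancel₀ _ hz0]
        have h2 : E a * z = E y - a * E z := by
          rw [h1, E.leibniz]
          simp only [smul_eq_mul]
          ring
        have h3 : ν ⟨E a, hE a ha⟩ * ν ⟨z, (hR z hz).1⟩ =
            ν (⟨E y, (hR y hy).2⟩ - ⟨a, h01 ha⟩ * ⟨E z, (hR z hz).2⟩) := by
          rw [← map_mul]
          congr 1
          exact Subtype.ext h2
        have h4 : ν ⟨y, (hR y hy).1⟩ = ν ⟨a, h01 ha⟩ * ν ⟨z, (hR z hz).1⟩ := by
          rw [← map_mul]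
          congr 1
          exact Subtype.ext h1
        have h5 : ν ⟨E a, hE a ha⟩ * ν ⟨z, (hR z hz).1⟩ ≤
            ν ⟨a, h01 ha⟩ * ν ⟨z, (hR z hz).1⟩ := by
          rw [h3]
          refine (Valuation.map_sub _ _ _).trans (max_le ?_ ?_)
          · rw [← h4]
            exact hνR y hy
          · rw [map_mul]
            exact mul_le_mul_right (hνR z hz) _
        have h6 : ν ⟨z, (hR z hz).1⟩ ≠ 0 := by
          rw [Valuation.ne_zero_iff]
          intro h7
          exact hz0 (congrArg Subtype.val h7)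
        exact le_of_mul_le_mul_right h5 (zero_lt_iff.2 h6)
  -- the coefficients are in `A`
  have hcA : ∀ j, ((minpoly F1 (E φ / φ)).coeff j : G) ∈ A := by
    intro j
    by_contra hcon
    set c := (minpoly F1 (E φ / φ)).coeff j with hc
    obtain ⟨P, Q, hQ, hPQ⟩ := IsFractionRing.div_surjective (A := MvPolynomial (Fin m) k)
      (hg.aevalEquivField.symm (⟨c.1, c.2⟩ : Fk))
    have hQ0 : Q ≠ 0 := nonZeroDivisors.ne_zero hQ
    have hQg : aeval g Q ≠ 0 := by
      intro h1
      exact hQ0 (algebraicIndependent_iff.1 hg Q h1)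
    have h1 : aeval g P = (c : G) * aeval g Q := by
      have h2 := congrArg hg.aevalEquivField hPQ
      rw [AlgEquiv.apply_symm_apply, map_div₀] at h2
      have h3 := congrArg Subtype.val h2
      change (hg.aevalEquivField (algebraMap _ _ P) : G) /
        (hg.aevalEquivField (algebraMap _ _ Q) : G) = (c : G) at h3
      rw [hg.aevalEquivField_algebraMap_apply_coe, hg.aevalEquivField_algebraMap_apply_coe] at h3
      rw [← h3, div_mul_cancel₀ _ hQg]
    have h2 : 1 < A.valuation (c : G) := by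
      rw [← not_le, A.valuation_le_one_iff]
      exact hcon
    have hQv : A.valuation (aeval g Q) ≠ 0 := (Valuation.ne_zero_iff _).2 hQg
    have h3 : A.valuation (aeval g Q) < A.valuation (aeval g P) := by
      rw [h1, map_mul]
      have := mul_lt_mul_of_pos_right h2 (zero_lt_iff.2 hQv)
      rwa [one_mul] at this
    have hP0 : A.valuation (aeval g P) ≠ 0 := (lt_of_le_of_lt zero_le h3).ne'
    obtain ⟨α0, hα0, h4⟩ : ∃ α ∈ P.support,
        A.valuation (aeval g P) ≤ A.valuation (∏ i, g i ^ α i) := by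
      by_contra hcon2
      push Not at hcon2
      have h5 : A.valuation (∑ α ∈ P.support, algebraMap k G (P.coeff α) * ∏ i, g i ^ α i) <
          A.valuation (aeval g P) := by
        refine Valuation.map_sum_lt _ hP0 fun α hα => ?_
        rw [map_mul]
        refine lt_of_le_of_lt ?_ (hcon2 α hα)
        have h6 : A.valuation (algebraMap k G (P.coeff α)) ≤ 1 := by
          rw [A.valuation_le_one_iff]
          exact hkA _
        exact mul_le_of_le_one_left' h6
      have h6 : aeval g P = ∑ α ∈ P.support, algebraMap k G (P.coeff α) * ∏ i, g i ^ α i := by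
        rw [aeval_def, eval₂_eq']
      rw [← h6] at h5
      exact lt_irrefl _ h5
    obtain ⟨lam, hlam⟩ := exists_int γ α0 Q.support (fun β hβ => by
      rw [← not_le, ← hA2, not_le]
      exact lt_of_le_of_lt (hA1 Q β hβ) (lt_of_lt_of_le h3 h4))
    obtain ⟨ν, hν⟩ := hmono lam
    have hPne : P ≠ 0 := by
      intro h5
      rw [h5, map_zero, map_zero] at hP0
      exact hP0 rfl
    have h5 := (hν P hPne).1 α0 hα0
    obtain ⟨β, hβ, h6⟩ := (hν Q hQ0).2
    have h7 : ν ⟨aeval g P, hmem P⟩ = ν c * ν ⟨aeval g Q, hmem Q⟩ := by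
      rw [← map_mul]
      congr 1
      exact Subtype.ext h1
    have h8 : ν ⟨aeval g P, hmem P⟩ ≤ exp (wt lam β) := by
      rw [h7, h6]
      exact mul_le_of_le_one_left' ((hco lam ν hν).2 j)
    have h9 := exp_le_exp.1 (h5.trans h8)
    exact absurd (hlam β hβ) (not_lt.2 h9)
  -- conclusion
  have halgF1 : IsIntegral F1 (E φ / φ) := by
    obtain ⟨ν, hν⟩ := hmono 0
    exact (hco 0 ν hν).1
  have hint : IsIntegral A (E φ / φ) := by
    have h1 : (minpoly F1 (E φ / φ)).map (algebraMap F1 G) ∈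
        Polynomial.lifts (algebraMap A G) := by
      rw [Polynomial.lifts_iff_coeff_lifts]
      intro j
      rw [Polynomial.coeff_map]
      exact ⟨⟨_, hcA j⟩, rfl⟩
    obtain ⟨q, hq1, -, hq2⟩ := Polynomial.lifts_and_natDegree_eq_and_monic h1
      ((minpoly.monic halgF1).map _)
    refine ⟨q, hq2, ?_⟩
    rw [← Polynomial.eval_map, hq1, Polynomial.eval_map]
    exact minpoly.aeval F1 (E φ / φ)
  obtain ⟨b, hb⟩ := IsIntegrallyClosed.algebraMap_eq_of_integral hint
  have h1 : A.valuation (E φ / φ) ≤ 1 := by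
    rw [← hb, A.valuation_le_one_iff]
    exact b.2
  rw [map_div₀] at h1
  exact (div_le_one₀ (zero_lt_iff.2 ((Valuation.ne_zero_iff _).2 hφ0))).1 h1

end Pool.Agent.Y724.T4
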