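import Mathlib
import Pool.Agent.Y724.T4.Stm2
import Pool.Agent.Y724.T4.SQa

/-!
# Graded derivations
-/

set_option autoImplicit false

namespace Pool.Agent.Y724.T4

open MvPolynomial Pool.Agent.Y724.Vj

section graded

variable {G k : Type} [Field G] [CharZero G] [Algebra ℚ G] [Field k] [Algebra k G] {m : ℕ}
  {g : Fin m → G}

omit [CharZero G] in
lemma E_mono (E : Derivation ℚ G G) (lam : Fin m → G) (h : ∀ i, E (g i) = lam i * g i)
    (c : Fin m → ℕ) : E (∏ i, g i ^ c i) = (∑ i, (c i : G) * lam i) * ∏ i, g i ^ c i := by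
  classical
  have key : ∀ S : Finset (Fin m), E (∏ i ∈ S, g i ^ c i) =
      (∑ i ∈ S, (c i : G) * lam i) * ∏ i ∈ S, g i ^ c i := by
    intro S
    induction S using Finset.cons_induction with
    | empty => simp
    | cons i S hi ih =>
      rw [Finset.prod_cons, Finset.sum_cons, Derivation.leibniz, ih, Derivation.leibniz_pow, h]
      simp only [smul_eq_mul, nsmul_eq_mul]
      rcases Nat.eq_zero_or_pos (c i) with h0 | h0
      · rw [h0]
        simp
      · obtain ⟨n, hn⟩ : ∃ n, c i = n + 1 := ⟨c i - 1, by omega⟩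
        rw [hn, Nat.add_sub_cancel, pow_succ]
        ring
  exact key _

omit [CharZero G] in
lemma E_zpow (E : Derivation ℚ G G) (x lam : G) (hx : x ≠ 0) (h : E x = lam * x) (z : ℤ) :
    E (x ^ z) = (z : G) * lam * x ^ z := by
  have hnat : ∀ n : ℕ, E (x ^ n) = (n : G) * lam * x ^ n := by
    intro n
    rw [Derivation.leibniz_pow, h]
    simp only [smul_eq_mul, nsmul_eq_mul]
    rcases Nat.eq_zero_or_pos n with h0 | h0
    · rw [h0]
      simp
    · obtain ⟨n', hn⟩ : ∃ n', n = n' + 1 := ⟨n - 1, by omega⟩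
      rw [hn, Nat.add_sub_cancel, pow_succ]
      ring
  rcases Int.eq_nat_or_neg z with ⟨n, rfl | rfl⟩
  · rw [zpow_natCast, hnat]
    simp
  · rw [zpow_neg, zpow_natCast, Derivation.leibniz_inv, hnat]
    have : x ^ n ≠ 0 := pow_ne_zero _ hx
    simp only [smul_eq_mul]
    push_cast
    field_simp

omit [CharZero G] in
lemma E_zmono (hg0 : ∀ i, g i ≠ 0) (E : Derivation ℚ G G) (lam : Fin m → G)
    (h : ∀ i, E (g i) = lam i * g i) (c : Fin m → ℤ) :
    E (∏ i, g i ^ c i) = (∑ i, (c i : G) * lam i) * ∏ i, g i ^ c i := by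
  classical
  have key : ∀ S : Finset (Fin m), E (∏ i ∈ S, g i ^ c i) =
      (∑ i ∈ S, (c i : G) * lam i) * ∏ i ∈ S, g i ^ c i := by
    intro S
    induction S using Finset.cons_induction with
    | empty => simp
    | cons i S hi ih =>
      rw [Finset.prod_cons, Finset.sum_cons, Derivation.leibniz, ih,
        E_zpow E _ _ (hg0 i) (h i)]
      simp only [smul_eq_mul]
      ring
  exact key _

variable (k g) in
/-- the Laurent polynomials -/
def Lau : Subring G where
  carrier := {a | ∃ (c : Fin m → ℕ) (p : MvPolynomial (Fin m) k), a * ∏ i, g i ^ c i = aeval g p}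
  mul_mem' := by
    rintro a b ⟨c, p, h⟩ ⟨c', p', h'⟩
    refine ⟨fun i => c i + c' i, p * p', ?_⟩
    rw [map_mul, ← h, ← h']
    simp only [pow_add]
    rw [Finset.prod_mul_distrib]
    ring
  one_mem' := ⟨fun _ => 0, 1, by simp⟩
  add_mem' := by
    rintro a b ⟨c, p, h⟩ ⟨c', p', h'⟩
    refine ⟨fun i => c i + c' i, p * ∏ i, X i ^ c' i + p' * ∏ i, X i ^ c i, ?_⟩
    rw [map_add, map_mul, map_mul, ← h, ← h', map_prod, map_prod]
    simp only [map_pow, aeval_X, pow_add]
    rw [Finset.prod_mul_distrib]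
    ring
  zero_mem' := ⟨fun _ => 0, 0, by simp⟩
  neg_mem' := by
    rintro a ⟨c, p, h⟩
    exact ⟨c, -p, by rw [neg_mul, h, map_neg]⟩

omit [CharZero G] [Algebra ℚ G] in
lemma mem_Lau (a : G) : a ∈ Lau k g ↔
    ∃ (c : Fin m → ℕ) (p : MvPolynomial (Fin m) k), a * ∏ i, g i ^ c i = aeval g p := Iff.rfl

omit [CharZero G] [Algebra ℚ G] in
lemma alg_mem_Lau (a : k) : algebraMap k G a ∈ Lau k g :=
  ⟨fun _ => 0, C a, by simp⟩

omit [CharZero G] [Algebra ℚ G] in
lemma g_mem_Lau (i : Fin m) : g i ∈ Lau k g := ⟨fun _ => 0, X i, by simp⟩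

omit [CharZero G] [Algebra ℚ G] in
lemma zmono_mem_Lau (hg0 : ∀ i, g i ≠ 0) (a : Fin m → ℤ) : ∏ i, g i ^ a i ∈ Lau k g := by
  refine Subring.prod_mem _ fun i _ => ?_
  rcases Int.eq_nat_or_neg (a i) with ⟨n, h | h⟩
  · rw [h, zpow_natCast]
    exact Subring.pow_mem _ (g_mem_Lau i) n
  · rw [h, zpow_neg, zpow_natCast, ← inv_pow]
    refine Subring.pow_mem _ ?_ n
    classical
    refine ⟨Pi.single i 1, 1, ?_⟩
    rw [Finset.prod_eq_single i]
    · rw [Pi.single_eq_same, pow_one, inv_mul_cancel₀ (hg0 i), map_one]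
    · intro j _ hj
      rw [Pi.single_eq_of_ne hj, pow_zero]
    · intro h
      exact absurd (Finset.mem_univ _) h

omit [CharZero G] in
/-- graded derivations do not enlarge the support -/
lemma grad_rep {E : Derivation ℚ G G} (hE : Graded k g E) (a : G) (c : Fin m → ℕ)
    (p : MvPolynomial (Fin m) k) (h : a * ∏ i, g i ^ c i = aeval g p) :
    ∃ q : MvPolynomial (Fin m) k, E a * ∏ i, g i ^ c i = aeval g q ∧ q.support ⊆ p.support := by
  classical
  obtain ⟨hE1, hE2⟩ := hE
  choose d hd using hE1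
  choose lam hlam using hE2
  have h1 : E (aeval g p) = ∑ α ∈ p.support, (algebraMap k G (d (coeff α p)) +
      algebraMap k G (coeff α p) * ∑ i, ((α i : ℕ) : G) * algebraMap k G (lam i)) *
        ∏ i, g i ^ α i := by
    rw [aeval_def, eval₂_eq', map_sum]
    refine Finset.sum_congr rfl fun α _ => ?_
    rw [Derivation.leibniz, hd, E_mono E (fun i => algebraMap k G (lam i)) hlam]
    simp only [smul_eq_mul]
    ring
  have h2 : E a * ∏ i, g i ^ c i = E (aeval g p) -
      (∑ i, ((c i : ℕ) : G) * algebraMap k G (lam i)) * aeval g p := by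
    rw [← h, Derivation.leibniz, E_mono E (fun i => algebraMap k G (lam i)) hlam]
    simp only [smul_eq_mul]
    ring
  refine ⟨∑ α ∈ p.support, monomial α (d (coeff α p) + coeff α p *
    ∑ i, ((α i : ℕ) : k) * lam i - (∑ i, ((c i : ℕ) : k) * lam i) * coeff α p), ?_, ?_⟩
  · rw [h2, h1, map_sum]
    have h3 : aeval g p = ∑ α ∈ p.support, algebraMap k G (coeff α p) * ∏ i, g i ^ α i := by
      rw [aeval_def, eval₂_eq']
    rw [h3, Finset.mul_sum, ← Finset.sum_sub_distrib]
    refine Finset.sum_congr rfl fun α _ => ?_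
    rw [aeval_monomial, Finsupp.prod_fintype _ _ (fun k => pow_zero _)]
    simp only [map_add, map_sub, map_mul, map_sum, map_natCast]
    ring
  · intro β hβ
    by_contra hne
    rw [mem_support_iff] at hβ
    apply hβ
    rw [coeff_sum]
    refine Finset.sum_eq_zero fun α hα => ?_
    rw [coeff_monomial, if_neg]
    rintro rfl
    exact hne hα

/-- **The derivative in a graded direction is not larger than the function.** -/
theorem grad_ld (hLD : S_LD) (hg : AlgebraicIndependent k g) {E : Derivation ℚ G G}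
    (hE : Graded k g E) (A : ValuationSubring G) (γ : Fin m → ℝ)
    (hA0 : ∀ b : k, algebraMap k G b ∈ A)
    (hA1 : ∀ (p : MvPolynomial (Fin m) k), ∀ α ∈ p.support,
      A.valuation (∏ i, g i ^ α i) ≤ A.valuation (aeval g p))
    (hA2 : ∀ α β : Fin m →₀ ℕ, A.valuation (∏ i, g i ^ α i) ≤ A.valuation (∏ i, g i ^ β i) ↔
      ∑ i, (α i : ℝ) * γ i ≤ ∑ i, (β i : ℝ) * γ i)
    (φ : G) (hφ : IsIntegral (Lau k g) φ) : A.valuation (E φ) ≤ A.valuation φ := by
  refine hLD G k m g hg E (Lau k g) ?_ A γ hA0 hA1 hA2 φ hφ.isAlgebraic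
  rintro a ⟨c, p, h⟩
  obtain ⟨q, h1, h2⟩ := grad_rep hE a c p h
  exact ⟨c, p, q, h, h1, h2⟩

variable {l μ r ν N : ℕ} {u : Fin l → G} {κ : Fin l → k} {a : Fin l → Fin m → ℤ}
  {V : Fin l → Fin μ → k} {z : Fin μ → G}

omit [CharZero G] in
/-- the values of graded derivations at sums of units -/
lemma grad_val (hg0 : ∀ i, g i ≠ 0) (hκ0 : ∀ j, κ j ≠ 0)
    (hu : ∀ j, u j = algebraMap k G (κ j) * ∏ i, g i ^ a j i)
    (hz : ∀ i, z i = ∑ j, u j * algebraMap k G (V j i)) {E : Derivation ℚ G G}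
    (hE : Graded k g E) : ∃ τ : Fin l → Fin μ → k, ∀ i, E (z i) =
      ∑ j, u j * algebraMap k G (τ j i) := by
  obtain ⟨hE1, hE2⟩ := hE
  choose d hd using hE1
  choose lam hlam using hE2
  refine ⟨fun j i => V j i * (d (κ j) / κ j + ∑ q, (a j q : k) * lam q) + d (V j i), fun i => ?_⟩
  rw [hz, map_sum]
  refine Finset.sum_congr rfl fun j _ => ?_
  have hκ : algebraMap k G (κ j) ≠ 0 := by
    rw [Ne, map_eq_zero]
    exact hκ0 j
  rw [hu, Derivation.leibniz, Derivation.leibniz, hd, hd,
    E_zmono hg0 E (fun i => algebraMap k G (lam i)) hlam]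
  simp only [smul_eq_mul, map_add, map_mul, map_div₀, map_sum, map_intCast]
  field_simp
  ring

omit [CharZero G] in
/-- a derivation that kills the parameters kills the point -/
lemma der_zero (Δ : Derivation ℚ G G) (ia : Fin r → Fin μ) (ic : Fin r → Fin ν → Fin μ) (θ : G)
    (hθ : θ ^ r = ∑ i : Fin r, z (ia i) * θ ^ (i : ℕ)) (hf : fpr z ia θ ≠ 0)
    (hΔ : ∀ i, Δ (z i) = 0) (y : Fin ν) : Δ (pt z ic θ y) = 0 := by
  rw [E_pt Δ z (fun _ => 0) hΔ ia ic θ hθ hf y]
  unfold xd pt rho
  simp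

omit [CharZero G] in
lemma der_sum_apply {ι : Type} (T : Finset ι) (e : ι → G) (E : ι → Derivation ℚ G G) (y : G) :
    (∑ j ∈ T, e j • E j) y = ∑ j ∈ T, e j * E j y := by
  classical
  induction T using Finset.cons_induction with
  | empty => simp
  | cons j T hj ih =>
    rw [Finset.sum_cons, Finset.sum_cons, Derivation.add_apply, ih, Derivation.smul_apply,
      smul_eq_mul]

/-- **Enough graded directions.** -/
theorem grad_dirs (hGD : S_GD) (hg : AlgebraicIndependent k g)
    (hu : ∀ j, u j = algebraMap k G (κ j) * ∏ i, g i ^ a j i)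
    (hz : ∀ i, z i = ∑ j, u j * algebraMap k G (V j i)) (ia : Fin r → Fin μ)
    (ic : Fin r → Fin ν → Fin μ) (θ : G)
    (hθ : θ ^ r = ∑ i : Fin r, z (ia i) * θ ^ (i : ℕ)) (hf : fpr z ia θ ≠ 0)
    (J0 : Fin (N + 1) → Fin ν) (σ : G)
    (hσ : AlgebraicIndependent ℚ (fun i => σ * pt z ic θ (J0 i))) :
    ∃ E : Fin N → Derivation ℚ G G, (∀ j, Graded k g (E j)) ∧
      (jetM (fun j => E j) (fun i => pt z ic θ (J0 i))).det ≠ 0 := by
  classical
  have hg0 : ∀ i, g i ≠ 0 := fun i => hg.ne_zero i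
  set x : Fin ν → G := pt z ic θ with hx
  choose E hE using fun k => exists_dual _ hσ k
  set v0 : Fin (N + 1) → G := fun i => x (J0 i) with hv0
  set S : Set (Fin (N + 1) → G) := insert v0 {w | ∃ D : Derivation ℚ G G, Graded k g D ∧
    w = fun i => D (x (J0 i))} with hS
  have hx1 : v0 ∈ Submodule.span G S := Submodule.subset_span (Set.mem_insert _ _)
  have hx2 : ∀ D : Derivation ℚ G G, (fun i => D (x (J0 i))) ∈ Submodule.span G S := by
    intro D
    obtain ⟨ι, T, e, EE, h1, h2, h3⟩ := hGD G k m g hg D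
      (Finset.univ.image κ ∪ Finset.univ.biUnion fun j => Finset.univ.image (V j))
    set Δ : Derivation ℚ G G := D - ∑ j ∈ T, e j • EE j with hΔ
    have hΔa : ∀ y : G, Δ y = D y - ∑ j ∈ T, e j * EE j y := by
      intro y
      rw [hΔ, Derivation.sub_apply, der_sum_apply]
    have hκ : ∀ j, Δ (algebraMap k G (κ j)) = 0 := by
      intro j
      rw [hΔa, h2 _ (Finset.mem_union_left _ (Finset.mem_image_of_mem _ (Finset.mem_univ j))),
        sub_self]
    have hV : ∀ j i, Δ (algebraMap k G (V j i)) = 0 := by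
      intro j i
      rw [hΔa, h2 _ (Finset.mem_union_right _ (Finset.mem_biUnion.2
        ⟨j, Finset.mem_univ _, Finset.mem_image_of_mem _ (Finset.mem_univ i)⟩)), sub_self]
    have hgΔ : ∀ i, Δ (g i) = 0 * g i := by
      intro i
      rw [hΔa, h3, sub_self, zero_mul]
    have hzΔ : ∀ i, Δ (z i) = 0 := by
      intro i
      rw [hz, map_sum]
      refine Finset.sum_eq_zero fun j _ => ?_
      rw [Derivation.leibniz, hV, hu, Derivation.leibniz, hκ, E_zmono hg0 Δ (fun _ => 0) hgΔ]
      simp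
    have h4 : ∀ y, D (x y) = ∑ j ∈ T, e j * EE j (x y) := by
      intro y
      have h5 := der_zero (ν := ν) Δ ia ic θ hθ hf hzΔ y
      rw [hΔa] at h5
      exact sub_eq_zero.1 h5
    have h6 : (fun i => D (x (J0 i))) = ∑ j ∈ T, e j • (fun i => EE j (x (J0 i))) := by
      funext i
      rw [Finset.sum_apply, h4]
      exact Finset.sum_congr rfl fun j _ => by rw [Pi.smul_apply, smul_eq_mul]
    rw [h6]
    refine Submodule.sum_mem _ fun j _ => Submodule.smul_mem _ _ ?_
    exact Submodule.subset_span (Set.mem_insert_of_mem _ ⟨EE j, h1 j, rfl⟩)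
  have htop : Submodule.span G S = ⊤ := by
    rw [eq_top_iff]
    intro w _
    have h1 : ∀ k : Fin (N + 1), (Pi.single k 1 : Fin (N + 1) → G) ∈ Submodule.span G S := by
      intro k
      have h2 : (Pi.single k 1 : Fin (N + 1) → G) =
          σ • (fun i => E k (x (J0 i))) + E k σ • v0 := by
        funext i
        have h3 := hE k i
        rw [Derivation.leibniz, smul_eq_mul, smul_eq_mul] at h3
        rw [Pi.add_apply, Pi.smul_apply, Pi.smul_apply, smul_eq_mul, smul_eq_mul,
          mul_comm (E k σ), Pi.single_apply]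
        exact h3.symm
      rw [h2]
      exact Submodule.add_mem _ (Submodule.smul_mem _ _ (hx2 _)) (Submodule.smul_mem _ _ hx1)
    have h2 : w = ∑ k, w k • (Pi.single k 1 : Fin (N + 1) → G) := by
      funext i
      rw [Finset.sum_apply]
      simp [Pi.single_apply]
    rw [h2]
    exact Submodule.sum_mem _ fun k _ => Submodule.smul_mem _ _ (h1 k)
  have hv00 : v0 ≠ 0 := by
    intro h0
    have h1 := congrFun h0 0
    have h2 := hσ.ne_zero 0
    apply h2
    change σ * v0 0 = 0
    rw [h1]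
    exact mul_zero _
  have hs : LinearIndepOn G id ({v0} : Set (Fin (N + 1) → G)) :=
    LinearIndepOn.singleton hv00
  obtain ⟨B, hBS, hvB, hBspan, hB⟩ := exists_linearIndepOn_extension hs
    (Set.singleton_subset_iff.2 (Set.mem_insert v0 _))
  rw [Set.image_id, Set.image_id] at hBspan
  have hBtop : Submodule.span G B = ⊤ := by
    rw [eq_top_iff, ← htop]
    exact Submodule.span_le.2 hBspan
  have hBli : LinearIndependent G (fun x : B => (x : Fin (N + 1) → G)) := hB
  have hBfin : B.Finite := by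
    have := hBli.finite
    exact Set.toFinite B
  have : Fintype B := hBfin.fintype
  have hcard : Fintype.card B = N + 1 := by
    have h1 := finrank_span_set_eq_card hBli
    rw [hBtop, finrank_top, Module.finrank_fin_fun] at h1
    rw [← Set.toFinset_card, ← h1]
  have hvB' : v0 ∈ B := hvB rfl
  have hcard' : Fintype.card {b : B // b ≠ ⟨v0, hvB'⟩} = N := by
    rw [Fintype.card_subtype_compl (fun b : B => b = ⟨v0, hvB'⟩), hcard,
      Fintype.card_subtype_eq]
    rfl
  let eq := (Fintype.equivFinOfCardEq hcard').symm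
  have hmem : ∀ c : Fin N, ∃ D : Derivation ℚ G G, Graded k g D ∧
      ((eq c : B) : Fin (N + 1) → G) = fun i => D (x (J0 i)) := by
    intro c
    rcases hBS (eq c : B).2 with h1 | h1
    · exact absurd (Subtype.ext h1) (eq c).2
    · exact h1
  choose EE hEE1 hEE2 using hmem
  refine ⟨EE, hEE1, ?_⟩
  let ff : Fin (N + 1) → B := Fin.cons ⟨v0, hvB'⟩ (fun c => (eq c : B))
  have hff : Function.Injective ff := by
    rw [Fin.cons_injective_iff]
    constructor
    · rintro ⟨c, hc⟩
      exact (eq c).2 hc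
    · exact Subtype.val_injective.comp eq.injective
  have hli : LinearIndependent G (fun c : Fin (N + 1) => ((ff c : B) : Fin (N + 1) → G)) :=
    hBli.comp ff hff
  have h1 : jetM (fun j => EE j) (fun i => x (J0 i)) =
      (Matrix.of fun c : Fin (N + 1) => ((ff c : B) : Fin (N + 1) → G)).transpose := by
    ext i c
    rw [Matrix.transpose_apply, Matrix.of_apply]
    unfold jetM
    rw [Matrix.of_apply]
    refine Fin.cases ?_ (fun c => ?_) c
    · rw [Fin.cons_zero]
      simp only [ff, Fin.cons_zero]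
      rfl
    · rw [Fin.cons_succ]
      simp only [ff, Fin.cons_succ]
      rw [hEE2]
  rw [h1, Matrix.det_transpose]
  have h2 : LinearIndependent G
      (Matrix.of fun c : Fin (N + 1) => ((ff c : B) : Fin (N + 1) → G)).row := hli
  exact ((Matrix.linearIndependent_rows_iff_isUnit.1 h2).map Matrix.detMonoidHom).ne_zero

end graded

end Pool.Agent.Y724.T4
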