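import Mathlib
import Pool.Agent.Y724.T4.GR
import Pool.Agent.Y724.T4.SQ

/-!
# The inequality along a sequence of algebraic points, without content term
-/

set_option autoImplicit false

namespace Pool.Agent.Y724.T4

open MvPolynomial Filter Topology Pool.Agent.TH932.Germs Pool.Agent.TH551.SU Pool.Agent.Y724.Vj
open Pool.Agent.TH551.SU.SUI NumberField

/-- the values of forms at the point are integral over a ring that contains the parameters -/
lemma integral_form2 {G : Type} [Field G] {r μ ν : ℕ} (R : Subring G) (z : Fin μ → G)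
    (hzR : ∀ i, z i ∈ R) (ia : Fin r → Fin μ) (ic : Fin r → Fin ν → Fin μ) (θ : G)
    (hθ : θ ^ r = ∑ i : Fin r, z (ia i) * θ ^ (i : ℕ)) (P : MvPolynomial (Fin ν) ℤ) :
    IsIntegral R (evi (pt z ic θ) P) := by
  classical
  have hzI : ∀ i, IsIntegral R (z i) := fun i =>
    (isIntegral_algebraMap (R := R) (A := G) (x := ⟨z i, hzR i⟩))
  have hr : 0 < r := by
    rcases Nat.eq_zero_or_pos r with rfl | h
    · simp at hθ
    · exact h
  have hθI : IsIntegral R θ := by
    obtain ⟨r', rfl⟩ : ∃ r', r = r' + 1 := ⟨r - 1, by omega⟩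
    refine ⟨(Polynomial.X ^ (r' + 1) - ∑ i : Fin (r' + 1),
      Polynomial.C (⟨z (ia i), hzR _⟩ : R) * Polynomial.X ^ (i : ℕ) : Polynomial R), ?_, ?_⟩
    · refine Polynomial.monic_X_pow_sub (lt_of_le_of_lt (b := ((r' : ℕ) : WithBot ℕ)) ?_
        (by exact_mod_cast Nat.lt_succ_self r'))
      refine (Polynomial.degree_sum_le Finset.univ (fun i : Fin (r' + 1) =>
        (Polynomial.C (⟨z (ia i), hzR _⟩ : R) * Polynomial.X ^ (i : ℕ) : Polynomial R))).trans ?_
      refine Finset.sup_le fun i _ => ?_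
      refine (Polynomial.degree_C_mul_X_pow_le _ _).trans ?_
      have := i.2
      exact_mod_cast (by omega : (i : ℕ) ≤ r')
    · rw [Polynomial.eval₂_sub, Polynomial.eval₂_pow, Polynomial.eval₂_X,
        Polynomial.eval₂_finsetSum, hθ, sub_eq_zero]
      refine Finset.sum_congr rfl fun i _ => ?_
      rw [Polynomial.eval₂_mul, Polynomial.eval₂_C, Polynomial.eval₂_pow, Polynomial.eval₂_X]
      rfl
  have hx : ∀ y, IsIntegral R (pt z ic θ y) := fun y =>
    IsIntegral.sum _ fun i _ => (hzI _).mul (hθI.pow _)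
  have h1 : evi (pt z ic θ) P ∈ (integralClosure R G).toSubring := by
    unfold evi
    rw [eval₂_eq']
    refine Subring.sum_mem _ fun α _ => Subring.mul_mem _ ?_ (Subring.prod_mem _ fun y _ =>
      Subring.pow_mem _ (hx y) _)
    rw [eq_intCast]
    exact intCast_mem _ _
  exact h1

section germ
variable {L : ℕ → ℝ} (hL : Tendsto L atTop atTop) {K : ℕ → Type} [∀ t, Field (K t)]
  [∀ t, CharZero (K t)] {l μ r ν N m : ℕ}

lemma graded_smul {G : Type} [Field G] [Algebra ℚ G] {k : Type} [Field k] [Algebra k G]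
    {g : Fin m → G} {E : Derivation ℚ G G} (hE : Graded k g E) (ρ : k) :
    Graded k g (algebraMap k G ρ • E) := by
  obtain ⟨h1, h2⟩ := hE
  constructor
  · intro a
    obtain ⟨b, hb⟩ := h1 a
    exact ⟨ρ * b, by rw [Derivation.smul_apply, hb, smul_eq_mul, map_mul]⟩
  · intro i
    obtain ⟨b, hb⟩ := h2 i
    exact ⟨ρ * b, by rw [Derivation.smul_apply, hb, smul_eq_mul, map_mul, mul_assoc]⟩

/-- **Graded directions with integral data.** -/
theorem germ_dirs2 (hGD : S_GD) (T : Fin m → GG)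
    (hind : ∀ p : MvPolynomial (Fin m) (KK L hL), aeval T p = 0 → p = 0)
    (κ : Fin l → KK L hL) (a : Fin l → Fin m → ℤ) (U : Fin l → GG)
    (hU : ∀ j, U j = (κ j : GG) * ∏ k, T k ^ a j k) (hU0 : ∀ j, U j ≠ 0)
    (V : Fin l → Fin μ → KK L hL) (Z : Fin μ → GG)
    (hZ : ∀ i, Z i = ∑ j, U j * (V j i : GG))
    (ia : Fin r → Fin μ) (ic : Fin r → Fin ν → Fin μ) (θ : UP K)
    (hθ : θ ^ r = ∑ i : Fin r, io K (Z (ia i)) * θ ^ (i : ℕ))
    (hf : fpr (fun i => io K (Z i)) ia θ ≠ 0) (J0 : Fin (N + 1) → Fin ν) (σ : UP K)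
    (hσ : AlgebraicIndependent ℚ (fun i => σ * pt (fun i => io K (Z i)) ic θ (J0 i))) :
    ∃ (E : Fin N → Derivation ℚ (UP K) (UP K)) (M : Fin N → Fin l → Fin μ → ℕ → ℤ),
      (∀ c, Graded (K0 hL K) (fun k => io K (T k)) (E c)) ∧
      (∀ c i, E c (io K (Z i)) = io K (∑ j, U j * gm (fun t => (M c j i t : ℚ)))) ∧
      (jetM (fun j => E j) (fun i => pt (fun i => io K (Z i)) ic θ (J0 i))).det ≠ 0 := by
  classical
  set z : Fin μ → UP K := fun i => io K (Z i) with hz
  set g : Fin m → UP K := fun k => io K (T k) with hg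
  set u : Fin l → UP K := fun j => io K (U j) with hu
  set V' : Fin l → Fin μ → K0 hL K := fun j i => psi hL K (V j i) with hV'
  set κ' : Fin l → K0 hL K := fun j => psi hL K (κ j) with hκ'
  have hgI : AlgebraicIndependent (K0 hL K) g := algInd_io hL _ hind
  have hu' : ∀ j, u j = algebraMap (K0 hL K) (UP K) (κ' j) * ∏ k, g k ^ a j k := by
    intro j
    change io K (U j) = ((psi hL K (κ j) : K0 hL K) : UP K) * ∏ k, (io K (T k)) ^ a j k
    rw [hU j, map_mul, map_prod, psi_coe]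
    congr 1
    exact Finset.prod_congr rfl fun k _ => map_zpow₀ _ _ _
  have hκ0 : ∀ j, κ' j ≠ 0 := by
    intro j h0
    apply hU0 j
    have h1 : κ j = 0 := by
      rw [hκ'] at h0
      exact (map_eq_zero (psi hL K)).1 h0
    rw [hU j, h1, ZeroMemClass.coe_zero, zero_mul]
  have hzV : ∀ i, z i = ∑ j, u j * algebraMap (K0 hL K) (UP K) (V' j i) := by
    intro i
    change io K (Z i) = ∑ j, io K (U j) * io K (V j i : GG)
    rw [hZ, map_sum]
    exact Finset.sum_congr rfl fun j _ => map_mul _ _ _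
  obtain ⟨E0, hE0, hdet⟩ := grad_dirs hGD hgI hu' hzV ia ic θ hθ hf J0 σ hσ
  choose τ hτ using fun c => grad_val (fun i => hgI.ne_zero i) hκ0 hu' hzV (hE0 c)
  choose τ1 hτ1 using fun x : Fin N × Fin l × Fin μ => psi_surj hL K (τ x.1 x.2.1 x.2.2)
  obtain ⟨ρ, hρ0, hρ⟩ := exists_common hL τ1
  choose MM hMM using hρ
  refine ⟨fun c => algebraMap (K0 hL K) (UP K) (psi hL K ρ) • E0 c, fun c j i => MM (c, j, i),
    fun c => graded_smul (hE0 c) _, ?_, ?_⟩
  · intro c i
    rw [Derivation.smul_apply, smul_eq_mul]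
    have h1 := hτ c i
    change algebraMap (K0 hL K) (UP K) (psi hL K ρ) * E0 c (z i) = _
    rw [h1]
    refine (Finset.mul_sum _ _ _).trans ?_
    rw [map_sum]
    refine Finset.sum_congr rfl fun j _ => ?_
    rw [← hMM (c, j, i), map_mul, map_mul, ← hτ1 (c, j, i)]
    change io K (ρ : GG) * (io K (U j) * io K (τ1 (c, j, i) : GG)) = _
    ring
  · have h1 : jetM (fun j => algebraMap (K0 hL K) (UP K) (psi hL K ρ) • E0 j)
        (fun i => pt z ic θ (J0 i)) = Matrix.of fun i c =>
        (Fin.cons 1 (fun _ => algebraMap (K0 hL K) (UP K) (psi hL K ρ)) : Fin (N + 1) → UP K) c *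
          jetM (fun j => E0 j) (fun i => pt z ic θ (J0 i)) i c := by
      ext i c
      rw [Matrix.of_apply]
      unfold jetM
      rw [Matrix.of_apply, Matrix.of_apply]
      refine Fin.cases ?_ (fun c => ?_) c
      · rw [Fin.cons_zero, Fin.cons_zero, Fin.cons_zero, one_mul]
      · rw [Fin.cons_succ, Fin.cons_succ, Fin.cons_succ]
        rfl
    have h2 := Matrix.det_mul_row
      (Fin.cons 1 (fun _ => algebraMap (K0 hL K) (UP K) (psi hL K ρ)) : Fin (N + 1) → UP K)
      (jetM (fun j => E0 j) (fun i => pt z ic θ (J0 i)))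
    have h3 : (jetM (fun j => ⇑(algebraMap (K0 hL K) (UP K) (psi hL K ρ) • E0 j))
        (fun i => pt z ic θ (J0 i))).det ≠ 0 := by
      rw [h1, h2]
      refine mul_ne_zero (Finset.prod_ne_zero_iff.2 fun c _ => ?_) hdet
      refine Fin.cases ?_ (fun c => ?_) c
      · rw [Fin.cons_zero]
        exact one_ne_zero
      · rw [Fin.cons_succ]
        exact (map_ne_zero (io K)).2 hρ0
    exact h3

end germ

end Pool.Agent.Y724.T4
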