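import Mathlib
import Pool.Agent.Y724.T4.SQ2

/-!
# Preparations for the inequality along a sequence of algebraic points, without content term
-/

set_option autoImplicit false

namespace Pool.Agent.Y724.T4

open MvPolynomial Filter Topology Pool.Agent.TH932.Germs Pool.Agent.TH551.SU Pool.Agent.Y724.Vj
open Pool.Agent.TH551.SU.SUI NumberField

section poly
variable {G : Type} [Field G] {r μ : ℕ}

/-- the equation of the point -/
noncomputable def fpoly (z : Fin μ → G) (ia : Fin r → Fin μ) : Polynomial G :=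
  Polynomial.X ^ r - ∑ i : Fin r, Polynomial.C (z (ia i)) * Polynomial.X ^ (i : ℕ)

lemma fpoly_monic (z : Fin μ → G) (ia : Fin r → Fin μ) (hr : 0 < r) : (fpoly z ia).Monic := by
  obtain ⟨r', rfl⟩ : ∃ r', r = r' + 1 := ⟨r - 1, by omega⟩
  refine Polynomial.monic_X_pow_sub (lt_of_le_of_lt (b := ((r' : ℕ) : WithBot ℕ)) ?_
    (by exact_mod_cast Nat.lt_succ_self r'))
  refine (Polynomial.degree_sum_le Finset.univ (fun i : Fin (r' + 1) =>
    (Polynomial.C (z (ia i)) * Polynomial.X ^ (i : ℕ) : Polynomial G))).trans ?_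
  refine Finset.sup_le fun i _ => ?_
  refine (Polynomial.degree_C_mul_X_pow_le _ _).trans ?_
  have := i.2
  exact_mod_cast (by omega : (i : ℕ) ≤ r')

lemma fpoly_eval (z : Fin μ → G) (ia : Fin r → Fin μ) (θ : G)
    (hθ : θ ^ r = ∑ i : Fin r, z (ia i) * θ ^ (i : ℕ)) : (fpoly z ia).eval θ = 0 := by
  unfold fpoly
  rw [Polynomial.eval_sub, Polynomial.eval_pow, Polynomial.eval_X, Polynomial.eval_finsetSum, hθ,
    sub_eq_zero]
  refine Finset.sum_congr rfl fun i _ => ?_
  rw [Polynomial.eval_mul, Polynomial.eval_C, Polynomial.eval_pow, Polynomial.eval_X]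

lemma fpoly_der (z : Fin μ → G) (ia : Fin r → Fin μ) (θ : G) :
    (Polynomial.derivative (fpoly z ia)).eval θ = fpr z ia θ := by
  unfold fpoly fpr
  rw [Polynomial.derivative_sub, Polynomial.derivative_sum, Polynomial.eval_sub,
    Polynomial.eval_finsetSum, Polynomial.derivative_X_pow, Polynomial.eval_mul,
    Polynomial.eval_C, Polynomial.eval_pow, Polynomial.eval_X]
  congr 1
  refine Finset.sum_congr rfl fun i _ => ?_
  rw [Polynomial.derivative_C_mul_X_pow, Polynomial.eval_mul,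
    Polynomial.eval_C, Polynomial.eval_pow, Polynomial.eval_X]
  ring

lemma fpoly_coeff_mem (R : Subring G) (z : Fin μ → G) (hz : ∀ i, z i ∈ R) (ia : Fin r → Fin μ)
    (j : ℕ) : (fpoly z ia).coeff j ∈ R := by
  unfold fpoly
  rw [Polynomial.coeff_sub, Polynomial.finsetSum_coeff, Polynomial.coeff_X_pow]
  refine R.sub_mem ?_ (R.sum_mem fun i _ => ?_)
  · split_ifs
    · exact R.one_mem
    · exact R.zero_mem
  · rw [Polynomial.coeff_C_mul_X_pow]
    split_ifs
    · exact hz _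
    · exact R.zero_mem

end poly

section gr
variable {G k : Type} [Field G] [Field k] [Algebra k G] {m l μ r ν : ℕ}
  {g : Fin m → G} {u : Fin l → G} {κ : Fin l → k} {a : Fin l → Fin m → ℤ}
  {V : Fin l → Fin μ → k} {z : Fin μ → G}

lemma z_mem_Lau (hg0 : ∀ i, g i ≠ 0)
    (hu : ∀ j, u j = algebraMap k G (κ j) * ∏ i, g i ^ a j i)
    (hz : ∀ i, z i = ∑ j, u j * algebraMap k G (V j i)) (i : Fin μ) : z i ∈ Lau k g := by
  rw [hz]
  refine Subring.sum_mem _ fun j _ => Subring.mul_mem _ ?_ (alg_mem_Lau _)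
  rw [hu]
  exact Subring.mul_mem _ (alg_mem_Lau _) (zmono_mem_Lau hg0 _)

lemma pt_mem_closure
    (hu : ∀ j, u j = algebraMap k G (κ j) * ∏ i, g i ^ a j i)
    (hz : ∀ i, z i = ∑ j, u j * algebraMap k G (V j i)) (ic : Fin r → Fin ν → Fin μ) (θ : G)
    (y : Fin ν) :
    pt z ic θ y ∈ Subfield.closure (Set.range (algebraMap k G) ∪ Set.range g ∪ {θ}) := by
  have hk : ∀ c : k, algebraMap k G c ∈
      Subfield.closure (Set.range (algebraMap k G) ∪ Set.range g ∪ {θ}) := fun c =>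
    Subfield.subset_closure (Or.inl (Or.inl ⟨c, rfl⟩))
  have hg : ∀ i, g i ∈
      Subfield.closure (Set.range (algebraMap k G) ∪ Set.range g ∪ {θ}) := fun i =>
    Subfield.subset_closure (Or.inl (Or.inr ⟨i, rfl⟩))
  have hθ : θ ∈ Subfield.closure (Set.range (algebraMap k G) ∪ Set.range g ∪ {θ}) :=
    Subfield.subset_closure (Or.inr rfl)
  unfold pt
  refine sum_mem fun i _ => mul_mem ?_ (pow_mem hθ _)
  rw [hz]
  refine sum_mem fun j _ => mul_mem ?_ (hk _)
  rw [hu]
  refine mul_mem (hk _) (prod_mem fun q _ => zpow_mem (hg q) _)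

end gr

section nf
variable {F : Type} [Field F] [NumberField F]

lemma logS_mul_int (hNRM : S_NRM) (S : Finset ℕ) (hS : ∀ p ∈ S, p.Prime) (D : F) (hD : D ≠ 0)
    (e : ℤ) (he : e ≠ 0) : logS S (D * (e : F)) ≤
      logS S D + Module.finrank ℚ F * Real.log |(e : ℝ)| := by
  have heF : (e : F) ≠ 0 := by exact_mod_cast he
  rw [hNRM F S hS _ (mul_ne_zero hD heF), hNRM F S hS _ hD]
  have h1 : Algebra.norm ℚ (e : F) = (e : ℚ) ^ Module.finrank ℚ F := by
    have := Algebra.norm_algebraMap (R := ℚ) (S := F) (e : ℚ)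
    simpa using this
  have hN0 : Algebra.norm ℚ D ≠ 0 := by
    rw [Ne, Algebra.norm_eq_zero_iff]
    exact hD
  have heQ : ((e : ℚ)) ^ Module.finrank ℚ F ≠ 0 := pow_ne_zero _ (by exact_mod_cast he)
  rw [map_mul, h1]
  have h2 : Real.log |((Algebra.norm ℚ D * (e : ℚ) ^ Module.finrank ℚ F : ℚ) : ℝ)| =
      Real.log |((Algebra.norm ℚ D : ℚ) : ℝ)| + Module.finrank ℚ F * Real.log |(e : ℝ)| := by
    push_cast
    rw [abs_mul, abs_pow, Real.log_mul, Real.log_pow]
    · exact abs_ne_zero.2 (by exact_mod_cast hN0)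
    · exact pow_ne_zero _ (abs_ne_zero.2 (by exact_mod_cast he))
  have h3 : ∑ p ∈ S, Real.log ((padicNorm p (Algebra.norm ℚ D * (e : ℚ) ^ Module.finrank ℚ F) :
      ℚ) : ℝ) ≤ ∑ p ∈ S, Real.log ((padicNorm p (Algebra.norm ℚ D) : ℚ) : ℝ) := by
    refine Finset.sum_le_sum fun p hp => ?_
    have hpp : Fact p.Prime := ⟨hS p hp⟩
    rw [padicNorm.mul]
    have h4 : padicNorm p ((e : ℚ) ^ Module.finrank ℚ F) ≤ 1 := by
      have h5 : ((e : ℚ) ^ Module.finrank ℚ F) = (((e ^ Module.finrank ℚ F : ℤ)) : ℚ) := by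
        push_cast
        rfl
      rw [h5]
      exact padicNorm.of_int _
    have h5 : 0 < padicNorm p (Algebra.norm ℚ D) :=
      lt_of_le_of_ne (padicNorm.nonneg _) (Ne.symm (padicNorm.nonzero hN0))
    have h6 : 0 < padicNorm p ((e : ℚ) ^ Module.finrank ℚ F) :=
      lt_of_le_of_ne (padicNorm.nonneg _) (Ne.symm (padicNorm.nonzero heQ))
    refine Real.log_le_log (by exact_mod_cast mul_pos h5 h6) ?_
    have h7 : padicNorm p (Algebra.norm ℚ D) * padicNorm p ((e : ℚ) ^ Module.finrank ℚ F) ≤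
        padicNorm p (Algebra.norm ℚ D) := mul_le_of_le_one_right h5.le h4
    exact_mod_cast h7
  rw [h2]
  linarith

lemma prod_le_sup (v : FinitePlace F) {ν n : ℕ} (x : Fin ν → F) (J : Fin n → Fin ν) :
    v (∏ i, x (J i)) ≤ (⨆ i, v (x i)) ^ n := by
  rw [map_prod]
  have h1 : ∏ i : Fin n, v (x (J i)) ≤ ∏ _i : Fin n, (⨆ i, v (x i)) :=
    Finset.prod_le_prod (fun i _ => apply_nonneg v _) fun i _ =>
      le_ciSup (f := fun i => v (x i)) (Finite.bddAbove_range _) (J i)
  rw [Finset.prod_const, Finset.card_univ, Fintype.card_fin] at h1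
  exact h1

lemma int_place_le (v : FinitePlace F) (e : ℤ) : v (e : F) ≤ 1 :=
  int_mem_Rv v _ (isIntegral_algebraMap (R := ℤ) (A := F) (x := e))

end nf

end Pool.Agent.Y724.T4
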