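import Mathlib
import Pool.Agent.Y724.T4.SQ3

/-!
# The inequality along a sequence of algebraic points, without content term
-/

set_option autoImplicit false

namespace Pool.Agent.Y724.T4

open MvPolynomial Filter Topology Pool.Agent.TH932.Germs Pool.Agent.TH551.SU Pool.Agent.Y724.Vj
open Pool.Agent.TH551.SU.SUI NumberField

section out
variable {L : ℕ → ℝ} {s ν N m r μ : ℕ}

/-- the inequality outside `S` for one minor -/
lemma out_minor (hCDG : S_CDG) (hARI : S_ARI) (b : Fin s → ℕ)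
    (hb : ∀ v, (b v).Prime) (hbi : Function.Injective b) (S : Finset ℕ) (hbS : ∀ v, b v ∈ S)
    (hSb : ∀ p ∈ S, ∃ v, b v = p)
    (hL : Tendsto L atTop atTop) (K : ℕ → Type) [∀ t, Field (K t)] [∀ t, NumberField (K t)]
    (T : Fin m → ℕ → ℚ) (hT : ∀ k n, IsSU b (T k n)) (hTB : ∀ k, Bd L (gm (T k)))
    (hind : ∀ p : MvPolynomial (Fin m) (KK L hL), aeval (fun k => gm (T k)) p = 0 → p = 0)
    (E : Fin N → Derivation ℚ (UP K) (UP K))
    (hE : ∀ j, Graded (K0 hL K) (fun k => io K (gm (T k))) (E j))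
    (f : Polynomial (UP K)) (Θ : UP K) (hf1 : f.Monic) (hf2 : f.eval Θ = 0)
    (hf3 : ∀ i, f.coeff i ∈ Lau (K0 hL K) (fun k => io K (gm (T k))))
    (x : ∀ t, Fin (N + 1) → K t)
    (hx : ∀ i, uq K (fun t => x t i) ∈ Subfield.closure
      (Set.range (algebraMap (K0 hL K) (UP K)) ∪ Set.range (fun k => io K (gm (T k))) ∪ {Θ}))
    (D : ∀ t, K t) (hD : uq K D = (Polynomial.derivative f).eval Θ)
    (M : ∀ t, Matrix (Fin (N + 1)) (Fin (N + 1)) (K t))
    (hM : ∀ i c, jetM (fun j => E j) (fun i => uq K (fun t => x t i)) i c =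
      uq K (fun t => M t i c)) :
    ∃ e : ℕ → ℤ, Negl L e ∧ (∀ᶠ t in (UU : Filter ℕ), e t ≠ 0) ∧
      ∀ᶠ t in (UU : Filter ℕ), ∀ v : FinitePlace (K t), v ∉ Over (K t) S →
        v ((M t).det * D t * (e t : K t)) ≤ (⨆ i, v (x t i)) ^ (N + 1) := by
  classical
  have hdet : (jetM (fun j => E j) (fun i => uq K (fun t => x t i))).det =
      uq K (fun t => (M t).det) := by
    rw [← det_uq]
    congr 1
    ext1 i c
    rw [hM]
    rfl
  by_cases h0 : (fun i => uq K (fun t => x t i)) = 0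
  · refine ⟨fun _ => 1, Negl.one hL, Eventually.of_forall fun _ => one_ne_zero, ?_⟩
    have h1 : (jetM (fun j => E j) (fun i => uq K (fun t => x t i))).det = 0 := by
      apply Matrix.det_eq_zero_of_column_eq_zero 0
      intro i
      unfold jetM
      rw [Matrix.of_apply, Fin.cons_zero]
      exact congrFun h0 i
    rw [hdet, uq_eq_zero] at h1
    filter_upwards [h1] with t ht v _
    rw [ht, zero_mul, zero_mul, map_zero]
    exact pow_nonneg (Real.iSup_nonneg fun i => apply_nonneg v _) _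
  · obtain ⟨b1, b2, c, β1, β2, hb1, hb2, hrel, hi1, hi2, h1, h2⟩ :=
      hCDG (UP K) (K0 hL K) m (fun k => io K (gm (T k))) (algInd_io hL _ hind) N E hE f Θ hf1
        hf2 hf3 (fun i => uq K (fun t => x t i)) hx h0
    have hφ : (Polynomial.derivative f).eval Θ *
        (jetM (fun j => E j) (fun i => uq K (fun t => x t i))).det =
        uq K (fun t => D t * (M t).det) := by
      rw [← hD, hdet, uq_mul]
    have hψ : ∀ σ : Fin (N + 1) → Fin (N + 1), ∏ i, uq K (fun t => x t (σ i)) =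
        uq K (fun t => ∏ i, x t (σ i)) := fun σ => uq_prod _ _
    rw [hφ] at h1 h2
    obtain ⟨e, he1, he2, he3⟩ := hARI s b hb hbi S hbS hSb L hL K m T hT hTB hind
      (Fin (N + 1) → Fin (N + 1)) (fun t => D t * (M t).det)
      (fun σ t => ∏ i, x t (σ i)) b1 b2 c β1 β2 hb1 hb2 hrel hi1 hi2
      (h1.trans (Finset.sum_congr rfl fun σ _ => by rw [hψ]))
      (h2.trans (Finset.sum_congr rfl fun σ _ => by rw [hψ]))
    refine ⟨e, he1, he2, ?_⟩
    filter_upwards [he3] with t ht v hv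
    have h3 := ht v hv
    rw [mul_comm (M t).det]
    refine h3.trans (ciSup_le fun σ => ?_)
    exact prod_le_sup v (x t) σ

end out

variable {L : ℕ → ℝ} {s sc g q w ν N l μ r : ℕ}

/-- **The inequality along a sequence of algebraic points, without content term.** -/
theorem seq_alg2 (hLD : S_LD) (hGD : S_GD) (hCDG : S_CDG) (hARI : S_ARI) (hASM : S_ASM2)
    (hPLC : S_PLC) (hNRM : S_NRM) (b : Fin s → ℕ)
    (hb : ∀ v, (b v).Prime) (hbi : Function.Injective b) (S : Finset ℕ) (hbS : ∀ v, b v ∈ S)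
    (hSb : ∀ p ∈ S, ∃ v, b v = p)
    (hL : Tendsto L atTop atTop) (hν : ν = (N + 1) + sc)
    (Gp : Fin g → MvPolynomial (Fin ν) ℤ)
    (e : Fin g → ℕ) (hGh : ∀ a, (Gp a).IsHomogeneous (e a))
    (F : Fin q → Fin w → MvPolynomial (Fin ν) ℤ) (d : Fin q → Fin w → ℕ)
    (hFh : ∀ i j, (F i j).IsHomogeneous (d i j)) (hnc : NCf ℂ sc Gp F)
    (K : ℕ → Type) [∀ t, Field (K t)] [∀ t, NumberField (K t)]
    (hr : ∀ t, Module.finrank ℚ (K t) = r)
    (θ : ∀ t, K t) (zs : ℕ → Fin μ → ℚ)
    (ia : Fin r → Fin μ) (ic : Fin r → Fin ν → Fin μ)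
    (hθ : ∀ t, θ t ^ r = ∑ i : Fin r, (zs t (ia i) : K t) * θ t ^ (i : ℕ))
    (hf : ∀ t, fpr (fun i => (zs t i : K t)) ia (θ t) ≠ 0)
    (U : Fin l → GG) (hUS : ∀ j, GSU b (U j)) (hbd : ∀ j, Bd L (U j))
    (V : Fin l → Fin μ → KK L hL)
    (hZ : ∀ i, gm (fun t => zs t i) = ∑ j, U j * (V j i : GG))
    (x : ∀ t, Fin ν → K t) (hx : ∀ t y, x t y = pt (fun i => (zs t i : K t)) ic (θ t) y)
    (hGx : ∀ t a, aeval (x t) (Gp a) = 0) (J0 : Fin (N + 1) → Fin ν)
    (hgen : ∀ (Φ : MvPolynomial (Fin (N + 1)) ℚ) (e : ℕ), Φ.IsHomogeneous e → Φ ≠ 0 →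
      ∀ᶠ t in (UU : Filter ℕ), aeval (fun i => x t (J0 i)) Φ ≠ 0)
    (ε : ℝ) (hε : 0 < ε) :
    ∀ᶠ t in (UU : Filter ℕ), ∀ AA : Matrix (Fin ν) (Fin (N + 1)) (K t),
      LinearIndependent (K t) AA.col →
      (∀ a c, ∑ y, aeval (x t) (pderiv y (Gp a)) * AA y c = 0) →
      ∑ i, (∑ v : InfinitePlace (K t), v.mult * locH (F i) (d i) (x t) v.1 +
        ∑ᶠ v ∈ Over (K t) S, locH (F i) (d i) (x t) v.1) +
        Height.logHeight (fun J : Fin (N + 1) → Fin ν => (AA.submatrix J id).det) ≤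
        (N + 1 : ℕ) * Height.logHeight (x t) +
          logS S (fpr (fun i => (zs t i : K t)) ia (θ t)) + ε * L t := by
  classical
  have hSp : ∀ p ∈ S, p.Prime := by
    intro p hp
    obtain ⟨v, rfl⟩ := hSb p hp
    exact hb v
  have hr0 : 0 < r := by
    rw [← hr 0]
    exact Module.finrank_pos
  -- germs
  set Z : Fin μ → GG := fun i => gm (fun t => zs t i) with hZdef
  set zK : ∀ t, Fin μ → K t := fun t i => (zs t i : K t) with hzK
  set Θ : UP K := uq K θ with hΘ
  have hioZ : (fun i => io K (Z i)) = fun i => uq K (fun t => zK t i) := by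
    funext i
    rw [hZdef]
    simp only
    rw [io_gm]
  have hX : (fun y => pt (fun i => io K (Z i)) ic Θ y) = fun y => uq K (fun t => x t y) := by
    funext y
    rw [hioZ, hΘ, uq_pt]
    congr 1
    funext t
    exact (hx t y).symm
  have hΘr : Θ ^ r = ∑ i : Fin r, io K (Z (ia i)) * Θ ^ (i : ℕ) := by
    have h1 : ∀ i, io K (Z i) = uq K (fun t => zK t i) := fun i => congrFun hioZ i
    rw [hΘ, uq_pow]
    have h2 : ∀ i : Fin r, io K (Z (ia i)) * uq K θ ^ (i : ℕ) =
        uq K (fun t => zK t (ia i) * θ t ^ (i : ℕ)) := fun i => by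
      rw [h1, uq_pow, uq_mul]
    rw [Finset.sum_congr rfl fun i _ => h2 i, uq_sum]
    congr 1
    funext t
    exact hθ t
  have hfΘ : fpr (fun i => io K (Z i)) ia Θ ≠ 0 := by
    rw [hioZ, hΘ, uq_fpr, uq_ne_zero]
    exact Eventually.of_forall hf
  obtain ⟨σ, hσ⟩ := exists_scaleK (K := K) (fun i t => x t (J0 i)) hgen
  have hU0 : ∀ j, U j ≠ 0 := fun j => gsu_ne_zero hb (hUS j)
  obtain ⟨m, T, hT, hTB, hind, hrel⟩ := exists_mult_basis b hb hbi hL U hUS hbd
  choose κ a hκa using hrel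
  obtain ⟨E, M, hEg, hEZ, hdet⟩ := germ_dirs2 hL hGD (fun k => gm (T k)) hind κ a U hκa hU0 V Z hZ
    ia ic Θ hΘr hfΘ J0 σ (by
      have h1 : (fun i => σ * pt (fun i => io K (Z i)) ic Θ (J0 i)) =
          fun i => σ * uq K (fun t => x t (J0 i)) := by
        funext i
        rw [← congrFun hX (J0 i)]
      rw [h1]
      exact hσ)
  have hTS : ∀ k, GSU b (gm (T k)) := fun k => ⟨T k, rfl, hT k⟩
  have hT0 : ∀ k, gm (T k) ≠ 0 := fun k => gsu_ne_zero hb (hTS k)
  have hgI : AlgebraicIndependent (K0 hL K) (fun k => io K (gm (T k))) := algInd_io hL _ hind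
  have hu' : ∀ j, io K (U j) = algebraMap (K0 hL K) (UP K) (psi hL K (κ j)) *
      ∏ k, io K (gm (T k)) ^ a j k := by
    intro j
    change io K (U j) = ((psi hL K (κ j) : K0 hL K) : UP K) * ∏ k, (io K (gm (T k))) ^ a j k
    rw [hκa j, map_mul, map_prod, psi_coe]
    congr 1
    exact Finset.prod_congr rfl fun k _ => map_zpow₀ _ _ _
  have hzV : ∀ i, io K (Z i) = ∑ j, io K (U j) *
      algebraMap (K0 hL K) (UP K) (psi hL K (V j i)) := by
    intro i
    change io K (Z i) = ∑ j, io K (U j) * io K (V j i : GG)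
    rw [show Z i = ∑ j, U j * (V j i : GG) from hZ i, map_sum]
    exact Finset.sum_congr rfl fun j _ => map_mul _ _ _
  have hzL : ∀ i, io K (Z i) ∈ Lau (K0 hL K) (fun k => io K (gm (T k))) := fun i =>
    z_mem_Lau (g := fun k => io K (gm (T k))) (u := fun j => io K (U j))
      (κ := fun j => psi hL K (κ j)) (a := a) (V := fun j i => psi hL K (V j i))
      (z := fun i => io K (Z i)) (fun i => hgI.ne_zero i) hu' hzV i
  have hEx : ∀ c y, E c (pt (fun i => io K (Z i)) ic Θ y) =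
      xd (fun i => io K (Z i)) (fun i => io K (∑ j, U j * gm (fun t => (M c j i t : ℚ)))) ia ic
        Θ y := fun c y => E_pt (E c) _ _ (hEZ c) ia ic Θ hΘr hfΘ y
  -- sequences
  have hUS' := hUS
  choose uqq hU huqq using hUS'
  set tq : ℕ → Fin N → Fin μ → ℚ := fun t c i => ∑ j, uqq j t * (M c j i t : ℚ) with htq
  set TS : ∀ t, Matrix (Fin ν) (Fin (N + 1)) (K t) := fun t => Matrix.of fun y c =>
    (Fin.cons (x t y) (fun j => xd (zK t) (fun i => ((tq t j i : ℚ) : K t)) ia ic (θ t) y) :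
      Fin (N + 1) → K t) c with hTSdef
  have hTZ : ∀ c, (fun i => io K (∑ j, U j * gm (fun t => (M c j i t : ℚ)))) =
      fun i => uq K (fun t => ((tq t c i : ℚ) : K t)) := by
    intro c
    funext i
    have h1 : ∑ j, U j * gm (fun t => (M c j i t : ℚ)) = gm (fun t => tq t c i) := by
      rw [htq]
      simp only
      rw [← gm_sum']
      refine Finset.sum_congr rfl fun j _ => ?_
      rw [hU, gm_mul]
    rw [h1, io_gm]
  have hX' : ∀ y, pt (fun i => io K (Z i)) ic Θ y = uq K (fun t => x t y) := fun y =>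
    congrFun hX y
  have hTM : ∀ y c, (Fin.cons (uq K (fun t => x t y)) (fun j => E j (uq K (fun t => x t y))) :
      Fin (N + 1) → UP K) c = uq K (fun t => TS t y c) := by
    intro y c
    refine Fin.cases ?_ (fun c => ?_) c
    · rw [Fin.cons_zero]
      rfl
    · rw [Fin.cons_succ, ← hX' y, hEx, hTZ, hioZ, hΘ, uq_xd]
      rfl
  have hdet1 : ∀ᶠ t in (UU : Filter ℕ), ((TS t).submatrix J0 id).det ≠ 0 := by
    have h1 : (jetM (fun j => E j) (fun i => pt (fun i => io K (Z i)) ic Θ (J0 i))).det =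
        uq K (fun t => ((TS t).submatrix J0 id).det) := by
      rw [← det_uq]
      congr 1
      ext1 i c
      have h2 := hTM (J0 i) c
      rw [← hX' (J0 i)] at h2
      exact h2
    rw [h1, uq_ne_zero] at hdet
    exact hdet
  have hder' : ∀ (v0 : Option (Fin s)) (a : ∀ t, AbsoluteValue (K t) ℝ) (ex : ℕ → ℕ) (R : ℕ),
      Res a (wv b hb v0) ex R → ∀ (P : MvPolynomial (Fin ν) ℤ) (d : ℕ), P.IsHomogeneous d →
      ∀ c, (OU L hL a).valuation (∑ y, evi (fun y => uq K (fun t => x t y)) (pderiv y P) *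
        uq K (fun t => TS t y c)) ≤
      (OU L hL a).valuation (evi (fun y => uq K (fun t => x t y)) P) := by
    intro v0 a0 ex R hres P d hP c
    set A := OU L hL a0 with hA
    have h0 : ∀ y, uq K (fun t => TS t y c) = (Fin.cons (uq K (fun t => x t y))
        (fun j => E j (uq K (fun t => x t y))) : Fin (N + 1) → UP K) c := fun y =>
      (hTM y c).symm
    rw [Finset.sum_congr rfl fun y _ => by rw [h0 y]]
    refine Fin.cases ?_ (fun c => ?_) c
    · simp only [Fin.cons_zero]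
      have h1 := form_dir (0 : Derivation ℚ (UP K) (UP K)) (fun y => uq K (fun t => x t y)) 1 P d hP
      simp only [Derivation.coe_zero, Pi.zero_apply, zero_add, one_mul] at h1
      rw [h1, map_mul]
      exact mul_le_of_le_one_left' ((A.valuation_le_one_iff _).2 (natCast_mem A d))
    · simp only [Fin.cons_succ]
      have h1 := form_dir (E c) (fun y => uq K (fun t => x t y)) 0 P d hP
      simp only [zero_mul, add_zero] at h1
      rw [h1]
      have hpl := pl_wv b hb v0
      choose γ hγ using fun k => exists_weight hL hpl (hTB k) (hT0 k)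
      have hA0 : ∀ b : K0 hL K, algebraMap (K0 hL K) (UP K) b ∈ A := by
        rintro ⟨_, y, hy, rfl⟩
        exact (mem_OU_io hL hres y).2 (KK_le hL hpl hy)
      have hA1 : ∀ (p : MvPolynomial (Fin m) (K0 hL K)), ∀ α ∈ p.support,
          A.valuation (∏ i, io K (gm (T i)) ^ α i) ≤
            A.valuation (aeval (fun k => io K (gm (T k))) p) := by
        intro p α hα
        obtain ⟨p, rfl⟩ := map_surjective _ (psi_surj hL K) p
        rw [aeval_psi, io_prod_pow, val_io_le hL hres]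
        exact lb_mono hL b hb hbi (fun k => gm (T k)) hTS hTB hind v0 p α
          (support_map_subset _ _ hα)
      have hA2 : ∀ α β : Fin m →₀ ℕ, A.valuation (∏ i, io K (gm (T i)) ^ α i) ≤
          A.valuation (∏ i, io K (gm (T i)) ^ β i) ↔
          ∑ i, (α i : ℝ) * γ i ≤ ∑ i, (β i : ℝ) * γ i := by
        intro α β
        rw [io_prod_pow, io_prod_pow, val_io_le hL hres]
        exact mono_le_iff hL _ T hT0 γ hγ α β
      refine grad_ld hLD hgI (hEg c) A γ hA0 hA1 hA2 _ ?_
      have h2 := integral_form2 (Lau (K0 hL K) (fun k => io K (gm (T k)))) (fun i => io K (Z i))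
        hzL ia ic Θ hΘr P
      have h3 : pt (fun i => io K (Z i)) ic Θ = fun y => uq K (fun t => x t y) := hX
      rw [h3] at h2
      exact h2
  -- nonzero coordinate
  have hn : 0 < N + 1 := Nat.succ_pos N
  have hx0 : ∀ᶠ t in (UU : Filter ℕ), x t (J0 ⟨0, hn⟩) ≠ 0 := by
    have h1 := hgen (X ⟨0, hn⟩) 1 (isHomogeneous_X _ _) (X_ne_zero _)
    simpa only [aeval_X] using h1
  have hGx' : ∀ t a, evi (x t) (Gp a) = 0 := fun t a => by
    rw [← aeval_evi]
    exact hGx t a
  -- infinite places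
  choose finf hfinf using fun t => exists_inf (F := K t) r (hr t)
  have hgrad : ∀ᶠ t in (UU : Filter ℕ), ∀ a c,
      ∑ y, evi (x t) (pderiv y (Gp a)) * TS t y c = 0 := by
    refine eventually_all.2 fun a => eventually_all.2 fun c => ?_
    have h1 := hder' none _ _ 1 (res_inf b hb (fun t => finf t ⟨0, hr0⟩)) (Gp a) (e a) (hGh a) c
    rw [evi_uq, uq_eq_zero.2 (Eventually.of_forall fun t => hGx' t a), map_zero] at h1
    have h2 := le_antisymm h1 zero_le
    rw [Valuation.zero_iff] at h2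
    have h4 : ∀ y, evi (fun y => uq K (fun t => x t y)) (pderiv y (Gp a)) *
        uq K (fun t => TS t y c) = uq K (fun t => evi (x t) (pderiv y (Gp a)) * TS t y c) := by
      intro y
      rw [evi_uq, uq_mul]
    rw [Finset.sum_congr rfl fun y _ => h4 y, uq_sum, uq_eq_zero] at h2
    exact h2
  set δ : ℝ := ε / 2 / (r * (S.card + 1)) with hδ
  have hrR : (0 : ℝ) < r := by exact_mod_cast hr0
  have hδ0 : 0 < δ := by
    rw [hδ]
    positivity
  have hinf : ∀ᶠ t in (UU : Filter ℕ), ∀ k : Fin r, AtPl F d (x t) (TS t) (finf t k).1 (δ * L t) := by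
    refine eventually_all.2 fun k => ?_
    have hres := res_inf (K := K) b hb (fun t => finf t k)
    exact atpl_ev hL hν hn Gp e hGh F d hFh hnc x TS hGx' J0 hx0 hdet1 hres (pl_wv b hb none)
      (hder' none _ _ 1 hres) δ hδ0
  -- finite places
  have hfinx : ∀ (v : Fin s) (t : ℕ), ∃ f : Fin r → FinitePlace (K t), ∀ u : FinitePlace (K t),
      u ((b v : ℕ) : K t) < 1 ↔ ∃ i, f i = u := by
    intro v t
    have h1 := hPLC.1 (K t) (b v) (hb v)
    rw [hr t] at h1
    exact h1
  choose ffin hffin using hfinx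
  have hex : ∀ (v : Fin s) (k : Fin r) (t : ℕ), ∃ e : ℕ, 1 ≤ e ∧ e ≤ r ∧
      ∀ q : ℚ, ffin v t k (q : K t) = (padicNorm (b v) q : ℝ) ^ e := by
    intro v k t
    have h1 := hPLC.2 (K t) (b v) (hb v) (ffin v t k) ((hffin v t _).2 ⟨k, rfl⟩)
    rw [hr t] at h1
    exact h1
  choose ex hex1 hex2 hex3 using hex
  have hfin : ∀ᶠ t in (UU : Filter ℕ), ∀ (v : Fin s) (k : Fin r),
      AtPl F d (x t) (TS t) (ffin v t k).1 (δ * L t) := by
    refine eventually_all.2 fun v => eventually_all.2 fun k => ?_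
    have hres : Res (fun t => (ffin v t k).1) (wv b hb (some v)) (ex v k) r :=
      { one_le := hex1 v k
        le := hex2 v k
        eq := fun t q => by
          rw [wv_some]
          exact hex3 v k t q }
    exact atpl_ev hL hν hn Gp e hGh F d hFh hnc x TS hGx' J0 hx0 hdet1 hres (pl_wv b hb _)
      (hder' (some v) _ _ r hres) δ hδ0
  -- places outside `S`
  have hfm := fpoly_monic (fun i => io K (Z i)) ia hr0
  have hfe := fpoly_eval (fun i => io K (Z i)) ia Θ hΘr
  have hfc := fpoly_coeff_mem (Lau (K0 hL K) (fun k => io K (gm (T k)))) (fun i => io K (Z i))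
    hzL ia
  have hout : ∀ J : Fin (N + 1) → Fin ν, ∃ e : ℕ → ℤ, Negl L e ∧
      (∀ᶠ t in (UU : Filter ℕ), e t ≠ 0) ∧
      ∀ᶠ t in (UU : Filter ℕ), ∀ v : FinitePlace (K t), v ∉ Over (K t) S →
        v (((TS t).submatrix J id).det * fpr (zK t) ia (θ t) * (e t : K t)) ≤
          (⨆ i, v (x t (J i))) ^ (N + 1) := by
    intro J
    refine out_minor hCDG hARI b hb hbi S hbS hSb hL K T hT hTB hind E hEg
      (fpoly (fun i => io K (Z i)) ia) Θ hfm hfe hfc (fun t i => x t (J i)) (fun i => ?_)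
      (fun t => fpr (zK t) ia (θ t)) ?_ (fun t => (TS t).submatrix J id) (fun i c => ?_)
    · rw [← hX']
      exact pt_mem_closure (g := fun k => io K (gm (T k))) (u := fun j => io K (U j))
        (κ := fun j => psi hL K (κ j)) (a := a) (V := fun j i => psi hL K (V j i))
        (z := fun i => io K (Z i)) hu' hzV ic Θ (J i)
    · rw [fpoly_der, hioZ, hΘ, uq_fpr]
    · exact hTM (J i) c
  choose eJ heN he0 heJ using hout
  set et : ℕ → ℤ := fun t => ∏ J, eJ J t with het
  have hetN : Negl L et := Negl.prod hL _ fun J _ => heN J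
  have hr1 : (0 : ℝ) < (r : ℝ) + 1 := by positivity
  have hetb : ∀ᶠ t in (UU : Filter ℕ), |(et t : ℝ)| ≤ Real.exp (ε / 2 / (r + 1) * L t) :=
    hetN _ (by positivity)
  filter_upwards [hx0, hdet1, hgrad, hinf, hfin, L_nonneg hL, eventually_all.2 he0,
    eventually_all.2 heJ, hetb] with t h1 h2 h3 h4 h5 h6 h7 h8 h9
  intro AA hAA hGA
  have het0 : et t ≠ 0 := Finset.prod_ne_zero_iff.2 fun J _ => h7 J
  have hetK : (et t : K t) ≠ 0 := by exact_mod_cast het0
  have hout : ∀ v : FinitePlace (K t), v ∉ Over (K t) S → ∀ J : Fin (N + 1) → Fin ν,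
      v (((TS t).submatrix J id).det * (fpr (zK t) ia (θ t) * (et t : K t))) ≤
        (⨆ i, v (x t i)) ^ (N + 1) := by
    intro v hv J
    have h10 := h8 J v hv
    have h11 : (⨆ i, v (x t (J i))) ^ (N + 1) ≤ (⨆ i, v (x t i)) ^ (N + 1) := by
      refine pow_le_pow_left₀ (Real.iSup_nonneg fun i => apply_nonneg v _) (ciSup_le fun i => ?_) _
      exact le_ciSup (f := fun i => v (x t i)) (Finite.bddAbove_range _) (J i)
    refine le_trans ?_ (h10.trans h11)
    have h12 : (et t : K t) = (eJ J t : K t) * ((∏ J' ∈ Finset.univ.erase J, eJ J' t : ℤ) : K t) := by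
      rw [het]
      simp only
      rw [← Finset.mul_prod_erase _ _ (Finset.mem_univ J)]
      push_cast
      rfl
    rw [h12, ← mul_assoc, ← mul_assoc, map_mul v _ ((∏ J' ∈ Finset.univ.erase J, eJ J' t : ℤ) : K t)]
    exact mul_le_of_le_one_right (apply_nonneg v _) (int_place_le v _)
  have key := hASM ν (N + 1) sc g q w hν Gp F d hnc (K t) S hSp (x t) (by
      intro h0
      apply h1
      rw [h0]
      rfl) (hGx t) (TS t) (by
      intro a c
      have := h3 a c
      simpa only [aeval_evi] using this) J0 h2 (fpr (zK t) ia (θ t) * (et t : K t))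
    (mul_ne_zero (hf t) hetK) hout (δ * L t)
    (by positivity) (by
      intro v
      obtain ⟨k, rfl⟩ := hfinf t v
      exact h4 k) (by
      rintro v ⟨p, hp, hvp⟩
      obtain ⟨v', rfl⟩ := hSb p hp
      obtain ⟨k, rfl⟩ := (hffin v' t v).1 hvp
      exact h5 v' k) AA hAA hGA
  have h10 := logS_mul_int hNRM S hSp (fpr (zK t) ia (θ t)) (hf t) (et t) het0
  rw [hr t] at key h10
  have h11 : Real.log |(et t : ℝ)| ≤ ε / 2 / (r + 1) * L t := by
    rw [Real.log_le_iff_le_exp]
    · exact h9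
    · exact abs_pos.2 (by exact_mod_cast het0)
  have h12 : (r : ℝ) * Real.log |(et t : ℝ)| ≤ ε / 2 * L t := by
    have h13 : (r : ℝ) * Real.log |(et t : ℝ)| ≤ r * (ε / 2 / (r + 1) * L t) :=
      mul_le_mul_of_nonneg_left h11 hrR.le
    have h14 : (r : ℝ) * (ε / 2 / (r + 1) * L t) ≤ (r + 1) * (ε / 2 / (r + 1) * L t) :=
      mul_le_mul_of_nonneg_right (by linarith) (by positivity)
    have h15 : ((r : ℝ) + 1) * (ε / 2 / (r + 1) * L t) = ε / 2 * L t := by
      field_simp
    linarith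
  have h16 : (r : ℝ) * (S.card + 1) * (δ * L t) = ε / 2 * L t := by
    rw [hδ]
    field_simp
  rw [h16] at key
  linarith

end Pool.Agent.Y724.T4
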