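import Mathlib
import Pool.Agent.Y724.T4.SQ4
import Pool.Agent.Y724.T4.Stm3

/-!
# Graded directions for general algebraic points
-/

set_option autoImplicit false

namespace Pool.Agent.Y724.T4

open MvPolynomial Filter Topology Pool.Agent.TH932.Germs Pool.Agent.TH551.SU Pool.Agent.Y724.Vj
open Pool.Agent.TH551.SU.SUI NumberField

section kill
variable {G : Type} [Field G] [CharZero G] [Algebra ℚ G]

/-- a derivation that vanishes on a subring, as a derivation over the subring -/
noncomputable def derOver (Δ : Derivation ℚ G G) (R : Subring G) (h : ∀ a ∈ R, Δ a = 0) :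
    Derivation R G G :=
  Derivation.mk'
    { toFun := fun x => Δ x
      map_add' := fun x y => map_add Δ x y
      map_smul' := fun r x => by
        rw [RingHom.id_apply]
        change Δ ((r : G) * x) = (r : G) * Δ x
        rw [Derivation.leibniz, h _ r.2, smul_zero, add_zero, smul_eq_mul] }
    (fun x y => Derivation.leibniz Δ x y)

/-- a derivation that vanishes on a subring vanishes on the algebraic elements -/
lemma der_kill (Δ : Derivation ℚ G G) (R : Subring G) (h : ∀ a ∈ R, Δ a = 0) (φ : G)
    (hφ : IsAlgebraic R φ) : Δ φ = 0 := by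
  have key : ∀ (n : ℕ) (p : Polynomial R), p.natDegree = n → p ≠ 0 →
      Polynomial.aeval φ p = 0 → Δ φ = 0 := by
    intro n
    induction n using Nat.strong_induction_on with
    | _ n ih =>
      intro p hn hp h0
      have h1 := (derOver Δ R h).map_aeval p φ
      rw [h0, map_zero] at h1
      have h2 : Polynomial.aeval φ (Polynomial.derivative p) * Δ φ = 0 := h1.symm
      rcases mul_eq_zero.1 h2 with h3 | h3
      · have hp' : Polynomial.derivative p ≠ 0 := by
          intro h4
          have h5 := Polynomial.natDegree_eq_zero_of_derivative_eq_zero h4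
          rw [Polynomial.eq_C_of_natDegree_eq_zero h5, Polynomial.aeval_C] at h0
          apply hp
          rw [Polynomial.eq_C_of_natDegree_eq_zero h5]
          have h6 : p.coeff 0 = 0 := by
            apply Subtype.val_injective
            exact h0
          rw [h6, Polynomial.C_0]
        have hlt : (Polynomial.derivative p).natDegree < n := by
          rw [← hn]
          apply Polynomial.natDegree_derivative_lt
          intro h4
          apply hp'
          rw [Polynomial.eq_C_of_natDegree_eq_zero h4, Polynomial.derivative_C]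
        exact ih _ hlt _ rfl hp' h3
      · exact h3
  obtain ⟨p, hp, h0⟩ := hφ
  exact key _ p rfl hp h0

omit [CharZero G] [Algebra ℚ G] in
/-- the elements of a basis are integral over the structure constants -/
lemma basis_integral {r : ℕ} (R : Subring G) (ω : Fin r → G) (s : Fin r → Fin r → Fin r → G)
    (hs : ∀ i j l, s i j l ∈ R) (hω : ∀ i j, ω i * ω j = ∑ l, s i j l * ω l) (i : Fin r) :
    IsIntegral R (ω i) := by
  by_cases h0 : ω i = 0
  · rw [h0]
    exact isIntegral_zero
  refine isIntegral_of_smul_mem_submodule (M := G) (Submodule.span R (Set.range ω)) ?_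
    (Submodule.fg_span (Set.finite_range ω)) (ω i) ?_
  · intro h1
    apply h0
    have h2 : ω i ∈ Submodule.span R (Set.range ω) := Submodule.subset_span ⟨i, rfl⟩
    rw [h1, Submodule.mem_bot] at h2
    exact h2
  · intro n hn
    induction hn using Submodule.span_induction with
    | mem x hx =>
      obtain ⟨j, rfl⟩ := hx
      rw [smul_eq_mul, hω]
      refine Submodule.sum_mem _ fun l _ => ?_
      have h2 : s i j l * ω l = (⟨s i j l, hs i j l⟩ : R) • ω l := rfl
      rw [h2]
      exact Submodule.smul_mem _ _ (Submodule.subset_span ⟨l, rfl⟩)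
    | zero =>
      rw [smul_zero]
      exact Submodule.zero_mem _
    | add x y _ _ hx hy =>
      rw [smul_add]
      exact Submodule.add_mem _ hx hy
    | smul a x _ hx =>
      have h2 : ω i • a • x = a • (ω i • x) := by
        rw [smul_comm]
      rw [h2]
      exact Submodule.smul_mem _ _ hx

end kill

section dirs3

variable {G k : Type} [Field G] [CharZero G] [Algebra ℚ G] [Field k] [Algebra k G] {m l μ N : ℕ}
  {g : Fin m → G} {u : Fin l → G} {κ : Fin l → k} {a : Fin l → Fin m → ℤ}
  {V : Fin l → Fin μ → k} {z : Fin μ → G}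

/-- **Enough graded directions**, for points on which derivations are determined by their values
at the parameters. -/
theorem grad_dirs3 (hGD : S_GD) (hg : AlgebraicIndependent k g)
    (hu : ∀ j, u j = algebraMap k G (κ j) * ∏ i, g i ^ a j i)
    (hz : ∀ i, z i = ∑ j, u j * algebraMap k G (V j i)) (x : Fin (N + 1) → G)
    (hx : ∀ Δ : Derivation ℚ G G, (∀ i, Δ (z i) = 0) → ∀ y, Δ (x y) = 0) (σ : G)
    (hσ : AlgebraicIndependent ℚ (fun i => σ * x i)) :
    ∃ E : Fin N → Derivation ℚ G G, (∀ j, Graded k g (E j)) ∧
      (jetM (fun j => E j) x).det ≠ 0 := by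
  classical
  have hg0 : ∀ i, g i ≠ 0 := fun i => hg.ne_zero i
  choose E hE using fun k => exists_dual _ hσ k
  set S : Set (Fin (N + 1) → G) := insert x {w | ∃ D : Derivation ℚ G G, Graded k g D ∧
    w = fun i => D (x i)} with hS
  have hx1 : x ∈ Submodule.span G S := Submodule.subset_span (Set.mem_insert _ _)
  have hx2 : ∀ D : Derivation ℚ G G, (fun i => D (x i)) ∈ Submodule.span G S := by
    intro D
    obtain ⟨ι, T, e, EE, h1, h2, h3⟩ := hGD G k m g hg D
      (Finset.univ.image κ ∪ Finset.univ.biUnion fun j => Finset.univ.image (V j))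
    set Δ : Derivation ℚ G G := D - ∑ j ∈ T, e j • EE j with hΔ
    have hΔa : ∀ y : G, Δ y = D y - ∑ j ∈ T, e j * EE j y := by
      intro y
      rw [hΔ, Derivation.sub_apply, der_sum_apply]
    have hκ : ∀ j, Δ (algebraMap k G (κ j)) = 0 := by
      intro j
      rw [hΔa, h2 _ (Finset.mem_union_left _ (Finset.mem_image_of_mem _ (Finset.mem_univ j))),
        sub_self]
    have hV : ∀ j i, Δ (algebraMap k G (V j i)) = 0 := by
      intro j i
      rw [hΔa, h2 _ (Finset.mem_union_right _ (Finset.mem_biUnion.2
        ⟨j, Finset.mem_univ _, Finset.mem_image_of_mem _ (Finset.mem_univ i)⟩)), sub_self]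
    have hgΔ : ∀ i, Δ (g i) = 0 * g i := by
      intro i
      rw [hΔa, h3, sub_self, zero_mul]
    have hzΔ : ∀ i, Δ (z i) = 0 := by
      intro i
      rw [hz, map_sum]
      refine Finset.sum_eq_zero fun j _ => ?_
      rw [Derivation.leibniz, hV, hu, Derivation.leibniz, hκ, E_zmono hg0 Δ (fun _ => 0) hgΔ]
      simp
    have h4 : ∀ y, D (x y) = ∑ j ∈ T, e j * EE j (x y) := by
      intro y
      have h5 := hx Δ hzΔ y
      rw [hΔa] at h5
      exact sub_eq_zero.1 h5
    have h6 : (fun i => D (x i)) = ∑ j ∈ T, e j • (fun i => EE j (x i)) := by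
      funext i
      rw [Finset.sum_apply, h4]
      exact Finset.sum_congr rfl fun j _ => by rw [Pi.smul_apply, smul_eq_mul]
    rw [h6]
    refine Submodule.sum_mem _ fun j _ => Submodule.smul_mem _ _ ?_
    exact Submodule.subset_span (Set.mem_insert_of_mem _ ⟨EE j, h1 j, rfl⟩)
  have htop : Submodule.span G S = ⊤ := by
    rw [eq_top_iff]
    intro w _
    have h1 : ∀ k : Fin (N + 1), (Pi.single k 1 : Fin (N + 1) → G) ∈ Submodule.span G S := by
      intro k
      have h2 : (Pi.single k 1 : Fin (N + 1) → G) =
          σ • (fun i => E k (x i)) + E k σ • x := by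
        funext i
        have h3 := hE k i
        rw [Derivation.leibniz, smul_eq_mul, smul_eq_mul] at h3
        rw [Pi.add_apply, Pi.smul_apply, Pi.smul_apply, smul_eq_mul, smul_eq_mul,
          mul_comm (E k σ), Pi.single_apply]
        exact h3.symm
      rw [h2]
      exact Submodule.add_mem _ (Submodule.smul_mem _ _ (hx2 _)) (Submodule.smul_mem _ _ hx1)
    have h2 : w = ∑ k, w k • (Pi.single k 1 : Fin (N + 1) → G) := by
      funext i
      rw [Finset.sum_apply]
      simp [Pi.single_apply]
    rw [h2]
    exact Submodule.sum_mem _ fun k _ => Submodule.smul_mem _ _ (h1 k)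
  have hv00 : x ≠ 0 := by
    intro h0
    have h1 := congrFun h0 0
    have h2 := hσ.ne_zero 0
    apply h2
    change σ * x 0 = 0
    rw [h1]
    exact mul_zero _
  have hs : LinearIndepOn G id ({x} : Set (Fin (N + 1) → G)) :=
    LinearIndepOn.singleton hv00
  obtain ⟨B, hBS, hvB, hBspan, hB⟩ := exists_linearIndepOn_extension hs
    (Set.singleton_subset_iff.2 (Set.mem_insert x _))
  rw [Set.image_id, Set.image_id] at hBspan
  have hBtop : Submodule.span G B = ⊤ := by
    rw [eq_top_iff, ← htop]
    exact Submodule.span_le.2 hBspan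
  have hBli : LinearIndependent G (fun x : B => (x : Fin (N + 1) → G)) := hB
  have hBfin : B.Finite := by
    have := hBli.finite
    exact Set.toFinite B
  have : Fintype B := hBfin.fintype
  have hcard : Fintype.card B = N + 1 := by
    have h1 := finrank_span_set_eq_card hBli
    rw [hBtop, finrank_top, Module.finrank_fin_fun] at h1
    rw [← Set.toFinset_card, ← h1]
  have hvB' : x ∈ B := hvB rfl
  have hcard' : Fintype.card {b : B // b ≠ ⟨x, hvB'⟩} = N := by
    rw [Fintype.card_subtype_compl (fun b : B => b = ⟨x, hvB'⟩), hcard,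
      Fintype.card_subtype_eq]
    rfl
  let eq := (Fintype.equivFinOfCardEq hcard').symm
  have hmem : ∀ c : Fin N, ∃ D : Derivation ℚ G G, Graded k g D ∧
      ((eq c : B) : Fin (N + 1) → G) = fun i => D (x i) := by
    intro c
    rcases hBS (eq c : B).2 with h1 | h1
    · exact absurd (Subtype.ext h1) (eq c).2
    · exact h1
  choose EE hEE1 hEE2 using hmem
  refine ⟨EE, hEE1, ?_⟩
  let ff : Fin (N + 1) → B := Fin.cons ⟨x, hvB'⟩ (fun c => (eq c : B))
  have hff : Function.Injective ff := by
    rw [Fin.cons_injective_iff]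
    constructor
    · rintro ⟨c, hc⟩
      exact (eq c).2 hc
    · exact Subtype.val_injective.comp eq.injective
  have hli : LinearIndependent G (fun c : Fin (N + 1) => ((ff c : B) : Fin (N + 1) → G)) :=
    hBli.comp ff hff
  have h1 : jetM (fun j => EE j) x =
      (Matrix.of fun c : Fin (N + 1) => ((ff c : B) : Fin (N + 1) → G)).transpose := by
    ext i c
    rw [Matrix.transpose_apply, Matrix.of_apply]
    unfold jetM
    rw [Matrix.of_apply]
    refine Fin.cases ?_ (fun c => ?_) c
    · rw [Fin.cons_zero]
      simp only [ff, Fin.cons_zero]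
    · rw [Fin.cons_succ]
      simp only [ff, Fin.cons_succ]
      rw [hEE2]
  rw [h1, Matrix.det_transpose]
  have h2 : LinearIndependent G
      (Matrix.of fun c : Fin (N + 1) => ((ff c : B) : Fin (N + 1) → G)).row := hli
  exact ((Matrix.linearIndependent_rows_iff_isUnit.1 h2).map Matrix.detMonoidHom).ne_zero

end dirs3

section gr
variable {G k : Type} [Field G] [Field k] [Algebra k G] {m l μ : ℕ}
  {g : Fin m → G} {u : Fin l → G} {κ : Fin l → k} {a : Fin l → Fin m → ℤ}
  {V : Fin l → Fin μ → k} {z : Fin μ → G}

lemma z_mem_closure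
    (hu : ∀ j, u j = algebraMap k G (κ j) * ∏ i, g i ^ a j i)
    (hz : ∀ i, z i = ∑ j, u j * algebraMap k G (V j i)) (i : Fin μ) :
    z i ∈ Subfield.closure (Set.range (algebraMap k G) ∪ Set.range g) := by
  have hk : ∀ c : k, algebraMap k G c ∈
      Subfield.closure (Set.range (algebraMap k G) ∪ Set.range g) := fun c =>
    Subfield.subset_closure (Or.inl ⟨c, rfl⟩)
  have hg : ∀ i, g i ∈
      Subfield.closure (Set.range (algebraMap k G) ∪ Set.range g) := fun i =>
    Subfield.subset_closure (Or.inr ⟨i, rfl⟩)
  rw [hz]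
  refine sum_mem fun j _ => mul_mem ?_ (hk _)
  rw [hu]
  exact mul_mem (hk _) (prod_mem fun q _ => zpow_mem (hg q) _)

/-- the values of forms at the point are integral over a ring that contains the parameters -/
lemma integral_form3 {r ν : ℕ} (R : Subring G) (ω : Fin r → G) (c : Fin r → Fin ν → G)
    (hω : ∀ i, IsIntegral R (ω i)) (hc : ∀ i y, c i y ∈ R) (x : Fin ν → G)
    (hx : ∀ y, x y = ∑ i, c i y * ω i) (P : MvPolynomial (Fin ν) ℤ) :
    IsIntegral R (evi x P) := by
  classical
  have hx' : ∀ y, IsIntegral R (x y) := fun y => by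
    rw [hx]
    exact IsIntegral.sum _ fun i _ =>
      (isIntegral_algebraMap (R := R) (A := G) (x := ⟨c i y, hc i y⟩)).mul (hω i)
  have h1 : evi x P ∈ (integralClosure R G).toSubring := by
    unfold evi
    rw [eval₂_eq']
    refine Subring.sum_mem _ fun α _ => Subring.mul_mem _ ?_ (Subring.prod_mem _ fun y _ =>
      Subring.pow_mem _ (hx' y) _)
    rw [eq_intCast]
    exact intCast_mem _ _
  exact h1

end gr

end Pool.Agent.Y724.T4
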