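import Mathlib
import Pool.Agent.Y724.T4.SQ5
import Pool.Agent.Y724.T4.ASM

/-!
# The inequality along a sequence of points over number fields with sparse orders
-/

set_option autoImplicit false

namespace Pool.Agent.Y724.T4

open MvPolynomial Filter Topology Pool.Agent.TH932.Germs Pool.Agent.TH551.SU Pool.Agent.Y724.Vj
open Pool.Agent.TH551.SU.SUI NumberField

section nf
variable {F : Type} [Field F] [NumberField F] {r : ℕ}

lemma mul_rel (ω : Module.Basis (Fin r) ℚ F) (i j : Fin r) :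
    ω i * ω j = ∑ l, ((ω.repr (ω i * ω j) l : ℚ) : F) * ω l := by
  conv_lhs => rw [← ω.sum_repr (ω i * ω j)]
  exact Finset.sum_congr rfl fun l _ => by rw [Rat.smul_def]

lemma repr_rel (ω : Module.Basis (Fin r) ℚ F) (x : F) :
    x = ∑ l, ((ω.repr x l : ℚ) : F) * ω l := by
  conv_lhs => rw [← ω.sum_repr x]
  exact Finset.sum_congr rfl fun l _ => by rw [Rat.smul_def]

lemma trace_rel1 (ω : Module.Basis (Fin r) ℚ F) (h : Fin r) :
    Algebra.trace ℚ F (ω h) = ∑ l, ω.repr (ω h * ω l) l := by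
  rw [Algebra.trace_eq_matrix_trace ω, Matrix.trace]
  refine Finset.sum_congr rfl fun l _ => ?_
  rw [Matrix.diag_apply, Algebra.leftMulMatrix_eq_repr_mul]

lemma trace_rel2 (ω : Module.Basis (Fin r) ℚ F) (i j : Fin r) :
    Algebra.trace ℚ F (ω i * ω j) = trM (fun i j l => ω.repr (ω i * ω j) l) i j := by
  conv_lhs => rw [← ω.sum_repr (ω i * ω j)]
  rw [map_sum]
  unfold trM
  refine Finset.sum_congr rfl fun h _ => ?_
  rw [map_smul, trace_rel1, smul_eq_mul]

lemma dual_rel (ω : Module.Basis (Fin r) ℚ F) (i : Fin r) :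
    ω i = ∑ j, ((trM (fun i j l => ω.repr (ω i * ω j) l) i j : ℚ) : F) * ω.traceDual j := by
  conv_lhs => rw [← ω.traceDual.sum_repr (ω i)]
  refine Finset.sum_congr rfl fun j _ => ?_
  rw [Module.Basis.traceDual_repr_apply, Algebra.traceForm_apply, trace_rel2, Rat.smul_def]

end nf

section germ3
variable {L : ℕ → ℝ} {s ν N m r μ : ℕ}

/-- linear independence over a subfield -/
lemma li_sub {G : Type} [Field G] {r : ℕ} (F0 : Subfield G) (W : Fin r → G)
    (h : ∀ c : Fin r → G, (∀ i, c i ∈ F0) → ∑ i, c i * W i = 0 → ∀ i, c i = 0) :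
    LinearIndependent F0 W := by
  rw [Fintype.linearIndependent_iff]
  intro c hc i
  have h1 := h (fun i => (c i : G)) (fun i => (c i).2) hc i
  exact Subtype.val_injective h1

/-- the germs of bases are linearly independent over the small field -/
lemma li_uq (hL : Tendsto L atTop atTop) (K : ℕ → Type) [∀ t, Field (K t)]
    [∀ t, NumberField (K t)] (ω : ∀ t, Module.Basis (Fin r) ℚ (K t)) (T : Fin m → ℕ → ℚ) :
    LinearIndependent (Subfield.closure (Set.range (algebraMap (K0 hL K) (UP K)) ∪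
      Set.range (fun k => io K (gm (T k))))) (fun i => uq K (fun t => ω t i)) := by
  classical
  have hle : Subfield.closure (Set.range (algebraMap (K0 hL K) (UP K)) ∪
      Set.range (fun k => io K (gm (T k)))) ≤ (io K).fieldRange := by
    rw [Subfield.closure_le]
    rintro y (⟨⟨_, a, _, rfl⟩, rfl⟩ | ⟨i, rfl⟩)
    · exact ⟨a, rfl⟩
    · exact ⟨_, rfl⟩
  refine li_sub _ _ fun c hcm hc i => ?_
  have hq : ∀ i, ∃ q : ℕ → ℚ, c i = uq K (fun t => ((q t : ℚ) : K t)) := by
    intro i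
    obtain ⟨a, ha⟩ := hle (hcm i)
    obtain ⟨q, rfl⟩ := gm_surj a
    refine ⟨q, ?_⟩
    rw [← io_gm]
    exact ha.symm
  choose q hq using hq
  have h1 : ∀ i, c i * uq K (fun t => ω t i) = uq K (fun t => ((q i t : ℚ) : K t) * ω t i) := by
    intro i
    rw [hq, uq_mul]
  rw [Finset.sum_congr rfl fun i _ => h1 i, uq_sum, uq_eq_zero] at hc
  have h2 : ∀ᶠ t in (UU : Filter ℕ), ((q i t : ℚ) : K t) = 0 := by
    filter_upwards [hc] with t ht
    have h3 : ∑ i, q i t • ω t i = 0 := by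
      rw [← ht]
      exact Finset.sum_congr rfl fun i _ => Rat.smul_def _ _
    have h4 := Fintype.linearIndependent_iff.1 (ω t).linearIndependent (fun i => q i t) h3 i
    rw [h4, Rat.cast_zero]
  rw [hq]
  exact uq_eq_zero.2 h2

/-- the inequality outside `S` for one minor -/
lemma out_minor3 (hCDG : S_CDG2) (hARI : S_ARI) (b : Fin s → ℕ)
    (hb : ∀ v, (b v).Prime) (hbi : Function.Injective b) (S : Finset ℕ) (hbS : ∀ v, b v ∈ S)
    (hSb : ∀ p ∈ S, ∃ v, b v = p)
    (hL : Tendsto L atTop atTop) (K : ℕ → Type) [∀ t, Field (K t)] [∀ t, NumberField (K t)]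
    (T : Fin m → ℕ → ℚ) (hT : ∀ k n, IsSU b (T k n)) (hTB : ∀ k, Bd L (gm (T k)))
    (hind : ∀ p : MvPolynomial (Fin m) (KK L hL), aeval (fun k => gm (T k)) p = 0 → p = 0)
    (E : Fin N → Derivation ℚ (UP K) (UP K))
    (hE : ∀ j, Graded (K0 hL K) (fun k => io K (gm (T k))) (E j))
    (hr : 0 < r) (W W' : Fin r → ∀ t, K t) (sc : Fin r → Fin r → Fin r → UP K)
    (hW : ∀ i j, uq K (W i) * uq K (W j) = ∑ l, sc i j l * uq K (W l))
    (hsL : ∀ i j l, sc i j l ∈ Lau (K0 hL K) (fun k => io K (gm (T k))))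
    (hli : LinearIndependent (Subfield.closure (Set.range (algebraMap (K0 hL K) (UP K)) ∪
      Set.range (fun k => io K (gm (T k))))) (fun i => uq K (W i)))
    (hW' : ∀ i, uq K (W i) = ∑ j, trM sc i j * uq K (W' j))
    (x : ∀ t, Fin (N + 1) → K t)
    (hx : ∀ i, ∃ c : Fin r → UP K, (∀ j, c j ∈ Subfield.closure
      (Set.range (algebraMap (K0 hL K) (UP K)) ∪ Set.range (fun k => io K (gm (T k))))) ∧
      uq K (fun t => x t i) = ∑ j, c j * uq K (W j))
    (M : ∀ t, Matrix (Fin (N + 1)) (Fin (N + 1)) (K t))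
    (hM : ∀ i c, jetM (fun j => E j) (fun i => uq K (fun t => x t i)) i c =
      uq K (fun t => M t i c)) :
    ∃ e : ℕ → ℤ, Negl L e ∧ (∀ᶠ t in (UU : Filter ℕ), e t ≠ 0) ∧
      ∀ᶠ t in (UU : Filter ℕ), ∀ v : FinitePlace (K t), v ∉ Over (K t) S →
        v ((M t).det * (e t : K t)) ≤ (⨆ i, v (W' i t)) * (⨆ i, v (x t i)) ^ (N + 1) := by
  classical
  have hdet : (jetM (fun j => E j) (fun i => uq K (fun t => x t i))).det =
      uq K (fun t => (M t).det) := by
    rw [← det_uq]
    congr 1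
    ext1 i c
    rw [hM]
    rfl
  by_cases h0 : (fun i => uq K (fun t => x t i)) = 0
  · refine ⟨fun _ => 1, Negl.one hL, Eventually.of_forall fun _ => one_ne_zero, ?_⟩
    have h1 : (jetM (fun j => E j) (fun i => uq K (fun t => x t i))).det = 0 := by
      apply Matrix.det_eq_zero_of_column_eq_zero 0
      intro i
      unfold jetM
      rw [Matrix.of_apply, Fin.cons_zero]
      exact congrFun h0 i
    rw [hdet, uq_eq_zero] at h1
    filter_upwards [h1] with t ht v _
    rw [ht, zero_mul, map_zero]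
    exact mul_nonneg (Real.iSup_nonneg fun i => apply_nonneg v _)
      (pow_nonneg (Real.iSup_nonneg fun i => apply_nonneg v _) _)
  · obtain ⟨b1, b2, c, β1, β2, hb1, hb2, hrel, hi1, hi2, h1, h2⟩ :=
      hCDG (UP K) (K0 hL K) m (fun k => io K (gm (T k))) (algInd_io hL _ hind) N E hE r
        (fun i => uq K (W i)) (fun i => uq K (W' i)) sc hW hsL hli hW'
        (fun i => uq K (fun t => x t i)) hx h0
    have hψ : ∀ p : Fin r × (Fin (N + 1) → Fin (N + 1)),
        uq K (W' p.1) * ∏ i, uq K (fun t => x t (p.2 i)) =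
        uq K (fun t => W' p.1 t * ∏ i, x t (p.2 i)) := fun p => by
      rw [uq_prod, uq_mul]
    rw [hdet] at h1 h2
    have hne : Nonempty (Fin r × (Fin (N + 1) → Fin (N + 1))) := ⟨(⟨0, hr⟩, fun _ => 0)⟩
    obtain ⟨e, he1, he2, he3⟩ := hARI s b hb hbi S hbS hSb L hL K m T hT hTB hind
      (Fin r × (Fin (N + 1) → Fin (N + 1))) (fun t => (M t).det)
      (fun p t => W' p.1 t * ∏ i, x t (p.2 i)) b1 b2 c β1 β2 hb1 hb2 hrel hi1 hi2
      (h1.trans (Finset.sum_congr rfl fun p _ => by rw [hψ]))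
      (h2.trans (Finset.sum_congr rfl fun p _ => by rw [hψ]))
    refine ⟨e, he1, he2, ?_⟩
    filter_upwards [he3] with t ht v hv
    refine (ht v hv).trans (ciSup_le fun p => ?_)
    rw [map_mul]
    refine mul_le_mul ?_ (prod_le_sup v (x t) p.2) (apply_nonneg v _)
      (Real.iSup_nonneg fun i => apply_nonneg v _)
    exact le_ciSup (f := fun i => v (W' i t)) (Finite.bddAbove_range _) p.1

end germ3

section fs
variable {F : Type} [Field F] [NumberField F]

/-- the factor outside `S` -/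
lemma finsum_W (hNRM : S_NRM) (S : Finset ℕ) (hS : ∀ p ∈ S, p.Prime) {r : ℕ} (hr : 0 < r)
    (hrF : Module.finrank ℚ F = r) (W' : Fin r → F) (hW' : W' ≠ 0) (e : ℤ) (he : e ≠ 0) :
    {v : FinitePlace F | (⨆ i, v (W' i)) / v (e : F) ≠ 1}.Finite ∧
    ∑ᶠ v ∈ (Over F S)ᶜ, Real.log ((⨆ i, v (W' i)) / v (e : F)) ≤
      ∑ᶠ v ∈ (Over F S)ᶜ, Real.log (⨆ i, v (W' i)) + r * Real.log |(e : ℝ)| := by
  classical
  have heF : (e : F) ≠ 0 := by exact_mod_cast he
  have h1 := sup_fin hW'
  have h2 := fin_ne_one heF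
  have hpos1 : ∀ v : FinitePlace F, 0 < ⨆ i, v (W' i) := fun v => sup_pos hW' v.1
  have hpos2 : ∀ v : FinitePlace F, 0 < v (e : F) := fun v => v.1.pos heF
  have hfin : {v : FinitePlace F | (⨆ i, v (W' i)) / v (e : F) ≠ 1}.Finite := by
    refine (h1.union h2).subset ?_
    intro v hv
    by_contra hcon
    rw [Set.mem_union, not_or] at hcon
    obtain ⟨h3, h4⟩ := hcon
    apply hv
    have h5 : (⨆ i, v (W' i)) = 1 := by
      by_contra h
      exact h3 h
    have h6 : v (e : F) = 1 := by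
      by_contra h
      exact h4 h
    rw [h5, h6, div_one]
  refine ⟨hfin, ?_⟩
  -- finsums over the complement
  have hsupp1 : (Function.support fun v : FinitePlace F => Real.log (⨆ i, v (W' i))).Finite := by
    refine h1.subset fun v hv h3 => hv ?_
    change Real.log (⨆ i, v (W' i)) = 0
    rw [h3, Real.log_one]
  have hsupp2 : (Function.support fun v : FinitePlace F => Real.log (v (e : F))).Finite := by
    refine h2.subset fun v hv h3 => hv ?_
    change Real.log (v (e : F)) = 0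
    rw [h3, Real.log_one]
  have hsupp3 : (Function.support fun v : FinitePlace F =>
      Real.log ((⨆ i, v (W' i)) / v (e : F))).Finite := by
    refine hfin.subset fun v hv h3 => hv ?_
    change Real.log ((⨆ i, v (W' i)) / v (e : F)) = 0
    rw [h3, Real.log_one]
  have h3 : ∑ᶠ v ∈ (Over F S)ᶜ, Real.log (⨆ i, v (W' i)) =
      ∑ᶠ v ∈ (Over F S)ᶜ, Real.log ((⨆ i, v (W' i)) / v (e : F)) +
        ∑ᶠ v ∈ (Over F S)ᶜ, Real.log (v (e : F)) := by
    rw [← finsum_mem_add_distrib' (hsupp3.subset Set.inter_subset_right)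
      (hsupp2.subset Set.inter_subset_right)]
    refine finsum_mem_congr rfl fun v _ => ?_
    rw [Real.log_div (hpos1 v).ne' (hpos2 v).ne', sub_add_cancel]
  have h4 : ∑ᶠ v : FinitePlace F, Real.log (v (e : F)) =
      ∑ᶠ v ∈ Over F S, Real.log (v (e : F)) + ∑ᶠ v ∈ (Over F S)ᶜ, Real.log (v (e : F)) := by
    rw [← finsum_mem_univ, ← Set.union_compl_self (Over F S)]
    exact finsum_mem_union' disjoint_compl_right (hsupp2.subset Set.inter_subset_right)
      (hsupp2.subset Set.inter_subset_right)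
  have h5 := prod_formula heF
  have h6 := logS_mul_int hNRM S hS (1 : F) one_ne_zero e he
  rw [one_mul, hrF] at h6
  have h7 : logS S (1 : F) = 0 := by
    rw [hNRM F S hS 1 one_ne_zero, map_one]
    simp
  have h8 : logS S (e : F) = ∑ v : InfinitePlace F, v.mult * Real.log (v (e : F)) +
    ∑ᶠ v ∈ Over F S, Real.log (v (e : F)) := rfl
  rw [h7, zero_add] at h6
  linarith

end fs

end Pool.Agent.Y724.T4
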