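import Mathlib
import Pool.Agent.Y724.T4.SQ6

/-!
# The inequality along a sequence of points over number fields with sparse orders
-/

set_option autoImplicit false

namespace Pool.Agent.Y724.T4

open MvPolynomial Filter Topology Pool.Agent.TH932.Germs Pool.Agent.TH551.SU Pool.Agent.Y724.Vj
open Pool.Agent.TH551.SU.SUI NumberField

section kill3
variable {G : Type} [Field G] [CharZero G] [Algebra ℚ G]

/-- the constants of a derivation -/
def kerR (Δ : Derivation ℚ G G) : Subring G where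
  carrier := {a | Δ a = 0}
  mul_mem' := by
    intro a b ha hb
    change Δ (a * b) = 0
    have ha' : Δ a = 0 := ha
    have hb' : Δ b = 0 := hb
    rw [Derivation.leibniz, ha', hb', smul_zero, smul_zero, add_zero]
  one_mem' := Derivation.map_one_eq_zero Δ
  add_mem' := by
    intro a b ha hb
    change Δ (a + b) = 0
    have ha' : Δ a = 0 := ha
    have hb' : Δ b = 0 := hb
    rw [map_add, ha', hb', add_zero]
  zero_mem' := map_zero Δ
  neg_mem' := by
    intro a ha
    change Δ (-a) = 0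
    have ha' : Δ a = 0 := ha
    rw [map_neg, ha', neg_zero]

lemma kill3 {r ν μ : ℕ} (z : Fin μ → G) (W : Fin r → G) (is : Fin r → Fin r → Fin r → Fin μ)
    (ic : Fin r → Fin ν → Fin μ) (hW : ∀ i j, W i * W j = ∑ l, z (is i j l) * W l)
    (x : Fin ν → G) (hx : ∀ y, x y = ∑ i, z (ic i y) * W i) (Δ : Derivation ℚ G G)
    (h : ∀ i, Δ (z i) = 0) (y : Fin ν) : Δ (x y) = 0 := by
  have h1 : ∀ i, Δ (W i) = 0 := fun i =>
    der_kill Δ (kerR Δ) (fun a ha => ha) (W i)
      (basis_integral (kerR Δ) W (fun i j l => z (is i j l)) (fun i j l => h _) hW i).isAlgebraic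
  rw [hx, map_sum]
  refine Finset.sum_eq_zero fun i _ => ?_
  rw [Derivation.leibniz, h, h1, smul_zero, smul_zero, add_zero]

end kill3

variable {L : ℕ → ℝ} {s sc g q w ν N l μ r : ℕ}

/-- **The inequality along a sequence of points over number fields with sparse orders.** -/
theorem seq_alg3 (hLD : S_LD) (hGD : S_GD) (hCDG : S_CDG2) (hARI : S_ARI) (hASM : S_ASM3)
    (hPLC : S_PLC) (hNRM : S_NRM) (b : Fin s → ℕ)
    (hb : ∀ v, (b v).Prime) (hbi : Function.Injective b) (S : Finset ℕ) (hbS : ∀ v, b v ∈ S)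
    (hSb : ∀ p ∈ S, ∃ v, b v = p)
    (hL : Tendsto L atTop atTop) (hν : ν = (N + 1) + sc)
    (Gp : Fin g → MvPolynomial (Fin ν) ℤ)
    (e : Fin g → ℕ) (hGh : ∀ a, (Gp a).IsHomogeneous (e a))
    (F : Fin q → Fin w → MvPolynomial (Fin ν) ℤ) (d : Fin q → Fin w → ℕ)
    (hFh : ∀ i j, (F i j).IsHomogeneous (d i j)) (hnc : NCf ℂ sc Gp F)
    (K : ℕ → Type) [∀ t, Field (K t)] [∀ t, NumberField (K t)]
    (ω : ∀ t, Module.Basis (Fin r) ℚ (K t)) (zs : ℕ → Fin μ → ℚ)
    (is : Fin r → Fin r → Fin r → Fin μ) (ic : Fin r → Fin ν → Fin μ)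
    (x : ∀ t, Fin ν → K t)
    (hs : ∀ t i j l, (ω t).repr (ω t i * ω t j) l = zs t (is i j l))
    (hc : ∀ t i y, (ω t).repr (x t y) i = zs t (ic i y))
    (U : Fin l → GG) (hUS : ∀ j, GSU b (U j)) (hbd : ∀ j, Bd L (U j))
    (V : Fin l → Fin μ → KK L hL)
    (hZ : ∀ i, gm (fun t => zs t i) = ∑ j, U j * (V j i : GG))
    (hGx : ∀ t a, aeval (x t) (Gp a) = 0) (J0 : Fin (N + 1) → Fin ν)
    (hgen : ∀ (Φ : MvPolynomial (Fin (N + 1)) ℚ) (e : ℕ), Φ.IsHomogeneous e → Φ ≠ 0 →
      ∀ᶠ t in (UU : Filter ℕ), aeval (fun i => x t (J0 i)) Φ ≠ 0)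
    (ε : ℝ) (hε : 0 < ε) :
    ∀ᶠ t in (UU : Filter ℕ), ∀ AA : Matrix (Fin ν) (Fin (N + 1)) (K t),
      LinearIndependent (K t) AA.col →
      (∀ a c, ∑ y, aeval (x t) (pderiv y (Gp a)) * AA y c = 0) →
      ∑ i, (∑ v : InfinitePlace (K t), v.mult * locH (F i) (d i) (x t) v.1 +
        ∑ᶠ v ∈ Over (K t) S, locH (F i) (d i) (x t) v.1) +
        Height.logHeight (fun J : Fin (N + 1) → Fin ν => (AA.submatrix J id).det) ≤
        (N + 1 : ℕ) * Height.logHeight (x t) +
          ∑ᶠ v ∈ (Over (K t) S)ᶜ, Real.log (⨆ i, v ((ω t).traceDual i)) + ε * L t := by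
  classical
  have hSp : ∀ p ∈ S, p.Prime := by
    intro p hp
    obtain ⟨v, rfl⟩ := hSb p hp
    exact hb v
  have hr : ∀ t, Module.finrank ℚ (K t) = r := fun t => by
    rw [Module.finrank_eq_card_basis (ω t), Fintype.card_fin]
  have hr0 : 0 < r := by
    rw [← hr 0]
    exact Module.finrank_pos
  -- germs
  set Z : Fin μ → GG := fun i => gm (fun t => zs t i) with hZdef
  set W : Fin r → ∀ t, K t := fun i t => ω t i with hWdef
  set W' : Fin r → ∀ t, K t := fun i t => (ω t).traceDual i with hW'def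
  have hioZ : ∀ i, io K (Z i) = uq K (fun t => (zs t i : K t)) := by
    intro i
    rw [hZdef]
    simp only
    rw [io_gm]
  have hX : ∀ y, uq K (fun t => x t y) = ∑ i, io K (Z (ic i y)) * uq K (W i) := by
    intro y
    have h1 : ∀ i, io K (Z (ic i y)) * uq K (W i) =
        uq K (fun t => (zs t (ic i y) : K t) * ω t i) := fun i => by
      rw [hioZ, uq_mul]
    rw [Finset.sum_congr rfl fun i _ => h1 i, uq_sum]
    congr 1
    funext t
    exact (repr_rel (ω t) (x t y)).trans (Finset.sum_congr rfl fun i _ => by rw [hc])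
  have hWm : ∀ i j, uq K (W i) * uq K (W j) = ∑ l, io K (Z (is i j l)) * uq K (W l) := by
    intro i j
    have h1 : ∀ l, io K (Z (is i j l)) * uq K (W l) =
        uq K (fun t => (zs t (is i j l) : K t) * ω t l) := fun l => by
      rw [hioZ, uq_mul]
    rw [Finset.sum_congr rfl fun l _ => h1 l, uq_sum, uq_mul]
    congr 1
    funext t
    exact (mul_rel (ω t) i j).trans (Finset.sum_congr rfl fun l _ => by rw [hs])
  have hWd : ∀ i, uq K (W i) = ∑ j, trM (fun i j l => io K (Z (is i j l))) i j * uq K (W' j) := by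
    intro i
    have h1 : ∀ j, trM (fun i j l => io K (Z (is i j l))) i j =
        uq K (fun t => trM (fun i j l => (zs t (is i j l) : K t)) i j) := by
      intro j
      unfold trM
      have h2 : ∀ h, io K (Z (is i j h)) * ∑ l, io K (Z (is h l l)) =
          uq K (fun t => (zs t (is i j h) : K t) * ∑ l, (zs t (is h l l) : K t)) := by
        intro h
        rw [Finset.sum_congr rfl fun l _ => hioZ (is h l l), uq_sum, hioZ, uq_mul]
      rw [Finset.sum_congr rfl fun h _ => h2 h, uq_sum]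
    have h3 : ∀ j, trM (fun i j l => io K (Z (is i j l))) i j * uq K (W' j) =
        uq K (fun t => trM (fun i j l => (zs t (is i j l) : K t)) i j * (ω t).traceDual j) := by
      intro j
      rw [h1, uq_mul]
    rw [Finset.sum_congr rfl fun j _ => h3 j, uq_sum]
    congr 1
    funext t
    refine (dual_rel (ω t) i).trans (Finset.sum_congr rfl fun j _ => ?_)
    congr 1
    unfold trM
    simp only [hs]
    push_cast
    rfl
  obtain ⟨σ, hσ⟩ := exists_scaleK (K := K) (fun i t => x t (J0 i)) hgen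
  have hU0 : ∀ j, U j ≠ 0 := fun j => gsu_ne_zero hb (hUS j)
  obtain ⟨m, T, hT, hTB, hind, hrel⟩ := exists_mult_basis b hb hbi hL U hUS hbd
  choose κ a hκa using hrel
  have hTS : ∀ k, GSU b (gm (T k)) := fun k => ⟨T k, rfl, hT k⟩
  have hT0 : ∀ k, gm (T k) ≠ 0 := fun k => gsu_ne_zero hb (hTS k)
  have hgI : AlgebraicIndependent (K0 hL K) (fun k => io K (gm (T k))) := algInd_io hL _ hind
  have hu' : ∀ j, io K (U j) = algebraMap (K0 hL K) (UP K) (psi hL K (κ j)) *
      ∏ k, io K (gm (T k)) ^ a j k := by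
    intro j
    change io K (U j) = ((psi hL K (κ j) : K0 hL K) : UP K) * ∏ k, (io K (gm (T k))) ^ a j k
    rw [hκa j, map_mul, map_prod, psi_coe]
    congr 1
    exact Finset.prod_congr rfl fun k _ => map_zpow₀ _ _ _
  have hzV : ∀ i, io K (Z i) = ∑ j, io K (U j) *
      algebraMap (K0 hL K) (UP K) (psi hL K (V j i)) := by
    intro i
    change io K (Z i) = ∑ j, io K (U j) * io K (V j i : GG)
    rw [show Z i = ∑ j, U j * (V j i : GG) from hZ i, map_sum]
    exact Finset.sum_congr rfl fun j _ => map_mul _ _ _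
  have hzL : ∀ i, io K (Z i) ∈ Lau (K0 hL K) (fun k => io K (gm (T k))) := fun i =>
    z_mem_Lau (g := fun k => io K (gm (T k))) (u := fun j => io K (U j))
      (κ := fun j => psi hL K (κ j)) (a := a) (V := fun j i => psi hL K (V j i))
      (z := fun i => io K (Z i)) (fun i => hgI.ne_zero i) hu' hzV i
  have hzC : ∀ i, io K (Z i) ∈ Subfield.closure
      (Set.range (algebraMap (K0 hL K) (UP K)) ∪ Set.range (fun k => io K (gm (T k)))) := fun i =>
    z_mem_closure (g := fun k => io K (gm (T k))) (u := fun j => io K (U j))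
      (κ := fun j => psi hL K (κ j)) (a := a) (V := fun j i => psi hL K (V j i))
      (z := fun i => io K (Z i)) hu' hzV i
  -- directions
  obtain ⟨E, hEg, hdet⟩ := grad_dirs3 (g := fun k => io K (gm (T k))) (u := fun j => io K (U j))
    (κ := fun j => psi hL K (κ j)) (a := a) (V := fun j i => psi hL K (V j i))
    (z := fun i => io K (Z i)) hGD hgI hu' hzV (fun i => uq K (fun t => x t (J0 i)))
    (fun Δ hΔ y => kill3 (fun i => io K (Z i)) (fun i => uq K (W i)) is ic hWm
      (fun y => uq K (fun t => x t y)) hX Δ hΔ (J0 y)) σ hσ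
  -- sequences
  choose tsq htsq using fun (y : Fin ν) (c : Fin N) => uq_surj (E c (uq K (fun t => x t y)))
  set TS : ∀ t, Matrix (Fin ν) (Fin (N + 1)) (K t) := fun t => Matrix.of fun y c =>
    (Fin.cons (x t y) (fun j => tsq y j t) : Fin (N + 1) → K t) c with hTSdef
  have hTM : ∀ y c, (Fin.cons (uq K (fun t => x t y)) (fun j => E j (uq K (fun t => x t y))) :
      Fin (N + 1) → UP K) c = uq K (fun t => TS t y c) := by
    intro y c
    refine Fin.cases ?_ (fun c => ?_) c
    · rw [Fin.cons_zero]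
      rfl
    · rw [Fin.cons_succ, ← htsq]
      rfl
  have hdet1 : ∀ᶠ t in (UU : Filter ℕ), ((TS t).submatrix J0 id).det ≠ 0 := by
    have h1 : (jetM (fun j => E j) (fun i => uq K (fun t => x t (J0 i)))).det =
        uq K (fun t => ((TS t).submatrix J0 id).det) := by
      rw [← det_uq]
      congr 1
      ext1 i c
      exact hTM (J0 i) c
    rw [h1, uq_ne_zero] at hdet
    exact hdet
  have hWint := fun i => basis_integral (Lau (K0 hL K) (fun k => io K (gm (T k))))
    (fun i => uq K (W i)) (fun i j l => io K (Z (is i j l))) (fun i j l => hzL _) hWm i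
  have hder' : ∀ (v0 : Option (Fin s)) (a : ∀ t, AbsoluteValue (K t) ℝ) (ex : ℕ → ℕ) (R : ℕ),
      Res a (wv b hb v0) ex R → ∀ (P : MvPolynomial (Fin ν) ℤ) (d : ℕ), P.IsHomogeneous d →
      ∀ c, (OU L hL a).valuation (∑ y, evi (fun y => uq K (fun t => x t y)) (pderiv y P) *
        uq K (fun t => TS t y c)) ≤
      (OU L hL a).valuation (evi (fun y => uq K (fun t => x t y)) P) := by
    intro v0 a0 ex R hres P d hP c
    set A := OU L hL a0 with hA
    have h0 : ∀ y, uq K (fun t => TS t y c) = (Fin.cons (uq K (fun t => x t y))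
        (fun j => E j (uq K (fun t => x t y))) : Fin (N + 1) → UP K) c := fun y =>
      (hTM y c).symm
    rw [Finset.sum_congr rfl fun y _ => by rw [h0 y]]
    refine Fin.cases ?_ (fun c => ?_) c
    · simp only [Fin.cons_zero]
      have h1 := form_dir (0 : Derivation ℚ (UP K) (UP K)) (fun y => uq K (fun t => x t y)) 1 P d hP
      simp only [Derivation.coe_zero, Pi.zero_apply, zero_add, one_mul] at h1
      rw [h1, map_mul]
      exact mul_le_of_le_one_left' ((A.valuation_le_one_iff _).2 (natCast_mem A d))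
    · simp only [Fin.cons_succ]
      have h1 := form_dir (E c) (fun y => uq K (fun t => x t y)) 0 P d hP
      simp only [zero_mul, add_zero] at h1
      rw [h1]
      have hpl := pl_wv b hb v0
      choose γ hγ using fun k => exists_weight hL hpl (hTB k) (hT0 k)
      have hA0 : ∀ b : K0 hL K, algebraMap (K0 hL K) (UP K) b ∈ A := by
        rintro ⟨_, y, hy, rfl⟩
        exact (mem_OU_io hL hres y).2 (KK_le hL hpl hy)
      have hA1 : ∀ (p : MvPolynomial (Fin m) (K0 hL K)), ∀ α ∈ p.support,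
          A.valuation (∏ i, io K (gm (T i)) ^ α i) ≤
            A.valuation (aeval (fun k => io K (gm (T k))) p) := by
        intro p α hα
        obtain ⟨p, rfl⟩ := map_surjective _ (psi_surj hL K) p
        rw [aeval_psi, io_prod_pow, val_io_le hL hres]
        exact lb_mono hL b hb hbi (fun k => gm (T k)) hTS hTB hind v0 p α
          (support_map_subset _ _ hα)
      have hA2 : ∀ α β : Fin m →₀ ℕ, A.valuation (∏ i, io K (gm (T i)) ^ α i) ≤
          A.valuation (∏ i, io K (gm (T i)) ^ β i) ↔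
          ∑ i, (α i : ℝ) * γ i ≤ ∑ i, (β i : ℝ) * γ i := by
        intro α β
        rw [io_prod_pow, io_prod_pow, val_io_le hL hres]
        exact mono_le_iff hL _ T hT0 γ hγ α β
      refine grad_ld hLD hgI (hEg c) A γ hA0 hA1 hA2 _ ?_
      exact integral_form3 (Lau (K0 hL K) (fun k => io K (gm (T k)))) (fun i => uq K (W i))
        (fun i y => io K (Z (ic i y))) hWint (fun i y => hzL _)
        (fun y => uq K (fun t => x t y)) hX P
  -- nonzero coordinate
  have hn : 0 < N + 1 := Nat.succ_pos N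
  have hx0 : ∀ᶠ t in (UU : Filter ℕ), x t (J0 ⟨0, hn⟩) ≠ 0 := by
    have h1 := hgen (X ⟨0, hn⟩) 1 (isHomogeneous_X _ _) (X_ne_zero _)
    simpa only [aeval_X] using h1
  have hGx' : ∀ t a, evi (x t) (Gp a) = 0 := fun t a => by
    rw [← aeval_evi]
    exact hGx t a
  -- infinite places
  choose finf hfinf using fun t => exists_inf (F := K t) r (hr t)
  have hgrad : ∀ᶠ t in (UU : Filter ℕ), ∀ a c,
      ∑ y, evi (x t) (pderiv y (Gp a)) * TS t y c = 0 := by
    refine eventually_all.2 fun a => eventually_all.2 fun c => ?_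
    have h1 := hder' none _ _ 1 (res_inf b hb (fun t => finf t ⟨0, hr0⟩)) (Gp a) (e a) (hGh a) c
    rw [evi_uq, uq_eq_zero.2 (Eventually.of_forall fun t => hGx' t a), map_zero] at h1
    have h2 := le_antisymm h1 zero_le
    rw [Valuation.zero_iff] at h2
    have h4 : ∀ y, evi (fun y => uq K (fun t => x t y)) (pderiv y (Gp a)) *
        uq K (fun t => TS t y c) = uq K (fun t => evi (x t) (pderiv y (Gp a)) * TS t y c) := by
      intro y
      rw [evi_uq, uq_mul]
    rw [Finset.sum_congr rfl fun y _ => h4 y, uq_sum, uq_eq_zero] at h2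
    exact h2
  set δ : ℝ := ε / 2 / (r * (S.card + 1)) with hδ
  have hrR : (0 : ℝ) < r := by exact_mod_cast hr0
  have hδ0 : 0 < δ := by
    rw [hδ]
    positivity
  have hinf : ∀ᶠ t in (UU : Filter ℕ), ∀ k : Fin r, AtPl F d (x t) (TS t) (finf t k).1 (δ * L t) := by
    refine eventually_all.2 fun k => ?_
    have hres := res_inf (K := K) b hb (fun t => finf t k)
    exact atpl_ev hL hν hn Gp e hGh F d hFh hnc x TS hGx' J0 hx0 hdet1 hres (pl_wv b hb none)
      (hder' none _ _ 1 hres) δ hδ0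
  -- finite places
  have hfinx : ∀ (v : Fin s) (t : ℕ), ∃ f : Fin r → FinitePlace (K t), ∀ u : FinitePlace (K t),
      u ((b v : ℕ) : K t) < 1 ↔ ∃ i, f i = u := by
    intro v t
    have h1 := hPLC.1 (K t) (b v) (hb v)
    rw [hr t] at h1
    exact h1
  choose ffin hffin using hfinx
  have hex : ∀ (v : Fin s) (k : Fin r) (t : ℕ), ∃ e : ℕ, 1 ≤ e ∧ e ≤ r ∧
      ∀ q : ℚ, ffin v t k (q : K t) = (padicNorm (b v) q : ℝ) ^ e := by
    intro v k t
    have h1 := hPLC.2 (K t) (b v) (hb v) (ffin v t k) ((hffin v t _).2 ⟨k, rfl⟩)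
    rw [hr t] at h1
    exact h1
  choose ex hex1 hex2 hex3 using hex
  have hfin : ∀ᶠ t in (UU : Filter ℕ), ∀ (v : Fin s) (k : Fin r),
      AtPl F d (x t) (TS t) (ffin v t k).1 (δ * L t) := by
    refine eventually_all.2 fun v => eventually_all.2 fun k => ?_
    have hres : Res (fun t => (ffin v t k).1) (wv b hb (some v)) (ex v k) r :=
      { one_le := hex1 v k
        le := hex2 v k
        eq := fun t q => by
          rw [wv_some]
          exact hex3 v k t q }
    exact atpl_ev hL hν hn Gp e hGh F d hFh hnc x TS hGx' J0 hx0 hdet1 hres (pl_wv b hb _)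
      (hder' (some v) _ _ r hres) δ hδ0
  -- places outside `S`
  have hout : ∀ J : Fin (N + 1) → Fin ν, ∃ e : ℕ → ℤ, Negl L e ∧
      (∀ᶠ t in (UU : Filter ℕ), e t ≠ 0) ∧
      ∀ᶠ t in (UU : Filter ℕ), ∀ v : FinitePlace (K t), v ∉ Over (K t) S →
        v (((TS t).submatrix J id).det * (e t : K t)) ≤
          (⨆ i, v ((ω t).traceDual i)) * (⨆ i, v (x t (J i))) ^ (N + 1) := by
    intro J
    exact out_minor3 hCDG hARI b hb hbi S hbS hSb hL K T hT hTB hind E hEg hr0 W W'
      (fun i j l => io K (Z (is i j l))) hWm (fun i j l => hzL _) (li_uq hL K ω T) hWd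
      (fun t i => x t (J i)) (fun i => ⟨fun j => io K (Z (ic j (J i))), fun j => hzC _, hX (J i)⟩)
      (fun t => (TS t).submatrix J id) (fun i c => hTM (J i) c)
  choose eJ heN he0 heJ using hout
  set et : ℕ → ℤ := fun t => ∏ J, eJ J t with het
  have hetN : Negl L et := Negl.prod hL _ fun J _ => heN J
  have hr1 : (0 : ℝ) < (r : ℝ) + 1 := by positivity
  have hetb : ∀ᶠ t in (UU : Filter ℕ), |(et t : ℝ)| ≤ Real.exp (ε / 2 / (r + 1) * L t) :=
    hetN _ (by positivity)
  filter_upwards [hx0, hdet1, hgrad, hinf, hfin, L_nonneg hL, eventually_all.2 he0,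
    eventually_all.2 heJ, hetb] with t h1 h2 h3 h4 h5 h6 h7 h8 h9
  intro AA hAA hGA
  have het0 : et t ≠ 0 := Finset.prod_ne_zero_iff.2 fun J _ => h7 J
  have hetK : (et t : K t) ≠ 0 := by exact_mod_cast het0
  have hW'0 : (fun i => (ω t).traceDual i) ≠ 0 := by
    intro h0
    exact (ω t).traceDual.ne_zero ⟨0, hr0⟩ (congrFun h0 ⟨0, hr0⟩)
  obtain ⟨hfW, hsW⟩ := finsum_W hNRM S hSp hr0 (hr t) (fun i => (ω t).traceDual i) hW'0 (et t) het0
  have hpos1 : ∀ v : FinitePlace (K t), 0 < ⨆ i, v ((ω t).traceDual i) := fun v =>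
    sup_pos hW'0 v.1
  have hpos2 : ∀ v : FinitePlace (K t), 0 < v (et t : K t) := fun v => v.1.pos hetK
  have hout : ∀ v : FinitePlace (K t), v ∉ Over (K t) S → ∀ J : Fin (N + 1) → Fin ν,
      v ((TS t).submatrix J id).det ≤ ((⨆ i, v ((ω t).traceDual i)) / v (et t : K t)) *
        (⨆ i, v (x t i)) ^ (N + 1) := by
    intro v hv J
    have h10 := h8 J v hv
    have h11 : (⨆ i, v (x t (J i))) ^ (N + 1) ≤ (⨆ i, v (x t i)) ^ (N + 1) := by
      refine pow_le_pow_left₀ (Real.iSup_nonneg fun i => apply_nonneg v _) (ciSup_le fun i => ?_) _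
      exact le_ciSup (f := fun i => v (x t i)) (Finite.bddAbove_range _) (J i)
    have h12 : (et t : K t) = (eJ J t : K t) * ((∏ J' ∈ Finset.univ.erase J, eJ J' t : ℤ) : K t) := by
      rw [het]
      simp only
      rw [← Finset.mul_prod_erase _ _ (Finset.mem_univ J)]
      push_cast
      rfl
    have h13 : v (((TS t).submatrix J id).det * (et t : K t)) ≤
        v (((TS t).submatrix J id).det * (eJ J t : K t)) := by
      rw [h12, ← mul_assoc, map_mul v _ ((∏ J' ∈ Finset.univ.erase J, eJ J' t : ℤ) : K t)]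
      exact mul_le_of_le_one_right (apply_nonneg v _) (int_place_le v _)
    have h14 : v (((TS t).submatrix J id).det * (et t : K t)) ≤
        (⨆ i, v ((ω t).traceDual i)) * (⨆ i, v (x t i)) ^ (N + 1) :=
      h13.trans (h10.trans (mul_le_mul_of_nonneg_left h11 (hpos1 v).le))
    rw [map_mul] at h14
    rw [div_mul_eq_mul_div, le_div_iff₀ (hpos2 v)]
    exact h14
  have key := hASM ν (N + 1) sc g q w hν Gp F d hnc (K t) S hSp (x t) (by
      intro h0
      apply h1
      rw [h0]
      rfl) (hGx t) (TS t) (by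
      intro a c
      have := h3 a c
      simpa only [aeval_evi] using this) J0 h2
    (fun v => (⨆ i, v ((ω t).traceDual i)) / v (et t : K t))
    (fun v => div_pos (hpos1 v) (hpos2 v)) hfW hout (δ * L t)
    (by positivity) (by
      intro v
      obtain ⟨k, rfl⟩ := hfinf t v
      exact h4 k) (by
      rintro v ⟨p, hp, hvp⟩
      obtain ⟨v', rfl⟩ := hSb p hp
      obtain ⟨k, rfl⟩ := (hffin v' t v).1 hvp
      exact h5 v' k) AA hAA hGA
  rw [hr t] at key
  have h11 : Real.log |(et t : ℝ)| ≤ ε / 2 / (r + 1) * L t := by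
    rw [Real.log_le_iff_le_exp]
    · exact h9
    · exact abs_pos.2 (by exact_mod_cast het0)
  have h12 : (r : ℝ) * Real.log |(et t : ℝ)| ≤ ε / 2 * L t := by
    have h13 : (r : ℝ) * Real.log |(et t : ℝ)| ≤ r * (ε / 2 / (r + 1) * L t) :=
      mul_le_mul_of_nonneg_left h11 hrR.le
    have h14 : (r : ℝ) * (ε / 2 / (r + 1) * L t) ≤ (r + 1) * (ε / 2 / (r + 1) * L t) :=
      mul_le_mul_of_nonneg_right (by linarith) (by positivity)
    have h15 : ((r : ℝ) + 1) * (ε / 2 / (r + 1) * L t) = ε / 2 * L t := by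
      field_simp
    linarith
  have h16 : (r : ℝ) * (S.card + 1) * (δ * L t) = ε / 2 * L t := by
    rw [hδ]
    field_simp
  rw [h16] at key
  linarith

end Pool.Agent.Y724.T4
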