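import Mathlib
import Pool.Agent.Y724.T4.SQ7
import Pool.Agent.Y724.T4.AB
import Pool.Agent.Y724.T4.GD
import Pool.Agent.Y724.T4.CD2
import Pool.Agent.Y724.T4.CDG2
import Pool.Agent.Y724.T4.GB
import Pool.Agent.Y724.T4.ARI
import Pool.Agent.Y724.T4.ASM3
import Pool.Agent.Y724.T4.LD
import Pool.Agent.Y724.T4.LDD
import Pool.Agent.Y724.T4.NRM
import Pool.Agent.Y724.T4.PLC

/-!
# Vojta's inequality at sparse points over number fields of bounded degree
-/

set_option autoImplicit false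

namespace Pool.Agent.Y724.T4

open MvPolynomial Filter Topology Pool.Agent.TH932.Germs Pool.Agent.TH551.SU Pool.Agent.Y724.Vj
open Pool.Agent.TH551.SU.SUI NumberField

/-- the structure constants of a basis and the coordinates of a vector -/
noncomputable def prm {K : Type} [Field K] [NumberField K] {r ν : ℕ}
    (ω : Module.Basis (Fin r) ℚ K) (x : Fin ν → K) :
    (Fin r × Fin r × Fin r) ⊕ (Fin ν × Fin r) → ℚ :=
  Sum.elim (fun t => ω.repr (ω t.1 * ω t.2.1) t.2.2) (fun t => ω.repr (x t.1) t.2)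

/-- the size of a rational vector -/
def sz {ι : Type} [Fintype ι] (z : ι → ℚ) : ℕ :=
  Finset.univ.sup (fun i => max (z i).num.natAbs (z i).den)

/-- `z` is a sum of `l` integer vectors of size at most `B * sz z ^ δ` multiplied by units -/
def ShortI {s : ℕ} {ι : Type} [Fintype ι] (b : Fin s → ℕ) (l : ℕ) (B δ : ℝ) (z : ι → ℚ) : Prop :=
  ∃ (u : Fin l → ℚ) (m : Fin l → ι → ℤ), (∀ j, IsSU b (u j)) ∧
    (∀ j i, |(m j i : ℝ)| ≤ B * (sz z : ℝ) ^ δ) ∧ ∀ i, z i = ∑ j, u j * m j i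

/-- a number field with a basis and a vector -/
structure Pt6 (r ν : ℕ) where
  K : Type
  [fld : Field K]
  [nf : NumberField K]
  ω : Module.Basis (Fin r) ℚ K
  x : Fin ν → K

attribute [instance] Pt6.fld Pt6.nf

lemma one_le_sz {ι : Type} [Fintype ι] [Nonempty ι] (z : ι → ℚ) : 1 ≤ sz z := by
  obtain ⟨i⟩ := (inferInstance : Nonempty ι)
  have h1 := Finset.le_sup (f := fun i => max (z i).num.natAbs (z i).den) (Finset.mem_univ i)
  have h2 : 1 ≤ (z i).den := (z i).pos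
  exact h2.trans ((le_max_right _ _).trans h1)

lemma hq_comp {ι : Type} [Fintype ι] [Nonempty ι] {μ : ℕ} (e : Fin μ ≃ ι) (z : ι → ℚ) :
    hq (fun i => z (e i)) = sz z := by
  have h1 : Finset.univ.sup (fun i => max (z (e i)).num.natAbs (z (e i)).den) = sz z := by
    unfold sz
    apply le_antisymm
    · exact Finset.sup_le fun i _ => Finset.le_sup
        (f := fun i => max (z i).num.natAbs (z i).den) (Finset.mem_univ (e i))
    · refine Finset.sup_le fun i _ => ?_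
      have := Finset.le_sup (f := fun i => max (z (e i)).num.natAbs (z (e i)).den)
        (Finset.mem_univ (e.symm i))
      simpa using this
  unfold hq
  rw [h1]
  exact max_eq_right (one_le_sz z)

variable {s sc g q w ν N r : ℕ}

/-- **The main inequality**, with the dual basis. -/
theorem main6a (b : Fin s → ℕ)
    (hb : ∀ v, (b v).Prime) (hbi : Function.Injective b) (S : Finset ℕ) (hbS : ∀ v, b v ∈ S)
    (hSb : ∀ p ∈ S, ∃ v, b v = p)
    (hν : ν = (N + 1) + sc)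
    (Gp : Fin g → MvPolynomial (Fin ν) ℤ)
    (e : Fin g → ℕ) (hGh : ∀ a, (Gp a).IsHomogeneous (e a))
    (F : Fin q → Fin w → MvPolynomial (Fin ν) ℤ) (d : Fin q → Fin w → ℕ)
    (hFh : ∀ i j, (F i j).IsHomogeneous (d i j)) (hnc : NCf ℂ sc Gp F)
    (J0 : Fin (N + 1) → Fin ν) (B : ℝ) (hB : 1 ≤ B) (ε : ℝ) (hε : 0 < ε) (l : ℕ) (hr : 0 < r) :
    ∃ (δ : ℝ) (Ψ : MvPolynomial (Fin (N + 1)) ℚ) (k : ℕ) (C : ℝ), 0 < δ ∧ Ψ ≠ 0 ∧
      Ψ.IsHomogeneous k ∧
      ∀ (K : Type) [Field K] [NumberField K] (ω : Module.Basis (Fin r) ℚ K) (x : Fin ν → K),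
        (∀ a, aeval x (Gp a) = 0) → ShortI b l B δ (prm ω x) →
        aeval (fun i => x (J0 i)) Ψ ≠ 0 →
        ∀ AA : Matrix (Fin ν) (Fin (N + 1)) K, LinearIndependent K AA.col →
          (∀ a c, ∑ y, aeval x (pderiv y (Gp a)) * AA y c = 0) →
          ∑ i, (∑ v : InfinitePlace K, v.mult * locH (F i) (d i) x v.1 +
            ∑ᶠ v ∈ Over K S, locH (F i) (d i) x v.1) +
            Height.logHeight (fun J : Fin (N + 1) → Fin ν => (AA.submatrix J id).det) ≤
            (N + 1 : ℕ) * Height.logHeight x +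
              ∑ᶠ v ∈ (Over K S)ᶜ, Real.log (⨆ i, v (ω.traceDual i)) +
                (ε * Real.log (sz (prm ω x) : ℝ) + C) := by
  classical
  set ι := (Fin r × Fin r × Fin r) ⊕ (Fin ν × Fin r) with hι
  have hne : Nonempty ι := ⟨Sum.inl (⟨0, hr⟩, ⟨0, hr⟩, ⟨0, hr⟩)⟩
  set μ := Fintype.card ι with hμ
  let eq : Fin μ ≃ ι := (Fintype.equivFin ι).symm
  let Q := {P : Pt6 r ν // ∀ a, aeval P.x (Gp a) = 0}
  let z : Q → Fin μ → ℚ := fun P i => prm P.1.ω P.1.x (eq i)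
  let NV : Q → MvPolynomial (Fin (N + 1)) ℚ → Prop := fun P Φ =>
    aeval (fun i => P.1.x (J0 i)) Φ ≠ 0
  let I : Q → ℝ → Prop := fun P a =>
    ∀ AA : Matrix (Fin ν) (Fin (N + 1)) P.1.K, LinearIndependent P.1.K AA.col →
      (∀ a c, ∑ y, aeval P.1.x (pderiv y (Gp a)) * AA y c = 0) →
      ∑ i, (∑ v : InfinitePlace P.1.K, v.mult * locH (F i) (d i) P.1.x v.1 +
        ∑ᶠ v ∈ Over P.1.K S, locH (F i) (d i) P.1.x v.1) +
        Height.logHeight (fun J : Fin (N + 1) → Fin ν => (AA.submatrix J id).det) ≤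
        (N + 1 : ℕ) * Height.logHeight P.1.x +
          ∑ᶠ v ∈ (Over P.1.K S)ᶜ, Real.log (⨆ i, v (P.1.ω.traceDual i)) + a
  have hI : ∀ P a a', a ≤ a' → I P a → I P a' := by
    intro P a a' haa h AA h1 h2
    exact (h AA h1 h2).trans (add_le_add le_rfl haa)
  have hNV : ∀ P Φ Φ', NV P (Φ * Φ') → NV P Φ := by
    intro P Φ Φ' h h0
    apply h
    rw [map_mul, h0, zero_mul]
  have hseq : SeqIneq b z NV I := by
    intro l L hL P U hUS hbd V hZ hgen ε hε
    have := seq_alg3 (r := r) (ld ldd) gd (cdg2 (cd2 ldd) gb) ari (asm3 plc) plc nrm b hb hbi S hbS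
      hSb hL hν Gp e hGh F d hFh hnc (fun t => (P t).1.K) (fun t => (P t).1.ω)
      (fun t => z (P t)) (fun i j l => eq.symm (Sum.inl (i, j, l)))
      (fun i y => eq.symm (Sum.inr (y, i))) (fun t => (P t).1.x)
      (fun t i j l => by
        change _ = prm (P t).1.ω (P t).1.x (eq (eq.symm (Sum.inl (i, j, l))))
        rw [Equiv.apply_symm_apply]
        rfl)
      (fun t i y => by
        change _ = prm (P t).1.ω (P t).1.x (eq (eq.symm (Sum.inr (y, i))))
        rw [Equiv.apply_symm_apply]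
        rfl)
      U hUS hbd V hZ (fun t a => (P t).2 a) J0 hgen ε hε
    exact this
  obtain ⟨δ, Ψ, k, C, hδ, hΨ0, hΨh, hPP⟩ := all_PPB b hb hbi z NV I hI hNV hseq B hB ε hε l
  refine ⟨δ, Ψ, k, C, hδ, hΨ0, hΨh, ?_⟩
  intro K _ _ ω x hx hsh hΨx
  have hsz : hq (z ⟨⟨K, ω, x⟩, hx⟩) = sz (prm ω x) := hq_comp eq (prm ω x)
  have h1 := hPP ⟨⟨K, ω, x⟩, hx⟩ (by
    obtain ⟨u, m, h1, h2, h3⟩ := hsh
    refine ⟨u, fun j i => m j (eq i), h1, fun j i => ?_, fun i => h3 (eq i)⟩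
    rw [hsz]
    exact h2 j (eq i)) hΨx
  rw [hsz] at h1
  exact h1

end Pool.Agent.Y724.T4
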