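import Pool.Agent.Y67.MX.Gen
import Pool.Agent.Y724.T4.Stm3

/-!
# MAX2: the case of a maximal order, with a general basis (helper67 for project T6)
-/

set_option autoImplicit false

namespace Pool.Agent.Y724.T4

/-- **MAX2** -/
theorem max2 : S_MAX2 := by
  intro K _ _ S hS r ω hω
  have hr : Module.finrank ℚ K = r := by
    rw [Module.finrank_eq_card_basis ω, Fintype.card_fin]
  refine Pool.Agent.Y67.MX.max_gen S hS hr ω (Algebra.discr_not_zero_of_basis ℚ ω) fun y =>
    ⟨fun i => ω.repr (y : K) i, fun i p hp hpS => hω y i p hp hpS, ?_⟩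
  have h1 := ω.sum_repr (y : K)
  conv_lhs => rw [← h1]
  refine Finset.sum_congr rfl fun i _ => ?_
  rw [Algebra.smul_def]
  rfl

end Pool.Agent.Y724.T4
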