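import Mathlib
import Pool.Agent.Y724.T4.FIN
import Pool.Agent.Y724.T4.DSC
import Pool.Agent.Y724.T4.MAX2

/-!
# Changing the set of places; the discriminant
-/

set_option autoImplicit false

namespace Pool.Agent.Y724.T4

open MvPolynomial Pool.Agent.Y724.Vj NumberField

section loc
variable {K : Type} [Field K] [NumberField K] {ν w : ℕ}

lemma place_form_le (v : FinitePlace K) (P : MvPolynomial (Fin ν) ℤ) (e : ℕ)
    (hP : P.IsHomogeneous e) (x : Fin ν → K) : v (aeval x P) ≤ (⨆ i, v (x i)) ^ e := by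
  classical
  have h0 : ∀ i, v (x i) ≤ ⨆ i, v (x i) := fun i =>
    le_ciSup (f := fun i => v (x i)) (Set.finite_range _).bddAbove i
  have hs0 : 0 ≤ ⨆ i, v (x i) := Real.iSup_nonneg fun i => apply_nonneg v _
  rw [aeval_def, eval₂_eq']
  refine Finset.sum_induction _ (fun a => v a ≤ (⨆ i, v (x i)) ^ e) ?_ ?_ ?_
  · intro a b ha hb
    exact (FinitePlace.add_le v a b).trans (max_le ha hb)
  · rw [map_zero]
    exact pow_nonneg hs0 _
  · intro α hα
    rw [map_mul, map_prod]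
    have h1 : v ((algebraMap ℤ K) (coeff α P)) ≤ 1 := by
      rw [eq_intCast]
      exact int_place_le v _
    have h2 : ∏ i, v (x i ^ α i) ≤ ∏ i, (⨆ i, v (x i)) ^ α i := by
      refine Finset.prod_le_prod (fun i _ => apply_nonneg v _) fun i _ => ?_
      rw [map_pow]
      exact pow_le_pow_left₀ (apply_nonneg v _) (h0 i) _
    have h3 : ∏ i, (⨆ i, v (x i)) ^ α i = (⨆ i, v (x i)) ^ e := by
      rw [Finset.prod_pow_eq_pow_sum]
      congr 1
      have h4 := hP (mem_support_iff.1 hα)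
      rw [← h4, Finsupp.weight_apply, Finsupp.sum_fintype _ _ (fun _ => by simp)]
      simp
    calc v ((algebraMap ℤ K) (coeff α P)) * ∏ i, v (x i ^ α i) ≤
        1 * ∏ i, v (x i ^ α i) := mul_le_mul_of_nonneg_right h1
          (Finset.prod_nonneg fun i _ => apply_nonneg v _)
      _ ≤ (⨆ i, v (x i)) ^ e := by
          rw [one_mul, ← h3]
          exact h2

/-- local heights are nonnegative at finite places -/
lemma locH_nonneg (F : Fin w → MvPolynomial (Fin ν) ℤ) (d : Fin w → ℕ)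
    (hF : ∀ j, (F j).IsHomogeneous (d j)) (x : Fin ν → K) (v : FinitePlace K) :
    0 ≤ locH F d x v.1 := by
  unfold locH
  rw [neg_nonneg]
  have hs0 : 0 ≤ ⨆ i, v (x i) := Real.iSup_nonneg fun i => apply_nonneg v _
  apply Real.log_nonpos
  · exact Real.iSup_nonneg fun j => div_nonneg (apply_nonneg v _) (pow_nonneg hs0 _)
  · rcases isEmpty_or_nonempty (Fin w) with h | h
    · rw [Real.iSup_of_isEmpty]
      exact zero_le_one
    · refine ciSup_le fun j => ?_
      exact div_le_one_of_le₀ (place_form_le v (F j) (d j) (hF j) x) (pow_nonneg hs0 _)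

lemma over_finite (S : Finset ℕ) (hS : ∀ p ∈ S, p.Prime) : (Over K S).Finite := by
  have h1 : (⋃ p ∈ S, {v : FinitePlace K | v (p : K) ≠ 1}).Finite := by
    refine Set.Finite.biUnion S.finite_toSet fun p hp => ?_
    apply fin_ne_one
    exact_mod_cast (hS p hp).ne_zero
  refine h1.subset ?_
  rintro v ⟨p, hp, hv⟩
  rw [Set.mem_iUnion₂]
  exact ⟨p, hp, hv.ne⟩

lemma over_mono {S S' : Finset ℕ} (h : S ⊆ S') : Over K S ⊆ Over K S' := by
  rintro v ⟨p, hp, hv⟩
  exact ⟨p, h hp, hv⟩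

lemma finsum_over_mono {S S' : Finset ℕ} (h : S ⊆ S') (hS' : ∀ p ∈ S', p.Prime)
    (f : FinitePlace K → ℝ) (hf : ∀ v, 0 ≤ f v) :
    ∑ᶠ v ∈ Over K S, f v ≤ ∑ᶠ v ∈ Over K S', f v := by
  have h1 := over_finite (K := K) S' hS'
  have h2 := over_finite (K := K) S (fun p hp => hS' p (h hp))
  rw [finsum_mem_eq_finite_toFinset_sum _ h1, finsum_mem_eq_finite_toFinset_sum _ h2]
  refine Finset.sum_le_sum_of_subset_of_nonneg ?_ fun v _ _ => hf v
  intro v hv
  rw [Set.Finite.mem_toFinset] at hv ⊢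
  exact over_mono h hv

end loc

/-- the `p`-integral rational numbers -/
def Zp (p : ℕ) [Fact p.Prime] : Subring ℚ where
  carrier := {a | padicNorm p a ≤ 1}
  mul_mem' := by
    intro a b ha hb
    change padicNorm p (a * b) ≤ 1
    rw [padicNorm.mul]
    exact mul_le_one₀ ha (padicNorm.nonneg _) hb
  one_mem' := by
    change padicNorm p 1 ≤ 1
    rw [padicNorm.one]
  add_mem' := by
    intro a b ha hb
    exact (padicNorm.nonarchimedean (p := p)).trans (max_le ha hb)
  zero_mem' := by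
    change padicNorm p 0 ≤ 1
    rw [padicNorm.zero]
    exact zero_le_one
  neg_mem' := by
    intro a ha
    change padicNorm p (-a) ≤ 1
    rw [padicNorm.neg]
    exact ha

section disc
variable {K : Type} [Field K] [NumberField K] {r : ℕ}

lemma discr_int (ω : Module.Basis (Fin r) ℚ K) (p : ℕ) (hp : p.Prime)
    (h : ∀ i j l, padicNorm p (ω.repr (ω i * ω j) l) ≤ 1) :
    padicNorm p (Algebra.discr ℚ ω) ≤ 1 := by
  have : Fact p.Prime := ⟨hp⟩
  have h1 : (Algebra.traceMatrix ℚ ω).det ∈ Zp p := by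
    refine det_mem (Zp p) _ fun i j => ?_
    rw [Algebra.traceMatrix_apply, Algebra.traceForm_apply, trace_rel2]
    exact Subring.sum_mem _ fun l _ => Subring.mul_mem _ (h _ _ _)
      (Subring.sum_mem _ fun l' _ => h _ _ _)
  exact h1

lemma discr_mono (ω : Module.Basis (Fin r) ℚ K) {S S' : Finset ℕ} (hSS : S ⊆ S')
    (hS' : ∀ p ∈ S', p.Prime)
    (h : ∀ i j l p, p.Prime → p ∉ S → padicNorm p (ω.repr (ω i * ω j) l) ≤ 1) :
    ∑ p ∈ S', Real.log ((padicNorm p (Algebra.discr ℚ ω) : ℚ) : ℝ) ≤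
      ∑ p ∈ S, Real.log ((padicNorm p (Algebra.discr ℚ ω) : ℚ) : ℝ) := by
  classical
  rw [← Finset.sum_sdiff hSS]
  have h1 : ∑ p ∈ S' \ S, Real.log ((padicNorm p (Algebra.discr ℚ ω) : ℚ) : ℝ) ≤ 0 := by
    refine Finset.sum_nonpos fun p hp => ?_
    rw [Finset.mem_sdiff] at hp
    have h2 := discr_int ω p (hS' p hp.1) fun i j l => h i j l p (hS' p hp.1) hp.2
    have : Fact p.Prime := ⟨hS' p hp.1⟩
    refine Real.log_nonpos ?_ (by exact_mod_cast h2)
    exact_mod_cast padicNorm.nonneg _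
  linarith

end disc

/-- sums of units with integer coefficients are integral outside `S` -/
lemma short_int {s : ℕ} {ι : Type} [Fintype ι] (b : Fin s → ℕ) (hb : ∀ v, (b v).Prime) {l : ℕ}
    {B δ : ℝ} {z : ι → ℚ} (h : ShortI b l B δ z) (i : ι) (p : ℕ) (hp : p.Prime)
    (hpb : ∀ v, b v ≠ p) : padicNorm p (z i) ≤ 1 := by
  have : Fact p.Prime := ⟨hp⟩
  obtain ⟨u, m, hu, _, hz⟩ := h
  have h1 : z i ∈ Zp p := by
    rw [hz]
    refine Subring.sum_mem _ fun j _ => Subring.mul_mem _ ?_ (intCast_mem _ _)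
    obtain ⟨σ, e, hσ, hu⟩ := hu j
    rw [hu]
    refine Subring.mul_mem _ (intCast_mem _ _) (Subring.prod_mem _ fun v _ => ?_)
    change padicNorm p (((b v : ℕ) : ℚ) ^ e v) ≤ 1
    have h2 : padicNorm p ((b v : ℕ) : ℚ) = 1 := by
      have : Fact (b v).Prime := ⟨hb v⟩
      exact padicNorm.padicNorm_of_prime_of_ne (hpb v).symm
    have h3 : padicNorm p (((b v : ℕ) : ℚ) ^ e v) = (padicNorm p ((b v : ℕ) : ℚ)) ^ e v := by
      have h4 : ((b v : ℕ) : ℚ) ≠ 0 := by exact_mod_cast (hb v).ne_zero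
      rcases Int.eq_nat_or_neg (e v) with ⟨n, h | h⟩
      · rw [h, zpow_natCast, zpow_natCast]
        exact map_pow (⟨⟨padicNorm p, padicNorm.one⟩, fun x y => padicNorm.mul x y⟩ : ℚ →* ℚ) _ n
      · rw [h, zpow_neg, zpow_natCast, zpow_neg, zpow_natCast]
        have h5 := map_pow (⟨⟨padicNorm p, padicNorm.one⟩, fun x y => padicNorm.mul x y⟩ : ℚ →* ℚ)
          ((b v : ℕ) : ℚ) n
        have h6 : padicNorm p ((((b v : ℕ) : ℚ) ^ n)⁻¹) * padicNorm p (((b v : ℕ) : ℚ) ^ n) = 1 := by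
          rw [← padicNorm.mul, inv_mul_cancel₀ (pow_ne_zero _ h4), padicNorm.one]
        have h7 : padicNorm p (((b v : ℕ) : ℚ) ^ n) = padicNorm p ((b v : ℕ) : ℚ) ^ n := h5
        rw [h7] at h6
        exact eq_inv_of_mul_eq_one_left h6
    rw [h3, h2, one_zpow]
  exact h1

end Pool.Agent.Y724.T4
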