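import Mathlib
import Pool.Agent.Y724.T4.Stm3

/-!
# Statements for the project T7 (truncated counting functions)
-/

set_option autoImplicit false

namespace Pool.Agent.Y724.T4

open MvPolynomial NumberField Filter Topology Pool.Agent.TH932.Germs Pool.Agent.TH551.SU
open Pool.Agent.Y724.Vj

/-- the factor of the bound which belongs to the divisor, at the coordinate `y1` -/
noncomputable def psiF {G : Type} [CommRing G] {ν q w : ℕ} (N D : ℕ)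
    (Fp : Fin q → Fin w → MvPolynomial (Fin ν) ℤ) (d : Fin q → Fin w → ℕ) (x : Fin ν → G)
    (y1 : Fin ν) (j : Fin q → Fin w) : G :=
  x y1 ^ (N + 1) * ∏ i, (evi x (Fp i (j i)) * x y1 ^ (D - d i (j i)))

/-- **CD4**: the local bound for the determinant at a prime divisor, with the divisor `D` and
an element `ρ` which vanishes at all places where the point meets `D`. -/
def S_CD4 : Prop :=
  ∀ (O F L : Type) [CommRing O] [IsDomain O] [IsDiscreteValuationRing O] [Field F] [Field L]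
    [Algebra O F] [IsFractionRing O F] [Algebra F L] [Algebra O L] [IsScalarTower O F L]
    [FiniteDimensional F L] [CharZero F], (∀ n : ℕ, n ≠ 0 → IsUnit (n : O)) →
  ∀ (N : ℕ) (E : Fin N → Derivation ℤ L L),
    (∀ j (a : O), ∃ b : O, E j (algebraMap O L a) = algebraMap O L b) →
  ∀ (r : ℕ) (ω ω' : Fin r → L), Module.finrank F L = r → (∀ i, IsIntegral O (ω i)) →
    (∀ i j, Algebra.trace F L (ω i * ω' j) = if i = j then 1 else 0) →
  ∀ (ν sc g q w : ℕ), ν = (N + 1) + sc →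
  ∀ (Gp : Fin g → MvPolynomial (Fin ν) ℤ) (e : Fin g → ℕ), (∀ a, (Gp a).IsHomogeneous (e a)) →
  ∀ (Fp : Fin q → Fin w → MvPolynomial (Fin ν) ℤ) (d : Fin q → Fin w → ℕ),
    (∀ i j, (Fp i j).IsHomogeneous (d i j)) → NCf ℂ sc Gp Fp →
  ∀ (D : ℕ), (∀ i j, d i j ≤ D) →
  ∀ (x : Fin ν → L), (∀ y, IsIntegral O (x y)) → x ≠ 0 → (∀ a, evi x (Gp a) = 0) →
  ∀ (ρ : L) (b : Fin q → L) (mm : ℕ), IsIntegral O ρ → (∀ i, IsIntegral O (b i)) →
    (∀ i, ∃ j, evi x (Fp i j) * b i = ρ ^ mm) →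
  ∀ (J : Fin (N + 1) → Fin ν) (y0 : Fin ν),
    (jetM (fun j => E j) (fun i => x (J i))).det * ρ * x y0 ^ (q * D) ∈
      Submodule.span (integralClosure O L)
        (Set.range fun p : Fin r × Fin ν × (Fin q → Fin w) =>
          ω' p.1 * psiF N D Fp d x p.2.1 p.2.2)

/-- `y` is a combination of the `ω i` with coefficients which are Laurent polynomials in
the `g i` -/
def InOrd {G : Type} (k : Type) [Field G] [Field k] [Algebra k G] {m r : ℕ} (g : Fin m → G)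
    (ω : Fin r → G) (y : G) : Prop :=
  ∃ c : Fin r → G, (∀ j, ∃ (a : Fin m → ℕ) (P : MvPolynomial (Fin m) k),
    c j * ∏ i, g i ^ a i = aeval g P) ∧ y = ∑ j, c j * ω j

/-- **CDG4**: the global form of the bound for the determinant, with a divisor. -/
def S_CDG4 : Prop :=
  ∀ (G k : Type) [Field G] [CharZero G] [Algebra ℚ G] [Field k] [Algebra k G] (m : ℕ)
    (g : Fin m → G), AlgebraicIndependent k g →
  ∀ (N : ℕ) (E : Fin N → Derivation ℚ G G), (∀ j, Graded k g (E j)) →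
  ∀ (r : ℕ) (ω ω' : Fin r → G) (s : Fin r → Fin r → Fin r → G),
    (∀ i j, ω i * ω j = ∑ l, s i j l * ω l) →
    (∀ i j l, ∃ (c : Fin m → ℕ) (P : MvPolynomial (Fin m) k),
      s i j l * ∏ i, g i ^ c i = aeval g P) →
    LinearIndependent (Subfield.closure (Set.range (algebraMap k G) ∪ Set.range g)) ω →
    (∀ i, ω i = ∑ j, trM s i j * ω' j) →
  ∀ (ν sc gg q w : ℕ), ν = (N + 1) + sc →
  ∀ (Gp : Fin gg → MvPolynomial (Fin ν) ℤ) (e : Fin gg → ℕ), (∀ a, (Gp a).IsHomogeneous (e a)) →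
  ∀ (Fp : Fin q → Fin w → MvPolynomial (Fin ν) ℤ) (d : Fin q → Fin w → ℕ),
    (∀ i j, (Fp i j).IsHomogeneous (d i j)) → NCf ℂ sc Gp Fp →
  ∀ (D : ℕ), (∀ i j, d i j ≤ D) →
  ∀ (x : Fin ν → G), (∀ y, InOrd k g ω (x y)) → x ≠ 0 → (∀ a, evi x (Gp a) = 0) →
  ∀ (ρ : G) (b : Fin q → G) (mm : ℕ), ρ ≠ 0 → InOrd k g ω ρ → (∀ i, InOrd k g ω (b i)) →
    (∀ i, ∃ j, evi x (Fp i j) * b i = ρ ^ mm) →
  ∀ (J : Fin (N + 1) → Fin ν) (y0 : Fin ν),
    ∃ (b1 b2 : MvPolynomial (Fin m) k) (c : Fin m →₀ ℕ)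
      (β1 β2 : Fin r × Fin ν × (Fin q → Fin w) → G),
      b1 ≠ 0 ∧ b2 ≠ 0 ∧ IsRelPrime b1 b2 ∧ (∀ p, IsIntegral (PolR k g) (β1 p)) ∧
      (∀ p, IsIntegral (PolR k g) (β2 p)) ∧
      aeval g (b1 * monomial c 1) *
        ((jetM (fun j => E j) (fun i => x (J i))).det * ρ * x y0 ^ (q * D)) =
          ∑ p : Fin r × Fin ν × (Fin q → Fin w), β1 p * (ω' p.1 * psiF N D Fp d x p.2.1 p.2.2) ∧
      aeval g (b2 * monomial c 1) *
        ((jetM (fun j => E j) (fun i => x (J i))).det * ρ * x y0 ^ (q * D)) =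
          ∑ p : Fin r × Fin ν × (Fin q → Fin w), β2 p * (ω' p.1 * psiF N D Fp d x p.2.1 p.2.2)

/-- **FW4**: the factors outside `S`. -/
def S_FW4 : Prop :=
  ∀ (K : Type) [Field K] [NumberField K] (S : Finset ℕ), (∀ p ∈ S, p.Prime) →
  ∀ (r : ℕ), 0 < r → Module.finrank ℚ K = r →
  ∀ (W' : Fin r → K), W' ≠ 0 → ∀ (e : ℤ), e ≠ 0 →
  ∀ (ν q w : ℕ) (Fp : Fin q → Fin w → MvPolynomial (Fin ν) ℤ) (d : Fin q → Fin w → ℕ)
    (x : Fin ν → K), x ≠ 0 → (∀ i, ∃ j, aeval x (Fp i j) ≠ 0) → ∀ (ρ : K), ρ ≠ 0 →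
    {v : FinitePlace K | ((⨆ i, v (W' i)) / v (e : K)) *
      (∏ i, ⨆ j, v (aeval x (Fp i j)) / (⨆ y, v (x y)) ^ d i j) / v ρ ≠ 1}.Finite ∧
    (∀ v : FinitePlace K, 0 < ((⨆ i, v (W' i)) / v (e : K)) *
      (∏ i, ⨆ j, v (aeval x (Fp i j)) / (⨆ y, v (x y)) ^ d i j) / v ρ) ∧
    ∑ᶠ v ∈ (Over K S)ᶜ, Real.log (((⨆ i, v (W' i)) / v (e : K)) *
      (∏ i, ⨆ j, v (aeval x (Fp i j)) / (⨆ y, v (x y)) ^ d i j) / v ρ) ≤
      ∑ᶠ v ∈ (Over K S)ᶜ, Real.log (⨆ i, v (W' i)) + r * Real.log |(e : ℝ)| -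
        ∑ i, ∑ᶠ v ∈ (Over K S)ᶜ, locH (Fp i) (d i) x v.1 -
        ∑ᶠ v ∈ (Over K S)ᶜ, Real.log (v ρ)

end Pool.Agent.Y724.T4
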