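import Mathlib
import Pool.Agent.Y724.T4.Stm4

/-!
# Statements for the project T7 (truncated counting functions), general form
-/

set_option autoImplicit false

namespace Pool.Agent.Y724.T4

open MvPolynomial NumberField Filter Topology Pool.Agent.TH932.Germs Pool.Agent.TH551.SU
open Pool.Agent.Y724.Vj

/-- **CD5**: the local bound for the determinant at a prime divisor, with the divisor `D` and
an element `ρ` which vanishes at all places where the point meets `D`. -/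
def S_CD5 : Prop :=
  ∀ (O F L : Type) [CommRing O] [IsDomain O] [IsDiscreteValuationRing O] [Field F] [Field L]
    [Algebra O F] [IsFractionRing O F] [Algebra F L] [Algebra O L] [IsScalarTower O F L]
    [FiniteDimensional F L] [CharZero F], (∀ n : ℕ, n ≠ 0 → IsUnit (n : O)) →
  ∀ (N : ℕ) (E : Fin N → Derivation ℤ L L),
    (∀ j (a : O), ∃ b : O, E j (algebraMap O L a) = algebraMap O L b) →
  ∀ (r : ℕ) (ω ω' : Fin r → L), Module.finrank F L = r → (∀ i, IsIntegral O (ω i)) →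
    (∀ i j, Algebra.trace F L (ω i * ω' j) = if i = j then 1 else 0) →
  ∀ (ν sc g q w : ℕ), ν = (N + 1) + sc →
  ∀ (Gp : Fin g → MvPolynomial (Fin ν) ℤ) (e : Fin g → ℕ), (∀ a, (Gp a).IsHomogeneous (e a)) →
  ∀ (Fp : Fin q → Fin w → MvPolynomial (Fin ν) ℤ) (d : Fin q → Fin w → ℕ),
    (∀ i j, (Fp i j).IsHomogeneous (d i j)) → NCf ℂ sc Gp Fp →
  ∀ (D : ℕ), (∀ i j, d i j ≤ D) →
  ∀ (x : Fin ν → L), (∀ y, IsIntegral O (x y)) → x ≠ 0 → (∀ a, evi x (Gp a) = 0) →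
  ∀ (ρ : L) (b : Fin q → Fin ν → Fin w → L) (mm M : ℕ), IsIntegral O ρ →
    (∀ i y j, IsIntegral O (b i y j)) → (∀ i j, M ≤ d i j) →
    (∀ i y, ρ ^ mm * x y ^ M = ∑ j, evi x (Fp i j) * b i y j) →
  ∀ (J : Fin (N + 1) → Fin ν) (y0 : Fin ν),
    (jetM (fun j => E j) (fun i => x (J i))).det * ρ * x y0 ^ (q * D) ∈
      Submodule.span (integralClosure O L)
        (Set.range fun p : Fin r × Fin ν × (Fin q → Fin w) =>
          ω' p.1 * psiF N D Fp d x p.2.1 p.2.2)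

/-- **CDG5**: the global form of the bound for the determinant, with a divisor. -/
def S_CDG5 : Prop :=
  ∀ (G k : Type) [Field G] [CharZero G] [Algebra ℚ G] [Field k] [Algebra k G] (m : ℕ)
    (g : Fin m → G), AlgebraicIndependent k g →
  ∀ (N : ℕ) (E : Fin N → Derivation ℚ G G), (∀ j, Graded k g (E j)) →
  ∀ (r : ℕ) (ω ω' : Fin r → G) (s : Fin r → Fin r → Fin r → G),
    (∀ i j, ω i * ω j = ∑ l, s i j l * ω l) →
    (∀ i j l, ∃ (c : Fin m → ℕ) (P : MvPolynomial (Fin m) k),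
      s i j l * ∏ i, g i ^ c i = aeval g P) →
    LinearIndependent (Subfield.closure (Set.range (algebraMap k G) ∪ Set.range g)) ω →
    (∀ i, ω i = ∑ j, trM s i j * ω' j) →
  ∀ (ν sc gg q w : ℕ), ν = (N + 1) + sc →
  ∀ (Gp : Fin gg → MvPolynomial (Fin ν) ℤ) (e : Fin gg → ℕ), (∀ a, (Gp a).IsHomogeneous (e a)) →
  ∀ (Fp : Fin q → Fin w → MvPolynomial (Fin ν) ℤ) (d : Fin q → Fin w → ℕ),
    (∀ i j, (Fp i j).IsHomogeneous (d i j)) → NCf ℂ sc Gp Fp →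
  ∀ (D : ℕ), (∀ i j, d i j ≤ D) →
  ∀ (x : Fin ν → G), (∀ y, InOrd k g ω (x y)) → x ≠ 0 → (∀ a, evi x (Gp a) = 0) →
  ∀ (ρ : G) (b : Fin q → Fin ν → Fin w → G) (mm M : ℕ), ρ ≠ 0 → InOrd k g ω ρ →
    (∀ i y j, InOrd k g ω (b i y j)) → (∀ i j, M ≤ d i j) →
    (∀ i y, ρ ^ mm * x y ^ M = ∑ j, evi x (Fp i j) * b i y j) →
  ∀ (J : Fin (N + 1) → Fin ν) (y0 : Fin ν),
    ∃ (b1 b2 : MvPolynomial (Fin m) k) (c : Fin m →₀ ℕ)
      (β1 β2 : Fin r × Fin ν × (Fin q → Fin w) → G),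
      b1 ≠ 0 ∧ b2 ≠ 0 ∧ IsRelPrime b1 b2 ∧ (∀ p, IsIntegral (PolR k g) (β1 p)) ∧
      (∀ p, IsIntegral (PolR k g) (β2 p)) ∧
      aeval g (b1 * monomial c 1) *
        ((jetM (fun j => E j) (fun i => x (J i))).det * ρ * x y0 ^ (q * D)) =
          ∑ p : Fin r × Fin ν × (Fin q → Fin w), β1 p * (ω' p.1 * psiF N D Fp d x p.2.1 p.2.2) ∧
      aeval g (b2 * monomial c 1) *
        ((jetM (fun j => E j) (fun i => x (J i))).det * ρ * x y0 ^ (q * D)) =
          ∑ p : Fin r × Fin ν × (Fin q → Fin w), β2 p * (ω' p.1 * psiF N D Fp d x p.2.1 p.2.2)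

end Pool.Agent.Y724.T4
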