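import Mathlib
import Pool.Agent.Y724.T4.SQ7
import Pool.Agent.Y724.T4.Stm5

/-!
# The inequality along a sequence of points over number fields, with truncation
-/

set_option autoImplicit false

namespace Pool.Agent.Y724.T4

open MvPolynomial Filter Topology Pool.Agent.TH932.Germs Pool.Agent.TH551.SU Pool.Agent.Y724.Vj
open Pool.Agent.TH551.SU.SUI NumberField

section out4
variable {L : ℕ → ℝ} {s ν N m r μ sc' gg q w : ℕ}

lemma psiF_uq (K : ℕ → Type) [∀ t, Field (K t)] [∀ t, NumberField (K t)] (D : ℕ)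
    (F : Fin q → Fin w → MvPolynomial (Fin ν) ℤ) (d : Fin q → Fin w → ℕ) (x : ∀ t, Fin ν → K t)
    (y1 : Fin ν) (j : Fin q → Fin w) :
    psiF N D F d (fun y => uq K (fun t => x t y)) y1 j =
      uq K (fun t => psiF N D F d (x t) y1 j) := by
  unfold psiF
  have h1 : ∀ i, evi (fun y => uq K (fun t => x t y)) (F i (j i)) *
      uq K (fun t => x t y1) ^ (D - d i (j i)) =
      uq K (fun t => evi (x t) (F i (j i)) * x t y1 ^ (D - d i (j i))) := by
    intro i
    rw [evi_uq, uq_pow, uq_mul]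
  rw [Finset.prod_congr rfl fun i _ => h1 i, uq_prod, uq_pow, uq_mul]

/-- the inequality outside `S` for one minor and one coordinate -/
lemma out_minor5 (hCDG : S_CDG5) (hARI : S_ARI) (b : Fin s → ℕ)
    (hb : ∀ v, (b v).Prime) (hbi : Function.Injective b) (S : Finset ℕ) (hbS : ∀ v, b v ∈ S)
    (hSb : ∀ p ∈ S, ∃ v, b v = p)
    (hL : Tendsto L atTop atTop) (K : ℕ → Type) [∀ t, Field (K t)] [∀ t, NumberField (K t)]
    (T : Fin m → ℕ → ℚ) (hT : ∀ k n, IsSU b (T k n)) (hTB : ∀ k, Bd L (gm (T k)))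
    (hind : ∀ p : MvPolynomial (Fin m) (KK L hL), aeval (fun k => gm (T k)) p = 0 → p = 0)
    (E : Fin N → Derivation ℚ (UP K) (UP K))
    (hE : ∀ j, Graded (K0 hL K) (fun k => io K (gm (T k))) (E j))
    (hr : 0 < r) (W W' : Fin r → ∀ t, K t) (sc : Fin r → Fin r → Fin r → UP K)
    (hW : ∀ i j, uq K (W i) * uq K (W j) = ∑ l, sc i j l * uq K (W l))
    (hsL : ∀ i j l, sc i j l ∈ Lau (K0 hL K) (fun k => io K (gm (T k))))
    (hli : LinearIndependent (Subfield.closure (Set.range (algebraMap (K0 hL K) (UP K)) ∪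
      Set.range (fun k => io K (gm (T k))))) (fun i => uq K (W i)))
    (hW' : ∀ i, uq K (W i) = ∑ j, trM sc i j * uq K (W' j))
    (hν : ν = (N + 1) + sc') (Gp : Fin gg → MvPolynomial (Fin ν) ℤ) (e : Fin gg → ℕ)
    (hGh : ∀ a, (Gp a).IsHomogeneous (e a)) (F : Fin q → Fin w → MvPolynomial (Fin ν) ℤ)
    (d : Fin q → Fin w → ℕ) (hFh : ∀ i j, (F i j).IsHomogeneous (d i j)) (hnc : NCf ℂ sc' Gp F)
    (D : ℕ) (hD : ∀ i j, d i j ≤ D) (x : ∀ t, Fin ν → K t)
    (hx : ∀ y, InOrd (K0 hL K) (fun k => io K (gm (T k))) (fun i => uq K (W i))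
      (uq K (fun t => x t y)))
    (hx0 : (fun y => uq K (fun t => x t y)) ≠ 0)
    (hGx : ∀ a, evi (fun y => uq K (fun t => x t y)) (Gp a) = 0)
    (ρ : ∀ t, K t) (bb : Fin q → Fin ν → Fin w → ∀ t, K t) (mm M : ℕ) (hρ0 : uq K ρ ≠ 0)
    (hρ : InOrd (K0 hL K) (fun k => io K (gm (T k))) (fun i => uq K (W i)) (uq K ρ))
    (hbb : ∀ i y j, InOrd (K0 hL K) (fun k => io K (gm (T k))) (fun i => uq K (W i))
      (uq K (bb i y j))) (hM : ∀ i j, M ≤ d i j)
    (hfac : ∀ i y, uq K ρ ^ mm * uq K (fun t => x t y) ^ M =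
      ∑ j, evi (fun y => uq K (fun t => x t y)) (F i j) * uq K (bb i y j))
    (TS : ∀ t, Matrix (Fin ν) (Fin (N + 1)) (K t))
    (hTM : ∀ y c, (Fin.cons (uq K (fun t => x t y)) (fun j => E j (uq K (fun t => x t y))) :
      Fin (N + 1) → UP K) c = uq K (fun t => TS t y c))
    (J : Fin (N + 1) → Fin ν) (y0 : Fin ν) :
    ∃ e : ℕ → ℤ, Negl L e ∧ (∀ᶠ t in (UU : Filter ℕ), e t ≠ 0) ∧
      ∀ᶠ t in (UU : Filter ℕ), ∀ v : FinitePlace (K t), v ∉ Over (K t) S →
        v (((TS t).submatrix J id).det * (e t : K t)) * v (ρ t) * v (x t y0) ^ (q * D) ≤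
          (⨆ i, v (W' i t)) * ((⨆ y, v (x t y)) ^ (N + 1) *
            ∏ i, ⨆ j, (v (aeval (x t) (F i j)) * (⨆ y, v (x t y)) ^ (D - d i j))) := by
  classical
  obtain ⟨b1, b2, c, β1, β2, hb1, hb2, hrel, hi1, hi2, h1, h2⟩ :=
    hCDG (UP K) (K0 hL K) m (fun k => io K (gm (T k))) (algInd_io hL _ hind) N E hE r
      (fun i => uq K (W i)) (fun i => uq K (W' i)) sc hW hsL hli hW' ν sc' gg q w hν Gp e hGh F d
      hFh hnc D hD (fun y => uq K (fun t => x t y)) hx hx0 hGx (uq K ρ) (fun i y j => uq K (bb i y j)) mm M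
      hρ0 hρ hbb hM hfac J y0
  have hψ : ∀ p : Fin r × Fin ν × (Fin q → Fin w),
      uq K (W' p.1) * psiF N D F d (fun y => uq K (fun t => x t y)) p.2.1 p.2.2 =
      uq K (fun t => W' p.1 t * psiF N D F d (x t) p.2.1 p.2.2) := fun p => by
    rw [psiF_uq, uq_mul]
  have hdet : (jetM (fun j => E j) (fun i => uq K (fun t => x t (J i)))).det =
      uq K (fun t => ((TS t).submatrix J id).det) := by
    rw [← det_uq]
    congr 1
    ext1 i c
    exact hTM (J i) c
  have hφ : (jetM (fun j => E j) (fun i => uq K (fun t => x t (J i)))).det * uq K ρ *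
      uq K (fun t => x t y0) ^ (q * D) =
      uq K (fun t => ((TS t).submatrix J id).det * ρ t * x t y0 ^ (q * D)) := by
    rw [hdet, uq_pow, uq_mul, uq_mul]
  have hj0 : ∀ i, ∃ _ : Fin w, True := fun i => by
    by_contra hcon
    push Not at hcon
    obtain ⟨y, hy⟩ : ∃ y, uq K (fun t => x t y) ≠ 0 := by
      by_contra h
      push Not at h
      exact hx0 (funext h)
    have h3 := hfac i y
    rw [Finset.sum_eq_zero fun j _ => (hcon j).elim] at h3
    exact mul_ne_zero (pow_ne_zero _ hρ0) (pow_ne_zero _ hy) h3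
  choose j0 _ using hj0
  have hne : Nonempty (Fin r × Fin ν × (Fin q → Fin w)) := ⟨(⟨0, hr⟩, y0, j0)⟩
  obtain ⟨e', he1, he2, he3⟩ := hARI s b hb hbi S hbS hSb L hL K m T hT hTB hind
    (Fin r × Fin ν × (Fin q → Fin w))
    (fun t => ((TS t).submatrix J id).det * ρ t * x t y0 ^ (q * D))
    (fun p t => W' p.1 t * psiF N D F d (x t) p.2.1 p.2.2) b1 b2 c β1 β2 hb1 hb2 hrel hi1 hi2
    ((congrArg _ hφ.symm).trans (h1.trans (Finset.sum_congr rfl fun p _ => by rw [hψ])))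
    ((congrArg _ hφ.symm).trans (h2.trans (Finset.sum_congr rfl fun p _ => by rw [hψ])))
  refine ⟨e', he1, he2, ?_⟩
  filter_upwards [he3] with t ht v hv
  have h3 : v (((TS t).submatrix J id).det * (e' t : K t)) * v (ρ t) * v (x t y0) ^ (q * D) =
      v (((TS t).submatrix J id).det * ρ t * x t y0 ^ (q * D) * (e' t : K t)) := by
    rw [← map_pow, ← map_mul, ← map_mul]
    congr 1
    ring
  rw [h3]
  refine (ht v hv).trans (ciSup_le fun p => ?_)
  rw [map_mul]
  set X : ℝ := ⨆ y, v (x t y) with hX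
  have hX0 : 0 ≤ X := Real.iSup_nonneg fun i => apply_nonneg v _
  have hyX : ∀ y, v (x t y) ≤ X := fun y =>
    le_ciSup (f := fun y => v (x t y)) (Finite.bddAbove_range _) y
  have hsup0 : ∀ i, 0 ≤ ⨆ j, (v (aeval (x t) (F i j)) * X ^ (D - d i j)) := fun i =>
    Real.iSup_nonneg fun j => mul_nonneg (apply_nonneg v _) (pow_nonneg hX0 _)
  refine mul_le_mul ?_ ?_ (apply_nonneg v _) (Real.iSup_nonneg fun i => apply_nonneg v _)
  · exact le_ciSup (f := fun i => v (W' i t)) (Finite.bddAbove_range _) p.1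
  · unfold psiF
    rw [map_mul, map_pow, map_prod]
    refine mul_le_mul (pow_le_pow_left₀ (apply_nonneg v _) (hyX _) _) ?_
      (Finset.prod_nonneg fun i _ => apply_nonneg v _) (pow_nonneg hX0 _)
    refine Finset.prod_le_prod (fun i _ => apply_nonneg v _) fun i _ => ?_
    rw [map_mul, map_pow, ← aeval_evi]
    refine le_trans ?_ (le_ciSup (f := fun j => (v (aeval (x t) (F i j)) * X ^ (D - d i j)))
      (Finite.bddAbove_range _) (p.2.2 i))
    exact mul_le_mul_of_nonneg_left (pow_le_pow_left₀ (apply_nonneg v _) (hyX _) _)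
      (apply_nonneg v _)

end out4

end Pool.Agent.Y724.T4
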