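import Mathlib
import Pool.Agent.Y724.T4.SQ8

/-!
# The inequality along a sequence of points over number fields, with truncation
-/

set_option autoImplicit false

namespace Pool.Agent.Y724.T4

open MvPolynomial Filter Topology Pool.Agent.TH932.Germs Pool.Agent.TH551.SU Pool.Agent.Y724.Vj
open Pool.Agent.TH551.SU.SUI NumberField

variable {L : ℕ → ℝ} {s sc g q w ν N l μ r : ℕ}

set_option maxHeartbeats 8000000 in
/-- **The inequality along a sequence of points over number fields with sparse orders**, with the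
full height of the divisor and an element `ρ` divisible by all places where the point meets it. -/
theorem seq_alg5 (hLD : S_LD) (hGD : S_GD) (hCDG : S_CDG5) (hARI : S_ARI) (hASM : S_ASM3)
    (hPLC : S_PLC) (hFW : S_FW4) (b : Fin s → ℕ)
    (hb : ∀ v, (b v).Prime) (hbi : Function.Injective b) (S : Finset ℕ) (hbS : ∀ v, b v ∈ S)
    (hSb : ∀ p ∈ S, ∃ v, b v = p)
    (hL : Tendsto L atTop atTop) (hν : ν = (N + 1) + sc)
    (Gp : Fin g → MvPolynomial (Fin ν) ℤ)
    (e : Fin g → ℕ) (hGh : ∀ a, (Gp a).IsHomogeneous (e a))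
    (F : Fin q → Fin w → MvPolynomial (Fin ν) ℤ) (d : Fin q → Fin w → ℕ)
    (hFh : ∀ i j, (F i j).IsHomogeneous (d i j)) (hnc : NCf ℂ sc Gp F)
    (K : ℕ → Type) [∀ t, Field (K t)] [∀ t, NumberField (K t)]
    (ω : ∀ t, Module.Basis (Fin r) ℚ (K t)) (zs : ℕ → Fin μ → ℚ)
    (is : Fin r → Fin r → Fin r → Fin μ) (ic : Fin r → Fin ν → Fin μ)
    (rc : Fin r → Fin μ) (bc : Fin r → Fin q → Fin ν → Fin w → Fin μ)
    (x : ∀ t, Fin ν → K t) (ρ : ∀ t, K t) (bb : ∀ t, Fin q → Fin ν → Fin w → K t)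
    (mm M : ℕ) (hM : ∀ i j, M ≤ d i j) (hρ0 : ∀ t, ρ t ≠ 0)
    (hfac : ∀ t i y, ρ t ^ mm * x t y ^ M = ∑ j, aeval (x t) (F i j) * bb t i y j)
    (hρc : ∀ t i, (ω t).repr (ρ t) i = zs t (rc i))
    (hbc : ∀ t i j y h, (ω t).repr (bb t j y h) i = zs t (bc i j y h))
    (hs : ∀ t i j l, (ω t).repr (ω t i * ω t j) l = zs t (is i j l))
    (hc : ∀ t i y, (ω t).repr (x t y) i = zs t (ic i y))
    (U : Fin l → GG) (hUS : ∀ j, GSU b (U j)) (hbd : ∀ j, Bd L (U j))
    (V : Fin l → Fin μ → KK L hL)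
    (hZ : ∀ i, gm (fun t => zs t i) = ∑ j, U j * (V j i : GG))
    (hGx : ∀ t a, aeval (x t) (Gp a) = 0) (J0 : Fin (N + 1) → Fin ν)
    (hgen : ∀ (Φ : MvPolynomial (Fin (N + 1)) ℚ) (e : ℕ), Φ.IsHomogeneous e → Φ ≠ 0 →
      ∀ᶠ t in (UU : Filter ℕ), aeval (fun i => x t (J0 i)) Φ ≠ 0)
    (ε : ℝ) (hε : 0 < ε) :
    ∀ᶠ t in (UU : Filter ℕ), ∀ AA : Matrix (Fin ν) (Fin (N + 1)) (K t),
      LinearIndependent (K t) AA.col →
      (∀ a c, ∑ y, aeval (x t) (pderiv y (Gp a)) * AA y c = 0) →
      ∑ i, (∑ v : InfinitePlace (K t), v.mult * locH (F i) (d i) (x t) v.1 +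
        ∑ᶠ v ∈ Over (K t) S, locH (F i) (d i) (x t) v.1 +
        ∑ᶠ v ∈ (Over (K t) S)ᶜ, locH (F i) (d i) (x t) v.1) +
        Height.logHeight (fun J : Fin (N + 1) → Fin ν => (AA.submatrix J id).det) ≤
        (N + 1 : ℕ) * Height.logHeight (x t) +
          ∑ᶠ v ∈ (Over (K t) S)ᶜ, Real.log (⨆ i, v ((ω t).traceDual i)) -
          ∑ᶠ v ∈ (Over (K t) S)ᶜ, Real.log (v (ρ t)) + ε * L t := by
  classical
  have hSp : ∀ p ∈ S, p.Prime := by
    intro p hp
    obtain ⟨v, rfl⟩ := hSb p hp
    exact hb v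
  have hr : ∀ t, Module.finrank ℚ (K t) = r := fun t => by
    rw [Module.finrank_eq_card_basis (ω t), Fintype.card_fin]
  have hr0 : 0 < r := by
    rw [← hr 0]
    exact Module.finrank_pos
  -- germs
  set Z : Fin μ → GG := fun i => gm (fun t => zs t i) with hZdef
  set W : Fin r → ∀ t, K t := fun i t => ω t i with hWdef
  set W' : Fin r → ∀ t, K t := fun i t => (ω t).traceDual i with hW'def
  have hioZ : ∀ i, io K (Z i) = uq K (fun t => (zs t i : K t)) := by
    intro i
    rw [hZdef]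
    simp only
    rw [io_gm]
  have hX : ∀ y, uq K (fun t => x t y) = ∑ i, io K (Z (ic i y)) * uq K (W i) := by
    intro y
    have h1 : ∀ i, io K (Z (ic i y)) * uq K (W i) =
        uq K (fun t => (zs t (ic i y) : K t) * ω t i) := fun i => by
      rw [hioZ, uq_mul]
    rw [Finset.sum_congr rfl fun i _ => h1 i, uq_sum]
    congr 1
    funext t
    exact (repr_rel (ω t) (x t y)).trans (Finset.sum_congr rfl fun i _ => by rw [hc])
  have hWm : ∀ i j, uq K (W i) * uq K (W j) = ∑ l, io K (Z (is i j l)) * uq K (W l) := by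
    intro i j
    have h1 : ∀ l, io K (Z (is i j l)) * uq K (W l) =
        uq K (fun t => (zs t (is i j l) : K t) * ω t l) := fun l => by
      rw [hioZ, uq_mul]
    rw [Finset.sum_congr rfl fun l _ => h1 l, uq_sum, uq_mul]
    congr 1
    funext t
    exact (mul_rel (ω t) i j).trans (Finset.sum_congr rfl fun l _ => by rw [hs])
  have hWd : ∀ i, uq K (W i) = ∑ j, trM (fun i j l => io K (Z (is i j l))) i j * uq K (W' j) := by
    intro i
    have h1 : ∀ j, trM (fun i j l => io K (Z (is i j l))) i j =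
        uq K (fun t => trM (fun i j l => (zs t (is i j l) : K t)) i j) := by
      intro j
      unfold trM
      have h2 : ∀ h, io K (Z (is i j h)) * ∑ l, io K (Z (is h l l)) =
          uq K (fun t => (zs t (is i j h) : K t) * ∑ l, (zs t (is h l l) : K t)) := by
        intro h
        rw [Finset.sum_congr rfl fun l _ => hioZ (is h l l), uq_sum, hioZ, uq_mul]
      rw [Finset.sum_congr rfl fun h _ => h2 h, uq_sum]
    have h3 : ∀ j, trM (fun i j l => io K (Z (is i j l))) i j * uq K (W' j) =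
        uq K (fun t => trM (fun i j l => (zs t (is i j l) : K t)) i j * (ω t).traceDual j) := by
      intro j
      rw [h1, uq_mul]
    rw [Finset.sum_congr rfl fun j _ => h3 j, uq_sum]
    congr 1
    funext t
    refine (dual_rel (ω t) i).trans (Finset.sum_congr rfl fun j _ => ?_)
    congr 1
    unfold trM
    simp only [hs]
    push_cast
    rfl
  obtain ⟨σ, hσ⟩ := exists_scaleK (K := K) (fun i t => x t (J0 i)) hgen
  have hU0 : ∀ j, U j ≠ 0 := fun j => gsu_ne_zero hb (hUS j)
  obtain ⟨m, T, hT, hTB, hind, hrel⟩ := exists_mult_basis b hb hbi hL U hUS hbd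
  choose κ a hκa using hrel
  have hTS : ∀ k, GSU b (gm (T k)) := fun k => ⟨T k, rfl, hT k⟩
  have hT0 : ∀ k, gm (T k) ≠ 0 := fun k => gsu_ne_zero hb (hTS k)
  have hgI : AlgebraicIndependent (K0 hL K) (fun k => io K (gm (T k))) := algInd_io hL _ hind
  have hu' : ∀ j, io K (U j) = algebraMap (K0 hL K) (UP K) (psi hL K (κ j)) *
      ∏ k, io K (gm (T k)) ^ a j k := by
    intro j
    change io K (U j) = ((psi hL K (κ j) : K0 hL K) : UP K) * ∏ k, (io K (gm (T k))) ^ a j k
    rw [hκa j, map_mul, map_prod, psi_coe]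
    congr 1
    exact Finset.prod_congr rfl fun k _ => map_zpow₀ _ _ _
  have hzV : ∀ i, io K (Z i) = ∑ j, io K (U j) *
      algebraMap (K0 hL K) (UP K) (psi hL K (V j i)) := by
    intro i
    change io K (Z i) = ∑ j, io K (U j) * io K (V j i : GG)
    rw [show Z i = ∑ j, U j * (V j i : GG) from hZ i, map_sum]
    exact Finset.sum_congr rfl fun j _ => map_mul _ _ _
  have hzL : ∀ i, io K (Z i) ∈ Lau (K0 hL K) (fun k => io K (gm (T k))) := fun i =>
    z_mem_Lau (g := fun k => io K (gm (T k))) (u := fun j => io K (U j))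
      (κ := fun j => psi hL K (κ j)) (a := a) (V := fun j i => psi hL K (V j i))
      (z := fun i => io K (Z i)) (fun i => hgI.ne_zero i) hu' hzV i
  have hzC : ∀ i, io K (Z i) ∈ Subfield.closure
      (Set.range (algebraMap (K0 hL K) (UP K)) ∪ Set.range (fun k => io K (gm (T k)))) := fun i =>
    z_mem_closure (g := fun k => io K (gm (T k))) (u := fun j => io K (U j))
      (κ := fun j => psi hL K (κ j)) (a := a) (V := fun j i => psi hL K (V j i))
      (z := fun i => io K (Z i)) hu' hzV i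
  have hord : ∀ (y : ∀ t, K t) (c : Fin r → Fin μ), (∀ t i, (ω t).repr (y t) i = zs t (c i)) →
      InOrd (K0 hL K) (fun k => io K (gm (T k))) (fun i => uq K (W i)) (uq K y) := by
    intro y c hy
    refine ⟨fun i => io K (Z (c i)), fun i => hzL _, ?_⟩
    have h1 : ∀ i, io K (Z (c i)) * uq K (W i) =
        uq K (fun t => (zs t (c i) : K t) * ω t i) := fun i => by
      rw [hioZ, uq_mul]
    rw [Finset.sum_congr rfl fun i _ => h1 i, uq_sum]
    congr 1
    funext t
    exact (repr_rel (ω t) (y t)).trans (Finset.sum_congr rfl fun i _ => by rw [hy])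
  -- directions
  obtain ⟨E, hEg, hdet⟩ := grad_dirs3 (g := fun k => io K (gm (T k))) (u := fun j => io K (U j))
    (κ := fun j => psi hL K (κ j)) (a := a) (V := fun j i => psi hL K (V j i))
    (z := fun i => io K (Z i)) hGD hgI hu' hzV (fun i => uq K (fun t => x t (J0 i)))
    (fun Δ hΔ y => kill3 (fun i => io K (Z i)) (fun i => uq K (W i)) is ic hWm
      (fun y => uq K (fun t => x t y)) hX Δ hΔ (J0 y)) σ hσ
  -- sequences
  choose tsq htsq using fun (y : Fin ν) (c : Fin N) => uq_surj (E c (uq K (fun t => x t y)))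
  set TS : ∀ t, Matrix (Fin ν) (Fin (N + 1)) (K t) := fun t => Matrix.of fun y c =>
    (Fin.cons (x t y) (fun j => tsq y j t) : Fin (N + 1) → K t) c with hTSdef
  have hTM : ∀ y c, (Fin.cons (uq K (fun t => x t y)) (fun j => E j (uq K (fun t => x t y))) :
      Fin (N + 1) → UP K) c = uq K (fun t => TS t y c) := by
    intro y c
    refine Fin.cases ?_ (fun c => ?_) c
    · rw [Fin.cons_zero]
      rfl
    · rw [Fin.cons_succ, ← htsq]
      rfl
  have hdet1 : ∀ᶠ t in (UU : Filter ℕ), ((TS t).submatrix J0 id).det ≠ 0 := by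
    have h1 : (jetM (fun j => E j) (fun i => uq K (fun t => x t (J0 i)))).det =
        uq K (fun t => ((TS t).submatrix J0 id).det) := by
      rw [← det_uq]
      congr 1
      ext1 i c
      exact hTM (J0 i) c
    rw [h1, uq_ne_zero] at hdet
    exact hdet
  have hWint := fun i => basis_integral (Lau (K0 hL K) (fun k => io K (gm (T k))))
    (fun i => uq K (W i)) (fun i j l => io K (Z (is i j l))) (fun i j l => hzL _) hWm i
  have hder' : ∀ (v0 : Option (Fin s)) (a : ∀ t, AbsoluteValue (K t) ℝ) (ex : ℕ → ℕ) (R : ℕ),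
      Res a (wv b hb v0) ex R → ∀ (P : MvPolynomial (Fin ν) ℤ) (d : ℕ), P.IsHomogeneous d →
      ∀ c, (OU L hL a).valuation (∑ y, evi (fun y => uq K (fun t => x t y)) (pderiv y P) *
        uq K (fun t => TS t y c)) ≤
      (OU L hL a).valuation (evi (fun y => uq K (fun t => x t y)) P) := by
    intro v0 a0 ex R hres P d hP c
    set A := OU L hL a0 with hA
    have h0 : ∀ y, uq K (fun t => TS t y c) = (Fin.cons (uq K (fun t => x t y))
        (fun j => E j (uq K (fun t => x t y))) : Fin (N + 1) → UP K) c := fun y =>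
      (hTM y c).symm
    rw [Finset.sum_congr rfl fun y _ => by rw [h0 y]]
    refine Fin.cases ?_ (fun c => ?_) c
    · simp only [Fin.cons_zero]
      have h1 := form_dir (0 : Derivation ℚ (UP K) (UP K)) (fun y => uq K (fun t => x t y)) 1 P d hP
      simp only [Derivation.coe_zero, Pi.zero_apply, zero_add, one_mul] at h1
      rw [h1, map_mul]
      exact mul_le_of_le_one_left' ((A.valuation_le_one_iff _).2 (natCast_mem A d))
    · simp only [Fin.cons_succ]
      have h1 := form_dir (E c) (fun y => uq K (fun t => x t y)) 0 P d hP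
      simp only [zero_mul, add_zero] at h1
      rw [h1]
      have hpl := pl_wv b hb v0
      choose γ hγ using fun k => exists_weight hL hpl (hTB k) (hT0 k)
      have hA0 : ∀ b : K0 hL K, algebraMap (K0 hL K) (UP K) b ∈ A := by
        rintro ⟨_, y, hy, rfl⟩
        exact (mem_OU_io hL hres y).2 (KK_le hL hpl hy)
      have hA1 : ∀ (p : MvPolynomial (Fin m) (K0 hL K)), ∀ α ∈ p.support,
          A.valuation (∏ i, io K (gm (T i)) ^ α i) ≤
            A.valuation (aeval (fun k => io K (gm (T k))) p) := by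
        intro p α hα
        obtain ⟨p, rfl⟩ := map_surjective _ (psi_surj hL K) p
        rw [aeval_psi, io_prod_pow, val_io_le hL hres]
        exact lb_mono hL b hb hbi (fun k => gm (T k)) hTS hTB hind v0 p α
          (support_map_subset _ _ hα)
      have hA2 : ∀ α β : Fin m →₀ ℕ, A.valuation (∏ i, io K (gm (T i)) ^ α i) ≤
          A.valuation (∏ i, io K (gm (T i)) ^ β i) ↔
          ∑ i, (α i : ℝ) * γ i ≤ ∑ i, (β i : ℝ) * γ i := by
        intro α β
        rw [io_prod_pow, io_prod_pow, val_io_le hL hres]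
        exact mono_le_iff hL _ T hT0 γ hγ α β
      refine grad_ld hLD hgI (hEg c) A γ hA0 hA1 hA2 _ ?_
      exact integral_form3 (Lau (K0 hL K) (fun k => io K (gm (T k)))) (fun i => uq K (W i))
        (fun i y => io K (Z (ic i y))) hWint (fun i y => hzL _)
        (fun y => uq K (fun t => x t y)) hX P
  -- nonzero coordinate
  have hn : 0 < N + 1 := Nat.succ_pos N
  have hx0 : ∀ᶠ t in (UU : Filter ℕ), x t (J0 ⟨0, hn⟩) ≠ 0 := by
    have h1 := hgen (X ⟨0, hn⟩) 1 (isHomogeneous_X _ _) (X_ne_zero _)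
    simpa only [aeval_X] using h1
  have hGx' : ∀ t a, evi (x t) (Gp a) = 0 := fun t a => by
    rw [← aeval_evi]
    exact hGx t a
  -- infinite places
  choose finf hfinf using fun t => exists_inf (F := K t) r (hr t)
  have hgrad : ∀ᶠ t in (UU : Filter ℕ), ∀ a c,
      ∑ y, evi (x t) (pderiv y (Gp a)) * TS t y c = 0 := by
    refine eventually_all.2 fun a => eventually_all.2 fun c => ?_
    have h1 := hder' none _ _ 1 (res_inf b hb (fun t => finf t ⟨0, hr0⟩)) (Gp a) (e a) (hGh a) c
    rw [evi_uq, uq_eq_zero.2 (Eventually.of_forall fun t => hGx' t a), map_zero] at h1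
    have h2 := le_antisymm h1 zero_le
    rw [Valuation.zero_iff] at h2
    have h4 : ∀ y, evi (fun y => uq K (fun t => x t y)) (pderiv y (Gp a)) *
        uq K (fun t => TS t y c) = uq K (fun t => evi (x t) (pderiv y (Gp a)) * TS t y c) := by
      intro y
      rw [evi_uq, uq_mul]
    rw [Finset.sum_congr rfl fun y _ => h4 y, uq_sum, uq_eq_zero] at h2
    exact h2
  set δ : ℝ := ε / 2 / (r * (S.card + 1)) with hδ
  have hrR : (0 : ℝ) < r := by exact_mod_cast hr0
  have hδ0 : 0 < δ := by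
    rw [hδ]
    positivity
  have hinf : ∀ᶠ t in (UU : Filter ℕ), ∀ k : Fin r, AtPl F d (x t) (TS t) (finf t k).1 (δ * L t) := by
    refine eventually_all.2 fun k => ?_
    have hres := res_inf (K := K) b hb (fun t => finf t k)
    exact atpl_ev hL hν hn Gp e hGh F d hFh hnc x TS hGx' J0 hx0 hdet1 hres (pl_wv b hb none)
      (hder' none _ _ 1 hres) δ hδ0
  -- finite places
  have hfinx : ∀ (v : Fin s) (t : ℕ), ∃ f : Fin r → FinitePlace (K t), ∀ u : FinitePlace (K t),
      u ((b v : ℕ) : K t) < 1 ↔ ∃ i, f i = u := by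
    intro v t
    have h1 := hPLC.1 (K t) (b v) (hb v)
    rw [hr t] at h1
    exact h1
  choose ffin hffin using hfinx
  have hex : ∀ (v : Fin s) (k : Fin r) (t : ℕ), ∃ e : ℕ, 1 ≤ e ∧ e ≤ r ∧
      ∀ q : ℚ, ffin v t k (q : K t) = (padicNorm (b v) q : ℝ) ^ e := by
    intro v k t
    have h1 := hPLC.2 (K t) (b v) (hb v) (ffin v t k) ((hffin v t _).2 ⟨k, rfl⟩)
    rw [hr t] at h1
    exact h1
  choose ex hex1 hex2 hex3 using hex
  have hfin : ∀ᶠ t in (UU : Filter ℕ), ∀ (v : Fin s) (k : Fin r),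
      AtPl F d (x t) (TS t) (ffin v t k).1 (δ * L t) := by
    refine eventually_all.2 fun v => eventually_all.2 fun k => ?_
    have hres : Res (fun t => (ffin v t k).1) (wv b hb (some v)) (ex v k) r :=
      { one_le := hex1 v k
        le := hex2 v k
        eq := fun t q => by
          rw [wv_some]
          exact hex3 v k t q }
    exact atpl_ev hL hν hn Gp e hGh F d hFh hnc x TS hGx' J0 hx0 hdet1 hres (pl_wv b hb _)
      (hder' (some v) _ _ r hres) δ hδ0
  -- places outside `S`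
  set D : ℕ := ∑ i, ∑ j, d i j with hD
  have hdD : ∀ i j, d i j ≤ D := fun i j =>
    (Finset.single_le_sum (f := fun j => d i j) (fun _ _ => Nat.zero_le _)
      (Finset.mem_univ j)).trans
      (Finset.single_le_sum (f := fun i => ∑ j, d i j) (fun _ _ => Nat.zero_le _)
        (Finset.mem_univ i))
  have hxne : (fun y => uq K (fun t => x t y)) ≠ 0 := by
    intro h0
    have h1 := congrFun h0 (J0 ⟨0, hn⟩)
    exact (uq_ne_zero.2 hx0) h1
  have hGu : ∀ a, evi (fun y => uq K (fun t => x t y)) (Gp a) = 0 := fun a => by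
    rw [evi_uq, uq_eq_zero]
    exact Eventually.of_forall fun t => hGx' t a
  have hρne : uq K ρ ≠ 0 := uq_ne_zero.2 (Eventually.of_forall hρ0)
  have hfacu : ∀ i y, uq K ρ ^ mm * uq K (fun t => x t y) ^ M =
      ∑ j, evi (fun y => uq K (fun t => x t y)) (F i j) * uq K (fun t => bb t i y j) := by
    intro i y
    have h1 : ∀ j, evi (fun y => uq K (fun t => x t y)) (F i j) * uq K (fun t => bb t i y j) =
        uq K (fun t => evi (x t) (F i j) * bb t i y j) := fun j => by
      rw [evi_uq, uq_mul]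
    rw [Finset.sum_congr rfl fun j _ => h1 j, uq_sum, uq_pow, uq_pow, uq_mul, uq_eq]
    refine Eventually.of_forall fun t => ?_
    change ρ t ^ mm * x t y ^ M = ∑ j, evi (x t) (F i j) * bb t i y j
    rw [hfac t i y]
    exact Finset.sum_congr rfl fun j _ => by rw [aeval_evi]
  have hout : ∀ p : (Fin (N + 1) → Fin ν) × Fin ν, ∃ e : ℕ → ℤ, Negl L e ∧
      (∀ᶠ t in (UU : Filter ℕ), e t ≠ 0) ∧
      ∀ᶠ t in (UU : Filter ℕ), ∀ v : FinitePlace (K t), v ∉ Over (K t) S →
        v (((TS t).submatrix p.1 id).det * (e t : K t)) * v (ρ t) * v (x t p.2) ^ (q * D) ≤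
          (⨆ i, v ((ω t).traceDual i)) * ((⨆ y, v (x t y)) ^ (N + 1) *
            ∏ i, ⨆ j, (v (aeval (x t) (F i j)) * (⨆ y, v (x t y)) ^ (D - d i j))) := by
    intro p
    exact out_minor5 hCDG hARI b hb hbi S hbS hSb hL K T hT hTB hind E hEg hr0 W W'
      (fun i j l => io K (Z (is i j l))) hWm (fun i j l => hzL _) (li_uq hL K ω T) hWd
      hν Gp e hGh F d hFh hnc D hdD x (fun y => hord (fun t => x t y) (fun i => ic i y)
        (fun t i => hc t i y)) hxne hGu ρ (fun i y j t => bb t i y j) mm M hρne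
      (hord ρ rc hρc) (fun i y j => hord (fun t => bb t i y j) (fun k => bc k i y j)
        (fun t k => hbc t k i y j)) hM hfacu TS hTM p.1 p.2
  choose eJ heN he0 heJ using hout
  set et : ℕ → ℤ := fun t => ∏ J, eJ J t with het
  have hetN : Negl L et := Negl.prod hL _ fun J _ => heN J
  have hr1 : (0 : ℝ) < (r : ℝ) + 1 := by positivity
  have hetb : ∀ᶠ t in (UU : Filter ℕ), |(et t : ℝ)| ≤ Real.exp (ε / 2 / (r + 1) * L t) :=
    hetN _ (by positivity)
  filter_upwards [hx0, hdet1, hgrad, hinf, hfin, L_nonneg hL, eventually_all.2 he0,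
    eventually_all.2 heJ, hetb] with t h1 h2 h3 h4 h5 h6 h7 h8 h9
  intro AA hAA hGA
  have het0 : et t ≠ 0 := Finset.prod_ne_zero_iff.2 fun J _ => h7 J
  have hetK : (et t : K t) ≠ 0 := by exact_mod_cast het0
  have hW'0 : (fun i => (ω t).traceDual i) ≠ 0 := by
    intro h0
    exact (ω t).traceDual.ne_zero ⟨0, hr0⟩ (congrFun h0 ⟨0, hr0⟩)
  have hxt0 : x t ≠ 0 := by
    intro h0
    apply h1
    rw [h0]
    rfl
  have hFne : ∀ i, ∃ j, aeval (x t) (F i j) ≠ 0 := by
    intro i
    by_contra hcon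
    push Not at hcon
    obtain ⟨y, hy⟩ : ∃ y, x t y ≠ 0 := by
      by_contra h
      push Not at h
      exact hxt0 (funext h)
    have h3 := hfac t i y
    rw [Finset.sum_eq_zero fun j _ => by rw [hcon j, zero_mul]] at h3
    exact mul_ne_zero (pow_ne_zero _ (hρ0 t)) (pow_ne_zero _ hy) h3
  obtain ⟨hfW, hposW, hsW⟩ := hFW (K t) S hSp r hr0 (hr t) (fun i => (ω t).traceDual i) hW'0
    (et t) het0 ν q w F d (x t) hxt0 hFne (ρ t) (hρ0 t)
  have hpos1 : ∀ v : FinitePlace (K t), 0 < ⨆ i, v ((ω t).traceDual i) := fun v =>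
    sup_pos hW'0 v.1
  have hpos2 : ∀ v : FinitePlace (K t), 0 < v (et t : K t) := fun v => v.1.pos hetK
  have hpos3 : ∀ v : FinitePlace (K t), 0 < v (ρ t) := fun v => v.1.pos (hρ0 t)
  have hposX : ∀ v : FinitePlace (K t), 0 < ⨆ y, v (x t y) := fun v => sup_pos hxt0 v.1
  have hout : ∀ v : FinitePlace (K t), v ∉ Over (K t) S → ∀ J : Fin (N + 1) → Fin ν,
      v ((TS t).submatrix J id).det ≤ (((⨆ i, v ((ω t).traceDual i)) / v (et t : K t)) *
        (∏ i, ⨆ j, v (aeval (x t) (F i j)) / (⨆ y, v (x t y)) ^ d i j) / v (ρ t)) *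
        (⨆ i, v (x t i)) ^ (N + 1) := by
    intro v hv J
    set X : ℝ := ⨆ y, v (x t y) with hX
    have hXp : 0 < X := hposX v
    obtain ⟨y0, hy0⟩ : ∃ y0, v (x t y0) = X := by
      have hne : Nonempty (Fin ν) := ⟨J0 ⟨0, hn⟩⟩
      obtain ⟨y0, hy0⟩ := exists_eq_ciSup_of_finite (f := fun y => v (x t y))
      exact ⟨y0, hy0⟩
    have h10 := h8 (J, y0) v hv
    rw [hy0] at h10
    have h12 : (et t : K t) = (eJ (J, y0) t : K t) *
        ((∏ p ∈ Finset.univ.erase (J, y0), eJ p t : ℤ) : K t) := by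
      rw [het]
      simp only
      rw [← Finset.mul_prod_erase _ _ (Finset.mem_univ (J, y0))]
      push_cast
      rfl
    have h13 : v (((TS t).submatrix J id).det * (et t : K t)) ≤
        v (((TS t).submatrix J id).det * (eJ (J, y0) t : K t)) := by
      rw [h12, ← mul_assoc,
        map_mul v _ ((∏ p ∈ Finset.univ.erase (J, y0), eJ p t : ℤ) : K t)]
      exact mul_le_of_le_one_right (apply_nonneg v _) (int_place_le v _)
    have h14 : v (((TS t).submatrix J id).det * (et t : K t)) * v (ρ t) * X ^ (q * D) ≤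
        (⨆ i, v ((ω t).traceDual i)) * (X ^ (N + 1) *
            ∏ i, ⨆ j, (v (aeval (x t) (F i j)) * X ^ (D - d i j))) := by
      refine le_trans ?_ h10
      exact mul_le_mul_of_nonneg_right (mul_le_mul_of_nonneg_right h13 (apply_nonneg v _))
        (pow_nonneg hXp.le _)
    have h15 : ∏ i, ⨆ j, (v (aeval (x t) (F i j)) * X ^ (D - d i j)) =
        X ^ (q * D) * ∏ i, ⨆ j, v (aeval (x t) (F i j)) / X ^ d i j := by
      have h16 : ∀ i, ⨆ j, (v (aeval (x t) (F i j)) * X ^ (D - d i j)) =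
          X ^ D * ⨆ j, v (aeval (x t) (F i j)) / X ^ d i j := by
        intro i
        rw [Real.mul_iSup_of_nonneg (pow_nonneg hXp.le _)]
        congr 1
        funext j
        have h17 : X ^ D = X ^ (D - d i j) * X ^ d i j := by
          rw [← pow_add, Nat.sub_add_cancel (hdD i j)]
        rw [h17]
        field_simp
      rw [Finset.prod_congr rfl fun i _ => h16 i, Finset.prod_mul_distrib, Finset.prod_const,
        Finset.card_univ, Fintype.card_fin, ← pow_mul, mul_comm D q]
    rw [h15, map_mul] at h14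
    set Pf : ℝ := ∏ i, ⨆ j, v (aeval (x t) (F i j)) / X ^ d i j with hPf
    have hXq : 0 < X ^ (q * D) := pow_pos hXp _
    have h18 : v ((TS t).submatrix J id).det * v (et t : K t) * v (ρ t) ≤
        (⨆ i, v ((ω t).traceDual i)) * (X ^ (N + 1) * Pf) := by
      refine le_of_mul_le_mul_right ?_ hXq
      calc v ((TS t).submatrix J id).det * v (et t : K t) * v (ρ t) * X ^ (q * D) ≤
          (⨆ i, v ((ω t).traceDual i)) * (X ^ (N + 1) * (X ^ (q * D) * Pf)) := h14
        _ = (⨆ i, v ((ω t).traceDual i)) * (X ^ (N + 1) * Pf) * X ^ (q * D) := by ring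
    have h19 : ((⨆ i, v ((ω t).traceDual i)) / v (et t : K t)) * Pf / v (ρ t) * X ^ (N + 1) =
        ((⨆ i, v ((ω t).traceDual i)) * (X ^ (N + 1) * Pf)) / (v (et t : K t) * v (ρ t)) := by
      have := (hpos2 v).ne'
      have := (hpos3 v).ne'
      field_simp
    rw [h19, le_div_iff₀ (mul_pos (hpos2 v) (hpos3 v)), ← mul_assoc]
    exact h18
  have key := hASM ν (N + 1) sc g q w hν Gp F d hnc (K t) S hSp (x t) hxt0 (hGx t) (TS t) (by
      intro a c
      have := h3 a c
      simpa only [aeval_evi] using this) J0 h2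
    (fun v => ((⨆ i, v ((ω t).traceDual i)) / v (et t : K t)) *
        (∏ i, ⨆ j, v (aeval (x t) (F i j)) / (⨆ y, v (x t y)) ^ d i j) / v (ρ t))
    hposW hfW hout (δ * L t)
    (by positivity) (by
      intro v
      obtain ⟨k, rfl⟩ := hfinf t v
      exact h4 k) (by
      rintro v ⟨p, hp, hvp⟩
      obtain ⟨v', rfl⟩ := hSb p hp
      obtain ⟨k, rfl⟩ := (hffin v' t v).1 hvp
      exact h5 v' k) AA hAA hGA
  rw [hr t] at key
  have h11 : Real.log |(et t : ℝ)| ≤ ε / 2 / (r + 1) * L t := by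
    rw [Real.log_le_iff_le_exp]
    · exact h9
    · exact abs_pos.2 (by exact_mod_cast het0)
  have h12 : (r : ℝ) * Real.log |(et t : ℝ)| ≤ ε / 2 * L t := by
    have h13 : (r : ℝ) * Real.log |(et t : ℝ)| ≤ r * (ε / 2 / (r + 1) * L t) :=
      mul_le_mul_of_nonneg_left h11 hrR.le
    have h14 : (r : ℝ) * (ε / 2 / (r + 1) * L t) ≤ (r + 1) * (ε / 2 / (r + 1) * L t) :=
      mul_le_mul_of_nonneg_right (by linarith) (by positivity)
    have h15 : ((r : ℝ) + 1) * (ε / 2 / (r + 1) * L t) = ε / 2 * L t := by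
      field_simp
    linarith
  have h16 : (r : ℝ) * (S.card + 1) * (δ * L t) = ε / 2 * L t := by
    rw [hδ]
    field_simp
  rw [h16] at key
  rw [Finset.sum_add_distrib]
  linarith

end Pool.Agent.Y724.T4
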