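import Mathlib
import Pool.Agent.Y724.T4.SQ9
import Pool.Agent.Y724.T4.FIN2

/-!
# Vojta's inequality at sparse points over number fields of bounded degree, with truncation
-/

set_option autoImplicit false

namespace Pool.Agent.Y724.T4

open MvPolynomial Filter Topology Pool.Agent.TH932.Germs Pool.Agent.TH551.SU Pool.Agent.Y724.Vj
open Pool.Agent.TH551.SU.SUI NumberField

/-- the structure constants of a basis and the coordinates of a family of elements -/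
noncomputable def prmF {K : Type} [Field K] [NumberField K] {r : ℕ} {κ : Type}
    (ω : Module.Basis (Fin r) ℚ K) (y : κ → K) :
    (Fin r × Fin r × Fin r) ⊕ (κ × Fin r) → ℚ :=
  Sum.elim (fun t => ω.repr (ω t.1 * ω t.2.1) t.2.2) (fun t => ω.repr (y t.1) t.2)

/-- the coordinates of `x`, the numbers `b i y j` and the number `ρ` -/
def dat7 {K : Type} {ν q w : ℕ} (x : Fin ν → K) (b : Fin q → Fin ν → Fin w → K) (ρ : K) :
    Fin ν ⊕ (Fin q × Fin ν × Fin w) ⊕ Unit → K :=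
  Sum.elim x (Sum.elim (fun t => b t.1 t.2.1 t.2.2) (fun _ => ρ))

/-- a number field with a basis, a vector, a number and further elements -/
structure Pt7 (r ν q w : ℕ) where
  K : Type
  [fld : Field K]
  [nf : NumberField K]
  ω : Module.Basis (Fin r) ℚ K
  x : Fin ν → K
  ρ : K
  bb : Fin q → Fin ν → Fin w → K

attribute [instance] Pt7.fld Pt7.nf

variable {s sc g q w ν N r : ℕ}

/-- **The main inequality with truncation.** -/
theorem main7a (hCDG : S_CDG5) (hFW : S_FW4) (b : Fin s → ℕ)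
    (hb : ∀ v, (b v).Prime) (hbi : Function.Injective b) (S : Finset ℕ) (hbS : ∀ v, b v ∈ S)
    (hSb : ∀ p ∈ S, ∃ v, b v = p)
    (hν : ν = (N + 1) + sc)
    (Gp : Fin g → MvPolynomial (Fin ν) ℤ)
    (e : Fin g → ℕ) (hGh : ∀ a, (Gp a).IsHomogeneous (e a))
    (F : Fin q → Fin w → MvPolynomial (Fin ν) ℤ) (d : Fin q → Fin w → ℕ)
    (hFh : ∀ i j, (F i j).IsHomogeneous (d i j)) (hnc : NCf ℂ sc Gp F) (mm M : ℕ)
    (hM : ∀ i j, M ≤ d i j)
    (J0 : Fin (N + 1) → Fin ν) (B : ℝ) (hB : 1 ≤ B) (ε : ℝ) (hε : 0 < ε) (l : ℕ) (hr : 0 < r) :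
    ∃ (δ : ℝ) (Ψ : MvPolynomial (Fin (N + 1)) ℚ) (k : ℕ) (C : ℝ), 0 < δ ∧ Ψ ≠ 0 ∧
      Ψ.IsHomogeneous k ∧
      ∀ (K : Type) [Field K] [NumberField K] (ω : Module.Basis (Fin r) ℚ K) (x : Fin ν → K)
        (ρ : K) (bb : Fin q → Fin ν → Fin w → K),
        (∀ a, aeval x (Gp a) = 0) → ρ ≠ 0 →
        (∀ i y, ρ ^ mm * x y ^ M = ∑ j, aeval x (F i j) * bb i y j) →
        ShortI b l B δ (prmF ω (dat7 x bb ρ)) →
        aeval (fun i => x (J0 i)) Ψ ≠ 0 →
        ∀ AA : Matrix (Fin ν) (Fin (N + 1)) K, LinearIndependent K AA.col →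
          (∀ a c, ∑ y, aeval x (pderiv y (Gp a)) * AA y c = 0) →
          ∑ i, (∑ v : InfinitePlace K, v.mult * locH (F i) (d i) x v.1 +
            ∑ᶠ v ∈ Over K S, locH (F i) (d i) x v.1 +
            ∑ᶠ v ∈ (Over K S)ᶜ, locH (F i) (d i) x v.1) +
            Height.logHeight (fun J : Fin (N + 1) → Fin ν => (AA.submatrix J id).det) ≤
            (N + 1 : ℕ) * Height.logHeight x +
              ∑ᶠ v ∈ (Over K S)ᶜ, Real.log (⨆ i, v (ω.traceDual i)) -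
              ∑ᶠ v ∈ (Over K S)ᶜ, Real.log (v ρ) +
                (ε * Real.log (sz (prmF ω (dat7 x bb ρ)) : ℝ) + C) := by
  classical
  set ι := (Fin r × Fin r × Fin r) ⊕ ((Fin ν ⊕ (Fin q × Fin ν × Fin w) ⊕ Unit) × Fin r) with hι
  have hne : Nonempty ι := ⟨Sum.inl (⟨0, hr⟩, ⟨0, hr⟩, ⟨0, hr⟩)⟩
  set μ := Fintype.card ι with hμ
  let eq : Fin μ ≃ ι := (Fintype.equivFin ι).symm
  let Q := {P : Pt7 r ν q w // (∀ a, aeval P.x (Gp a) = 0) ∧ P.ρ ≠ 0 ∧
    ∀ i y, P.ρ ^ mm * P.x y ^ M = ∑ j, aeval P.x (F i j) * P.bb i y j}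
  let z : Q → Fin μ → ℚ := fun P i =>
    prmF P.1.ω (dat7 P.1.x P.1.bb P.1.ρ) (eq i)
  let NV : Q → MvPolynomial (Fin (N + 1)) ℚ → Prop := fun P Φ =>
    aeval (fun i => P.1.x (J0 i)) Φ ≠ 0
  let I : Q → ℝ → Prop := fun P a =>
    ∀ AA : Matrix (Fin ν) (Fin (N + 1)) P.1.K, LinearIndependent P.1.K AA.col →
      (∀ a c, ∑ y, aeval P.1.x (pderiv y (Gp a)) * AA y c = 0) →
      ∑ i, (∑ v : InfinitePlace P.1.K, v.mult * locH (F i) (d i) P.1.x v.1 +
        ∑ᶠ v ∈ Over P.1.K S, locH (F i) (d i) P.1.x v.1 +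
        ∑ᶠ v ∈ (Over P.1.K S)ᶜ, locH (F i) (d i) P.1.x v.1) +
        Height.logHeight (fun J : Fin (N + 1) → Fin ν => (AA.submatrix J id).det) ≤
        (N + 1 : ℕ) * Height.logHeight P.1.x +
          ∑ᶠ v ∈ (Over P.1.K S)ᶜ, Real.log (⨆ i, v (P.1.ω.traceDual i)) -
          ∑ᶠ v ∈ (Over P.1.K S)ᶜ, Real.log (v P.1.ρ) + a
  have hI : ∀ P a a', a ≤ a' → I P a → I P a' := by
    intro P a a' haa h AA h1 h2
    exact (h AA h1 h2).trans (add_le_add le_rfl haa)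
  have hNV : ∀ P Φ Φ', NV P (Φ * Φ') → NV P Φ := by
    intro P Φ Φ' h h0
    apply h
    rw [map_mul, h0, zero_mul]
  have hseq : SeqIneq b z NV I := by
    intro l L hL P U hUS hbd V hZ hgen ε hε
    have := seq_alg5 (r := r) (ld ldd) gd hCDG ari (asm3 plc) plc hFW b hb hbi S hbS
      hSb hL hν Gp e hGh F d hFh hnc (fun t => (P t).1.K) (fun t => (P t).1.ω)
      (fun t => z (P t)) (fun i j l => eq.symm (Sum.inl (i, j, l)))
      (fun i y => eq.symm (Sum.inr (Sum.inl y, i)))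
      (fun i => eq.symm (Sum.inr (Sum.inr (Sum.inr ()), i)))
      (fun i j y h => eq.symm (Sum.inr (Sum.inr (Sum.inl (j, y, h)), i)))
      (fun t => (P t).1.x) (fun t => (P t).1.ρ) (fun t => (P t).1.bb) mm M
      hM (fun t => (P t).2.2.1) (fun t i y => (P t).2.2.2 i y)
      (fun t i => by
        change _ = prmF (P t).1.ω _ (eq (eq.symm (Sum.inr (Sum.inr (Sum.inr ()), i))))
        rw [Equiv.apply_symm_apply]
        rfl)
      (fun t i j y h => by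
        change _ = prmF (P t).1.ω _ (eq (eq.symm (Sum.inr (Sum.inr (Sum.inl (j, y, h)), i))))
        rw [Equiv.apply_symm_apply]
        rfl)
      (fun t i j l => by
        change _ = prmF (P t).1.ω _ (eq (eq.symm (Sum.inl (i, j, l))))
        rw [Equiv.apply_symm_apply]
        rfl)
      (fun t i y => by
        change _ = prmF (P t).1.ω _ (eq (eq.symm (Sum.inr (Sum.inl y, i))))
        rw [Equiv.apply_symm_apply]
        rfl)
      U hUS hbd V hZ (fun t a => (P t).2.1 a) J0 hgen ε hε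
    exact this
  obtain ⟨δ, Ψ, k, C, hδ, hΨ0, hΨh, hPP⟩ := all_PPB b hb hbi z NV I hI hNV hseq B hB ε hε l
  refine ⟨δ, Ψ, k, C, hδ, hΨ0, hΨh, ?_⟩
  intro K _ _ ω x ρ bb hx hρ0 hfac hsh hΨx
  have hsz : hq (z ⟨⟨K, ω, x, ρ, bb⟩, hx, hρ0, hfac⟩) =
      sz (prmF ω (dat7 x bb ρ)) := hq_comp eq (prmF ω _)
  have h1 := hPP ⟨⟨K, ω, x, ρ, bb⟩, hx, hρ0, hfac⟩ (by
    obtain ⟨u, m, h1, h2, h3⟩ := hsh
    refine ⟨u, fun j i => m j (eq i), h1, fun j i => ?_, fun i => h3 (eq i)⟩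
    rw [hsz]
    exact h2 j (eq i)) hΨx
  rw [hsz] at h1
  exact h1

end Pool.Agent.Y724.T4
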