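import Mathlib
import Pool.Agent.Y724.T4.FIN4

/-!
# Integrality outside `S`, and the truncated counting function
-/

set_option autoImplicit false

namespace Pool.Agent.Y724.T4

open MvPolynomial Pool.Agent.Y724.Vj NumberField Pool.Agent.TH551.SU

section loc5
variable {F : Type} [Field F] [NumberField F] {r s l : ℕ}

lemma sum_place_le {ι : Type} (v : FinitePlace F) (A : Finset ι) (f : ι → F) (M : ℝ) (hM : 0 ≤ M)
    (h : ∀ i ∈ A, v (f i) ≤ M) : v (∑ i ∈ A, f i) ≤ M := by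
  refine Finset.sum_induction f (fun x => v x ≤ M) (fun a b ha hb => ?_) ?_ h
  · exact (FinitePlace.add_le v a b).trans (max_le ha hb)
  · rw [map_zero]
    exact hM

/-- sums of units with integer coefficients are integral at the places outside `S` -/
lemma short_place_le {ι : Type} [Fintype ι] (b : Fin s → ℕ) (S : Finset ℕ) (hbS : ∀ v, b v ∈ S)
    {B δ : ℝ} {z : ι → ℚ} (h : ShortI b l B δ z) (i : ι) (v : FinitePlace F)
    (hv : v ∉ Over F S) : v ((z i : ℚ) : F) ≤ 1 := by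
  obtain ⟨u, m, hu, _, hz⟩ := h
  rw [hz i]
  push_cast
  refine sum_place_le v _ _ 1 zero_le_one fun j _ => ?_
  have h1 : v ((u j : ℚ) : F) = 1 := by
    have hpr : ∀ k, v ((b k : ℕ) : F) = 1 := by
      intro k
      refine le_antisymm (by simpa using int_place_le v (b k : ℤ)) ?_
      by_contra hcon
      push Not at hcon
      exact hv ⟨b k, hbS k, hcon⟩
    obtain ⟨σ, e, hσ, h2⟩ := hu j
    rw [h2]
    push_cast
    rw [map_mul, map_prod]
    have h2 : ∀ k, v (((b k : ℕ) : F) ^ e k) = 1 := by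
      intro k
      rw [map_zpow₀, hpr k, one_zpow]
    rw [Finset.prod_congr rfl fun k _ => h2 k, Finset.prod_const_one, mul_one]
    rcases hσ with rfl | rfl
    · simp
    · simp [map_neg_eq_map]
  rw [map_mul, h1, one_mul]
  exact int_place_le v _

/-- the elements of a basis with integral multiplication table are integral -/
lemma basis_place_le (ω : Module.Basis (Fin r) ℚ F) (v : FinitePlace F)
    (h : ∀ i j l, v ((ω.repr (ω i * ω j) l : ℚ) : F) ≤ 1) (i : Fin r) : v (ω i) ≤ 1 := by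
  classical
  have hne : Nonempty (Fin r) := ⟨i⟩
  obtain ⟨i0, hi0⟩ := exists_eq_ciSup_of_finite (f := fun i => v (ω i))
  have hmax : ∀ j, v (ω j) ≤ v (ω i0) := fun j => by
    have h1 := le_ciSup (f := fun i => v (ω i)) (Finite.bddAbove_range _) j
    rw [← hi0] at h1
    exact h1
  refine (hmax i).trans ?_
  have h1 : v (ω i0 * ω i0) ≤ v (ω i0) := by
    rw [mul_rel ω i0 i0]
    refine sum_place_le v _ _ _ (apply_nonneg v _) fun l _ => ?_
    rw [map_mul]
    calc v ((ω.repr (ω i0 * ω i0) l : ℚ) : F) * v (ω l) ≤ 1 * v (ω i0) :=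
          mul_le_mul (h _ _ _) (hmax l) (apply_nonneg v _) zero_le_one
      _ = v (ω i0) := one_mul _
  rw [map_mul] at h1
  have h2 : 0 < v (ω i0) := v.1.pos (ω.ne_zero i0)
  exact le_of_mul_le_mul_right (by rw [one_mul]; exact h1) h2

lemma elem_place_le (ω : Module.Basis (Fin r) ℚ F) (v : FinitePlace F) (y : F)
    (h : ∀ i, v (ω i) ≤ 1) (hy : ∀ i, v ((ω.repr y i : ℚ) : F) ≤ 1) : v y ≤ 1 := by
  rw [repr_rel ω y]
  refine sum_place_le v _ _ 1 zero_le_one fun l _ => ?_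
  rw [map_mul]
  exact mul_le_one₀ (hy l) (apply_nonneg v _) (h l)

/-- the truncation -/
lemma trunc_le (S : Finset ℕ) (ρ : F) (hρ : ρ ≠ 0) (h1 : ∀ v ∉ Over F S, v ρ ≤ 1)
    (P : FinitePlace F → Prop) (hP : {v | v ∉ Over F S ∧ P v}.Finite)
    (h : ∀ v ∉ Over F S, v ρ < 1 →
      ((Ideal.absNorm v.maximalIdeal.asIdeal : ℕ) : ℝ)⁻¹ ≤ v ρ ∧ P v) :
    -∑ᶠ v ∈ (Over F S)ᶜ, Real.log (v ρ) ≤
      ∑ᶠ v ∈ {v | v ∉ Over F S ∧ P v},
        Real.log ((Ideal.absNorm v.maximalIdeal.asIdeal : ℕ) : ℝ) := by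
  classical
  have hfin := fin_ne_one hρ
  have hsupp : ((Over F S)ᶜ ∩ Function.support fun v : FinitePlace F => Real.log (v ρ)).Finite := by
    refine hfin.subset fun v hv => ?_
    intro h3
    apply hv.2
    change Real.log (v ρ) = 0
    rw [h3, Real.log_one]
  rw [finsum_mem_eq_sum _ hsupp, finsum_mem_eq_finite_toFinset_sum _ hP, ← Finset.sum_neg_distrib]
  have hsub : hsupp.toFinset ⊆ hP.toFinset := by
    intro v hv
    rw [Set.Finite.mem_toFinset] at hv ⊢
    have h2 : v ρ ≠ 1 := fun h3 => hv.2 (by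
      change Real.log (v ρ) = 0
      rw [h3, Real.log_one])
    exact ⟨hv.1, (h v hv.1 (lt_of_le_of_ne (h1 v hv.1) h2)).2⟩
  have hN : ∀ v : FinitePlace F, (1 : ℝ) ≤ ((Ideal.absNorm v.maximalIdeal.asIdeal : ℕ) : ℝ) := by
    intro v
    have h3 : Ideal.absNorm v.maximalIdeal.asIdeal ≠ 0 := by
      rw [Ne, Ideal.absNorm_eq_zero_iff]
      exact v.maximalIdeal.ne_bot
    exact_mod_cast Nat.one_le_iff_ne_zero.2 h3
  refine (Finset.sum_le_sum fun v hv => ?_).trans
    (Finset.sum_le_sum_of_subset_of_nonneg hsub fun v _ _ => Real.log_nonneg (hN v))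
  rw [Set.Finite.mem_toFinset] at hv
  have h2 : v ρ ≠ 1 := fun h3 => hv.2 (by
    change Real.log (v ρ) = 0
    rw [h3, Real.log_one])
  have h3 := (h v hv.1 (lt_of_le_of_ne (h1 v hv.1) h2)).1
  have h4 : 0 < v ρ := v.1.pos hρ
  have h5 := Real.log_le_log (inv_pos.2 (lt_of_lt_of_le one_pos (hN v))) h3
  rw [Real.log_inv] at h5
  linarith

/-- local heights vanish at almost all places -/
lemma locH_fin {ν w : ℕ} (Fp : Fin w → MvPolynomial (Fin ν) ℤ) (d : Fin w → ℕ) (x : Fin ν → F)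
    (hx : x ≠ 0) (hF : ∃ j, aeval x (Fp j) ≠ 0) :
    {v : FinitePlace F | locH Fp d x v.1 ≠ 0}.Finite := by
  classical
  have h1 := sup_fin hx
  have h2 : (fun j => aeval x (Fp j)) ≠ 0 := by
    obtain ⟨j, hj⟩ := hF
    exact fun h0 => hj (congrFun h0 j)
  have h3 := sup_fin h2
  refine (h1.union h3).subset fun v hv => ?_
  by_contra hcon
  rw [Set.mem_union, not_or] at hcon
  obtain ⟨h4, h5⟩ := hcon
  apply hv
  have h6 : (⨆ i, v (x i)) = 1 := by
    by_contra h
    exact h4 h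
  have h7 : (⨆ j, v (aeval x (Fp j))) = 1 := by
    by_contra h
    exact h5 h
  unfold locH
  change -Real.log (⨆ j, v (aeval x (Fp j)) / (⨆ i, v (x i)) ^ d j) = 0
  rw [h6]
  have h8 : ∀ j, v (aeval x (Fp j)) / (1 : ℝ) ^ d j = v (aeval x (Fp j)) := fun j => by
    rw [one_pow, div_one]
  simp_rw [h8]
  rw [h7, Real.log_one, neg_zero]

end loc5

end Pool.Agent.Y724.T4
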