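import Mathlib
import Pool.Agent.Y724.T4.Stm5
import Pool.Agent.Y724.T4.CDG4

/-!
# The global form of the bound for the determinant, with a divisor, general form

The local bound `S_CD5` is used at the localisations of the ring of the polynomials in the `g i`
at the prime elements which do not divide the variables, and the local multipliers are put
together by `S_GB`.
-/

set_option autoImplicit false

namespace Pool.Agent.Y724.T4

open Polynomial
open Pool.Agent.Y724.Vj

namespace CDG5p

open CDGp CDG4p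

section loc4

variable {A F G O : Type} [CommRing A] [IsDomain A] [Field F] [Algebra A F] [IsFractionRing A F]
  [Field G] [CharZero G] [Algebra ℚ G] [Algebra A G] [Algebra F G] [IsScalarTower A F G]
  [CommRing O] [IsDomain O] [IsDiscreteValuationRing O] [Algebra A O] [Algebra O F]
  [IsFractionRing O F] [Algebra O G] [IsScalarTower O F G] [IsScalarTower A O G]

theorem local_five (h1 : S_CD5) (M : Submonoid A) [IsLocalization M O]
    (hinj : Function.Injective (algebraMap A G)) (hM : M ≤ nonZeroDivisors A)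
    (hnat : ∀ n : ℕ, n ≠ 0 → IsUnit (n : O)) {N : ℕ} (E : Fin N → Derivation ℚ G G)
    (hE : ∀ j (a : A), ∃ b : A, E j (algebraMap A G a) = algebraMap A G b)
    (L : IntermediateField F G) [FiniteDimensional F L] {r : ℕ} (hr : Module.finrank F L = r)
    (ω d : Fin r → L) (hω : ∀ i, IsIntegral O (ω i : G))
    (htr : ∀ i j, Algebra.trace F L (ω i * d j) = if i = j then 1 else 0)
    {ν sc gg q w : ℕ} (hν : ν = (N + 1) + sc) (Gp : Fin gg → MvPolynomial (Fin ν) ℤ)
    (e : Fin gg → ℕ) (he : ∀ a, (Gp a).IsHomogeneous (e a))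
    (Fp : Fin q → Fin w → MvPolynomial (Fin ν) ℤ) (dd : Fin q → Fin w → ℕ)
    (hdd : ∀ i j, (Fp i j).IsHomogeneous (dd i j)) (hnc : NCf ℂ sc Gp Fp) (D : ℕ)
    (hD : ∀ i j, dd i j ≤ D) (x : Fin ν → G) (hxL : ∀ i, x i ∈ L)
    (hxO : ∀ i, IsIntegral O (x i)) (hx0 : x ≠ 0) (hxG : ∀ a, evi x (Gp a) = 0)
    (ρ : G) (hρL : ρ ∈ L) (hρO : IsIntegral O ρ) (b : Fin q → Fin ν → Fin w → G)
    (hbL : ∀ i y j, b i y j ∈ L) (hbO : ∀ i y j, IsIntegral O (b i y j)) (mm M₀ : ℕ)
    (hM₀ : ∀ i j, M₀ ≤ dd i j) (hb : ∀ i y, ρ ^ mm * x y ^ M₀ = ∑ j, evi x (Fp i j) * b i y j)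
    (J : Fin (N + 1) → Fin ν) (y0 : Fin ν) :
    ∃ s ∈ M, ∃ β : Fin r × Fin ν × (Fin q → Fin w) → G, (∀ t, IsIntegral A (β t)) ∧
      algebraMap A G s * ((jetM (fun j => E j) (fun i => x (J i))).det * ρ * x y0 ^ (q * D)) =
        ∑ t : Fin r × Fin ν × (Fin q → Fin w),
          β t * ((d t.1 : G) * psiF N D Fp dd x t.2.1 t.2.2) := by
  classical
  have hch : CharZero F := (algebraMap F G).charZero
  have hres : ∀ j, ∀ y ∈ L, E j y ∈ L := fun j => der_alg (A := A) (E j) (hE j) L
  have htow : IsScalarTower O L G := IsScalarTower.of_algebraMap_eq fun _ => rfl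
  let xL : Fin ν → L := fun i => ⟨x i, hxL i⟩
  let ρL : L := ⟨ρ, hρL⟩
  let bL : Fin q → Fin ν → Fin w → L := fun i y j => ⟨b i y j, hbL i y j⟩
  have hevi : ∀ P : MvPolynomial (Fin ν) ℤ, algebraMap L G (evi xL P) = evi x P := fun P =>
    map_evi (algebraMap L G) xL P
  have hinjL : Function.Injective (algebraMap L G) := (algebraMap L G).injective
  have key := h1 O F L hnat N (fun j => resD L (E j) (hres j)) (by
    intro j a
    obtain ⟨b, hb⟩ := der_loc M hinj hM (E j) (hE j) a
    refine ⟨b, Subtype.ext ?_⟩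
    rw [resD_coe]
    exact hb) r ω d hr (fun i => (isIntegral_algebraMap_iff (algebraMap L G).injective).1 (hω i))
    htr ν sc gg q w hν Gp e he Fp dd hdd hnc D hD xL
    (fun i => (isIntegral_algebraMap_iff (algebraMap L G).injective).1 (hxO i))
    (by
      intro h
      apply hx0
      funext i
      have h2 := congrFun h i
      exact congrArg Subtype.val h2)
    (by
      intro a
      apply hinjL
      rw [hevi, hxG, map_zero])
    ρL bL mm M₀ ((isIntegral_algebraMap_iff (algebraMap L G).injective).1 hρO)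
    (fun i y j => (isIntegral_algebraMap_iff (algebraMap L G).injective).1 (hbO i y j)) hM₀
    (by
      intro i y
      apply hinjL
      rw [map_mul, map_pow, map_pow, map_sum]
      refine (hb i y).trans (Finset.sum_congr rfl fun j _ => ?_)
      rw [map_mul, hevi]
      rfl)
    J y0
  obtain ⟨cf, hcf⟩ := (Submodule.mem_span_range_iff_exists_fun _).1 key
  -- the identity in `G`
  have hdet : algebraMap L G (jetM (fun j => resD L (E j) (hres j))
      (fun i => xL (J i))).det = (jetM (fun j => E j) (fun i => x (J i))).det := by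
    have e1 := RingHom.map_det (algebraMap L G)
      (jetM (fun j => resD L (E j) (hres j)) (fun i => xL (J i)))
    refine e1.trans ?_
    congr 1
    ext i c
    refine Fin.cases ?_ (fun j => ?_) c
    · rfl
    · rfl
  have hmain : (jetM (fun j => E j) (fun i => x (J i))).det * ρ * x y0 ^ (q * D) =
      ∑ t : Fin r × Fin ν × (Fin q → Fin w),
        ((cf t : L) : G) * ((d t.1 : G) * psiF N D Fp dd x t.2.1 t.2.2) := by
    have e1 := congrArg (algebraMap L G) hcf
    rw [map_sum, map_mul, map_mul, hdet, map_pow] at e1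
    refine Eq.trans ?_ (e1.symm.trans ?_)
    · rfl
    · refine Finset.sum_congr rfl fun t _ => ?_
      rw [Algebra.smul_def, map_mul, map_mul, map_psiF]
      rfl
  obtain ⟨s, hs, hint2⟩ := common M (fun t => ((cf t : L) : G)) (fun t => by
    have e1 : IsIntegral O (cf t : L) := (cf t).2
    exact e1.map (IsScalarTower.toAlgHom O L G))
  refine ⟨s, hs, fun t => algebraMap A G s * ((cf t : L) : G), hint2, ?_⟩
  rw [hmain, Finset.mul_sum]
  exact Finset.sum_congr rfl fun t _ => by ring

end loc4

section glob4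

variable {A G : Type} [CommRing A] [IsDomain A] [Field G] [CharZero G] [Algebra ℚ G] [Algebra A G]

theorem glob_five [IsNoetherianRing A] (h1 : S_CD5)
    (hinj : Function.Injective (algebraMap A G))
    (hnat : ∀ n : ℕ, n ≠ 0 → IsUnit (n : A)) {N : ℕ} (E : Fin N → Derivation ℚ G G)
    (hE : ∀ j (a : A), ∃ b : A, E j (algebraMap A G a) = algebraMap A G b) (S : Set A)
    (h0 : ∀ c ∈ S, c ≠ 0) {r : ℕ} (ω ω' : Fin r → G) (s : Fin r → Fin r → Fin r → G)
    (hs : ∀ i j, ω i * ω j = ∑ l, s i j l * ω l)
    (hsS : ∀ i j l, ∃ c ∈ S, ∃ P : A, s i j l * algebraMap A G c = algebraMap A G P)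
    (hli : LinearIndependent (Subfield.closure (Set.range (algebraMap A G))) ω)
    (hω' : ∀ i, ω i = ∑ j, trM s i j * ω' j)
    {ν sc gg q w : ℕ} (hν : ν = (N + 1) + sc) (Gp : Fin gg → MvPolynomial (Fin ν) ℤ)
    (e : Fin gg → ℕ) (he : ∀ a, (Gp a).IsHomogeneous (e a))
    (Fp : Fin q → Fin w → MvPolynomial (Fin ν) ℤ) (dd : Fin q → Fin w → ℕ)
    (hdd : ∀ i j, (Fp i j).IsHomogeneous (dd i j)) (hnc : NCf ℂ sc Gp Fp) (D : ℕ)
    (hD : ∀ i j, dd i j ≤ D) (x : Fin ν → G) (hx : ∀ y, InS S ω (x y)) (hx0 : x ≠ 0)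
    (hxG : ∀ a, evi x (Gp a) = 0) (ρ : G) (b : Fin q → Fin ν → Fin w → G) (mm M₀ : ℕ)
    (hρ0 : ρ ≠ 0) (hρ : InS S ω ρ) (hbS : ∀ i y j, InS S ω (b i y j))
    (hM₀ : ∀ i j, M₀ ≤ dd i j) (hb : ∀ i y, ρ ^ mm * x y ^ M₀ = ∑ j, evi x (Fp i j) * b i y j)
    (J : Fin (N + 1) → Fin ν) (y0 : Fin ν) :
    (∃ (s : A) (β : Fin r × Fin ν × (Fin q → Fin w) → G), s ≠ 0 ∧ (∀ t, IsIntegral A (β t)) ∧
      algebraMap A G s * ((jetM (fun j => E j) (fun i => x (J i))).det * ρ * x y0 ^ (q * D)) =
        ∑ t : Fin r × Fin ν × (Fin q → Fin w),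
          β t * (ω' t.1 * psiF N D Fp dd x t.2.1 t.2.2)) ∧
    (∀ p : A, Prime p → (∀ c ∈ S, ¬ p ∣ c) →
      ∃ (s : A) (β : Fin r × Fin ν × (Fin q → Fin w) → G), ¬ p ∣ s ∧
      (∀ t, IsIntegral A (β t)) ∧
      algebraMap A G s * ((jetM (fun j => E j) (fun i => x (J i))).det * ρ * x y0 ^ (q * D)) =
        ∑ t : Fin r × Fin ν × (Fin q → Fin w),
          β t * (ω' t.1 * psiF N D Fp dd x t.2.1 t.2.2)) := by
  classical
  have hfs : FaithfulSMul A G := (faithfulSMul_iff_algebraMap_injective A G).2 hinj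
  let _ : Algebra (FractionRing A) G := FractionRing.liftAlgebra A G
  have hst : IsScalarTower A (FractionRing A) G := FractionRing.isScalarTower_liftAlgebra A G
  have hch : CharZero (FractionRing A) := (algebraMap (FractionRing A) G).charZero
  -- the two descriptions of the field of fractions
  have hF1 : ∀ y ∈ Subfield.closure (Set.range (algebraMap A G)),
      ∃ z : FractionRing A, y = algebraMap (FractionRing A) G z := by
    intro y hy
    have hle : Subfield.closure (Set.range (algebraMap A G)) ≤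
        (algebraMap (FractionRing A) G).fieldRange := by
      rw [Subfield.closure_le]
      rintro _ ⟨a, rfl⟩
      exact ⟨algebraMap A (FractionRing A) a,
        (IsScalarTower.algebraMap_apply A (FractionRing A) G a).symm⟩
    obtain ⟨z, hz⟩ := hle hy
    exact ⟨z, hz.symm⟩
  have hF2 : ∀ z : FractionRing A,
      algebraMap (FractionRing A) G z ∈ Subfield.closure (Set.range (algebraMap A G)) := by
    intro z
    obtain ⟨a, b, hb, rfl⟩ := IsFractionRing.div_surjective A z
    rw [map_div₀, ← IsScalarTower.algebraMap_apply, ← IsScalarTower.algebraMap_apply]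
    exact div_mem (Subfield.subset_closure ⟨a, rfl⟩) (Subfield.subset_closure ⟨b, rfl⟩)
  have hsF : ∀ i j l, ∃ z : FractionRing A, s i j l = algebraMap (FractionRing A) G z := by
    intro i j l
    obtain ⟨c, hc, P, hP⟩ := hsS i j l
    have hc0 : algebraMap A G c ≠ 0 := by
      intro h
      exact h0 c hc (hinj (by rw [h, map_zero]))
    refine ⟨algebraMap A (FractionRing A) P / algebraMap A (FractionRing A) c, ?_⟩
    rw [map_div₀, ← IsScalarTower.algebraMap_apply, ← IsScalarTower.algebraMap_apply,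
      eq_div_iff hc0, hP]
  choose sF hsF using hsF
  have hInSspan : ∀ y, InS S ω y → y ∈ Submodule.span (FractionRing A) (Set.range ω) := by
    rintro y ⟨c, hc, rfl⟩
    refine Submodule.sum_mem _ fun j _ => ?_
    obtain ⟨c', hc', P, hP⟩ := hc j
    have hc0 : algebraMap A G c' ≠ 0 := by
      intro h
      exact h0 c' hc' (hinj (by rw [h, map_zero]))
    have hz : c j = algebraMap (FractionRing A) G
        (algebraMap A (FractionRing A) P / algebraMap A (FractionRing A) c') := by
      rw [map_div₀, ← IsScalarTower.algebraMap_apply, ← IsScalarTower.algebraMap_apply,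
        eq_div_iff hc0, hP]
    rw [hz, ← Algebra.smul_def]
    exact Submodule.smul_mem _ _ (Submodule.subset_span ⟨j, rfl⟩)
  have hxS : ∀ i, x i ∈ Submodule.span (FractionRing A) (Set.range ω) := fun i =>
    hInSspan _ (hx i)
  obtain ⟨i₀, hi₀⟩ : ∃ i, x i ≠ 0 := by
    by_contra hcon
    push Not at hcon
    exact hx0 (funext hcon)
  obtain ⟨L, hL⟩ := exists_field (F := FractionRing A) ω sF (fun i j => by
    rw [hs]
    exact Finset.sum_congr rfl fun l _ => by rw [Algebra.smul_def, hsF])
    ⟨x i₀, hxS i₀, hi₀⟩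
  have hmemL : ∀ y : G, y ∈ L ↔ y ∈ Submodule.span (FractionRing A) (Set.range ω) := by
    intro y
    rw [← hL]
    rfl
  have hωL : ∀ i, ω i ∈ L := fun i => (hmemL _).2 (Submodule.subset_span ⟨i, rfl⟩)
  have hliF : LinearIndependent (FractionRing A) (fun i => (⟨ω i, hωL i⟩ : L)) := by
    apply LinearIndependent.of_comp L.val.toLinearMap
    rw [Fintype.linearIndependent_iff]
    intro c hc
    have h2 := Fintype.linearIndependent_iff.1 hli
      (fun i => ⟨algebraMap (FractionRing A) G (c i), hF2 (c i)⟩) (by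
        refine Eq.trans (Finset.sum_congr rfl fun i _ => ?_) hc
        show algebraMap (FractionRing A) G (c i) * ω i = c i • ω i
        rw [Algebra.smul_def])
    intro i
    have h3 : algebraMap (FractionRing A) G (c i) = 0 := congrArg Subtype.val (h2 i)
    exact (map_eq_zero _).1 h3
  have hsp : (⊤ : Submodule (FractionRing A) L) ≤
      Submodule.span (FractionRing A) (Set.range (fun i => (⟨ω i, hωL i⟩ : L))) := by
    rintro y -
    have h2 : (y : G) ∈ Submodule.map L.val.toLinearMap
        (Submodule.span (FractionRing A) (Set.range (fun i => (⟨ω i, hωL i⟩ : L)))) := by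
      rw [Submodule.map_span, ← Set.range_comp]
      exact (hmemL _).1 y.2
    obtain ⟨z, hz, hzy⟩ := h2
    have : z = y := Subtype.ext hzy
    rwa [← this]
  have hsL : ∀ i j, (⟨ω i, hωL i⟩ : L) * ⟨ω j, hωL j⟩ =
      ∑ l, sF i j l • (⟨ω l, hωL l⟩ : L) := by
    intro i j
    apply Subtype.ext
    have e1 : ((∑ l, sF i j l • (⟨ω l, hωL l⟩ : L) : L) : G) = ∑ l, sF i j l • ω l := by
      have := map_sum (algebraMap L G) (fun l => sF i j l • (⟨ω l, hωL l⟩ : L)) Finset.univ
      exact this
    rw [e1]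
    show ω i * ω j = _
    rw [hs]
    exact Finset.sum_congr rfl fun l _ => by rw [Algebra.smul_def, hsF]
  have htrm : ∀ i j, trM s i j = algebraMap (FractionRing A) G (trM sF i j) := by
    intro i j
    unfold trM
    rw [map_sum]
    refine Finset.sum_congr rfl fun h _ => ?_
    rw [map_mul, map_sum, hsF]
    congr 1
    exact Finset.sum_congr rfl fun l _ => hsF _ _ _
  obtain ⟨hfd, hrank, d, hd1, hd0, hdtr⟩ := dual_basis L (fun i => (⟨ω i, hωL i⟩ : L)) hliF hsp sF
    hsL ω' (fun i => by
      show ω i = _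
      rw [hω']
      exact Finset.sum_congr rfl fun j _ => by rw [Algebra.smul_def, htrm])
  have hxL : ∀ i, x i ∈ L := fun i => (hmemL _).2 (hxS i)
  have hρL : ρ ∈ L := (hmemL _).2 (hInSspan _ hρ)
  have hbL : ∀ i y j, b i y j ∈ L := fun i y j => (hmemL _).2 (hInSspan _ (hbS i y j))
  have heviL : ∀ P : MvPolynomial (Fin ν) ℤ, evi x P ∈ L := by
    intro P
    have h3 := map_evi (algebraMap L G) (fun i => (⟨x i, hxL i⟩ : L)) P
    have h4 : evi x P = algebraMap L G (evi (fun i => (⟨x i, hxL i⟩ : L)) P) := h3.symm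
    rw [h4]
    exact (evi (fun i => (⟨x i, hxL i⟩ : L)) P).2
  refine ⟨?_, ?_⟩
  · -- one multiplier
    have hres : ∀ j, ∀ y ∈ L, E j y ∈ L := fun j => der_alg (A := A) (E j) (hE j) L
    have hdet : (jetM (fun j => E j) (fun i => x (J i))).det ∈ L := by
      rw [Matrix.det_apply]
      refine sum_mem fun σ _ => ?_
      rw [Units.smul_def, zsmul_eq_mul]
      refine mul_mem (intCast_mem _ _) (prod_mem fun i _ => ?_)
      show (Fin.cons (x (J (σ i))) (fun j => E j (x (J (σ i)))) : Fin (N + 1) → G) i ∈ L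
      refine Fin.cases ?_ (fun j => ?_) i
      · exact hxL _
      · exact hres j _ (hxL _)
    obtain ⟨i₁⟩ : Nonempty (Fin r) := by
      by_contra hcon
      rw [not_nonempty_iff] at hcon
      obtain ⟨c, -, hxc⟩ := hx i₀
      apply hi₀
      rw [hxc, Finset.univ_eq_empty, Finset.sum_empty]
    have hex : ∀ i, ∃ j, evi x (Fp i j) ≠ 0 := by
      intro i
      by_contra hcon
      push Not at hcon
      have h5 := hb i i₀
      rw [Finset.sum_eq_zero fun j _ => by rw [hcon j, zero_mul]] at h5
      exact mul_ne_zero (pow_ne_zero mm hρ0) (pow_ne_zero M₀ hi₀) h5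
    choose jj hjj using hex
    have hw0 : ω' i₁ ≠ 0 := by
      rw [← hd1]
      intro h
      exact hd0 i₁ (Subtype.ext h)
    have hwL : ω' i₁ ∈ L := by
      rw [← hd1]
      exact (d i₁).2
    have hpsi0 : psiF N D Fp dd x i₀ jj ≠ 0 := by
      unfold psiF
      refine mul_ne_zero (pow_ne_zero _ hi₀) (Finset.prod_ne_zero_iff.2 fun i _ => ?_)
      exact mul_ne_zero (hjj i) (pow_ne_zero _ hi₀)
    have hpsiL : psiF N D Fp dd x i₀ jj ∈ L := by
      unfold psiF
      exact mul_mem (pow_mem (hxL _) _) (prod_mem fun i _ => mul_mem (heviL _)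
        (pow_mem (hxL _) _))
    set φ : G := (jetM (fun j => E j) (fun i => x (J i))).det * ρ * x y0 ^ (q * D) with hφ
    have hφL : φ ∈ L := mul_mem (mul_mem hdet hρL) (pow_mem (hxL _) _)
    set z : G := φ / (ω' i₁ * psiF N D Fp dd x i₀ jj) with hz
    have hz0 : (ω' i₁ * psiF N D Fp dd x i₀ jj) ≠ 0 := mul_ne_zero hw0 hpsi0
    have hzL : z ∈ L := div_mem hφL (mul_mem hwL hpsiL)
    have halg : IsAlgebraic A z := by
      have e1 : IsAlgebraic (FractionRing A) (⟨z, hzL⟩ : L) :=
        Algebra.IsAlgebraic.isAlgebraic _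
      have e2 : IsAlgebraic (FractionRing A) z := e1.algebraMap (A := G)
      exact (IsFractionRing.isAlgebraic_iff A (FractionRing A) G).2 e2
    obtain ⟨y, hy, hy2⟩ := halg.exists_integral_multiple
    refine ⟨y, fun t => if t = (i₁, i₀, jj) then y • z else 0, hy, ?_, ?_⟩
    · intro t
      simp only
      split_ifs
      · exact hy2
      · exact isIntegral_zero
    · rw [Finset.sum_eq_single (i₁, i₀, jj)]
      · beta_reduce
        rw [if_pos rfl, Algebra.smul_def, mul_assoc, hz, div_mul_cancel₀ _ hz0]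
      · intro t _ ht
        beta_reduce
        rw [if_neg ht, zero_mul]
      · intro h
        exact absurd (Finset.mem_univ _) h
  · -- the local multipliers
    intro p hp hpS
    have hpr : (Ideal.span {p}).IsPrime := (Ideal.span_singleton_prime hp.ne_zero).2 hp
    have hdvr : IsDiscreteValuationRing (Localization.AtPrime (Ideal.span {p})) :=
      dvrP hp _ rfl
    let _ : Algebra (Localization.AtPrime (Ideal.span {p})) G :=
      ((algebraMap (FractionRing A) G).comp
        (algebraMap (Localization.AtPrime (Ideal.span {p})) (FractionRing A))).toAlgebra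
    have t1 : IsScalarTower (Localization.AtPrime (Ideal.span {p})) (FractionRing A) G :=
      IsScalarTower.of_algebraMap_eq fun _ => rfl
    have t2 : IsScalarTower A (Localization.AtPrime (Ideal.span {p})) G :=
      IsScalarTower.of_algebraMap_eq fun a => by
        show algebraMap A G a = algebraMap (FractionRing A) G
          (algebraMap (Localization.AtPrime (Ideal.span {p})) (FractionRing A)
            (algebraMap A (Localization.AtPrime (Ideal.span {p})) a))
        rw [← IsScalarTower.algebraMap_apply A (Localization.AtPrime (Ideal.span {p}))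
          (FractionRing A) a]
        exact IsScalarTower.algebraMap_apply A (FractionRing A) G a
    have t3 : IsFractionRing (Localization.AtPrime (Ideal.span {p})) (FractionRing A) :=
      IsFractionRing.isFractionRing_of_isDomain_of_isLocalization (Ideal.span {p}).primeCompl _ _
    have hsO : ∀ i j l, ∃ z : Localization.AtPrime (Ideal.span {p}),
        s i j l = algebraMap (Localization.AtPrime (Ideal.span {p})) G z := by
      intro i j l
      obtain ⟨c, hc, P, hP⟩ := hsS i j l
      have hc1 : c ∈ (Ideal.span {p}).primeCompl := by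
        intro h
        exact hpS c hc (Ideal.mem_span_singleton.1 h)
      have hc0 : algebraMap A G c ≠ 0 := by
        intro h
        exact h0 c hc (hinj (by rw [h, map_zero]))
      refine ⟨IsLocalization.mk' _ P ⟨c, hc1⟩, ?_⟩
      apply mul_right_cancel₀ hc0
      rw [hP, IsScalarTower.algebraMap_apply A (Localization.AtPrime (Ideal.span {p})) G c,
        ← map_mul]
      have := IsLocalization.mk'_spec (Localization.AtPrime (Ideal.span {p})) P
        (⟨c, hc1⟩ : (Ideal.span {p}).primeCompl)
      rw [this, ← IsScalarTower.algebraMap_apply]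
    have hωO : ∀ i, IsIntegral (Localization.AtPrime (Ideal.span {p})) (ω i) := by
      intro i
      refine isIntegral_of_smul_mem_submodule (M := G)
        (Submodule.span (Localization.AtPrime (Ideal.span {p})) (Set.range ω)) ?_
        (Submodule.fg_span (Set.finite_range ω)) (ω i) ?_
      · intro hbot
        rw [Submodule.span_eq_bot] at hbot
        obtain ⟨c, -, hxc⟩ := hx i₀
        apply hi₀
        rw [hxc]
        refine Finset.sum_eq_zero fun j _ => ?_
        rw [hbot (ω j) ⟨j, rfl⟩, mul_zero]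
      · intro n hn
        induction hn using Submodule.span_induction with
        | mem n hn =>
          obtain ⟨j, rfl⟩ := hn
          rw [smul_eq_mul, hs]
          refine Submodule.sum_mem _ fun l _ => ?_
          obtain ⟨z, hz⟩ := hsO i j l
          rw [hz, ← Algebra.smul_def]
          exact Submodule.smul_mem _ _ (Submodule.subset_span ⟨l, rfl⟩)
        | zero => rw [smul_zero]; exact Submodule.zero_mem _
        | add a b _ _ h1 h2 => rw [smul_add]; exact Submodule.add_mem _ h1 h2
        | smul t a _ h1 => rw [smul_comm]; exact Submodule.smul_mem _ _ h1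
    have hInO : ∀ y, InS S ω y → IsIntegral (Localization.AtPrime (Ideal.span {p})) y := by
      rintro y ⟨c, hc, rfl⟩
      refine IsIntegral.sum _ fun j _ => ?_
      obtain ⟨c', hc', P, hP⟩ := hc j
      have hc1 : c' ∈ (Ideal.span {p}).primeCompl := by
        intro h
        exact hpS c' hc' (Ideal.mem_span_singleton.1 h)
      have hc0 : algebraMap A G c' ≠ 0 := by
        intro h
        exact h0 c' hc' (hinj (by rw [h, map_zero]))
      have hz : c j = algebraMap (Localization.AtPrime (Ideal.span {p})) G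
          (IsLocalization.mk' _ P ⟨c', hc1⟩) := by
        apply mul_right_cancel₀ hc0
        rw [hP, IsScalarTower.algebraMap_apply A (Localization.AtPrime (Ideal.span {p})) G c',
          ← map_mul]
        have := IsLocalization.mk'_spec (Localization.AtPrime (Ideal.span {p})) P
          (⟨c', hc1⟩ : (Ideal.span {p}).primeCompl)
        rw [this, ← IsScalarTower.algebraMap_apply]
      rw [hz]
      exact isIntegral_algebraMap.mul (hωO j)
    obtain ⟨s', hs', β, hβ, hsum⟩ := local_five (F := FractionRing A)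
      (O := Localization.AtPrime (Ideal.span {p})) h1 (Ideal.span {p}).primeCompl hinj
      (Ideal.primeCompl_le_nonZeroDivisors _)
      (fun n hn => by
        have := (hnat n hn).map (algebraMap A (Localization.AtPrime (Ideal.span {p})))
        rwa [map_natCast] at this) E hE L hrank (fun i => (⟨ω i, hωL i⟩ : L)) d hωO hdtr
      hν Gp e he Fp dd hdd hnc D hD x hxL (fun i => hInO _ (hx i)) hx0 hxG ρ hρL (hInO _ hρ)
      b hbL (fun i y j => hInO _ (hbS i y j)) mm M₀ hM₀ hb J y0
    refine ⟨s', β, fun h => hs' (Ideal.mem_span_singleton.2 h), hβ, ?_⟩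
    rw [hsum]
    exact Finset.sum_congr rfl fun t _ => by rw [hd1]

end glob4

end CDG5p

open CDGp CDG4p CDG5p in
/-- **CDG5**: the global form of the bound for the determinant, with a divisor. -/
theorem cdg5 (h1 : S_CD5) (h2 : S_GB) : S_CDG5 := by
  classical
  intro G k _ _ _ _ _ m g hg N E hE r ω ω' s hs hsP hli hω' ν sc gg q w hν Gp e he Fp d hd hnc
    D hD x hx hx0 hxG ρ b mm M₀ hρ0 hρ hbI hM₀ hb J y0
  -- the ring of polynomials
  let _ : Algebra (MvPolynomial (Fin m) k) G :=
    (MvPolynomial.aeval g : MvPolynomial (Fin m) k →ₐ[k] G).toRingHom.toAlgebra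
  have hmap : ∀ a : MvPolynomial (Fin m) k,
      algebraMap (MvPolynomial (Fin m) k) G a = MvPolynomial.aeval g a := fun _ => rfl
  have hinj : Function.Injective (algebraMap (MvPolynomial (Fin m) k) G) := hg
  have : CharZero k := (algebraMap k G).charZero
  have hnat : ∀ n : ℕ, n ≠ 0 → IsUnit (n : MvPolynomial (Fin m) k) := by
    intro n hn
    have e : (n : MvPolynomial (Fin m) k) = MvPolynomial.C (n : k) := (map_natCast _ n).symm
    rw [e]
    exact (isUnit_iff_ne_zero.2 (Nat.cast_ne_zero.2 hn)).map MvPolynomial.C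
  have hEA : ∀ j (a : MvPolynomial (Fin m) k), ∃ b : MvPolynomial (Fin m) k,
      E j (algebraMap (MvPolynomial (Fin m) k) G a) =
        algebraMap (MvPolynomial (Fin m) k) G b := by
    intro j a
    obtain ⟨e1, e2⟩ := hE j
    induction a using MvPolynomial.induction_on with
    | C c =>
      obtain ⟨b, hb⟩ := e1 c
      refine ⟨MvPolynomial.C b, ?_⟩
      rw [hmap, hmap, MvPolynomial.aeval_C, MvPolynomial.aeval_C, hb]
    | add p q hp hq =>
      obtain ⟨b, hb⟩ := hp
      obtain ⟨c, hc⟩ := hq
      exact ⟨b + c, by rw [map_add, map_add, map_add, hb, hc]⟩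
    | mul_X p i hp =>
      obtain ⟨b, hb⟩ := hp
      obtain ⟨c, hc⟩ := e2 i
      refine ⟨b * MvPolynomial.X i + p * (MvPolynomial.C c * MvPolynomial.X i), ?_⟩
      have hX : algebraMap (MvPolynomial (Fin m) k) G (MvPolynomial.X i) = g i := by
        rw [hmap, MvPolynomial.aeval_X]
      have hC : algebraMap (MvPolynomial (Fin m) k) G (MvPolynomial.C c) = algebraMap k G c := by
        rw [hmap, MvPolynomial.aeval_C]
      rw [map_mul, Derivation.leibniz, hb, hX, hc, map_add, map_mul, map_mul, map_mul, hX, hC,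
        smul_eq_mul, smul_eq_mul]
      ring
  have hS0 : ∀ c ∈ Set.range (fun c : Fin m → ℕ =>
      (∏ i, MvPolynomial.X i ^ c i : MvPolynomial (Fin m) k)), c ≠ 0 := by
    rintro _ ⟨c, rfl⟩
    exact Finset.prod_ne_zero_iff.2 fun i _ => pow_ne_zero _ (MvPolynomial.X_ne_zero i)
  have hsS : ∀ i j l, ∃ c ∈ Set.range (fun c : Fin m → ℕ =>
      (∏ i, MvPolynomial.X i ^ c i : MvPolynomial (Fin m) k)), ∃ P : MvPolynomial (Fin m) k,
      s i j l * algebraMap (MvPolynomial (Fin m) k) G c =
        algebraMap (MvPolynomial (Fin m) k) G P := by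
    intro i j l
    obtain ⟨c, P, hP⟩ := hsP i j l
    refine ⟨_, ⟨c, rfl⟩, P, ?_⟩
    rw [hmap, hmap, ← hP]
    simp only [map_prod, map_pow, MvPolynomial.aeval_X]
  have hcl : Subfield.closure (Set.range (algebraMap k G) ∪ Set.range g) =
      Subfield.closure (Set.range (algebraMap (MvPolynomial (Fin m) k) G)) := by
    apply le_antisymm
    · apply Subfield.closure_mono
      rintro y (⟨a, rfl⟩ | ⟨j, rfl⟩)
      · exact ⟨MvPolynomial.C a, by rw [hmap, MvPolynomial.aeval_C]⟩
      · exact ⟨MvPolynomial.X j, by rw [hmap, MvPolynomial.aeval_X]⟩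
    · rw [Subfield.closure_le]
      rintro _ ⟨a, rfl⟩
      rw [hmap]
      induction a using MvPolynomial.induction_on with
      | C c =>
        rw [MvPolynomial.aeval_C]
        exact Subfield.subset_closure (Or.inl ⟨c, rfl⟩)
      | add p q hp hq => rw [map_add]; exact add_mem hp hq
      | mul_X p i hp =>
        rw [map_mul, MvPolynomial.aeval_X]
        exact mul_mem hp (Subfield.subset_closure (Or.inr ⟨i, rfl⟩))
  have hli' : LinearIndependent
      (Subfield.closure (Set.range (algebraMap (MvPolynomial (Fin m) k) G))) ω := by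
    rw [← hcl]
    exact hli
  have hInS : ∀ y, InOrd k g ω y → InS (Set.range (fun c : Fin m → ℕ =>
      (∏ i, MvPolynomial.X i ^ c i : MvPolynomial (Fin m) k))) ω y := by
    rintro y ⟨c, hc, hy⟩
    refine ⟨c, fun j => ?_, hy⟩
    obtain ⟨a, P, hP⟩ := hc j
    refine ⟨_, ⟨a, rfl⟩, P, ?_⟩
    rw [hmap, hmap, ← hP]
    simp only [map_prod, map_pow, MvPolynomial.aeval_X]
  have hconv : ∀ β : G, IsIntegral (MvPolynomial (Fin m) k) β → IsIntegral (PolR k g) β := by
    intro β hβ
    have ρ : {ρ : MvPolynomial (Fin m) k →+* PolR k g //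
        (algebraMap (PolR k g) G).comp ρ =
          (RingHom.id G).comp (algebraMap (MvPolynomial (Fin m) k) G)} :=
      ⟨(MvPolynomial.aeval g : MvPolynomial (Fin m) k →ₐ[k] G).rangeRestrict.toRingHom,
        RingHom.ext fun _ => rfl⟩
    exact IsIntegral.map_of_comp_eq ρ.1 (RingHom.id G) ρ.2 hβ
  obtain ⟨g1, g2⟩ := glob_five h1 hinj hnat E hEA _ hS0 ω ω' s hs hsS hli' hω' hν Gp e he Fp d hd
    hnc D hD x (fun y => hInS _ (hx y)) hx0 hxG ρ b mm M₀ hρ0 (hInS _ hρ)
    (fun i y j => hInS _ (hbI i y j)) hM₀ hb J y0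
  refine h2 G k m g hg
    ((jetM (fun j => E j) (fun i => x (J i))).det * ρ * x y0 ^ (q * D))
    (Fin r × Fin ν × (Fin q → Fin w)) (fun p => ω' p.1 * psiF N D Fp d x p.2.1 p.2.2) ?_ ?_
  · obtain ⟨s, β, a1, a2, a3⟩ := g1
    exact ⟨s, β, a1, fun t => hconv _ (a2 t), a3⟩
  · intro p hp hpX
    obtain ⟨s, β, a1, a2, a3⟩ := g2 p hp (by
      rintro _ ⟨c, rfl⟩ h
      obtain ⟨i, -, hi⟩ := (Prime.dvd_finsetProd_iff hp _).1 h
      exact hpX i (hp.dvd_of_dvd_pow hi))
    exact ⟨s, β, a1, fun t => hconv _ (a2 t), a3⟩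

end Pool.Agent.Y724.T4
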