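import Mathlib
import Pool.Agent.Y724.T4.FIN5
import Pool.Agent.Y724.T4.CDG5

/-!
# Sums over the places outside `S`
-/

set_option autoImplicit false

namespace Pool.Agent.Y724.T4

open NumberField

section fin6
variable {F : Type} [Field F] [NumberField F]

lemma finsum_compl_add (A : Set (FinitePlace F)) (f : FinitePlace F → ℝ)
    (hf : {v | f v ≠ 0}.Finite) :
    ∑ᶠ v ∈ A, f v + ∑ᶠ v ∈ Aᶜ, f v = ∑ᶠ v, f v := by
  have h1 : (A ∩ Function.support f).Finite := hf.subset fun v hv => hv.2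
  have h2 : (Aᶜ ∩ Function.support f).Finite := hf.subset fun v hv => hv.2
  rw [← finsum_mem_union' disjoint_compl_right h1 h2, Set.union_compl_self, finsum_mem_univ]

lemma finsum_compl_le {S S' : Finset ℕ} (hSS : S ⊆ S') (ρ : F) (hρ : ρ ≠ 0)
    (h1 : ∀ v ∉ Over F S, v ρ ≤ 1) :
    ∑ᶠ v ∈ (Over F S)ᶜ, Real.log (v ρ) ≤ ∑ᶠ v ∈ (Over F S')ᶜ, Real.log (v ρ) := by
  classical
  have hfin := fin_ne_one hρ
  have hs : ∀ A : Set (FinitePlace F),
      (A ∩ Function.support fun v : FinitePlace F => Real.log (v ρ)).Finite := by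
    intro A
    refine hfin.subset fun v hv => ?_
    intro h3
    apply hv.2
    change Real.log (v ρ) = 0
    rw [h3, Real.log_one]
  rw [finsum_mem_eq_sum _ (hs _), finsum_mem_eq_sum _ (hs _)]
  have hsub : (hs (Over F S')ᶜ).toFinset ⊆ (hs (Over F S)ᶜ).toFinset := by
    intro v hv
    rw [Set.Finite.mem_toFinset] at hv ⊢
    refine ⟨fun h => hv.1 ?_, hv.2⟩
    obtain ⟨p, hp, hp1⟩ := h
    exact ⟨p, hSS hp, hp1⟩
  have h2 := Finset.sum_le_sum_of_subset_of_nonneg (f := fun v : FinitePlace F => -Real.log (v ρ))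
    hsub fun v hv _ => by
      rw [Set.Finite.mem_toFinset] at hv
      have h3 : Real.log (v ρ) ≤ 0 := Real.log_nonpos (apply_nonneg v _) (h1 v hv.1)
      linarith
  rw [Finset.sum_neg_distrib, Finset.sum_neg_distrib] at h2
  linarith

end fin6

end Pool.Agent.Y724.T4
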