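import Mathlib
import Pool.Agent.Y724.T4.BIG

/-!
# Tangent spaces over number fields, finiteness of the points of bounded height
-/

set_option autoImplicit false

namespace Pool.Agent.Y724.T4

open MvPolynomial NumberField

section la
variable {K : Type} [Field K] {M n : ℕ}

lemma exists_minor (T : Matrix (Fin M) (Fin n) K)
    (hT : LinearIndependent K (fun (c : Fin n) (j : Fin M) => T j c)) :
    ∃ J : Fin n → Fin M, (T.submatrix J id).det ≠ 0 := by
  have h1 : T.transpose.rank = n := by
    rw [LinearIndependent.rank_matrix (M := T.transpose) hT, Fintype.card_fin]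
  rw [Matrix.rank_transpose, Matrix.rank_eq_finrank_span_row] at h1
  obtain ⟨f, hf, _, hli⟩ := Submodule.exists_fun_fin_finrank_span_eq K (Set.range T.row)
  have h2 : ∀ i : Fin n, ∃ j, T.row j = f (finCongr h1.symm i) := fun i => hf _
  choose J hJ using h2
  refine ⟨J, ?_⟩
  have h3 : LinearIndependent K (T.submatrix J id).row := by
    have h4 : (T.submatrix J id).row = f ∘ finCongr h1.symm := by
      funext i
      exact hJ i
    rw [h4]
    exact hli.comp _ (finCongr h1.symm).injective
  rw [Matrix.linearIndependent_rows_iff_isUnit, Matrix.isUnit_iff_isUnit_det] at h3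
  exact h3.ne_zero

/-- independence and a larger field -/
lemma li_up {L : Type} [Field L] (φ : K →+* L) {κ : Type} (v : κ → Fin M → K)
    (h : LinearIndependent K v) : LinearIndependent L (fun i j => φ (v i j)) := by
  let _ : Algebra K L := φ.toAlgebra
  exact linearIndependent_algebraMap_comp_iff.2 h

/-- the dimension of the span of rows and a larger field -/
lemma finrank_up {L : Type} [Field L] (φ : K →+* L) {g : ℕ} (v : Fin g → Fin M → K) :
    Module.finrank L (Submodule.span L (Set.range fun i j => φ (v i j))) =
      Module.finrank K (Submodule.span K (Set.range v)) := by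
  obtain ⟨f, hf, hsp, hli⟩ := Submodule.exists_fun_fin_finrank_span_eq K (Set.range v)
  have hli' := li_up φ f hli
  have hspan : Submodule.span L (Set.range fun i j => φ (v i j)) =
      Submodule.span L (Set.range fun i j => φ (f i j)) := by
    apply le_antisymm
    · rw [Submodule.span_le]
      rintro _ ⟨i, rfl⟩
      have h1 : v i ∈ Submodule.span K (Set.range f) := by
        rw [hsp]
        exact Submodule.subset_span ⟨i, rfl⟩
      obtain ⟨c, hc⟩ := (Submodule.mem_span_range_iff_exists_fun K).1 h1
      refine (Submodule.mem_span_range_iff_exists_fun L).2 ⟨fun i => φ (c i), ?_⟩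
      funext j
      have h2 := congrArg φ (congrFun hc j)
      rw [Finset.sum_apply, map_sum] at h2
      rw [Finset.sum_apply]
      change _ = φ (v i j)
      rw [← h2]
      exact Finset.sum_congr rfl fun i _ => by simp
    · rw [Submodule.span_le]
      rintro _ ⟨i, rfl⟩
      obtain ⟨k, hk⟩ := hf i
      exact Submodule.subset_span ⟨k, by simp only [hk]⟩
  rw [hspan, finrank_span_eq_card hli', Fintype.card_fin]

/-- a basis of the orthogonal space -/
lemma exists_kernel {s g N : ℕ} (v : Fin g → Fin (N + s + 1) → K)
    (hv : Module.finrank K (Submodule.span K (Set.range v)) = s) :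
    ∃ T : Matrix (Fin (N + s + 1)) (Fin (N + 1)) K,
      LinearIndependent K (fun (c : Fin (N + 1)) (j : Fin (N + s + 1)) => T j c) ∧
      ∀ k c, ∑ j, v k j * T j c = 0 := by
  classical
  set A : Matrix (Fin g) (Fin (N + s + 1)) K := Matrix.of v with hA
  have hr : A.rank = s := by
    rw [Matrix.rank_eq_finrank_span_row]
    exact hv
  have h1 := LinearMap.finrank_range_add_finrank_ker A.mulVecLin
  rw [Module.finrank_fintype_fun_eq_card, Fintype.card_fin] at h1
  have h2 : Module.finrank K (LinearMap.range A.mulVecLin) = s := hr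
  have h3 : Module.finrank K (LinearMap.ker A.mulVecLin) = N + 1 := by omega
  set bb := Module.finBasisOfFinrankEq K (LinearMap.ker A.mulVecLin) h3 with hbb
  refine ⟨fun j c => (bb c : Fin (N + s + 1) → K) j, ?_, fun k c => ?_⟩
  · have h4 := bb.linearIndependent.map' (LinearMap.ker A.mulVecLin).subtype
      (Submodule.ker_subtype _)
    exact h4
  · have h4 : A.mulVecLin (bb c : Fin (N + s + 1) → K) = 0 := (bb c).2
    have h5 := congrFun h4 k
    exact h5

/-- rows which span -/
lemma exists_rows_of_finrank {s g : ℕ} (v : Fin g → Fin M → K)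
    (hv : Module.finrank K (Submodule.span K (Set.range v)) = s) :
    ∃ k : Fin s → Fin g, LinearIndependent K (fun a => v (k a)) := by
  obtain ⟨f, hf, _, hli⟩ := Submodule.exists_fun_fin_finrank_span_eq K (Set.range v)
  have h2 : ∀ i : Fin s, ∃ j, v j = f (finCongr hv.symm i) := fun i => hf _
  choose k hk using h2
  refine ⟨k, ?_⟩
  have h4 : (fun a => v (k a)) = f ∘ finCongr hv.symm := by
    funext i
    exact hk i
  rw [h4]
  exact hli.comp _ (finCongr hv.symm).injective

end la

section north
variable {K : Type} [Field K] [NumberField K] {M : ℕ}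

/-- finiteness of the points of bounded height -/
lemma finite_points (B : ℝ) :
    {P : Projectivization K (Fin M → K) | ∃ (x : Fin M → K) (hx : x ≠ 0),
      P = Projectivization.mk K x hx ∧ Height.logHeight x ≤ B}.Finite := by
  classical
  have h1 : {t : K | Height.mulHeight₁ t ≤ Real.exp B}.Finite :=
    Northcott.finite_le (h := Height.mulHeight₁ (K := K)) (Real.exp B)
  have h2 : {u : Fin M → K | ∀ i, u i ∈ {t : K | Height.mulHeight₁ t ≤ Real.exp B}}.Finite :=
    Set.Finite.pi' fun _ => h1
  have h3 : {u : {u : Fin M → K // u ≠ 0} |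
      ∀ i, u.1 i ∈ {t : K | Height.mulHeight₁ t ≤ Real.exp B}}.Finite :=
    h2.preimage (f := fun u : {u : Fin M → K // u ≠ 0} => u.1)
      (Subtype.val_injective.injOn)
  refine (h3.image (fun u => Projectivization.mk' K u)).subset ?_
  rintro P ⟨x, hx, rfl, hB⟩
  obtain ⟨y, hy⟩ := Function.ne_iff.1 hx
  rw [Pi.zero_apply] at hy
  have hu : (x y)⁻¹ • x ≠ 0 := smul_ne_zero (inv_ne_zero hy) hx
  refine ⟨⟨(x y)⁻¹ • x, hu⟩, fun i => ?_, ?_⟩
  · change Height.mulHeight₁ ((x y)⁻¹ • x i) ≤ Real.exp B
    have h4 : (x y)⁻¹ • x i = x i / x y := by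
      rw [smul_eq_mul, div_eq_mul_inv, mul_comm]
    have h5 : (![x i, x y] : Fin 2 → K) = x ∘ ![i, y] := by
      funext k
      fin_cases k <;> rfl
    rw [h4, Height.mulHeight₁_div_eq_mulHeight, h5]
    refine (Height.mulHeight_comp_le _ _).trans ?_
    have h6 : 0 < Height.mulHeight x := Height.mulHeight_pos x
    rw [Height.logHeight_eq_log_mulHeight] at hB
    rw [← Real.exp_log h6]
    exact Real.exp_le_exp.2 hB
  · change Projectivization.mk K ((x y)⁻¹ • x) hu = Projectivization.mk K x hx
    rw [Projectivization.mk_eq_mk_iff']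
    exact ⟨(x y)⁻¹, rfl⟩

end north

end Pool.Agent.Y724.T4
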