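import Mathlib
import Pool.Agent.Y724.T4.Stm5
import Pool.Agent.Y724.T4.LDD
import Pool.Agent.Y724.T4.PLA
import Pool.Agent.Y724.Vj.Ratio

/-!
# The local bound for the determinant of a jet at a prime divisor, with a divisor (CD5)
-/

set_option autoImplicit false

namespace Pool.Agent.Y724.T4

open IsDedekindDomain nonZeroDivisors

private theorem cdt_val_det_le {L : Type} [Field L] (w : Valuation L (WithZero (Multiplicative ℤ)))
    {n : ℕ} (M : Matrix (Fin n) (Fin n) L) (g : Fin n → WithZero (Multiplicative ℤ))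
    (h : ∀ i c, w (M i c) ≤ g c) : w M.det ≤ ∏ c, g c := by
  rw [Matrix.det_apply]
  apply Valuation.map_sum_le
  intro σ _
  rw [Units.smul_def, zsmul_eq_mul, map_mul, map_prod]
  have h1 : w (((Equiv.Perm.sign σ : ℤˣ) : ℤ) : L) = 1 := by
    rcases Int.units_eq_one_or (Equiv.Perm.sign σ) with h | h <;> simp [h]
  rw [h1, one_mul]
  exact Finset.prod_le_prod' fun i _ => h _ _

private theorem cdt_col {R : Type} [CommRing R] {n : ℕ} {A B : Matrix (Fin n) (Fin n) R}
    (c : Fin n → R) (k : Fin n) (hk : c k = 0) (h : ∀ i j, A i j = B i j + c j * B i k) :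
    A.det = B.det := by
  rw [← Matrix.det_transpose A, ← Matrix.det_transpose B]
  exact Matrix.det_eq_of_forall_row_eq_smul_add_const c k hk fun i j => h j i

private theorem cdt_exists_gen {B L : Type} [CommRing B] [IsDomain B] [IsPrincipalIdealRing B]
    [Field L] [Algebra B L] [IsFractionRing B L] {ι : Type} [Fintype ι] (x : ι → L)
    (hx : x ≠ 0) : ∃ (c : L) (x' s : ι → B), c ≠ 0 ∧ (∀ i, x i = c * algebraMap B L (x' i)) ∧
      ∑ i, s i * x' i = 1 := by
  classical
  obtain ⟨b, hb⟩ := IsLocalization.exist_integer_multiples_of_finite (nonZeroDivisors B) x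
  choose y hy using hb
  have hinj : Function.Injective (algebraMap B L) := IsFractionRing.injective B L
  have hb0 : algebraMap B L (b : B) ≠ 0 := by
    rw [Ne, map_eq_zero_iff _ hinj]
    exact nonZeroDivisors.ne_zero b.2
  have hy' : ∀ i, algebraMap B L (y i) = algebraMap B L (b : B) * x i := by
    intro i
    rw [hy i, Algebra.smul_def]
  obtain ⟨g, hg⟩ := (IsPrincipalIdealRing.principal (Ideal.span (Set.range y))).principal
  rw [← Ideal.span] at hg
  have hdvd : ∀ l, ∃ c, y l = g * c := by
    intro l
    have : y l ∈ Ideal.span {g} := by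
      rw [← hg]
      exact Ideal.subset_span ⟨l, rfl⟩
    exact Ideal.mem_span_singleton.mp this
  choose x' hx' using hdvd
  have hgne : g ≠ 0 := by
    intro h0
    apply hx
    funext l
    have h1 := hy' l
    rw [hx' l, h0, zero_mul, map_zero] at h1
    exact (mul_eq_zero.mp h1.symm).resolve_left hb0
  have hgL : algebraMap B L g ≠ 0 := by
    rw [Ne, map_eq_zero_iff _ hinj]; exact hgne
  have hmem : g ∈ Ideal.span (Set.range y) := by
    rw [hg]; exact Ideal.mem_span_singleton_self g
  rw [Ideal.mem_span_range_iff_exists_fun] at hmem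
  obtain ⟨s, hs⟩ := hmem
  refine ⟨algebraMap B L g / algebraMap B L (b : B), x', s, div_ne_zero hgL hb0, ?_, ?_⟩
  · intro l
    have h1 := hy' l
    rw [hx' l, map_mul] at h1
    rw [div_mul_eq_mul_div, eq_div_iff hb0, h1]
    ring
  · apply mul_left_cancel₀ hgne
    rw [mul_one, Finset.mul_sum]
    conv_rhs => rw [← hs]
    refine Finset.sum_congr rfl fun l _ => ?_
    rw [hx' l]; ring

private theorem cdt_pid (O F L : Type) [CommRing O] [IsDomain O] [IsDiscreteValuationRing O]
    [Field F] [Field L] [Algebra O F] [IsFractionRing O F] [Algebra F L] [Algebra O L]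
    [IsScalarTower O F L] [FiniteDimensional F L] [CharZero F] :
    IsPrincipalIdealRing (integralClosure O L) := by
  have hFS : FaithfulSMul O L := by
    rw [faithfulSMul_iff_algebraMap_injective, IsScalarTower.algebraMap_eq O F L]
    exact (algebraMap F L).injective.comp (IsFractionRing.injective O F)
  have hDed : IsDedekindDomain (integralClosure O L) := integralClosure.isDedekindDomain O F L
  obtain ⟨t, ht⟩ := IsDiscreteValuationRing.exists_irreducible O
  have ht0 : t ≠ 0 := ht.ne_zero
  have htL : algebraMap O L t ≠ 0 := by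
    rwa [Ne, FaithfulSMul.algebraMap_eq_zero_iff]
  have htS : ∀ M : Ideal (integralClosure O L), M.IsMaximal →
      algebraMap O (integralClosure O L) t ∈ M := by
    intro M hM
    have h1 : (M.comap (algebraMap O (integralClosure O L))).IsMaximal :=
      Ideal.isMaximal_comap_of_isIntegral_of_isMaximal M
    have h2 := IsLocalRing.eq_maximalIdeal h1
    rw [← Ideal.mem_comap, h2, ht.maximalIdeal_eq, Ideal.mem_span_singleton]
  have htS0 : algebraMap O (integralClosure O L) t ≠ 0 := by
    intro h
    apply htL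
    rw [IsScalarTower.algebraMap_apply O (integralClosure O L) L, h, map_zero]
  apply IsPrincipalIdealRing.of_finite_maximals
  have hfin := Ideal.finite_factors (I := Ideal.span {algebraMap O (integralClosure O L) t})
    (by rw [Ne, Ideal.zero_eq_bot, Ideal.span_singleton_eq_bot]; exact htS0)
  refine (hfin.image (fun v => v.asIdeal)).subset ?_
  intro M hM
  have hM' : M.IsMaximal := hM
  have hMne : M ≠ ⊥ := fun h => htS0 (by simpa [h] using htS M hM')
  refine ⟨⟨M, hM'.isPrime, hMne⟩, ?_, rfl⟩
  simp only [Set.mem_ofPred_eq]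
  rw [Ideal.dvd_span_singleton]
  exact htS M hM'

private theorem cdt_le_of_F {F L : Type} [Field F] [Field L] [Algebra F L] [FiniteDimensional F L]
    [CharZero F] (w : Valuation L (WithZero (Multiplicative ℤ)))
    (hn : ∀ n : ℕ, n ≠ 0 → w (n : L) = 1) (D : Derivation ℤ L L)
    (hF : ∀ a : F, w (D (algebraMap F L a)) ≤ w (algebraMap F L a)) (φ : L) : w (D φ) ≤ w φ :=
  ldd F L L w (D : L →ₗ[ℤ] L).toAddMonoidHom hn (fun a b => D.leibniz a b) hF φ

section base
variable {O F L : Type} [CommRing O] [IsDomain O] [IsDiscreteValuationRing O] [Field F] [Field L]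
    [Algebra O F] [IsFractionRing O F] [Algebra F L] [Algebra O L] [IsScalarTower O F L]
    {π : O} (D : Derivation ℤ L L)

private theorem cdt_F_eq (hπ : Irreducible π) (hD : ∀ a : O, ∃ b : O, D (algebraMap O L a) = algebraMap O L b)
    (hDπ : ∃ b : O, D (algebraMap O L π) = algebraMap O L (π * b)) (a : F) :
    ∃ c : O, D (algebraMap F L a) = algebraMap F L a * algebraMap O L c := by
  have hpow : ∀ k : ℕ, ∃ b : O, D (algebraMap O L (π ^ k)) = algebraMap O L (π ^ k * b) := by
    intro k
    induction k with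
    | zero => exact ⟨0, by simp⟩
    | succ k ih =>
      obtain ⟨b, hb⟩ := ih
      obtain ⟨b', hb'⟩ := hDπ
      refine ⟨b' + b, ?_⟩
      rw [pow_succ, map_mul, D.leibniz, hb, hb', smul_eq_mul, smul_eq_mul, ← map_mul, ← map_mul,
        ← map_add]
      congr 1
      ring
  have hO : ∀ p : O, ∃ c : O, D (algebraMap O L p) = algebraMap O L (p * c) := by
    intro p
    by_cases hp : p = 0
    · exact ⟨0, by simp [hp]⟩
    obtain ⟨k, u, hu⟩ := IsDiscreteValuationRing.eq_unit_mul_pow_irreducible hp hπ
    obtain ⟨b, hb⟩ := hpow k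
    obtain ⟨b', hb'⟩ := hD (u : O)
    refine ⟨b + (↑u⁻¹ : O) * b', ?_⟩
    rw [hu, map_mul, D.leibniz, hb, hb', smul_eq_mul, smul_eq_mul, ← map_mul, ← map_mul,
      ← map_add]
    congr 1
    have h1 : (↑u⁻¹ : O) * ↑u = 1 := Units.inv_mul u
    linear_combination (-(π ^ k * b')) * h1
  obtain ⟨p, q, hq, rfl⟩ := IsFractionRing.div_surjective (A := O) a
  have hq0 : algebraMap O F q ≠ 0 := by
    rw [Ne, IsFractionRing.to_map_eq_zero_iff]
    exact nonZeroDivisors.ne_zero hq
  set a := algebraMap O F p / algebraMap O F q with ha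
  have hqL : algebraMap O L q ≠ 0 := by
    rw [IsScalarTower.algebraMap_apply O F L, Ne, map_eq_zero]
    exact hq0
  have h1 : algebraMap F L a * algebraMap O L q = algebraMap O L p := by
    rw [IsScalarTower.algebraMap_apply O F L q, ← map_mul, ha, div_mul_cancel₀ _ hq0,
      ← IsScalarTower.algebraMap_apply]
  obtain ⟨cp, hcp⟩ := hO p
  obtain ⟨cq, hcq⟩ := hO q
  refine ⟨cp - cq, ?_⟩
  have h2 := congrArg D h1
  rw [D.leibniz, hcp, hcq, smul_eq_mul, smul_eq_mul, map_mul, map_mul, ← h1] at h2
  apply mul_left_cancel₀ hqL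
  rw [map_sub]
  linear_combination h2

private theorem cdt_mem_of_le (w : Valuation L (WithZero (Multiplicative ℤ)))
    (hwO : ∀ a : O, w (algebraMap O L a) ≤ 1) (hπ : Irreducible π)
    (hwπ : w (algebraMap O L π) < 1) (a : F)
    (ha : w (algebraMap F L a) ≤ 1) : ∃ o : O, algebraMap O F o = a := by
  rcases ValuationRing.isInteger_or_isInteger O a with h | h
  · exact h
  · obtain ⟨o, ho⟩ := h
    by_cases ha0 : a = 0
    · exact ⟨0, by rw [ha0, map_zero]⟩
    by_cases hu : IsUnit o
    · obtain ⟨u, hu⟩ := hu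
      refine ⟨(↑u⁻¹ : O), ?_⟩
      have h1 : algebraMap O F (↑u⁻¹ : O) * algebraMap O F o = 1 := by
        rw [← map_mul, ← hu, Units.inv_mul, map_one]
      rw [ho] at h1
      exact (mul_inv_eq_one₀ ha0).mp h1
    · exfalso
      have h2 : π ∣ o := by
        have : o ∈ IsLocalRing.maximalIdeal O := (IsLocalRing.mem_maximalIdeal _).mpr hu
        rw [hπ.maximalIdeal_eq, Ideal.mem_span_singleton] at this
        exact this
      obtain ⟨o', ho'⟩ := h2
      have h3 : w (algebraMap O L o) < 1 := by
        rw [ho', map_mul, map_mul]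
        exact (mul_le_of_le_one_right' (hwO o')).trans_lt hwπ
      have h4 : w (algebraMap F L a) * w (algebraMap O L o) = 1 := by
        rw [← map_mul, IsScalarTower.algebraMap_apply O F L o, ho, ← map_mul,
          mul_inv_cancel₀ ha0, map_one, map_one]
      have h5 : w (algebraMap F L a) * w (algebraMap O L o) < 1 :=
        (mul_le_of_le_one_left' ha).trans_lt h3
      rw [h4] at h5
      exact lt_irrefl _ h5

end base

private theorem cdt_dual {F L : Type} [Field F] [Field L] [Algebra F L] [FiniteDimensional F L]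
    {r : ℕ} (ω ω' : Fin r → L) (hr : Module.finrank F L = r)
    (h : ∀ i j, Algebra.trace F L (ω i * ω' j) = if i = j then 1 else 0) (δ : L) :
    δ = ∑ i, algebraMap F L (Algebra.trace F L (δ * ω i)) * ω' i := by
  classical
  have key : ∀ (c : Fin r → F) (i : Fin r),
      Algebra.trace F L ((∑ j, c j • ω' j) * ω i) = c i := by
    intro c i
    rw [Finset.sum_mul, map_sum, Finset.sum_eq_single i]
    · rw [smul_mul_assoc, map_smul, mul_comm, h, if_pos rfl, smul_eq_mul, mul_one]
    · intro j _ hj
      rw [smul_mul_assoc, map_smul, mul_comm, h, if_neg (Ne.symm hj), smul_zero]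
    · intro hi
      exact absurd (Finset.mem_univ i) hi
  have hli : LinearIndependent F ω' := by
    rw [Fintype.linearIndependent_iff]
    intro c hc i
    have h1 := key c i
    rw [hc, zero_mul, map_zero] at h1
    exact h1.symm
  rcases Nat.eq_zero_or_pos r with h0 | h0
  · exfalso
    rw [h0] at hr
    have := Module.finrank_pos (R := F) (M := L)
    omega
  have : Nonempty (Fin r) := ⟨⟨0, h0⟩⟩
  let b := basisOfLinearIndependentOfCardEqFinrank hli (by rw [Fintype.card_fin, hr])
  have hb : ∀ i, b i = ω' i := fun i => by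
    simp [b]
  have h1 : δ = ∑ j, b.repr δ j • ω' j := by
    conv_lhs => rw [← b.sum_repr δ]
    exact Finset.sum_congr rfl fun j _ => by rw [hb]
  have h2 : ∀ i, Algebra.trace F L (δ * ω i) = b.repr δ i := by
    intro i
    conv_lhs => rw [h1]
    exact key _ i
  conv_lhs => rw [h1]
  refine Finset.sum_congr rfl fun i _ => ?_
  rw [h2, Algebra.smul_def]

section poly

open MvPolynomial Pool.Agent.Y724.Vj

variable {L : Type} [Field L] {ν : ℕ}

private theorem cd5_der (D : Derivation ℤ L L) (x : Fin ν → L) (P : MvPolynomial (Fin ν) ℤ) :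
    ∑ y, evi x (pderiv y P) * D (x y) = D (evi x P) := by
  induction P using MvPolynomial.induction_on with
  | C a =>
    have h1 : evi x (C a : MvPolynomial (Fin ν) ℤ) = (a : L) := by
      unfold evi
      rw [eval₂_C]
      rfl
    have h2 : D ((a : ℤ) : L) = 0 := by
      simp
    rw [h1, h2]
    refine Finset.sum_eq_zero fun y _ => ?_
    rw [pderiv_C, evi_zero, zero_mul]
  | add P Q hP hQ =>
    have h1 : ∀ P Q : MvPolynomial (Fin ν) ℤ, evi x (P + Q) = evi x P + evi x Q := fun P Q => by
      unfold evi
      rw [eval₂_add]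
    rw [h1, map_add, ← hP, ← hQ, ← Finset.sum_add_distrib]
    refine Finset.sum_congr rfl fun y _ => ?_
    rw [map_add, h1, add_mul]
  | mul_X P n hP =>
    have h1 : ∀ P Q : MvPolynomial (Fin ν) ℤ, evi x (P + Q) = evi x P + evi x Q := fun P Q => by
      unfold evi
      rw [eval₂_add]
    have h2 : ∀ P Q : MvPolynomial (Fin ν) ℤ, evi x (P * Q) = evi x P * evi x Q := fun P Q => by
      unfold evi
      rw [eval₂_mul]
    have h3 : ∀ y, evi x (X y : MvPolynomial (Fin ν) ℤ) = x y := fun y => by
      unfold evi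
      rw [eval₂_X]
    have h4 : ∀ y, evi x (pderiv y (P * X n)) * D (x y) =
        x n * (evi x (pderiv y P) * D (x y)) + (if y = n then evi x P * D (x y) else 0) := by
      intro y
      rw [Derivation.leibniz, smul_eq_mul, smul_eq_mul, h1, h2, h2, h3]
      by_cases hy : y = n
      · subst hy
        rw [pderiv_X_self, if_pos rfl]
        have : evi x (1 : MvPolynomial (Fin ν) ℤ) = 1 := by
          unfold evi
          rw [eval₂_one]
        rw [this]
        ring
      · rw [pderiv_X_of_ne (Ne.symm hy), if_neg hy, evi_zero]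
        ring
    rw [Finset.sum_congr rfl fun y _ => h4 y, Finset.sum_add_distrib, ← Finset.mul_sum, hP,
      Finset.sum_ite_eq' Finset.univ n, if_pos (Finset.mem_univ _), h2, h3, D.leibniz, smul_eq_mul,
      smul_eq_mul]
    ring

private theorem cd5_euler (x : Fin ν → L) (P : MvPolynomial (Fin ν) ℤ) (e : ℕ)
    (hP : P.IsHomogeneous e) : ∑ y, evi x (pderiv y P) * x y = e * evi x P := by
  have h3 := congrArg (fun Q : MvPolynomial (Fin ν) ℤ => evi x Q) hP.sum_X_mul_pderiv
  unfold evi at h3 ⊢
  rw [eval₂_sum] at h3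
  simp only [eval₂_mul, eval₂_X, nsmul_eq_mul, eval₂_natCast] at h3
  rw [← h3]
  exact Finset.sum_congr rfl fun y _ => mul_comm _ _

private theorem cd5_evi_le (w : Valuation L (WithZero (Multiplicative ℤ)))
    (hwz : ∀ n : ℤ, w (n : L) ≤ 1) (x : Fin ν → L) {C : WithZero (Multiplicative ℤ)}
    (hx : ∀ y, w (x y) ≤ C) (P : MvPolynomial (Fin ν) ℤ) (e : ℕ) (hP : P.IsHomogeneous e) :
    w (evi x P) ≤ C ^ e := by
  unfold evi
  rw [eval₂_eq']
  apply Valuation.map_sum_le
  intro α hα
  have h2 := hP (mem_support_iff.1 hα)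
  rw [Finsupp.weight_apply, Finsupp.sum_fintype _ _ (by simp)] at h2
  have h3 : ∑ j, α j = e := by simpa using h2
  rw [map_mul, map_prod]
  refine (mul_le_of_le_one_left' (hwz _)).trans ?_
  rw [← h3, ← Finset.prod_pow_eq_pow_sum]
  refine Finset.prod_le_prod' fun y _ => ?_
  rw [map_pow]
  exact pow_le_pow_left₀ zero_le (hx y) _

/-- the inequality at one place, for a family of logarithmic derivations -/
private theorem cd5_place {sc g q wd : ℕ} (w : Valuation L (WithZero (Multiplicative ℤ)))
    (hwn : ∀ n : ℕ, n ≠ 0 → w (n : L) = 1) {N : ℕ} (hν : ν = (N + 1) + sc)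
    (x : Fin ν → L) (EE : Fin N → Derivation ℤ L L) (hEE : ∀ j b, w (EE j b) ≤ w b)
    (Gp : Fin g → MvPolynomial (Fin ν) ℤ) (e : Fin g → ℕ) (hGh : ∀ a, (Gp a).IsHomogeneous (e a))
    (Fp : Fin q → Fin wd → MvPolynomial (Fin ν) ℤ) (d : Fin q → Fin wd → ℕ)
    (hFh : ∀ i j, (Fp i j).IsHomogeneous (d i j)) (hnc : NCf ℂ sc Gp Fp)
    (hGx : ∀ a, evi x (Gp a) = 0) (J : Fin (N + 1) → Fin ν)
    (hdet : (jetM (fun j => EE j) (fun i => x (J i))).det ≠ 0)
    (y1 : Fin ν) (hy1 : x y1 ≠ 0) (hmax : ∀ y, w (x y) ≤ w (x y1)) :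
    ∃ jj : Fin q → Fin wd,
      w ((jetM (fun j => EE j) (fun i => x (J i))).det * ∏ i, x y1 ^ (d i (jj i))) ≤
        w (x y1 ^ (N + 1) * ∏ i, evi x (Fp i (jj i))) := by
  set A := w.valuationSubring with hA
  have hEq := Valuation.isEquiv_valuation_valuationSubring w
  have hle : ∀ a b : L, w a ≤ w b ↔ A.valuation a ≤ A.valuation b := fun a b => hEq a b
  have hcz : CharZero (IsLocalRing.ResidueField A) := by
    refine charZero_of_inj_zero fun n hn => ?_
    by_contra hn0
    have h1 : IsLocalRing.residue A (n : A) = 0 := by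
      rw [map_natCast]
      exact hn
    rw [IsLocalRing.residue_eq_zero_iff, ValuationSubring.valuation_lt_one_iff] at h1
    have h2 : A.valuation (((n : A)) : L) = 1 := by
      have h3 : (((n : A)) : L) = (n : L) := by simp
      rw [h3]
      have h4 := hwn n hn0
      have h5 : w (1 : L) = 1 := map_one w
      have h6 : A.valuation (1 : L) = 1 := map_one _
      apply le_antisymm
      · rw [← h6, ← hle, h4, h5]
      · rw [← h6, ← hle, h4, h5]
    rw [h2] at h1
    exact lt_irrefl _ h1
  set T : Matrix (Fin ν) (Fin (N + 1)) L := Matrix.of fun y c =>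
    (Fin.cons (x y) (fun j => EE j (x y)) : Fin (N + 1) → L) c with hT
  obtain ⟨jj, -, hjj⟩ := place_abs A hν x T Gp e hGh Fp d hFh (NCf.transfer hnc) hGx J hdet y1 hy1
    (fun y => (hle _ _).1 (hmax y)) (by
      intro P dP hP c
      rw [← hle]
      refine Fin.cases ?_ (fun j => ?_) c
      · have h1 : ∑ y, evi x (pderiv y P) * T y 0 = dP * evi x P := cd5_euler x P dP hP
        rw [h1, map_mul]
        refine mul_le_of_le_one_left' ?_
        rcases Nat.eq_zero_or_pos dP with h0 | h0
        · rw [h0]
          simp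
        · exact (hwn dP (by omega)).le
      · have h1 : ∑ y, evi x (pderiv y P) * T y j.succ = EE j (evi x P) := cd5_der (EE j) x P
        rw [h1]
        exact hEE j _)
  exact ⟨jj, (hle _ _).2 (hjj J)⟩

end poly

open Pool.Agent.Y724.Vj in
private theorem cd5_final {L : Type} [Field L] (w : Valuation L (WithZero (Multiplicative ℤ)))
    {ν q wd N D : ℕ} {Fp : Fin q → Fin wd → MvPolynomial (Fin ν) ℤ} {d : Fin q → Fin wd → ℕ}
    (hD : ∀ i j, d i j ≤ D) {x : Fin ν → L} {y0 y1 : Fin ν} (hmax : w (x y0) ≤ w (x y1))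
    {δ u : L} {C : WithZero (Multiplicative ℤ)} (jj : Fin q → Fin wd) (hu : w u ≤ C)
    (h : C * w (δ * ∏ i, x y1 ^ (d i (jj i))) ≤ w (x y1 ^ (N + 1) * ∏ i, evi x (Fp i (jj i)))) :
    w (δ * u * x y0 ^ (q * D)) ≤ w (psiF N D Fp d x y1 jj) := by
  have h1 : x y1 ^ (q * D) = (∏ i, x y1 ^ (d i (jj i))) * ∏ i, x y1 ^ (D - d i (jj i)) := by
    rw [← Finset.prod_mul_distrib, mul_comm q D, pow_mul, ← Fin.prod_const q]
    refine Finset.prod_congr rfl fun i _ => ?_
    rw [← pow_add, Nat.add_sub_cancel' (hD i (jj i))]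
  have h2 : psiF N D Fp d x y1 jj =
      (x y1 ^ (N + 1) * ∏ i, evi x (Fp i (jj i))) * ∏ i, x y1 ^ (D - d i (jj i)) := by
    unfold psiF
    rw [Finset.prod_mul_distrib]
    ring
  calc w (δ * u * x y0 ^ (q * D)) = w δ * w u * w (x y0) ^ (q * D) := by
        rw [map_mul, map_mul, map_pow]
    _ ≤ w δ * C * w (x y1) ^ (q * D) :=
        mul_le_mul' (mul_le_mul' le_rfl hu) (pow_le_pow_left₀ zero_le hmax _)
    _ = (C * w (δ * ∏ i, x y1 ^ (d i (jj i)))) * w (∏ i, x y1 ^ (D - d i (jj i))) := by
        rw [← map_pow, h1, map_mul, map_mul]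
        ac_rfl
    _ ≤ _ := by
        rw [h2, map_mul w _ (∏ i, x y1 ^ (D - d i (jj i)))]
        exact mul_le_mul' h le_rfl

open Pool.Agent.Y724.Vj in
theorem cd5 : S_CD5 := by
  intro O F L _ _ _ _ _ _ _ _ _ _ _ _ hnat N E hE r ω ω' hr hω hωω' ν sc g q wd hν Gp eG hG Fp dF
    hF hnc D hDd x hxint hx0 hGx ρ b mm M hρint hbint hMd hFb J y0
  classical
  set φ : L := (jetM (fun j => E j) (fun i => x (J i))).det * ρ * x y0 ^ (q * D) with hφ
  by_cases hφ0 : φ = 0
  · rw [hφ0]
    exact Submodule.zero_mem _
  have hdet0 : (jetM (fun j => E j) (fun i => x (J i))).det ≠ 0 := by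
    intro h
    exact hφ0 (by rw [hφ, h, zero_mul, zero_mul])
  have hρ0 : ρ ≠ 0 := by
    intro h
    exact hφ0 (by rw [hφ, h, mul_zero, zero_mul])
  obtain ⟨z1, hz1⟩ : ∃ y, x y ≠ 0 := by
    by_contra h
    push Not at h
    exact hx0 (funext h)
  have hFjb0 : ∀ i, ∃ j, evi x (Fp i j) ≠ 0 := by
    intro i
    by_contra h
    push Not at h
    have h1 := hFb i z1
    rw [Finset.sum_eq_zero fun j _ => by rw [h j, zero_mul]] at h1
    exact mul_ne_zero (pow_ne_zero _ hρ0) (pow_ne_zero _ hz1) h1
  choose jb hFjb using hFjb0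
  have hFS : FaithfulSMul O L := by
    rw [faithfulSMul_iff_algebraMap_injective, IsScalarTower.algebraMap_eq O F L]
    exact (algebraMap F L).injective.comp (IsFractionRing.injective O F)
  have hDed : IsDedekindDomain (integralClosure O L) := integralClosure.isDedekindDomain O F L
  have hFr : IsFractionRing (integralClosure O L) L :=
    integralClosure.isFractionRing_of_finite_extension F L
  have hFin : Module.Finite O (integralClosure O L) :=
    IsIntegralClosure.finite O F L (integralClosure O L)
  have hPID : IsPrincipalIdealRing (integralClosure O L) := cdt_pid O F L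
  obtain ⟨π, hπ⟩ := IsDiscreteValuationRing.exists_irreducible O
  obtain ⟨c, ψ', s, hc, hψc, hs⟩ := cdt_exists_gen (B := integralClosure O L)
    (fun p : Fin ν × (Fin q → Fin wd) => psiF N D Fp dF x p.1 p.2) (by
      intro h
      have h1 := congrFun h (z1, jb)
      simp only [psiF, Pi.zero_apply] at h1
      rcases mul_eq_zero.1 h1 with h2 | h2
      · exact pow_ne_zero _ hz1 h2
      · rw [Finset.prod_eq_zero_iff] at h2
        obtain ⟨i, -, hi⟩ := h2
        rcases mul_eq_zero.1 hi with h3 | h3
        · exact hFjb i h3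
        · exact pow_ne_zero _ hz1 h3)
  set A := algebraMap (integralClosure O L) L with hA
  have hAO : ∀ a : O, A (algebraMap O (integralClosure O L) a) = algebraMap O L a :=
    fun a => (IsScalarTower.algebraMap_apply O (integralClosure O L) L a).symm
  -- the span
  have hspan : ∀ (b : integralClosure O L) (y : L), y * (c * A b) =
      ∑ p : Fin ν × (Fin q → Fin wd), (b * s p) • (y * psiF N D Fp dF x p.1 p.2) := by
    intro b y
    have h3 : A b = ∑ p : Fin ν × (Fin q → Fin wd), A (b * (s p * ψ' p)) := by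
      rw [← map_sum, ← Finset.mul_sum, hs, mul_one]
    rw [h3, Finset.mul_sum, Finset.mul_sum]
    refine Finset.sum_congr rfl fun p _ => ?_
    have h4 : psiF N D Fp dF x p.1 p.2 = c * A (ψ' p) := hψc p
    rw [Algebra.smul_def, h4, map_mul, map_mul, map_mul]
    ring
  suffices hint : ∀ d ∈ differentIdeal O (integralClosure O L), (φ / c) * A d ∈ A.range by
    have hdual : φ / c ∈
        FractionalIdeal.dual O F (1 : FractionalIdeal (integralClosure O L)⁰ L) := by
      have h1 := coeIdeal_differentIdeal O F L (integralClosure O L)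
      have h2 : FractionalIdeal.dual O F (1 : FractionalIdeal (integralClosure O L)⁰ L) =
          ((differentIdeal O (integralClosure O L) : Ideal (integralClosure O L)) :
            FractionalIdeal (integralClosure O L)⁰ L)⁻¹ := by
        rw [h1, inv_inv]
      have h3 : ((differentIdeal O (integralClosure O L) : Ideal (integralClosure O L)) :
            FractionalIdeal (integralClosure O L)⁰ L) ≠ 0 := by
        rw [h1]
        exact inv_ne_zero (FractionalIdeal.dual_ne_zero O F one_ne_zero)
      rw [h2, FractionalIdeal.mem_inv_iff h3]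
      intro y hy
      obtain ⟨d, hd, rfl⟩ := (FractionalIdeal.mem_coeIdeal _).1 hy
      obtain ⟨b, hb⟩ := hint d hd
      exact (FractionalIdeal.mem_one_iff _).2 ⟨b, hb⟩
    have h10 : (1 : FractionalIdeal (integralClosure O L)⁰ L) ≠ 0 := one_ne_zero
    rw [FractionalIdeal.mem_dual h10] at hdual
    have htr : ∀ i, ∃ o : O, algebraMap O F o = Algebra.trace F L ((φ / c) * ω i) := by
      intro i
      obtain ⟨o, ho⟩ := hdual (ω i) ((FractionalIdeal.mem_one_iff _).2 ⟨⟨ω i, hω i⟩, rfl⟩)
      exact ⟨o, ho⟩
    choose o ho using htr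
    have h6 : φ = ∑ i, ω' i * (c * A (algebraMap O (integralClosure O L) (o i))) := by
      have h7 : φ = c * (φ / c) := by
        field_simp
      conv_lhs => rw [h7, cdt_dual (F := F) ω ω' hr hωω' (φ / c)]
      rw [Finset.mul_sum]
      refine Finset.sum_congr rfl fun i _ => ?_
      rw [← ho i, ← IsScalarTower.algebraMap_apply, ← hAO]
      ring
    rw [h6]
    refine Submodule.sum_mem _ fun i _ => ?_
    rw [hspan]
    exact Submodule.sum_mem _ fun p _ =>
      Submodule.smul_mem _ _ (Submodule.subset_span ⟨(i, p), rfl⟩)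
  intro d hd
  apply HeightOneSpectrum.mem_integers_of_valuation_le_one
  intro P
  set w := P.valuation L with hw
  have hwB : ∀ b : integralClosure O L, w (A b) ≤ 1 := fun b => P.valuation_le_one b
  have hwO : ∀ a : O, w (algebraMap O L a) ≤ 1 := fun a => by
    rw [← hAO]; exact hwB _
  have hwI : ∀ y : L, IsIntegral O y → w y ≤ 1 := fun y hy => hwB ⟨y, hy⟩
  have hwz : ∀ n : ℤ, w (n : L) ≤ 1 := fun n => by
    have h1 : (n : L) = algebraMap O L (n : O) := by rw [map_intCast]
    rw [h1]
    exact hwO _
  have hwn : ∀ n : ℕ, n ≠ 0 → w (n : L) = 1 := by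
    intro n hn
    obtain ⟨u, hu⟩ := hnat n hn
    have h1 : (n : L) = algebraMap O L (u : O) := by rw [hu, map_natCast]
    have h2 : w (algebraMap O L (u : O)) * w (algebraMap O L (↑u⁻¹ : O)) = 1 := by
      rw [← map_mul, ← map_mul, Units.mul_inv, map_one, map_one]
    rw [h1]
    apply le_antisymm (hwO _)
    rw [← h2]
    exact mul_le_of_le_one_right' (hwO _)
  -- it is enough to find one member of the family
  suffices hkey : ∃ (y1 : Fin ν) (jj : Fin q → Fin wd), w (φ * A d) ≤ w (psiF N D Fp dF x y1 jj) by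
    obtain ⟨y1, jj, h⟩ := hkey
    have h1 : psiF N D Fp dF x y1 jj = c * A (ψ' (y1, jj)) := hψc (y1, jj)
    have h2 : w (φ * A d) ≤ w c := by
      refine h.trans ?_
      rw [h1, map_mul]
      exact mul_le_of_le_one_right' (hwB _)
    have h3 : w ((φ / c) * A d) = w (φ * A d) / w c := by
      rw [← map_div₀]
      congr 1
      field_simp
    rw [h3]
    exact div_le_one_of_le₀ h2 zero_le
  have hne : Nonempty (Fin ν) := ⟨z1⟩
  obtain ⟨y1, hmax⟩ := Finite.exists_max (fun y => w (x y))
  have hy1 : x y1 ≠ 0 := by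
    intro h
    have h1 := hmax z1
    rw [h, map_zero, le_zero_iff, Valuation.zero_iff] at h1
    exact hz1 h1
  have hwy1 : w (x y1) ≤ 1 := hwI _ (hxint y1)
  have hwρ : w ρ ≤ 1 := hwI _ hρint
  -- the uniformizer
  have hPmax : P.asIdeal.IsMaximal := P.isMaximal
  have hπP : algebraMap O (integralClosure O L) π ∈ P.asIdeal := by
    have h1 : (P.asIdeal.comap (algebraMap O (integralClosure O L))).IsMaximal :=
      Ideal.isMaximal_comap_of_isIntegral_of_isMaximal P.asIdeal
    have h2 := IsLocalRing.eq_maximalIdeal h1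
    rw [← Ideal.mem_comap, h2, hπ.maximalIdeal_eq, Ideal.mem_span_singleton]
  have hwπ : w (algebraMap O L π) < 1 := by
    rw [← hAO]
    exact (P.valuation_lt_one_iff_mem _).mpr hπP
  have hπL : algebraMap O L π ≠ 0 := by
    rw [Ne, FaithfulSMul.algebraMap_eq_zero_iff]
    exact hπ.ne_zero
  have hwπ0 : w (algebraMap O L π) ≠ 0 := by
    rw [Valuation.ne_zero_iff]; exact hπL
  obtain ⟨e, he⟩ : ∃ e : ℕ, w (algebraMap O L π) = WithZero.exp (-(e : ℤ) - 1) := by
    have h1 : WithZero.log (w (algebraMap O L π)) < 0 := by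
      rw [← WithZero.exp_log hwπ0, ← WithZero.exp_zero, WithZero.exp_lt_exp] at hwπ
      exact hwπ
    refine ⟨(-WithZero.log (w (algebraMap O L π)) - 1).toNat, ?_⟩
    rw [Int.toNat_of_nonneg (by omega)]
    conv_lhs => rw [← WithZero.exp_log hwπ0]
    congr 1
    ring
  -- (a)
  have ha : w (A d) ≤ WithZero.exp (-(e : ℤ)) := by
    have hle : P.intValuation (algebraMap O (integralClosure O L) π) ≤
        WithZero.exp (-((e + 1 : ℕ) : ℤ)) := by
      rw [← P.valuation_of_algebraMap (K := L)]
      change w (A _) ≤ _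
      rw [hAO, he]
      push_cast
      apply le_of_eq
      congr 1
      ring
    have h5 : P.asIdeal ^ (e + 1) ∣ (IsLocalRing.maximalIdeal O).map
        (algebraMap O (integralClosure O L)) := by
      rw [hπ.maximalIdeal_eq, Ideal.map_span, Set.image_singleton]
      exact (P.intValuation_le_pow_iff_dvd _ _).mp hle
    have hp : IsLocalRing.maximalIdeal O ≠ ⊥ := IsDiscreteValuationRing.not_a_field O
    have h6 := pow_sub_one_dvd_differentIdeal_aux O F L P.asIdeal (Nat.succ_ne_zero e) hp h5
    rw [Nat.succ_eq_add_one, Nat.add_sub_cancel] at h6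
    have h7 : d ∈ P.asIdeal ^ e := Ideal.dvd_iff_le.mp h6 hd
    change P.valuation L (algebraMap _ L _) ≤ _
    rw [P.valuation_of_algebraMap]
    exact (P.intValuation_le_pow_iff_mem _ _).mpr h7
  have ha1 : w (A d) ≤ 1 := hwB d
  have hgood : ∀ D : Derivation ℤ L L, (∀ a : O, ∃ b : O, D (algebraMap O L a) = algebraMap O L b) →
      (∃ b : O, D (algebraMap O L π) = algebraMap O L (π * b)) → ∀ b : L, w (D b) ≤ w b := by
    intro D hD hDπ b
    refine cdt_le_of_F (F := F) w hwn D (fun a => ?_) b
    obtain ⟨c, hc⟩ := cdt_F_eq (F := F) D hπ hD hDπ a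
    rw [hc, map_mul]
    exact mul_le_of_le_one_right' (hwO c)
  have hφd : φ * A d = (jetM (fun j => E j) (fun i => x (J i))).det * (ρ * A d) *
      x y0 ^ (q * D) := by
    rw [hφ]
    ring
  by_cases hall : ∀ j, ∃ b : O, E j (algebraMap O L π) = algebraMap O L (π * b)
  · -- (b)
    obtain ⟨jj, hjj⟩ := cd5_place w hwn hν x E (fun j b => hgood (E j) (hE j) (hall j) b) Gp eG
      hG Fp dF hF hnc hGx J hdet0 y1 hy1 hmax
    refine ⟨y1, jj, ?_⟩
    rw [hφd]
    refine cd5_final w hDd (hmax y0) jj (C := 1) ?_ (by rw [one_mul]; exact hjj)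
    rw [map_mul]
    exact mul_le_one' hwρ ha1
  · -- (c)
    push Not at hall
    obtain ⟨j0, hj0⟩ := hall
    obtain ⟨b0, hb0⟩ := hE j0 π
    have hb0u : IsUnit b0 := by
      by_contra hnu
      have h2 : π ∣ b0 := by
        have : b0 ∈ IsLocalRing.maximalIdeal O := (IsLocalRing.mem_maximalIdeal _).mpr hnu
        rw [hπ.maximalIdeal_eq, Ideal.mem_span_singleton] at this
        exact this
      obtain ⟨o', ho'⟩ := h2
      exact hj0 o' (by rw [hb0, ho'])
    obtain ⟨u, hu⟩ := hb0u
    choose bb hbb using fun j => hE j π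
    set cc : Fin N → O := fun j => if j = j0 then 0 else bb j * (↑u⁻¹ : O) with hcc
    set E' : Fin N → Derivation ℤ L L := fun j => E j - (algebraMap O L (cc j)) • E j0 with hE'
    have hE'a : ∀ j b, E' j b = E j b - algebraMap O L (cc j) * E j0 b := by
      intro j b
      rfl
    have hdet' : ∀ X : Fin (N + 1) → L, (jetM (fun j => E j) X).det = (jetM (fun j => E' j) X).det := by
      intro X
      apply cdt_col
        (Fin.cons 0 (fun j => algebraMap O L (cc j)) : Fin (N + 1) → L) j0.succ
        (by simp [hcc])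
      intro i j
      refine Fin.cases ?_ (fun j => ?_) j
      · simp [jetM]
      · simp only [jetM, Matrix.of_apply, Fin.cons_succ]
        rw [hE'a, hE'a]
        have : cc j0 = 0 := by simp [hcc]
        rw [this, map_zero]
        ring
    -- the exceptional derivation
    set D0 : Derivation ℤ L L := (algebraMap O L π) • E j0 with hD0
    have hDa : ∀ b, D0 b = algebraMap O L π * E j0 b := fun b => rfl
    have hDgood := hgood D0 (fun a => by
        obtain ⟨b, hb⟩ := hE j0 a
        exact ⟨π * b, by rw [hDa, hb, map_mul]⟩) ⟨b0, by rw [hDa, hb0, map_mul]⟩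
    have hE'good : ∀ j, j ≠ j0 → ∀ b : L, w (E' j b) ≤ w b := by
      intro j hj
      refine hgood (E' j) ?_ ?_
      · intro a
        obtain ⟨b1, hb1⟩ := hE j a
        obtain ⟨b2, hb2⟩ := hE j0 a
        exact ⟨b1 - cc j * b2, by rw [hE'a, hb1, hb2, map_sub, map_mul]⟩
      · refine ⟨0, ?_⟩
        rw [hE'a, hbb j, hb0, ← hu, ← map_mul, ← map_sub]
        congr 1
        simp only [hcc, if_neg hj]
        rw [mul_assoc, Units.inv_mul, mul_one, sub_self, mul_zero]
    have hDlt : ∀ b : L, w b ≤ 1 → w (D0 b) < 1 := by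
      intro b hb
      rcases lt_or_eq_of_le hb with hb | hb
      · exact (hDgood b).trans_lt hb
      · obtain ⟨p, h1, h2, h3⟩ := exists_poly (F := F) (L := L) (M := L) w hwn (ε := b) hb
          (Algebra.IsIntegral.isIntegral b)
        have h4 := D_aeval (F := F) (L := L) (M := L) (D0 : L →ₗ[ℤ] L).toAddMonoidHom
          (fun a b => D0.leibniz a b) b p
        have h5 : w (dc (F := F) (L := L) (M := L) (D0 : L →ₗ[ℤ] L).toAddMonoidHom b p) < 1 := by
          unfold dc
          rw [Polynomial.sum_def]
          apply Valuation.map_sum_lt w one_ne_zero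
          intro i _
          obtain ⟨o, ho⟩ := cdt_mem_of_le (O := O) w hwO hπ hwπ (p.coeff i) (h1 i)
          obtain ⟨b', hb'⟩ := hE j0 o
          rw [map_mul, map_pow]
          have h6 : (D0 : L →ₗ[ℤ] L).toAddMonoidHom (algebraMap F L (p.coeff i)) =
              algebraMap O L π * algebraMap O L b' := by
            rw [← ho, ← IsScalarTower.algebraMap_apply]
            change D0 _ = _
            rw [hDa, hb']
          rw [h6, map_mul]
          have h7 : w (algebraMap L L b) = 1 := hb
          rw [h7, one_pow, mul_one]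
          exact (mul_le_of_le_one_right' (hwO b')).trans_lt hwπ
        have h6 : w (D0 (Polynomial.aeval b p)) < 1 := (hDgood _).trans_lt h2
        have h7 : algebraMap L L (Polynomial.aeval b (Polynomial.derivative p)) * D0 b =
            D0 (Polynomial.aeval b p) -
              dc (F := F) (L := L) (M := L) (D0 : L →ₗ[ℤ] L).toAddMonoidHom b p := by
          have h8 : D0 (Polynomial.aeval b p) =
            dc (F := F) (L := L) (M := L) (D0 : L →ₗ[ℤ] L).toAddMonoidHom b p +
            algebraMap L L (Polynomial.aeval b (Polynomial.derivative p)) * D0 b := h4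
          rw [h8]; ring
        have h8 : w (algebraMap L L (Polynomial.aeval b (Polynomial.derivative p)) * D0 b) < 1 := by
          rw [h7]
          exact (w.map_sub _ _).trans_lt (max_lt h6 h5)
        rwa [map_mul, h3, one_mul] at h8
    have hE0 : ∀ b : L, w b ≤ 1 → w (E j0 b) ≤ WithZero.exp (e : ℤ) := by
      intro b hb
      have h1 := hDlt b hb
      rw [hDa, map_mul, he] at h1
      by_cases h0 : w (E j0 b) = 0
      · rw [h0]; exact zero_le
      rw [← WithZero.exp_log h0, ← WithZero.exp_add, ← WithZero.exp_zero,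
        WithZero.exp_lt_exp] at h1
      rw [← WithZero.exp_log h0, WithZero.exp_le_exp]
      omega
    have hcc0 : cc j0 = 0 := by simp [hcc]
    have hE'0 : ∀ b, E' j0 b = E j0 b := fun b => by
      rw [hE'a, hcc0, map_zero, zero_mul, sub_zero]
    -- the modified derivations
    set EE : Fin N → Derivation ℤ L L := fun j => if j = j0 then D0 else E' j with hEE
    have hEEgood : ∀ j b, w (EE j b) ≤ w b := by
      intro j b
      simp only [hEE]
      split_ifs with h
      · exact hDgood b
      · exact hE'good j h b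
    have hdetEE : (jetM (fun j => EE j) (fun i => x (J i))).det =
        algebraMap O L π * (jetM (fun j => E j) (fun i => x (J i))).det := by
      rw [hdet']
      have h1 : jetM (fun j => EE j) (fun i => x (J i)) = Matrix.of fun i c =>
          (if c = j0.succ then algebraMap O L π else 1) *
            jetM (fun j => E' j) (fun i => x (J i)) i c := by
        ext i c
        refine Fin.cases ?_ (fun j => ?_) c
        · simp only [jetM, Matrix.of_apply, Fin.cons_zero]
          rw [if_neg (Fin.succ_ne_zero j0).symm, one_mul]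
        · simp only [jetM, Matrix.of_apply, Fin.cons_succ]
          by_cases hj : j = j0
          · rw [hj, if_pos rfl]
            simp only [hEE, if_true]
            rw [hDa, hE'0]
          · rw [if_neg (fun h => hj (Fin.succ_injective _ h)), one_mul]
            simp only [hEE, if_neg hj]
      rw [h1, Matrix.det_mul_row, Finset.prod_ite_eq' Finset.univ j0.succ
        (fun _ => algebraMap O L π), if_pos (Finset.mem_univ _)]
    by_cases hsmall : ∃ i, ∀ j, w (evi x (Fp i j)) < w (x y1) ^ (dF i j)
    · -- the point is close to the divisor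
      obtain ⟨i, hi⟩ := hsmall
      have hρ1 : w ρ < 1 := by
        have h1 : w (ρ ^ mm) < 1 := by
          have h4 : w (ρ ^ mm * x y1 ^ M) < w (x y1) ^ M := by
            rw [hFb i y1]
            refine Valuation.map_sum_lt w (pow_ne_zero _ (by
              rw [Valuation.ne_zero_iff]; exact hy1)) fun j _ => ?_
            rw [map_mul]
            refine lt_of_le_of_lt (mul_le_of_le_one_right' (hwI _ (hbint i y1 j))) ?_
            exact (hi j).trans_le (pow_le_pow_of_le_one zero_le hwy1 (hMd i j))
          rw [map_mul, map_pow w (x y1)] at h4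
          exact lt_of_mul_lt_mul_right (by rwa [one_mul]) zero_le
        rw [map_pow] at h1
        by_contra h2
        have h3 : w ρ = 1 := le_antisymm hwρ (not_lt.1 h2)
        rw [h3, one_pow] at h1
        exact lt_irrefl _ h1
      have hρ2 : w ρ ≤ WithZero.exp (-1 : ℤ) := by
        have h0 : w ρ ≠ 0 := by rw [Valuation.ne_zero_iff]; exact hρ0
        rw [← WithZero.exp_log h0, ← WithZero.exp_zero, WithZero.exp_lt_exp] at hρ1
        rw [← WithZero.exp_log h0, WithZero.exp_le_exp]
        omega
      obtain ⟨jj, hjj⟩ := cd5_place w hwn hν x EE hEEgood Gp eG hG Fp dF hF hnc hGx J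
        (by rw [hdetEE]; exact mul_ne_zero hπL hdet0) y1 hy1 hmax
      refine ⟨y1, jj, ?_⟩
      rw [hφd]
      refine cd5_final w hDd (hmax y0) jj (C := w (algebraMap O L π)) ?_ ?_
      · rw [map_mul, he]
        refine (mul_le_mul' hρ2 ha).trans (le_of_eq ?_)
        rw [← WithZero.exp_add]
        congr 1
        ring
      · rw [← map_mul, ← mul_assoc, ← hdetEE]
        exact hjj
    · -- the point is away from the divisor
      push Not at hsmall
      choose jj hjj using hsmall
      refine ⟨y1, jj, ?_⟩
      have hψ : w (psiF N D Fp dF x y1 jj) = w (x y1) ^ (N + 1) * w (x y1) ^ (q * D) := by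
        have h1 : ∀ i, w (evi x (Fp i (jj i))) = w (x y1) ^ (dF i (jj i)) := fun i =>
          le_antisymm (cd5_evi_le w hwz x hmax _ _ (hF i (jj i))) (hjj i)
        unfold psiF
        rw [map_mul, map_pow, map_prod]
        congr 1
        have h2 : ∀ i, w (evi x (Fp i (jj i)) * x y1 ^ (D - dF i (jj i))) = w (x y1) ^ D := by
          intro i
          rw [map_mul, map_pow, h1, ← pow_add, Nat.add_sub_cancel' (hDd i (jj i))]
        rw [Finset.prod_congr rfl fun i _ => h2 i, Fin.prod_const, ← pow_mul, mul_comm D q]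
      have hdetx : (jetM (fun j => E j) (fun i => x (J i))).det =
          x y1 ^ (N + 1) * (jetM (fun j => E j) (fun i => x (J i) / x y1)).det := by
        have h1 : (jetM (fun j => E j) (fun i => x (J i))).det =
            (x y1 • jetM (fun j => E j) (fun i => x (J i) / x y1)).det := by
          apply cdt_col
            (Fin.cons 0 (fun j => E j (x y1) / x y1) : Fin (N + 1) → L) 0 (by simp)
          intro i j
          refine Fin.cases ?_ (fun j => ?_) j
          · simp only [jetM, Matrix.of_apply, Matrix.smul_apply, Fin.cons_zero, smul_eq_mul,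
              zero_mul, add_zero]
            field_simp
          · simp only [jetM, Matrix.of_apply, Matrix.smul_apply, Fin.cons_succ, Fin.cons_zero,
              smul_eq_mul]
            have h2 : x (J i) = x y1 * (x (J i) / x y1) := by field_simp
            have h3 := congrArg (E j) h2
            rw [Derivation.leibniz, smul_eq_mul, smul_eq_mul] at h3
            rw [h3]
            field_simp
        rw [h1, Matrix.det_smul, Fintype.card_fin]
      have hx' : ∀ i, w (x (J i) / x y1) ≤ 1 := by
        intro i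
        rw [map_div₀]
        exact div_le_one_of_le₀ (hmax (J i)) zero_le
      have h1 : w (jetM (fun j => E' j) (fun i => x (J i) / x y1)).det ≤
          ∏ c : Fin (N + 1), (if c = j0.succ then WithZero.exp (e : ℤ) else 1) := by
        apply cdt_val_det_le
        intro i c
        refine Fin.cases ?_ (fun j => ?_) c
        · simp only [jetM, Matrix.of_apply, Fin.cons_zero]
          rw [if_neg (Fin.succ_ne_zero j0).symm]
          exact hx' i
        · simp only [jetM, Matrix.of_apply, Fin.cons_succ]
          by_cases hj : j = j0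
          · rw [hj, if_pos rfl, hE'0]
            exact hE0 _ (hx' i)
          · rw [if_neg (fun h => hj (Fin.succ_injective _ h))]
            exact (hE'good j hj _).trans (hx' i)
      rw [Finset.prod_ite_eq' Finset.univ j0.succ (fun _ => WithZero.exp (e : ℤ)),
        if_pos (Finset.mem_univ _)] at h1
      rw [hψ, hφd, hdetx, hdet']
      have h2 : w (jetM (fun j => E' j) (fun i => x (J i) / x y1)).det * w (A d) ≤ 1 := by
        refine (mul_le_mul' h1 ha).trans ?_
        rw [← WithZero.exp_add, ← WithZero.exp_zero, WithZero.exp_le_exp]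
        omega
      calc w (x y1 ^ (N + 1) * (jetM (fun j => E' j) (fun i => x (J i) / x y1)).det *
            (ρ * A d) * x y0 ^ (q * D))
          = w (x y1) ^ (N + 1) * (w ρ * (w (jetM (fun j => E' j) (fun i => x (J i) / x y1)).det *
              w (A d)) * w (x y0) ^ (q * D)) := by
            rw [map_mul, map_mul, map_mul, map_mul, map_pow, map_pow]
            ac_rfl
        _ ≤ w (x y1) ^ (N + 1) * (1 * 1 * w (x y1) ^ (q * D)) :=
            mul_le_mul' le_rfl (mul_le_mul' (mul_le_mul' hwρ h2)
              (pow_le_pow_left₀ zero_le (hmax y0) _))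
        _ = _ := by rw [one_mul, one_mul]

end Pool.Agent.Y724.T4
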