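import Mathlib
import Pool.Agent.Y724.T4.FIN5

/-!
# The factors outside `S`
-/

set_option autoImplicit false

namespace Pool.Agent.Y724.T4

open MvPolynomial NumberField

section fw5
variable {F : Type} [Field F] [NumberField F]

lemma fmem_eq (A : Finset (FinitePlace F)) (B : Set (FinitePlace F)) (f : FinitePlace F → ℝ)
    (h : ∀ v, f v ≠ 0 → v ∈ A) [DecidablePred (· ∈ B)] :
    ∑ᶠ v ∈ B, f v = ∑ v ∈ A.filter (· ∈ B), f v := by
  refine finsum_mem_eq_sum_of_inter_support_eq _ ?_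
  ext v
  simp only [Set.mem_inter_iff, Function.mem_support, Finset.coe_filter, Set.mem_ofPred_eq]
  constructor
  · rintro ⟨h1, h2⟩
    exact ⟨⟨h v h2, h1⟩, h2⟩
  · rintro ⟨⟨_, h1⟩, h2⟩
    exact ⟨h1, h2⟩

end fw5

theorem fw5 (hNRM : S_NRM) : S_FW4 := by
  classical
  intro K _ _ S hS r hr hrK W' hW' e he ν q w Fp d x hx hF ρ hρ
  have heK : (e : K) ≠ 0 := by exact_mod_cast he
  have hpos1 : ∀ v : FinitePlace K, 0 < ⨆ i, v (W' i) := fun v => sup_pos hW' v.1
  have hpos2 : ∀ v : FinitePlace K, 0 < v (e : K) := fun v => v.1.pos heK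
  have hpos3 : ∀ v : FinitePlace K, 0 < v ρ := fun v => v.1.pos hρ
  have hposX : ∀ v : FinitePlace K, 0 < ⨆ y, v (x y) := fun v => sup_pos hx v.1
  set g : Fin q → FinitePlace K → ℝ := fun i v =>
    ⨆ j, v (aeval x (Fp i j)) / (⨆ y, v (x y)) ^ d i j with hg
  have hgpos : ∀ i v, 0 < g i v := by
    intro i v
    obtain ⟨j, hj⟩ := hF i
    exact (div_pos (v.1.pos hj) (pow_pos (hposX v) _)).trans_le
      (le_ciSup (f := fun j => v (aeval x (Fp i j)) / (⨆ y, v (x y)) ^ d i j)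
        (Set.finite_range _).bddAbove j)
  have hgl : ∀ i v, locH (Fp i) (d i) x v.1 = -Real.log (g i v) := fun i v => rfl
  have hlfin : ∀ i, {v : FinitePlace K | locH (Fp i) (d i) x v.1 ≠ 0}.Finite := fun i =>
    locH_fin (Fp i) (d i) x hx (hF i)
  have hgfin : ∀ i, {v : FinitePlace K | g i v ≠ 1}.Finite := by
    intro i
    refine (hlfin i).subset fun v hv h => hv ?_
    rw [hgl, neg_eq_zero] at h
    exact Real.eq_one_of_pos_of_log_eq_zero (hgpos i v) h
  obtain ⟨hWf, hWs⟩ := finsum_W hNRM S hS hr hrK W' hW' e he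
  have hρf := fin_ne_one hρ
  set A : Finset (FinitePlace K) := hWf.toFinset ∪
    (Finset.univ.biUnion fun i => (hgfin i).toFinset) ∪ hρf.toFinset with hA
  have hAW : ∀ v, (⨆ i, v (W' i)) / v (e : K) ≠ 1 → v ∈ A := by
    intro v hv
    rw [hA, Finset.mem_union, Finset.mem_union]
    exact Or.inl (Or.inl (by rw [Set.Finite.mem_toFinset]; exact hv))
  have hAg : ∀ i v, g i v ≠ 1 → v ∈ A := by
    intro i v hv
    rw [hA, Finset.mem_union, Finset.mem_union]
    exact Or.inl (Or.inr (Finset.mem_biUnion.2 ⟨i, Finset.mem_univ _, by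
      rw [Set.Finite.mem_toFinset]; exact hv⟩))
  have hAρ : ∀ v : FinitePlace K, v ρ ≠ 1 → v ∈ A := by
    intro v hv
    rw [hA, Finset.mem_union]
    exact Or.inr (by rw [Set.Finite.mem_toFinset]; exact hv)
  have hprod : ∀ v, v ∉ A → ((⨆ i, v (W' i)) / v (e : K)) * (∏ i, g i v) / v ρ = 1 := by
    intro v hv
    have h1 : (⨆ i, v (W' i)) / v (e : K) = 1 := by
      by_contra h
      exact hv (hAW v h)
    have h2 : ∀ i, g i v = 1 := by
      intro i
      by_contra h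
      exact hv (hAg i v h)
    have h3 : v ρ = 1 := by
      by_contra h
      exact hv (hAρ v h)
    rw [h1, Finset.prod_congr rfl fun i _ => h2 i, h3, Finset.prod_const_one]
    norm_num
  have hpos : ∀ v : FinitePlace K,
      0 < ((⨆ i, v (W' i)) / v (e : K)) * (∏ i, g i v) / v ρ := fun v =>
    div_pos (mul_pos (div_pos (hpos1 v) (hpos2 v)) (Finset.prod_pos fun i _ => hgpos i v)) (hpos3 v)
  refine ⟨A.finite_toSet.subset fun v hv => ?_, hpos, ?_⟩
  · by_contra hcon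
    exact hv (hprod v hcon)
  have h0 : ∀ (f : FinitePlace K → ℝ), (∀ v, f v ≠ 1 → v ∈ A) →
      ∀ v, Real.log (f v) ≠ 0 → v ∈ A := by
    intro f hf v hv
    refine hf v fun h => hv ?_
    rw [h, Real.log_one]
  have e1 := fmem_eq A (Over K S)ᶜ
    (fun v => Real.log (((⨆ i, v (W' i)) / v (e : K)) * (∏ i, g i v) / v ρ))
    (h0 (fun v => ((⨆ i, v (W' i)) / v (e : K)) * (∏ i, g i v) / v ρ) (fun v hv => by
      by_contra hcon
      exact hv (hprod v hcon)))
  have e2 := fmem_eq A (Over K S)ᶜ (fun v => Real.log ((⨆ i, v (W' i)) / v (e : K)))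
    (h0 (fun v => (⨆ i, v (W' i)) / v (e : K)) hAW)
  have e3 : ∀ i, ∑ᶠ v ∈ (Over K S)ᶜ, locH (Fp i) (d i) x v.1 =
      ∑ v ∈ A.filter (· ∈ (Over K S)ᶜ), -Real.log (g i v) := fun i =>
    fmem_eq A (Over K S)ᶜ (fun v => -Real.log (g i v)) (fun v hv =>
      h0 (g i) (hAg i) v (fun h => hv (by rw [h, neg_zero])))
  have e4 := fmem_eq A (Over K S)ᶜ (fun v : FinitePlace K => Real.log (v ρ))
    (h0 (fun v => v ρ) hAρ)
  rw [e2] at hWs
  change ∑ᶠ v ∈ (Over K S)ᶜ, Real.log (((⨆ i, v (W' i)) / v (e : K)) * (∏ i, g i v) / v ρ) ≤ _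
  rw [e1, e4, Finset.sum_congr rfl fun i _ => e3 i, Finset.sum_comm]
  have h5 : ∑ v ∈ A.filter (· ∈ (Over K S)ᶜ),
      Real.log (((⨆ i, v (W' i)) / v (e : K)) * (∏ i, g i v) / v ρ) =
      ∑ v ∈ A.filter (· ∈ (Over K S)ᶜ), Real.log ((⨆ i, v (W' i)) / v (e : K)) -
      ∑ v ∈ A.filter (· ∈ (Over K S)ᶜ), ∑ i, -Real.log (g i v) -
      ∑ v ∈ A.filter (· ∈ (Over K S)ᶜ), Real.log (v ρ) := by
    rw [← Finset.sum_sub_distrib, ← Finset.sum_sub_distrib]
    refine Finset.sum_congr rfl fun v _ => ?_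
    rw [Real.log_div (mul_pos (div_pos (hpos1 v) (hpos2 v))
      (Finset.prod_pos fun i _ => hgpos i v)).ne' (hpos3 v).ne',
      Real.log_mul (div_pos (hpos1 v) (hpos2 v)).ne' (Finset.prod_pos fun i _ => hgpos i v).ne',
      Real.log_prod fun i _ => (hgpos i v).ne', Finset.sum_neg_distrib]
    ring
  rw [h5]
  linarith

end Pool.Agent.Y724.T4
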