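import Mathlib
import Pool.Agent.Y724.T4.RES7
import Pool.Agent.Y724.T4.BIG

/-!
# The line `x 0 + x 1 + x 2 = 0` and the three points `x i = 0`
-/

set_option autoImplicit false

namespace Pool.Agent.Y724.T4

open MvPolynomial NumberField

/-- the equation of the line -/
noncomputable def lineG : Fin 1 → MvPolynomial (Fin (1 + 1 + 1)) ℤ := fun _ => X 0 + X 1 + X 2

/-- the three points -/
noncomputable def lineF : Fin 3 → Fin 1 → MvPolynomial (Fin (1 + 1 + 1)) ℤ := fun i _ => X i

lemma lineG_hom : ∀ k, (lineG k).IsHomogeneous 1 := fun _ =>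
  ((isHomogeneous_X _ _).add (isHomogeneous_X _ _)).add (isHomogeneous_X _ _)

lemma lineF_hom : ∀ i j, (lineF i j).IsHomogeneous 1 := fun _ _ => isHomogeneous_X _ _

lemma line_on {L : Type} [Field L] (x : Fin (1 + 1 + 1) → L) :
    (∀ k, aeval x (lineG k) = 0) ↔ x 0 + x 1 + x 2 = 0 := by
  unfold lineG
  simp

lemma line_dim : R7.DimGE 1 lineG := by
  refine ⟨![0, 1], fun P hP => ?_⟩
  have h1 : ∀ z : Fin 2 → ℚ, aeval z P = 0 := by
    intro z
    have h2 := hP ![(z 0 : ℂ), (z 1 : ℂ), -(z 0 : ℂ) - (z 1 : ℂ)] (by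
      rw [line_on]
      simp)
    have h3 : (fun i => ![(z 0 : ℂ), (z 1 : ℂ), -(z 0 : ℂ) - (z 1 : ℂ)] (![0, 1] i)) =
        fun i => algebraMap ℚ ℂ (z i) := by
      funext i
      fin_cases i <;> rfl
    rw [h3] at h2
    have h4 := aeval_algebraMap_apply ℂ z P
    have h5 : aeval (fun i => algebraMap ℚ ℂ (z i)) P = 0 := h2
    have h6 : algebraMap ℚ ℂ (aeval z P) = 0 := by
      rw [← h4]
      exact h5
    exact (map_eq_zero _).1 h6
  apply MvPolynomial.funext
  intro z
  rw [map_zero]
  have := h1 z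
  rwa [aeval_eq_eval] at this

lemma line_smooth : R7.SmoothPair 1 lineG lineF := by
  intro z hz hzG
  rw [line_on] at hzG
  refine ⟨fun _ => 0, fun _ => 0, ?_⟩
  have hG : ∀ y : Fin 3, aeval z (pderiv y (lineG 0)) = 1 := by
    intro y
    unfold lineG
    fin_cases y <;> simp [pderiv_X]
  have hF : ∀ (i y : Fin 3), aeval z (pderiv y (lineF i 0)) = if i = y then 1 else 0 := by
    intro i y
    unfold lineF
    rw [pderiv_X]
    by_cases h : i = y
    · subst h
      simp
    · rw [Pi.single_eq_of_ne (fun h' => h h')]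
      simp [h]
  have hF0 : ∀ i : Fin 3, (∀ j, aeval z (lineF i j) = 0) → z i = 0 := by
    intro i h
    have := h 0
    unfold lineF at this
    rwa [aeval_X] at this
  classical
  rw [Fintype.linearIndependent_iff]
  intro c hc
  have hy : ∀ y : Fin 3, c (Sum.inl 0) + ∑ i : {i : Fin 3 // ∀ j, aeval z (lineF i j) = 0},
      c (Sum.inr i) * (if i.1 = y then 1 else 0) = 0 := by
    intro y
    have h1 := congrFun hc y
    rw [Fintype.sum_sum_type, Fin.sum_univ_one, Pi.add_apply, Finset.sum_apply] at h1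
    refine Eq.trans ?_ h1
    simp only [Sum.elim_inl, Sum.elim_inr, Pi.smul_apply, smul_eq_mul]
    rw [hG, mul_one]
    congr 1
    exact Finset.sum_congr rfl fun i _ => by rw [hF]
  have hc0 : c (Sum.inl 0) = 0 := by
    obtain ⟨y, hy0⟩ := Function.ne_iff.1 hz
    have h1 := hy y
    rwa [Finset.sum_eq_zero, add_zero] at h1
    intro i _
    rw [if_neg, mul_zero]
    intro h
    exact hy0 (by rw [← h]; exact hF0 i.1 i.2)
  intro i
  rcases i with i | i
  · rw [Subsingleton.elim i 0]
    exact hc0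
  · have h1 := hy i.1
    rw [hc0, zero_add, Finset.sum_eq_single i] at h1
    · rwa [if_pos rfl, mul_one] at h1
    · intro j _ hj
      rw [if_neg, mul_zero]
      exact fun h => hj (Subtype.ext h)
    · intro h
      exact absurd (Finset.mem_univ i) h

section nf
variable {K : Type} [Field K] [NumberField K]

/-- a basis of the tangent space of the cone over the line -/
def lineT (K : Type) [Field K] : Matrix (Fin (1 + 1 + 1)) (Fin (1 + 1)) K :=
  !![1, 0; 0, 1; -1, -1]

omit [NumberField K] in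
lemma lineT_basis (x : Fin (1 + 1 + 1) → K) : R7.IsTangentBasis lineG x (lineT K) := by
  constructor
  · rw [Fintype.linearIndependent_iff]
    intro c hc
    have h0 := congrFun hc 0
    have h1 := congrFun hc 1
    simp [lineT, Fin.sum_univ_succ] at h0 h1
    intro i
    fin_cases i
    · exact h0
    · exact h1
  · intro k c
    have hG : ∀ y : Fin 3, aeval x (pderiv y (lineG k)) = 1 := by
      intro y
      unfold lineG
      fin_cases y <;> simp [pderiv_X]
    rw [Finset.sum_congr rfl fun y _ => by rw [hG y, one_mul]]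
    fin_cases c <;> simp [lineT, Fin.sum_univ_succ]

/-- a vector with entries `0`, `1`, `-1` has height `0` -/
lemma height_signs {ι : Type} [Finite ι] (u : ι → K) (hu : u ≠ 0)
    (h : ∀ i, u i = 0 ∨ u i = 1 ∨ u i = -1) : Height.logHeight u = 0 := by
  have hsup : ∀ v : AbsoluteValue K ℝ, (⨆ i, v (u i)) = 1 := by
    intro v
    obtain ⟨i, hi⟩ := Function.ne_iff.1 hu
    have : Nonempty ι := ⟨i⟩
    have h1 : ∀ i, v (u i) ≤ 1 := by
      intro i
      rcases h i with h | h | h <;> rw [h] <;> simp [map_neg_eq_map]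
    apply le_antisymm (ciSup_le h1)
    refine le_trans (le_of_eq ?_) (le_ciSup (f := fun i => v (u i)) (Finite.bddAbove_range _) i)
    rcases h i with h | h | h
    · exact absurd h hi
    · simp only [h, map_one]
    · simp only [h, map_neg_eq_map, map_one]
  rw [logHeight_sum hu]
  have h1 : ∀ v : InfinitePlace K, Real.log (⨆ i, v (u i)) = 0 := fun v => by
    have := hsup v.1
    change Real.log (⨆ i, v.1 (u i)) = 0
    rw [this, Real.log_one]
  have h2 : ∀ v : FinitePlace K, Real.log (⨆ i, v (u i)) = 0 := fun v => by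
    have := hsup v.1
    change Real.log (⨆ i, v.1 (u i)) = 0
    rw [this, Real.log_one]
  rw [Finset.sum_eq_zero fun v _ => by rw [h1, mul_zero], finsum_congr h2, finsum_zero, add_zero]

lemma line_canonical (x : Fin (1 + 1 + 1) → K) :
    R7.canonicalHeight x (lineT K) = -2 * Height.logHeight x / Module.finrank ℚ K := by
  unfold R7.canonicalHeight
  rw [height_signs]
  · push_cast
    ring
  · intro h
    have h1 : ((lineT K).submatrix ![0, 1] id).det = 0 := congrFun h ![0, 1]
    have h2 : ((lineT K).submatrix ![0, 1] id).det = 1 := by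
      rw [Matrix.det_fin_two]
      simp [lineT]
    exact one_ne_zero (h2.symm.trans h1)
  · intro J
    rw [Matrix.det_fin_two]
    simp only [Matrix.submatrix_apply, id]
    generalize J 0 = a
    generalize J 1 = b
    fin_cases a <;> fin_cases b <;> simp [lineT]

omit [NumberField K] in
lemma line_local (x : Fin (1 + 1 + 1) → K) (hx : ∀ i, x i ≠ 0) (i : Fin 3)
    (v : AbsoluteValue K ℝ) :
    R7.localHeight (lineF i) (fun _ => 1) x v = Real.log (⨆ j, v (x j)) - Real.log (v (x i)) := by
  have hx0 : x ≠ 0 := fun h => hx 0 (by rw [h]; rfl)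
  unfold R7.localHeight lineF
  rw [ciSup_unique, aeval_X, pow_one, Real.log_div (v.pos (hx i)).ne' (sup_pos hx0 v).ne',
    neg_sub]

/-- the places at which the point meets one of the three points -/
lemma line_meets (x : Fin (1 + 1 + 1) → K) (hx : ∀ i, x i ≠ 0) (v : FinitePlace K) :
    (∃ i, 0 < R7.localHeight (lineF i) (fun _ => 1) x v.1) ↔
      ∃ i j : Fin (1 + 1 + 1), v (x i) ≠ v (x j) := by
  have hx0 : x ≠ 0 := fun h => hx 0 (by rw [h]; rfl)
  have hle : ∀ i, v (x i) ≤ ⨆ j, v (x j) := fun i =>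
    le_ciSup (f := fun j => v (x j)) (Finite.bddAbove_range _) i
  have hpos : ∀ i, 0 < v (x i) := fun i => v.1.pos (hx i)
  have h1 : ∀ i, 0 < R7.localHeight (lineF i) (fun _ => 1) x v.1 ↔ v (x i) < ⨆ j, v (x j) := by
    intro i
    rw [line_local x hx, sub_pos]
    exact Real.log_lt_log_iff (hpos i) (sup_pos hx0 v.1)
  obtain ⟨j0, hj0⟩ := exists_eq_ciSup_of_finite (f := fun j => v (x j))
  constructor
  · rintro ⟨i, hi⟩
    rw [h1, ← hj0] at hi
    exact ⟨i, j0, hi.ne⟩
  · rintro ⟨i, j, hij⟩
    by_contra hcon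
    push Not at hcon
    have h2 : ∀ i, v (x i) = ⨆ j, v (x j) := by
      intro i
      refine le_antisymm (hle i) ?_
      by_contra h
      push Not at h
      exact absurd ((h1 i).2 h) (not_lt.2 (hcon i))
    exact hij ((h2 i).trans (h2 j).symm)

lemma line_truncated (S : Finset ℕ) (x : Fin (1 + 1 + 1) → K) (hx : ∀ i, x i ≠ 0) :
    R7.truncated lineF (fun _ _ => 1) S x ≤
      (∑ᶠ v ∈ {v : FinitePlace K | ∃ i j : Fin (1 + 1 + 1), v (x i) ≠ v (x j)},
        Real.log ((Ideal.absNorm v.maximalIdeal.asIdeal : ℕ) : ℝ)) / Module.finrank ℚ K := by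
  classical
  unfold R7.truncated
  refine div_le_div_of_nonneg_right ?_ (Nat.cast_nonneg _)
  have hfin : {v : FinitePlace K | ∃ i j : Fin (1 + 1 + 1), v (x i) ≠ v (x j)}.Finite := by
    refine (Set.finite_iUnion fun i => fin_ne_one (hx i)).subset ?_
    rintro v ⟨i, j, hij⟩
    rw [Set.mem_iUnion]
    by_contra hcon
    push Not at hcon
    have h1 : ∀ i, v (x i) = 1 := fun i => by
      by_contra h
      exact hcon i h
    exact hij ((h1 i).trans (h1 j).symm)
  have hsub : {v : FinitePlace K | v ∉ R7.placesOver K S ∧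
      ∃ i, 0 < R7.localHeight (lineF i) (fun _ => 1) x v.1} ⊆
      {v : FinitePlace K | ∃ i j : Fin (1 + 1 + 1), v (x i) ≠ v (x j)} := fun v hv =>
    (line_meets x hx v).1 hv.2
  rw [finsum_mem_eq_finite_toFinset_sum _ (hfin.subset hsub),
    finsum_mem_eq_finite_toFinset_sum _ hfin]
  refine Finset.sum_le_sum_of_subset_of_nonneg ?_ fun v _ _ => Real.log_natCast_nonneg _
  intro v hv
  rw [Set.Finite.mem_toFinset] at hv ⊢
  exact hsub hv

lemma size_comp {ι ι' : Type} [Fintype ι] [Fintype ι'] (z : ι → ℚ) (e : ι' → ι)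
    (he : Function.Surjective e) : R7.size (z ∘ e) = R7.size z := by
  unfold R7.size
  apply le_antisymm
  · exact Finset.sup_le fun i _ =>
      Finset.le_sup (f := fun i => max (z i).num.natAbs (z i).den) (Finset.mem_univ (e i))
  · refine Finset.sup_le fun i _ => ?_
    obtain ⟨j, rfl⟩ := he i
    exact Finset.le_sup (f := fun j => max ((z ∘ e) j).num.natAbs ((z ∘ e) j).den)
      (Finset.mem_univ j)

lemma short_comp {ι ι' : Type} [Fintype ι] [Fintype ι'] (z : ι → ℚ) (e : ι' → ι)
    (he : Function.Surjective e) {S : Finset ℕ} {l : ℕ} {B δ : ℝ}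
    (h : R7.IsShortSum S l B δ z) : R7.IsShortSum S l B δ (z ∘ e) := by
  obtain ⟨u, m, h1, h2, h3⟩ := h
  refine ⟨u, fun j i => m j (e i), h1, fun j i => ?_, fun i => h3 (e i)⟩
  rw [size_comp z e he]
  exact h2 j (e i)

lemma line_divisor (x : Fin (1 + 1 + 1) → K) (hx : ∀ i, x i ≠ 0) :
    R7.divisorHeight lineF (fun _ _ => 1) x = 3 * Height.logHeight x / Module.finrank ℚ K := by
  have hx0 : x ≠ 0 := fun h => hx 0 (by rw [h]; rfl)
  have hloc : ∀ (i : Fin 3) (v : AbsoluteValue K ℝ),
      R7.localHeight (lineF i) (fun _ => 1) x v = Real.log (⨆ j, v (x j)) - Real.log (v (x i)) :=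
    fun i v => line_local x hx i v
  have hi : ∀ i : Fin 3, ∑ v : InfinitePlace K, v.mult * R7.localHeight (lineF i) (fun _ => 1) x v.1 +
      ∑ᶠ v : FinitePlace K, R7.localHeight (lineF i) (fun _ => 1) x v.1 = Height.logHeight x := by
    intro i
    have h1 := logHeight_sum hx0
    have h2 := prod_formula (hx i)
    have h3 : ∑ᶠ v : FinitePlace K, R7.localHeight (lineF i) (fun _ => 1) x v.1 =
        ∑ᶠ v : FinitePlace K, Real.log (⨆ j, v (x j)) - ∑ᶠ v : FinitePlace K, Real.log (v (x i)) := by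
      rw [← finsum_sub_distrib]
      · exact finsum_congr fun v => hloc i v.1
      · refine (sup_fin hx0).subset fun v hv h => hv ?_
        change Real.log (⨆ i, v (x i)) = 0
        rw [h, Real.log_one]
      · refine (fin_ne_one (hx i)).subset fun v hv h => hv ?_
        change Real.log (v (x i)) = 0
        rw [h, Real.log_one]
    have h4 : ∑ v : InfinitePlace K, v.mult * R7.localHeight (lineF i) (fun _ => 1) x v.1 =
        ∑ v : InfinitePlace K, v.mult * Real.log (⨆ j, v (x j)) -
        ∑ v : InfinitePlace K, v.mult * Real.log (v (x i)) := by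
      rw [← Finset.sum_sub_distrib]
      refine Finset.sum_congr rfl fun v _ => ?_
      rw [hloc i v.1]
      exact mul_sub _ _ _
    rw [h3, h4, h1]
    linarith
  unfold R7.divisorHeight
  rw [Finset.sum_congr rfl fun i _ => hi i, Finset.sum_const, Finset.card_univ, Fintype.card_fin]
  simp

/-- the height of `(a, b, -a - b)` -/
lemma height_third (x : Fin (1 + 1 + 1) → K) (hx : x ≠ 0) (h : x 0 + x 1 + x 2 = 0) :
    Height.logHeight x ≤ Height.logHeight ![x 0, x 1] + Module.finrank ℚ K * Real.log 2 := by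
  have h2 : x 2 = -(x 0 + x 1) := by linear_combination h
  have hu : (![x 0, x 1] : Fin 2 → K) ≠ 0 := by
    intro h0
    have e0 : x 0 = 0 := congrFun h0 0
    have e1 : x 1 = 0 := congrFun h0 1
    apply hx
    funext i
    fin_cases i
    · exact e0
    · exact e1
    · change x 2 = 0
      rw [h2, e0, e1, add_zero, neg_zero]
  have hle : ∀ (v : AbsoluteValue K ℝ) (j : Fin 2), v (![x 0, x 1] j) ≤ ⨆ j, v (![x 0, x 1] j) :=
    fun v j => le_ciSup (f := fun j => v (![x 0, x 1] j)) (Finite.bddAbove_range _) j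
  have hU0 : ∀ v : AbsoluteValue K ℝ, 0 < ⨆ j, v (![x 0, x 1] j) := fun v => sup_pos hu v
  have harch : ∀ v : AbsoluteValue K ℝ, (⨆ i, v (x i)) ≤ 2 * ⨆ j, v (![x 0, x 1] j) := by
    intro v
    refine ciSup_le fun i => ?_
    have e0 : v (x 0) ≤ ⨆ j, v (![x 0, x 1] j) := hle v 0
    have e1 : v (x 1) ≤ ⨆ j, v (![x 0, x 1] j) := hle v 1
    have := hU0 v
    fin_cases i
    · change v (x 0) ≤ _
      linarith
    · change v (x 1) ≤ _
      linarith
    · change v (x 2) ≤ _
      rw [h2, map_neg_eq_map]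
      have := v.add_le (x 0) (x 1)
      linarith
  have hna : ∀ v : FinitePlace K, (⨆ i, v (x i)) ≤ ⨆ j, v (![x 0, x 1] j) := by
    intro v
    refine ciSup_le fun i => ?_
    have e0 : v (x 0) ≤ ⨆ j, v (![x 0, x 1] j) := hle v.1 0
    have e1 : v (x 1) ≤ ⨆ j, v (![x 0, x 1] j) := hle v.1 1
    fin_cases i
    · exact e0
    · exact e1
    · change v (x 2) ≤ _
      rw [h2, map_neg_eq_map]
      exact (FinitePlace.add_le v _ _).trans (max_le e0 e1)
  rw [logHeight_sum hx, logHeight_sum hu]
  have h3 : ∑ v : InfinitePlace K, v.mult * Real.log (⨆ i, v (x i)) ≤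
      ∑ v : InfinitePlace K, v.mult * (Real.log 2 + Real.log (⨆ j, v (![x 0, x 1] j))) := by
    refine Finset.sum_le_sum fun v _ => mul_le_mul_of_nonneg_left ?_ (Nat.cast_nonneg _)
    have e1 := harch v.1
    have e2 := Real.log_le_log (sup_pos hx v.1) e1
    rw [Real.log_mul two_ne_zero (hU0 v.1).ne'] at e2
    exact e2
  have h4 : ∑ v : InfinitePlace K, v.mult * (Real.log 2 + Real.log (⨆ j, v (![x 0, x 1] j))) =
      Module.finrank ℚ K * Real.log 2 +
      ∑ v : InfinitePlace K, v.mult * Real.log (⨆ j, v (![x 0, x 1] j)) := by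
    rw [← InfinitePlace.sum_mult_eq, Nat.cast_sum, Finset.sum_mul, ← Finset.sum_add_distrib]
    exact Finset.sum_congr rfl fun v _ => by ring
  have h5 : ∑ᶠ v : FinitePlace K, Real.log (⨆ i, v (x i)) ≤
      ∑ᶠ v : FinitePlace K, Real.log (⨆ j, v (![x 0, x 1] j)) := by
    refine finsum_le_finsum' ?_ ?_ (fun v => Real.log_le_log (sup_pos hx v.1) (hna v))
    · refine (sup_fin hx).subset fun v hv h => hv ?_
      change Real.log (⨆ i, v (x i)) = 0
      rw [h, Real.log_one]
    · refine (sup_fin hu).subset fun v hv h => hv ?_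
      change Real.log (⨆ i, v (![x 0, x 1] i)) = 0
      rw [h, Real.log_one]
  linarith

end nf

end Pool.Agent.Y724.T4
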