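import Mathlib
import Pool.Agent.Y724.T4.ABC

/-!
# The projective line and the zeros of a binary form
-/

set_option autoImplicit false

namespace Pool.Agent.Y724.T4

open MvPolynomial NumberField

/-- no equation -/
noncomputable def noG : Fin 0 → MvPolynomial (Fin (1 + 0 + 1)) ℤ := fun k => k.elim0

/-- one divisor with one equation -/
noncomputable def oneF (D : MvPolynomial (Fin (1 + 0 + 1)) ℤ) :
    Fin 1 → Fin 1 → MvPolynomial (Fin (1 + 0 + 1)) ℤ := fun _ _ => D

lemma p1_dim : R7.DimGE 1 noG := by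
  refine ⟨fun i => i, fun P hP => ?_⟩
  have h1 : ∀ z : Fin (1 + 1) → ℚ, aeval z P = 0 := by
    intro z
    have h2 := hP (fun i => algebraMap ℚ ℂ (z i)) (fun k => k.elim0)
    have h4 := aeval_algebraMap_apply ℂ z P
    have h6 : algebraMap ℚ ℂ (aeval z P) = 0 := by
      rw [← h4]
      exact h2
    exact (map_eq_zero _).1 h6
  apply MvPolynomial.funext
  intro z
  rw [map_zero]
  have := h1 z
  rwa [aeval_eq_eval] at this

lemma p1_smooth (D : MvPolynomial (Fin (1 + 0 + 1)) ℤ)
    (hD : ∀ z : Fin (1 + 0 + 1) → ℂ, z ≠ 0 → aeval z D = 0 → ∃ y, aeval z (pderiv y D) ≠ 0) :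
    R7.SmoothPair 0 noG (oneF D) := by
  intro z hz _
  refine ⟨fun a => a.elim0, fun _ => 0, ?_⟩
  by_cases h : aeval z D = 0
  · obtain ⟨y, hy⟩ := hD z hz h
    classical
    rw [Fintype.linearIndependent_iff]
    intro c hc i
    have hh : ∀ j, aeval z (oneF D 0 j) = 0 := fun _ => h
    rcases i with i | i
    · exact i.elim0
    · have h1 := congrFun hc y
      have hi : i = ⟨0, hh⟩ := Subtype.ext (Subsingleton.elim _ _)
      have hall : ∀ i' : {i : Fin 1 // ∀ j, aeval z (oneF D i j) = 0}, i' = ⟨0, hh⟩ := fun i' =>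
        Subtype.ext (Subsingleton.elim _ _)
      rw [Fintype.sum_sum_type, Fintype.sum_empty, zero_add, Finset.sum_apply,
        Finset.sum_eq_single (⟨0, hh⟩ : {i : Fin 1 // ∀ j, aeval z (oneF D i j) = 0})
          (fun i' _ hne => absurd (hall i') hne) (fun hne => absurd (Finset.mem_univ _) hne)] at h1
      have h2 : c (Sum.inr ⟨0, hh⟩) * aeval z (pderiv y D) = 0 := h1
      rw [hi]
      exact (mul_eq_zero.1 h2).resolve_right hy
  · have : IsEmpty (Fin 0 ⊕ {i : Fin 1 // ∀ j, aeval z (oneF D i j) = 0}) := by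
      rw [isEmpty_sum]
      exact ⟨inferInstance, ⟨fun i => h (i.2 0)⟩⟩
    exact linearIndependent_empty_type

section nf
variable {K : Type} [Field K] [NumberField K]

omit [NumberField K] in
lemma p1_basis (x : Fin (1 + 0 + 1) → K) :
    R7.IsTangentBasis noG x (1 : Matrix (Fin (1 + 0 + 1)) (Fin (1 + 1)) K) := by
  constructor
  · rw [Fintype.linearIndependent_iff]
    intro c hc i
    have h1 := congrFun hc i
    rw [Finset.sum_apply, Finset.sum_eq_single i] at h1
    · have h2 : c i * (1 : Matrix (Fin (1 + 0 + 1)) (Fin (1 + 1)) K) i i = 0 := h1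
      rwa [Matrix.one_apply_eq, mul_one] at h2
    · intro j _ hj
      change c j * (1 : Matrix (Fin (1 + 0 + 1)) (Fin (1 + 1)) K) i j = 0
      rw [Matrix.one_apply_ne (Ne.symm hj), mul_zero]
    · intro h
      exact absurd (Finset.mem_univ i) h
  · intro k
    exact k.elim0

lemma p1_canonical (x : Fin (1 + 0 + 1) → K) :
    R7.canonicalHeight x (1 : Matrix (Fin (1 + 0 + 1)) (Fin (1 + 1)) K) =
      -2 * Height.logHeight x / Module.finrank ℚ K := by
  unfold R7.canonicalHeight
  rw [height_signs]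
  · push_cast
    ring
  · intro h
    have h1 : ((1 : Matrix (Fin (1 + 0 + 1)) (Fin (1 + 1)) K).submatrix (fun i => i) id).det = 0 :=
      congrFun h (fun i => i)
    have h2 : ((1 : Matrix (Fin (1 + 0 + 1)) (Fin (1 + 1)) K).submatrix (fun i => i) id).det = 1 :=
      Matrix.det_one
    exact one_ne_zero (h2.symm.trans h1)
  · intro J
    rw [Matrix.det_fin_two]
    simp only [Matrix.submatrix_apply]
    generalize J 0 = a
    generalize J 1 = b
    fin_cases a <;> fin_cases b <;> simp [Matrix.one_apply]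

omit [NumberField K] in
lemma p1_localHeight (D : MvPolynomial (Fin (1 + 0 + 1)) ℤ) (Q : ℕ) (x : Fin (1 + 0 + 1) → K)
    (hx : x ≠ 0) (hD : aeval x D ≠ 0) (v : AbsoluteValue K ℝ) :
    R7.localHeight (oneF D 0) (fun _ => Q) x v =
      Q * Real.log (⨆ j, v (x j)) - Real.log (v (aeval x D)) := by
  unfold R7.localHeight oneF
  rw [ciSup_unique, Real.log_div (v.pos hD).ne' (pow_pos (sup_pos hx v) _).ne', Real.log_pow,
    neg_sub]

/-- the places at which the point meets `D` -/
lemma p1_meets (D : MvPolynomial (Fin (1 + 0 + 1)) ℤ) (Q : ℕ) (x : Fin (1 + 0 + 1) → K)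
    (hx : x ≠ 0) (hD : aeval x D ≠ 0) (v : FinitePlace K) :
    (∃ i, 0 < R7.localHeight (oneF D i) (fun _ => Q) x v.1) ↔
      v (aeval x D) < (⨆ j, v (x j)) ^ Q := by
  have h1 : 0 < R7.localHeight (oneF D 0) (fun _ => Q) x v.1 ↔
      v (aeval x D) < (⨆ j, v (x j)) ^ Q := by
    rw [p1_localHeight D Q x hx hD, sub_pos, ← Real.log_pow]
    exact Real.log_lt_log_iff (v.1.pos hD) (pow_pos (sup_pos hx v.1) _)
  constructor
  · rintro ⟨i, hi⟩
    rw [Subsingleton.elim i 0] at hi
    exact h1.1 hi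
  · intro h
    exact ⟨0, h1.2 h⟩

lemma p1_divisor (D : MvPolynomial (Fin (1 + 0 + 1)) ℤ) (Q : ℕ) (x : Fin (1 + 0 + 1) → K)
    (hx : x ≠ 0) (hD : aeval x D ≠ 0) :
    R7.divisorHeight (oneF D) (fun _ _ => Q) x =
      Q * Height.logHeight x / Module.finrank ℚ K := by
  unfold R7.divisorHeight
  congr 1
  rw [Fin.sum_univ_one]
  have h1 := logHeight_sum hx
  have h2 := prod_formula hD
  have hloc := p1_localHeight D Q x hx hD
  have hs : (Function.support fun v : FinitePlace K => Real.log (⨆ j, v (x j))).Finite := by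
    refine (sup_fin hx).subset fun v hv h => hv ?_
    change Real.log (⨆ i, v (x i)) = 0
    rw [h, Real.log_one]
  have h3 : ∑ᶠ v : FinitePlace K, R7.localHeight (oneF D 0) (fun _ => Q) x v.1 =
      Q * ∑ᶠ v : FinitePlace K, Real.log (⨆ j, v (x j)) -
        ∑ᶠ v : FinitePlace K, Real.log (v (aeval x D)) := by
    rw [mul_finsum, ← finsum_sub_distrib]
    · exact finsum_congr fun v => hloc v.1
    · exact hs.subset fun v hv h => hv (by
        have h' : Real.log (⨆ j, v (x j)) = 0 := h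
        change (Q : ℝ) * Real.log (⨆ j, v (x j)) = 0
        rw [h', mul_zero])
    · refine (fin_ne_one hD).subset fun v hv h => hv ?_
      change Real.log (v (aeval x D)) = 0
      rw [h, Real.log_one]
  have h4 : ∑ v : InfinitePlace K, v.mult * R7.localHeight (oneF D 0) (fun _ => Q) x v.1 =
      Q * ∑ v : InfinitePlace K, v.mult * Real.log (⨆ j, v (x j)) -
      ∑ v : InfinitePlace K, v.mult * Real.log (v (aeval x D)) := by
    rw [Finset.mul_sum, ← Finset.sum_sub_distrib]
    refine Finset.sum_congr rfl fun v _ => ?_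
    rw [hloc v.1]
    have e1 : (v.1 (aeval x D)) = v (aeval x D) := rfl
    have e2 : (⨆ j, v.1 (x j)) = ⨆ j, v (x j) := rfl
    rw [e1, e2]
    ring
  rw [h3, h4, h1]
  linear_combination -h2

/-- the values of a finite place -/
lemma fin_gap (v : FinitePlace K) {y : K} (hy : y ≠ 0) (h : v y < 1) :
    ((Ideal.absNorm v.maximalIdeal.asIdeal : ℕ) : ℝ) * v y ≤ 1 := by
  obtain ⟨a, b, hb, rfl⟩ := IsFractionRing.div_surjective (A := 𝓞 K) y
  have hb0 : b ≠ 0 := nonZeroDivisors.ne_zero hb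
  have ha0 : a ≠ 0 := by
    rintro rfl
    rw [map_zero, zero_div] at hy
    exact hy rfl
  have h1 := FinitePlace.apply_mul_absNorm_pow_eq_one v ha0
  have h2 := FinitePlace.apply_mul_absNorm_pow_eq_one v hb0
  set N : ℝ := ((Ideal.absNorm v.maximalIdeal.asIdeal : ℕ) : ℝ) with hN
  have hN1 : 1 ≤ N := by
    have h3 : Ideal.absNorm v.maximalIdeal.asIdeal ≠ 0 := by
      rw [Ne, Ideal.absNorm_eq_zero_iff]
      exact v.maximalIdeal.ne_bot
    have h4 : 1 ≤ Ideal.absNorm v.maximalIdeal.asIdeal := Nat.one_le_iff_ne_zero.2 h3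
    rw [hN]
    exact_mod_cast h4
  have hN0 : 0 < N := by linarith
  set i := multiplicity v.maximalIdeal.asIdeal (Ideal.span {a}) with hi
  set j := multiplicity v.maximalIdeal.asIdeal (Ideal.span {b}) with hj
  have e1 : v (algebraMap (𝓞 K) K a) = (N ^ i)⁻¹ := eq_inv_of_mul_eq_one_left h1
  have e2 : v (algebraMap (𝓞 K) K b) = (N ^ j)⁻¹ := eq_inv_of_mul_eq_one_left h2
  rw [map_div₀, e1, e2] at h ⊢
  have hij : j < i := by
    by_contra hcon
    push Not at hcon
    have h5 : N ^ i ≤ N ^ j := pow_le_pow_right₀ hN1 hcon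
    have h6 : (N ^ i)⁻¹ / (N ^ j)⁻¹ = N ^ j / N ^ i := by
      field_simp
    rw [h6, div_lt_one (by positivity)] at h
    linarith
  have h6 : N * ((N ^ i)⁻¹ / (N ^ j)⁻¹) = N ^ (j + 1) / N ^ i := by
    rw [pow_succ]
    field_simp
  rw [h6, div_le_one (by positivity)]
  exact pow_le_pow_right₀ hN1 hij

end nf

end Pool.Agent.Y724.T4
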