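import Mathlib

set_option autoImplicit false

/-!
# Binary forms: definitions for P1B, P1L
-/

namespace Pool.Agent.Y724.T4

/-- the value of the binary form with the coefficients c -/
def bform {K : Type} [Field K] (Q : ℕ) (c : ℕ → K) (x : Fin 2 → K) : K :=
  ∑ k ∈ Finset.range (Q + 1), c k * x 0 ^ k * x 1 ^ (Q - k)

/-- bounded sums -/
def SumLe {K : Type} [Field K] (v : AbsoluteValue K ℝ) (κ : ℝ) (Q : ℕ) : Prop :=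
  ∀ (s : Finset ℕ) (f : ℕ → K) (b : ℝ), s.card ≤ Q + 1 → 0 ≤ b → (∀ i ∈ s, v (f i) ≤ b) →
    v (∑ i ∈ s, f i) ≤ κ * b

/-- division by a linear form -/
def DivStmt : Prop :=
  ∀ {K : Type} [Field K] (v : AbsoluteValue K ℝ) (κ : ℝ), 1 ≤ κ → ∀ (Q0 : ℕ), SumLe v κ Q0 →
    ∀ (Q : ℕ), Q + 1 ≤ Q0 → ∀ (c : ℕ → K) (b : ℝ), 0 ≤ b → (∀ k, v (c k) ≤ b) →
    ∀ (a : Fin 2 → K), a ≠ 0 → bform (Q + 1) c a = 0 →
    ∃ c' : ℕ → K, (∀ k, v (c' k) * (⨆ j, v (a j)) ≤ κ * b) ∧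
      ∀ x, bform (Q + 1) c x = (x 0 * a 1 - x 1 * a 0) * bform Q c' x

end Pool.Agent.Y724.T4
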