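import Mathlib
import Pool.Agent.Y724.T4.P1S

/-!
P1-DIV: division of a binary form by a linear form, with bounds for the coefficients.
-/

set_option autoImplicit false

namespace Pool.Agent.Y724.T4

theorem bform_aeval (D : MvPolynomial (Fin 2) ℤ) (Q : ℕ) (hD : D.IsHomogeneous Q) :
    ∃ c : ℕ → ℤ, ∀ (K : Type) [Field K] [CharZero K] (x : Fin 2 → K),
      MvPolynomial.aeval x D = bform Q (fun k => (c k : K)) x := by
  classical
  refine ⟨fun k => MvPolynomial.coeff
    (Finsupp.single (0 : Fin 2) k + Finsupp.single (1 : Fin 2) (Q - k)) D, ?_⟩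
  intro K _ _ x
  rw [MvPolynomial.aeval_def, MvPolynomial.eval₂_eq']
  have h1 : D.support ⊆ (Finset.range (Q + 1)).image
      (fun k => Finsupp.single (0 : Fin 2) k + Finsupp.single (1 : Fin 2) (Q - k)) := by
    intro m hm
    have h2 : m 0 + m 1 = Q := by
      by_contra h
      refine MvPolynomial.mem_support_iff.1 hm (hD.coeff_eq_zero ?_)
      rw [Finsupp.degree_eq_sum, Fin.sum_univ_two]
      exact h
    refine Finset.mem_image.2 ⟨m 0, Finset.mem_range.2 (by omega), ?_⟩
    ext i
    fin_cases i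
    · simp
    · simp
      omega
  rw [Finset.sum_subset h1 (fun m _ hm => by
    rw [MvPolynomial.notMem_support_iff.1 hm, map_zero, zero_mul])]
  rw [Finset.sum_image]
  · unfold bform
    refine Finset.sum_congr rfl fun k _ => ?_
    rw [Fin.prod_univ_two]
    simp [mul_assoc]
  · intro k _ l _ hkl
    have h2 := DFunLike.congr_fun hkl 0
    simpa using h2

theorem bform_swap {K : Type} [Field K] (Q : ℕ) (c : ℕ → K) (x : Fin 2 → K) :
    bform Q c x = bform Q (fun k => c (Q - k)) ![x 1, x 0] := by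
  unfold bform
  rw [← Finset.sum_flip]
  refine Finset.sum_congr rfl fun k hk => ?_
  have h1 : Q - (Q - k) = k := by
    have := Finset.mem_range.1 hk
    omega
  simp only [Matrix.cons_val_zero, Matrix.cons_val_one, h1]
  ring

theorem div_id {K : Type} [Field K] (Q : ℕ) (c : ℕ → K) (t y0 y1 : K)
    (h0 : ∑ k ∈ Finset.range (Q + 2), c k * t ^ k = 0) :
    ∑ k ∈ Finset.range (Q + 2), c k * y0 ^ k * y1 ^ (Q + 1 - k) =
      (y0 - t * y1) * ∑ j ∈ Finset.range (Q + 1),
        (∑ k ∈ (Finset.range (Q + 2)).filter (fun k => j < k), c k * t ^ (k - 1 - j)) *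
          y0 ^ j * y1 ^ (Q - j) := by
  have h1 : ∑ j ∈ Finset.range (Q + 1),
        (∑ k ∈ (Finset.range (Q + 2)).filter (fun k => j < k), c k * t ^ (k - 1 - j)) *
          y0 ^ j * y1 ^ (Q - j) =
      ∑ k ∈ Finset.range (Q + 2), ∑ j ∈ Finset.range (Q + 1),
        if j < k then c k * t ^ (k - 1 - j) * y0 ^ j * y1 ^ (Q - j) else 0 := by
    rw [Finset.sum_comm]
    refine Finset.sum_congr rfl fun j _ => ?_
    rw [Finset.sum_mul, Finset.sum_mul, Finset.sum_filter]
  rw [h1, Finset.mul_sum]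
  have h2 : ∀ k ∈ Finset.range (Q + 2), (y0 - t * y1) * ∑ j ∈ Finset.range (Q + 1),
        (if j < k then c k * t ^ (k - 1 - j) * y0 ^ j * y1 ^ (Q - j) else 0) =
      c k * y0 ^ k * y1 ^ (Q + 1 - k) - y1 ^ (Q + 1) * (c k * t ^ k) := by
    intro k hk
    have hk' : k ≤ Q + 1 := by
      have := Finset.mem_range.1 hk
      omega
    rw [← Finset.sum_filter]
    have h3 : (Finset.range (Q + 1)).filter (fun j => j < k) = Finset.range k := by
      ext j
      simp only [Finset.mem_filter, Finset.mem_range]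
      omega
    rw [h3]
    have h4 : ∑ j ∈ Finset.range k, c k * t ^ (k - 1 - j) * y0 ^ j * y1 ^ (Q - j) =
        c k * y1 ^ (Q + 1 - k) * ∑ j ∈ Finset.range k, y0 ^ j * (t * y1) ^ (k - 1 - j) := by
      rw [Finset.mul_sum]
      refine Finset.sum_congr rfl fun j hj => ?_
      have hj' := Finset.mem_range.1 hj
      have h5 : Q - j = (Q + 1 - k) + (k - 1 - j) := by omega
      rw [h5, pow_add, mul_pow]
      ring
    have h6 := geom_sum₂_mul y0 (t * y1) k
    have h7 : y1 ^ (Q + 1) = y1 ^ k * y1 ^ (Q + 1 - k) := by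
      rw [← pow_add]
      congr 1
      omega
    rw [h4, h7]
    calc (y0 - t * y1) * (c k * y1 ^ (Q + 1 - k) *
          ∑ j ∈ Finset.range k, y0 ^ j * (t * y1) ^ (k - 1 - j)) =
        c k * y1 ^ (Q + 1 - k) * ((∑ j ∈ Finset.range k, y0 ^ j * (t * y1) ^ (k - 1 - j)) *
          (y0 - t * y1)) := by ring
      _ = _ := by
        rw [h6, mul_pow]
        ring
  rw [Finset.sum_congr rfl h2, Finset.sum_sub_distrib, ← Finset.mul_sum, h0, mul_zero, sub_zero]

theorem divA {K : Type} [Field K] (v : AbsoluteValue K ℝ) (κ : ℝ) (Q0 : ℕ)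
    (hS : SumLe v κ Q0) (Q : ℕ) (hQ : Q + 1 ≤ Q0) (c : ℕ → K) (b : ℝ) (hb : 0 ≤ b)
    (hc : ∀ k, v (c k) ≤ b) (a : Fin 2 → K) (h1 : a 1 ≠ 0) (h01 : v (a 0) ≤ v (a 1))
    (hF : bform (Q + 1) c a = 0) :
    ∃ c' : ℕ → K, (∀ k, v (c' k) * v (a 1) ≤ κ * b) ∧
      ∀ x, bform (Q + 1) c x = (x 0 * a 1 - x 1 * a 0) * bform Q c' x := by
  obtain ⟨t, ht⟩ : ∃ t : K, a 0 = t * a 1 := ⟨a 0 / a 1, (div_mul_cancel₀ _ h1).symm⟩
  have hv1 : 0 < v (a 1) := v.pos h1
  have hvt : v t ≤ 1 := by
    rw [ht, map_mul] at h01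
    exact le_of_mul_le_mul_right (by linarith) hv1
  have h0 : ∑ k ∈ Finset.range (Q + 2), c k * t ^ k = 0 := by
    have h2 : a 1 ^ (Q + 1) * ∑ k ∈ Finset.range (Q + 2), c k * t ^ k = 0 := by
      rw [← hF, Finset.mul_sum]
      refine Finset.sum_congr rfl fun k hk => ?_
      have hk' := Finset.mem_range.1 hk
      have h3 : a 1 ^ (Q + 1) = a 1 ^ k * a 1 ^ (Q + 1 - k) := by
        rw [← pow_add]
        congr 1
        omega
      rw [h3, ht, mul_pow]
      ring
    rcases mul_eq_zero.1 h2 with h3 | h3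
    · exact absurd h3 (pow_ne_zero _ h1)
    · exact h3
  refine ⟨fun j => (∑ k ∈ (Finset.range (Q + 2)).filter (fun k => j < k),
    c k * t ^ (k - 1 - j)) / a 1, fun j => ?_, fun x => ?_⟩
  · rw [map_div₀, div_mul_cancel₀ _ hv1.ne']
    refine hS _ _ b ?_ hb fun k _ => ?_
    · have h2 : (Finset.range (Q + 2)).filter (fun k => j < k) ⊆
          (Finset.range (Q + 2)).erase 0 := by
        intro k hk
        rw [Finset.mem_filter] at hk
        rw [Finset.mem_erase]
        exact ⟨by omega, hk.1⟩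
      have h3 := Finset.card_le_card h2
      rw [Finset.card_erase_of_mem (by simp), Finset.card_range] at h3
      omega
    · rw [map_mul, map_pow]
      calc v (c k) * v t ^ (k - 1 - j) ≤ b * 1 :=
            mul_le_mul (hc k) (pow_le_one₀ (v.nonneg _) hvt) (pow_nonneg (v.nonneg _) _) hb
        _ = b := mul_one b
  · have h2 := div_id Q c t (x 0) (x 1) h0
    have h3 : bform Q (fun j => (∑ k ∈ (Finset.range (Q + 2)).filter (fun k => j < k),
        c k * t ^ (k - 1 - j)) / a 1) x = (∑ j ∈ Finset.range (Q + 1),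
        (∑ k ∈ (Finset.range (Q + 2)).filter (fun k => j < k), c k * t ^ (k - 1 - j)) *
          x 0 ^ j * x 1 ^ (Q - j)) / a 1 := by
      unfold bform
      rw [Finset.sum_div]
      refine Finset.sum_congr rfl fun j _ => ?_
      ring
    rw [h3]
    unfold bform
    rw [h2, ht]
    field_simp

theorem bform_div : DivStmt := by
  intro K _ v κ hκ Q0 hS Q hQ c b hb hc a ha hF
  have hκb : 0 ≤ κ * b := mul_nonneg (by linarith) hb
  rcases le_or_gt (v (a 0)) (v (a 1)) with h | h
  · have h1 : a 1 ≠ 0 := by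
      intro h1
      apply ha
      rw [h1, map_zero] at h
      have h2 : a 0 = 0 := by
        by_contra h3
        exact absurd (v.pos h3) (not_lt.2 h)
      funext i
      fin_cases i
      · exact h2
      · exact h1
    obtain ⟨c', h2, h3⟩ := divA v κ Q0 hS Q hQ c b hb hc a h1 h hF
    refine ⟨c', fun k => ?_, h3⟩
    have h4 : (⨆ j, v (a j)) ≤ v (a 1) := by
      refine ciSup_le fun j => ?_
      fin_cases j
      · exact h
      · exact le_rfl
    exact (mul_le_mul_of_nonneg_left h4 (v.nonneg _)).trans (h2 k)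
  · have h1 : a 0 ≠ 0 := by
      intro h1
      rw [h1, map_zero] at h
      exact absurd (v.nonneg (a 1)) (not_le.2 h)
    obtain ⟨c', h2, h3⟩ := divA v κ Q0 hS Q hQ (fun k => c (Q + 1 - k)) b hb (fun k => hc _)
      ![a 1, a 0] (by simpa using h1) (by simpa using h.le) (by rw [← bform_swap]; exact hF)
    refine ⟨fun k => - c' (Q - k), fun k => ?_, fun x => ?_⟩
    · have h4 : (⨆ j, v (a j)) ≤ v (a 0) := by
        refine ciSup_le fun j => ?_
        fin_cases j
        · exact le_rfl
        · exact h.le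
      rw [map_neg_eq_map]
      refine (mul_le_mul_of_nonneg_left h4 (v.nonneg _)).trans ?_
      simpa using h2 (Q - k)
    · rw [bform_swap (Q + 1) c x, h3 ![x 1, x 0]]
      have h5 : bform Q (fun k => - c' (Q - k)) x = - bform Q c' ![x 1, x 0] := by
        rw [bform_swap Q _ x]
        unfold bform
        rw [← Finset.sum_neg_distrib]
        refine Finset.sum_congr rfl fun k hk => ?_
        have h6 : Q - (Q - k) = k := by
          have := Finset.mem_range.1 hk
          omega
        simp only [h6]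
        ring
      rw [h5]
      simp only [Matrix.cons_val_zero, Matrix.cons_val_one]
      ring

end Pool.Agent.Y724.T4
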