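import Mathlib
import Pool.Agent.Y724.T4.P1S

/-!
# Local inequality for the value of a binary form with given zeros (job 7059)
-/

set_option autoImplicit false

namespace Pool.Agent.Y724.T4

open Finset

theorem le_sup2 {K : Type} [Field K] (v : AbsoluteValue K ℝ) (x : Fin 2 → K) (j : Fin 2) :
    v (x j) ≤ ⨆ j, v (x j) :=
  le_ciSup (f := fun j => v (x j)) (Set.finite_range _).bddAbove j

theorem sup2_nonneg {K : Type} [Field K] (v : AbsoluteValue K ℝ) (x : Fin 2 → K) :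
    0 ≤ ⨆ j, v (x j) :=
  (v.nonneg _).trans (le_sup2 v x 0)

theorem sup2_pos {K : Type} [Field K] (v : AbsoluteValue K ℝ) (x : Fin 2 → K) (hx : x ≠ 0) :
    0 < ⨆ j, v (x j) := by
  obtain ⟨j, hj⟩ := Function.ne_iff.1 hx
  exact lt_of_lt_of_le (v.pos hj) (le_sup2 v x j)

theorem bform_zero {K : Type} [Field K] (c : ℕ → K) (x : Fin 2 → K) : bform 0 c x = c 0 := by
  simp [bform]

/-- the form of degree `0` -/
theorem bform_base {K : Type} [Field K] (v : AbsoluteValue K ℝ) (κ : ℝ) (Q0 : ℕ)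
    (hsum : SumLe v κ Q0) (Q : ℕ) (hQ : Q ≤ Q0) (c : ℕ → K) (b : ℝ) (hb : 0 ≤ b)
    (hc : ∀ k, v (c k) ≤ b) (x : Fin 2 → K) :
    v (bform Q c x) ≤ κ * (b * (⨆ j, v (x j)) ^ Q) := by
  have h0 := sup2_nonneg v x
  apply hsum (range (Q + 1))
  · rw [card_range]
    omega
  · positivity
  · intro k hk
    rw [mem_range] at hk
    rw [map_mul, map_mul, map_pow, map_pow]
    have e : (⨆ j, v (x j)) ^ Q = (⨆ j, v (x j)) ^ k * (⨆ j, v (x j)) ^ (Q - k) := by
      rw [← pow_add]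
      congr 1
      omega
    rw [e, ← mul_assoc]
    have h1 := pow_le_pow_left₀ (v.nonneg _) (le_sup2 v x 0) k
    have h2 := pow_le_pow_left₀ (v.nonneg _) (le_sup2 v x 1) (Q - k)
    exact mul_le_mul (mul_le_mul (hc k) h1 (pow_nonneg (v.nonneg _) _) hb) h2
      (pow_nonneg (v.nonneg _) _) (mul_nonneg hb (pow_nonneg h0 _))

theorem p1_local (hdiv : DivStmt) {K : Type} [Field K] (v : AbsoluteValue K ℝ) (κ : ℝ)
    (hκ : 1 ≤ κ) (Q0 : ℕ) (hsum : SumLe v κ Q0) : ∀ (q Q : ℕ), Q ≤ Q0 → ∀ (c : ℕ → K) (b : ℝ),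
    0 ≤ b → (∀ k, v (c k) ≤ b) → ∀ (α : Fin q → Fin 2 → K), (∀ i, α i ≠ 0) →
    (∀ i j, i ≠ j → α i 0 * α j 1 ≠ α i 1 * α j 0) → (∀ i, bform Q c (α i) = 0) →
    ∀ x : Fin 2 → K, v (bform Q c x) * ∏ i, (⨆ j, v (α i j)) ≤
      κ ^ (q + 1) * b * (∏ i, v (x 0 * α i 1 - x 1 * α i 0)) * (⨆ j, v (x j)) ^ (Q - q) := by
  intro q
  induction q with
  | zero =>
    intro Q hQ c b hb hc α hα hne hz x
    have h := bform_base v κ Q0 hsum Q hQ c b hb hc x
    simp only [univ_eq_empty, prod_empty, mul_one, zero_add, pow_one, Nat.sub_zero]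
    rw [mul_assoc]
    exact h
  | succ q ih =>
    intro Q hQ c b hb hc α hα hne hz x
    have hκ0 : 0 ≤ κ := zero_le_one.trans hκ
    have hx0 := sup2_nonneg v x
    have hprod : 0 ≤ ∏ i, v (x 0 * α i 1 - x 1 * α i 0) := prod_nonneg fun i _ => v.nonneg _
    rcases Q with _ | Q
    · have h1 := hz 0
      rw [bform_zero] at h1
      rw [bform_zero, h1, map_zero, zero_mul]
      positivity
    · obtain ⟨c', hc', hf⟩ := hdiv v κ hκ Q0 hsum Q hQ c b hb hc (α 0) (hα 0) (hz 0)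
      have hs := sup2_pos v (α 0) (hα 0)
      have hb' : 0 ≤ κ * b / ⨆ j, v (α 0 j) := by positivity
      have h2 := ih Q (by omega) c' (κ * b / ⨆ j, v (α 0 j)) hb'
        (fun k => (le_div_iff₀ hs).2 (hc' k)) (fun i => α i.succ) (fun i => hα _)
        (fun i j hij => hne _ _ (fun h => hij (Fin.succ_injective _ h)))
        (fun i => by
          have h3 := hz i.succ
          rw [hf] at h3
          rcases mul_eq_zero.1 h3 with h4 | h4
          · exact absurd (sub_eq_zero.1 h4) (hne _ _ (Fin.succ_ne_zero i))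
          · exact h4) x
      rw [hf, map_mul, Fin.prod_univ_succ, Fin.prod_univ_succ, Nat.succ_sub_succ]
      set A := v (x 0 * α 0 1 - x 1 * α 0 0) with hA
      set S := ⨆ j, v (α 0 j) with hS
      have hA0 : 0 ≤ A := v.nonneg _
      calc A * v (bform Q c' x) * (S * ∏ i : Fin q, ⨆ j, v (α i.succ j)) =
            (A * S) * (v (bform Q c' x) * ∏ i : Fin q, ⨆ j, v (α i.succ j)) := by ring
        _ ≤ (A * S) * (κ ^ (q + 1) * (κ * b / S) *
            (∏ i : Fin q, v (x 0 * α i.succ 1 - x 1 * α i.succ 0)) * (⨆ j, v (x j)) ^ (Q - q)) :=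
          mul_le_mul_of_nonneg_left h2 (by positivity)
        _ = κ ^ (q + 1 + 1) * b * (A * ∏ i : Fin q, v (x 0 * α i.succ 1 - x 1 * α i.succ 0)) *
            (⨆ j, v (x j)) ^ (Q - q) := by
          rw [pow_succ κ (q + 1)]
          field_simp

theorem sumLe_trivial {K : Type} [Field K] [DecidablePred fun x : K => x = 0] (Q : ℕ) :
    SumLe (AbsoluteValue.trivial : AbsoluteValue K ℝ) 1 Q := by
  intro s f b _ hb hf
  rw [one_mul]
  by_cases h : ∑ i ∈ s, f i = 0
  · rw [h, map_zero]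
    exact hb
  · rw [AbsoluteValue.trivial_apply h]
    obtain ⟨i, hi, hi0⟩ := exists_ne_zero_of_sum_ne_zero h
    have := hf i hi
    rwa [AbsoluteValue.trivial_apply hi0] at this

theorem bform_card (hdiv : DivStmt) {K : Type} [Field K] : ∀ (Q q : ℕ), Q < q →
    ∀ (c : ℕ → K) (α : Fin q → Fin 2 → K), (∀ i, α i ≠ 0) →
    (∀ i j, i ≠ j → α i 0 * α j 1 ≠ α i 1 * α j 0) → (∀ i, bform Q c (α i) = 0) →
    ∀ x, bform Q c x = 0 := by
  classical
  intro Q
  induction Q with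
  | zero =>
    intro q hq c α _ _ hz x
    have h1 := hz ⟨0, hq⟩
    rw [bform_zero] at h1
    rw [bform_zero, h1]
  | succ Q ih =>
    intro q hq c α hα hne hz x
    obtain ⟨q, rfl⟩ : ∃ k, q = k + 1 := ⟨q - 1, by omega⟩
    obtain ⟨c', -, hf⟩ := hdiv (AbsoluteValue.trivial : AbsoluteValue K ℝ) 1 le_rfl (Q + 1)
      (sumLe_trivial (Q + 1)) Q le_rfl c 1 zero_le_one (fun k => by
        by_cases h : c k = 0
        · rw [h, map_zero]
          exact zero_le_one
        · rw [AbsoluteValue.trivial_apply h]) (α 0) (hα 0) (hz 0)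
    rw [hf, ih q (by omega) c' (fun i => α i.succ) (fun i => hα _)
      (fun i j hij => hne _ _ (fun h => hij (Fin.succ_injective _ h)))
      (fun i => by
        have h3 := hz i.succ
        rw [hf] at h3
        rcases mul_eq_zero.1 h3 with h4 | h4
        · exact absurd (sub_eq_zero.1 h4) (hne _ _ (Fin.succ_ne_zero i))
        · exact h4) x, mul_zero]

end Pool.Agent.Y724.T4
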