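import Mathlib
import Pool.Agent.Y724.T4.ASM
import Pool.Agent.Y724.T4.PLC

/-!
# RTH: heights of the roots of a polynomial
-/

set_option autoImplicit false

namespace Pool.Agent.Y724.T4

open NumberField

namespace RTHaux

variable {K : Type} [Field K] [NumberField K]

lemma sum_le (v : FinitePlace K) (a : ℕ → ℤ) (t : K) (ht : 1 ≤ v t) (n m : ℕ) (hm : m ≤ n + 1) :
    v (∑ i ∈ Finset.range m, (a i : K) * t ^ i) ≤ v t ^ n := by
  induction m with
  | zero =>
    rw [Finset.range_zero, Finset.sum_empty, map_zero]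
    positivity
  | succ m ih =>
    rw [Finset.sum_range_succ]
    refine (FinitePlace.add_le v _ _).trans (max_le (ih (by omega)) ?_)
    rw [map_mul, map_pow]
    calc v (a m : K) * v t ^ m ≤ 1 * v t ^ m := by
          gcongr
          exact PLCaux.int_le_one v _
      _ = v t ^ m := one_mul _
      _ ≤ v t ^ n := pow_le_pow_right₀ ht (by omega)

omit [NumberField K] in
lemma inf_int (v : InfinitePlace K) (m : ℤ) : v (m : K) = |(m : ℝ)| := by
  rw [← InfinitePlace.norm_embedding_eq, map_intCast, Complex.norm_intCast]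

lemma inf_sum_le (v : InfinitePlace K) (a : ℕ → ℤ) (t : K) (ht : 1 ≤ v t) (n m : ℕ)
    (hm : m ≤ n + 1) :
    v (∑ i ∈ Finset.range m, (a i : K) * t ^ i) ≤
      (∑ i ∈ Finset.range m, |(a i : ℝ)|) * v t ^ n := by
  induction m with
  | zero =>
    rw [Finset.range_zero, Finset.sum_empty, map_zero, Finset.sum_empty, zero_mul]
  | succ m ih =>
    rw [Finset.sum_range_succ, Finset.sum_range_succ, add_mul]
    refine (v.1.add_le _ _).trans (add_le_add (ih (by omega)) ?_)
    rw [map_mul, map_pow]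
    change v (a m : K) * v t ^ m ≤ _
    rw [inf_int]
    gcongr
    omega

omit [NumberField K] in
/-- the relation for the highest power -/
lemma top_eq {Q : Polynomial ℤ} {t : K} (h : Polynomial.aeval t Q = 0) {n : ℕ}
    (hn : Q.natDegree = n + 1) :
    (Q.leadingCoeff : K) * t ^ (n + 1) =
      -∑ i ∈ Finset.range (n + 1), (Q.coeff i : K) * t ^ i := by
  rw [Polynomial.aeval_eq_sum_range, hn, Finset.sum_range_succ] at h
  simp only [zsmul_eq_mul] at h
  rw [Polynomial.leadingCoeff, hn]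
  linear_combination h

lemma exists_deg {Q : Polynomial ℤ} (hQ : Q ≠ 0) {t : K} (h : Polynomial.aeval t Q = 0) :
    ∃ n, Q.natDegree = n + 1 := by
  refine Nat.exists_eq_succ_of_ne_zero fun h0 => ?_
  rw [Polynomial.aeval_eq_sum_range, h0, Finset.range_one, Finset.sum_singleton, pow_zero,
    zsmul_eq_mul, mul_one, Int.cast_eq_zero] at h
  apply hQ
  rw [Polynomial.eq_C_of_natDegree_eq_zero h0, h, Polynomial.C_0]

lemma fin_bound {Q : Polynomial ℤ} (hQ : Q ≠ 0) {t : K} (h : Polynomial.aeval t Q = 0)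
    (v : FinitePlace K) : Real.posLog (v t) ≤ -Real.log (v (Q.leadingCoeff : K)) := by
  have ha : (Q.leadingCoeff : K) ≠ 0 := Int.cast_ne_zero.2 (Polynomial.leadingCoeff_ne_zero.2 hQ)
  have hva : 0 < v (Q.leadingCoeff : K) := v.1.pos ha
  have hva1 : v (Q.leadingCoeff : K) ≤ 1 := PLCaux.int_le_one v _
  have ht0 : 0 ≤ v t := apply_nonneg v _
  rcases le_or_gt (v t) 1 with h1 | h1
  · rw [(Real.posLog_eq_zero_iff _).2 (by rwa [abs_of_nonneg ht0])]
    have := Real.log_nonpos hva.le hva1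
    linarith
  · rw [Real.posLog_eq_log (by rw [abs_of_nonneg ht0]; exact h1.le), ← Real.log_inv]
    obtain ⟨n, hn⟩ := exists_deg hQ h
    have h2 := congrArg v (top_eq h hn)
    have h3 := sum_le v (fun i => Q.coeff i) t h1.le n (n + 1) le_rfl
    rw [map_mul, map_pow, FinitePlace.coe_apply, FinitePlace.coe_apply, FinitePlace.coe_apply,
      AbsoluteValue.map_neg, ← FinitePlace.coe_apply, ← FinitePlace.coe_apply,
      ← FinitePlace.coe_apply] at h2
    rw [← h2, pow_succ] at h3
    have h4 : 0 < v t ^ n := by positivity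
    have h5 : v (Q.leadingCoeff : K) * v t ≤ 1 := by
      by_contra hc
      push Not at hc
      nlinarith
    refine Real.log_le_log (by linarith) ?_
    rw [le_inv_comm₀ (by linarith) hva, ← one_div, le_div_iff₀ (by linarith)]
    exact h5

lemma inf_bound {Q : Polynomial ℤ} (hQ : Q ≠ 0) {t : K} (h : Polynomial.aeval t Q = 0)
    (v : InfinitePlace K) :
    Real.posLog (v t) ≤ Real.log (1 + ∑ i ∈ Finset.range Q.natDegree, |(Q.coeff i : ℝ)|) := by
  have hS : 0 ≤ ∑ i ∈ Finset.range Q.natDegree, |(Q.coeff i : ℝ)| :=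
    Finset.sum_nonneg fun _ _ => abs_nonneg _
  have ht0 : 0 ≤ v t := apply_nonneg v _
  rcases le_or_gt (v t) 1 with h1 | h1
  · rw [(Real.posLog_eq_zero_iff _).2 (by rwa [abs_of_nonneg ht0])]
    exact Real.log_nonneg (by linarith)
  · rw [Real.posLog_eq_log (by rw [abs_of_nonneg ht0]; exact h1.le)]
    obtain ⟨n, hn⟩ := exists_deg hQ h
    have h2 := congrArg v (top_eq h hn)
    have h3 := inf_sum_le v (fun i => Q.coeff i) t h1.le n (n + 1) le_rfl
    have h6 : v (-∑ i ∈ Finset.range (n + 1), (Q.coeff i : K) * t ^ i) =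
        v (∑ i ∈ Finset.range (n + 1), (Q.coeff i : K) * t ^ i) := v.1.map_neg _
    rw [map_mul, map_pow, h6] at h2
    rw [← h2, pow_succ, inf_int, ← hn] at h3
    have h4 : 0 < v t ^ n := by positivity
    have h7 : (1 : ℝ) ≤ |((Q.leadingCoeff : ℤ) : ℝ)| := by
      have : (1 : ℤ) ≤ |Q.leadingCoeff| := Int.one_le_abs (Polynomial.leadingCoeff_ne_zero.2 hQ)
      exact_mod_cast this
    have h5 : |((Q.leadingCoeff : ℤ) : ℝ)| * v t ≤
        ∑ i ∈ Finset.range Q.natDegree, |(Q.coeff i : ℝ)| := by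
      by_contra hc
      push Not at hc
      nlinarith
    refine Real.log_le_log (by linarith) ?_
    nlinarith

end RTHaux

open RTHaux

/-- the height of a root of an integral polynomial -/
theorem root_height1 (Q : Polynomial ℤ) (hQ : Q ≠ 0) : ∃ C : ℝ, 0 ≤ C ∧
    ∀ (K : Type) [Field K] [NumberField K] (t : K), Polynomial.aeval t Q = 0 →
      Height.logHeight₁ t ≤ C * Module.finrank ℚ K := by
  have hlc : Q.leadingCoeff ≠ 0 := Polynomial.leadingCoeff_ne_zero.2 hQ
  have hlc1 : (1 : ℝ) ≤ |((Q.leadingCoeff : ℤ) : ℝ)| := by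
    have : (1 : ℤ) ≤ |Q.leadingCoeff| := Int.one_le_abs hlc
    exact_mod_cast this
  have hS : 0 ≤ ∑ i ∈ Finset.range Q.natDegree, |(Q.coeff i : ℝ)| :=
    Finset.sum_nonneg fun _ _ => abs_nonneg _
  refine ⟨Real.log (1 + ∑ i ∈ Finset.range Q.natDegree, |(Q.coeff i : ℝ)|) +
    Real.log |((Q.leadingCoeff : ℤ) : ℝ)|, add_nonneg (Real.log_nonneg (by linarith))
      (Real.log_nonneg hlc1), ?_⟩
  intro K _ _ t ht
  have ha : (Q.leadingCoeff : K) ≠ 0 := Int.cast_ne_zero.2 hlc
  rw [NumberField.logHeight₁_eq]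
  have hpf := prod_formula ha
  have hfin : ∑ᶠ v : FinitePlace K, Real.posLog (v t) ≤
      ∑ᶠ v : FinitePlace K, -Real.log (v (Q.leadingCoeff : K)) := by
    have hs2 : (Function.support fun v : FinitePlace K =>
        -Real.log (v (Q.leadingCoeff : K))).Finite := by
      refine (fin_ne_one ha).subset fun v hv h1 => hv ?_
      change -Real.log (v (Q.leadingCoeff : K)) = 0
      rw [h1, Real.log_one, neg_zero]
    have hs1 : (Function.support fun v : FinitePlace K => Real.posLog (v t)).Finite := by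
      refine hs2.subset fun v hv h1 => hv ?_
      have h2 := fin_bound hQ ht v
      have h3 : -Real.log (v (Q.leadingCoeff : K)) = 0 := h1
      rw [h3] at h2
      exact le_antisymm h2 Real.posLog_nonneg
    rw [finsum_eq_sum_of_support_subset _ (s := (hs1.union hs2).toFinset) (by
        rw [Set.Finite.coe_toFinset]
        exact Set.subset_union_left),
      finsum_eq_sum_of_support_subset _ (s := (hs1.union hs2).toFinset) (by
        rw [Set.Finite.coe_toFinset]
        exact Set.subset_union_right)]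
    exact Finset.sum_le_sum fun v _ => fin_bound hQ ht v
  rw [finsum_neg_distrib] at hfin
  have hinf : ∑ v : InfinitePlace K, (v.mult : ℝ) * Real.posLog (v t) ≤
      ∑ v : InfinitePlace K, (v.mult : ℝ) *
        Real.log (1 + ∑ i ∈ Finset.range Q.natDegree, |(Q.coeff i : ℝ)|) := by
    refine Finset.sum_le_sum fun v _ => ?_
    exact mul_le_mul_of_nonneg_left (inf_bound hQ ht v) (Nat.cast_nonneg _)
  have hmult : ∑ v : InfinitePlace K, (v.mult : ℝ) = Module.finrank ℚ K := by
    rw [← InfinitePlace.sum_mult_eq]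
    push_cast
    rfl
  have hlog : ∑ v : InfinitePlace K, (v.mult : ℝ) * Real.log (v (Q.leadingCoeff : K)) =
      Module.finrank ℚ K * Real.log |((Q.leadingCoeff : ℤ) : ℝ)| := by
    rw [← hmult, Finset.sum_mul]
    exact Finset.sum_congr rfl fun v _ => by rw [inf_int]
  rw [← Finset.sum_mul, hmult] at hinf
  rw [hlog] at hpf
  linarith

namespace RTHaux

lemma int_of_rat (f : Polynomial ℚ) (hf : f ≠ 0) : ∃ Q : Polynomial ℤ, Q ≠ 0 ∧
    ∀ (K : Type) [Field K] [CharZero K] (t : K), Polynomial.aeval t f = 0 →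
      Polynomial.aeval t Q = 0 := by
  obtain ⟨b, hb, hQ⟩ := IsLocalization.integerNormalization_spec (nonZeroDivisors ℤ) f
  refine ⟨IsLocalization.integerNormalization (nonZeroDivisors ℤ) f, ?_, ?_⟩
  · intro h0
    rw [h0, Polynomial.map_zero] at hQ
    rcases smul_eq_zero.1 hQ.symm with h1 | h1
    · exact nonZeroDivisors.ne_zero hb h1
    · exact hf h1
  · intro K _ _ t ht
    rw [← Polynomial.aeval_map_algebraMap ℚ, hQ, map_zsmul, ht, smul_zero]

lemma hom_smul {K : Type} [Field K] [Algebra ℚ K] {F : MvPolynomial (Fin 2) ℚ} {k : ℕ}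
    (hk : F.IsHomogeneous k) (c : K) (x : Fin 2 → K) :
    MvPolynomial.aeval (fun i => c * x i) F = c ^ k * MvPolynomial.aeval x F := by
  rw [MvPolynomial.aeval_def, MvPolynomial.aeval_def, MvPolynomial.eval₂_eq',
    MvPolynomial.eval₂_eq', Finset.mul_sum]
  refine Finset.sum_congr rfl fun d hd => ?_
  have h1 : ∑ i, d i = k := by
    have h2 := hk (MvPolynomial.mem_support_iff.1 hd)
    simpa [Finsupp.weight_apply, Finsupp.sum_fintype] using h2
  rw [Finset.prod_congr rfl fun i _ => mul_pow c (x i) (d i), Finset.prod_mul_distrib,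
    Finset.prod_pow_eq_pow_sum, h1]
  ring

/-- dehomogenization -/
noncomputable def dh (F : MvPolynomial (Fin 2) ℚ) : Polynomial ℚ :=
  MvPolynomial.aeval ![Polynomial.X, 1] F

lemma aeval_dh {K : Type} [Field K] [Algebra ℚ K] (F : MvPolynomial (Fin 2) ℚ) (t : K) :
    Polynomial.aeval t (dh F) = MvPolynomial.aeval ![t, 1] F := by
  unfold dh
  rw [MvPolynomial.comp_aeval_apply]
  congr 2
  funext i
  fin_cases i
  · simp
  · simp

lemma aeval_div {K : Type} [Field K] [Algebra ℚ K] {F : MvPolynomial (Fin 2) ℚ} {k : ℕ}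
    (hk : F.IsHomogeneous k) (x : Fin 2 → K) (hx : x 1 ≠ 0) :
    MvPolynomial.aeval x F = x 1 ^ k * Polynomial.aeval (x 0 / x 1) (dh F) := by
  rw [aeval_dh, ← hom_smul hk]
  congr 2
  funext i
  fin_cases i
  · change x 0 = x 1 * (x 0 / x 1)
    field_simp
  · change x 1 = x 1 * 1
    ring

lemma dh_ne {F : MvPolynomial (Fin 2) ℚ} (hF : F ≠ 0) {k : ℕ} (hk : F.IsHomogeneous k) :
    dh F ≠ 0 := by
  intro h0
  apply hF
  have h1 : F * MvPolynomial.X 1 = 0 := by
    refine MvPolynomial.funext fun x => ?_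
    rw [map_mul, MvPolynomial.eval_X, map_zero]
    by_cases hx : x 1 = 0
    · rw [hx, mul_zero]
    · have h2 := aeval_div hk x hx
      rw [h0, map_zero, mul_zero] at h2
      have h3 : MvPolynomial.eval x F = 0 := by
        rw [← h2]
        exact (congrArg (fun φ : MvPolynomial (Fin 2) ℚ →+* ℚ => φ F)
          (MvPolynomial.coe_aeval_eq_eval x)).symm
      rw [h3, zero_mul]
  exact (mul_eq_zero.1 h1).resolve_right (MvPolynomial.X_ne_zero 1)

end RTHaux

/-- the height of a zero of a binary form -/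
theorem root_height2 (F : MvPolynomial (Fin 2) ℚ) (hF : F ≠ 0) (k : ℕ) (hk : F.IsHomogeneous k) :
    ∃ C : ℝ, 0 ≤ C ∧ ∀ (K : Type) [Field K] [NumberField K] (x : Fin 2 → K),
      MvPolynomial.aeval x F = 0 → Height.logHeight x ≤ C * Module.finrank ℚ K := by
  obtain ⟨Q, hQ0, hQ⟩ := int_of_rat (dh F) (dh_ne hF hk)
  obtain ⟨C, hC0, hC⟩ := root_height1 Q hQ0
  refine ⟨C, hC0, ?_⟩
  intro K _ _ x hx
  have hR : 0 ≤ C * Module.finrank ℚ K := by positivity
  have hx2 : x = ![x 0, x 1] := by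
    funext i
    fin_cases i <;> rfl
  by_cases h1 : x 1 = 0
  · by_cases h0 : x 0 = 0
    · have h2 : x = 0 := by
        rw [hx2, h0, h1]
        funext i
        fin_cases i <;> rfl
      rw [h2, Height.logHeight_zero]
      exact hR
    · have h2 : Height.logHeight x = 0 := by
        rw [hx2, h1]
        have h3 : (![x 0, 0] : Fin 2 → K) = x 0 • ![1, 0] := by
          funext i
          fin_cases i <;> simp
        rw [h3, Height.logHeight_smul_eq_logHeight _ h0]
        rw [Height.logHeight_swap, Height.logHeight_cons_zero]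
        exact Height.logHeight_eq_zero_of_subsingleton _
      rw [h2]
      exact hR
  · have h2 : Height.logHeight x = Height.logHeight₁ (x 0 / x 1) := by
      rw [Height.logHeight₁_div_eq_logHeight, ← hx2]
    rw [h2]
    refine hC K _ (hQ K _ ?_)
    have h3 := aeval_div hk x h1
    rw [hx] at h3
    exact (mul_eq_zero.1 h3.symm).resolve_left (pow_ne_zero k h1)

/-- the heights of the elements of a finite set -/
theorem finite_height (A : Set ℂ) (hA : A.Finite) : ∃ C : ℝ, 0 ≤ C ∧
    ∀ (K : Type) [Field K] [NumberField K] (φ : K →+* ℂ) (t : K), φ t ∈ A →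
      Height.logHeight₁ t ≤ C * Module.finrank ℚ K := by
  classical
  have h1 : ∀ a : ℂ, ∃ Q : Polynomial ℤ, Q ≠ 0 ∧ (IsAlgebraic ℚ a → Polynomial.aeval a Q = 0) := by
    intro a
    by_cases ha : IsAlgebraic ℚ a
    · obtain ⟨f, hf0, hf⟩ := ha
      obtain ⟨Q, hQ0, hQ⟩ := int_of_rat f hf0
      exact ⟨Q, hQ0, fun _ => hQ ℂ a hf⟩
    · exact ⟨1, one_ne_zero, fun h => absurd h ha⟩
  choose Q hQ0 hQ using h1
  obtain ⟨C, hC0, hC⟩ := root_height1 (∏ a ∈ hA.toFinset, Q a)
    (Finset.prod_ne_zero_iff.2 fun a _ => hQ0 a)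
  refine ⟨C, hC0, ?_⟩
  intro K _ _ φ t ht
  refine hC K t ?_
  have h2 : IsAlgebraic ℚ (φ t) := by
    obtain ⟨f, hf0, hf⟩ := Algebra.IsAlgebraic.isAlgebraic (R := ℚ) t
    refine ⟨f, hf0, ?_⟩
    have h3 := Polynomial.aeval_algHom_apply φ.toRatAlgHom t f
    rw [hf, map_zero] at h3
    exact h3
  have h3 := hQ _ h2
  have h4 : Polynomial.aeval (φ t) (∏ a ∈ hA.toFinset, Q a) = 0 := by
    rw [map_prod]
    exact Finset.prod_eq_zero (hA.mem_toFinset.2 ht) h3
  have h5 := Polynomial.aeval_algHom_apply φ.toIntAlgHom t (∏ a ∈ hA.toFinset, Q a)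
  have h6 : φ (Polynomial.aeval t (∏ a ∈ hA.toFinset, Q a)) = 0 := by
    rw [← h4]
    exact h5.symm
  exact (map_eq_zero φ).1 h6

end Pool.Agent.Y724.T4
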