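import Mathlib
import Pool.Agent.Y724.T4.P1A
import Pool.Agent.Y724.T4.P1B
import Pool.Agent.Y724.T4.P1L
import Pool.Agent.Y724.T4.RTH

/-!
# The truncated counting function of the zeros of a binary form
-/

set_option autoImplicit false

namespace Pool.Agent.Y724.T4

open MvPolynomial NumberField

section nf
variable {K : Type} [Field K] [NumberField K]

lemma sumLe_fin (v : FinitePlace K) (Q : ℕ) : SumLe v.1 1 Q := by
  classical
  intro s f b _ hb h
  rw [one_mul]
  clear * - h hb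
  induction s using Finset.induction_on with
  | empty =>
    rw [Finset.sum_empty, map_zero]
    exact hb
  | insert a s ha ih =>
    rw [Finset.sum_insert ha]
    refine (FinitePlace.add_le v _ _).trans (max_le (h a (Finset.mem_insert_self a s)) ?_)
    exact ih fun i hi => h i (Finset.mem_insert_of_mem hi)

omit [NumberField K] in
lemma sumLe_abs (v : AbsoluteValue K ℝ) (Q : ℕ) : SumLe v (Q + 1) Q := by
  intro s f b hs hb h
  have h1 : (s.card : ℝ) ≤ Q + 1 := by exact_mod_cast hs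
  calc v (∑ i ∈ s, f i) ≤ ∑ i ∈ s, v (f i) := v.sum_le s f
    _ ≤ ∑ _i ∈ s, b := Finset.sum_le_sum h
    _ = s.card * b := by rw [Finset.sum_const, nsmul_eq_mul]
    _ ≤ (Q + 1) * b := mul_le_mul_of_nonneg_right h1 hb

lemma lin_le_fin (v : FinitePlace K) (x a : Fin 2 → K) :
    v (x 0 * a 1 - x 1 * a 0) ≤ (⨆ j, v (x j)) * ⨆ j, v (a j) := by
  have hx : ∀ j, v (x j) ≤ ⨆ j, v (x j) := fun j =>
    le_ciSup (f := fun j => v (x j)) (Finite.bddAbove_range _) j
  have ha : ∀ j, v (a j) ≤ ⨆ j, v (a j) := fun j =>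
    le_ciSup (f := fun j => v (a j)) (Finite.bddAbove_range _) j
  have hx0 : 0 ≤ ⨆ j, v (x j) := (apply_nonneg v (x 0)).trans (hx 0)
  have h1 : v (x 0 * a 1) ≤ (⨆ j, v (x j)) * ⨆ j, v (a j) := by
    rw [map_mul]
    exact mul_le_mul (hx 0) (ha 1) (apply_nonneg v _) hx0
  have h2 : v (x 1 * a 0) ≤ (⨆ j, v (x j)) * ⨆ j, v (a j) := by
    rw [map_mul]
    exact mul_le_mul (hx 1) (ha 0) (apply_nonneg v _) hx0
  have h3 : v (-(x 1 * a 0)) = v (x 1 * a 0) := v.1.map_neg _
  rw [sub_eq_add_neg]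
  refine (FinitePlace.add_le v _ _).trans (max_le h1 ?_)
  rw [h3]
  exact h2

lemma sup_eq (v : FinitePlace K) (x : Fin 2 → K) : ∃ j, v (x j) = ⨆ j, v (x j) :=
  exists_eq_ciSup_of_finite (f := fun j => v (x j))

omit [NumberField K] in
/-- the local inequality in logarithmic form -/
lemma local_log (v : AbsoluteValue K ℝ) (κ b : ℝ) (hκ : 1 ≤ κ) (hb : 1 ≤ b) (Q : ℕ)
    (hsum : SumLe v κ Q) (c : ℕ → K) (hc : ∀ k, v (c k) ≤ b) {q : ℕ} (hqQ : q ≤ Q)
    (α : Fin q → Fin 2 → K) (hα : ∀ i, α i ≠ 0)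
    (hdis : ∀ i j, i ≠ j → α i 0 * α j 1 ≠ α i 1 * α j 0) (hz : ∀ i, bform Q c (α i) = 0)
    (x : Fin 2 → K) (hx : x ≠ 0) (hD : bform Q c x ≠ 0)
    (hL : ∀ i, x 0 * α i 1 - x 1 * α i 0 ≠ 0) :
    Real.log (v (bform Q c x)) + ∑ i, Real.log (⨆ j, v (α i j)) ≤
      Real.log (κ ^ (Q + 1) * b) + ∑ i, Real.log (v (x 0 * α i 1 - x 1 * α i 0)) +
        ((Q : ℝ) - q) * Real.log (⨆ j, v (x j)) := by
  have h1 := p1_local bform_div v κ hκ Q hsum q Q le_rfl c b (by linarith) hc α hα hdis hz x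
  have hX : 0 < ⨆ j, v (x j) := sup_pos hx v
  have hA : ∀ i, 0 < ⨆ j, v (α i j) := fun i => sup_pos (hα i) v
  have hLp : ∀ i, 0 < v (x 0 * α i 1 - x 1 * α i 0) := fun i => v.pos (hL i)
  have hDp := v.pos hD
  have hPL : 0 < ∏ i, v (x 0 * α i 1 - x 1 * α i 0) := Finset.prod_pos fun i _ => hLp i
  have hPA : 0 < ∏ i, ⨆ j, v (α i j) := Finset.prod_pos fun i _ => hA i
  have h2 : κ ^ (q + 1) ≤ κ ^ (Q + 1) := pow_le_pow_right₀ hκ (by omega)
  have h3 : v (bform Q c x) * ∏ i, (⨆ j, v (α i j)) ≤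
      κ ^ (Q + 1) * b * (∏ i, v (x 0 * α i 1 - x 1 * α i 0)) * (⨆ j, v (x j)) ^ (Q - q) := by
    refine h1.trans ?_
    have : 0 ≤ b := by linarith
    gcongr
  have hκ0 : 0 < κ ^ (Q + 1) * b := by positivity
  have h4 := Real.log_le_log (mul_pos hDp hPA) h3
  rw [Real.log_mul hDp.ne' hPA.ne', Real.log_mul (mul_pos hκ0 hPL).ne' (pow_pos hX _).ne',
    Real.log_mul hκ0.ne' hPL.ne', Real.log_pow, Real.log_prod fun i _ => (hA i).ne',
    Real.log_prod fun i _ => (hLp i).ne', Nat.cast_sub hqQ] at h4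
  exact h4

/-- The truncated local height (not divided by the degree). -/
noncomputable def lam (v : FinitePlace K) (a x : Fin 2 → K) : ℝ :=
  min (Real.log ((⨆ j, v (x j)) * (⨆ j, v (a j)) / v (x 0 * a 1 - x 1 * a 0)))
    (Real.log ((Ideal.absNorm v.maximalIdeal.asIdeal : ℕ) : ℝ))

lemma one_le_N (v : FinitePlace K) : (1 : ℝ) ≤ ((Ideal.absNorm v.maximalIdeal.asIdeal : ℕ) : ℝ) := by
  have h3 : Ideal.absNorm v.maximalIdeal.asIdeal ≠ 0 := by
    rw [Ne, Ideal.absNorm_eq_zero_iff]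
    exact v.maximalIdeal.ne_bot
  exact_mod_cast Nat.one_le_iff_ne_zero.2 h3

lemma lam_nonneg (v : FinitePlace K) (a x : Fin 2 → K) (hL : x 0 * a 1 - x 1 * a 0 ≠ 0) :
    0 ≤ lam v a x := by
  have hLp : 0 < v (x 0 * a 1 - x 1 * a 0) := v.1.pos hL
  refine le_min (Real.log_nonneg ?_) (Real.log_nonneg (one_le_N v))
  rw [one_le_div hLp]
  exact lin_le_fin v x a

/-- the gap: `log N(v)` is at most the local height if that is positive -/
lemma lam_eq (v : FinitePlace K) (a x : Fin 2 → K) (hL : x 0 * a 1 - x 1 * a 0 ≠ 0)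
    (hlt : v (x 0 * a 1 - x 1 * a 0) < (⨆ j, v (x j)) * ⨆ j, v (a j)) :
    lam v a x = Real.log ((Ideal.absNorm v.maximalIdeal.asIdeal : ℕ) : ℝ) := by
  have hLp : 0 < v (x 0 * a 1 - x 1 * a 0) := v.1.pos hL
  apply min_eq_right
  obtain ⟨j, hj⟩ := sup_eq v x
  obtain ⟨j', hj'⟩ := sup_eq v a
  rw [← hj, ← hj', ← map_mul] at hlt ⊢
  have h0 : 0 < v (x j * a j') := hLp.trans hlt
  have hne : x j * a j' ≠ 0 := fun h => by rw [h, map_zero] at h0; exact lt_irrefl _ h0
  have h1 := fin_gap v (y := (x 0 * a 1 - x 1 * a 0) / (x j * a j')) (div_ne_zero hL hne) (by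
    rw [map_div₀, div_lt_one h0]
    exact hlt)
  rw [map_div₀, ← mul_div_assoc, div_le_one h0] at h1
  refine Real.log_le_log (by linarith [one_le_N v]) ?_
  rw [le_div_iff₀ hLp]
  exact h1

end nf

/-- the comparison of the counting functions -/
theorem p1_count (D : MvPolynomial (Fin 2) ℤ) (Q : ℕ) (hD : D.IsHomogeneous Q) :
    ∃ C : ℝ, 0 ≤ C ∧ ∀ (K : Type) [Field K] [NumberField K] (q : ℕ) (α : Fin q → Fin 2 → K),
      (∀ i, α i ≠ 0) → (∀ i j, i ≠ j → α i 0 * α j 1 ≠ α i 1 * α j 0) →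
      (∀ i, aeval (α i) D = 0) → ∀ x : Fin 2 → K, x ≠ 0 → aeval x D ≠ 0 →
      ∀ P : Set (FinitePlace K),
      ∑ᶠ v ∈ {v : FinitePlace K | v ∈ P ∧ v (aeval x D) < (⨆ j, v (x j)) ^ Q},
        Real.log ((Ideal.absNorm v.maximalIdeal.asIdeal : ℕ) : ℝ) ≤
      ∑ᶠ v ∈ P, ∑ i, lam v (α i) x + ((Q : ℝ) - q) * Height.logHeight x +
        C * Module.finrank ℚ K := by
  classical
  obtain ⟨c0, hc0⟩ := bform_aeval D Q hD
  set c : ℕ → ℤ := fun k => if k ≤ Q then c0 k else 0 with hc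
  have hcD : ∀ (K : Type) [Field K] [CharZero K] (x : Fin 2 → K),
      aeval x D = bform Q (fun k => (c k : K)) x := by
    intro K _ _ x
    rw [hc0]
    unfold bform
    refine Finset.sum_congr rfl fun k hk => ?_
    have h1 : c k = c0 k := if_pos (by rw [Finset.mem_range] at hk; omega)
    change ((c0 k : ℤ) : K) * _ * _ = ((c k : ℤ) : K) * _ * _
    rw [h1]
  set b : ℝ := 1 + ∑ k ∈ Finset.range (Q + 1), |(c0 k : ℝ)| with hb
  have hb0 : 0 ≤ ∑ k ∈ Finset.range (Q + 1), |(c0 k : ℝ)| :=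
    Finset.sum_nonneg fun _ _ => abs_nonneg _
  have hb1 : 1 ≤ b := by linarith
  have hcb : ∀ k, |(c k : ℝ)| ≤ b := by
    intro k
    by_cases hk : k ≤ Q
    · have h1 : c k = c0 k := if_pos hk
      rw [h1]
      have h2 : |(c0 k : ℝ)| ≤ ∑ k ∈ Finset.range (Q + 1), |(c0 k : ℝ)| :=
        Finset.single_le_sum (f := fun k => |(c0 k : ℝ)|) (fun _ _ => abs_nonneg _)
          (Finset.mem_range.2 (by omega : k < Q + 1))
      linarith
    · have h1 : c k = 0 := if_neg hk
      rw [h1, Int.cast_zero, abs_zero]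
      linarith
  set κ : ℝ := (Q : ℝ) + 1 with hκ
  have hκ1 : 1 ≤ κ := by
    have : (0 : ℝ) ≤ Q := Nat.cast_nonneg _
    linarith
  have hCge : 1 ≤ κ ^ (Q + 1) * b := by
    have := one_le_pow₀ hκ1 (n := Q + 1)
    nlinarith
  refine ⟨Real.log (κ ^ (Q + 1) * b), Real.log_nonneg hCge, ?_⟩
  intro K _ _ q α hα hdis hz x hx hDx P
  have hz' : ∀ i, bform Q (fun k => (c k : K)) (α i) = 0 := fun i => by rw [← hcD, hz i]
  have hDx' : bform Q (fun k => (c k : K)) x ≠ 0 := by rwa [← hcD]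
  have hqQ : q ≤ Q := by
    by_contra hcon
    push Not at hcon
    exact hDx' (bform_card bform_div Q q hcon _ α hα hdis hz' x)
  have hvinf : ∀ (v : InfinitePlace K) (k : ℕ), v.1 ((c k : ℤ) : K) ≤ b := by
    intro v k
    have h1 : v.1 ((c k : ℤ) : K) = |(c k : ℝ)| := RTHaux.inf_int v (c k)
    rw [h1]
    exact hcb k
  have hL : ∀ i, x 0 * α i 1 - x 1 * α i 0 ≠ 0 := by
    intro i hi
    obtain ⟨v⟩ := (inferInstance : Nonempty (InfinitePlace K))
    have h1 := p1_local bform_div v.1 κ hκ1 Q (sumLe_abs _ Q) q Q le_rfl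
      (fun k => (c k : K)) b (by linarith) (hvinf v) α hα hdis hz' x
    have hp0 : ∏ i, v.1 (x 0 * α i 1 - x 1 * α i 0) = 0 :=
      Finset.prod_eq_zero (Finset.mem_univ i) (by rw [hi, map_zero])
    rw [hp0, mul_zero, zero_mul] at h1
    have h2 : 0 < v.1 (bform Q (fun k => (c k : K)) x) * ∏ i, (⨆ j, v.1 (α i j)) :=
      mul_pos (v.1.pos hDx') (Finset.prod_pos fun i _ => sup_pos (hα i) v.1)
    linarith
  -- the functions
  set X : AbsoluteValue K ℝ → ℝ := fun v => Real.log (⨆ j, v (x j)) with hX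
  set DD : AbsoluteValue K ℝ → ℝ := fun v => Real.log (v (aeval x D)) with hDD
  set LL : AbsoluteValue K ℝ → ℝ := fun v => ∑ i, Real.log (v (x 0 * α i 1 - x 1 * α i 0))
    with hLL
  set AA : AbsoluteValue K ℝ → ℝ := fun v => ∑ i, Real.log (⨆ j, v (α i j)) with hAA
  have hfinX : (Function.support fun v : FinitePlace K => X v.1).Finite := by
    refine (sup_fin hx).subset fun v hv h => hv ?_
    change Real.log (⨆ i, v (x i)) = 0
    rw [h, Real.log_one]
  have hfinD : (Function.support fun v : FinitePlace K => DD v.1).Finite := by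
    refine (fin_ne_one hDx).subset fun v hv h => hv ?_
    change Real.log (v (aeval x D)) = 0
    rw [h, Real.log_one]
  have hfinLi : ∀ i, (Function.support fun v : FinitePlace K =>
      Real.log (v (x 0 * α i 1 - x 1 * α i 0))).Finite := by
    intro i
    refine (fin_ne_one (hL i)).subset fun v hv h => hv ?_
    change Real.log (v (x 0 * α i 1 - x 1 * α i 0)) = 0
    rw [h, Real.log_one]
  have hfinAi : ∀ i, (Function.support fun v : FinitePlace K =>
      Real.log (⨆ j, v (α i j))).Finite := by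
    intro i
    refine (sup_fin (hα i)).subset fun v hv h => hv ?_
    change Real.log (⨆ j, v (α i j)) = 0
    rw [h, Real.log_one]
  -- one finite set of places
  set F : Finset (FinitePlace K) := hfinX.toFinset ∪ hfinD.toFinset ∪
    Finset.univ.biUnion (fun i => (hfinLi i).toFinset) ∪
    Finset.univ.biUnion (fun i => (hfinAi i).toFinset) with hF
  have hF1 : ∀ v ∉ F, X v.1 = 0 ∧ DD v.1 = 0 ∧
      (∀ i, Real.log (v (x 0 * α i 1 - x 1 * α i 0)) = 0) ∧
      ∀ i, Real.log (⨆ j, v (α i j)) = 0 := by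
    intro v hv
    rw [hF] at hv
    simp only [Finset.mem_union, Finset.mem_biUnion, Finset.mem_univ, true_and,
      Set.Finite.mem_toFinset, Function.mem_support, not_or, not_not, not_exists] at hv
    exact ⟨hv.1.1.1, hv.1.1.2, hv.1.2, hv.2⟩
  -- sums over all finite places
  have hsum : ∀ f : FinitePlace K → ℝ, (∀ v ∉ F, f v = 0) → ∑ᶠ v, f v = ∑ v ∈ F, f v := by
    intro f hf
    refine finsum_eq_sum_of_support_subset _ fun v hv => ?_
    by_contra hcon
    exact hv (hf v hcon)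
  -- product formulas
  have hpX : ∑ v ∈ F, X v.1 = Height.logHeight x - ∑ v : InfinitePlace K, v.mult * X v.1 := by
    rw [← hsum (fun v => X v.1) fun v hv => (hF1 v hv).1]
    have h1 := logHeight_sum hx
    change Height.logHeight x = ∑ v : InfinitePlace K, v.mult * X v.1 +
      ∑ᶠ v : FinitePlace K, X v.1 at h1
    linarith
  have hpD : ∑ v ∈ F, DD v.1 = - ∑ v : InfinitePlace K, v.mult * DD v.1 := by
    rw [← hsum (fun v => DD v.1) fun v hv => (hF1 v hv).2.1]
    have h1 := prod_formula hDx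
    change ∑ v : InfinitePlace K, v.mult * DD v.1 + ∑ᶠ v : FinitePlace K, DD v.1 = 0 at h1
    linarith
  have hpL : ∑ v ∈ F, LL v.1 = - ∑ v : InfinitePlace K, v.mult * LL v.1 := by
    have h1 : ∀ i, ∑ v ∈ F, Real.log (v (x 0 * α i 1 - x 1 * α i 0)) =
        - ∑ v : InfinitePlace K, v.mult * Real.log (v (x 0 * α i 1 - x 1 * α i 0)) := by
      intro i
      rw [← hsum (fun v => Real.log (v (x 0 * α i 1 - x 1 * α i 0)))
        fun v hv => (hF1 v hv).2.2.1 i]
      have h1 := prod_formula (hL i)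
      linarith
    calc ∑ v ∈ F, LL v.1 = ∑ i, ∑ v ∈ F, Real.log (v (x 0 * α i 1 - x 1 * α i 0)) :=
          Finset.sum_comm
      _ = ∑ i, (- ∑ v : InfinitePlace K, v.mult * Real.log (v (x 0 * α i 1 - x 1 * α i 0))) :=
          Finset.sum_congr rfl fun i _ => h1 i
      _ = - ∑ v : InfinitePlace K, v.mult * LL v.1 := by
          rw [Finset.sum_neg_distrib, Finset.sum_comm]
          congr 1
          refine Finset.sum_congr rfl fun v _ => ?_
          rw [hLL]
          simp only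
          rw [Finset.mul_sum]
          rfl
  have hpA : - ∑ v : InfinitePlace K, v.mult * AA v.1 ≤ ∑ v ∈ F, AA v.1 := by
    have h1 : ∀ i, - ∑ v : InfinitePlace K, v.mult * Real.log (⨆ j, v (α i j)) ≤
        ∑ v ∈ F, Real.log (⨆ j, v (α i j)) := by
      intro i
      rw [← hsum (fun v => Real.log (⨆ j, v (α i j))) fun v hv => (hF1 v hv).2.2.2 i]
      have h1 := logHeight_sum (hα i)
      have h2 := Height.logHeight_nonneg (α i)
      linarith
    calc - ∑ v : InfinitePlace K, v.mult * AA v.1 =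
        ∑ i, (- ∑ v : InfinitePlace K, v.mult * Real.log (⨆ j, v (α i j))) := by
          rw [Finset.sum_neg_distrib, Finset.sum_comm]
          congr 1
          refine Finset.sum_congr rfl fun v _ => ?_
          rw [hAA]
          simp only
          rw [Finset.mul_sum]
          rfl
      _ ≤ ∑ i, ∑ v ∈ F, Real.log (⨆ j, v (α i j)) := Finset.sum_le_sum fun i _ => h1 i
      _ = ∑ v ∈ F, AA v.1 := Finset.sum_comm
  -- the local inequalities
  have hfin : ∀ v : FinitePlace K, DD v.1 + AA v.1 ≤ LL v.1 + ((Q : ℝ) - q) * X v.1 := by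
    intro v
    have h1 := local_log v.1 1 1 le_rfl le_rfl Q (sumLe_fin v Q) (fun k => (c k : K))
      (fun k => PLCaux.int_le_one v (c k)) hqQ α hα hdis hz' x hx hDx' hL
    rw [one_pow, one_mul, Real.log_one, zero_add, ← hcD] at h1
    exact h1
  have hinf : ∀ v : InfinitePlace K, DD v.1 + AA v.1 ≤ Real.log (κ ^ (Q + 1) * b) + LL v.1 +
      ((Q : ℝ) - q) * X v.1 := by
    intro v
    have h1 := local_log v.1 κ b hκ1 hb1 Q (sumLe_abs _ Q) (fun k => (c k : K))
      (hvinf v) hqQ α hα hdis hz' x hx hDx' hL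
    rw [← hcD] at h1
    exact h1
  -- the global bound
  have hinf2 : ∑ v : InfinitePlace K, v.mult * DD v.1 + ∑ v : InfinitePlace K, v.mult * AA v.1 ≤
      Real.log (κ ^ (Q + 1) * b) * Module.finrank ℚ K +
      ∑ v : InfinitePlace K, v.mult * LL v.1 +
      ((Q : ℝ) - q) * ∑ v : InfinitePlace K, v.mult * X v.1 := by
    have h1 : ∑ v : InfinitePlace K, (v.mult : ℝ) * (DD v.1 + AA v.1) ≤
        ∑ v : InfinitePlace K, (v.mult : ℝ) * (Real.log (κ ^ (Q + 1) * b) + LL v.1 +
          ((Q : ℝ) - q) * X v.1) :=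
      Finset.sum_le_sum fun v _ => mul_le_mul_of_nonneg_left (hinf v) (Nat.cast_nonneg _)
    have hmult : ∑ v : InfinitePlace K, (v.mult : ℝ) = Module.finrank ℚ K := by
      rw [← InfinitePlace.sum_mult_eq]
      push_cast
      rfl
    have e1 : ∑ v : InfinitePlace K, (v.mult : ℝ) * (DD v.1 + AA v.1) =
        ∑ v : InfinitePlace K, v.mult * DD v.1 + ∑ v : InfinitePlace K, v.mult * AA v.1 := by
      rw [← Finset.sum_add_distrib]
      exact Finset.sum_congr rfl fun v _ => mul_add _ _ _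
    have e2 : ∑ v : InfinitePlace K, (v.mult : ℝ) * (Real.log (κ ^ (Q + 1) * b) + LL v.1 +
          ((Q : ℝ) - q) * X v.1) = Real.log (κ ^ (Q + 1) * b) * Module.finrank ℚ K +
      ∑ v : InfinitePlace K, v.mult * LL v.1 +
      ((Q : ℝ) - q) * ∑ v : InfinitePlace K, v.mult * X v.1 := by
      rw [← hmult, Finset.mul_sum, Finset.mul_sum, ← Finset.sum_add_distrib,
        ← Finset.sum_add_distrib]
      exact Finset.sum_congr rfl fun v _ => by ring
    rw [e1, e2] at h1
    exact h1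
  -- the gap at the places where x meets D but none of the points
  set logN : FinitePlace K → ℝ := fun v =>
    Real.log ((Ideal.absNorm v.maximalIdeal.asIdeal : ℕ) : ℝ) with hlogN
  have hlogN0 : ∀ v, 0 ≤ logN v := fun v => Real.log_nonneg (one_le_N v)
  have hlam0 : ∀ (v : FinitePlace K) (i : Fin q), 0 ≤ lam v (α i) x := fun v i =>
    lam_nonneg v (α i) x (hL i)
  have hkey : ∀ v : FinitePlace K, v (aeval x D) < (⨆ j, v (x j)) ^ Q →
      logN v ≤ ∑ i, lam v (α i) x + (LL v.1 + ((Q : ℝ) - q) * X v.1 - DD v.1 - AA v.1) := by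
    intro v hv
    by_cases hmeet : ∃ i, v (x 0 * α i 1 - x 1 * α i 0) < (⨆ j, v (x j)) * ⨆ j, v (α i j)
    · obtain ⟨i, hi⟩ := hmeet
      have h1 := lam_eq v (α i) x (hL i) hi
      have h2 : lam v (α i) x ≤ ∑ i, lam v (α i) x :=
        Finset.single_le_sum (f := fun i => lam v (α i) x) (fun i _ => hlam0 v i)
          (Finset.mem_univ i)
      have h3 := hfin v
      rw [h1] at h2
      change logN v ≤ _ at h2
      linarith
    · push Not at hmeet
      have h1 : ∀ i, v (x 0 * α i 1 - x 1 * α i 0) = (⨆ j, v (x j)) * ⨆ j, v (α i j) := fun i =>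
        le_antisymm (lin_le_fin v x (α i)) (hmeet i)
      have hXp : 0 < ⨆ j, v (x j) := sup_pos hx v.1
      have h2 : LL v.1 = q * X v.1 + AA v.1 := by
        change ∑ i, Real.log (v (x 0 * α i 1 - x 1 * α i 0)) = q * Real.log (⨆ j, v (x j)) +
          ∑ i, Real.log (⨆ j, v (α i j))
        have h2 : ∀ i, Real.log (v (x 0 * α i 1 - x 1 * α i 0)) =
            Real.log (⨆ j, v (x j)) + Real.log (⨆ j, v (α i j)) := by
          intro i
          have hAp : 0 < ⨆ j, v (α i j) := sup_pos (hα i) v.1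
          rw [h1 i, Real.log_mul hXp.ne' hAp.ne']
        rw [Finset.sum_congr rfl fun i _ => h2 i, Finset.sum_add_distrib,
          Finset.sum_const, Finset.card_univ, Fintype.card_fin, nsmul_eq_mul]
      obtain ⟨j, hj⟩ := sup_eq v x
      have hxj : x j ≠ 0 := fun h => by
        rw [h, map_zero] at hj
        rw [← hj] at hXp
        exact lt_irrefl _ hXp
      have h3 := fin_gap v (y := aeval x D / x j ^ Q) (div_ne_zero hDx (pow_ne_zero _ hxj)) (by
        rw [map_div₀, map_pow, hj, div_lt_one (pow_pos hXp _)]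
        exact hv)
      rw [map_div₀, map_pow, hj, ← mul_div_assoc, div_le_one (pow_pos hXp _)] at h3
      have hDp : 0 < v (aeval x D) := v.1.pos hDx
      have h4 := Real.log_le_log (mul_pos (by linarith [one_le_N v]) hDp) h3
      rw [Real.log_mul (by linarith [one_le_N v]) hDp.ne', Real.log_pow] at h4
      change logN v + DD v.1 ≤ Q * X v.1 at h4
      have h5 : 0 ≤ ∑ i, lam v (α i) x := Finset.sum_nonneg fun i _ => hlam0 v i
      rw [h2]
      linarith
  -- the sums
  have hU : ∑ᶠ v ∈ {v : FinitePlace K | v ∈ P ∧ v (aeval x D) < (⨆ j, v (x j)) ^ Q}, logN v =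
      ∑ v ∈ F, if v ∈ P ∧ v (aeval x D) < (⨆ j, v (x j)) ^ Q then logN v else 0 := by
    rw [finsum_mem_def, hsum]
    · refine Finset.sum_congr rfl fun v _ => ?_
      rw [Set.indicator_apply]
      rfl
    · intro v hv
      rw [Set.indicator_apply, if_neg]
      rintro ⟨_, h2⟩
      obtain ⟨e1, e2, _, _⟩ := hF1 v hv
      have hXp : 0 < ⨆ j, v (x j) := sup_pos hx v.1
      have hDp : 0 < v (aeval x D) := v.1.pos hDx
      have h3 := Real.log_lt_log hDp h2
      rw [Real.log_pow] at h3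
      change DD v.1 < Q * X v.1 at h3
      rw [e1, e2, mul_zero] at h3
      exact lt_irrefl _ h3
  have hV : ∑ᶠ v ∈ P, ∑ i, lam v (α i) x =
      ∑ v ∈ F, if v ∈ P then ∑ i, lam v (α i) x else 0 := by
    rw [finsum_mem_def, hsum]
    · refine Finset.sum_congr rfl fun v _ => ?_
      rw [Set.indicator_apply]
    · intro v hv
      rw [Set.indicator_apply]
      split_ifs
      · refine Finset.sum_eq_zero fun i _ => ?_
        obtain ⟨e1, e2, e3, e4⟩ := hF1 v hv
        refine le_antisymm ((min_le_left _ _).trans (le_of_eq ?_)) (hlam0 v i)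
        have hXp : 0 < ⨆ j, v (x j) := sup_pos hx v.1
        have hAp : 0 < ⨆ j, v (α i j) := sup_pos (hα i) v.1
        have hLp : 0 < v (x 0 * α i 1 - x 1 * α i 0) := v.1.pos (hL i)
        rw [Real.log_div (mul_pos hXp hAp).ne' hLp.ne', Real.log_mul hXp.ne' hAp.ne', e3 i, e4 i]
        change X v.1 + 0 - 0 = 0
        rw [e1]
        ring
      · rfl
  change ∑ᶠ v ∈ {v : FinitePlace K | v ∈ P ∧ v (aeval x D) < (⨆ j, v (x j)) ^ Q}, logN v ≤ _
  rw [hU, hV]
  have h1 : ∑ v ∈ F, (if v ∈ P ∧ v (aeval x D) < (⨆ j, v (x j)) ^ Q then logN v else 0) ≤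
      ∑ v ∈ F, ((if v ∈ P then ∑ i, lam v (α i) x else 0) +
        (LL v.1 + ((Q : ℝ) - q) * X v.1 - DD v.1 - AA v.1)) := by
    refine Finset.sum_le_sum fun v _ => ?_
    have h2 := hfin v
    by_cases hP : v ∈ P
    · by_cases hm : v (aeval x D) < (⨆ j, v (x j)) ^ Q
      · rw [if_pos ⟨hP, hm⟩, if_pos hP]
        exact hkey v hm
      · rw [if_neg fun h => hm h.2, if_pos hP]
        have h5 : 0 ≤ ∑ i, lam v (α i) x := Finset.sum_nonneg fun i _ => hlam0 v i
        linarith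
    · rw [if_neg fun h => hP h.1, if_neg hP]
      linarith
  have h2 : ∑ v ∈ F, ((if v ∈ P then ∑ i, lam v (α i) x else 0) +
        (LL v.1 + ((Q : ℝ) - q) * X v.1 - DD v.1 - AA v.1)) =
      ∑ v ∈ F, (if v ∈ P then ∑ i, lam v (α i) x else 0) +
        (∑ v ∈ F, LL v.1 + ((Q : ℝ) - q) * ∑ v ∈ F, X v.1 - ∑ v ∈ F, DD v.1 -
          ∑ v ∈ F, AA v.1) := by
    rw [Finset.sum_add_distrib, Finset.sum_sub_distrib, Finset.sum_sub_distrib,
      Finset.sum_add_distrib, Finset.mul_sum]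
  rw [h2] at h1
  rw [hpX, hpD, hpL] at h1
  linarith

end Pool.Agent.Y724.T4
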