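import Mathlib
import Pool.Agent.Y724.T4.FIN5

/-!
# LIO: the height of a point is at most the sum of the heights of its ratios of coordinates, and the
# Liouville inequality for local heights
-/

set_option autoImplicit false

namespace Pool.Agent.Y724.T4

open MvPolynomial NumberField

variable {K : Type} [Field K] [NumberField K]

theorem height_le_ratios {ι : Type} [Fintype ι] (x : ι → K) (j0 : ι) (h : x j0 ≠ 0) :
    Height.logHeight x ≤ ∑ i, Height.logHeight₁ (x i / x j0) := by
  classical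
  have h1 : Height.logHeight x = Height.logHeight ((x j0)⁻¹ • x) :=
    (Height.logHeight_smul_eq_logHeight x (inv_ne_zero h)).symm
  have hne : ∀ a : ι, (![x a / x j0, 1] : Fin 2 → K) ≠ 0 := by
    intro a h0
    have h2 := congrFun h0 1
    simp at h2
  have h3 := Height.logHeight_fun_prod_eq (α := ι) (ι := fun _ => Fin 2)
    (x := fun a => (![x a / x j0, 1] : Fin 2 → K)) hne
  have h4 : (x j0)⁻¹ • x = (fun I : (a : ι) → Fin 2 =>
      ∏ a, (![x a / x j0, 1] : Fin 2 → K) (I a)) ∘ (fun i a => if a = i then 0 else 1) := by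
    funext i
    rw [Function.comp_apply, Finset.prod_eq_single i]
    · beta_reduce
      rw [if_pos rfl, Pi.smul_apply, smul_eq_mul, Matrix.cons_val_zero]
      rw [div_eq_mul_inv, mul_comm]
    · intro b _ hb
      beta_reduce
      rw [if_neg hb, Matrix.cons_val_one]
      rfl
    · intro h5
      exact absurd (Finset.mem_univ i) h5
  rw [h1, h4]
  refine (Height.logHeight_comp_le _ _).trans ?_
  rw [h3]
  refine (Finset.sum_congr rfl fun a _ => ?_).le
  rw [Height.logHeight₁_eq_logHeight]

theorem liouville {q w ν : ℕ} (F : Fin q → Fin w → MvPolynomial (Fin ν) ℤ) (d : Fin q → Fin w → ℕ)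
    (hF : ∀ i j, (F i j).IsHomogeneous (d i j)) (S : Finset ℕ) (x : Fin ν → K) (hx : x ≠ 0)
    (hD : ∀ i, ∃ j, aeval x (F i j) ≠ 0) :
    ∑ i, (∑ v : InfinitePlace K, v.mult * locH (F i) (d i) x v.1 +
      ∑ᶠ v ∈ Over K S, locH (F i) (d i) x v.1) ≤
      (∑ i, ∑ j, (d i j : ℝ)) * Height.logHeight x := by
  classical
  rw [Finset.sum_mul]
  refine Finset.sum_le_sum fun i _ => ?_
  obtain ⟨j, hj⟩ := hD i
  have hpl : ∀ a : AbsoluteValue K ℝ, locH (F i) (d i) x a ≤
      (d i j : ℝ) * Real.log (⨆ k, a (x k)) - Real.log (a (aeval x (F i j))) := by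
    intro a
    have hs := sup_pos hx a
    have h1 : 0 < a (aeval x (F i j)) / (⨆ k, a (x k)) ^ d i j :=
      div_pos (a.pos hj) (pow_pos hs _)
    have h2 : a (aeval x (F i j)) / (⨆ k, a (x k)) ^ d i j ≤
        ⨆ j, a (aeval x (F i j)) / (⨆ k, a (x k)) ^ d i j :=
      le_ciSup (f := fun j => a (aeval x (F i j)) / (⨆ k, a (x k)) ^ d i j)
        (Set.finite_range _).bddAbove j
    have h3 := Real.log_le_log h1 h2
    rw [Real.log_div (a.pos hj).ne' (pow_pos hs _).ne', Real.log_pow] at h3
    unfold locH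
    linarith
  have hA := locH_fin (F i) (d i) x hx ⟨j, hj⟩
  have hB := sup_fin hx
  have hC := fin_ne_one hj
  set T : Finset (FinitePlace K) := hA.toFinset ∪ hB.toFinset ∪ hC.toFinset with hT
  have e1 : ∑ᶠ v ∈ Over K S, locH (F i) (d i) x v.1 ≤ ∑ v ∈ T, locH (F i) (d i) x v.1 := by
    have hs : ((Over K S) ∩ Function.support fun v : FinitePlace K =>
        locH (F i) (d i) x v.1).Finite := hA.subset fun v hv => hv.2
    rw [finsum_mem_eq_sum _ hs]
    refine Finset.sum_le_sum_of_subset_of_nonneg ?_ fun v _ _ => locH_nonneg _ _ (hF i) x v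
    intro v hv
    rw [Set.Finite.mem_toFinset] at hv
    rw [hT, Finset.mem_union, Finset.mem_union]
    exact Or.inl (Or.inl (by
      rw [Set.Finite.mem_toFinset]
      exact hv.2))
  have e2 : ∑ᶠ v : FinitePlace K, Real.log (⨆ k, v (x k)) =
      ∑ v ∈ T, Real.log (⨆ k, v (x k)) := by
    apply finsum_eq_sum_of_support_subset
    intro v hv
    rw [hT, Finset.coe_union, Finset.coe_union]
    refine Or.inl (Or.inr ?_)
    rw [Finset.mem_coe, Set.Finite.mem_toFinset]
    intro h3
    apply hv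
    change Real.log (⨆ k, v (x k)) = 0
    rw [h3, Real.log_one]
  have e3 : ∑ᶠ v : FinitePlace K, Real.log (v (aeval x (F i j))) =
      ∑ v ∈ T, Real.log (v (aeval x (F i j))) := by
    apply finsum_eq_sum_of_support_subset
    intro v hv
    rw [hT, Finset.coe_union, Finset.coe_union]
    refine Or.inr ?_
    rw [Finset.mem_coe, Set.Finite.mem_toFinset]
    intro h3
    apply hv
    change Real.log (v (aeval x (F i j))) = 0
    rw [h3, Real.log_one]
  have hh := logHeight_sum hx
  have hp := prod_formula hj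
  rw [e2] at hh
  rw [e3] at hp
  have f1 : ∑ v : InfinitePlace K, (v.mult : ℝ) * locH (F i) (d i) x v.1 ≤
      ∑ v : InfinitePlace K, ((d i j : ℝ) * ((v.mult : ℝ) * Real.log (⨆ k, v (x k))) -
        (v.mult : ℝ) * Real.log (v (aeval x (F i j)))) := by
    refine Finset.sum_le_sum fun v _ => ?_
    have h5 := mul_le_mul_of_nonneg_left (hpl v.1) (Nat.cast_nonneg (α := ℝ) v.mult)
    refine h5.trans (le_of_eq ?_)
    change (v.mult : ℝ) * ((d i j : ℝ) * Real.log (⨆ k, v (x k)) -
      Real.log (v (aeval x (F i j)))) = _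
    ring
  have f2 : ∑ v ∈ T, locH (F i) (d i) x v.1 ≤
      ∑ v ∈ T, ((d i j : ℝ) * Real.log (⨆ k, v (x k)) - Real.log (v (aeval x (F i j)))) :=
    Finset.sum_le_sum fun v _ => hpl v.1
  rw [Finset.sum_sub_distrib, ← Finset.mul_sum] at f1 f2
  have hH : 0 ≤ Height.logHeight x := Height.logHeight_nonneg x
  have g1 : (d i j : ℝ) * Height.logHeight x ≤ (∑ j, (d i j : ℝ)) * Height.logHeight x :=
    mul_le_mul_of_nonneg_right (Finset.single_le_sum (f := fun j => (d i j : ℝ))
      (fun j _ => Nat.cast_nonneg _) (Finset.mem_univ j)) hH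
  refine le_trans ?_ g1
  rw [hh, mul_add]
  linarith

end Pool.Agent.Y724.T4
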