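import Mathlib
import Pool.Agent.Y724.T4.RES6
import Pool.Agent.Y724.T4.RTH
import Pool.Agent.Y724.T4.LNG
import Pool.Agent.Y724.T4.LIO

/-!
# Points in a finite exceptional set
-/

set_option autoImplicit false

namespace Pool.Agent.Y724.T4

open MvPolynomial NumberField Pool.Agent.Y724.Vj

lemma aeval_scale {L : Type} [Field L] {M : ℕ} {P : MvPolynomial (Fin M) ℤ} {k : ℕ}
    (hP : P.IsHomogeneous k) (c : L) (x : Fin M → L) :
    aeval (fun i => c * x i) P = c ^ k * aeval x P := by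
  rw [aeval_eq_evi, aeval_eq_evi]
  exact evi_smul P k hP c x

lemma aeval_scaleQ {L : Type} [Field L] [Algebra ℚ L] {M : ℕ} {P : MvPolynomial (Fin M) ℚ} {k : ℕ}
    (hP : P.IsHomogeneous k) (c : L) (x : Fin M → L) :
    aeval (fun i => c * x i) P = c ^ k * aeval x P := by
  rw [aeval_def, aeval_def, eval₂_eq', eval₂_eq', Finset.mul_sum]
  refine Finset.sum_congr rfl fun d hd => ?_
  have h1 : ∑ i, d i = k := by
    have h2 := hP (mem_support_iff.1 hd)
    simpa [Finsupp.weight_apply, Finsupp.sum_fintype] using h2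
  rw [Finset.prod_congr rfl fun i _ => mul_pow c (x i) (d i), Finset.prod_mul_distrib,
    Finset.prod_pow_eq_pow_sum, h1]
  ring

/-- a tangent basis at a multiple of the point -/
lemma tangent_scale {L : Type} [Field L] {M N g : ℕ} {G : Fin g → MvPolynomial (Fin M) ℤ}
    {e : Fin g → ℕ} (hG : ∀ k, (G k).IsHomogeneous (e k)) (c : L) (x : Fin M → L)
    (T : Matrix (Fin M) (Fin (N + 1)) L) (hT : R6.IsTangentBasis G x T) :
    R6.IsTangentBasis G (fun i => c * x i) T := by
  refine ⟨hT.1, fun k a => ?_⟩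
  have h1 : ∀ j, aeval (fun i => c * x i) (pderiv j (G k)) =
      c ^ (e k - 1) * aeval x (pderiv j (G k)) := fun j => aeval_scale (hG k).pderiv c x
  rw [Finset.sum_congr rfl fun j _ => by rw [h1 j, mul_assoc], ← Finset.mul_sum, hT.2 k a,
    mul_zero]

/-- **Points in a finite exceptional set.** -/
theorem exc_bound {N s g q w : ℕ} (G : Fin g → MvPolynomial (Fin (N + s + 1)) ℤ) (e : Fin g → ℕ)
    (hG : ∀ k, (G k).IsHomogeneous (e k)) (F : Fin q → Fin w → MvPolynomial (Fin (N + s + 1)) ℤ)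
    (d : Fin q → Fin w → ℕ) (hF : ∀ i j, (F i j).IsHomogeneous (d i j))
    (hsm : R6.SmoothPair s G F) (S : Finset ℕ) (Φ : MvPolynomial (Fin (N + s + 1)) ℚ)
    (hfin : {P : Projectivization ℂ (Fin (N + s + 1) → ℂ) | ∃ (z : Fin (N + s + 1) → ℂ)
      (hz : z ≠ 0), P = Projectivization.mk ℂ z hz ∧ (∀ k, aeval z (G k) = 0) ∧
        aeval z Φ = 0}.Finite) :
    ∃ C : ℝ, ∀ (K : Type) [Field K] [NumberField K] (x : Fin (N + s + 1) → K), x ≠ 0 →
      R6.OnX G x → aeval x Φ = 0 → R6.height x ≤ C ∧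
      ∀ T : Matrix (Fin (N + s + 1)) (Fin (N + 1)) K, R6.IsTangentBasis G x T →
        R6.canonicalHeight x T ≤ C ∧
        ((∀ i, ∃ j, aeval x (F i j) ≠ 0) → R6.proximity F d S x ≤ C) := by
  classical
  set E := {P : Projectivization ℂ (Fin (N + s + 1) → ℂ) | ∃ (z : Fin (N + s + 1) → ℂ)
      (hz : z ≠ 0), P = Projectivization.mk ℂ z hz ∧ (∀ k, aeval z (G k) = 0) ∧
        aeval z Φ = 0} with hE
  -- the ratios of the coordinates
  set A1 : Set ℂ := ⋃ P ∈ E, ⋃ i, ⋃ j, {P.rep i / P.rep j} with hA1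
  have hA1f : A1.Finite := hfin.biUnion fun P _ => Set.finite_iUnion fun i =>
    Set.finite_iUnion fun j => Set.finite_singleton _
  -- the ratios of the minors
  have hT0 : ∀ P : Projectivization ℂ (Fin (N + s + 1) → ℂ),
      ∃ T0 : Matrix (Fin (N + s + 1)) (Fin (N + 1)) ℂ,
        (∃ T : Matrix (Fin (N + s + 1)) (Fin (N + 1)) ℂ, R6.IsTangentBasis G P.rep T) →
          R6.IsTangentBasis G P.rep T0 := by
    intro P
    by_cases h : ∃ T : Matrix (Fin (N + s + 1)) (Fin (N + 1)) ℂ, R6.IsTangentBasis G P.rep T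
    · obtain ⟨T, hT⟩ := h
      exact ⟨T, fun _ => hT⟩
    · exact ⟨0, fun h' => absurd h' h⟩
  choose T0 hT0 using hT0
  set A2 : Set ℂ := ⋃ P ∈ E, ⋃ J : Fin (N + 1) → Fin (N + s + 1),
    ⋃ J' : Fin (N + 1) → Fin (N + s + 1),
      {((T0 P).submatrix J id).det / ((T0 P).submatrix J' id).det} with hA2
  have hA2f : A2.Finite := hfin.biUnion fun P _ => Set.finite_iUnion fun i =>
    Set.finite_iUnion fun j => Set.finite_singleton _
  obtain ⟨C1, hC1, hb1⟩ := finite_height A1 hA1f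
  obtain ⟨C2, hC2, hb2⟩ := finite_height A2 hA2f
  set D0 : ℝ := ∑ i, ∑ j, (d i j : ℝ) with hD0
  have hD00 : 0 ≤ D0 := Finset.sum_nonneg fun i _ => Finset.sum_nonneg fun j _ => Nat.cast_nonneg _
  set H1 : ℝ := (N + s + 1 : ℕ) * C1 with hH1
  set H2 : ℝ := Fintype.card (Fin (N + 1) → Fin (N + s + 1)) * C2 with hH2
  have hH10 : 0 ≤ H1 := by positivity
  have hH20 : 0 ≤ H2 := by positivity
  refine ⟨H1 + H2 + D0 * H1, ?_⟩
  intro K _ _ x hx hX hΦ
  have hn0 : 0 < Module.finrank ℚ K := Module.finrank_pos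
  have hnR : (0 : ℝ) < Module.finrank ℚ K := by exact_mod_cast hn0
  obtain ⟨φ⟩ := (inferInstance : Nonempty (K →+* ℂ))
  have hev : ∀ {σ : Type} (v : σ → K) (Q : MvPolynomial σ ℤ),
      aeval (fun j => φ (v j)) Q = φ (aeval v Q) := fun v Q =>
    (comp_aeval_apply v φ.toIntAlgHom Q).symm
  have hevQ : ∀ (v : Fin (N + s + 1) → K) (Q : MvPolynomial (Fin (N + s + 1)) ℚ),
      aeval (fun j => φ (v j)) Q = φ (aeval v Q) := fun v Q =>
    (comp_aeval_apply v φ.toRatAlgHom Q).symm
  set z : Fin (N + s + 1) → ℂ := fun j => φ (x j) with hz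
  have hz0 : z ≠ 0 := by
    intro h
    apply hx
    funext y
    exact (map_eq_zero φ).1 (congrFun h y)
  have hzG : ∀ k, aeval z (G k) = 0 := fun k => by
    rw [hz, hev, hX k, map_zero]
  set P : Projectivization ℂ (Fin (N + s + 1) → ℂ) := Projectivization.mk ℂ z hz0 with hP
  have hPE : P ∈ E := ⟨z, hz0, rfl, hzG, by rw [hz, hevQ, hΦ, map_zero]⟩
  obtain ⟨c, hc⟩ := Projectivization.exists_smul_eq_mk_rep ℂ z hz0
  have hrep : P.rep = fun j => (c : ℂ) * z j := by
    rw [hP, ← hc]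
    rfl
  obtain ⟨y0, hy0⟩ := Function.ne_iff.1 hx
  rw [Pi.zero_apply] at hy0
  -- the height
  have hh : Height.logHeight x ≤ H1 * Module.finrank ℚ K := by
    refine (height_le_ratios x y0 hy0).trans ?_
    have h1 : ∀ i, Height.logHeight₁ (x i / x y0) ≤ C1 * Module.finrank ℚ K := by
      intro i
      refine hb1 K φ _ ?_
      rw [hA1]
      refine Set.mem_biUnion hPE (Set.mem_iUnion.2 ⟨i, Set.mem_iUnion.2 ⟨y0, ?_⟩⟩)
      rw [Set.mem_singleton_iff, hrep, map_div₀]
      exact (mul_div_mul_left _ _ c.ne_zero).symm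
    refine (Finset.sum_le_sum fun i _ => h1 i).trans (le_of_eq ?_)
    rw [Finset.sum_const, Finset.card_univ, Fintype.card_fin, nsmul_eq_mul, hH1]
    ring
  have hh' : R6.height x ≤ H1 := by
    unfold R6.height
    rwa [div_le_iff₀ hnR]
  have hhx0 : 0 ≤ Height.logHeight x := Height.logHeight_nonneg _
  refine ⟨hh'.trans (by nlinarith), fun T hT => ⟨?_, fun hD => ?_⟩⟩
  · -- the canonical height
    obtain ⟨J1, hJ1⟩ := exists_minor T hT.1
    set u : (Fin (N + 1) → Fin (N + s + 1)) → K := fun J => (T.submatrix J id).det with hu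
    have hTz : R6.IsTangentBasis G z (T.map φ) := by
      refine ⟨li_up φ _ hT.1, fun k a => ?_⟩
      have h1 := congrArg φ (hT.2 k a)
      rw [map_sum, map_zero] at h1
      rw [← h1]
      refine Finset.sum_congr rfl fun j _ => ?_
      rw [map_mul, hz, hev]
      rfl
    have hTr : R6.IsTangentBasis G P.rep (T.map φ) := by
      rw [hrep]
      exact tangent_scale hG (c : ℂ) z _ hTz
    have hT0' := hT0 P ⟨_, hTr⟩
    obtain ⟨J2, hJ2⟩ := exists_minor (T0 P) hT0'.1
    -- independent gradients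
    obtain ⟨kk, Jk, hli⟩ := hsm P.rep P.rep_nonzero (fun k => by
      rw [hrep, aeval_scale (hG k), hzG k, mul_zero])
    have hli' := hli.comp Sum.inl Sum.inl_injective
    obtain ⟨c2, hc2, hdets⟩ := minors_smul (n := N + 1) (s := s) (by omega)
      (fun (a : Fin s) (y : Fin (N + s + 1)) => aeval P.rep (pderiv y (G (kk a)))) hli' (T0 P)
      (T.map φ) (fun a b => hT0'.2 (kk a) b) (fun a b => hTr.2 (kk a) b) J2 hJ2 hTr.1
    have hmin : ∀ J, φ (u J) = ((T.map φ).submatrix J id).det := by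
      intro J
      rw [hu]
      simp only
      rw [RingHom.map_det]
      rfl
    have h1 : Height.logHeight u ≤ H2 * Module.finrank ℚ K := by
      refine (height_le_ratios u J1 hJ1).trans ?_
      have h1 : ∀ J, Height.logHeight₁ (u J / u J1) ≤ C2 * Module.finrank ℚ K := by
        intro J
        refine hb2 K φ _ ?_
        rw [hA2]
        refine Set.mem_biUnion hPE (Set.mem_iUnion.2 ⟨J, Set.mem_iUnion.2 ⟨J1, ?_⟩⟩)
        rw [Set.mem_singleton_iff, map_div₀, hmin, hmin, hdets, hdets]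
        exact mul_div_mul_left _ _ hc2
      refine (Finset.sum_le_sum fun i _ => h1 i).trans (le_of_eq ?_)
      rw [Finset.sum_const, Finset.card_univ, nsmul_eq_mul, hH2]
      ring
    have h2 : R6.canonicalHeight x T ≤ H2 := by
      unfold R6.canonicalHeight
      rw [div_le_iff₀ hnR]
      have : 0 ≤ ((N : ℝ) + 1) * Height.logHeight x := by positivity
      linarith
    nlinarith
  · have h1 := liouville F d hF S x hx hD
    have h2 : R6.proximity F d S x ≤ D0 * H1 := by
      unfold R6.proximity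
      rw [div_le_iff₀ hnR]
      refine le_trans h1 ?_
      rw [mul_assoc]
      exact mul_le_mul_of_nonneg_left hh hD00
    nlinarith

end Pool.Agent.Y724.T4
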