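import Mathlib
import Pool.Agent.Y724.T4.BIG
import Pool.Agent.Y724.T4.RES6

/-!
# SHP: short sums of `S`-units under polynomial maps
-/

set_option autoImplicit false

namespace Pool.Agent.Y724.T4

open MvPolynomial

section csum
variable {σ : Type}

lemma coefSum_eq (p : MvPolynomial σ ℤ) (s : Finset (σ →₀ ℕ)) (h : p.support ⊆ s) :
    coefSum p = ∑ m ∈ s, |((p.coeff m : ℤ) : ℝ)| := by
  unfold coefSum
  refine Finset.sum_subset h fun m _ hm => ?_
  rw [notMem_support_iff.1 hm]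
  simp

lemma coefSum_add (p q : MvPolynomial σ ℤ) : coefSum (p + q) ≤ coefSum p + coefSum q := by
  classical
  rw [coefSum_eq (p + q) (p.support ∪ q.support) support_add,
    coefSum_eq p (p.support ∪ q.support) Finset.subset_union_left,
    coefSum_eq q (p.support ∪ q.support) Finset.subset_union_right, ← Finset.sum_add_distrib]
  refine Finset.sum_le_sum fun m _ => ?_
  rw [coeff_add, Int.cast_add]
  exact abs_add_le _ _

lemma coefSum_zero : coefSum (0 : MvPolynomial σ ℤ) = 0 := by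
  unfold coefSum
  rw [support_zero, Finset.sum_empty]

lemma coefSum_sum {κ : Type} (s : Finset κ) (f : κ → MvPolynomial σ ℤ) :
    coefSum (∑ i ∈ s, f i) ≤ ∑ i ∈ s, coefSum (f i) := by
  classical
  induction s using Finset.induction_on with
  | empty => rw [Finset.sum_empty, Finset.sum_empty, coefSum_zero]
  | insert a s ha ih =>
    rw [Finset.sum_insert ha, Finset.sum_insert ha]
    exact (coefSum_add _ _).trans (add_le_add le_rfl ih)

lemma coefSum_monomial (m : σ →₀ ℕ) (a : ℤ) : coefSum (monomial m a) ≤ |(a : ℝ)| := by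
  classical
  rw [coefSum_eq (monomial m a) {m} support_monomial_subset, Finset.sum_singleton, coeff_monomial,
    if_pos rfl]

lemma coefSum_mul (p q : MvPolynomial σ ℤ) : coefSum (p * q) ≤ coefSum p * coefSum q := by
  classical
  have h1 : p * q = ∑ m ∈ p.support, ∑ n ∈ q.support,
      monomial (m + n) (p.coeff m * q.coeff n) := by
    conv_lhs => rw [p.as_sum, q.as_sum, Finset.sum_mul_sum]
    refine Finset.sum_congr rfl fun m _ => Finset.sum_congr rfl fun n _ => ?_
    rw [monomial_mul]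
  rw [h1]
  refine (coefSum_sum _ _).trans ?_
  have h2 : coefSum p * coefSum q = ∑ m ∈ p.support, ∑ n ∈ q.support,
      |((p.coeff m : ℤ) : ℝ)| * |((q.coeff n : ℤ) : ℝ)| := by
    unfold coefSum
    rw [Finset.sum_mul_sum]
  rw [h2]
  refine Finset.sum_le_sum fun m _ => (coefSum_sum _ _).trans (Finset.sum_le_sum fun n _ => ?_)
  refine (coefSum_monomial _ _).trans (le_of_eq ?_)
  rw [Int.cast_mul, abs_mul]

lemma coeff_le_coefSum (p : MvPolynomial σ ℤ) (m : σ →₀ ℕ) :
    |((p.coeff m : ℤ) : ℝ)| ≤ coefSum p := by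
  classical
  by_cases hm : m ∈ p.support
  · exact Finset.single_le_sum (f := fun m => |((p.coeff m : ℤ) : ℝ)|) (fun _ _ => abs_nonneg _) hm
  · rw [notMem_support_iff.1 hm]
    simpa using coefSum_nonneg p

end csum

/-- substitution of linear forms -/
lemma subst_lin {ι : Type} (P : MvPolynomial ι ℤ) (l : ℕ) :
    ∃ (D : ℕ) (C : ℝ), 0 ≤ C ∧ ∀ (m : Fin l → ι → ℤ) (R : ℝ), 1 ≤ R →
      (∀ j i, |(m j i : ℝ)| ≤ R) → ∃ Q : MvPolynomial (Fin l) ℤ, Q.totalDegree ≤ D ∧
        coefSum Q ≤ C * R ^ D ∧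
        ∀ u : Fin l → ℚ, aeval u Q = aeval (fun i => ∑ j, u j * m j i) P := by
  classical
  induction P using MvPolynomial.induction_on with
  | C a =>
    refine ⟨0, |(a : ℝ)|, abs_nonneg _, fun m R _ _ => ⟨C a, ?_, ?_, fun u => ?_⟩⟩
    · rw [totalDegree_C]
    · rw [pow_zero, mul_one]
      exact coefSum_monomial 0 a
    · rw [aeval_C, aeval_C]
  | add p q hp hq =>
    obtain ⟨D1, C1, hC1, h1⟩ := hp
    obtain ⟨D2, C2, hC2, h2⟩ := hq
    refine ⟨max D1 D2, C1 + C2, add_nonneg hC1 hC2, fun m R hR hm => ?_⟩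
    obtain ⟨Q1, e1, e2, e3⟩ := h1 m R hR hm
    obtain ⟨Q2, f1, f2, f3⟩ := h2 m R hR hm
    refine ⟨Q1 + Q2, (totalDegree_add _ _).trans (max_le_max e1 f1), ?_, fun u => ?_⟩
    · refine (coefSum_add _ _).trans ?_
      have g1 : R ^ D1 ≤ R ^ max D1 D2 := pow_le_pow_right₀ hR (le_max_left _ _)
      have g2 : R ^ D2 ≤ R ^ max D1 D2 := pow_le_pow_right₀ hR (le_max_right _ _)
      have g3 := mul_le_mul_of_nonneg_left g1 hC1
      have g4 := mul_le_mul_of_nonneg_left g2 hC2
      linarith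
    · rw [map_add, map_add, e3, f3]
  | mul_X p i hp =>
    obtain ⟨D1, C1, hC1, h1⟩ := hp
    refine ⟨D1 + 1, C1 * l, by positivity, fun m R hR hm => ?_⟩
    obtain ⟨Q1, e1, e2, e3⟩ := h1 m R hR hm
    refine ⟨Q1 * ∑ j, monomial (Finsupp.single j 1) (m j i), ?_, ?_, fun u => ?_⟩
    · refine (totalDegree_mul _ _).trans (add_le_add e1 ?_)
      refine totalDegree_finsetSum_le fun j _ => ?_
      refine (totalDegree_monomial_le _ _).trans ?_
      rw [Finsupp.sum_single_index rfl]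
      exact le_rfl
    · refine (coefSum_mul _ _).trans ?_
      have g1 : coefSum (∑ j, monomial (Finsupp.single j 1) (m j i)) ≤ l * R := by
        refine (coefSum_sum _ _).trans ?_
        refine (Finset.sum_le_sum fun j _ => (coefSum_monomial _ _).trans (hm j i)).trans ?_
        rw [Finset.sum_const, Finset.card_univ, Fintype.card_fin, nsmul_eq_mul]
      calc coefSum Q1 * coefSum (∑ j, monomial (Finsupp.single j 1) (m j i)) ≤
          (C1 * R ^ D1) * (l * R) := by
            refine mul_le_mul e2 g1 (coefSum_nonneg _) (by positivity)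
        _ = C1 * l * R ^ (D1 + 1) := by ring
    · rw [map_mul, map_mul, aeval_X, e3, map_sum]
      congr 1
      refine Finset.sum_congr rfl fun j _ => ?_
      rw [aeval_monomial, Finsupp.prod_single_index (by rw [pow_zero]), pow_one, mul_comm]
      simp

lemma sUnit_mul {S : Finset ℕ} (hS : ∀ p ∈ S, p.Prime) {u v : ℚ} (hu : R6.IsSUnit S u)
    (hv : R6.IsSUnit S v) : R6.IsSUnit S (u * v) := by
  obtain ⟨σ, e, hσ, rfl⟩ := hu
  obtain ⟨τ, f, hτ, rfl⟩ := hv
  refine ⟨σ * τ, fun p => e p + f p, ?_, ?_⟩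
  · rcases hσ with h | h <;> rcases hτ with h' | h' <;> rw [h, h'] <;> simp
  · have h1 : ∏ p ∈ S, (p : ℚ) ^ (e p + f p) = (∏ p ∈ S, (p : ℚ) ^ e p) * ∏ p ∈ S, (p : ℚ) ^ f p := by
      rw [← Finset.prod_mul_distrib]
      refine Finset.prod_congr rfl fun p hp => ?_
      rw [zpow_add₀ (by exact_mod_cast (hS p hp).ne_zero)]
    rw [h1]
    push_cast
    ring

lemma sUnit_one {S : Finset ℕ} : R6.IsSUnit S 1 :=
  ⟨1, fun _ => 0, Or.inl rfl, by simp⟩

lemma sUnit_pow {S : Finset ℕ} (hS : ∀ p ∈ S, p.Prime) {u : ℚ} (hu : R6.IsSUnit S u) (k : ℕ) :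
    R6.IsSUnit S (u ^ k) := by
  induction k with
  | zero => rw [pow_zero]; exact sUnit_one
  | succ k ih => rw [pow_succ]; exact sUnit_mul hS ih hu

/-- polynomial values of short sums are short sums -/
theorem shp {ι ι' : Type} [Fintype ι'] (P : ι' → MvPolynomial ι ℤ) (l : ℕ) :
    ∃ (D l' : ℕ) (C : ℝ), 0 ≤ C ∧ ∀ (S : Finset ℕ), (∀ p ∈ S, p.Prime) →
      ∀ (z : ι → ℚ) (R : ℝ), 1 ≤ R → ∀ (u : Fin l → ℚ) (m : Fin l → ι → ℤ),
      (∀ j, R6.IsSUnit S (u j)) → (∀ j i, |(m j i : ℝ)| ≤ R) → (∀ i, z i = ∑ j, u j * m j i) →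
      ∃ (u' : Fin l' → ℚ) (m' : Fin l' → ι' → ℤ), (∀ j, R6.IsSUnit S (u' j)) ∧
        (∀ j i, |(m' j i : ℝ)| ≤ C * R ^ D) ∧ ∀ i, aeval z (P i) = ∑ j, u' j * m' j i := by
  classical
  choose D0 C0 hC0 hQ using fun i => subst_lin (P i) l
  set D : ℕ := ∑ i, D0 i with hD
  set C : ℝ := ∑ i, C0 i with hC
  have hDi : ∀ i, D0 i ≤ D := fun i =>
    Finset.single_le_sum (f := D0) (fun _ _ => Nat.zero_le _) (Finset.mem_univ i)
  have hCi : ∀ i, C0 i ≤ C := fun i =>
    Finset.single_le_sum (f := C0) (fun i _ => hC0 i) (Finset.mem_univ i)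
  refine ⟨D, Fintype.card (Fin l → Fin (D + 1)), C, Finset.sum_nonneg fun i _ => hC0 i, ?_⟩
  intro S hS z R hR u m hu hm hz
  choose Q q1 q2 q3 using fun i => hQ i m R hR hm
  set e := (Fintype.equivFin (Fin l → Fin (D + 1))).symm with he
  set emb : (Fin l → Fin (D + 1)) → (Fin l →₀ ℕ) := fun a =>
    Finsupp.equivFunOnFinite.symm (fun j => (a j : ℕ)) with hemb
  have hemb_inj : Function.Injective emb := by
    intro a b hab
    have h1 := Finsupp.equivFunOnFinite.symm.injective hab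
    funext j
    exact Fin.ext (congrFun h1 j)
  refine ⟨fun k => ∏ j, u j ^ (e k j : ℕ), fun k i => (Q i).coeff (emb (e k)), fun k => ?_,
    fun k i => ?_, fun i => ?_⟩
  · exact Finset.prod_induction _ (R6.IsSUnit S) (fun a b => sUnit_mul hS) sUnit_one
      fun j _ => sUnit_pow hS (hu j) _
  · refine (coeff_le_coefSum _ _).trans ((q2 i).trans ?_)
    exact mul_le_mul (hCi i) (pow_le_pow_right₀ hR (hDi i)) (by positivity)
      (Finset.sum_nonneg fun i _ => hC0 i)
  · have h1 : aeval z (P i) = aeval u (Q i) := by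
      rw [q3 i]
      congr 2
      funext i'
      exact hz i'
    rw [h1, aeval_def, eval₂_eq']
    have h2 : ∑ d ∈ (Q i).support, (algebraMap ℤ ℚ) ((Q i).coeff d) * ∏ j, u j ^ d j =
        ∑ d ∈ Finset.univ.image emb, (algebraMap ℤ ℚ) ((Q i).coeff d) * ∏ j, u j ^ d j := by
      refine Finset.sum_subset ?_ fun d _ hd => ?_
      · intro d hd
        rw [Finset.mem_image]
        have h3 : ∀ j, d j < D + 1 := by
          intro j
          have h4 : d j ≤ d.degree := Finsupp.le_degree j d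
          have h5 : d.degree ≤ (Q i).totalDegree := by
            have h6 := le_totalDegree hd
            rwa [Finsupp.sum_fintype _ _ (fun _ => rfl), ← Finsupp.degree_eq_sum] at h6
          have h6 := (q1 i).trans (hDi i)
          omega
        refine ⟨fun j => ⟨d j, h3 j⟩, Finset.mem_univ _, ?_⟩
        ext j
        rfl
      · rw [notMem_support_iff.1 hd, map_zero, zero_mul]
    rw [h2, Finset.sum_image fun a _ b _ hab => hemb_inj hab, ← e.sum_comp]
    refine Finset.sum_congr rfl fun k _ => ?_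
    rw [eq_intCast, mul_comm]
    rfl

/-! ### Sizes -/

/-- `q` is a quotient of two integers of absolute value at most `E` -/
def SZ (E : ℝ) (q : ℚ) : Prop := ∃ a b : ℤ, b ≠ 0 ∧ q = a / b ∧ |(a : ℝ)| ≤ E ∧ |(b : ℝ)| ≤ E

lemma sz_num {E : ℝ} {q : ℚ} (h : SZ E q) : ((max q.num.natAbs q.den : ℕ) : ℝ) ≤ E := by
  obtain ⟨a, b, hb, hq, ha, hbE⟩ := h
  rw [← Rat.divInt_eq_div] at hq
  have h1 : (q.den : ℤ) ∣ b := by
    rw [hq]
    exact Rat.den_dvd a b
  have h2 : q.num ∣ a := by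
    rw [hq]
    exact Rat.num_dvd a hb
  rw [Nat.cast_max]
  refine max_le ?_ ?_
  · by_cases ha0 : a = 0
    · have h3 : q = 0 := by rw [hq, ha0]; simp
      rw [h3]
      simpa using (abs_nonneg _).trans ha
    · have h3 : q.num.natAbs ≤ a.natAbs := Nat.le_of_dvd (Int.natAbs_pos.2 ha0)
        (Int.natAbs_dvd_natAbs.2 h2)
      refine le_trans ?_ ha
      rw [← Int.cast_abs, ← Int.natCast_natAbs, Int.cast_natCast]
      exact_mod_cast h3
  · have h3 : q.den ≤ b.natAbs := Nat.le_of_dvd (Int.natAbs_pos.2 hb)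
      (by
        have := Int.natAbs_dvd_natAbs.2 h1
        simpa using this)
    refine le_trans ?_ hbE
    rw [← Int.cast_abs, ← Int.natCast_natAbs, Int.cast_natCast]
    exact_mod_cast h3

lemma sz_self (q : ℚ) {E : ℝ} (h : ((max q.num.natAbs q.den : ℕ) : ℝ) ≤ E) : SZ E q := by
  rw [Nat.cast_max] at h
  refine ⟨q.num, q.den, by exact_mod_cast q.den_ne_zero, ?_, ?_, ?_⟩
  · rw [Int.cast_natCast, Rat.num_div_den]
  · have h1 := (le_max_left _ _).trans h
    rw [← Int.cast_abs, ← Int.natCast_natAbs, Int.cast_natCast]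
    exact h1
  · have h1 := (le_max_right _ _).trans h
    rw [Int.cast_natCast, Nat.abs_cast]
    exact h1

lemma sz_poly {ι : Type} (P : MvPolynomial ι ℤ) : ∃ (D : ℕ) (C : ℝ), 1 ≤ C ∧
    ∀ (z : ι → ℚ) (E : ℝ), 1 ≤ E → (∀ i, SZ E (z i)) → SZ (C * E ^ D) (aeval z P) := by
  induction P using MvPolynomial.induction_on with
  | C a =>
    refine ⟨0, max 1 |(a : ℝ)|, le_max_left _ _, fun z E hE _ => ⟨a, 1, one_ne_zero, ?_, ?_, ?_⟩⟩
    · rw [aeval_C]
      simp
    · rw [pow_zero, mul_one]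
      exact le_max_right _ _
    · rw [pow_zero, mul_one]
      simp
  | add p q hp hq =>
    obtain ⟨D1, C1, hC1, h1⟩ := hp
    obtain ⟨D2, C2, hC2, h2⟩ := hq
    refine ⟨D1 + D2, 2 * C1 * C2, by nlinarith, fun z E hE hz => ?_⟩
    obtain ⟨a, b, e1, e2, e3, e4⟩ := h1 z E hE hz
    obtain ⟨c, d, f1, f2, f3, f4⟩ := h2 z E hE hz
    have hb : (b : ℚ) ≠ 0 := by exact_mod_cast e1
    have hd : (d : ℚ) ≠ 0 := by exact_mod_cast f1
    have g1 : 0 ≤ C1 * E ^ D1 := by positivity
    have g2 : 0 ≤ C2 * E ^ D2 := by positivity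
    have k1 : |(a : ℝ)| * |(d : ℝ)| ≤ (C1 * E ^ D1) * (C2 * E ^ D2) :=
      mul_le_mul e3 f4 (abs_nonneg _) g1
    have k2 : |(c : ℝ)| * |(b : ℝ)| ≤ (C2 * E ^ D2) * (C1 * E ^ D1) :=
      mul_le_mul f3 e4 (abs_nonneg _) g2
    have k3 : |(b : ℝ)| * |(d : ℝ)| ≤ (C1 * E ^ D1) * (C2 * E ^ D2) :=
      mul_le_mul e4 f4 (abs_nonneg _) g1
    have k4 : (C1 * E ^ D1) * (C2 * E ^ D2) = C1 * C2 * E ^ (D1 + D2) := by ring
    have k5 : 0 ≤ C1 * C2 * E ^ (D1 + D2) := by positivity
    refine ⟨a * d + c * b, b * d, mul_ne_zero e1 f1, ?_, ?_, ?_⟩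
    · rw [map_add, e2, f2]
      push_cast
      field_simp
    · push_cast
      refine (abs_add_le _ _).trans ?_
      rw [abs_mul, abs_mul]
      nlinarith
    · push_cast
      rw [abs_mul]
      nlinarith
  | mul_X p i hp =>
    obtain ⟨D1, C1, hC1, h1⟩ := hp
    refine ⟨D1 + 1, C1, hC1, fun z E hE hz => ?_⟩
    obtain ⟨a, b, e1, e2, e3, e4⟩ := h1 z E hE hz
    obtain ⟨c, d, f1, f2, f3, f4⟩ := hz i
    have hE0 : 0 ≤ E := by linarith
    refine ⟨a * c, b * d, mul_ne_zero e1 f1, ?_, ?_, ?_⟩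
    · rw [map_mul, aeval_X, e2, f2]
      push_cast
      rw [div_mul_div_comm]
    · push_cast
      rw [abs_mul, pow_succ, ← mul_assoc]
      exact mul_le_mul e3 f3 (abs_nonneg _) (by positivity)
    · push_cast
      rw [abs_mul, pow_succ, ← mul_assoc]
      exact mul_le_mul e4 f4 (abs_nonneg _) (by positivity)

/-- the size of polynomial values -/
theorem size_poly {ι ι' : Type} [Fintype ι] [Fintype ι'] (P : ι' → MvPolynomial ι ℤ) :
    ∃ (D : ℕ) (C : ℝ), 0 ≤ C ∧ ∀ z : ι → ℚ,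
      Real.log (R6.size (fun i => aeval z (P i))) ≤ D * Real.log (R6.size z) + C := by
  classical
  choose D0 C0 hC0 hQ using fun i => sz_poly (P i)
  set D : ℕ := ∑ i, D0 i with hD
  set C : ℝ := ∑ i, C0 i with hC
  have hDi : ∀ i, D0 i ≤ D := fun i =>
    Finset.single_le_sum (f := D0) (fun _ _ => Nat.zero_le _) (Finset.mem_univ i)
  have hCi : ∀ i, C0 i ≤ C := fun i =>
    Finset.single_le_sum (f := C0) (fun i _ => by linarith [hC0 i]) (Finset.mem_univ i)
  refine ⟨D, Real.log (1 + C), ?_, fun z => ?_⟩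
  · have : 0 ≤ C := Finset.sum_nonneg fun i _ => by linarith [hC0 i]
    exact Real.log_nonneg (by linarith)
  · have hCn : 0 ≤ C := Finset.sum_nonneg fun i _ => by linarith [hC0 i]
    set E : ℝ := max 1 (R6.size z) with hE
    have hE1 : 1 ≤ E := le_max_left _ _
    have hz : ∀ i, SZ E (z i) := fun i => sz_self _ (le_trans (by
      have : max (z i).num.natAbs (z i).den ≤ R6.size z :=
        Finset.le_sup (f := fun i => max (z i).num.natAbs (z i).den) (Finset.mem_univ i)
      exact_mod_cast this) (le_max_right _ _))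
    have hlogE : Real.log E = Real.log (R6.size z) := by
      rw [hE]
      rcases Nat.eq_zero_or_pos (R6.size z) with h0 | h0
      · rw [h0]
        simp
      · rw [max_eq_right]
        exact_mod_cast h0
    rw [← hlogE]
    rcases Nat.eq_zero_or_pos (R6.size (fun i => aeval z (P i))) with h0 | h0
    · rw [h0, Nat.cast_zero, Real.log_zero]
      have h1 := Real.log_nonneg hE1
      have h2 := Real.log_nonneg (show (1 : ℝ) ≤ 1 + C by linarith)
      positivity
    · have h1 : ((R6.size (fun i => aeval z (P i)) : ℕ) : ℝ) ≤ (1 + C) * E ^ D := by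
        have h2 : R6.size (fun i => aeval z (P i)) ≤ ⌊(1 + C) * E ^ D⌋₊ := by
          refine Finset.sup_le fun i _ => Nat.le_floor ?_
          refine (sz_num (hQ i z E hE1 hz)).trans ?_
          exact mul_le_mul (by linarith [hCi i]) (pow_le_pow_right₀ hE1 (hDi i))
            (by positivity) (by linarith)
        have h3 : (0 : ℝ) ≤ (1 + C) * E ^ D := by positivity
        exact (Nat.cast_le.2 h2).trans (Nat.floor_le h3)
      have h2 : (0 : ℝ) < (R6.size (fun i => aeval z (P i)) : ℕ) := by exact_mod_cast h0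
      have h3 := Real.log_le_log h2 h1
      rw [Real.log_mul (by linarith) (by positivity), Real.log_pow] at h3
      linarith

/-- short sums under polynomial maps, when the size does not drop too much -/
theorem short_poly {ι ι' : Type} [Fintype ι] [Fintype ι'] (P : ι' → MvPolynomial ι ℤ) (l : ℕ)
    (B c1 c2 : ℝ) (hc1 : 0 ≤ c1) (hc2 : 0 ≤ c2) :
    ∃ (l' : ℕ) (B' : ℝ), 0 ≤ B' ∧ ∀ δ' : ℝ, 0 < δ' → ∃ δ0 : ℝ, 0 < δ0 ∧
      ∀ (δ : ℝ), 0 < δ → δ ≤ δ0 → ∀ (S : Finset ℕ),
      (∀ p ∈ S, p.Prime) → ∀ z : ι → ℚ,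
      Real.log (R6.size z) ≤ c1 * Real.log (R6.size (fun i => aeval z (P i))) + c2 →
      R6.IsShortSum S l B δ z → R6.IsShortSum S l' B' δ' (fun i => aeval z (P i)) := by
  classical
  obtain ⟨D, l', C, hC, h⟩ := shp P l
  refine ⟨l', C * (|B| + 1) ^ D * Real.exp (D * c2), by positivity, fun δ' hδ' =>
    ⟨min 1 (δ' / ((D + 1) * (c1 + 1))), lt_min one_pos (by positivity), ?_⟩⟩
  intro δ hδ hδ0 S hS z hsize hz
  obtain ⟨u, m, hu, hm, hzz⟩ := hz
  set s : ℝ := (R6.size z : ℝ) with hs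
  set t : ℝ := (R6.size (fun i => aeval z (P i)) : ℝ) with ht
  have hs0 : 0 ≤ s := Nat.cast_nonneg _
  set W : ℝ := max 1 (s ^ δ) with hW
  have hW1 : 1 ≤ W := le_max_left _ _
  have hR : 1 ≤ (|B| + 1) * W := by nlinarith [abs_nonneg B]
  obtain ⟨u', m', hu', hm', hz'⟩ := h S hS z ((|B| + 1) * W) hR u m hu (fun j i => by
    refine (hm j i).trans ?_
    have h1 : B ≤ |B| + 1 := by linarith [le_abs_self B]
    have h2 : s ^ δ ≤ W := le_max_right _ _
    have h3 : 0 ≤ s ^ δ := Real.rpow_nonneg hs0 _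
    nlinarith [abs_nonneg B]) hzz
  refine ⟨u', m', hu', fun j i => (hm' j i).trans ?_, hz'⟩
  -- the size of the values is at least one
  have ht1 : 1 ≤ t := by
    rw [ht]
    have h1 : max (aeval z (P i)).num.natAbs (aeval z (P i)).den ≤
        R6.size (fun i => aeval z (P i)) :=
      Finset.le_sup (f := fun i => max (aeval z (P i)).num.natAbs (aeval z (P i)).den)
        (Finset.mem_univ i)
    have h2 : 1 ≤ R6.size (fun i => aeval z (P i)) :=
      (Nat.one_le_iff_ne_zero.2 (aeval z (P i)).den_ne_zero).trans ((le_max_right _ _).trans h1)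
    exact_mod_cast h2
  have hlt : 0 ≤ Real.log t := Real.log_nonneg ht1
  have hlogW : Real.log W ≤ δ * (c1 * Real.log t + c2) := by
    rw [hW]
    rcases le_total (s ^ δ) 1 with h1 | h1
    · rw [max_eq_left h1, Real.log_one]
      positivity
    · rw [max_eq_right h1]
      have hs1 : 0 < s := by
        rcases hs0.lt_or_eq with h2 | h2
        · exact h2
        · exfalso
          rw [← h2, Real.zero_rpow hδ.ne'] at h1
          linarith
      rw [Real.log_rpow hs1]
      exact mul_le_mul_of_nonneg_left hsize hδ.le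
  have hWD : W ^ D ≤ Real.exp (D * c2) * t ^ δ' := by
    have hW0 : 0 < W := by linarith
    have ht0 : 0 < t := by linarith
    rw [← Real.exp_log (pow_pos hW0 D), Real.log_pow, Real.rpow_def_of_pos ht0, ← Real.exp_add]
    apply Real.exp_le_exp.2
    have h1 : (D : ℝ) * Real.log W ≤ D * (δ * (c1 * Real.log t + c2)) :=
      mul_le_mul_of_nonneg_left hlogW (Nat.cast_nonneg _)
    have h2 : δ ≤ 1 := hδ0.trans (min_le_left _ _)
    have h3 : δ * ((D + 1) * (c1 + 1)) ≤ δ' := by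
      have h4 := hδ0.trans (min_le_right _ _)
      rwa [le_div_iff₀ (by positivity)] at h4
    have h5 : (D : ℝ) * (δ * c1) ≤ δ' := by
      refine le_trans ?_ h3
      have h6 : (0 : ℝ) ≤ D := Nat.cast_nonneg _
      nlinarith
    have h6 : (D : ℝ) * (δ * c1) * Real.log t ≤ δ' * Real.log t :=
      mul_le_mul_of_nonneg_right h5 hlt
    have h7 : (D : ℝ) * (δ * c2) ≤ D * c2 := by
      refine mul_le_mul_of_nonneg_left ?_ (Nat.cast_nonneg _)
      nlinarith
    nlinarith
  have hB0 : 0 ≤ C * (|B| + 1) ^ D := by positivity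
  calc C * ((|B| + 1) * W) ^ D = C * (|B| + 1) ^ D * W ^ D := by
        rw [mul_pow]
        ring
    _ ≤ C * (|B| + 1) ^ D * (Real.exp (D * c2) * t ^ δ') := mul_le_mul_of_nonneg_left hWD hB0
    _ = C * (|B| + 1) ^ D * Real.exp (D * c2) * t ^ δ' := by ring

/-- monotonicity in the parameters -/
lemma short_mono {ι : Type} [Fintype ι] {S : Finset ℕ} {l l' : ℕ} {B B' δ δ' : ℝ} {z : ι → ℚ}
    (h : R6.IsShortSum S l B δ z) (hl : l ≤ l') (hB : B ≤ B') (hB' : 0 ≤ B') (hδ : δ ≤ δ') :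
    R6.IsShortSum S l' B' δ' z := by
  classical
  obtain ⟨u, m, hu, hm, hz⟩ := h
  obtain ⟨k, rfl⟩ := Nat.exists_eq_add_of_le hl
  refine ⟨Fin.append u (fun _ => 1), Fin.append m (fun _ _ => 0), ?_, ?_, fun i => ?_⟩
  · intro j
    refine Fin.addCases (fun j => ?_) (fun j => ?_) j
    · rw [Fin.append_left]
      exact hu j
    · rw [Fin.append_right]
      exact sUnit_one
  · intro j i
    have hs : (1 : ℝ) ≤ (R6.size z : ℝ) := by
      have h1 : max (z i).num.natAbs (z i).den ≤ R6.size z :=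
        Finset.le_sup (f := fun i => max (z i).num.natAbs (z i).den) (Finset.mem_univ i)
      have h2 : 1 ≤ R6.size z :=
        (Nat.one_le_iff_ne_zero.2 (z i).den_ne_zero).trans ((le_max_right _ _).trans h1)
      exact_mod_cast h2
    have h3 : (R6.size z : ℝ) ^ δ ≤ (R6.size z : ℝ) ^ δ' := Real.rpow_le_rpow_of_exponent_le hs hδ
    have h4 : 0 ≤ (R6.size z : ℝ) ^ δ := Real.rpow_nonneg (by linarith) _
    have h5 : B * (R6.size z : ℝ) ^ δ ≤ B' * (R6.size z : ℝ) ^ δ' := by
      nlinarith [mul_le_mul_of_nonneg_right hB h4, mul_le_mul_of_nonneg_left h3 hB']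
    refine Fin.addCases (fun j => ?_) (fun j => ?_) j
    · rw [Fin.append_left]
      exact (hm j i).trans h5
    · rw [Fin.append_right]
      have h6 : 0 ≤ B' * (R6.size z : ℝ) ^ δ' := mul_nonneg hB' (h4.trans h3)
      simpa using h6
  · rw [hz i, Fin.sum_univ_add]
    simp [Fin.append_left, Fin.append_right]

end Pool.Agent.Y724.T4
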