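import Mathlib
import Pool.Agent.Y724.T4.ABC
import Pool.Agent.Y724.T4.RTH
import Pool.Agent.Y724.T4.SHP

/-!
# Sparse triples of integers
-/

set_option autoImplicit false

namespace Pool.Agent.Y724.T4

open MvPolynomial NumberField

/-- a vector of short sums is a short sum of vectors -/
lemma joint_short {S : Finset ℕ} {k l : ℕ} {R : ℝ} (hR : 0 ≤ R) (z : Fin k → ℚ)
    (h : ∀ i, ∃ (u : Fin l → ℚ) (c : Fin l → ℤ), (∀ j, R6.IsSUnit S (u j)) ∧
      (∀ j, |(c j : ℝ)| ≤ R) ∧ z i = ∑ j, u j * c j) :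
    ∃ (u : Fin (k * l) → ℚ) (m : Fin (k * l) → Fin k → ℤ), (∀ j, R6.IsSUnit S (u j)) ∧
      (∀ j i, |(m j i : ℝ)| ≤ R) ∧ ∀ i, z i = ∑ j, u j * m j i := by
  classical
  choose u c h1 h2 h3 using h
  refine ⟨fun j => u (finProdFinEquiv.symm j).1 (finProdFinEquiv.symm j).2,
    fun j i => if (finProdFinEquiv.symm j).1 = i then c i (finProdFinEquiv.symm j).2 else 0,
    fun j => h1 _ _, ?_, ?_⟩
  · intro j i
    by_cases hi : (finProdFinEquiv.symm j).1 = i
    · simp only [hi, if_true]
      exact h2 _ _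
    · simp only [hi, if_false, Int.cast_zero, abs_zero]
      exact hR
  · intro i
    rw [h3 i, ← finProdFinEquiv.sum_comp, Fintype.sum_prod_type, Finset.sum_eq_single i]
    · refine Finset.sum_congr rfl fun j _ => ?_
      simp only [Equiv.symm_apply_apply, if_true]
    · intro i' _ hi'
      refine Finset.sum_eq_zero fun j _ => ?_
      simp only [Equiv.symm_apply_apply, hi', if_false, Int.cast_zero, mul_zero]
    · intro h
      exact absurd (Finset.mem_univ i) h

section one
variable {K : Type} [Field K] [NumberField K] (h1 : Module.finrank ℚ K = 1)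

/-- the basis `1` -/
noncomputable def omK : Module.Basis (Fin 1) ℚ K :=
  FiniteDimensional.basisSingleton (Fin 1) h1 (1 : K) one_ne_zero

lemma omK_apply (i : Fin 1) : omK h1 i = 1 := FiniteDimensional.basisSingleton_apply _ _ _ _ _

lemma omK_repr (q : ℚ) (i : Fin 1) : (omK h1).repr (q : K) i = q := by
  have h2 : (q : K) = q • (omK h1 i) := by
    rw [omK_apply, Rat.smul_def, mul_one]
  rw [h2, map_smul, Module.Basis.repr_self, Finsupp.smul_apply, Finsupp.single_eq_same,
    smul_eq_mul, mul_one]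

lemma omK_discr : Algebra.discr ℚ (omK h1) = 1 := by
  rw [Algebra.discr_def, Matrix.det_unique, Algebra.traceMatrix_apply, Algebra.traceForm_apply,
    omK_apply, mul_one]
  have h2 := Algebra.trace_algebraMap (R := ℚ) (S := K) (1 : ℚ)
  rw [map_one, h1] at h2
  rw [h2]
  simp

lemma omK_logDisc (S : Finset ℕ) : R7.logDiscBasis S (omK h1) = 0 := by
  unfold R7.logDiscBasis
  rw [omK_discr h1]
  simp

include h1 in
/-- the counting function of a positive integer -/
lemma counting_le (S : Finset ℕ) (ρ : ℕ) (hρ : 0 < ρ) :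
    R7.counting S (ρ : K) ≤ Real.log ρ := by
  classical
  have hρ0 : (ρ : K) ≠ 0 := by exact_mod_cast hρ.ne'
  unfold R7.counting
  rw [h1, Nat.cast_one, div_one]
  have h2 := prod_formula hρ0
  have h3 : ∑ v : InfinitePlace K, (v.mult : ℝ) * Real.log (v (ρ : K)) = Real.log ρ := by
    have h4 : ∀ v : InfinitePlace K, v (ρ : K) = ρ := by
      intro v
      have h5 := RTHaux.inf_int v (ρ : ℤ)
      rw [Int.cast_natCast] at h5
      rw [h5, Int.cast_natCast, Nat.abs_cast]
    have hmult : ∑ v : InfinitePlace K, (v.mult : ℝ) = 1 := by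
      rw [← Nat.cast_one, ← h1, ← InfinitePlace.sum_mult_eq]
      push_cast
      rfl
    rw [Finset.sum_congr rfl fun v _ => by rw [h4 v], ← Finset.sum_mul, hmult, one_mul]
  rw [h3] at h2
  have h5 : ∑ᶠ v : FinitePlace K, Real.log (v (ρ : K)) ≤
      ∑ᶠ v ∈ (R7.placesOver K S)ᶜ, Real.log (v (ρ : K)) := by
    rw [finsum_mem_def]
    have hs : (Function.support fun v : FinitePlace K => Real.log (v (ρ : K))).Finite := by
      refine (fin_ne_one hρ0).subset fun v hv h => hv ?_
      change Real.log (v (ρ : K)) = 0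
      rw [h, Real.log_one]
    refine finsum_le_finsum' hs ?_ ?_
    · refine hs.subset fun v hv h => hv ?_
      have h' : Real.log (v (ρ : K)) = 0 := h
      change Set.indicator _ _ v = 0
      rw [Set.indicator_apply]
      split_ifs
      · exact h'
      · rfl
    · intro v
      change Real.log (v (ρ : K)) ≤ Set.indicator _ _ v
      rw [Set.indicator_apply]
      split_ifs
      · exact le_rfl
      · exact Real.log_nonpos (apply_nonneg v _) (PLCaux.nat_le_one v ρ)
  linarith

include h1 in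
/-- the height of a triple of coprime integers -/
lemma log_le_height (a b c : ℕ) (hc : 0 < c) (hab : a.Coprime b) (x : Fin (1 + 1 + 1) → K)
    (h0 : x 0 = a) (hx1 : x 1 = b) (h2 : x 2 = -(c : K)) :
    Real.log c ≤ Height.logHeight x := by
  have hx : x ≠ 0 := by
    intro h
    have h3 := congrFun h 2
    rw [h2] at h3
    have h4 : (c : K) = 0 := neg_eq_zero.1 h3
    exact hc.ne' (by exact_mod_cast h4)
  have hle : ∀ (v : AbsoluteValue K ℝ) (j : Fin (1 + 1 + 1)), v (x j) ≤ ⨆ j, v (x j) :=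
    fun v j => le_ciSup (f := fun j => v (x j)) (Finite.bddAbove_range _) j
  rw [logHeight_sum hx]
  have hmult : ∑ v : InfinitePlace K, (v.mult : ℝ) = 1 := by
    rw [← Nat.cast_one, ← h1, ← InfinitePlace.sum_mult_eq]
    push_cast
    rfl
  have h3 : Real.log c ≤ ∑ v : InfinitePlace K, (v.mult : ℝ) * Real.log (⨆ j, v (x j)) := by
    have h4 : ∑ v : InfinitePlace K, (v.mult : ℝ) * Real.log c ≤
        ∑ v : InfinitePlace K, (v.mult : ℝ) * Real.log (⨆ j, v (x j)) := by
      refine Finset.sum_le_sum fun v _ => mul_le_mul_of_nonneg_left ?_ (Nat.cast_nonneg _)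
      refine Real.log_le_log (by exact_mod_cast hc) ?_
      have h5 := hle v.1 2
      rw [h2, v.1.map_neg] at h5
      have h6 := RTHaux.inf_int v (c : ℤ)
      rw [Int.cast_natCast, Int.cast_natCast, Nat.abs_cast] at h6
      rw [← h6]
      exact h5
    rwa [← Finset.sum_mul, hmult, one_mul] at h4
  have h4 : 0 ≤ ∑ᶠ v : FinitePlace K, Real.log (⨆ j, v (x j)) := by
    refine finsum_nonneg fun v => Real.log_nonneg ?_
    have hcop : IsCoprime (a : ℤ) (b : ℤ) := Nat.isCoprime_iff_coprime.2 hab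
    obtain ⟨p, q, hpq⟩ := hcop
    have h5 : (1 : K) = (p : K) * (a : K) + (q : K) * (b : K) := by
      have := congrArg (fun z : ℤ => (z : K)) hpq
      push_cast at this
      exact this.symm
    have h6 : v (1 : K) ≤ max (v ((p : K) * (a : K))) (v ((q : K) * (b : K))) := by
      rw [h5]
      exact FinitePlace.add_le v _ _
    rw [map_one, map_mul, map_mul] at h6
    have e0 : v (a : K) ≤ ⨆ j, v (x j) := by
      rw [← h0]
      exact hle v.1 0
    have e1 : v (b : K) ≤ ⨆ j, v (x j) := by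
      rw [← hx1]
      exact hle v.1 1
    have h7 : v (p : K) * v (a : K) ≤ 1 * ⨆ j, v (x j) :=
      mul_le_mul (PLCaux.int_le_one v p) e0 (apply_nonneg v _) zero_le_one
    have h8 : v (q : K) * v (b : K) ≤ 1 * ⨆ j, v (x j) :=
      mul_le_mul (PLCaux.int_le_one v q) e1 (apply_nonneg v _) zero_le_one
    rw [one_mul] at h7 h8
    exact h6.trans (max_le h7 h8)
  linarith

end one

/-- the polynomials for the parameters -/
noncomputable def xp : Fin (1 + 1 + 1) → MvPolynomial (Fin 4) ℤ := ![X 0, X 1, -(X 0 + X 1)]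

/-- the polynomials for the cofactors -/
noncomputable def bp : Fin 3 → MvPolynomial (Fin 4) ℤ :=
  ![X 1 * (X 0 + X 1) * X 3, X 0 * (X 0 + X 1) * X 3, -(X 0 * X 1 * X 3)]

/-- all polynomials -/
noncomputable def Pp : (Fin 1 × Fin 1 × Fin 1) ⊕
    ((Fin (1 + 1 + 1) ⊕ (Fin 3 × Fin (1 + 1 + 1) × Fin 1) ⊕ Unit) × Fin 1) →
    MvPolynomial (Fin 4) ℤ :=
  Sum.elim (fun _ => 1) (fun k => Sum.elim xp (Sum.elim (fun s => bp s.1 * xp s.2.1)
    (fun _ => X 2)) k.1)

lemma size_le_of {ι : Type} [Fintype ι] (z : ι → ℚ) (E : ℕ)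
    (h : ∀ i, max (z i).num.natAbs (z i).den ≤ E) : R6.size z ≤ E :=
  Finset.sup_le fun i _ => h i

/-- the inequality at sparse triples of integers -/
theorem abq_core (K : Type) [Field K] [NumberField K] (h1 : Module.finrank ℚ K = 1)
    (S : Finset ℕ) (hS : ∀ p ∈ S, p.Prime) (l m : ℕ) (B ε : ℝ) (hε : 0 < ε) :
    ∃ (δ C : ℝ), 0 < δ ∧ ∀ (a b c : ℕ), 0 < a → 0 < b → a.Coprime b → a + b = c →
      ∀ (ρ : ℕ) (t : ℚ), 0 < ρ → (ρ : ℚ) ^ m = a * b * c * t →
      (∀ i, ∃ (u : Fin l → ℚ) (k : Fin l → ℤ), (∀ j, R6.IsSUnit S (u j)) ∧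
        (∀ j, |(k j : ℝ)| ≤ B * (c : ℝ) ^ δ) ∧
        (![(a : ℚ), b, ρ, t] : Fin 4 → ℚ) i = ∑ j, u j * k j) →
      Real.log c ≤ (1 + ε) * Real.log ρ + C := by
  classical
  obtain ⟨D, l', C0, hC0, hshp⟩ := shp Pp (4 * l)
  obtain ⟨D1, C1, hC1, hsize⟩ := size_poly Pp
  set A1 : ℝ := D1 * (m + 3) + 1 with hA1
  have hA1p : 0 < A1 := by positivity
  set ε' : ℝ := ε / ((1 + ε) * A1) with hε'
  have hε'0 : 0 < ε' := by positivity
  obtain ⟨δ', Φ, k, C, hδ', hΦh, ⟨z0, hz0, hΦz0⟩, hmain⟩ :=
    R7.main7 1 1 1 3 1 lineG (fun _ => 1) lineG_hom lineF (fun _ _ => 1)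
      lineF_hom line_dim line_smooth S hS 1 l' m 1 (fun _ _ => le_rfl) 0
      (C0 * (1 + |B|) ^ D) ε' hε'0
  -- the exceptional points
  set sub : Fin (1 + 1 + 1) → MvPolynomial (Fin 2) ℚ := ![X 0, X 1, -X 0 - X 1] with hsub
  set Ψ : MvPolynomial (Fin 2) ℚ := aeval sub Φ with hΨ
  have hΨev : ∀ (L : Type) [Field L] [CharZero L] (x : Fin (1 + 1 + 1) → L),
      x 0 + x 1 + x 2 = 0 → aeval ![x 0, x 1] Ψ = aeval x Φ := by
    intro L _ _ x hx
    rw [hΨ, comp_aeval_apply sub (aeval ![x 0, x 1]) Φ]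
    congr 2
    funext i
    rw [hsub]
    fin_cases i
    · simp
    · simp
    · change aeval ![x 0, x 1] (-X 0 - X 1 : MvPolynomial (Fin 2) ℚ) = x 2
      rw [map_sub, map_neg, aeval_X, aeval_X]
      change -x 0 - x 1 = x 2
      linear_combination -hx
  have hz00 : z0 0 + z0 1 + z0 2 = 0 := (line_on z0).1 hz0
  have hΨ0 : Ψ ≠ 0 := by
    intro h
    have h1 := hΨev ℂ z0 hz00
    rw [h, map_zero] at h1
    exact hΦz0 h1.symm
  have hΨh : Ψ.IsHomogeneous k := by
    have h1 := hΦh.aeval (g := sub) (n := 1) (fun i => by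
      rw [hsub]
      fin_cases i
      · exact isHomogeneous_X _ _
      · exact isHomogeneous_X _ _
      · exact ((isHomogeneous_X _ _).neg).sub (isHomogeneous_X _ _))
    rwa [one_mul] at h1
  obtain ⟨C2, hC2, hroot⟩ := root_height2 Ψ hΨ0 k hΨh
  have hlog2 : 0 ≤ Real.log 2 := Real.log_nonneg one_le_two
  refine ⟨δ' / (D + 1), (1 + ε) * (ε' * C1 + |C|) + (C2 + Real.log 2), by positivity, ?_⟩
  intro a b c ha hb hab hsum ρ t hρ ht hshort
  have hc : 0 < c := by omega
  have hcR : (1 : ℝ) ≤ c := by exact_mod_cast hc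
  have hρR : (1 : ℝ) ≤ ρ := by exact_mod_cast hρ
  have hlc : 0 ≤ Real.log c := Real.log_nonneg hcR
  have hlρ : 0 ≤ Real.log ρ := Real.log_nonneg hρR
  have hC00 : 0 ≤ (1 + ε) * (ε' * C1 + |C|) := by positivity
  by_cases hρc : c ≤ ρ
  · have h2 : Real.log c ≤ Real.log ρ := Real.log_le_log (by linarith) (by exact_mod_cast hρc)
    have h3 : 0 ≤ ε * Real.log ρ := mul_nonneg hε.le hlρ
    linarith
  push Not at hρc
  set z : Fin 4 → ℚ := ![(a : ℚ), b, ρ, t] with hz
  -- the point
  set x : Fin (1 + 1 + 1) → K := fun y => ((aeval z (xp y) : ℚ) : K) with hx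
  have hx0 : x 0 = (a : K) := by
    have : aeval z (xp 0) = (a : ℚ) := by
      change aeval z (X 0) = _
      rw [aeval_X]
      rfl
    rw [hx]
    simp only [this]
    exact Rat.cast_natCast a
  have hx1 : x 1 = (b : K) := by
    have : aeval z (xp 1) = (b : ℚ) := by
      change aeval z (X 1) = _
      rw [aeval_X]
      rfl
    rw [hx]
    simp only [this]
    exact Rat.cast_natCast b
  have hzc : aeval z (xp 2) = -(c : ℚ) := by
    change aeval z (-(X 0 + X 1)) = _
    rw [map_neg, map_add, aeval_X, aeval_X, ← hsum]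
    push_cast
    rfl
  have hx2 : x 2 = -(c : K) := by
    rw [hx]
    simp only [hzc]
    push_cast
    rfl
  have hxsum : x 0 + x 1 + x 2 = 0 := by
    rw [hx0, hx1, hx2, ← hsum]
    push_cast
    ring
  have hxne : ∀ i, x i ≠ 0 := by
    intro i
    fin_cases i
    · change x 0 ≠ 0
      rw [hx0]
      exact_mod_cast ha.ne'
    · change x 1 ≠ 0
      rw [hx1]
      exact_mod_cast hb.ne'
    · change x 2 ≠ 0
      rw [hx2, neg_ne_zero]
      exact_mod_cast hc.ne'
  have hxv : x ≠ 0 := fun h => hxne 0 (by rw [h]; rfl)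
  have hheight : Real.log c ≤ Height.logHeight x :=
    log_le_height h1 a b c hc hab x hx0 hx1 hx2
  by_cases hΦx : aeval x Φ = 0
  · have h2 := hroot K ![x 0, x 1] (by rw [hΨev K x hxsum, hΦx])
    have h3 := height_third x hxv hxsum
    rw [h1, Nat.cast_one, mul_one] at h2
    rw [h1, Nat.cast_one, one_mul] at h3
    have h4 : 0 ≤ (1 + ε) * Real.log ρ := by positivity
    linarith
  -- the parameters
  set b' : Fin 3 → Fin (1 + 1 + 1) → Fin 1 → K := fun i y _ =>
    ((aeval z (bp i * xp y) : ℚ) : K) with hb'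
  have hρK : (ρ : K) = ((aeval z (X 2 : MvPolynomial (Fin 4) ℤ) : ℚ) : K) := by
    rw [aeval_X]
    change (ρ : K) = ((ρ : ℚ) : K)
    push_cast
    rfl
  have hpar : R7.params (omK h1) (R7.data x b' (ρ : K)) = fun k => aeval z (Pp k) := by
    funext k
    rcases k with k | ⟨k | ⟨k, j, j'⟩ | k, i⟩
    · change (omK h1).repr (omK h1 k.1 * omK h1 k.2.1) k.2.2 = aeval z (1 : MvPolynomial (Fin 4) ℤ)
      have e1 : aeval z (1 : MvPolynomial (Fin 4) ℤ) = 1 := map_one _
      have e2 := omK_repr h1 1 k.2.2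
      rw [Rat.cast_one] at e2
      rw [omK_apply, omK_apply, mul_one, e1]
      exact e2
    · exact omK_repr h1 _ i
    · exact omK_repr h1 _ i
    · change (omK h1).repr (ρ : K) i = aeval z (X 2 : MvPolynomial (Fin 4) ℤ)
      rw [hρK]
      exact omK_repr h1 _ i
  have hmul : R7.IsMultiple lineF m 1 x b' (ρ : K) := by
    intro i y
    rw [pow_one, Fin.sum_univ_one]
    unfold lineF
    rw [aeval_X]
    have hρm : ((ρ : K)) ^ m = (((a * b * c * t : ℚ)) : K) := by
      rw [← ht]
      push_cast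
      rfl
    rw [hρm, hx, hb']
    simp only
    rw [← Rat.cast_mul, ← Rat.cast_mul]
    congr 1
    rw [map_mul]
    have hkey : (a * b * c * t : ℚ) = aeval z (xp i) * aeval z (bp i) := by
      fin_cases i
      · change _ = aeval z (X 0) * aeval z (X 1 * (X 0 + X 1) * X 3)
        simp only [map_mul, map_add, aeval_X]
        change _ = (a : ℚ) * (b * (a + b) * t)
        rw [← hsum]
        push_cast
        ring
      · change _ = aeval z (X 1) * aeval z (X 0 * (X 0 + X 1) * X 3)
        simp only [map_mul, map_add, aeval_X]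
        change _ = (b : ℚ) * (a * (a + b) * t)
        rw [← hsum]
        push_cast
        ring
      · change _ = aeval z (xp 2) * aeval z (-(X 0 * X 1 * X 3))
        rw [hzc]
        simp only [map_mul, map_neg, aeval_X]
        change _ = -(c : ℚ) * -(a * b * t)
        ring
    rw [hkey]
    ring
  set H : ℕ := R7.size (R7.params (omK h1) (R7.data x b' (ρ : K))) with hH
  have hcH : c ≤ H := by
    have h2 : max (R7.params (omK h1) (R7.data x b' (ρ : K)) (Sum.inr (Sum.inl 2, 0))).num.natAbs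
        (R7.params (omK h1) (R7.data x b' (ρ : K)) (Sum.inr (Sum.inl 2, 0))).den ≤ H :=
      Finset.le_sup (f := fun i => max (R7.params (omK h1) (R7.data x b' (ρ : K)) i).num.natAbs
        (R7.params (omK h1) (R7.data x b' (ρ : K)) i).den) (Finset.mem_univ _)
    have h3 : R7.params (omK h1) (R7.data x b' (ρ : K)) (Sum.inr (Sum.inl 2, 0)) = -(c : ℚ) := by
      rw [hpar]
      exact hzc
    rw [h3] at h2
    refine le_trans (le_of_eq ?_) ((le_max_left _ _).trans h2)
    simp
  have hHR : (c : ℝ) ≤ H := by exact_mod_cast hcH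
  have hsh : R7.IsShortSum S l' (C0 * (1 + |B|) ^ D) δ'
      (R7.params (omK h1) (R7.data x b' (ρ : K))) := by
    have hcd : (1 : ℝ) ≤ (c : ℝ) ^ (δ' / (D + 1)) := Real.one_le_rpow hcR (by positivity)
    set R : ℝ := (1 + |B|) * (c : ℝ) ^ (δ' / (D + 1)) with hR
    have hR1 : 1 ≤ R := by
      have := abs_nonneg B
      nlinarith
    have hBR : B * (c : ℝ) ^ (δ' / (D + 1)) ≤ R := by
      refine mul_le_mul_of_nonneg_right ?_ (by linarith)
      linarith [le_abs_self B]
    obtain ⟨u, mm, hu, hmm, hzu⟩ := joint_short (S := S) (R := R) (by linarith) z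
      (fun i => by
        obtain ⟨u, kk, e1, e2, e3⟩ := hshort i
        exact ⟨u, kk, e1, fun j => (e2 j).trans hBR, e3⟩)
    obtain ⟨u', m', hu', hm', hzu'⟩ := hshp S hS z R hR1 u mm hu hmm hzu
    refine ⟨u', m', hu', fun j i => (hm' j i).trans ?_, fun i => ?_⟩
    · rw [hR, mul_pow, ← mul_assoc]
      refine mul_le_mul_of_nonneg_left ?_ (by positivity)
      rw [← Real.rpow_natCast, ← Real.rpow_mul (by linarith)]
      calc (c : ℝ) ^ (δ' / (D + 1) * D) ≤ (c : ℝ) ^ δ' := by
            refine Real.rpow_le_rpow_of_exponent_le hcR ?_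
            rw [div_mul_eq_mul_div, div_le_iff₀ (by positivity)]
            nlinarith
        _ ≤ (H : ℝ) ^ δ' := Real.rpow_le_rpow (by linarith) hHR hδ'.le
    · rw [hpar]
      exact hzu' i
  have hfin := (hmain 1 le_rfl K (omK h1) x b' (ρ : K) ((line_on x).2 hxsum)
    (by exact_mod_cast hρ.ne') hmul hsh hΦx _ (lineT_basis x)).1
  rw [line_canonical, line_divisor x hxne, omK_logDisc h1 S, h1, Nat.cast_one, div_one,
    div_one] at hfin
  -- the size
  have hlogH : Real.log H ≤ D1 * ((m + 3) * Real.log c) + C1 := by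
    have h2 : (H : ℕ) = R6.size (fun k => aeval z (Pp k)) := by
      rw [hH, hpar]
      rfl
    rw [h2]
    refine (hsize z).trans ?_
    have h3 : R6.size z ≤ c ^ (m + 3) := by
      have hc3 : c ≤ c ^ (m + 3) := Nat.le_self_pow (by omega) c
      have hnat : ∀ q : ℕ, q ≤ c → max (q : ℚ).num.natAbs (q : ℚ).den ≤ c ^ (m + 3) := by
        intro q hq
        simp only [Rat.num_natCast, Int.natAbs_natCast, Rat.den_natCast]
        exact max_le (hq.trans hc3) (Nat.one_le_pow _ _ hc)
      refine size_le_of z _ fun i => ?_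
      fin_cases i
      · exact hnat a (by omega)
      · exact hnat b (by omega)
      · exact hnat ρ hρc.le
      · change max t.num.natAbs t.den ≤ c ^ (m + 3)
        have h4 : SZ ((c ^ (m + 3) : ℕ) : ℝ) t := by
          refine ⟨(ρ : ℤ) ^ m, (a * b * c : ℤ), ?_, ?_, ?_, ?_⟩
          · positivity
          · push_cast
            rw [ht, mul_comm, mul_div_assoc, div_self, mul_one]
            positivity
          · push_cast
            rw [abs_of_nonneg (by positivity)]
            calc (ρ : ℝ) ^ m ≤ (c : ℝ) ^ m := by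
                  gcongr
              _ ≤ (c : ℝ) ^ (m + 3) := pow_le_pow_right₀ hcR (by omega)
          · push_cast
            rw [abs_of_nonneg (by positivity)]
            have ha' : (a : ℝ) ≤ c := by exact_mod_cast (by omega : a ≤ c)
            have hb'' : (b : ℝ) ≤ c := by exact_mod_cast (by omega : b ≤ c)
            calc (a : ℝ) * b * c ≤ c * c * c := by
                  gcongr
              _ = (c : ℝ) ^ 3 := by ring
              _ ≤ (c : ℝ) ^ (m + 3) := pow_le_pow_right₀ hcR (by omega)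
        have h5 := sz_num h4
        exact_mod_cast h5
    have h4 : Real.log (R6.size z) ≤ (m + 3) * Real.log c := by
      by_cases h0 : R6.size z = 0
      · rw [h0, Nat.cast_zero, Real.log_zero]
        positivity
      · have h5 := Real.log_le_log (by exact_mod_cast Nat.pos_of_ne_zero h0)
          (by exact_mod_cast h3 : (R6.size z : ℝ) ≤ (c : ℝ) ^ (m + 3))
        rw [Real.log_pow] at h5
        push_cast at h5
        exact h5
    have h5 := mul_le_mul_of_nonneg_left h4 (Nat.cast_nonneg D1 : (0 : ℝ) ≤ D1)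
    linarith
  have hcnt := counting_le h1 S ρ hρ
  have h8 : (1 + ε) * (ε' * (D1 * ((m + 3) * Real.log c))) ≤ ε * Real.log c := by
    have h9 : (1 + ε) * (ε' * (D1 * ((m + 3) * Real.log c))) =
        ε * Real.log c * ((D1 * (m + 3)) / A1) := by
      rw [hε']
      field_simp
    rw [h9]
    have h10 : (D1 * (m + 3) : ℝ) / A1 ≤ 1 := by
      rw [div_le_one hA1p, hA1]
      linarith
    have h11 : 0 ≤ ε * Real.log c := by positivity
    nlinarith
  have h12 : ε' * Real.log H ≤ ε' * (D1 * ((m + 3) * Real.log c) + C1) :=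
    mul_le_mul_of_nonneg_left hlogH hε'0.le
  have h13 : Real.log c ≤ Real.log ρ + ε' * (D1 * ((m + 3) * Real.log c)) + (ε' * C1 + |C|) := by
    have h14 := le_abs_self C
    linarith
  have h15 := mul_le_mul_of_nonneg_left h13 (by linarith : (0 : ℝ) ≤ 1 + ε)
  nlinarith

end Pool.Agent.Y724.T4
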