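import Mathlib
import Pool.Agent.Y724.T4.RES6

/-!
# DSN: the discriminants are at least one; the height of the values of forms
-/

set_option autoImplicit false

namespace Pool.Agent.Y724.T4

open MvPolynomial NumberField DSCaux

theorem logDisc_nonneg (K : Type) [Field K] [NumberField K] : 0 ≤ R6.logDisc K := by
  unfold R6.logDisc
  refine div_nonneg (Real.log_nonneg ?_) (Nat.cast_nonneg _)
  rw [← Int.cast_abs]
  exact_mod_cast Int.one_le_abs (NumberField.discr_ne_zero K)

/-- powers of primes other than `p` have `p`-adic norm `1` -/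
lemma norm_zpow_one (p : ℕ) [hp : Fact p.Prime] (b : ℕ) (hb : b.Prime) (hne : b ≠ p) (e : ℤ) :
    padicNorm p ((b : ℚ) ^ e) = 1 := by
  have : Fact b.Prime := ⟨hb⟩
  have h1 : padicNorm p ((b : ℕ) : ℚ) = 1 := padicNorm.padicNorm_of_prime_of_ne hne.symm
  have h2 : ∀ n : ℕ, padicNorm p ((b : ℚ) ^ n) = 1 := by
    intro n
    induction n with
    | zero => rw [pow_zero, padicNorm.one]
    | succ n ih => rw [pow_succ, padicNorm.mul, ih, h1, one_mul]
  rcases Int.eq_nat_or_neg e with ⟨n, h | h⟩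
  · rw [h, zpow_natCast]
    exact h2 n
  · rw [h, zpow_neg, zpow_natCast]
    have h4 : (b : ℚ) ^ n ≠ 0 := pow_ne_zero _ (by exact_mod_cast hb.ne_zero)
    have h5 : padicNorm p (((b : ℚ) ^ n)⁻¹) * padicNorm p ((b : ℚ) ^ n) = 1 := by
      rw [← padicNorm.mul, inv_mul_cancel₀ h4, padicNorm.one]
    rwa [h2, mul_one] at h5

/-- short sums of `S`-units are integral outside `S` -/
lemma short_int6 {ι : Type} [Fintype ι] (S : Finset ℕ) (hS : ∀ p ∈ S, p.Prime) {l : ℕ}
    {B δ : ℝ} {z : ι → ℚ} (h : R6.IsShortSum S l B δ z) (i : ι) (p : ℕ) (hp : p.Prime)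
    (hpS : p ∉ S) : padicNorm p (z i) ≤ 1 := by
  have hf : Fact p.Prime := ⟨hp⟩
  obtain ⟨u, m, hu, _, hz⟩ := h
  have h1 : z i ∈ Zp p := by
    rw [hz]
    refine Subring.sum_mem _ fun j _ => Subring.mul_mem _ ?_ (intCast_mem _ _)
    obtain ⟨σ, e, hσ, hu⟩ := hu j
    rw [hu]
    refine Subring.mul_mem _ (intCast_mem _ _) (Subring.prod_mem _ fun v hv => ?_)
    change padicNorm p (((v : ℕ) : ℚ) ^ e v) ≤ 1
    exact (norm_zpow_one p v (hS v hv) (fun h => hpS (h ▸ hv)) (e v)).le
  exact h1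

theorem logDiscBasis_nonneg {K : Type} [Field K] [NumberField K] {n M : ℕ}
    (ω : Module.Basis (Fin n) ℚ K) (x : Fin M → K) (S : Finset ℕ) (hS : ∀ p ∈ S, p.Prime) (l : ℕ)
    (B δ : ℝ) (h : R6.IsShortSum S l B δ (R6.params ω x)) : 0 ≤ R6.logDiscBasis S ω := by
  classical
  unfold R6.logDiscBasis
  refine div_nonneg ?_ (Nat.cast_nonneg _)
  set q : ℚ := Algebra.discr ℚ ω with hqdef
  have hq : q ≠ 0 := Algebra.discr_not_zero_of_basis ℚ ω
  set Q : Finset ℕ := S ∪ (q.num.natAbs.primeFactors ∪ q.den.primeFactors) with hQ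
  have hQp : ∀ p ∈ Q, p.Prime := by
    intro p hp
    rw [hQ, Finset.mem_union, Finset.mem_union] at hp
    rcases hp with hp | hp | hp
    · exact hS p hp
    · exact Nat.prime_of_mem_primeFactors hp
    · exact Nat.prime_of_mem_primeFactors hp
  have h1 := rat_prod q hq Q hQp
    (fun p hp => Finset.mem_union_right _ (Finset.mem_union_left _ hp))
    (fun p hp => Finset.mem_union_right _ (Finset.mem_union_right _ hp))
  have h2 : S ⊆ Q := Finset.subset_union_left
  rw [← Finset.sum_sdiff h2] at h1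
  have h3 : ∑ p ∈ Q \ S, Real.log ((padicNorm p q : ℚ) : ℝ) ≤ 0 := by
    refine Finset.sum_nonpos fun p hp => ?_
    rw [Finset.mem_sdiff] at hp
    have h4 := discr_int ω p (hQp p hp.1) fun i j k =>
      short_int6 S hS h (Sum.inl (i, j, k)) p (hQp p hp.1) hp.2
    have : Fact p.Prime := ⟨hQp p hp.1⟩
    refine Real.log_nonpos ?_ (by exact_mod_cast h4)
    exact_mod_cast padicNorm.nonneg _
  linarith

/-- the sum of the absolute values of the coefficients -/
noncomputable def csum {M : ℕ} (P : MvPolynomial (Fin M) ℤ) : ℝ :=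
  ∑ α ∈ P.support, |((coeff α P : ℤ) : ℝ)|

lemma csum_nonneg {M : ℕ} (P : MvPolynomial (Fin M) ℤ) : 0 ≤ csum P :=
  Finset.sum_nonneg fun _ _ => abs_nonneg _

lemma inf_form_le {K : Type} [Field K] {M : ℕ} (v : InfinitePlace K)
    (P : MvPolynomial (Fin M) ℤ) (e : ℕ) (hP : P.IsHomogeneous e) (x : Fin M → K) :
    v (aeval x P) ≤ csum P * (⨆ i, v (x i)) ^ e := by
  classical
  have h0 : ∀ i, v (x i) ≤ ⨆ i, v (x i) := fun i =>
    le_ciSup (f := fun i => v (x i)) (Set.finite_range _).bddAbove i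
  rw [aeval_def, eval₂_eq']
  unfold csum
  rw [Finset.sum_mul]
  refine (v.1.sum_le _ _).trans (Finset.sum_le_sum fun α hα => ?_)
  change v _ ≤ _
  rw [map_mul, map_prod]
  have h1 : v ((algebraMap ℤ K) (coeff α P)) = |((coeff α P : ℤ) : ℝ)| := by
    rw [eq_intCast]
    rw [← InfinitePlace.mk_embedding v, InfinitePlace.apply, map_intCast, Complex.norm_intCast]
  rw [h1]
  refine mul_le_mul_of_nonneg_left ?_ (abs_nonneg _)
  have h2 : ∏ i, v (x i ^ α i) ≤ ∏ i, (⨆ i, v (x i)) ^ α i := by
    refine Finset.prod_le_prod (fun i _ => apply_nonneg v _) fun i _ => ?_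
    rw [map_pow]
    exact pow_le_pow_left₀ (apply_nonneg v _) (h0 i) _
  have h3 : ∏ i, (⨆ i, v (x i)) ^ α i = (⨆ i, v (x i)) ^ e := by
    rw [Finset.prod_pow_eq_pow_sum]
    congr 1
    have h4 := hP (mem_support_iff.1 hα)
    rw [← h4, Finsupp.weight_apply, Finsupp.sum_fintype _ _ (fun _ => by simp)]
    simp
  rw [← h3]
  exact h2

theorem height_forms {M w : ℕ} (F : Fin w → MvPolynomial (Fin M) ℤ) (a : ℕ)
    (hF : ∀ j, (F j).IsHomogeneous a) : ∃ C : ℝ, 0 ≤ C ∧ ∀ (K : Type) [Field K] [NumberField K]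
    (x : Fin M → K), x ≠ 0 → Height.logHeight (fun j => MvPolynomial.aeval x (F j)) ≤
      a * Height.logHeight x + C * Module.finrank ℚ K := by
  classical
  set A : ℝ := 1 + ∑ j, csum (F j) with hA
  have hA1 : 1 ≤ A := by
    have := Finset.sum_nonneg fun j (_ : j ∈ Finset.univ) => csum_nonneg (F j)
    linarith
  have hAj : ∀ j, csum (F j) ≤ A := by
    intro j
    have := Finset.single_le_sum (f := fun j => csum (F j)) (fun j _ => csum_nonneg (F j))
      (Finset.mem_univ j)
    linarith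
  refine ⟨Real.log A, Real.log_nonneg hA1, ?_⟩
  intro K _ _ x hx
  have hfr : (∑ v : InfinitePlace K, (v.mult : ℝ)) = Module.finrank ℚ K := by
    exact_mod_cast InfinitePlace.sum_mult_eq (K := K)
  by_cases hz : (fun j => aeval x (F j)) = (0 : Fin w → K)
  · rw [hz]
    have h1 : Height.logHeight (0 : Fin w → K) = 0 := Height.logHeight_zero
    have h2 : 0 ≤ Height.logHeight x := Height.logHeight_nonneg x
    rw [h1]
    have h3 := Real.log_nonneg hA1
    positivity
  · rw [logHeight_sum hz, logHeight_sum hx, mul_add]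
    have hw : Nonempty (Fin w) := by
      obtain ⟨j, -⟩ := Function.ne_iff.1 hz
      exact ⟨j⟩
    have e1 : ∑ v : InfinitePlace K, (v.mult : ℝ) * Real.log (⨆ j, v (aeval x (F j))) ≤
        a * ∑ v : InfinitePlace K, (v.mult : ℝ) * Real.log (⨆ i, v (x i)) +
          Real.log A * Module.finrank ℚ K := by
      rw [← hfr, Finset.mul_sum, Finset.mul_sum, ← Finset.sum_add_distrib]
      refine Finset.sum_le_sum fun v _ => ?_
      have hs : 0 < ⨆ i, v (x i) := sup_pos hx v.1
      have hs' : 0 < ⨆ j, v (aeval x (F j)) := sup_pos hz v.1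
      have h2 : (⨆ j, v (aeval x (F j))) ≤ A * (⨆ i, v (x i)) ^ a := by
        refine ciSup_le fun j => (inf_form_le v (F j) a (hF j) x).trans ?_
        exact mul_le_mul_of_nonneg_right (hAj j) (pow_nonneg hs.le _)
      have h3 := Real.log_le_log hs' h2
      rw [Real.log_mul (by linarith) (pow_pos hs _).ne', Real.log_pow] at h3
      have h4 : (0 : ℝ) ≤ v.mult := Nat.cast_nonneg _
      nlinarith [mul_le_mul_of_nonneg_left h3 h4]
    have e2 : ∑ᶠ v : FinitePlace K, Real.log (⨆ j, v (aeval x (F j))) ≤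
        a * ∑ᶠ v : FinitePlace K, Real.log (⨆ i, v (x i)) := by
      rw [finsum_eq_sum_of_support_subset (s := (sup_fin hz).toFinset ∪ (sup_fin hx).toFinset),
        finsum_eq_sum_of_support_subset (s := (sup_fin hz).toFinset ∪ (sup_fin hx).toFinset),
        Finset.mul_sum]
      · refine Finset.sum_le_sum fun v _ => ?_
        have hs : 0 < ⨆ i, v (x i) := sup_pos hx v.1
        have hs' : 0 < ⨆ j, v (aeval x (F j)) := sup_pos hz v.1
        have h2 : (⨆ j, v (aeval x (F j))) ≤ (⨆ i, v (x i)) ^ a :=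
          ciSup_le fun j => place_form_le v (F j) a (hF j) x
        have h3 := Real.log_le_log hs' h2
        rwa [Real.log_pow] at h3
      · intro v hv
        rw [Finset.mem_coe, Finset.mem_union, Set.Finite.mem_toFinset, Set.Finite.mem_toFinset]
        right
        intro h3
        apply hv
        change Real.log (⨆ i, v (x i)) = 0
        rw [h3, Real.log_one]
      · intro v hv
        rw [Finset.mem_coe, Finset.mem_union, Set.Finite.mem_toFinset, Set.Finite.mem_toFinset]
        left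
        intro h3
        apply hv
        change Real.log (⨆ j, v (aeval x (F j))) = 0
        rw [h3, Real.log_one]
    linarith

end Pool.Agent.Y724.T4
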