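import Mathlib
import Pool.Agent.Y724.T4.ABC
import Pool.Agent.Y724.T4.RTH
import Pool.Agent.Y724.T4.DSN

/-!
# The abc inequality with a multiple of the radical, all number fields
-/

set_option autoImplicit false

namespace Pool.Agent.Y724.T4

open MvPolynomial NumberField

section cnt
variable {K : Type} [Field K] [NumberField K]

/-- the counting function of one of the elements with sparse coordinates is nonnegative -/
lemma counting_nonneg {n : ℕ} {κ : Type} [Fintype κ] (ω : Module.Basis (Fin n) ℚ K) (y : κ → K)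
    (k : κ) (S : Finset ℕ) (l : ℕ) (B δ : ℝ)
    (h : R7.IsShortSum S l B δ (R7.params ω y)) : 0 ≤ R7.counting S (y k) := by
  classical
  set b0 : Fin S.card → ℕ := fun v => (S.equivFin.symm v : ℕ) with hb0
  have hb0S : ∀ v, b0 v ∈ S := fun v => (S.equivFin.symm v).2
  have hsh0 : ShortI b0 l B δ (R7.params ω y) := by
    obtain ⟨u, m, h2, h3, h4⟩ := h
    have hu0 : ∀ u : ℚ, R7.IsSUnit S u → Pool.Agent.TH551.SU.IsSU b0 u := by
      rintro u ⟨σ, e, hσ, rfl⟩
      refine ⟨σ, fun v => e (b0 v), hσ, ?_⟩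
      congr 1
      rw [← Finset.prod_coe_sort S (fun p => (p : ℚ) ^ e p),
        ← Equiv.prod_comp S.equivFin.symm]
    exact ⟨u, m, fun j => hu0 _ (h2 j), h3, h4⟩
  have h1 : ∀ v : FinitePlace K, v ∉ R7.placesOver K S → v (y k) ≤ 1 := by
    intro v hv
    refine elem_place_le ω v (y k)
      (fun i => basis_place_le ω v (fun i j h => ?_) i) fun i => ?_
    · exact short_place_le b0 S hb0S hsh0 (Sum.inl (i, j, h)) v hv
    · exact short_place_le b0 S hb0S hsh0 (Sum.inr (k, i)) v hv
  unfold R7.counting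
  refine div_nonneg ?_ (Nat.cast_nonneg _)
  rw [neg_nonneg]
  refine finsum_mem_induction (fun x : ℝ => x ≤ 0) le_rfl (fun x y hx hy => add_nonpos hx hy)
    fun v hv => ?_
  exact Real.log_nonpos (apply_nonneg v _) (h1 v hv)

end cnt

/-- the numbers `a i`, `t i j` and `ρ` -/
def data3 {K : Type} (a : Fin 3 → K) (t : Fin 3 → Fin 3 → K) (ρ : K) :
    Fin 3 ⊕ (Fin 3 × Fin 3) ⊕ Unit → K :=
  Sum.elim a (Sum.elim (fun k => t k.1 k.2) (fun _ => ρ))

/-- the inequality for the triples with sparse coordinates and a sparse multiple of the radical -/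
theorem abk_core (S : Finset ℕ) (hS : ∀ p ∈ S, p.Prime) (r l m : ℕ) (A B ε : ℝ) (hε : 0 < ε) :
    ∃ (δ C : ℝ), 0 < δ ∧ 0 ≤ C ∧ ∀ (n : ℕ), n ≤ r → ∀ (K : Type) [Field K] [NumberField K]
      (ω : Module.Basis (Fin n) ℚ K) (a : Fin 3 → K) (t : Fin 3 → Fin 3 → K) (ρ : K),
      (∀ i, a i ≠ 0) → a 0 + a 1 + a 2 = 0 → ρ ≠ 0 → (∀ i j, ρ ^ m * a j = a i * t i j) →
      R7.IsShortSum S l B δ (R7.params ω (data3 a t ρ)) →
      Real.log (R7.size (R7.params ω (data3 a t ρ))) ≤ A * (R7.height a + 1) →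
      R7.height a ≤ (1 + ε) * (R7.counting S ρ + R7.logDiscBasis S ω) + C ∧
      (R7.SpansIntegers S ω → R7.IsRadical lineF (fun _ _ => 1) S a ρ →
        R7.height a ≤ (1 + ε) * (R7.truncated lineF (fun _ _ => 1) S a + R7.logDisc K) + C) := by
  classical
  set A' : ℝ := |A| + 1 with hA'
  have hA'0 : 0 < A' := by positivity
  set ε' : ℝ := ε / (1 + ε) with hε'
  have hε'0 : 0 < ε' := by positivity
  have hε'1 : (1 + ε) * (1 - ε') = 1 := by
    rw [hε']
    field_simp
    ring
  have hε'' : 0 < ε' / A' := by positivity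
  have hε'le : ε' / A' ≤ ε' := div_le_self hε'0.le (by rw [hA']; linarith [abs_nonneg A])
  obtain ⟨δ, Φ, k, C, hδ, hΦh, ⟨z0, hz0, hΦz0⟩, hmain⟩ :=
    R7.main7 1 1 1 3 1 lineG (fun _ => 1)
      lineG_hom lineF (fun _ _ => 1)
      lineF_hom line_dim line_smooth S hS
      r l m 1 (fun _ _ => le_rfl) A B (ε' / A') hε''
  -- the exceptional points
  set sub : Fin (1 + 1 + 1) → MvPolynomial (Fin 2) ℚ := ![X 0, X 1, -X 0 - X 1] with hsub
  set Ψ : MvPolynomial (Fin 2) ℚ := aeval sub Φ with hΨ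
  have hΨev : ∀ (L : Type) [Field L] [CharZero L] (x : Fin (1 + 1 + 1) → L),
      x 0 + x 1 + x 2 = 0 → aeval ![x 0, x 1] Ψ = aeval x Φ := by
    intro L _ _ x hx
    rw [hΨ, comp_aeval_apply sub (aeval ![x 0, x 1]) Φ]
    congr 2
    funext i
    rw [hsub]
    fin_cases i
    · simp
    · simp
    · change aeval ![x 0, x 1] (-X 0 - X 1 : MvPolynomial (Fin 2) ℚ) = x 2
      rw [map_sub, map_neg, aeval_X, aeval_X]
      change -x 0 - x 1 = x 2
      linear_combination -hx
  have hz00 : z0 0 + z0 1 + z0 2 = 0 := (line_on z0).1 hz0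
  have hΨ0 : Ψ ≠ 0 := by
    intro h
    have h1 := hΨev ℂ z0 hz00
    rw [h, map_zero] at h1
    exact hΦz0 h1.symm
  have hΨh : Ψ.IsHomogeneous k := by
    have h1 := hΦh.aeval (g := sub) (n := 1) (fun i => by
      rw [hsub]
      fin_cases i
      · exact isHomogeneous_X _ _
      · exact isHomogeneous_X _ _
      · exact ((isHomogeneous_X _ _).neg).sub (isHomogeneous_X _ _))
    rwa [one_mul] at h1
  obtain ⟨C2, hC2, hroot⟩ := root_height2 Ψ hΨ0 k hΨh
  have hlog2 : 0 ≤ Real.log 2 := Real.log_nonneg one_le_two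
  refine ⟨δ, (1 + ε) * (|C| + ε') + (C2 + Real.log 2), hδ, by positivity, ?_⟩
  intro n hn K _ _ ω a t ρ ha hsum hρ0 ht hshort hlog
  have hnK : Module.finrank ℚ K = n := by
    rw [Module.finrank_eq_card_basis ω, Fintype.card_fin]
  have hn0 : 0 < n := by
    rw [← hnK]
    exact Module.finrank_pos
  have hnR : (0 : ℝ) < n := by exact_mod_cast hn0
  have ha0 : a ≠ 0 := fun h => ha 0 (by rw [h]; rfl)
  have hon : R7.OnX lineG a := (line_on a).2 hsum
  have hcnt : 0 ≤ R7.counting S ρ :=
    counting_nonneg ω (data3 a t ρ) (Sum.inr (Sum.inr ())) S l B δ hshort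
  have hdisc : 0 ≤ R7.logDiscBasis S ω := by
    -- the discriminant only needs the structure constants
    have h0 : R6.IsShortSum S l (B * (R7.size (R7.params ω (data3 a t ρ)) : ℝ) ^ δ) 0
        (R6.params ω (fun _ : Fin 0 => (0 : K))) := by
      obtain ⟨u, mm, h2, h3, h4⟩ := hshort
      refine ⟨u, fun j => Sum.elim (fun s => mm j (Sum.inl s)) (fun s => s.1.elim0), h2, ?_, ?_⟩
      · rintro j (s | s)
        · have h5 := h3 j (Sum.inl s)
          rw [Real.rpow_zero, mul_one]
          exact h5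
        · exact s.1.elim0
      · rintro (s | s)
        · exact h4 (Sum.inl s)
        · exact s.1.elim0
    exact logDiscBasis_nonneg ω (fun _ : Fin 0 => (0 : K)) S hS l _ 0 h0
  have htr : 0 ≤ R7.truncated lineF (fun _ _ => 1) S a := by
    unfold R7.truncated
    exact div_nonneg (finsum_nonneg fun v => finsum_nonneg fun _ => Real.log_natCast_nonneg _)
      (Nat.cast_nonneg _)
  have hD0 : 0 ≤ R7.logDisc K := logDisc_nonneg K
  by_cases hΦa : aeval a Φ = 0
  · -- exceptional points
    have h1 := hroot K ![a 0, a 1] (by rw [hΨev K a hsum, hΦa])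
    have h2 := height_third a ha0 hsum
    have h3 : R7.height a ≤ C2 + Real.log 2 := by
      unfold R7.height
      rw [hnK, div_le_iff₀ hnR]
      rw [hnK] at h1 h2
      linarith
    have h5 : 0 ≤ (1 + ε) * (|C| + ε') := by positivity
    refine ⟨?_, fun _ _ => ?_⟩
    · have h4 : 0 ≤ (1 + ε) * (R7.counting S ρ + R7.logDiscBasis S ω) := by positivity
      linarith
    · have h4 : 0 ≤ (1 + ε) * (R7.truncated lineF (fun _ _ => 1) S a + R7.logDisc K) := by
        positivity
      linarith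
  · set b : Fin 3 → Fin (1 + 1 + 1) → Fin 1 → K := fun i y _ => t i y with hb
    have hmul : R7.IsMultiple lineF m 1 a b ρ := by
      intro i y
      rw [pow_one, Fin.sum_univ_one, ht i y]
      unfold lineF
      rw [aeval_X]
    -- the parameters
    set g : Fin (1 + 1 + 1) ⊕ (Fin 3 × Fin (1 + 1 + 1) × Fin 1) ⊕ Unit →
      Fin 3 ⊕ (Fin 3 × Fin 3) ⊕ Unit :=
      Sum.map id (Sum.map (fun k => (k.1, k.2.1)) id) with hg
    have hgs : Function.Surjective g := by
      rintro (i | ⟨i, j⟩ | i)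
      · exact ⟨Sum.inl i, rfl⟩
      · exact ⟨Sum.inr (Sum.inl (i, j, 0)), rfl⟩
      · exact ⟨Sum.inr (Sum.inr i), rfl⟩
    set e : (Fin n × Fin n × Fin n) ⊕
      ((Fin (1 + 1 + 1) ⊕ (Fin 3 × Fin (1 + 1 + 1) × Fin 1) ⊕ Unit) × Fin n) →
      (Fin n × Fin n × Fin n) ⊕ ((Fin 3 ⊕ (Fin 3 × Fin 3) ⊕ Unit) × Fin n) :=
      Sum.map id (Prod.map g id) with he
    have hes : Function.Surjective e := by
      rintro (i | ⟨i, j⟩)
      · exact ⟨Sum.inl i, rfl⟩
      · obtain ⟨i', rfl⟩ := hgs i
        exact ⟨Sum.inr (i', j), rfl⟩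
    have hpar : R7.params ω (R7.data a b ρ) = R7.params ω (data3 a t ρ) ∘ e := by
      funext k
      rcases k with k | ⟨k | ⟨k, j, j'⟩ | k, i⟩
      · rfl
      · rfl
      · rfl
      · rfl
    have hsz : R7.size (R7.params ω (R7.data a b ρ)) = R7.size (R7.params ω (data3 a t ρ)) := by
      rw [hpar, size_comp _ e hes]
    have hsh : R7.IsShortSum S l B δ (R7.params ω (R7.data a b ρ)) := by
      rw [hpar]
      exact short_comp _ e hes hshort
    have h1 := hmain n hn K ω a b ρ hon hρ0 hmul hsh hΦa _ (lineT_basis a)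
    rw [line_canonical, line_divisor a ha, hsz] at h1
    have h3 : -2 * Height.logHeight a / Module.finrank ℚ K +
        3 * Height.logHeight a / Module.finrank ℚ K = R7.height a := by
      unfold R7.height
      ring
    rw [h3] at h1
    have hh0 : 0 ≤ R7.height a := div_nonneg (Height.logHeight_nonneg _) (by positivity)
    have hCC := le_abs_self C
    have hfinal : ∀ Z : ℝ, (1 - ε') * R7.height a ≤ Z + (|C| + ε') →
        R7.height a ≤ (1 + ε) * Z + ((1 + ε) * (|C| + ε') + (C2 + Real.log 2)) := by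
      intro Z hZ
      have h7 := mul_le_mul_of_nonneg_left hZ (by linarith : (0 : ℝ) ≤ 1 + ε)
      rw [← mul_assoc, hε'1, one_mul] at h7
      linarith
    refine ⟨hfinal _ ?_, fun hspan hrad => hfinal _ ?_⟩
    · have h4 : ε' / A' * Real.log (R7.size (R7.params ω (data3 a t ρ))) ≤
          ε' * (R7.height a + 1) := by
        have h5 : Real.log (R7.size (R7.params ω (data3 a t ρ))) ≤ A' * (R7.height a + 1) := by
          refine hlog.trans (mul_le_mul_of_nonneg_right ?_ (by linarith))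
          rw [hA']
          linarith [le_abs_self A]
        have h6 := mul_le_mul_of_nonneg_left h5 hε''.le
        have h7 : ε' / A' * (A' * (R7.height a + 1)) = ε' * (R7.height a + 1) := by
          field_simp
        linarith
      linarith [h1.1]
    · have h4 := h1.2 hspan hlog hrad
      have h5 : ε' / A' * R7.height a ≤ ε' * R7.height a := mul_le_mul_of_nonneg_right hε'le hh0
      linarith

end Pool.Agent.Y724.T4
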