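import Mathlib
import Pool.Agent.Y724.T4.P1A
import Pool.Agent.Y724.T4.RTH
import Pool.Agent.Y729.AE.Min
import Pool.Agent.Y729.FW.Cond

/-!
# The conductor of an elliptic curve and the triple `c₄ ^ 3`, `- c₆ ^ 2`, `- 1728 Δ`
-/

set_option autoImplicit false

namespace Pool.Agent.Y724.T4.FRS

open NumberField IsDedekindDomain
open Pool.Agent.TH876.FH (GoodAt badNorm)

variable {K : Type} [Field K] [NumberField K]

/-- the logarithm of the norm of the prime ideal -/
noncomputable def lN (v : FinitePlace K) : ℝ :=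
  Real.log ((Ideal.absNorm v.maximalIdeal.asIdeal : ℕ) : ℝ)

lemma lN_nonneg (v : FinitePlace K) : 0 ≤ lN v := Real.log_natCast_nonneg _

lemma N_pos (v : FinitePlace K) : (0 : ℝ) < ((Ideal.absNorm v.maximalIdeal.asIdeal : ℕ) : ℝ) := by
  have h3 : Ideal.absNorm v.maximalIdeal.asIdeal ≠ 0 := by
    rw [Ne, Ideal.absNorm_eq_zero_iff]
    exact v.maximalIdeal.ne_bot
  exact_mod_cast Nat.pos_of_ne_zero h3

/-- the triple -/
def tri (E : WeierstrassCurve K) (s : K) : Fin (1 + 1 + 1) → K :=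
  ![s * E.c₄ ^ 3, -(s * E.c₆ ^ 2), -(1728 * (s * E.Δ))]

omit [NumberField K] in
lemma tri_sum (E : WeierstrassCurve K) (s : K) : tri E s 0 + tri E s 1 + tri E s 2 = 0 := by
  change s * E.c₄ ^ 3 + -(s * E.c₆ ^ 2) + -(1728 * (s * E.Δ)) = 0
  have := E.c_relation
  linear_combination s * this * (-1)

lemma tri_ne (E : WeierstrassCurve K) {s : K} (hs : s ≠ 0) (h4 : E.c₄ ≠ 0) (h6 : E.c₆ ≠ 0)
    (hΔ : E.Δ ≠ 0) (i : Fin (1 + 1 + 1)) : tri E s i ≠ 0 := by
  fin_cases i
  · exact mul_ne_zero hs (pow_ne_zero _ h4)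
  · exact neg_ne_zero.2 (mul_ne_zero hs (pow_ne_zero _ h6))
  · exact neg_ne_zero.2 (mul_ne_zero (by norm_num) (mul_ne_zero hs hΔ))

lemma val_fin (v : FinitePlace K) {x : K} (h : v.maximalIdeal.valuation K x ≤ 1) : v x ≤ 1 := by
  have h1 := Pool.Agent.Y729.AE.fv_le_one v.maximalIdeal h
  rwa [Pool.Agent.H691R3.fv_apply, FinitePlace.mk_maximalIdeal] at h1

lemma val_one (v : FinitePlace K) {x : K} (h : v.maximalIdeal.valuation K x = 1) : v x = 1 := by
  have h1 := (Pool.Agent.Y729.FW.fv_eq_one_iff v.maximalIdeal x).2 h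
  rwa [Pool.Agent.H691R3.fv_apply, FinitePlace.mk_maximalIdeal] at h1

lemma gap_log (v : FinitePlace K) {y : K} (hy : y ≠ 0) (h : v y < 1) :
    lN v ≤ -Real.log (v y) := by
  have h1 := fin_gap v hy h
  have h2 : 0 < v y := v.1.pos hy
  have h3 := Real.log_le_log (mul_pos (N_pos v) h2) h1
  rw [Real.log_mul (N_pos v).ne' h2.ne', Real.log_one] at h3
  unfold lN
  linarith

/-- the local height -/
noncomputable def lam (a : Fin (1 + 1 + 1) → K) (i : Fin (1 + 1 + 1)) (v : AbsoluteValue K ℝ) : ℝ :=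
  Real.log (⨆ j, v (a j)) - Real.log (v (a i))

omit [NumberField K] in
lemma lam_nonneg (a : Fin (1 + 1 + 1) → K) (ha : ∀ i, a i ≠ 0) (i : Fin (1 + 1 + 1))
    (v : AbsoluteValue K ℝ) : 0 ≤ lam a i v := by
  unfold lam
  rw [sub_nonneg]
  exact Real.log_le_log (v.pos (ha i))
    (le_ciSup (f := fun j => v (a j)) (Finite.bddAbove_range _) i)

/-- the local inequality at the good places -/
lemma good_local (v : FinitePlace K) (E : WeierstrassCurve K) {s : K} (hs : s ≠ 0)
    (h4 : E.c₄ ≠ 0) (h6 : E.c₆ ≠ 0) (hΔ : E.Δ ≠ 0) (hg : GoodAt v.maximalIdeal E)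
    (h6v : v (6 : K) = 1) (hm : ∃ i j, v (tri E s i) ≠ v (tri E s j)) :
    lN v ≤ lam (tri E s) 0 v.1 / 3 + lam (tri E s) 1 v.1 / 2 := by
  obtain ⟨C, i1, i2, i3, i4, i6, iu⟩ := hg
  obtain ⟨W, hW⟩ := Pool.Agent.Y729.AE.int_model v.maximalIdeal (C • E) ⟨i1, i2, i3, i4, i6⟩
  have j4 : v (C • E).c₄ ≤ 1 := val_fin v (by
    rw [← hW, WeierstrassCurve.map_c₄]
    exact W.c₄.2)
  have j6 : v (C • E).c₆ ≤ 1 := val_fin v (by
    rw [← hW, WeierstrassCurve.map_c₆]
    exact W.c₆.2)
  have jΔ : v (C • E).Δ = 1 := val_one v iu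
  have hu0 : ((C.u⁻¹ : Kˣ) : K) ≠ 0 := Units.ne_zero _
  set w : ℝ := v ((C.u⁻¹ : Kˣ) : K) with hw
  have hw0 : 0 < w := v.1.pos hu0
  have k4 : v (C • E).c₄ = w ^ 4 * v E.c₄ := by
    rw [WeierstrassCurve.variableChange_c₄, map_mul, map_pow]
  have k6 : v (C • E).c₆ = w ^ 6 * v E.c₆ := by
    rw [WeierstrassCurve.variableChange_c₆, map_mul, map_pow]
  have kΔ : w ^ 12 * v E.Δ = 1 := by
    rw [← jΔ, WeierstrassCurve.variableChange_Δ, map_mul, map_pow]
  have hne4 : (C • E).c₄ ≠ 0 := by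
    rw [WeierstrassCurve.variableChange_c₄]
    exact mul_ne_zero (pow_ne_zero _ hu0) h4
  have hne6 : (C • E).c₆ ≠ 0 := by
    rw [WeierstrassCurve.variableChange_c₆]
    exact mul_ne_zero (pow_ne_zero _ hu0) h6
  have hp4 : 0 < v (C • E).c₄ := v.1.pos hne4
  have hp6 : 0 < v (C • E).c₆ := v.1.pos hne6
  have h1728 : v (1728 : K) = 1 := by
    have e2 : v (2 : K) ≤ 1 := by
      have := PLCaux.nat_le_one v 2
      rwa [Nat.cast_ofNat] at this
    have e3 : v (3 : K) ≤ 1 := by
      have := PLCaux.nat_le_one v 3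
      rwa [Nat.cast_ofNat] at this
    have e6 : v (2 : K) * v (3 : K) = 1 := by
      rw [← map_mul, ← h6v]
      norm_num
    have p2 : 0 ≤ v (2 : K) := apply_nonneg v _
    have p3 : 0 ≤ v (3 : K) := apply_nonneg v _
    have f2 : v (2 : K) = 1 := by nlinarith
    have f3 : v (3 : K) = 1 := by nlinarith
    have : (1728 : K) = 2 ^ 6 * 3 ^ 3 := by norm_num
    rw [this, map_mul, map_pow, map_pow, f2, f3]
    norm_num
  have hσ : 0 < v s := v.1.pos hs
  have t2 : v (tri E s 2) = v s * v E.Δ := by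
    change v (-(1728 * (s * E.Δ))) = _
    have : v (-(1728 * (s * E.Δ))) = v (1728 * (s * E.Δ)) := v.1.map_neg _
    rw [this, map_mul, map_mul, h1728, one_mul]
  have t0 : v (tri E s 0) = v (tri E s 2) * v (C • E).c₄ ^ 3 := by
    rw [t2, k4]
    change v (s * E.c₄ ^ 3) = _
    rw [map_mul, map_pow]
    have : (w ^ 4 * v E.c₄) ^ 3 = w ^ 12 * v E.c₄ ^ 3 := by ring
    rw [this]
    linear_combination (-(v s * v E.c₄ ^ 3)) * kΔ
  have t1 : v (tri E s 1) = v (tri E s 2) * v (C • E).c₆ ^ 2 := by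
    rw [t2, k6]
    change v (-(s * E.c₆ ^ 2)) = _
    have h7 : v (-(s * E.c₆ ^ 2)) = v (s * E.c₆ ^ 2) := v.1.map_neg _
    rw [h7, map_mul, map_pow]
    have : (w ^ 6 * v E.c₆) ^ 2 = w ^ 12 * v E.c₆ ^ 2 := by ring
    rw [this]
    linear_combination (-(v s * v E.c₆ ^ 2)) * kΔ
  have hp2 : 0 < v (tri E s 2) := v.1.pos (tri_ne E hs h4 h6 hΔ 2)
  have hsup : (⨆ j, v.1 (tri E s j)) = v (tri E s 2) := by
    apply le_antisymm
    · refine ciSup_le fun i => ?_
      fin_cases i
      · change v (tri E s 0) ≤ _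
        rw [t0]
        exact mul_le_of_le_one_right hp2.le (pow_le_one₀ hp4.le j4)
      · change v (tri E s 1) ≤ _
        rw [t1]
        exact mul_le_of_le_one_right hp2.le (pow_le_one₀ hp6.le j6)
      · exact le_rfl
    · exact le_ciSup (f := fun j => v.1 (tri E s j)) (Finite.bddAbove_range _) 2
  have l0 : lam (tri E s) 0 v.1 = -3 * Real.log (v (C • E).c₄) := by
    unfold lam
    rw [hsup]
    change Real.log (v (tri E s 2)) - Real.log (v (tri E s 0)) = _
    rw [t0, Real.log_mul hp2.ne' (pow_pos hp4 _).ne', Real.log_pow]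
    push_cast
    ring
  have l1 : lam (tri E s) 1 v.1 = -2 * Real.log (v (C • E).c₆) := by
    unfold lam
    rw [hsup]
    change Real.log (v (tri E s 2)) - Real.log (v (tri E s 1)) = _
    rw [t1, Real.log_mul hp2.ne' (pow_pos hp6 _).ne', Real.log_pow]
    push_cast
    ring
  have n0 := lam_nonneg (tri E s) (tri_ne E hs h4 h6 hΔ) 0 v.1
  have n1 := lam_nonneg (tri E s) (tri_ne E hs h4 h6 hΔ) 1 v.1
  by_cases c4 : v (C • E).c₄ = 1
  · by_cases c6 : v (C • E).c₆ = 1
    · exfalso
      obtain ⟨i, j, hij⟩ := hm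
      have hall : ∀ i, v (tri E s i) = v (tri E s 2) := by
        intro i
        fin_cases i
        · change v (tri E s 0) = _
          rw [t0, c4]
          ring
        · change v (tri E s 1) = _
          rw [t1, c6]
          ring
        · rfl
      exact hij ((hall i).trans (hall j).symm)
    · have h7 := gap_log v hne6 (lt_of_le_of_ne j6 c6)
      rw [l1]
      linarith
  · have h7 := gap_log v hne4 (lt_of_le_of_ne j4 c4)
    rw [l0]
    linarith

/-- the truncated counting function of the triple -/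
theorem cond_le (E : WeierstrassCurve K) {s : K} (hs : s ≠ 0)
    (h4 : E.c₄ ≠ 0) (h6 : E.c₆ ≠ 0) (hΔ : E.Δ ≠ 0) :
    ∑ᶠ v ∈ {v : FinitePlace K | ∃ i j, v (tri E s i) ≠ v (tri E s j)}, lN v ≤
      Real.log (badNorm E) + Real.log 6 * Module.finrank ℚ K +
        5 / 6 * Height.logHeight (tri E s) := by
  classical
  have ha := tri_ne E hs h4 h6 hΔ
  have hav : tri E s ≠ 0 := fun h => ha 0 (by rw [h]; rfl)
  have h60 : (6 : K) ≠ 0 := by norm_num
  have hsup := sup_fin hav
  have hcomp : ∀ i, {v : FinitePlace K | v (tri E s i) ≠ 1}.Finite := fun i => fin_ne_one (ha i)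
  set F : Finset (FinitePlace K) := hsup.toFinset ∪ (fin_ne_one h60).toFinset ∪
    Finset.univ.biUnion (fun i => (hcomp i).toFinset) with hF
  have hF1 : ∀ v ∉ F, (⨆ i, v (tri E s i)) = 1 ∧ v (6 : K) = 1 ∧ ∀ i, v (tri E s i) = 1 := by
    intro v hv
    rw [hF] at hv
    simp only [Finset.mem_union, Finset.mem_biUnion, Finset.mem_univ, true_and,
      Set.Finite.mem_toFinset, Set.mem_ofPred_eq, not_or, not_not, not_exists] at hv
    exact ⟨hv.1.1, hv.1.2, hv.2⟩
  have hsum : ∀ f : FinitePlace K → ℝ, (∀ v ∉ F, f v = 0) → ∑ᶠ v, f v = ∑ v ∈ F, f v := by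
    intro f hf
    refine finsum_eq_sum_of_support_subset _ fun v hv => ?_
    by_contra hcon
    exact hv (hf v hcon)
  have hL : ∑ᶠ v ∈ {v : FinitePlace K | ∃ i j, v (tri E s i) ≠ v (tri E s j)}, lN v =
      ∑ v ∈ F, if (∃ i j, v (tri E s i) ≠ v (tri E s j)) then lN v else 0 := by
    rw [finsum_mem_def, hsum]
    · refine Finset.sum_congr rfl fun v _ => ?_
      rw [Set.indicator_apply]
      rfl
    · intro v hv
      rw [Set.indicator_apply, if_neg]
      rintro ⟨i, j, hij⟩
      exact hij (((hF1 v hv).2.2 i).trans ((hF1 v hv).2.2 j).symm)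
  have h6s : ∑ v ∈ F, -Real.log (v (6 : K)) = Real.log 6 * Module.finrank ℚ K := by
    have h1 := prod_formula h60
    rw [hsum (fun v => Real.log (v (6 : K))) (fun v hv => by
      rw [(hF1 v hv).2.1, Real.log_one])] at h1
    have h2 : ∑ v : InfinitePlace K, (v.mult : ℝ) * Real.log (v (6 : K)) =
        Real.log 6 * Module.finrank ℚ K := by
      have h3 : ∀ v : InfinitePlace K, v (6 : K) = 6 := by
        intro v
        have h5 := RTHaux.inf_int v 6
        push_cast at h5
        rw [h5]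
        norm_num
      rw [Finset.sum_congr rfl fun v _ => by rw [h3 v], ← Finset.sum_mul,
        ← InfinitePlace.sum_mult_eq]
      push_cast
      ring
    rw [Finset.sum_neg_distrib]
    linarith
  have hlam : ∀ i, ∑ v ∈ F, lam (tri E s) i v.1 ≤ Height.logHeight (tri E s) := by
    intro i
    have h1 := prod_formula (ha i)
    rw [hsum (fun v => Real.log (v (tri E s i))) (fun v hv => by
      rw [(hF1 v hv).2.2 i, Real.log_one])] at h1
    have h2 := logHeight_sum hav
    rw [hsum (fun v => Real.log (⨆ i, v (tri E s i))) (fun v hv => by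
      rw [(hF1 v hv).1, Real.log_one])] at h2
    have h3 : 0 ≤ ∑ v : InfinitePlace K, (v.mult : ℝ) * lam (tri E s) i v.1 :=
      Finset.sum_nonneg fun v _ => mul_nonneg (Nat.cast_nonneg _) (lam_nonneg _ ha i v.1)
    have h4 : ∑ v : InfinitePlace K, (v.mult : ℝ) * lam (tri E s) i v.1 =
        ∑ v : InfinitePlace K, v.mult * Real.log (⨆ i, v (tri E s i)) -
        ∑ v : InfinitePlace K, v.mult * Real.log (v (tri E s i)) := by
      rw [← Finset.sum_sub_distrib]
      refine Finset.sum_congr rfl fun v _ => ?_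
      exact mul_sub _ _ _
    have h5 : ∑ v ∈ F, lam (tri E s) i v.1 =
        ∑ v ∈ F, Real.log (⨆ i, v (tri E s i)) - ∑ v ∈ F, Real.log (v (tri E s i)) := by
      rw [← Finset.sum_sub_distrib]
      rfl
    rw [h5]
    linarith
  have hbad : ∑ v ∈ F, (if ¬ GoodAt v.maximalIdeal E then lN v else 0) ≤
      Real.log (badNorm E) := by
    have hfin := Pool.Agent.TH876.TT.bad K E hΔ
    have h1 : badNorm E = ∏ w ∈ hfin.toFinset, (Ideal.absNorm w.asIdeal : ℝ) := by
      unfold badNorm
      rw [finprod_mem_eq_finite_toFinset_prod _ hfin]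
    have hpos : ∀ w : HeightOneSpectrum (𝓞 K), (0 : ℝ) < (Ideal.absNorm w.asIdeal : ℝ) := fun w =>
      lt_trans one_pos (Pool.Agent.Y729.AE.one_lt_N w)
    rw [h1, Real.log_prod fun w _ => (hpos w).ne', ← Finset.sum_filter]
    have hinj : Set.InjOn (fun v : FinitePlace K => v.maximalIdeal)
        (F.filter fun v => ¬ GoodAt v.maximalIdeal E) := fun v _ v' _ h =>
      FinitePlace.maximalIdeal_injective h
    have h2 : ∑ v ∈ F.filter (fun v => ¬ GoodAt v.maximalIdeal E), lN v =
        ∑ w ∈ (F.filter fun v => ¬ GoodAt v.maximalIdeal E).image (fun v => v.maximalIdeal),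
          Real.log (Ideal.absNorm w.asIdeal : ℝ) := by
      rw [Finset.sum_image hinj]
      rfl
    rw [h2]
    refine Finset.sum_le_sum_of_subset_of_nonneg ?_ fun w _ _ => Real.log_natCast_nonneg _
    intro w hw
    obtain ⟨v, hv, rfl⟩ := Finset.mem_image.1 hw
    rw [Set.Finite.mem_toFinset]
    exact (Finset.mem_filter.1 hv).2
  have hmain : ∑ v ∈ F, (if (∃ i j, v (tri E s i) ≠ v (tri E s j)) then lN v else 0) ≤
      ∑ v ∈ F, ((if ¬ GoodAt v.maximalIdeal E then lN v else 0) + -Real.log (v (6 : K)) +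
        lam (tri E s) 0 v.1 / 3 + lam (tri E s) 1 v.1 / 2) := by
    refine Finset.sum_le_sum fun v _ => ?_
    have n0 := lam_nonneg (tri E s) ha 0 v.1
    have n1 := lam_nonneg (tri E s) ha 1 v.1
    have n6 : v (6 : K) ≤ 1 := by
      have := PLCaux.nat_le_one v 6
      rwa [Nat.cast_ofNat] at this
    have n6' : 0 ≤ -Real.log (v (6 : K)) := by
      rw [neg_nonneg]
      exact Real.log_nonpos (apply_nonneg v _) n6
    have nb : 0 ≤ (if ¬ GoodAt v.maximalIdeal E then lN v else 0) := by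
      split_ifs
      · exact le_rfl
      · exact lN_nonneg v
    by_cases hm : ∃ i j, v (tri E s i) ≠ v (tri E s j)
    · rw [if_pos hm]
      by_cases h6v : v (6 : K) = 1
      · by_cases hg : GoodAt v.maximalIdeal E
        · have := good_local v E hs h4 h6 hΔ hg h6v hm
          linarith
        · rw [if_pos hg]
          linarith
      · have := gap_log v h60 (lt_of_le_of_ne n6 h6v)
        linarith
    · rw [if_neg hm]
      linarith
  rw [hL]
  refine hmain.trans ?_
  rw [Finset.sum_add_distrib, Finset.sum_add_distrib, Finset.sum_add_distrib, h6s,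
    ← Finset.sum_div, ← Finset.sum_div]
  have g0 := hlam 0
  have g1 := hlam 1
  linarith

/-- the height of the modular invariant -/
theorem j_le (E : WeierstrassCurve K) {s : K} (hs : s ≠ 0)
    (h4 : E.c₄ ≠ 0) (h6 : E.c₆ ≠ 0) (hΔ : E.Δ ≠ 0) :
    Height.logHeight₁ (E.c₄ ^ 3 / E.Δ) ≤ Height.logHeight (tri E s) +
      Real.log 1728 * Module.finrank ℚ K := by
  have ha := tri_ne E hs h4 h6 hΔ
  have hav : tri E s ≠ 0 := fun h => ha 0 (by rw [h]; rfl)
  have h17 : (1728 : K) ≠ 0 := by norm_num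
  have e1 : Height.logHeight₁ (E.c₄ ^ 3 / E.Δ) = Height.logHeight ![E.c₄ ^ 3, E.Δ] :=
    Height.logHeight₁_div_eq_logHeight _ _
  have e2 : Height.logHeight ![E.c₄ ^ 3, E.Δ] = Height.logHeight (s • ![E.c₄ ^ 3, E.Δ]) :=
    (Height.logHeight_smul_eq_logHeight _ hs).symm
  set y : Fin 2 → K := s • ![E.c₄ ^ 3, E.Δ] with hy
  have y0 : y 0 = tri E s 0 := rfl
  have y1 : y 1 = s * E.Δ := rfl
  have hyv : y ≠ 0 := fun h => ha 0 (by rw [← y0, h]; rfl)
  have t2 : tri E s 2 = -(1728 * y 1) := rfl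
  rw [e1, e2, logHeight_sum hyv, logHeight_sum hav]
  have hle : ∀ (v : AbsoluteValue K ℝ) (j : Fin (1 + 1 + 1)), v (tri E s j) ≤ ⨆ j, v (tri E s j) :=
    fun v j => le_ciSup (f := fun j => v (tri E s j)) (Finite.bddAbove_range _) j
  have hinf : ∑ v : InfinitePlace K, (v.mult : ℝ) * Real.log (⨆ i, v (y i)) ≤
      ∑ v : InfinitePlace K, (v.mult : ℝ) * Real.log (⨆ i, v (tri E s i)) := by
    refine Finset.sum_le_sum fun v _ => mul_le_mul_of_nonneg_left ?_ (Nat.cast_nonneg _)
    refine Real.log_le_log (sup_pos hyv v.1) (ciSup_le fun i => ?_)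
    fin_cases i
    · exact hle v.1 0
    · change v.1 (y 1) ≤ _
      refine le_trans ?_ (hle v.1 2)
      rw [t2, v.1.map_neg, v.1.map_mul]
      have h5 : v.1 (1728 : K) = 1728 := by
        have h5 := RTHaux.inf_int v 1728
        push_cast at h5
        have h7 : v.1 (1728 : K) = |(1728 : ℝ)| := h5
        rw [h7]
        norm_num
      rw [h5]
      have := v.1.nonneg (y 1)
      linarith
  have hfin : ∑ᶠ v : FinitePlace K, Real.log (⨆ i, v (y i)) ≤
      ∑ᶠ v : FinitePlace K, (Real.log (⨆ i, v (tri E s i)) - Real.log (v (1728 : K))) := by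
    have s1 : (Function.support fun v : FinitePlace K => Real.log (⨆ i, v (y i))).Finite := by
      refine (sup_fin hyv).subset fun v hv h => hv ?_
      change Real.log (⨆ i, v (y i)) = 0
      rw [h, Real.log_one]
    have s2 : (Function.support fun v : FinitePlace K =>
        Real.log (⨆ i, v (tri E s i)) - Real.log (v (1728 : K))).Finite := by
      refine ((sup_fin hav).union (fin_ne_one h17)).subset fun v hv => ?_
      by_contra hcon
      rw [Set.mem_union, not_or] at hcon
      apply hv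
      have g1 : (⨆ i, v (tri E s i)) = 1 := not_not.1 hcon.1
      have g2 : v (1728 : K) = 1 := not_not.1 hcon.2
      change Real.log (⨆ i, v (tri E s i)) - Real.log (v (1728 : K)) = 0
      rw [g1, g2, Real.log_one, sub_zero]
    refine finsum_le_finsum' s1 s2 fun v => ?_
    have hp : 0 < v (1728 : K) := v.1.pos h17
    have hp1 : v (1728 : K) ≤ 1 := by
      have := PLCaux.nat_le_one v 1728
      rwa [Nat.cast_ofNat] at this
    have hX : 0 < ⨆ i, v (tri E s i) := sup_pos hav v.1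
    rw [← Real.log_div hX.ne' hp.ne']
    refine Real.log_le_log (sup_pos hyv v.1) (ciSup_le fun i => ?_)
    rw [le_div_iff₀ hp]
    fin_cases i
    · change v (y 0) * _ ≤ _
      rw [y0]
      calc v (tri E s 0) * v (1728 : K) ≤ v (tri E s 0) * 1 :=
            mul_le_mul_of_nonneg_left hp1 (apply_nonneg v _)
        _ = v (tri E s 0) := mul_one _
        _ ≤ _ := hle v.1 0
    · change v (y 1) * _ ≤ _
      refine le_trans (le_of_eq ?_) (hle v.1 2)
      rw [t2, v.1.map_neg]
      change _ = v (1728 * y 1)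
      rw [map_mul, mul_comm]
  have hsub : ∑ᶠ v : FinitePlace K, (Real.log (⨆ i, v (tri E s i)) - Real.log (v (1728 : K))) =
      ∑ᶠ v : FinitePlace K, Real.log (⨆ i, v (tri E s i)) -
        ∑ᶠ v : FinitePlace K, Real.log (v (1728 : K)) := by
    refine finsum_sub_distrib ?_ ?_
    · refine (sup_fin hav).subset fun v hv h => hv ?_
      change Real.log (⨆ i, v (tri E s i)) = 0
      rw [h, Real.log_one]
    · refine (fin_ne_one h17).subset fun v hv h => hv ?_
      change Real.log (v (1728 : K)) = 0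
      rw [h, Real.log_one]
  have hpf := prod_formula h17
  have h17s : ∑ v : InfinitePlace K, (v.mult : ℝ) * Real.log (v (1728 : K)) =
      Real.log 1728 * Module.finrank ℚ K := by
    have h3 : ∀ v : InfinitePlace K, v (1728 : K) = 1728 := by
      intro v
      have h5 := RTHaux.inf_int v 1728
      push_cast at h5
      rw [h5]
      norm_num
    rw [Finset.sum_congr rfl fun v _ => by rw [h3 v], ← Finset.sum_mul,
      ← InfinitePlace.sum_mult_eq]
    push_cast
    ring
  rw [hsub] at hfin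
  linarith

end Pool.Agent.Y724.T4.FRS
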