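import Mathlib
import Pool.Agent.Y724.T4.RES6

set_option autoImplicit false

/-!
# The height of a point and the size of its parameters (job HTS, helper815)
-/

namespace Pool.Agent.Y724.T4

open Height

section
variable {K : Type} [Field K] [NumberField K]

lemma hts_nat (m : ℕ) : logHeight₁ ((m : ℕ) : K) ≤ Module.finrank ℚ K * Real.log m := by
  have h := logHeight₁_sum_le (K := K) (Finset.range m) (fun _ => (1 : K))
  rw [Finset.sum_const, Finset.sum_const, Finset.card_range, nsmul_eq_mul, mul_one,
    logHeight₁_one, smul_zero, add_zero, NumberField.totalWeight_eq_finrank] at h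
  exact h

lemma hts_log {a H : ℕ} (h : a ≤ H) (hH : 1 ≤ H) : Real.log a ≤ Real.log H := by
  rcases Nat.eq_zero_or_pos a with h0 | h0
  · rw [h0, Nat.cast_zero, Real.log_zero]
    exact Real.log_nonneg (by exact_mod_cast hH)
  · exact Real.log_le_log (by exact_mod_cast h0) (by exact_mod_cast h)

lemma hts_rat (a : ℚ) {H : ℕ} (hH : 1 ≤ H) (h1 : a.num.natAbs ≤ H) (h2 : a.den ≤ H) :
    logHeight₁ ((a : ℚ) : K) ≤ 2 * Module.finrank ℚ K * Real.log H := by
  have e : ((a : ℚ) : K) = (a.num : K) * ((a.den : ℕ) : K)⁻¹ := by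
    rw [← div_eq_mul_inv]
    exact Rat.cast_def a
  have h3 : logHeight₁ ((a.num : ℤ) : K) ≤ Module.finrank ℚ K * Real.log a.num.natAbs := by
    rcases Int.natAbs_eq a.num with h | h
    · rw [show ((a.num : ℤ) : K) = ((a.num.natAbs : ℕ) : K) by
        conv_lhs => rw [h]
        rw [Int.cast_natCast]]
      exact hts_nat _
    · rw [show ((a.num : ℤ) : K) = -((a.num.natAbs : ℕ) : K) by
        conv_lhs => rw [h]
        rw [Int.cast_neg, Int.cast_natCast], logHeight₁_neg]
      exact hts_nat _
  have h4 := hts_nat (K := K) a.den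
  have h5 := hts_log h1 hH
  have h6 := hts_log h2 hH
  have hn : (0 : ℝ) ≤ Module.finrank ℚ K := Nat.cast_nonneg _
  rw [e]
  refine (logHeight₁_mul_le _ _).trans ?_
  rw [logHeight₁_inv]
  have h7 := mul_le_mul_of_nonneg_left h5 hn
  have h8 := mul_le_mul_of_nonneg_left h6 hn
  linarith

lemma hts_vec {ι : Type} [Fintype ι] (u : ι → K) : logHeight u ≤ ∑ j, logHeight₁ (u j) := by
  classical
  have key : ∀ s : Finset ι, logHeight (∏ j ∈ s, fun i : ι => if i = j then u j else 1) ≤
      ∑ j ∈ s, logHeight₁ (u j) := by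
    intro s
    induction s using Finset.induction_on with
    | empty =>
      rw [Finset.prod_empty, Finset.sum_empty, logHeight_one]
    | insert j s hj ih =>
      rw [Finset.prod_insert hj, Finset.sum_insert hj]
      refine (logHeight_mul_le _ _).trans (add_le_add ?_ ih)
      rw [logHeight₁_eq_logHeight]
      have e : (fun i : ι => if i = j then u j else 1) =
          ![u j, 1] ∘ (fun i : ι => if i = j then (0 : Fin 2) else 1) := by
        funext i
        by_cases h : i = j
        · simp [h]
        · simp [h]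
      rw [e]
      exact logHeight_comp_le _ _
  have e : (∏ j, fun i : ι => if i = j then u j else 1) = u := by
    funext i
    rw [Finset.prod_apply, Finset.prod_ite_eq, if_pos (Finset.mem_univ _)]
  have h := key Finset.univ
  rwa [e] at h

lemma hts_comb {n : ℕ} (ω : Module.Basis (Fin n) ℚ K) (z : K) :
    z = ∑ i, ((ω.repr z i : ℚ) : K) * ω i := by
  conv_lhs => rw [← ω.sum_repr z]
  refine Finset.sum_congr rfl fun i _ => ?_
  rw [Algebra.smul_def, eq_ratCast]

end

/-- The height of `x` is at most a constant times the logarithm of the size of the parameters of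
`x`. -/
theorem height_le_size (n M : ℕ) : ∃ C : ℝ, 0 ≤ C ∧ ∀ (K : Type) [Field K] [NumberField K]
    (ω : Module.Basis (Fin n) ℚ K) (x : Fin M → K),
    Height.logHeight x ≤ C * (Real.log (R6.size (R6.params ω x)) + 1) := by
  classical
  refine ⟨2 * n * Real.log n + (M * n + n * n * n) * (2 * n), by positivity, ?_⟩
  intro K _ _ ω x
  have hnK : Module.finrank ℚ K = n := by
    rw [Module.finrank_eq_card_basis ω, Fintype.card_fin]
  have hn0 : 0 < n := by
    rw [← hnK]
    exact Module.finrank_pos
  set H : ℕ := R6.size (R6.params ω x) with hH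
  have hle : ∀ t, (R6.params ω x t).num.natAbs ≤ H ∧ (R6.params ω x t).den ≤ H := by
    intro t
    have h1 : max (R6.params ω x t).num.natAbs (R6.params ω x t).den ≤ H := by
      rw [hH]
      unfold R6.size
      exact Finset.le_sup (f := fun i => max (R6.params ω x i).num.natAbs (R6.params ω x i).den)
        (Finset.mem_univ t)
    exact ⟨(le_max_left _ _).trans h1, (le_max_right _ _).trans h1⟩
  have hH1 : 1 ≤ H := (R6.params ω x (Sum.inl (⟨0, hn0⟩, ⟨0, hn0⟩, ⟨0, hn0⟩))).den_pos.trans_le
    (hle _).2
  have hlog : 0 ≤ Real.log H := Real.log_nonneg (by exact_mod_cast hH1)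
  have hlogn : 0 ≤ Real.log n := Real.log_nonneg (by exact_mod_cast hn0)
  -- the coordinates
  have hA : logHeight (fun t : Fin M × Fin n => ((ω.repr (x t.1) t.2 : ℚ) : K)) ≤
      (M * n) * (2 * n * Real.log H) := by
    refine (hts_vec _).trans ?_
    refine (Finset.sum_le_card_nsmul Finset.univ _ (2 * n * Real.log H) ?_).trans (le_of_eq ?_)
    · intro t _
      have h1 := hts_rat (K := K) (ω.repr (x t.1) t.2) hH1 (hle (Sum.inr t)).1 (hle (Sum.inr t)).2
      rwa [hnK] at h1
    · rw [Finset.card_univ, Fintype.card_prod, Fintype.card_fin, Fintype.card_fin, nsmul_eq_mul]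
      push_cast
      ring
  -- the structure constants
  have hC : logHeight (fun t : (Fin n × Fin n) × Fin n =>
      ((ω.repr (ω t.1.1 * ω t.1.2) t.2 : ℚ) : K)) ≤ (n * n * n) * (2 * n * Real.log H) := by
    refine (hts_vec _).trans ?_
    refine (Finset.sum_le_card_nsmul Finset.univ _ (2 * n * Real.log H) ?_).trans (le_of_eq ?_)
    · intro t _
      have h1 := hts_rat (K := K) (ω.repr (ω t.1.1 * ω t.1.2) t.2) hH1
        (hle (Sum.inl (t.1.1, t.1.2, t.2))).1 (hle (Sum.inl (t.1.1, t.1.2, t.2))).2
      rwa [hnK] at h1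
    · rw [Finset.card_univ, Fintype.card_prod, Fintype.card_prod, Fintype.card_fin, nsmul_eq_mul]
      push_cast
      ring
  -- the basis
  have hω0 : (fun i => ω i) ≠ 0 := by
    intro h
    exact ω.ne_zero ⟨0, hn0⟩ (congrFun h ⟨0, hn0⟩)
  have hω : logHeight (fun i => ω i) ≤ n * Real.log n + (n * n * n) * (2 * n * Real.log H) := by
    have h1 := logHeight_fun_mul_eq hω0 hω0
    have h2 := logHeight_linearMap_apply_le (K := K)
      (fun t : (Fin n × Fin n) × Fin n => ((ω.repr (ω t.1.1 * ω t.1.2) t.2 : ℚ) : K))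
      (fun i => ω i)
    have e : (fun j : Fin n × Fin n => ∑ i, ((ω.repr (ω j.1 * ω j.2) i : ℚ) : K) * ω i) =
        fun a : Fin n × Fin n => ω a.1 * ω a.2 := by
      funext j
      exact (hts_comb ω _).symm
    simp only at h1 h2
    rw [e, h1, NumberField.totalWeight_eq_finrank, hnK, Nat.card_eq_fintype_card,
      Fintype.card_fin] at h2
    linarith
  have hx : logHeight x ≤ n * Real.log n + (M * n) * (2 * n * Real.log H) +
      (n * Real.log n + (n * n * n) * (2 * n * Real.log H)) := by
    have h2 := logHeight_linearMap_apply_le (K := K)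
      (fun t : Fin M × Fin n => ((ω.repr (x t.1) t.2 : ℚ) : K)) (fun i => ω i)
    have e : (fun j : Fin M => ∑ i, ((ω.repr (x j) i : ℚ) : K) * ω i) = x := by
      funext j
      exact (hts_comb ω _).symm
    simp only at h2
    rw [e, NumberField.totalWeight_eq_finrank, hnK, Nat.card_eq_fintype_card,
      Fintype.card_fin] at h2
    linarith
  refine hx.trans ?_
  have h3 : 0 ≤ 2 * (n : ℝ) * Real.log n * Real.log H := by positivity
  have h4 : (0 : ℝ) ≤ (M * n + n * n * n) * (2 * n) := by positivity
  have h5 : (2 * (n : ℝ) * Real.log n + (M * n + n * n * n) * (2 * n)) * (Real.log H + 1) =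
      (n * Real.log n + (M * n) * (2 * n * Real.log H) +
      (n * Real.log n + (n * n * n) * (2 * n * Real.log H))) +
      2 * (n : ℝ) * Real.log n * Real.log H + (M * n + n * n * n) * (2 * n) := by ring
  rw [h5]
  linarith

end Pool.Agent.Y724.T4
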