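import Mathlib
import Pool.Agent.Y724.T4.RES6
import Pool.Agent.Y724.T4.LNG

set_option autoImplicit false

/-!
# Lang's conjecture for the points with sparse coordinates over all number fields of bounded degree,
with a bound for the height by the discriminant of the field

`X` is a smooth projective variety of dimension `N` over `ℚ` in `ℙ^(N + s)` with the equations
`G k = 0` and with big canonical class. For every finite set `S` of primes and every `r` there is one
proper closed subset `Z` of `X` such that `h(x) ≤ κ d(K) + C` for all number fields `K` of degree at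
most `r` and all points `x` of `X - Z` over `K` with sparse coordinates; in particular for each `K`
there are only finitely many. The number `κ` depends only on `X`.
-/

namespace Pool.Agent.Y724.T4.R9

open MvPolynomial NumberField

/-! ### The variety -/

section field
variable {L : Type} [Field L]

/-- `x` represents a point of the variety `X` over the field `L` -/
def OnX {M g : ℕ} (G : Fin g → MvPolynomial (Fin M) ℤ) (x : Fin M → L) : Prop :=
  ∀ k, aeval x (G k) = 0

/-- The columns of `T` are a basis of the tangent space of the affine cone over `X` at `x` (the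
vectors orthogonal to all gradients of equations), `X` being smooth of dimension `N` at `x`. -/
def IsTangentBasis {M N g : ℕ} (G : Fin g → MvPolynomial (Fin M) ℤ) (x : Fin M → L)
    (T : Matrix (Fin M) (Fin (N + 1)) L) : Prop :=
  LinearIndependent L (fun c : Fin (N + 1) => fun j : Fin M => T j c) ∧
    ∀ k c, ∑ j, aeval x (pderiv j (G k)) * T j c = 0

/-- the value of `P` at the coordinates of `x` and the maximal minors of `T` -/
noncomputable def value {M N : ℕ} (P : MvPolynomial (Fin M ⊕ (Fin (N + 1) → Fin M)) ℤ)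
    (x : Fin M → L) (T : Matrix (Fin M) (Fin (N + 1)) L) : L :=
  aeval (Sum.elim x (fun J : Fin (N + 1) → Fin M => (T.submatrix J id).det)) P

end field

/-- The dimension of `X` is at least `N`: some `N + 1` coordinates are algebraically independent on
the cone over `X`. -/
def DimGE {M g : ℕ} (N : ℕ) (G : Fin g → MvPolynomial (Fin M) ℤ) : Prop :=
  ∃ J : Fin (N + 1) → Fin M, ∀ P : MvPolynomial (Fin (N + 1)) ℚ,
    (∀ z : Fin M → ℂ, OnX G z → aeval (fun i => z (J i)) P = 0) → P = 0

/-- `X` is smooth of codimension `s`: at every complex point of `X` the gradients of the equations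
span a space of dimension `s`. -/
def IsSmooth {M g : ℕ} (s : ℕ) (G : Fin g → MvPolynomial (Fin M) ℤ) : Prop :=
  ∀ z : Fin M → ℂ, z ≠ 0 → OnX G z →
    Module.finrank ℂ (Submodule.span ℂ (Set.range fun (k : Fin g) (y : Fin M) =>
      aeval z (pderiv y (G k)))) = s

/-- `X` is irreducible over `ℚ`: if a product of two polynomials vanishes on `X`, then one of them
does. -/
def IsIrreducible {M g : ℕ} (G : Fin g → MvPolynomial (Fin M) ℤ) : Prop :=
  ∀ P Q : MvPolynomial (Fin M) ℚ, (∀ z : Fin M → ℂ, OnX G z → aeval z (P * Q) = 0) →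
    (∀ z : Fin M → ℂ, OnX G z → aeval z P = 0) ∨ (∀ z : Fin M → ℂ, OnX G z → aeval z Q = 0)

/-- `P` is homogeneous of degree `k` in the variables `x i` and of degree `μ` in the variables
`p J`. -/
def IsBihomogeneous {M : ℕ} {ι : Type} [Fintype ι] (k μ : ℕ)
    (P : MvPolynomial (Fin M ⊕ ι) ℤ) : Prop :=
  ∀ m ∈ P.support, ∑ i, m (Sum.inl i) = k ∧ ∑ J, m (Sum.inr J) = μ

/-- The canonical class `K` of the smooth variety `X` of dimension `N` is big: for some `μ` the class
`μ K - H`, `H` the hyperplane class, has a section that vanishes at most on a proper closed subset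
`Θ = 0` of `X`. The Gauss map `γ` sends a point to its embedded tangent space, whose Plücker
coordinates `p` are the maximal minors of a tangent basis `T`, and `γ^* O(1) = K + (N + 1) H`; so a
section of `μ K - H` is given on the affine open subset `x y ≠ 0` of `X` by a quotient
`P y / x y ^ (k + μ (N + 1) + 1)`, where `P y` is a polynomial in `x` and `p`, homogeneous of degree
`k` in `x` and `μ` in `p`. -/
def BigCanonical {M g : ℕ} (N : ℕ) (G : Fin g → MvPolynomial (Fin M) ℤ) : Prop :=
  ∃ (μ k c : ℕ) (P : Fin M → MvPolynomial (Fin M ⊕ (Fin (N + 1) → Fin M)) ℤ)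
    (Θ : MvPolynomial (Fin M) ℚ), (∀ y, IsBihomogeneous k μ (P y)) ∧ Θ.IsHomogeneous c ∧
    (∃ z : Fin M → ℂ, OnX G z ∧ aeval z Θ ≠ 0) ∧
    ∀ (z : Fin M → ℂ) (T : Matrix (Fin M) (Fin (N + 1)) ℂ), z ≠ 0 → OnX G z →
      IsTangentBasis G z T →
      (∀ y y', value (P y) z T * z y' ^ (k + μ * (N + 1) + 1) =
        value (P y') z T * z y ^ (k + μ * (N + 1) + 1)) ∧
      (aeval z Θ ≠ 0 → ∃ y, value (P y) z T ≠ 0)

/-! ### Number fields -/

section nf
variable {K : Type} [Field K] [NumberField K]

/-- the absolute logarithmic height of the point with the homogeneous coordinates `x` -/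
noncomputable def height {M : ℕ} (x : Fin M → K) : ℝ :=
  Height.logHeight x / Module.finrank ℚ K

variable (K) in
/-- the logarithmic discriminant `d(K)` -/
noncomputable def logDisc : ℝ :=
  Real.log |((NumberField.discr K : ℤ) : ℝ)| / Module.finrank ℚ K

/-- The logarithmic discriminant of the basis `ω`, without the primes in `S`: `1 / [K : ℚ]` times the
logarithm of the part prime to `S` of the discriminant of `ω` (`log |disc|` minus the contributions
`- log |disc|_p` of the primes `p ∈ S`). -/
noncomputable def logDiscBasis {n : ℕ} (S : Finset ℕ) (ω : Module.Basis (Fin n) ℚ K) : ℝ :=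
  (Real.log |((Algebra.discr ℚ ω : ℚ) : ℝ)| +
    ∑ p ∈ S, Real.log ((padicNorm p (Algebra.discr ℚ ω) : ℚ) : ℝ)) / Module.finrank ℚ K

/-- The parameters of the vector `x` over the number field with the basis `ω`: the structure
constants of `ω` (the coordinates of the products `ω i * ω j`) and the coordinates of the `x y` in the
basis. -/
noncomputable def params {n M : ℕ} (ω : Module.Basis (Fin n) ℚ K) (x : Fin M → K) :
    (Fin n × Fin n × Fin n) ⊕ (Fin M × Fin n) → ℚ :=
  Sum.elim (fun t => ω.repr (ω t.1 * ω t.2.1) t.2.2) (fun t => ω.repr (x t.1) t.2)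

/-- All algebraic integers of `K` are combinations of the `ω i` with `S`-integral coefficients. If
the structure constants of `ω` are `S`-integral as well, then `ω` is a basis over `ℤ_S` of the ring
of `S`-integers of `K`. -/
def SpansIntegers {n : ℕ} (S : Finset ℕ) (ω : Module.Basis (Fin n) ℚ K) : Prop :=
  ∀ (y : 𝓞 K) (i : Fin n) (p : ℕ), p.Prime → p ∣ (ω.repr (y : K) i).den → p ∈ S

end nf

/-! ### Short sums of `S`-units -/

/-- `u` is an `S`-unit: plus or minus a product of powers (with integer exponents) of the primes in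
`S` -/
def IsSUnit (S : Finset ℕ) (u : ℚ) : Prop :=
  ∃ (σ : ℤ) (e : ℕ → ℤ), (σ = 1 ∨ σ = -1) ∧ u = σ * ∏ p ∈ S, (p : ℚ) ^ e p

/-- the maximum of the absolute values of the numerators and denominators of the `z i` -/
def size {ι : Type} [Fintype ι] (z : ι → ℚ) : ℕ :=
  Finset.univ.sup (fun i => max (z i).num.natAbs (z i).den)

/-- The rational vector `z` is a sum of `l` integer vectors with entries of absolute value at most
`B * H ^ δ`, `H` the size of `z`, multiplied by `S`-units. -/
def IsShortSum {ι : Type} [Fintype ι] (S : Finset ℕ) (l : ℕ) (B δ : ℝ) (z : ι → ℚ) : Prop :=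
  ∃ (u : Fin l → ℚ) (m : Fin l → ι → ℤ), (∀ j, IsSUnit S (u j)) ∧
    (∀ j i, |(m j i : ℝ)| ≤ B * (size z : ℝ) ^ δ) ∧ ∀ i, z i = ∑ j, u j * m j i

/-- The sparse points: `x` is a point of `X` over `K` such that the structure constants of the basis
`ω` and the coordinates of `x` with respect to `ω` together form a sum of `l` integer vectors with
entries of absolute value at most `B H ^ δ` multiplied by `S`-units, `H` their size, and
`log H ≤ A (h(x) + 1)`. -/
def IsSparsePoint {K : Type} [Field K] [NumberField K] {M g n : ℕ}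
    (G : Fin g → MvPolynomial (Fin M) ℤ) (S : Finset ℕ) (l : ℕ) (A B δ : ℝ)
    (ω : Module.Basis (Fin n) ℚ K) (x : Fin M → K) : Prop :=
  OnX G x ∧ IsShortSum S l B δ (params ω x) ∧
    Real.log (size (params ω x)) ≤ A * (height x + 1)

/-- **Main theorem.** Let `X` be a smooth irreducible projective variety of dimension `N` over `ℚ` in
`ℙ^(N + s)` whose canonical class is big. There is a constant `κ`, which depends only on `X`, such
that for all finite sets `S` of primes, all natural numbers `r` and `l` and all real numbers `A` and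
`B` there are `δ > 0`, a form `Φ` that does not vanish on `X` and a constant `C` with the following
properties.
* For all number fields `K` of degree `n ≤ r` and all bases `ω` of `K`, the sparse points `x` of `X`
  over `K` with `Φ(x) ≠ 0` satisfy `h(x) ≤ κ d_S(ω) + C`, `d_S(ω)` the logarithmic discriminant of
  `ω` without the primes in `S`, and `h(x) ≤ κ d(K) + C` if `ω` is a basis of the `S`-integers.
* For each number field `K` of degree at most `r` the points of `X` over `K` outside `Φ = 0` which
  have a sparse representative with respect to some basis of the `S`-integers of `K` are finite in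
  number. -/
theorem main9 (N s g : ℕ) (G : Fin g → MvPolynomial (Fin (N + s + 1)) ℤ) (e : Fin g → ℕ)
    (hG : ∀ k, (G k).IsHomogeneous (e k)) (hdim : DimGE N G) (hsm : IsSmooth s G)
    (hirr : IsIrreducible G) (hbig : BigCanonical N G) :
    ∃ κ : ℝ, ∀ (S : Finset ℕ), (∀ p ∈ S, p.Prime) → ∀ (r l : ℕ) (A B : ℝ),
      ∃ (δ : ℝ) (Φ : MvPolynomial (Fin (N + s + 1)) ℚ) (k : ℕ) (C : ℝ), 0 < δ ∧
        Φ.IsHomogeneous k ∧ (∃ z : Fin (N + s + 1) → ℂ, OnX G z ∧ aeval z Φ ≠ 0) ∧
        (∀ (n : ℕ), n ≤ r → ∀ (K : Type) [Field K] [NumberField K]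
          (ω : Module.Basis (Fin n) ℚ K) (x : Fin (N + s + 1) → K),
          IsSparsePoint G S l A B δ ω x → aeval x Φ ≠ 0 →
          height x ≤ κ * logDiscBasis S ω + C ∧
          (SpansIntegers S ω → height x ≤ κ * logDisc K + C)) ∧
        ∀ (K : Type) [Field K] [NumberField K], Module.finrank ℚ K ≤ r →
          {P : Projectivization K (Fin (N + s + 1) → K) |
            ∃ (ω : Module.Basis (Fin (Module.finrank ℚ K)) ℚ K) (x : Fin (N + s + 1) → K)
              (hx : x ≠ 0), P = Projectivization.mk K x hx ∧ SpansIntegers S ω ∧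
              IsSparsePoint G S l A B δ ω x ∧ aeval x Φ ≠ 0}.Finite := by
  classical
  obtain ⟨μ, k0, c0, P, Θ, hP, hΘh, ⟨z0, hz0, hΘz0⟩, hsec⟩ := hbig
  refine ⟨2 * μ, ?_⟩
  intro S hS r l A B
  set A' : ℝ := |A| + 1 with hA'
  have hA'0 : 0 < A' := by positivity
  set ε : ℝ := 1 / (2 * (μ + 1) * A') with hε
  have hε0 : 0 < ε := by positivity
  have hμε : μ * (ε * A') ≤ 1 / 2 := by
    have h1 : (μ : ℝ) * (ε * A') = μ / (μ + 1) / 2 := by
      rw [hε]
      field_simp
    rw [h1]
    have h2 : (μ : ℝ) / (μ + 1) ≤ 1 := by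
      rw [div_le_one (by positivity)]
      linarith
    linarith
  -- smoothness
  have hsm' : Pool.Agent.Y724.T4.R6.SmoothPair s G
      (fun (_ : Fin 0) (_ : Fin 0) => (0 : MvPolynomial (Fin (N + s + 1)) ℤ)) := by
    intro z hz hzG
    obtain ⟨K, hK⟩ := Pool.Agent.Y724.T4.exists_rows_of_finrank _ (hsm z hz hzG)
    refine ⟨K, fun i => i.elim0, ?_⟩
    exact (linearIndependent_equiv (Equiv.sumEmpty (Fin s) _).symm).1 hK
  obtain ⟨δ, Φ, k, C, hδ, hΦh, ⟨z1, hz1, hΦz1⟩, hmain⟩ :=
    Pool.Agent.Y724.T4.R6.main6 N s g 0 0 G e hG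
      (fun (_ : Fin 0) (_ : Fin 0) => (0 : MvPolynomial (Fin (N + s + 1)) ℤ))
      (fun _ _ => 0) (fun i => i.elim0) hdim hsm' S hS r l A B ε hε0
  -- the exceptional set
  have hprod : ∀ P Q : MvPolynomial (Fin (N + s + 1)) ℚ,
      (∃ z : Fin (N + s + 1) → ℂ, OnX G z ∧ aeval z P ≠ 0) →
      (∃ z : Fin (N + s + 1) → ℂ, OnX G z ∧ aeval z Q ≠ 0) →
      ∃ z : Fin (N + s + 1) → ℂ, OnX G z ∧ aeval z (P * Q) ≠ 0 := by
    rintro P Q ⟨z, h1, h2⟩ ⟨z', h3, h4⟩
    by_contra hcon
    push Not at hcon
    rcases hirr P Q hcon with h | h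
    · exact h2 (h z h1)
    · exact h4 (h z' h3)
  obtain ⟨J, hJ⟩ := hdim
  have hX0 : ∃ z : Fin (N + s + 1) → ℂ, OnX G z ∧
      aeval z (X (J 0) : MvPolynomial (Fin (N + s + 1)) ℚ) ≠ 0 := by
    by_contra hcon
    push Not at hcon
    refine X_ne_zero (R := ℚ) (0 : Fin (N + 1)) (hJ _ fun z hz => ?_)
    have h1 := hcon z hz
    rw [aeval_X] at h1 ⊢
    exact h1
  set c : ℝ := Real.log (1 + ∑ y, Pool.Agent.Y724.T4.coefSum (P y)) with hc
  have hc0 : 0 ≤ c := by
    apply Real.log_nonneg
    linarith [Finset.sum_nonneg fun y (_ : y ∈ Finset.univ) =>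
      Pool.Agent.Y724.T4.coefSum_nonneg (P y)]
  have hkey : ∀ (n : ℕ), n ≤ r → ∀ (K : Type) [Field K] [NumberField K]
      (ω : Module.Basis (Fin n) ℚ K) (x : Fin (N + s + 1) → K),
      IsSparsePoint G S l A B δ ω x → aeval x (Φ * Θ * X (J 0)) ≠ 0 →
      height x ≤ 2 * μ * logDiscBasis S ω + (1 + 2 * μ * C + 2 * c) ∧
      (SpansIntegers S ω → height x ≤ 2 * μ * logDisc K + (1 + 2 * μ * C + 2 * c)) := by
    intro n hn K _ _ ω x hsp hne
    obtain ⟨hX, hshort, hlog⟩ := hsp
    rw [map_mul, map_mul, aeval_X] at hne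
    have hxJ : x (J 0) ≠ 0 := right_ne_zero_of_mul hne
    have hΦx : aeval x Φ ≠ 0 := left_ne_zero_of_mul (left_ne_zero_of_mul hne)
    have hΘx : aeval x Θ ≠ 0 := right_ne_zero_of_mul (left_ne_zero_of_mul hne)
    have hx0 : x ≠ 0 := fun h => hxJ (by rw [h]; rfl)
    have hnK : Module.finrank ℚ K = n := by
      rw [Module.finrank_eq_card_basis ω, Fintype.card_fin]
    have hn0 : 0 < n := by
      rw [← hnK]
      exact Module.finrank_pos
    have hnR : (0 : ℝ) < n := by exact_mod_cast hn0
    obtain ⟨φ⟩ := (inferInstance : Nonempty (K →+* ℂ))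
    have hev : ∀ {σ : Type} (v : σ → K) (Q : MvPolynomial σ ℤ),
        aeval (fun j => φ (v j)) Q = φ (aeval v Q) := fun v Q =>
      (comp_aeval_apply v φ.toIntAlgHom Q).symm
    have hevQ : ∀ (v : Fin (N + s + 1) → K) (Q : MvPolynomial (Fin (N + s + 1)) ℚ),
        aeval (fun j => φ (v j)) Q = φ (aeval v Q) := fun v Q =>
      (comp_aeval_apply v φ.toRatAlgHom Q).symm
    set z : Fin (N + s + 1) → ℂ := fun j => φ (x j) with hz
    have hzX : OnX G z := by
      intro k
      rw [hz, hev, hX k, map_zero]
    have hz0 : z ≠ 0 := by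
      intro h
      apply hx0
      funext y
      exact (map_eq_zero φ).1 (congrFun h y)
    have hrk : Module.finrank K (Submodule.span K (Set.range fun (k : Fin g)
        (y : Fin (N + s + 1)) => aeval x (pderiv y (G k)))) = s := by
      rw [← Pool.Agent.Y724.T4.finrank_up φ]
      refine Eq.trans (congrArg (fun f : Fin g → Fin (N + s + 1) → ℂ =>
        Module.finrank ℂ (Submodule.span ℂ (Set.range f))) ?_) (hsm z hz0 hzX)
      funext k y
      exact (hev x _).symm
    obtain ⟨T, hT1, hT2⟩ := Pool.Agent.Y724.T4.exists_kernel _ hrk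
    obtain ⟨J1, hJ1⟩ := Pool.Agent.Y724.T4.exists_minor T hT1
    set u : (Fin (N + 1) → Fin (N + s + 1)) → K := fun J => (T.submatrix J id).det with hu
    have hu0 : u ≠ 0 := fun h => hJ1 (congrFun h J1)
    have hval : ∀ Q, value Q z (T.map φ) = φ (aeval (Sum.elim x u) Q) := by
      intro Q
      rw [← hev]
      unfold value
      congr 2
      funext j
      rcases j with j | J
      · rfl
      · change ((T.map φ).submatrix J id).det = φ (T.submatrix J id).det
        rw [RingHom.map_det]
        rfl
    obtain ⟨hrel, hnz⟩ := hsec z (T.map φ) hz0 hzX ⟨Pool.Agent.Y724.T4.li_up φ _ hT1,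
      fun k c => by
        have h1 := congrArg φ (hT2 k c)
        rw [map_sum, map_zero] at h1
        rw [← h1]
        refine Finset.sum_congr rfl fun j _ => ?_
        rw [map_mul, hz, hev]
        rfl⟩
    have hbh := Pool.Agent.Y724.T4.big_height x hx0 u hu0 P k0 μ (k0 + μ * (N + 1) + 1) hP
      (by omega) (fun y y' => by
        have h1 := hrel y y'
        rw [hval, hval, hz] at h1
        simp only at h1
        rw [← map_pow, ← map_pow, ← map_mul, ← map_mul] at h1
        exact φ.injective h1) (by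
        obtain ⟨y, hy⟩ := hnz (by
          rw [hz, hevQ]
          exact fun h => hΘx ((map_eq_zero φ).1 h))
        rw [hval] at hy
        exact ⟨y, fun h => hy (by rw [h, map_zero])⟩)
    obtain ⟨h1, h2⟩ := hmain n hn K ω x hX hshort hΦx (fun i => i.elim0) T ⟨hT1, hT2⟩
    have hprox : Pool.Agent.Y724.T4.R6.proximity
        (fun (_ : Fin 0) (_ : Fin 0) => (0 : MvPolynomial (Fin (N + s + 1)) ℤ))
        (fun _ _ => 0) S x = 0 := by
      unfold Pool.Agent.Y724.T4.R6.proximity
      simp
    rw [hprox, zero_add] at h1 h2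
    set hK : ℝ := Pool.Agent.Y724.T4.R6.canonicalHeight x T with hhK
    have hcan : hK = (Height.logHeight u - (N + 1) * Height.logHeight x) / n := by
      rw [hhK]
      unfold Pool.Agent.Y724.T4.R6.canonicalHeight
      rw [hnK]
    have hht : height x = Height.logHeight x / n := by
      unfold height
      rw [hnK]
    have hh0 : 0 ≤ height x := by
      rw [hht]
      exact div_nonneg (Height.logHeight_nonneg _) hnR.le
    have h3 : height x ≤ μ * hK + c := by
      rw [hht, hcan, ← mul_div_assoc, div_add' _ _ _ hnR.ne', div_le_div_iff_of_pos_right hnR]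
      rw [hnK] at hbh
      push_cast at hbh
      nlinarith
    have h4 : ∀ D : ℝ, hK ≤ D + ε * (A' * (height x + 1)) + C →
        height x ≤ 2 * μ * D + (1 + 2 * μ * C + 2 * c) := by
      intro D hD
      have h5 : (μ : ℝ) * hK ≤ μ * (D + ε * (A' * (height x + 1)) + C) :=
        mul_le_mul_of_nonneg_left hD (Nat.cast_nonneg _)
      have h6 : (μ : ℝ) * (ε * A') * (height x + 1) ≤ 1 / 2 * (height x + 1) :=
        mul_le_mul_of_nonneg_right hμε (by linarith)
      nlinarith
    have hAA : A ≤ A' := by
      rw [hA']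
      linarith [le_abs_self A]
    have hA1 : 1 ≤ A' := by
      rw [hA']
      linarith [abs_nonneg A]
    constructor
    · refine h4 _ (h1.trans ?_)
      have h5 : Real.log (size (params ω x)) ≤ A' * (height x + 1) :=
        hlog.trans (mul_le_mul_of_nonneg_right hAA (by linarith))
      have h6 := mul_le_mul_of_nonneg_left h5 hε0.le
      have h7 : Pool.Agent.Y724.T4.R6.logDiscBasis S ω = logDiscBasis S ω := rfl
      have h8 : Real.log (Pool.Agent.Y724.T4.R6.size (Pool.Agent.Y724.T4.R6.params ω x)) =
        Real.log (size (params ω x)) := rfl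
      rw [h7, h8]
      linarith
    · intro hspan
      refine h4 _ ?_
      have h5 := h2 hspan hlog
      have h7 : Pool.Agent.Y724.T4.R6.logDisc K = logDisc K := rfl
      have h8 : Pool.Agent.Y724.T4.R6.height x = height x := rfl
      rw [h7, h8] at h5
      have h9 : ε * height x ≤ ε * (A' * (height x + 1)) := by
        refine mul_le_mul_of_nonneg_left ?_ hε0.le
        nlinarith
      linarith
  refine ⟨δ, Φ * Θ * X (J 0), k + c0 + 1, 1 + 2 * μ * C + 2 * c, hδ,
    (hΦh.mul hΘh).mul (isHomogeneous_X _ _),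
    hprod _ _ (hprod _ _ ⟨z1, hz1, hΦz1⟩ ⟨z0, hz0, hΘz0⟩) hX0, hkey, ?_⟩
  intro K _ _ hKr
  have hn0 : 0 < Module.finrank ℚ K := Module.finrank_pos
  have hnR : (0 : ℝ) < Module.finrank ℚ K := by exact_mod_cast hn0
  refine (Pool.Agent.Y724.T4.finite_points (K := K) (M := N + s + 1)
    ((2 * μ * logDisc K + (1 + 2 * μ * C + 2 * c)) * Module.finrank ℚ K)).subset ?_
  rintro Q ⟨ω, x, hx, hQ, hspan, hsp, hne⟩
  refine ⟨x, hx, hQ, ?_⟩
  have h1 := (hkey _ hKr K ω x hsp hne).2 hspan
  unfold height at h1
  rwa [div_le_iff₀ hnR] at h1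

end Pool.Agent.Y724.T4.R9
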