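import Mathlib
import Pool.Agent.Y724.T4.RES6

/-!
# UNI: the coordinates of values of forms are universal polynomials in the parameters
-/

set_option autoImplicit false

namespace Pool.Agent.Y724.T4

open MvPolynomial

/-- the indices of the parameters -/
abbrev PIdx (n M : ℕ) : Type := (Fin n × Fin n × Fin n) ⊕ (Fin M × Fin n)

section mul
variable {K : Type} [Field K] [NumberField K] {n M : ℕ}

lemma repr_mul' (ω : Module.Basis (Fin n) ℚ K) (a b : K) (k : Fin n) :
    ω.repr (a * b) k = ∑ i, ∑ j, ω.repr a i * ω.repr b j * ω.repr (ω i * ω j) k := by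
  have h1 : a * b = ∑ i, ∑ j, (ω.repr a i * ω.repr b j) • (ω i * ω j) := by
    conv_lhs => rw [← ω.sum_repr a, ← ω.sum_repr b, Finset.sum_mul_sum]
    refine Finset.sum_congr rfl fun i _ => Finset.sum_congr rfl fun j _ => ?_
    rw [smul_mul_smul_comm]
  rw [h1, map_sum, Finsupp.finsetSum_apply]
  refine Finset.sum_congr rfl fun i _ => ?_
  rw [map_sum, Finsupp.finsetSum_apply]
  refine Finset.sum_congr rfl fun j _ => ?_
  rw [map_smul, Finsupp.smul_apply, smul_eq_mul]

end mul

lemma split_off {M : ℕ} (m : Fin M →₀ ℕ) (d : ℕ) (hm : m.degree = d + 1) :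
    ∃ (y : Fin M) (m' : Fin M →₀ ℕ), m = Finsupp.single y 1 + m' ∧ m'.degree = d := by
  have h0 : m ≠ 0 := by
    rintro rfl
    simp at hm
  obtain ⟨y, hy⟩ := Finsupp.ne_iff.1 h0
  have h1 : Finsupp.single y 1 ≤ m := by
    rw [Finsupp.single_le_iff]
    exact Nat.one_le_iff_ne_zero.2 hy
  refine ⟨y, m - Finsupp.single y 1, (add_tsub_cancel_of_le h1).symm, ?_⟩
  have h2 := congrArg Finsupp.degree (add_tsub_cancel_of_le h1)
  rw [map_add, hm] at h2
  have h3 : (Finsupp.single y 1 : Fin M →₀ ℕ).degree = 1 := by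
    rw [Finsupp.degree_single]
  omega

lemma uni_mono (n M d : ℕ) : ∀ m : Fin M →₀ ℕ, m.degree = d + 1 →
    ∃ Q : Fin n → MvPolynomial (PIdx n M) ℤ, ∀ (K : Type) [Field K] [NumberField K]
      (ω : Module.Basis (Fin n) ℚ K) (x : Fin M → K) (k : Fin n),
      ω.repr (m.prod fun y e => x y ^ e) k = aeval (R6.params ω x) (Q k) := by
  induction d with
  | zero =>
    intro m hm
    obtain ⟨y, m', rfl, hm'⟩ := split_off m 0 hm
    have h0 : m' = 0 := by
      rwa [Finsupp.degree_eq_zero_iff] at hm'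
    refine ⟨fun k => X (Sum.inr (y, k)), fun K _ _ ω x k => ?_⟩
    rw [h0, add_zero, Finsupp.prod_single_index (by rw [pow_zero]), pow_one, aeval_X]
    rfl
  | succ d ih =>
    intro m hm
    obtain ⟨y, m', rfl, hm'⟩ := split_off m (d + 1) hm
    obtain ⟨Q, hQ⟩ := ih m' hm'
    refine ⟨fun k => ∑ i, ∑ j, X (Sum.inr (y, i)) * Q j * X (Sum.inl (i, j, k)),
      fun K _ _ ω x k => ?_⟩
    rw [Finsupp.prod_add_index' (fun _ => pow_zero _) (fun _ _ _ => pow_add _ _ _),
      Finsupp.prod_single_index (by rw [pow_zero]), pow_one, repr_mul', map_sum]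
    refine Finset.sum_congr rfl fun i _ => ?_
    rw [map_sum]
    refine Finset.sum_congr rfl fun j _ => ?_
    rw [map_mul (aeval (R6.params ω x)), map_mul (aeval (R6.params ω x)), aeval_X, aeval_X, hQ]
    rfl

lemma uni_poly (n M d : ℕ) (P : MvPolynomial (Fin M) ℤ) (hP : P.IsHomogeneous (d + 1)) :
    ∃ Q : Fin n → MvPolynomial (PIdx n M) ℤ, ∀ (K : Type) [Field K] [NumberField K]
      (ω : Module.Basis (Fin n) ℚ K) (x : Fin M → K) (k : Fin n),
      ω.repr (aeval x P) k = aeval (R6.params ω x) (Q k) := by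
  classical
  have hdeg : ∀ m ∈ P.support, m.degree = d + 1 := by
    intro m hm
    have h1 := hP (mem_support_iff.1 hm)
    have h2 : m.degree = Finsupp.weight 1 m := by
      rw [Finsupp.degree_eq_weight_one]
      rfl
    rw [h2, h1]
  choose Q hQ using fun m : P.support => uni_mono n M d m.1 (hdeg m.1 m.2)
  refine ⟨fun k => ∑ m : P.support, C (P.coeff m.1) * Q m k, fun K _ _ ω x k => ?_⟩
  have h1 : aeval x P = ∑ m : P.support,
      ((P.coeff m.1 : ℤ) : ℚ) • (m.1.prod fun y e => x y ^ e) := by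
    conv_lhs => rw [P.as_sum, map_sum, ← Finset.sum_coe_sort]
    refine Finset.sum_congr rfl fun m _ => ?_
    rw [aeval_monomial, Algebra.smul_def]
    simp
  rw [h1, map_sum, Finsupp.finsetSum_apply, map_sum]
  refine Finset.sum_congr rfl fun m _ => ?_
  rw [map_smul, Finsupp.smul_apply, hQ, map_mul, aeval_C, smul_eq_mul]
  simp

theorem uni_params {n M w : ℕ} (F : Fin w → MvPolynomial (Fin M) ℤ) (d : ℕ)
    (hF : ∀ j, (F j).IsHomogeneous (d + 1)) :
    ∃ P : PIdx n w → MvPolynomial (PIdx n M) ℤ, ∀ (K : Type) [Field K] [NumberField K]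
      (ω : Module.Basis (Fin n) ℚ K) (x : Fin M → K),
      R6.params ω (fun j => aeval x (F j)) = fun i => aeval (R6.params ω x) (P i) := by
  choose Q hQ using fun j => uni_poly n M d (F j) (hF j)
  refine ⟨Sum.elim (fun t => X (Sum.inl t)) (fun t => Q t.1 t.2), fun K _ _ ω x => ?_⟩
  funext i
  rcases i with t | t
  · rw [Sum.elim_inl, aeval_X]
    rfl
  · rw [Sum.elim_inr, ← hQ]
    rfl

end Pool.Agent.Y724.T4
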